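import Pool.Agent.Lib.MP_fd3021_gt.LB

/-! Equivariant comparison lemma. -/

namespace Pool.Agent.Lib.MP_fd3021_gt

variable {G X B : Type} [Group G] [MulAction G X]

theorem lift_equiv (H : Subgroup G) (ρ : G → B → B) (ρ1 : ∀ b, ρ 1 b = b)
    (ρm : ∀ g h b, ρ (g * h) b = ρ g (ρ h b)) (P : X → Prop)
    (hP : ∀ (g : G) x, P (g • x) ↔ P x) (free : ∀ h ∈ H, ∀ x, P x → h • x = x → h = 1)
    (R : X → B → Prop) (hR : ∀ h ∈ H, ∀ x b, R x b → R (h • x) (ρ h b))
    (ex : ∀ x, P x → ∃ b, R x b) (φ₀ : X → B) (h₀ : ∀ h ∈ H, ∀ x, φ₀ (h • x) = ρ h (φ₀ x)) :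
    ∃ φ : X → B, (∀ h ∈ H, ∀ x, φ (h • x) = ρ h (φ x)) ∧ (∀ x, P x → R x (φ x)) ∧
      ∀ x, ¬P x → φ x = φ₀ x := by
  classical
  let o : X → X := fun x => (Quotient.mk (MulAction.orbitRel H X) x).out
  have ho : ∀ x, ∃ h : G, h ∈ H ∧ h • o x = x := by
    intro x
    have h1 : (MulAction.orbitRel H X) x (o x) :=
      (MulAction.orbitRel H X).symm' (Quotient.mk_out (s := MulAction.orbitRel H X) x)
    obtain ⟨h, hh⟩ := MulAction.orbitRel_apply.1 h1
    exact ⟨h, h.2, hh⟩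
  have hoo : ∀ h ∈ H, ∀ x, o (h • x) = o x := by
    intro h hh x
    have h1 : (MulAction.orbitRel H X) (h • x) x :=
      MulAction.orbitRel_apply.2 ⟨⟨h, hh⟩, rfl⟩
    simp only [o, Quotient.sound h1]
  choose t ht hto using ho
  have hPo : ∀ x, P x → P (o x) := fun x hx => (hP (t x) (o x)).1 (by rwa [hto])
  choose b hb using ex
  refine ⟨fun x => if hx : P x then ρ (t x) (b (o x) (hPo x hx)) else φ₀ x, ?_, ?_, ?_⟩
  · intro h hh x
    by_cases hx : P x
    · have hx' : P (h • x) := (hP h x).2 hx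
      have e1 : t (h • x) = h * t x := by
        have h2 : ((h * t x)⁻¹ * t (h • x)) • o x = o x := by
          rw [mul_smul, ← hoo h hh x, hto, hoo h hh x, inv_smul_eq_iff, mul_smul, hto]
        have h3 := free _ (H.mul_mem (H.inv_mem (H.mul_mem hh (ht x))) (ht _)) _ (hPo x hx) h2
        exact (inv_mul_eq_one.1 h3).symm
      have e2 : b (o (h • x)) (hPo _ hx') = b (o x) (hPo x hx) := by
        congr 1
        exact hoo h hh x
      simp only [dif_pos hx, dif_pos hx', e1, e2, ρm]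
    · have hx' : ¬P (h • x) := fun h' => hx ((hP h x).1 h')
      simp only [dif_neg hx, dif_neg hx', h₀ h hh]
  · intro x hx
    simp only [dif_pos hx]
    have := hR _ (ht x) _ _ (hb (o x) (hPo x hx))
    rwa [hto] at this
  · intro x hx
    simp only [dif_neg hx]

theorem lc_equiv [AddCommGroup B] (h : G) (ρ : B →ₗ[ℤ] B) (φ : X → B)
    (hφ : ∀ x, φ (h • x) = ρ (φ x)) (ξ : X →₀ ℤ) :
    lc φ (ξ.mapDomain (h • ·)) = ρ (lc φ ξ) := by
  rw [Finsupp.linearCombination_mapDomain, Finsupp.apply_linearCombination]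
  congr 2
  funext x
  exact hφ x

omit [Group G] [MulAction G X] in
theorem comp_aux_congr [AddCommGroup B] (φ ψ : X → B) (ξ : X →₀ ℤ)
    (h : ∀ y ∈ ξ.support, φ y = ψ y) : lc φ ξ = lc ψ ξ := by
  rw [Finsupp.linearCombination_apply, Finsupp.linearCombination_apply]
  exact Finsupp.sum_congr fun y hy => by rw [h y hy]

theorem compare [AddCommGroup B] (H : Subgroup G) (ρ : G →* Module.End ℤ B) (len : X → ℕ)
    (hlen : ∀ (g : G) x, len (g • x) = len x)
    (free : ∀ h ∈ H, ∀ x, len x ≠ 0 → h • x = x → h = 1)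
    (d : X → X →₀ ℤ) (hd : ∀ x, ∀ y ∈ (d x).support, len y + 1 = len x)
    (dd0 : ∀ x, lc d (d x) = 0) (deq : ∀ h ∈ H, ∀ x, d (h • x) = (d x).mapDomain (h • ·))
    (Dd : B →ₗ[ℤ] B) (Deq : ∀ h ∈ H, ∀ b, Dd (ρ h b) = ρ h (Dd b))
    (S : ℕ → Submodule ℤ B) (Seq : ∀ h ∈ H, ∀ k, ∀ b ∈ S k, ρ h b ∈ S k) (r : ℕ)
    (ex : ∀ k < r, ∀ b ∈ S k, Dd b = 0 → ∃ b' ∈ S (k + 1), Dd b' = b)
    (σ : ℤ) (β : X → B) (βeq : ∀ h ∈ H, ∀ x, β (h • x) = ρ h (β x))
    (βS : ∀ x k, len x = k + 1 → k < r → β x ∈ S k)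
    (βd : ∀ x, len x ≤ r → Dd (β x) + σ • lc β (d x) = 0)
    (φ₀ : X → B) (φ₀eq : ∀ h ∈ H, ∀ x, φ₀ (h • x) = ρ h (φ₀ x))
    (φ₀S : ∀ x, len x = 0 → φ₀ x ∈ S 0 ∧ Dd (φ₀ x) = β x) :
    ∃ φ : X → B, (∀ h ∈ H, ∀ x, φ (h • x) = ρ h (φ x)) ∧ (∀ x, len x = 0 → φ x = φ₀ x) ∧
      ∀ x, len x ≤ r → φ x ∈ S (len x) ∧ Dd (φ x) = σ • lc φ (d x) + β x := by
  suffices hk : ∀ k ≤ r, ∃ φ : X → B, (∀ h ∈ H, ∀ x, φ (h • x) = ρ h (φ x)) ∧
      (∀ x, len x = 0 → φ x = φ₀ x) ∧
      ∀ x, len x ≤ k → φ x ∈ S (len x) ∧ Dd (φ x) = σ • lc φ (d x) + β x from hk r le_rfl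
  intro k
  induction k with
  | zero =>
    intro _
    refine ⟨φ₀, φ₀eq, fun _ _ => rfl, fun x hx => ?_⟩
    have hx0 : len x = 0 := by omega
    have hd0 : d x = 0 := by
      ext y
      by_contra hy
      have := hd x y (Finsupp.mem_support_iff.2 hy)
      omega
    rw [hx0, hd0, map_zero, smul_zero, zero_add]
    exact φ₀S x hx0
  | succ k ih =>
    intro hk
    obtain ⟨φ, φeq, φ0, φS⟩ := ih (by omega)
    obtain ⟨ψ, ψeq, ψR, ψo⟩ := lift_equiv H (fun g b => ρ g b) (fun b => by simp)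
      (fun g h b => by simp) (fun x => len x = k + 1) (fun g x => by rw [hlen])
      (fun h hh x hx => free h hh x (by omega))
      (fun x b => b ∈ S (k + 1) ∧ Dd b = σ • lc φ (d x) + β x)
      (fun h hh x b hb => ⟨Seq h hh _ _ hb.1, by
        rw [Deq h hh, hb.2, deq h hh, lc_equiv h (ρ h) φ (φeq h hh), βeq h hh, map_add,
          map_zsmul]⟩)
      (fun x hx => by
        have hy : ∀ y ∈ (d x).support, len y = k := fun y hy => by
          have := hd x y hy
          omega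
        have h1 : lc φ (d x) ∈ S k := by
          rw [Finsupp.linearCombination_apply]
          refine Submodule.sum_mem _ fun y hy' => Submodule.smul_mem _ _ ?_
          have := (φS y (hy y hy').le).1
          rwa [hy y hy'] at this
        have h2 : Dd (lc φ (d x)) = lc β (d x) := by
          rw [Finsupp.apply_linearCombination,
            comp_aux_congr (Dd ∘ φ) (fun y => σ • lc φ (d y) + β y) (d x)
              fun y hy' => (φS y (hy y hy').le).2]
          have h3 : lc (fun y => σ • lc φ (d y) + β y) =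
              σ • (lc φ).comp (lc d) + lc β := by
            ext y
            simp
          rw [h3]
          simp only [LinearMap.add_apply, LinearMap.smul_apply, LinearMap.comp_apply, dd0,
            map_zero, smul_zero, zero_add]
        obtain ⟨b, hb, hb'⟩ := ex k (by omega) (σ • lc φ (d x) + β x)
          (Submodule.add_mem _ (Submodule.smul_mem _ _ h1) (βS x k hx (by omega)))
          (by rw [map_add, map_zsmul, h2, add_comm]; exact βd x (by omega))
        exact ⟨b, hb, hb'⟩)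
      φ φeq
    refine ⟨ψ, ψeq, fun x hx => by rw [ψo x (by omega), φ0 x hx], fun x hx => ?_⟩
    have hc : lc ψ (d x) = lc φ (d x) := comp_aux_congr _ _ _ fun y hy => ψo y (by
      have := hd x y hy
      omega)
    rw [hc]
    by_cases hx' : len x = k + 1
    · rw [hx']
      exact ψR x hx'
    · rw [ψo x hx']
      exact φS x (by omega)

end Pool.Agent.Lib.MP_fd3021_gt

/-! Ordered chains on lists, the prism operator. -/

namespace Pool.Agent.Lib.MP_fd3021_gt

variable {E Ω : Type}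

theorem list_md_sub {X Y : Type} (f : X → Y) (ξ ζ : X →₀ ℤ) :
    (ξ - ζ).mapDomain f = ξ.mapDomain f - ζ.mapDomain f :=
  map_sub (Finsupp.lmapDomain ℤ ℤ f) ξ ζ

theorem list_md_sum {X Y κ : Type} (f : X → Y) (s : Finset κ) (ξ : κ → X →₀ ℤ) :
    (∑ k ∈ s, ξ k).mapDomain f = ∑ k ∈ s, (ξ k).mapDomain f :=
  map_sum (Finsupp.lmapDomain ℤ ℤ f) ξ s

theorem list_md_smul {X Y : Type} (f : X → Y) (c : ℤ) (ξ : X →₀ ℤ) :
    (c • ξ).mapDomain f = c • ξ.mapDomain f :=
  map_smul (Finsupp.lmapDomain ℤ ℤ f) c ξ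

theorem list_lc_single {X B : Type} [AddCommGroup B] (φ : X → B) (x : X) (c : ℤ) :
    lc φ (Finsupp.single x c) = c • φ x :=
  Finsupp.linearCombination_single ℤ c x

theorem bd_nil : bd ([] : List E) = 0 := by
  simp [bd]

theorem bd_cons (a : E) (l : List E) :
    bd (a :: l) = Finsupp.single l 1 - (bd l).mapDomain (a :: ·) := by
  rw [bd, bd, List.length_cons, Finset.sum_range_succ', list_md_sum, sub_eq_add_neg,
    ← Finset.sum_neg_distrib, add_comm]
  refine congrArg₂ (· + ·) (by simp) (Finset.sum_congr rfl fun k _ => ?_)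
  rw [Finsupp.mapDomain_single, List.eraseIdx_cons_succ, pow_succ, mul_neg_one, Finsupp.single_neg]

theorem lc_bd_cons (a : E) (ξ : List E →₀ ℤ) :
    lc bd (ξ.mapDomain (a :: ·)) = ξ - (lc bd ξ).mapDomain (a :: ·) := by
  induction ξ using Finsupp.induction_linear with
  | zero => simp
  | add x y hx hy =>
    rw [Finsupp.mapDomain_add, map_add, map_add, Finsupp.mapDomain_add, hx, hy]
    abel
  | single l c =>
    rw [Finsupp.mapDomain_single, list_lc_single, list_lc_single, bd_cons, list_md_smul, smul_sub,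
      Finsupp.smul_single_one]

theorem bd_bd (l : List E) : lc bd (bd l) = 0 := by
  induction l with
  | nil => rw [bd_nil, map_zero]
  | cons a l ih =>
    rw [bd_cons, map_sub, lc_bd_cons, ih, list_lc_single, one_smul, Finsupp.mapDomain_zero,
      sub_zero, sub_self]

theorem bd_map (φ : E → Ω) (l : List E) : bd (l.map φ) = (bd l).mapDomain (List.map φ) := by
  rw [bd, bd, list_md_sum, List.length_map]
  exact Finset.sum_congr rfl fun k _ => by rw [Finsupp.mapDomain_single, List.eraseIdx_map]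

theorem lc_bd_map (φ : E → Ω) (ξ : List E →₀ ℤ) :
    lc bd (ξ.mapDomain (List.map φ)) = (lc bd ξ).mapDomain (List.map φ) := by
  induction ξ using Finsupp.induction_linear with
  | zero => simp
  | add x y hx hy => rw [Finsupp.mapDomain_add, map_add, map_add, Finsupp.mapDomain_add, hx, hy]
  | single l c =>
    rw [Finsupp.mapDomain_single, list_lc_single, list_lc_single, bd_map, list_md_smul]

theorem bd_length (l : List E) : ∀ l' ∈ (bd l).support, l'.length + 1 = l.length := by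
  classical
  intro l' h
  obtain ⟨k, hk, h'⟩ := Finset.mem_biUnion.1 (Finsupp.support_finsetSum h)
  obtain rfl := Finset.mem_singleton.1 (Finsupp.support_single_subset h')
  have := Finset.mem_range.1 hk
  rw [List.length_eraseIdx_of_lt this]
  omega

theorem list_lc_mem {X B : Type} [AddCommGroup B] (φ : X → B) (N : Submodule ℤ B) {S : Set X}
    {ξ : X →₀ ℤ} (hξ : ξ ∈ Finsupp.supported ℤ ℤ S) (h : ∀ x ∈ S, φ x ∈ N) : lc φ ξ ∈ N := by
  rw [Finsupp.linearCombination_apply, Finsupp.sum]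
  exact N.sum_mem fun x hx => N.smul_mem _ (h x ((Finsupp.mem_supported ℤ ξ).1 hξ hx))

theorem list_md_mem {X Y : Type} (f : X → Y) {S : Set X} {T : Set Y} {ξ : X →₀ ℤ}
    (hξ : ξ ∈ Finsupp.supported ℤ ℤ S) (h : ∀ x ∈ S, f x ∈ T) :
    ξ.mapDomain f ∈ Finsupp.supported ℤ ℤ T := by
  rw [Finsupp.mapDomain, Finsupp.sum]
  exact Submodule.sum_mem _ fun x hx =>
    Finsupp.single_mem_supported ℤ _ (h x ((Finsupp.mem_supported ℤ ξ).1 hξ hx))

/-- the prism operator between the identity and `φ` -/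
noncomputable def list_prism (φ : E → E) : List E → List E →₀ ℤ
  | [] => 0
  | a :: l => Finsupp.single (a :: φ a :: l.map φ) 1 - (list_prism φ l).mapDomain (a :: ·)

theorem list_prism_cons (φ : E → E) (a : E) (ξ : List E →₀ ℤ) :
    lc (list_prism φ) (ξ.mapDomain (a :: ·)) =
      ((ξ.mapDomain (List.map φ)).mapDomain (φ a :: ·)).mapDomain (a :: ·) -
        (lc (list_prism φ) ξ).mapDomain (a :: ·) := by
  induction ξ using Finsupp.induction_linear with
  | zero => simp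
  | add x y hx hy =>
    simp only [Finsupp.mapDomain_add, map_add, hx, hy]
    abel
  | single l c =>
    simp only [Finsupp.mapDomain_single, list_lc_single, list_prism, list_md_smul, smul_sub,
      Finsupp.smul_single_one]

theorem list_prism_bd (φ : E → E) (l : List E) :
    lc bd (list_prism φ l) + lc (list_prism φ) (bd l) =
      Finsupp.single (l.map φ) 1 - Finsupp.single l 1 := by
  induction l with
  | nil => simp [list_prism, bd_nil]
  | cons a l ih =>
    have h := congrArg (Finsupp.mapDomain (a :: ·)) ih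
    rw [Finsupp.mapDomain_add, list_md_sub, Finsupp.mapDomain_single,
      Finsupp.mapDomain_single] at h
    rw [list_prism, map_sub, list_lc_single, one_smul, lc_bd_cons, bd_cons, bd_cons, bd_cons,
      map_sub, list_lc_single, one_smul, list_prism_cons, bd_map, list_md_sub,
      Finsupp.mapDomain_single, List.map_cons, eq_sub_of_add_eq h]
    abel

theorem list_prism_lc (φ : E → E) (ξ : List E →₀ ℤ) :
    lc bd (lc (list_prism φ) ξ) + lc (list_prism φ) (lc bd ξ) = ξ.mapDomain (List.map φ) - ξ := by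
  induction ξ using Finsupp.induction_linear with
  | zero => simp
  | add x y hx hy =>
    simp only [Finsupp.mapDomain_add, map_add]
    rw [eq_sub_of_add_eq hx, eq_sub_of_add_eq hy]
    abel
  | single l c =>
    rw [list_lc_single, list_lc_single, map_smul, map_smul, ← smul_add, list_prism_bd, smul_sub,
      Finsupp.smul_single_one, Finsupp.smul_single_one, Finsupp.mapDomain_single]

theorem list_prism_mem [DecidableEq Ω] (π : E → Ω) (φ : E → E) (hφ : ∀ a, π (φ a) = π a)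
    (l : List E) : list_prism φ l ∈ Finsupp.supported ℤ ℤ
      {l' : List E | l'.length = l.length + 1 ∧ (l'.map π).toFinset = (l.map π).toFinset} := by
  induction l with
  | nil => exact Submodule.zero_mem _
  | cons a l ih =>
    refine Submodule.sub_mem _ (Finsupp.single_mem_supported ℤ _ ⟨by simp, ?_⟩)
      (list_md_mem _ ih fun l' h => ⟨by simp [h.1], ?_⟩)
    · have : π ∘ φ = π := funext hφ
      simp [hφ, this]
    · simp only [List.map_cons, List.toFinset_cons, h.2]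

/-- exactness passes to lists over a set `E` with a split surjection to the vertices -/
theorem lift_exact [DecidableEq Ω] (Y : AbstractSimplicialComplex Ω) (π : E → Ω) (σ : Ω → E)
    (hσ : ∀ v, π (σ v) = v) (p : ℕ)
    (h : ∀ z ∈ chains Y p, lc bd z = 0 → ∃ y ∈ chains Y (p + 1), lc bd y = z) :
    ∀ z ∈ Finsupp.supported ℤ ℤ
        {l : List E | l.length = p ∧ (l = [] ∨ (l.map π).toFinset ∈ Y.faces)}, lc bd z = 0 →
      ∃ y ∈ Finsupp.supported ℤ ℤ
        {l : List E | l.length = p + 1 ∧ (l = [] ∨ (l.map π).toFinset ∈ Y.faces)},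
        lc bd y = z := by
  intro z hz h0
  obtain ⟨y, hy, e⟩ := h (z.mapDomain (List.map π))
    (list_md_mem _ hz fun l hl => ⟨by simpa using hl.1, hl.2.imp_left fun a => by simp [a]⟩)
    (by rw [lc_bd_map, h0, Finsupp.mapDomain_zero])
  have hc : π ∘ σ = id := funext hσ
  refine ⟨y.mapDomain (List.map σ) - lc (list_prism (σ ∘ π)) z, Submodule.sub_mem _
    (list_md_mem _ hy fun l hl => ⟨by simpa using hl.1, hl.2.imp (fun a => by simp [a]) fun a => ?_⟩)
    (list_lc_mem _ _ hz fun l hl => ?_), ?_⟩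
  · rwa [List.map_map, hc, List.map_id]
  · obtain ⟨h1, rfl | h2⟩ := hl
    · exact Submodule.zero_mem _
    · refine Finsupp.supported_mono (fun l' h' => ?_)
        (list_prism_mem π (σ ∘ π) (fun a => hσ _) l)
      exact ⟨by rw [h'.1, h1], Or.inr (by rw [h'.2]; exact h2)⟩
  · have k := list_prism_lc (σ ∘ π) z
    rw [h0, map_zero, add_zero] at k
    rw [map_sub, lc_bd_map, e, k, ← Finsupp.mapDomain_comp, ← List.map_comp_map, sub_sub_cancel]

end Pool.Agent.Lib.MP_fd3021_gt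

/-! The resolution on the level of cells. -/

namespace Pool.Agent.Lib.MP_fd3021_gt

open Matrix

variable {G I : Type} [Group G] [Fintype I] {deg : I → ℤ} {c : Matrix I I (MonoidAlgebra ℤ G)}

theorem cell_sum {H X : Type} [Group H] (κ : I → H → X)
    (hκ : ∀ j h j' h', κ j h = κ j' h' → j = j' ∧ h = h') (f : I → H →₀ ℤ) (a : H) (i : I)
    (g : H) : (∑ j, (f j).mapDomain fun h => κ j (a * h)) (κ i g) = f i (a⁻¹ * g) := by
  rw [Finsupp.finsetSum_apply, Finset.sum_eq_single i]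
  · have h1 : Function.Injective fun h => κ i (a * h) := fun h h' e =>
      mul_left_cancel (hκ _ _ _ _ e).2
    simpa using Finsupp.mapDomain_apply h1 (f i) (a⁻¹ * g)
  · intro j _ hj
    refine Finsupp.mapDomain_of_notMem_range _ _ ?_
    rintro ⟨h, e⟩
    exact hj (hκ _ _ _ _ e).1
  · simp

theorem cell_dC_apply (c : Matrix I I (MonoidAlgebra ℤ G)) (x y : Cell I G) :
    dC c x y = (c x.i y.i).coeff (x.g⁻¹ * y.g) :=
  cell_sum Cell.mk (fun _ _ _ _ e => Cell.mk.inj e) (fun j => (c x.i j).coeff) x.g y.i y.g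

/-- the chain on cells given by a vector over the group ring -/
noncomputable def cellPhi : (I → MonoidAlgebra ℤ G) →+ (Cell I G →₀ ℤ) where
  toFun x := ∑ j, (x j).coeff.mapDomain fun h => (⟨j, 1 * h⟩ : Cell I G)
  map_zero' := by simp
  map_add' x y := by simp [Finsupp.mapDomain_add, Finset.sum_add_distrib]

theorem cellPhi_apply (x : I → MonoidAlgebra ℤ G) (y : Cell I G) :
    cellPhi x y = (x y.i).coeff y.g := by
  refine (cell_sum Cell.mk (fun _ _ _ _ e => Cell.mk.inj e) (fun j => (x j).coeff) 1 y.i y.g).trans ?_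
  rw [inv_one, one_mul]

theorem cellPhi_inj : Function.Injective (cellPhi (G := G) (I := I)) := by
  intro x x' h
  ext i g
  simpa [cellPhi_apply] using DFunLike.congr_fun h ⟨i, g⟩

open Classical in
/-- the basis vector of a cell -/
noncomputable def cellSg (x : Cell I G) : I → MonoidAlgebra ℤ G :=
  Pi.single x.i (MonoidAlgebra.single x.g 1)

theorem cellPhi_sg (x : Cell I G) : cellPhi (cellSg x) = Finsupp.single x 1 := by
  classical
  ext y
  rw [cellPhi_apply, cellSg, Finsupp.single_apply, Cell.ext_iff]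
  by_cases h : x.i = y.i
  · simp [← h, Finsupp.single_apply]
  · simp [h, Ne.symm h]

omit [Fintype I] in
theorem cell_lc {B : Type} [AddCommGroup B] (F : (I → MonoidAlgebra ℤ G) →+ B)
    (ξ : Cell I G →₀ ℤ) : lc (fun x => F (cellSg x)) ξ = F (lc cellSg ξ) :=
  (Finsupp.apply_linearCombination ℤ F.toIntLinearMap cellSg ξ).symm

theorem cellPhi_lc (ξ : Cell I G →₀ ℤ) : cellPhi (lc cellSg ξ) = ξ := by
  rw [← cell_lc]
  simp only [cellPhi_sg]
  simp [Finsupp.linearCombination_apply]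

theorem cell_lc_Phi (x : I → MonoidAlgebra ℤ G) : lc cellSg (cellPhi x) = x :=
  cellPhi_inj (cellPhi_lc _)

theorem cell_dC_eq (c : Matrix I I (MonoidAlgebra ℤ G)) (x : Cell I G) :
    dC c x = cellPhi (cellSg x ᵥ* c) := by
  classical
  ext y
  rw [cellPhi_apply, cell_dC_apply, cellSg, single_vecMul]
  simp [MonoidAlgebra.coeff_single_mul_apply]

theorem cell_lc_dC (c : Matrix I I (MonoidAlgebra ℤ G)) (ξ : Cell I G →₀ ℤ) :
    lc (dC c) ξ = cellPhi (lc cellSg ξ ᵥ* c) := by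
  rw [funext (cell_dC_eq c)]
  exact cell_lc (cellPhi.comp (AddMonoidHom.mk' (· ᵥ* c) fun _ _ => add_vecMul _ _ _)) ξ

theorem IsRes.resC (h : IsRes deg c) : ∃ (e : Cell I G → ℤ) (w : G →* ℤˣ), ResC deg c e w := by
  classical
  obtain ⟨h0, h1, eps, hs, hz, hex⟩ := h
  let p0 : (I → MonoidAlgebra ℤ G) → I → MonoidAlgebra ℤ G := fun x i =>
    if deg i = 0 then x i else 0
  have a1 : ∀ x, p0 x ᵥ* c = 0 := by
    intro x
    funext j
    refine Finset.sum_eq_zero fun i _ => ?_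
    by_cases hi : deg i = 0
    · have : c i j = 0 := by
        by_contra hc
        have := h1 i j hc
        have := h0 j
        omega
      simp [this]
    · simp [p0, hi]
  have a2 : ∀ (a : MonoidAlgebra ℤ G) x, eps (a • p0 x) = eps (a • x) := by
    intro a x
    rw [← sub_eq_zero, ← map_sub]
    exact hz _ fun i hi => by simp [p0, hi]
  have a3 : ∀ (a : MonoidAlgebra ℤ G) x, eps x = 0 → eps (a • x) = 0 := by
    intro a x hx
    obtain ⟨y, hy⟩ := (hex (p0 x)).1 ⟨a1 x, by simpa [hx] using a2 1 x⟩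
    rw [← a2]
    exact ((hex _).2 ⟨a • y, by rw [smul_vecMul, hy]⟩).2
  obtain ⟨x1, hx1⟩ := hs 1
  have a4 : ∀ (a : MonoidAlgebra ℤ G) x, eps (a • x) = eps (a • x1) * eps x := by
    intro a x
    have := a3 a (x - eps x • x1) (by rw [map_sub, map_zsmul, hx1]; simp)
    rw [smul_sub, smul_comm, map_sub, map_zsmul, smul_eq_mul, sub_eq_zero] at this
    rw [this, mul_comm]
  let w : G →* ℤ :=
    { toFun := fun g => eps (MonoidAlgebra.single g (1 : ℤ) • x1)
      map_one' := by rw [← MonoidAlgebra.one_def, one_smul, hx1]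
      map_mul' := fun g g' => by
        rw [← a4, smul_smul, MonoidAlgebra.single_mul_single, one_mul] }
  refine ⟨fun x => eps (cellSg x), w.toHomUnits, h0, fun x y hy => ?_, fun g x => ?_,
    fun g x => ?_, fun x hx => ?_, fun x => ?_, fun x => ?_, ⟨cellPhi (p0 x1), ?_, ?_⟩,
    fun ξ b1 b2 => ?_⟩
  · rw [Finsupp.mem_support_iff, cell_dC_apply] at hy
    exact (h1 _ _ fun e => hy (by simp [e])).symm
  · ext y
    have := Finsupp.mapDomain_apply (MulAction.injective g) (dC c x) (g⁻¹ • y)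
    rw [smul_inv_smul] at this
    rw [this, cell_dC_apply, cell_dC_apply]
    simp [smul_cell, mul_assoc]
  · have : cellSg (g • x) = MonoidAlgebra.single g (1 : ℤ) • cellSg x := by
      rw [cellSg, cellSg, ← Pi.single_smul, smul_eq_mul, MonoidAlgebra.single_mul_single, one_mul]
      rfl
    rw [this, a4]
    rfl
  · refine hz _ fun i hi => Pi.single_eq_of_ne ?_ _
    rintro rfl
    exact hx hi
  · rw [cell_lc, cell_dC_eq, cell_lc_Phi]
    exact ((hex _).2 ⟨_, rfl⟩).2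
  · rw [cell_lc_dC, cell_dC_eq, cell_lc_Phi, ((hex _).2 ⟨_, rfl⟩).1, map_zero]
  · rw [cell_lc_dC, cell_lc_Phi, a1, map_zero]
  · rw [cell_lc, cell_lc_Phi]
    simpa [hx1] using a2 1 x1
  · rw [cell_lc_dC, map_eq_zero_iff _ cellPhi_inj] at b1
    rw [cell_lc] at b2
    obtain ⟨y, hy⟩ := (hex _).1 ⟨b1, b2⟩
    exact ⟨cellPhi y, by rw [cell_lc_dC, cell_lc_Phi, hy, cellPhi_lc]⟩

omit [Fintype I] in
theorem isQuot_cell (N : FiniteIndexNormalSubgroup G) (sec : QQ N → G)
    (hs : ∀ q, mkQ N (sec q) = q) :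
    IsQuot N.toSubgroup (fun x : Cell I G => (x.i, mkQ N x.g))
      (fun y : I × QQ N => (⟨y.1, sec y.2⟩ : Cell I G)) := by
  have hk : ∀ g, mkQ N g = 1 ↔ g ∈ N.toSubgroup := fun g => QuotientGroup.eq_one_iff g
  refine ⟨fun y => Prod.ext rfl (hs _), fun x x' => ⟨fun h => ?_, ?_⟩⟩
  · obtain ⟨h1, h2⟩ := Prod.mk.inj h
    exact ⟨x'.g * x.g⁻¹, (hk _).1 (by simp [h2]), Cell.ext h1 (by simp [smul_cell])⟩
  · rintro ⟨h, h1, rfl⟩
    simp [smul_cell, (hk h).2 h1]

theorem desc_dC (N : FiniteIndexNormalSubgroup G) (sec : QQ N → G)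
    (hs : ∀ q, mkQ N (sec q) = q) (y y' : I × QQ N) :
    desc (fun x : Cell I G => (x.i, mkQ N x.g))
      (fun y : I × QQ N => (⟨y.1, sec y.2⟩ : Cell I G)) (dC c) y y' = rep N c y y' := by
  refine Eq.trans ?_ (cell_sum Prod.mk (fun _ _ _ _ e => Prod.mk.inj e)
    (fun j => (c y.1 j).coeff.mapDomain (mkQ N)) y.2 y'.1 y'.2)
  rw [desc, dC, Finsupp.mapDomain_finsetSum]
  simp only [← Finsupp.mapDomain_comp, Function.comp_def, map_mul, hs]

end Pool.Agent.Lib.MP_fd3021_gt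

/-! A random order. -/

namespace Pool.Agent.Lib.MP_fd3021_gt

open Classical in
/-- the number of orders in which a given point of `U` is minimal does not depend on the point -/
theorem lord_cnt {Q : Type} [Fintype Q] {n : ℕ} (U : Finset Q) {x x' : Q} (hx : x ∈ U)
    (hx' : x' ∈ U) :
    (Finset.univ.filter fun e : Q ≃ Fin n => ∀ y ∈ U, e x ≤ e y).card ≤
      (Finset.univ.filter fun e : Q ≃ Fin n => ∀ y ∈ U, e x' ≤ e y).card := by
  refine Finset.card_le_card_of_injOn (fun e => (Equiv.swap x x').trans e) ?_ ?_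
  · intro e he
    simp only [Finset.coe_filter, Finset.mem_univ, true_and, Set.mem_ofPred_eq] at he ⊢
    intro y hy
    simp only [Equiv.trans_apply, Equiv.swap_apply_right]
    apply he
    rw [Equiv.swap_apply_def]
    split_ifs
    · exact hx'
    · exact hx
    · exact hy
  · intro e _ e' _ h
    ext q
    have := congrArg (fun f : Q ≃ Fin n => f (Equiv.swap x x' q)) h
    simp only [Equiv.trans_apply, Equiv.swap_apply_self] at this
    rw [this]

open Classical in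
/-- few orders have a minimal point of `U` inside the small set `B` -/
theorem lord_few {Q : Type} [Fintype Q] {n : ℕ} (U B : Finset Q) (hB : B ⊆ U) {ε : ℝ}
    (hε : 0 ≤ ε) (h : (B.card : ℝ) ≤ ε * U.card) :
    ((Finset.univ.filter fun e : Q ≃ Fin n => ∃ x ∈ B, ∀ y ∈ U, e x ≤ e y).card : ℝ) ≤
      ε * Fintype.card (Q ≃ Fin n) := by
  rcases B.eq_empty_or_nonempty with rfl | ⟨x0, hx0⟩
  · simp only [Finset.notMem_empty, false_and, exists_false, Finset.filter_false,
      Finset.card_empty, Nat.cast_zero]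
    positivity
  have hx0U := hB hx0
  set E : Q → Finset (Q ≃ Fin n) := fun x =>
    Finset.univ.filter fun e : Q ≃ Fin n => ∀ y ∈ U, e x ≤ e y with hE
  have h1 : U.card * (E x0).card ≤ Fintype.card (Q ≃ Fin n) := by
    have hd : (U.biUnion E).card = ∑ x ∈ U, (E x).card := by
      apply Finset.card_biUnion
      intro x hx x' hx' hne
      rw [Function.onFun, Finset.disjoint_left]
      intro e he he'
      simp only [hE, Finset.mem_filter, Finset.mem_univ, true_and] at he he'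
      exact hne (e.injective (le_antisymm (he x' hx') (he' x hx)))
    calc U.card * (E x0).card = ∑ _x ∈ U, (E x0).card := by simp
      _ ≤ ∑ x ∈ U, (E x).card := Finset.sum_le_sum fun x hx => lord_cnt U hx0U hx
      _ = (U.biUnion E).card := hd.symm
      _ ≤ _ := Finset.card_le_univ _
  have h2 : (Finset.univ.filter fun e : Q ≃ Fin n => ∃ x ∈ B, ∀ y ∈ U, e x ≤ e y).card ≤
      B.card * (E x0).card := by
    calc _ ≤ (B.biUnion E).card := by
          apply Finset.card_le_card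
          intro e he
          simp only [hE, Finset.mem_filter, Finset.mem_univ, true_and, Finset.mem_biUnion] at he ⊢
          exact he
      _ ≤ ∑ x ∈ B, (E x).card := Finset.card_biUnion_le
      _ ≤ ∑ _x ∈ B, (E x0).card := Finset.sum_le_sum fun x hx => lord_cnt U (hB hx) hx0U
      _ = _ := by simp
  have h1' : (U.card : ℝ) * (E x0).card ≤ Fintype.card (Q ≃ Fin n) := by exact_mod_cast h1
  have h2' : ((Finset.univ.filter fun e : Q ≃ Fin n => ∃ x ∈ B, ∀ y ∈ U, e x ≤ e y).card : ℝ) ≤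
      B.card * (E x0).card := by exact_mod_cast h2
  calc _ ≤ (B.card : ℝ) * (E x0).card := h2'
    _ ≤ ε * U.card * (E x0).card := by gcongr
    _ = ε * (U.card * (E x0).card) := by ring
    _ ≤ _ := by gcongr

open Classical in
theorem exists_order {Q ι : Type} [Fintype Q] (s : Finset ι) (U B : ι → Finset Q)
    (hB : ∀ i ∈ s, B i ⊆ U i) {ε : ℝ} (hε : 0 ≤ ε)
    (h : ∀ i ∈ s, ((B i).card : ℝ) ≤ ε * (U i).card) :
    ∃ o : Q → ℕ, Function.Injective o ∧
      ((s.filter fun i => ∃ x ∈ B i, ∀ y ∈ U i, o x ≤ o y).card : ℝ) ≤ ε * s.card := by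
  have hne : (Finset.univ : Finset (Q ≃ Fin (Fintype.card Q))).Nonempty :=
    ⟨Fintype.equivFin Q, Finset.mem_univ _⟩
  have hsum : ∑ e : Q ≃ Fin (Fintype.card Q),
      ((s.filter fun i => ∃ x ∈ B i, ∀ y ∈ U i, e x ≤ e y).card : ℝ) ≤
      ∑ _e : Q ≃ Fin (Fintype.card Q), ε * s.card := by
    calc _ = ∑ i ∈ s, ((Finset.univ.filter fun e : Q ≃ Fin (Fintype.card Q) =>
            ∃ x ∈ B i, ∀ y ∈ U i, e x ≤ e y).card : ℝ) := by
          simp only [Finset.card_filter, Nat.cast_sum]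
          rw [Finset.sum_comm]
      _ ≤ ∑ _i ∈ s, ε * Fintype.card (Q ≃ Fin (Fintype.card Q)) :=
          Finset.sum_le_sum fun i hi => lord_few (U i) (B i) (hB i hi) hε (h i hi)
      _ = _ := by
          simp only [Finset.sum_const, nsmul_eq_mul, Finset.card_univ]
          ring
  obtain ⟨e, -, he⟩ := Finset.exists_le_of_sum_le hne hsum
  refine ⟨fun q => (e q : ℕ), fun a b hab => e.injective (Fin.ext hab), ?_⟩
  simpa only [Fin.le_def] using he

/-- a Folner set for finitely many elements of the stabiliser, as a subset of `G` -/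
theorem folner_union {G : Type} [Group G] [DecidableEq G] (S : Subgroup G) (hS : Folner S)
    (A : Finset G) (hA : ∀ a ∈ A, a ∈ S) {ε : ℝ} (hε : 0 < ε) :
    ∃ F U B : Finset G, F.Nonempty ∧ B ⊆ U ∧ (B.card : ℝ) ≤ ε * U.card ∧ F ⊆ U ∧
      (∀ a ∈ A, ∀ t ∈ F, a * t ∈ U) ∧
      ∀ x ∈ U, x ∉ B → x ∈ F ∧ ∀ a ∈ A, a⁻¹ * x ∈ F := by
  classical
  have hpos : (0 : ℝ) < 2 * A.card + 1 := by positivity
  obtain ⟨F0, hF0, hF⟩ := hS ((A ∪ A.image (·⁻¹)).subtype (· ∈ S)) (ε / (2 * A.card + 1))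
    (div_pos hε hpos)
  set F : Finset G := F0.map (Function.Embedding.subtype (· ∈ S)) with hFdef
  have hmem : ∀ x : S, (x : G) ∈ F ↔ x ∈ F0 := fun x => by
    rw [hFdef]
    exact Finset.mem_map' (Function.Embedding.subtype (· ∈ S))
  have key : ∀ a ∈ A ∪ A.image (·⁻¹), a ∈ S →
      ((F.filter fun x => a * x ∉ F).card : ℝ) ≤ ε / (2 * A.card + 1) * F.card := by
    intro a ha haS
    have h1 := hF ⟨a, haS⟩ (Finset.mem_subtype.2 ha)
    have h2 : {x : S | x ∈ F0 ∧ (⟨a, haS⟩ : S) * x ∉ F0} =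
        (F0.filter fun x => (⟨a, haS⟩ : S) * x ∉ F0 : Finset S) := by
      ext x
      simp
    rw [h2, Set.ncard_coe_finset] at h1
    have h3 : (F.filter fun x => a * x ∉ F) =
        (F0.filter fun x => (⟨a, haS⟩ : S) * x ∉ F0).map
          (Function.Embedding.subtype (· ∈ S)) := by
      rw [hFdef, Finset.filter_map]
      congr 1
      apply Finset.filter_congr
      intro x _
      exact not_congr (hmem (⟨a, haS⟩ * x))
    rw [h3, Finset.card_map, hFdef, Finset.card_map]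
    exact h1
  set U : Finset G := F ∪ A.biUnion fun a => F.image (a * ·) with hU
  refine ⟨F, U, U.filter fun x => x ∉ F ∨ ∃ a ∈ A, a⁻¹ * x ∉ F, ?_, Finset.filter_subset _ _,
    ?_, Finset.subset_union_left, ?_, ?_⟩
  · exact hF0.map
  · have hsub : (U.filter fun x => x ∉ F ∨ ∃ a ∈ A, a⁻¹ * x ∉ F) ⊆
        (A.biUnion fun a => (F.filter fun x => a * x ∉ F).image (a * ·)) ∪
          A.biUnion fun a => F.filter fun x => a⁻¹ * x ∉ F := by
      intro x hx
      rw [Finset.mem_filter] at hx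
      obtain ⟨hxU, hx⟩ := hx
      by_cases hxF : x ∈ F
      · obtain ⟨a, ha, hax⟩ := hx.resolve_left (not_not.2 hxF)
        exact Finset.mem_union_right _
          (Finset.mem_biUnion.2 ⟨a, ha, Finset.mem_filter.2 ⟨hxF, hax⟩⟩)
      · obtain ⟨a, ha, hx'⟩ := Finset.mem_biUnion.1 ((Finset.mem_union.1 hxU).resolve_left hxF)
        obtain ⟨t, ht, rfl⟩ := Finset.mem_image.1 hx'
        exact Finset.mem_union_left _ (Finset.mem_biUnion.2
          ⟨a, ha, Finset.mem_image.2 ⟨t, Finset.mem_filter.2 ⟨ht, hxF⟩, rfl⟩⟩)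
    have c1 : (((A.biUnion fun a => (F.filter fun x => a * x ∉ F).image (a * ·)).card : ℕ) : ℝ) ≤
        A.card * (ε / (2 * A.card + 1) * F.card) := by
      calc _ ≤ ((∑ a ∈ A, ((F.filter fun x => a * x ∉ F).image (a * ·)).card : ℕ) : ℝ) := by
            exact_mod_cast Finset.card_biUnion_le
        _ ≤ ∑ _a ∈ A, ε / (2 * A.card + 1) * F.card := by
            push_cast
            refine Finset.sum_le_sum fun a ha => le_trans ?_
              (key a (Finset.mem_union_left _ ha) (hA a ha))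
            exact_mod_cast Finset.card_image_le
        _ = _ := by simp
    have c2 : (((A.biUnion fun a => F.filter fun x => a⁻¹ * x ∉ F).card : ℕ) : ℝ) ≤
        A.card * (ε / (2 * A.card + 1) * F.card) := by
      calc _ ≤ ((∑ a ∈ A, (F.filter fun x => a⁻¹ * x ∉ F).card : ℕ) : ℝ) := by
            exact_mod_cast Finset.card_biUnion_le
        _ ≤ ∑ _a ∈ A, ε / (2 * A.card + 1) * F.card := by
            push_cast
            exact Finset.sum_le_sum fun a ha => key a⁻¹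
              (Finset.mem_union_right _ (Finset.mem_image.2 ⟨a, ha, rfl⟩)) (S.inv_mem (hA a ha))
        _ = _ := by simp
    have c3 : (F.card : ℝ) ≤ U.card := by
      exact_mod_cast Finset.card_le_card Finset.subset_union_left
    have c4 : ((U.filter fun x => x ∉ F ∨ ∃ a ∈ A, a⁻¹ * x ∉ F).card : ℝ) ≤
        ((A.biUnion fun a => (F.filter fun x => a * x ∉ F).image (a * ·)).card : ℕ) +
          ((A.biUnion fun a => F.filter fun x => a⁻¹ * x ∉ F).card : ℕ) := by
      exact_mod_cast (Finset.card_le_card hsub).trans (Finset.card_union_le _ _)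
    have c5 : 2 * (A.card * (ε / (2 * A.card + 1) * F.card)) ≤ ε * F.card := by
      have e1 : 2 * (A.card * (ε / (2 * A.card + 1) * F.card)) =
          ε * F.card * ((2 * A.card) / (2 * A.card + 1)) := by
        field_simp
      rw [e1]
      apply mul_le_of_le_one_right (by positivity)
      rw [div_le_one hpos]
      linarith
    have c6 : ε * F.card ≤ ε * U.card := by gcongr
    linarith
  · intro a ha t ht
    exact Finset.mem_union_right _
      (Finset.mem_biUnion.2 ⟨a, ha, Finset.mem_image.2 ⟨t, ht, rfl⟩⟩)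
  · intro x hx hxB
    rw [Finset.mem_filter, not_and, not_or] at hxB
    obtain ⟨h1, h2⟩ := hxB hx
    refine ⟨not_not.1 h1, fun a ha => ?_⟩
    by_contra h3
    exact h2 ⟨a, ha, h3⟩

end Pool.Agent.Lib.MP_fd3021_gt

/-! The equivariant collapsing map. -/

namespace Pool.Agent.Lib.MP_fd3021_gt

open Finset

/-- few classes if the class function is constant on most translates of `K` -/
theorem ltau_count {Q L : Type} [Group Q] [Fintype Q] [DecidableEq Q] [DecidableEq L]
    (c : Q → L) (K bad : Finset Q) (hK : K.Nonempty)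
    (h : ∀ q, q ∉ bad → ∀ k ∈ K, ∀ k' ∈ K, c (q * k) = c (q * k')) :
    ((univ.image c).card : ℝ) ≤ Fintype.card Q / K.card + bad.card := by
  obtain ⟨k1, hk1⟩ := hK
  set I : Finset L := (univ \ bad).image fun q => c (q * k1) with hI
  have h1 : univ.image c ⊆ I ∪ bad.image fun q => c (q * k1) := by
    intro y hy
    obtain ⟨x, -, rfl⟩ := mem_image.1 hy
    by_cases hb : x * k1⁻¹ ∈ bad
    · exact mem_union_right _ (mem_image.2 ⟨_, hb, by simp⟩)
    · exact mem_union_left _ (mem_image.2 ⟨x * k1⁻¹, by simp [hb], by simp⟩)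
  have h2 : K.card * I.card ≤ (univ.filter fun x => c x ∈ I).card := by
    refine mul_card_image_le_card_of_maps_to (f := c) (fun a ha => (mem_filter.1 ha).2) _ ?_
    intro y hy
    obtain ⟨q, hq, rfl⟩ := mem_image.1 hy
    have hq' : q ∉ bad := (mem_sdiff.1 hq).2
    rw [← card_image_of_injective K (mul_right_injective q)]
    refine card_le_card fun x hx => ?_
    obtain ⟨k, hk, rfl⟩ := mem_image.1 hx
    have e := h q hq' k hk k1 hk1
    simp only [mem_filter, mem_univ, true_and]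
    exact ⟨e ▸ hy, e⟩
  have h3 : K.card * I.card ≤ Fintype.card Q := h2.trans (card_le_univ _)
  have hk : (0 : ℝ) < K.card := by exact_mod_cast card_pos.2 ⟨k1, hk1⟩
  have h4 : (I.card : ℝ) ≤ Fintype.card Q / K.card := by
    rw [le_div_iff₀ hk, mul_comm]
    exact_mod_cast h3
  have h5 : (univ.image c).card ≤ I.card + bad.card :=
    (card_le_card h1).trans ((card_union_le _ _).trans (Nat.add_le_add_left card_image_le _))
  have h6 : ((univ.image c).card : ℝ) ≤ I.card + bad.card := by exact_mod_cast h5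
  linarith

/-- the minimiser over `F` of a shifted order is determined by the minimiser over `U` -/
theorem ltau_min {G Q : Type} [Group G] [Group Q] (π : G →* Q) {o : Q → ℕ}
    (ho : Function.Injective o) {F U : Finset G} (hπ : Set.InjOn π U) {q : Q} {x κ t : G}
    (hx : x ∈ U) (hmin : ∀ y ∈ U, o (q * π x) ≤ o (q * π y)) (hxF : κ⁻¹ * x ∈ F)
    (hκ : κ * t ∈ U) (ht : ∀ y ∈ F, o (q * π κ * π t) ≤ o (q * π κ * π y)) : κ * t = x := by
  have h1 := ht _ hxF
  have h2 := hmin _ hκ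
  have e1 : q * π κ * π (κ⁻¹ * x) = q * π x := by simp [mul_assoc]
  have e2 : q * π κ * π t = q * π (κ * t) := by simp [mul_assoc]
  rw [e1, e2] at h1
  exact hπ hκ hx (mul_left_cancel (ho (le_antisymm h1 h2)))

/-- representatives of the orbits of lists -/
theorem ltau_reps {G X : Type} [Group G] [MulAction G X] (H : FiniteIndexNormalSubgroup G)
    (τ : X → G) (hτ : ∀ h ∈ H.toSubgroup, ∀ a, τ (h • a) = h * τ a) (l : List X)
    (K : Finset G) (hK : K.Nonempty) (hi : Set.InjOn (mkQ H) K) (bad : Finset (QQ H))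
    (h : ∀ g, mkQ H g ∉ bad → ∀ k ∈ K, ∀ k' ∈ K, ((g * k) • l).map τ = ((g * k') • l).map τ) :
    ∃ R : Finset (List G), (R.card : ℝ) ≤ dg H / K.card + bad.card ∧
      ∀ g : G, ∃ h ∈ H.toSubgroup, ∃ r ∈ R, (g • l).map τ = h • r := by
  classical
  let c : G → Set (List G) := fun g => {r | ∃ h ∈ H.toSubgroup, (g • l).map τ = h • r}
  have hm : ∀ k ∈ H.toSubgroup, ∀ g : G, ((k * g) • l).map τ = k • (g • l).map τ := by
    intro k hk g
    rw [mul_smul, smul_list k, smul_list k, List.map_map, List.map_map]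
    exact List.map_congr_left fun a _ => hτ k hk a
  have hc : ∀ g g', mkQ H g = mkQ H g' → c g = c g' := by
    have aux : ∀ g g', mkQ H g = mkQ H g' → c g ⊆ c g' := by
      intro g g' e r hr
      obtain ⟨k, hk, rfl⟩ := (mkQ_eq_iff H g g').1 e
      obtain ⟨h, hh, e'⟩ := hr
      exact ⟨k * h, mul_mem hk hh, by rw [hm k hk, e', mul_smul]⟩
    exact fun g g' e => (aux g g' e).antisymm (aux g' g e.symm)
  let C : QQ H → Set (List G) := fun q => c (Function.surjInv (mkQ_surj H) q)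
  have hC : ∀ g, C (mkQ H g) = c g := fun g => hc _ _ (Function.surjInv_eq _ _)
  let rp : Set (List G) → List G := fun y => if h : y.Nonempty then h.some else []
  have hrp : ∀ g, rp (c g) ∈ c g := by
    intro g
    have hne : (c g).Nonempty := ⟨(g • l).map τ, 1, one_mem _, (one_smul _ _).symm⟩
    simp only [rp, dif_pos hne]
    exact hne.some_mem
  refine ⟨(univ.image C).image rp, ?_, fun g => ?_⟩
  · have h1 := ltau_count C (K.image (mkQ H)) bad (hK.image _) (by
      intro q hq k hk k' hk'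
      obtain ⟨g, rfl⟩ := mkQ_surj H q
      obtain ⟨k, hk0, rfl⟩ := mem_image.1 hk
      obtain ⟨k', hk1, rfl⟩ := mem_image.1 hk'
      rw [← map_mul, ← map_mul, hC, hC]
      simp only [c, h g hq k hk0 k' hk1])
    rw [card_image_of_injOn hi] at h1
    have h2 : (((univ.image C).image rp).card : ℝ) ≤ (univ.image C).card := by
      exact_mod_cast card_image_le
    exact h2.trans h1
  · obtain ⟨h, hh, e⟩ := hrp g
    exact ⟨h, hh, rp (c g), mem_image.2 ⟨c g, mem_image.2 ⟨_, mem_univ _, hC g⟩, rfl⟩, e⟩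

theorem ltau_arith {δ k n S d r b : ℝ} (hδ : 0 < δ) (hk : 0 < k) (hn : 2 * n / δ < k) (hS : 0 ≤ S)
    (hd : 0 < d) (hr : r ≤ n * (d / k) + b) (hb : b ≤ δ / (2 * (S + 1)) * (S * d)) :
    r ≤ δ * d := by
  have h6 : n * (d / k) ≤ δ / 2 * d := by
    rw [div_lt_iff₀ hδ] at hn
    rw [mul_div_assoc', div_le_iff₀ hk]
    nlinarith
  have h7 : δ / (2 * (S + 1)) * S ≤ δ / 2 := by
    rw [div_mul_eq_mul_div, div_le_div_iff₀ (by positivity) two_pos]
    nlinarith
  have h8 := mul_le_mul_of_nonneg_right h7 hd.le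
  rw [mul_assoc] at h8
  linarith

theorem exists_tau {G Ω : Type} [Group G] [Group.ResiduallyFinite G] [MulAction G Ω]
    (hF : ∀ v : Ω, Folner (MulAction.stabilizer G v)) (Λ : Finset (List (Ω × G)))
    (hΛ : ∀ l ∈ Λ, {g : G | ∀ a ∈ l, g • a.1 = a.1}.Infinite)
    (N₀ : FiniteIndexNormalSubgroup G) {δ : ℝ} (hδ : 0 < δ) :
    ∃ (H : FiniteIndexNormalSubgroup G) (τ : Ω × G → G) (R : Finset (List G)), H ≤ N₀ ∧
      (∀ h ∈ H.toSubgroup, ∀ a, τ (h • a) = h * τ a) ∧ (R.card : ℝ) ≤ δ * dg H ∧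
      ∀ l ∈ Λ, ∀ g : G, ∃ h ∈ H.toSubgroup, ∃ r ∈ R, (g • l).map τ = h • r := by
  classical
  obtain ⟨k0, hk0⟩ := exists_nat_gt (2 * (Λ.card : ℝ) / δ)
  have hk0' : (0 : ℝ) < k0 := lt_of_le_of_lt (by positivity) hk0
  obtain ⟨S, hS⟩ : ∃ S : ℝ, S = ∑ l ∈ Λ, (l.toFinset.card : ℝ) := ⟨_, rfl⟩
  have hS0 : 0 ≤ S := hS ▸ sum_nonneg fun _ _ => Nat.cast_nonneg _
  have hε : 0 < δ / (2 * (S + 1)) := div_pos hδ (by linarith)
  have hKe : ∀ l, ∃ K : Finset G, l ∈ Λ → (∀ k ∈ K, ∀ a ∈ l, k • a.1 = a.1) ∧ K.card = k0 := by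
    intro l
    by_cases hl : l ∈ Λ
    · obtain ⟨K, h1, h2⟩ := (hΛ l hl).exists_subset_card_eq k0
      exact ⟨K, fun _ => ⟨fun k hk => h1 hk, h2⟩⟩
    · exact ⟨∅, fun h => absurd h hl⟩
  choose K hKK using hKe
  have hK := fun l hl => (hKK l hl).1
  have hKc := fun l hl => (hKK l hl).2
  let A : Ω → Finset G := fun ω =>
    (Λ.biUnion fun l => l.toFinset.biUnion fun a => (K l).image fun k => a.2⁻¹ * k * a.2).filter
      (· ∈ MulAction.stabilizer G ω)
  choose F U B hFn hBU hBc hFU hAU hB using fun ω =>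
    folner_union (MulAction.stabilizer G ω) (hF ω) (A ω) (fun a ha => (mem_filter.1 ha).2) hε
  obtain ⟨H, hH, hHN⟩ := ((eventually_inj (Λ.biUnion K ∪
    Λ.biUnion fun l => l.toFinset.biUnion fun a => U (a.2⁻¹ • a.1))).and
      (Filter.eventually_le_atBot N₀)).exists
  have hiK : ∀ l ∈ Λ, Set.InjOn (mkQ H) (K l) := fun l hl =>
    hH.mono (coe_subset.2 ((subset_biUnion_of_mem K hl).trans subset_union_left))
  have hiU : ∀ l ∈ Λ, ∀ a ∈ l, Set.InjOn (mkQ H) (U (a.2⁻¹ • a.1)) := fun l hl a ha =>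
    hH.mono (coe_subset.2 fun x hx => mem_union_right _
      (mem_biUnion.2 ⟨l, hl, mem_biUnion.2 ⟨a, List.mem_toFinset.2 ha, hx⟩⟩))
  let s : Finset (Σ _ : List (Ω × G), (Ω × G) × QQ H) := Λ.sigma fun l => l.toFinset ×ˢ univ
  let im : (Ω → Finset G) → (Σ _ : List (Ω × G), (Ω × G) × QQ H) → Finset (QQ H) := fun V i =>
    (V (i.2.1.2⁻¹ • i.2.1.1)).image fun x => i.2.2 * mkQ H i.2.1.2 * mkQ H x
  have hs : ∀ i ∈ s, i.1 ∈ Λ ∧ i.2.1 ∈ i.1 := fun i hi =>
    ⟨(mem_sigma.1 hi).1, List.mem_toFinset.1 (mem_product.1 (mem_sigma.1 hi).2).1⟩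
  obtain ⟨o, ho, hoc⟩ := exists_order s (im U) (im B)
    (fun i _ => image_subset_image (hBU _)) hε.le (by
      intro i hi
      have hinj : Set.InjOn (fun x => i.2.2 * mkQ H i.2.1.2 * mkQ H x)
          (U (i.2.1.2⁻¹ • i.2.1.1)) := fun x hx y hy e =>
        hiU _ (hs i hi).1 _ (hs i hi).2 hx hy (mul_left_cancel e)
      simp only [im]
      rw [card_image_of_injOn hinj, card_image_of_injOn (hinj.mono (coe_subset.2 (hBU _)))]
      exact hBc _)
  choose t htF ht using fun (ω : Ω) (q : QQ H) =>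
    exists_min_image (F ω) (fun x => o (q * mkQ H x)) (hFn ω)
  let τ : Ω × G → G := fun a => a.2 * t (a.2⁻¹ • a.1) (mkQ H a.2)
  have hτg : ∀ (g : G) (a : Ω × G),
      τ (g • a) = g * a.2 * t (a.2⁻¹ • a.1) (mkQ H (g * a.2)) := by
    intro g a
    simp only [τ, Prod.smul_fst, Prod.smul_snd, smul_eq_mul, mul_inv_rev, mul_smul, inv_smul_smul]
  have hτ : ∀ h ∈ H.toSubgroup, ∀ a, τ (h • a) = h * τ a := by
    intro h hh a
    rw [hτg, ← (mkQ_eq_iff H a.2 (h * a.2)).2 ⟨h, hh, rfl⟩, mul_assoc]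
  set bt := s.filter fun i => ∃ x ∈ im B i, ∀ y ∈ im U i, o x ≤ o y with hbt
  let bad : List (Ω × G) → Finset (QQ H) := fun l =>
    univ.filter fun q => ∃ a ∈ l, (⟨l, a, q⟩ : Σ _ : List (Ω × G), (Ω × G) × QQ H) ∈ bt
  have key : ∀ l ∈ Λ, ∀ g, mkQ H g ∉ bad l → ∀ a ∈ l, ∃ x, ∀ k ∈ K l, τ ((g * k) • a) = x := by
    intro l hl g hg a ha
    obtain ⟨x, hx, hmin⟩ := exists_min_image (U (a.2⁻¹ • a.1))
      (fun x => o (mkQ H g * mkQ H a.2 * mkQ H x)) ((hFn _).mono (hFU _))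
    have hxB : x ∉ B (a.2⁻¹ • a.1) := by
      intro hxB
      refine hg (mem_filter.2 ⟨mem_univ _, a, ha, mem_filter.2 ⟨mem_sigma.2 ⟨hl,
        mem_product.2 ⟨List.mem_toFinset.2 ha, mem_univ _⟩⟩, _, mem_image.2 ⟨x, hxB, rfl⟩, ?_⟩⟩)
      intro y hy
      obtain ⟨y, hy', rfl⟩ := mem_image.1 hy
      exact hmin y hy'
    refine ⟨g * a.2 * x, fun k hk => ?_⟩
    have hκ : a.2⁻¹ * k * a.2 ∈ A (a.2⁻¹ • a.1) := by
      refine mem_filter.2 ⟨mem_biUnion.2 ⟨l, hl, mem_biUnion.2 ⟨a, List.mem_toFinset.2 ha,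
        mem_image.2 ⟨k, hk, rfl⟩⟩⟩, ?_⟩
      have e : k • a.1 = a.1 := hK l hl k hk a ha
      rw [MulAction.mem_stabilizer_iff, mul_smul, mul_smul, smul_inv_smul, e]
    have e : mkQ H (g * k * a.2) = mkQ H g * mkQ H a.2 * mkQ H (a.2⁻¹ * k * a.2) := by
      simp [mul_assoc]
    have h1 := ltau_min (mkQ H) ho (hiU l hl a ha) hx hmin ((hB _ x hx hxB).2 _ hκ)
      (hAU _ _ hκ _ (htF _ (mkQ H (g * k * a.2)))) (by
        intro y hy
        have := ht (a.2⁻¹ • a.1) (mkQ H (g * k * a.2)) y hy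
        rwa [← e])
    rw [hτg, ← h1]
    simp [mul_assoc]
  have hR : ∀ l, ∃ R : Finset (List G), l ∈ Λ → (R.card : ℝ) ≤ dg H / k0 + (bad l).card ∧
      ∀ g : G, ∃ h ∈ H.toSubgroup, ∃ r ∈ R, (g • l).map τ = h • r := by
    intro l
    by_cases hl : l ∈ Λ
    swap
    · exact ⟨∅, fun h => absurd h hl⟩
    have hne : (K l).Nonempty := card_pos.1 (by rw [hKc l hl]; exact_mod_cast hk0')
    have := ltau_reps H τ hτ l (K l) hne (hiK l hl) (bad l) (by
      intro g hg k hk k' hk'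
      rw [smul_list, smul_list, List.map_map, List.map_map]
      refine List.map_congr_left fun a ha => ?_
      obtain ⟨x, hx⟩ := key l hl g hg a ha
      exact (hx k hk).trans (hx k' hk').symm)
    rw [hKc l hl] at this
    exact this.imp fun R hR _ => hR
  choose R hRR using hR
  have hRc := fun l hl => (hRR l hl).1
  have hRr := fun l hl => (hRR l hl).2
  refine ⟨H, τ, Λ.biUnion R, hHN, hτ, ?_, fun l hl g => ?_⟩
  · have h1 : ((Λ.biUnion R).card : ℝ) ≤ ∑ l ∈ Λ, ((R l).card : ℝ) := by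
      exact_mod_cast card_biUnion_le
    have h2 : ∑ l ∈ Λ, (bad l).card ≤ bt.card := by
      rw [← card_sigma]
      refine le_trans (card_le_card fun i hi => ?_) (card_image_le (s := bt)
        (f := fun i => (⟨i.1, i.2.2⟩ : Σ _ : List (Ω × G), QQ H)))
      obtain ⟨a, -, ha⟩ := (mem_filter.1 (mem_sigma.1 hi).2).2
      exact mem_image.2 ⟨_, ha, rfl⟩
    have h2' : ∑ l ∈ Λ, ((bad l).card : ℝ) ≤ bt.card := by exact_mod_cast h2
    have h3 : (s.card : ℝ) = S * dg H := by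
      simp only [s, card_sigma, card_product, card_univ, hS, dg, sum_mul]
      push_cast
      rfl
    have h4 : (bt.card : ℝ) ≤ δ / (2 * (S + 1)) * (S * dg H) := by
      rw [← h3]
      convert hoc
    have h5 : ∑ l ∈ Λ, ((R l).card : ℝ) ≤ Λ.card * (dg H / k0) + ∑ l ∈ Λ, ((bad l).card : ℝ) := by
      refine (sum_le_sum hRc).trans (le_of_eq ?_)
      rw [sum_add_distrib, sum_const, nsmul_eq_mul]
    exact ltau_arith hδ hk0' hk0 hS0 (dg_pos H) (h1.trans h5) (h2'.trans h4)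
  · obtain ⟨h, hh, r, hr, e⟩ := hRr l hl g
    exact ⟨h, hh, r, mem_biUnion.2 ⟨l, hl, hr⟩, e⟩

end Pool.Agent.Lib.MP_fd3021_gt

/-! Descent of equivariant maps to quotients. -/

namespace Pool.Agent.Lib.MP_fd3021_gt

variable {G X X1 X2 Y Y1 Y2 : Type} [Group G] [MulAction G X] [MulAction G X1] [MulAction G X2]

theorem l1_nonneg {Z : Type} (ξ : Z →₀ ℤ) : 0 ≤ l1 ξ := by
  exact Finset.sum_nonneg fun _ _ => abs_nonneg _

theorem sum_le_l1 {Z : Type} (ξ : Z →₀ ℤ) (T : Finset Z) : ∑ z ∈ T, |(ξ z : ℝ)| ≤ l1 ξ := by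
  classical
  have h1 : ∑ z ∈ T, |(ξ z : ℝ)| = ∑ z ∈ T ∩ ξ.support, |(ξ z : ℝ)| := by
    symm
    refine Finset.sum_subset Finset.inter_subset_left fun z hz hz' => ?_
    have : ξ z = 0 := by
      by_contra hc
      exact hz' (Finset.mem_inter.2 ⟨hz, Finsupp.mem_support_iff.2 hc⟩)
    simp [this]
  rw [h1]
  exact Finset.sum_le_sum_of_subset_of_nonneg Finset.inter_subset_right
    fun _ _ _ => abs_nonneg _

open Classical in
theorem desc_abs_mapDomain {Z Z' : Type} (φ : Z → Z') (ξ : Z →₀ ℤ) (y : Z') :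
    |((ξ.mapDomain φ y : ℤ) : ℝ)| ≤ ∑ x ∈ ξ.support, if φ x = y then |(ξ x : ℝ)| else 0 := by
  have h1 : ξ.mapDomain φ y = ∑ x ∈ ξ.support, if φ x = y then ξ x else 0 := by
    rw [Finsupp.mapDomain, Finsupp.sum, Finsupp.finsetSum_apply]
    exact Finset.sum_congr rfl fun x _ => by rw [Finsupp.single_apply]
  rw [h1]
  push_cast
  refine (Finset.abs_sum_le_sum_abs _ _).trans (Finset.sum_le_sum fun x _ => ?_)
  split_ifs <;> simp

theorem desc_sum_ite_le {A : Type} (T : Finset A) (P : A → Prop) [DecidablePred P] (c : ℝ)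
    (hc : 0 ≤ c)
    (hP : ∀ a ∈ T, ∀ b ∈ T, P a → P b → a = b) : ∑ a ∈ T, (if P a then c else 0) ≤ c := by
  rw [← Finset.sum_filter, Finset.sum_const, nsmul_eq_mul]
  have h1 : (T.filter P).card ≤ 1 := Finset.card_le_one.2 fun a ha b hb =>
    hP a (Finset.mem_filter.1 ha).1 b (Finset.mem_filter.1 hb).1 (Finset.mem_filter.1 ha).2
      (Finset.mem_filter.1 hb).2
  have h2 : ((T.filter P).card : ℝ) ≤ 1 := by exact_mod_cast h1
  nlinarith

theorem l1_mapDomain {Z Z' : Type} (φ : Z → Z') (ξ : Z →₀ ℤ) : l1 (ξ.mapDomain φ) ≤ l1 ξ := by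
  classical
  unfold l1
  refine (Finset.sum_le_sum fun y _ => desc_abs_mapDomain φ ξ y).trans ?_
  rw [Finset.sum_comm]
  refine Finset.sum_le_sum fun x _ => ?_
  exact desc_sum_ite_le _ (fun y => φ x = y) _ (abs_nonneg ((ξ x : ℤ) : ℝ))
    fun a _ b _ ha hb => ha.symm.trans hb

theorem l1_unit_smul {Z : Type} (u : ℤˣ) (ξ : Z →₀ ℤ) : l1 ((u : ℤ) • ξ) = l1 ξ := by
  rcases Int.units_eq_one_or u with rfl | rfl
  · simp
  · simp [l1]

theorem exists_isQuot (N : Subgroup G) :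
    ∃ (Y : Type) (pr : X → Y) (sec : Y → X), IsQuot N pr sec := by
  refine ⟨Quotient (MulAction.orbitRel N X), Quotient.mk _, Quotient.out,
    fun y => Quotient.out_eq y, fun x x' => ?_⟩
  rw [eq_comm, Quotient.eq, MulAction.orbitRel_apply, MulAction.mem_orbit_iff]
  constructor
  · rintro ⟨h, hh⟩
    exact ⟨h.1, h.2, hh⟩
  · rintro ⟨h, hN, hh⟩
    exact ⟨⟨h, hN⟩, hh⟩

theorem desc_lc {N : Subgroup G} {pr1 : X1 → Y1} {sec1 : Y1 → X1} {pr2 : X2 → Y2}
    {sec2 : Y2 → X2} (q1 : IsQuot N pr1 sec1) (q2 : IsQuot N pr2 sec2) (φ : X1 → X2 →₀ ℤ)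
    (hφ : ∀ h ∈ N, ∀ x, φ (h • x) = (φ x).mapDomain (h • ·)) (ξ : X1 →₀ ℤ) :
    (lc φ ξ).mapDomain pr2 = lc (desc pr2 sec1 φ) (ξ.mapDomain pr1) := by
  have key : ∀ x, (φ x).mapDomain pr2 = desc pr2 sec1 φ (pr1 x) := by
    intro x
    obtain ⟨h, hN, hh⟩ := (q1.2 x (sec1 (pr1 x))).1 (q1.1 _).symm
    unfold desc
    rw [← hh, hφ h hN, ← Finsupp.mapDomain_comp]
    refine Finsupp.mapDomain_congr fun x' _ => ?_
    exact (q2.2 x' (h • x')).2 ⟨h, hN, rfl⟩
  induction ξ using Finsupp.induction_linear with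
  | zero => simp
  | add a b ha hb => rw [map_add, Finsupp.mapDomain_add, Finsupp.mapDomain_add, map_add, ha, hb]
  | single x c =>
    rw [Finsupp.mapDomain_single, Finsupp.linearCombination_single,
      Finsupp.linearCombination_single, Finsupp.mapDomain_smul, key]

theorem desc_bound {N H : Subgroup G} (hNH : N ≤ H) {pr1 : X1 → Y1} {sec1 : Y1 → X1}
    {pr2 : X2 → Y2} {sec2 : Y2 → X2} (q1 : IsQuot N pr1 sec1) (q2 : IsQuot N pr2 sec2)
    (φ : X1 → X2 →₀ ℤ) (hφ : ∀ h ∈ H, ∀ x, φ (h • x) = (φ x).mapDomain (h • ·))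
    (R : Finset X1) (free : ∀ r ∈ R, ∀ x ∈ (φ r).support, ∀ h ∈ H, h • x = x → h = 1)
    (T : Finset Y1) (hT : ∀ y ∈ T, ∃ h ∈ H, ∃ r ∈ R, h • r = sec1 y) :
    (∀ y2, ∑ y ∈ T, |(desc pr2 sec1 φ y y2 : ℝ)| ≤ ∑ r ∈ R, l1 (φ r)) ∧
      ∀ y ∈ T, l1 (desc pr2 sec1 φ y) ≤ ∑ r ∈ R, l1 (φ r) := by
  classical
  constructor
  · intro y2
    have hT' : ∀ y, ∃ h : G, ∃ r : X1, y ∈ T → h ∈ H ∧ r ∈ R ∧ h • r = sec1 y := by
      intro y
      by_cases hy : y ∈ T
      · obtain ⟨h, hH, r, hR, hr⟩ := hT y hy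
        exact ⟨h, r, fun _ => ⟨hH, hR, hr⟩⟩
      · exact ⟨1, sec1 y, fun hc => absurd hc hy⟩
    choose h r hhr using hT'
    have hH : ∀ y ∈ T, h y ∈ H := fun y hy => (hhr y hy).1
    have hR : ∀ y ∈ T, r y ∈ R := fun y hy => (hhr y hy).2.1
    have hr : ∀ y ∈ T, h y • r y = sec1 y := fun y hy => (hhr y hy).2.2
    have h1 : ∀ y ∈ T, |(desc pr2 sec1 φ y y2 : ℝ)| ≤ ∑ ρ ∈ R, ∑ x ∈ (φ ρ).support,
        if r y = ρ ∧ pr2 (h y • x) = y2 then |(φ ρ x : ℝ)| else 0 := by
      intro y hy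
      have h2 : desc pr2 sec1 φ y = (φ (r y)).mapDomain fun x => pr2 (h y • x) := by
        unfold desc
        rw [← hr y hy, hφ _ (hH y hy), ← Finsupp.mapDomain_comp]
        rfl
      rw [h2]
      refine (desc_abs_mapDomain _ _ y2).trans ?_
      refine le_trans (le_of_eq ?_) (Finset.single_le_sum (f := fun ρ => ∑ x ∈ (φ ρ).support,
        if r y = ρ ∧ pr2 (h y • x) = y2 then |(φ ρ x : ℝ)| else 0) (fun ρ _ => ?_) (hR y hy))
      · refine Finset.sum_congr rfl fun x _ => ?_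
        simp
      · refine Finset.sum_nonneg fun x _ => ?_
        split_ifs
        · exact abs_nonneg _
        · exact le_rfl
    refine (Finset.sum_le_sum h1).trans ?_
    rw [Finset.sum_comm]
    refine Finset.sum_le_sum fun ρ hρ => ?_
    rw [Finset.sum_comm]
    refine Finset.sum_le_sum fun x hx => ?_
    refine desc_sum_ite_le T (fun y => r y = ρ ∧ pr2 (h y • x) = y2) _
      (abs_nonneg ((φ ρ x : ℤ) : ℝ)) ?_
    rintro a ha b hb ⟨ha1, ha2⟩ ⟨hb1, hb2⟩
    obtain ⟨k, hk, hkx⟩ := (q2.2 _ _).1 (ha2.trans hb2.symm)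
    have h3 : (h b)⁻¹ * (k * h a) = 1 := by
      refine free ρ hρ x hx _ (H.mul_mem (H.inv_mem (hH b hb)) (H.mul_mem (hNH hk) (hH a ha))) ?_
      rw [mul_smul, mul_smul, hkx, inv_smul_smul]
    have h4 : k • sec1 a = sec1 b := by
      rw [← hr a ha, ← hr b hb, ha1, hb1, ← mul_smul, inv_mul_eq_one.1 h3]
    have h5 := (q1.2 _ _).2 ⟨k, hk, h4⟩
    rwa [q1.1, q1.1] at h5
  · intro y hy
    obtain ⟨h, hH, r, hR, hr⟩ := hT y hy
    unfold desc
    rw [← hr, hφ h hH]
    refine (l1_mapDomain _ _).trans ((l1_mapDomain _ _).trans ?_)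
    exact Finset.single_le_sum (f := fun r => l1 (φ r)) (fun r _ => l1_nonneg _) hR

theorem desc_card_mul {N H : FiniteIndexNormalSubgroup G} (hNH : N ≤ H) :
    (Nat.card (H.toSubgroup.map (mkQ N)) : ℝ) * dg H = dg N := by
  have h1 : (H.toSubgroup.map (mkQ N)).index = H.toSubgroup.index := by
    refine Subgroup.index_map_eq _ (QuotientGroup.mk'_surjective N.toSubgroup) ?_
    intro g hg
    have : g ∈ N.toSubgroup := by
      have h2 : g ∈ (QuotientGroup.mk' N.toSubgroup).ker := hg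
      rwa [QuotientGroup.ker_mk'] at h2
    exact hNH this
  have h2 := (H.toSubgroup.map (mkQ N)).card_mul_index
  rw [h1] at h2
  unfold dg
  rw [← Nat.card_eq_fintype_card, ← Nat.card_eq_fintype_card, ← h2]
  push_cast
  rfl

theorem count_orbits {N H : FiniteIndexNormalSubgroup G} (hNH : N ≤ H) {pr : X → Y}
    {sec : Y → X} (q : IsQuot N.toSubgroup pr sec) (R : Finset X) :
    ∃ κ : Finset Y, (κ.card : ℝ) * dg H ≤ R.card * dg N ∧
      (∀ h ∈ H.toSubgroup, ∀ r ∈ R, pr (h • r) ∈ κ) ∧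
      ∀ y ∈ κ, ∃ h ∈ H.toSubgroup, ∃ r ∈ R, h • r = sec y := by
  classical
  set Q : Finset (QQ N) := Finset.univ.filter fun a => a ∈ H.toSubgroup.map (mkQ N) with hQ
  have hex : ∀ a ∈ Q, ∃ h ∈ H.toSubgroup, mkQ N h = a := fun a ha =>
    Subgroup.mem_map.1 (Finset.mem_filter.1 ha).2
  choose! s hsH hs using hex
  have hQc : (Q.card : ℝ) * dg H = dg N := by
    rw [← desc_card_mul hNH, Nat.card_eq_fintype_card, Fintype.card_subtype]
  have hdg : 0 ≤ dg H := Nat.cast_nonneg _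
  refine ⟨(R ×ˢ Q).image fun p => pr (s p.2 • p.1), ?_, ?_, ?_⟩
  · have h1 : (((R ×ˢ Q).image fun p => pr (s p.2 • p.1)).card : ℝ) ≤ R.card * Q.card := by
      have := Finset.card_image_le (s := R ×ˢ Q) (f := fun p => pr (s p.2 • p.1))
      rw [Finset.card_product] at this
      exact_mod_cast this
    rw [← hQc, ← mul_assoc]
    exact mul_le_mul_of_nonneg_right h1 hdg
  · intro h hH r hr
    have hq : mkQ N h ∈ Q :=
      Finset.mem_filter.2 ⟨Finset.mem_univ _, Subgroup.mem_map.2 ⟨h, hH, rfl⟩⟩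
    refine Finset.mem_image.2 ⟨(r, mkQ N h), Finset.mem_product.2 ⟨hr, hq⟩, ?_⟩
    refine (q.2 _ _).2 ⟨h * (s (mkQ N h))⁻¹, ?_, ?_⟩
    · have h1 : h * (s (mkQ N h))⁻¹ ∈ (mkQ N).ker := by
        rw [MonoidHom.mem_ker, map_mul, map_inv, hs _ hq, mul_inv_cancel]
      have h2 : h * (s (mkQ N h))⁻¹ ∈ (QuotientGroup.mk' N.toSubgroup).ker := h1
      rwa [QuotientGroup.ker_mk'] at h2
    · rw [mul_smul, inv_smul_smul]
  · intro y hy
    obtain ⟨⟨r, a⟩, hp, hy⟩ := Finset.mem_image.1 hy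
    obtain ⟨hr, ha⟩ := Finset.mem_product.1 hp
    obtain ⟨k, hk, hkx⟩ := (q.2 (s a • r) (sec y)).1 (hy.trans (q.1 y).symm)
    exact ⟨k * s a, H.toSubgroup.mul_mem (hNH hk) (hsH a ha), r, hr, by rw [mul_smul, hkx]⟩

end Pool.Agent.Lib.MP_fd3021_gt

/-! Chain maps and homotopies on the universal cover. -/

namespace Pool.Agent.Lib.MP_fd3021_gt

variable {G I : Type} [Group G] [Fintype I] {deg : I → ℤ} {c : Matrix I I (MonoidAlgebra ℤ G)}
  {e : Cell I G → ℤ} {w : G →* ℤˣ}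

theorem univ_lc_map {X B B' : Type} [AddCommGroup B] [AddCommGroup B'] (L : B →ₗ[ℤ] B')
    (φ : X → B) (ξ : X →₀ ℤ) : L (lc φ ξ) = lc (fun x => L (φ x)) ξ :=
  Finsupp.apply_linearCombination ℤ L φ ξ

theorem univ_lc_congr {X B : Type} [AddCommGroup B] {φ ψ : X → B} {ξ : X →₀ ℤ}
    (h : ∀ x ∈ ξ.support, φ x = ψ x) : lc φ ξ = lc ψ ξ := by
  rw [Finsupp.linearCombination_apply, Finsupp.linearCombination_apply]
  exact Finsupp.sum_congr fun x hx => by rw [h x hx]

theorem univ_lc_sub {X B : Type} [AddCommGroup B] (φ ψ : X → B) (ξ : X →₀ ℤ) :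
    lc (fun x => φ x - ψ x) ξ = lc φ ξ - lc ψ ξ := by
  simp only [Finsupp.linearCombination_apply, Finsupp.sum, smul_sub, Finset.sum_sub_distrib]

theorem univ_lc_zero {X B : Type} [AddCommGroup B] (ξ : X →₀ ℤ) :
    lc (fun _ : X => (0 : B)) ξ = 0 := by
  simp [Finsupp.linearCombination_apply]

theorem univ_lc_single {X : Type} (ξ : X →₀ ℤ) : lc (fun x => Finsupp.single x (1 : ℤ)) ξ = ξ := by
  simp [Finsupp.linearCombination_apply]

theorem univ_lc_fst {X B : Type} [AddCommGroup B] (φ : X → B × ℤ) (ξ : X →₀ ℤ) :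
    lc (fun x => (φ x).1) ξ = (lc φ ξ).1 :=
  (univ_lc_map (LinearMap.fst ℤ B ℤ) φ ξ).symm

/-- the permutation representation -/
noncomputable def univPerm (G X : Type) [Group G] [MulAction G X] :
    G →* Module.End ℤ (X →₀ ℤ) where
  toFun g := Finsupp.lmapDomain ℤ ℤ (g • ·)
  map_one' := by
    ext x : 2
    simp
  map_mul' a b := by
    ext x : 2
    simp [mul_smul]

theorem univPerm_apply {X : Type} [MulAction G X] (g : G) (ξ : X →₀ ℤ) :
    univPerm G X g ξ = ξ.mapDomain (g • ·) := rfl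

/-- the permutation representation twisted by a character -/
noncomputable def univTw (X : Type) [MulAction G X] (w : G →* ℤˣ) :
    G →* Module.End ℤ (X →₀ ℤ) where
  toFun g := (w g : ℤ) • univPerm G X g
  map_one' := by simp
  map_mul' a b := by
    rw [map_mul, map_mul, Units.val_mul, smul_mul_smul_comm]

theorem univTw_apply {X : Type} [MulAction G X] (g : G) (ξ : X →₀ ℤ) :
    univTw X w g ξ = (w g : ℤ) • ξ.mapDomain (g • ·) := rfl

/-- the permutation representation on augmented chains -/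
noncomputable def univAug (G X : Type) [Group G] [MulAction G X] :
    G →* Module.End ℤ ((X →₀ ℤ) × ℤ) where
  toFun g := (univPerm G X g).prodMap LinearMap.id
  map_one' := by
    rw [map_one]
    exact LinearMap.prodMap_id
  map_mul' a b := by
    rw [map_mul]
    rfl

theorem univAug_apply {X : Type} [MulAction G X] (g : G) (b : (X →₀ ℤ) × ℤ) :
    univAug G X g b = (b.1.mapDomain (g • ·), b.2) := rfl

omit [Fintype I] in
theorem univ_free (g : G) (x : Cell I G) (e : g • x = x) : g = 1 := by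
  have : g * x.g = x.g := congrArg Cell.g e
  simpa using this

theorem univ_len (h : ResC deg c e w) (x : Cell I G) :
    ∀ y ∈ (dC c x).support, (deg y.i).toNat + 1 + 1 = (deg x.i).toNat + 1 := by
  intro y hy
  have h1 := h.deg_d x y hy
  have h2 := h.nonneg y.i
  omega

/-- chain map to lists over `Ω × G` whose vertices have an infinite common stabiliser -/
theorem exists_alpha (h : ResC deg c e w) {r : ℕ} (hT : Thin G r) :
    ∃ (Ω : Type) (_ : MulAction G Ω) (α : Cell I G → List (Ω × G) →₀ ℤ),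
      (∀ v : Ω, Folner (MulAction.stabilizer G v)) ∧
      (∀ (g : G) x, α (g • x) = (w g : ℤ) • (α x).mapDomain (g • ·)) ∧
      ∀ x, deg x.i < r →
        lc bd (α x) = lc α (dC c x) + Finsupp.single [] (e x) ∧
        ∀ l ∈ (α x).support, (l.length : ℤ) = deg x.i + 1 ∧
          {g : G | ∀ a ∈ l, g • a.1 = a.1}.Infinite := by
  obtain ⟨Ω, _, _, Y, hinv, hF, hinf, hex⟩ := hT
  have key := compare (X := Cell I G) (B := List (Ω × G) →₀ ℤ) ⊤ (univTw _ w)
    (fun x => (deg x.i).toNat + 1) (fun _ _ => rfl) (fun g _ x _ e => univ_free g x e)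
    (dC c) (univ_len h) h.d_d (fun g _ x => h.d_smul g x) (lc bd) ?_
    (fun k => Finsupp.supported ℤ ℤ
      {l : List (Ω × G) | l.length = k ∧ (l = [] ∨ (l.map Prod.fst).toFinset ∈ Y.faces)})
    ?_ r (fun k hk => lift_exact Y Prod.fst (fun v => (v, 1)) (fun _ => rfl) k (hex k hk))
    1 (fun x => Finsupp.single [] (e x)) ?_ ?_ ?_ (fun _ => 0) (fun _ _ _ => (map_zero _).symm)
    (fun x hx => absurd hx (Nat.succ_ne_zero _))
  · obtain ⟨α, h1, -, h2⟩ := key
    refine ⟨Ω, inferInstance, α, hF, fun g x => h1 g trivial x, fun x hx => ?_⟩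
    have h0 := h.nonneg x.i
    obtain ⟨h3, h4⟩ := h2 x (by omega)
    refine ⟨by rw [h4, one_smul], fun l hl => ?_⟩
    obtain ⟨h5, h6⟩ := (Finsupp.mem_supported _ _).1 h3 hl
    refine ⟨by rw [h5]; omega, ?_⟩
    rcases h6 with rfl | h6
    · simp at h5
    · refine Set.Infinite.mono ?_ (hinf _ h6 ?_)
      · exact fun g hg a ha => hg _ (List.mem_toFinset.2 (List.mem_map_of_mem ha))
      · refine (List.toFinset_card_le _).trans ?_
        rw [List.length_map, h5]
        omega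
  · intro g _ b
    rw [univTw_apply, univTw_apply, map_smul]
    exact congrArg _ (lc_bd_map (fun a : Ω × G => g • a) b)
  · intro g _ k b hb
    rw [univTw_apply]
    refine Submodule.smul_mem _ _ ((Finsupp.mem_supported _ _).2 fun l hl => ?_)
    classical
    obtain ⟨l', hl', rfl⟩ := Finset.mem_image.1 (Finsupp.mapDomain_support hl)
    obtain ⟨h5, h6⟩ := (Finsupp.mem_supported _ _).1 hb hl'
    refine ⟨by rw [smul_list, List.length_map, h5], h6.imp (fun e => by rw [e]; rfl) fun h6 => ?_⟩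
    convert hinv g _ h6 using 1
    ext v
    simp only [smul_list, List.mem_toFinset, List.mem_map, Finset.mem_image]
    constructor
    · rintro ⟨_, ⟨a, ha, rfl⟩, rfl⟩
      exact ⟨a.1, ⟨a, ha, rfl⟩, rfl⟩
    · rintro ⟨_, ⟨a, ha, rfl⟩, rfl⟩
      exact ⟨_, ⟨a, ha, rfl⟩, rfl⟩
  · intro g _ x
    rw [univTw_apply, Finsupp.mapDomain_single, h.e_smul, Finsupp.smul_single, smul_eq_mul]
    rfl
  · intro x k hk _
    rcases eq_or_ne (deg x.i) 0 with h0 | h0
    · refine Finsupp.single_mem_supported _ _ ⟨?_, Or.inl rfl⟩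
      rw [List.length_nil]
      omega
    · rw [h.e_deg x h0, Finsupp.single_zero]
      exact zero_mem _
  · intro x _
    have := univ_lc_map (Finsupp.lsingle ([] : List (Ω × G)) : ℤ →ₗ[ℤ] _) e (dC c x)
    rw [h.e_d, map_zero] at this
    rw [Finsupp.linearCombination_single, bd_nil, smul_zero, zero_add, one_smul]
    exact this.symm

/-- the augmented differential -/
noncomputable def univD (c : Matrix I I (MonoidAlgebra ℤ G)) (e : Cell I G → ℤ) :
    ((Cell I G →₀ ℤ) × ℤ) →ₗ[ℤ] ((Cell I G →₀ ℤ) × ℤ) :=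
  ((lc (dC c)).prod (lc e)).comp (LinearMap.fst ℤ _ _)

theorem univD_apply (b : (Cell I G →₀ ℤ) × ℤ) : univD c e b = (lc (dC c) b.1, lc e b.1) := rfl

theorem univD_eq (h : ResC deg c e w) {a : G} (ha : w a = 1) (b : (Cell I G →₀ ℤ) × ℤ) :
    univD c e (univAug G _ a b) = univAug G _ a (univD c e b) := by
  rw [univD_apply, univD_apply, univAug_apply, univAug_apply]
  refine Prod.ext (lc_equiv a (univPerm G _ a) _ (h.d_smul a) _) ?_
  refine lc_equiv a LinearMap.id _ (fun x => ?_) _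
  rw [h.e_smul, ha, Units.val_one, one_mul, LinearMap.id_apply]

theorem univD_ex (h : ResC deg c e w) (b : (Cell I G →₀ ℤ) × ℤ) (hb : univD c e b = 0) :
    ∃ b' ∈ (⊤ : Submodule ℤ ((Cell I G →₀ ℤ) × ℤ)), univD c e b' = b := by
  obtain ⟨ξ, h1, h2⟩ := h.pt
  obtain ⟨y, hy⟩ := h.exact b.1 (congrArg Prod.fst hb) (congrArg Prod.snd hb)
  refine ⟨(y + (b.2 - lc e y) • ξ, 0), trivial, ?_⟩
  rw [univD_apply]
  refine Prod.ext ?_ ?_
  · simp only [map_add, map_smul, h1, hy, smul_zero, add_zero]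
  · simp only [map_add, map_smul, h2, smul_eq_mul, mul_one, add_sub_cancel]

theorem univ_back (h : ResC deg c e w) (r : ℕ) (H : Subgroup G) (hH : ∀ g ∈ H, w g = 1) :
    ∃ g0 : List G → (Cell I G →₀ ℤ) × ℤ, (∀ a ∈ H, ∀ l, g0 (a • l) = univAug G _ a (g0 l)) ∧
      g0 [] = (0, 1) ∧ ∀ l, l.length ≤ r → univD c e (g0 l) = lc g0 (bd l) := by
  obtain ⟨g0, g1, g2, g3⟩ := compare (X := List G) H (univAug G (Cell I G)) List.length
    (fun a l => by rw [smul_list, List.length_map])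
    (fun a _ l hl e => by
      obtain ⟨b, l, rfl⟩ := List.exists_cons_of_ne_nil (List.length_eq_zero_iff.not.1 hl)
      rw [smul_list, List.map_cons, List.cons.injEq] at e
      simpa using e.1)
    bd bd_length bd_bd (fun a _ l => bd_map (fun b : G => a • b) l) (univD c e)
    (fun a ha => univD_eq h (hH a ha)) (fun _ => ⊤)
    (fun _ _ _ _ _ => trivial) r (fun _ _ b _ => univD_ex h b) 1 (fun _ => 0)
    (fun _ _ _ => (map_zero _).symm)
    (fun _ _ _ _ => trivial) (fun x _ => by rw [map_zero, univ_lc_zero, smul_zero, add_zero])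
    (fun _ => (0, 1)) (fun a _ _ => by rw [univAug_apply, Finsupp.mapDomain_zero])
    (fun _ _ => ⟨trivial, by rw [univD_apply, map_zero, map_zero]; rfl⟩)
  exact ⟨g0, g1, g2 [] rfl, fun l hl => by rw [(g3 l hl).2, one_smul, add_zero]⟩

/-- a chain map back and a homotopy -/
theorem exists_homotopy (h : ResC deg c e w) (r : ℕ) (H : Subgroup G) (hH : ∀ g ∈ H, w g = 1)
    (f : Cell I G → List G →₀ ℤ) (feq : ∀ g ∈ H, ∀ x, f (g • x) = (f x).mapDomain (g • ·))
    (hf : ∀ x, deg x.i < r → lc bd (f x) = lc f (dC c x) + Finsupp.single [] (e x) ∧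
      ∀ l ∈ (f x).support, (l.length : ℤ) = deg x.i + 1) :
    ∃ (g : List G → Cell I G →₀ ℤ) (s : Cell I G → Cell I G →₀ ℤ),
      (∀ a ∈ H, ∀ l, g (a • l) = (g l).mapDomain (a • ·)) ∧
      (∀ a ∈ H, ∀ x, s (a • x) = (s x).mapDomain (a • ·)) ∧
      ∀ x, deg x.i < r →
        lc g (f x) + lc (dC c) (s x) + lc s (dC c x) = Finsupp.single x 1 := by
  obtain ⟨g0, g1, g2, g3⟩ := univ_back h r H hH
  have b1 : ∀ a ∈ H, ∀ x : Cell I G,
      LinearMap.inl ℤ _ ℤ (Finsupp.single (a • x) (1 : ℤ)) - lc g0 (f (a • x)) =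
        univAug G _ a (LinearMap.inl ℤ _ ℤ (Finsupp.single x 1) - lc g0 (f x)) := by
    intro a ha x
    rw [map_sub, feq a ha, lc_equiv a (univAug G _ a) g0 (g1 a ha), LinearMap.inl_apply,
      LinearMap.inl_apply, univAug_apply a (Finsupp.single x 1, 0), Finsupp.mapDomain_single]
  have b2 : ∀ x : Cell I G, (deg x.i).toNat + 1 ≤ r →
      univD c e (LinearMap.inl ℤ _ ℤ (Finsupp.single x 1) - lc g0 (f x)) + (-1 : ℤ) •
        lc (fun x => LinearMap.inl ℤ _ ℤ (Finsupp.single x 1) - lc g0 (f x)) (dC c x) = 0 := by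
    intro x hx
    have h0 := h.nonneg x.i
    obtain ⟨h1, h2⟩ := hf x (by omega)
    have e1 : univD c e (lc g0 (f x)) = lc g0 (lc bd (f x)) := by
      rw [univ_lc_map, univ_lc_map]
      refine univ_lc_congr fun l hl => ?_
      have := h2 l hl
      exact g3 l (by omega)
    have e2 : univD c e (LinearMap.inl ℤ _ ℤ (Finsupp.single x 1)) =
        LinearMap.inl ℤ _ ℤ (dC c x) + e x • (0, 1) := by
      rw [univD_apply]
      simp
    rw [map_sub, e1, e2, h1, map_add, univ_lc_sub, ← univ_lc_map, ← univ_lc_map,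
      univ_lc_single, Finsupp.linearCombination_single, g2]
    abel
  obtain ⟨s0, s1, -, s3⟩ := compare (X := Cell I G) H (univAug G (Cell I G))
    (fun x => (deg x.i).toNat + 1) (fun _ _ => rfl) (fun g _ x _ e => univ_free g x e)
    (dC c) (univ_len h) h.d_d (fun g _ x => h.d_smul g x) (univD c e)
    (fun a ha => univD_eq h (hH a ha)) (fun _ => ⊤)
    (fun _ _ _ _ _ => trivial) r (fun _ _ b _ => univD_ex h b) (-1)
    (fun x => LinearMap.inl ℤ _ ℤ (Finsupp.single x 1) - lc g0 (f x)) b1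
    (fun _ _ _ _ => trivial) b2
    (fun _ => 0) (fun _ _ _ => (map_zero _).symm) (fun x hx => absurd hx (Nat.succ_ne_zero _))
  refine ⟨fun l => (g0 l).1, fun x => (s0 x).1, fun a ha l => congrArg Prod.fst (g1 a ha l),
    fun a ha x => congrArg Prod.fst (s1 a ha x), fun x hx => ?_⟩
  have h0 := h.nonneg x.i
  have e1 : lc (dC c) (s0 x).1 =
      (-1 : ℤ) • (lc s0 (dC c x)).1 + (Finsupp.single x 1 - (lc g0 (f x)).1) := by
    have := congrArg Prod.fst (s3 x (by omega)).2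
    rw [univD_apply, Prod.fst_add, Prod.fst_sub, Prod.smul_fst, LinearMap.inl_apply] at this
    exact this
  rw [univ_lc_fst, univ_lc_fst, e1]
  abel

end Pool.Agent.Lib.MP_fd3021_gt

/-! Cheap factorisations in finite covers. -/

namespace Pool.Agent.Lib.MP_fd3021_gt

open Matrix Filter

theorem lcheap_lc_apply {X Z : Type} (φ : X → Z →₀ ℤ) (ξ : X →₀ ℤ) (T : Finset X)
    (hT : ξ.support ⊆ T) (z : Z) : lc φ ξ z = ∑ x ∈ T, ξ x * φ x z := by
  rw [Finsupp.linearCombination_apply_of_mem_supported ℤ (s := T) hT, Finsupp.finsetSum_apply]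
  rfl

theorem lcheap_mem_map {X Z : Type} {φ : X → Z} {ξ : X →₀ ℤ} {z : Z}
    (h : z ∈ (ξ.mapDomain φ).support) : ∃ x ∈ ξ.support, φ x = z := by
  classical
  exact Finset.mem_image.1 (Finsupp.mapDomain_support h)

theorem lcheap_lc_map {X Z Z' : Type} (α : X → Z →₀ ℤ) (φ : Z → Z') (ξ : X →₀ ℤ) :
    (lc α ξ).mapDomain φ = lc (fun x => (α x).mapDomain φ) ξ :=
  Finsupp.apply_linearCombination ℤ (Finsupp.lmapDomain ℤ ℤ φ) α ξ

theorem lcheap_free_list {G : Type} [Group G] {l : List G} (hl : l ≠ []) {h : G}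
    (e : h • l = l) : h = 1 := by
  obtain ⟨a, t, rfl⟩ := List.exists_cons_of_ne_nil hl
  rw [smul_list, List.map_cons, List.cons.injEq] at e
  exact mul_eq_right.1 e.1

theorem lcheap_free_cell {G I : Type} [Group G] {x : Cell I G} {h : G} (e : h • x = x) :
    h = 1 :=
  mul_eq_right.1 (congrArg Cell.g e)

variable {G I : Type} [Group G] [Fintype I] [DecidableEq I] {deg : I → ℤ}
  {c : Matrix I I (MonoidAlgebra ℤ G)}

omit [DecidableEq I] in
theorem lcheap_cells (H : FiniteIndexNormalSubgroup G) :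
    ∃ R : Finset (Cell I G), ∀ x, ∃ h ∈ H.toSubgroup, ∃ r ∈ R, h • r = x := by
  classical
  choose sec hs using mkQ_surj H
  refine ⟨Finset.univ.image fun y : I × QQ H => (⟨y.1, sec y.2⟩ : Cell I G), fun x => ?_⟩
  obtain ⟨k, hk, e⟩ := (mkQ_eq_iff H _ _).1 (hs (mkQ H x.g))
  refine ⟨k, hk, _, Finset.mem_image.2 ⟨(x.i, mkQ H x.g), Finset.mem_univ _, rfl⟩, ?_⟩
  rw [smul_cell, e]

/-- descent of a homotopy factorisation through few orbits of lists -/
theorem cheapT_of_univ (H : FiniteIndexNormalSubgroup G) (P : I → Prop)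
    (deq : ∀ (g : G) x, dC c (g • x) = (dC c x).mapDomain (g • ·))
    (f : Cell I G → List G →₀ ℤ) (g : List G → Cell I G →₀ ℤ) (s : Cell I G → Cell I G →₀ ℤ)
    (feq : ∀ a ∈ H.toSubgroup, ∀ x, f (a • x) = (f x).mapDomain (a • ·))
    (geq : ∀ a ∈ H.toSubgroup, ∀ l, g (a • l) = (g l).mapDomain (a • ·))
    (seq : ∀ a ∈ H.toSubgroup, ∀ x, s (a • x) = (s x).mapDomain (a • ·))
    (hid : ∀ x, P x.i → lc g (f x) + lc (dC c) (s x) + lc s (dC c x) = Finsupp.single x 1)
    (fne : ∀ x, [] ∉ (f x).support) {C δ : ℝ} (fC : ∀ x, l1 (f x) ≤ C) (R : Finset (List G))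
    (hR : (R.card : ℝ) ≤ δ * dg H)
    (fR : ∀ x, ∀ l ∈ (f x).support, ∃ h ∈ H.toSubgroup, ∃ r ∈ R, l = h • r) :
    ∃ M : ℝ, ∀ N ≤ H, CheapT (rep N c)ᵀ (fun y => P y.1) C δ M (dg N) := by
  classical
  obtain ⟨R1, hR1⟩ := lcheap_cells (I := I) H
  have nf : 0 ≤ ∑ r ∈ R1, l1 (f r) := Finset.sum_nonneg fun _ _ => l1_nonneg _
  have ng : 0 ≤ ∑ r ∈ R, l1 (g r) := Finset.sum_nonneg fun _ _ => l1_nonneg _
  have ns : 0 ≤ ∑ r ∈ R1, l1 (s r) := Finset.sum_nonneg fun _ _ => l1_nonneg _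
  refine ⟨∑ r ∈ R1, l1 (f r) + ∑ r ∈ R, l1 (g r) + ∑ r ∈ R1, l1 (s r), fun N hN => ?_⟩
  have hN' : N.toSubgroup ≤ H.toSubgroup := fun _ h => hN h
  choose sec hs using mkQ_surj N
  have qC := isQuot_cell (I := I) N sec hs
  set prC := fun x : Cell I G => (x.i, mkQ N x.g) with hprC
  set secC := fun y : I × QQ N => (⟨y.1, sec y.2⟩ : Cell I G) with hsecC
  obtain ⟨Y, pr, secL, qL⟩ := exists_isQuot (X := List G) N.toSubgroup
  obtain ⟨κ, hκ, hκ1, hκ2⟩ := count_orbits hN qL R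
  obtain ⟨bf1, bf2⟩ := desc_bound hN' qC qL f feq R1
    (fun r _ x hx h _ e => lcheap_free_list (fun h0 => fne r (h0 ▸ hx)) e) Finset.univ
    fun y _ => hR1 _
  obtain ⟨bg1, bg2⟩ := desc_bound hN' qL qC g geq R
    (fun _ _ _ _ _ _ e => lcheap_free_cell e) κ hκ2
  obtain ⟨bs1, bs2⟩ := desc_bound hN' qC qC s seq R1
    (fun _ _ _ _ _ _ e => lcheap_free_cell e) Finset.univ fun y _ => hR1 _
  have cf : ∀ j, ∑ k : κ, |((desc pr secC f j k : ℤ) : ℝ)| ≤ l1 (desc pr secC f j) := fun j => by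
    rw [Finset.sum_coe_sort κ fun k => |((desc pr secC f j k : ℤ) : ℝ)|]
    exact sum_le_l1 _ _
  refine ⟨κ, inferInstance, fun k y => desc pr secC f y k, fun y k => desc prC secL g k y,
    fun y y' => desc prC secC s y' y, fun y y' hy' => ?_, ?_, fun j => ?_, ⟨fun k => ?_, fun j => ?_⟩,
    ⟨fun y => ?_, fun k => ?_⟩, ⟨fun y => ?_, fun y => ?_⟩⟩
  · have h0 := congrArg (fun ξ => Finsupp.mapDomain prC ξ y) (hid (secC y') hy')
    simp only [Finsupp.mapDomain_add, Finsupp.add_apply, Finsupp.mapDomain_single] at h0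
    rw [desc_lc qL qC g (fun h hh => geq h (hN' hh)), desc_lc qC qC (dC c) (fun h _ => deq h),
      desc_lc qC qC s (fun h hh => seq h (hN' hh)), qC.1 y'] at h0
    have hsupp : ((f (secC y')).mapDomain pr).support ⊆ κ := fun k hk => by
      obtain ⟨l, hl, rfl⟩ := lcheap_mem_map hk
      obtain ⟨h, hh, r, hr, rfl⟩ := fR _ l hl
      exact hκ1 h hh r hr
    rw [lcheap_lc_apply _ _ κ hsupp, lcheap_lc_apply _ _ Finset.univ (Finset.subset_univ _),
      lcheap_lc_apply _ _ Finset.univ (Finset.subset_univ _)] at h0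
    have e1 : ∑ k : κ, desc prC secL g k y * desc pr secC f y' k =
        ∑ x ∈ κ, Finsupp.mapDomain pr (f (secC y')) x * desc prC secL g x y := by
      rw [Finset.sum_coe_sort κ fun k => desc prC secL g k y * desc pr secC f y' k]
      exact Finset.sum_congr rfl fun _ _ => mul_comm _ _
    have e2 : ∑ z, rep N c z y * desc prC secC s y' z =
        ∑ x, Finsupp.mapDomain prC (s (secC y')) x * desc prC secC (dC c) x y :=
      Finset.sum_congr rfl fun z _ => by rw [desc_dC N sec hs, mul_comm]; rfl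
    have e3 : ∑ z, desc prC secC s z y * rep N c y' z =
        ∑ x, Finsupp.mapDomain prC (dC c (secC y')) x * desc prC secC s x y :=
      Finset.sum_congr rfl fun z _ => by rw [← desc_dC N sec hs, mul_comm]; rfl
    simp only [Matrix.add_apply, Matrix.mul_apply, Matrix.transpose_apply]
    rw [e1, e2, e3, h0, Finsupp.single_apply, Matrix.one_apply]
    simp only [eq_comm]
  · rw [Fintype.card_coe]
    have h1 := dg_pos H
    have h2 := dg_pos N
    have h3 : (κ.card : ℝ) * dg H ≤ δ * dg N * dg H := by nlinarith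
    exact le_of_mul_le_mul_right h3 h1
  · exact (cf j).trans ((l1_mapDomain _ _).trans (fC _))
  · have := bf1 k
    linarith
  · have := (cf j).trans (bf2 j (Finset.mem_univ _))
    linarith
  · have := bg1 y
    rw [← Finset.sum_coe_sort κ fun k => |((desc prC secL g k y : ℤ) : ℝ)|] at this
    linarith
  · have := (sum_le_l1 _ Finset.univ).trans (bg2 k k.2)
    linarith
  · have := bs1 y
    linarith
  · have := (sum_le_l1 _ Finset.univ).trans (bs2 y (Finset.mem_univ _))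
    linarith

theorem cheapT_main [Group.ResiduallyFinite G] (h : IsRes deg c) {r : ℕ} (hT : Thin G r) (p : ℤ)
    (hp : p < r) : ∃ C : ℝ, ∀ δ > 0, ∃ M : ℝ, ∀ᶠ N : FiniteIndexNormalSubgroup G in atBot,
      CheapT (rep N c)ᵀ (fun y => deg y.1 = p) C δ M (dg N) := by
  classical
  obtain ⟨e, w, hc⟩ := h.resC
  obtain ⟨Ω, _, α, hF, αeq, hα⟩ := exists_alpha hc hT
  refine ⟨∑ i, l1 (α ⟨i, 1⟩), fun δ hδ => ?_⟩
  obtain ⟨H, τ, R, hH, hτ, hR, hΛ⟩ := exists_tau hF
    ((Finset.univ.filter fun i => deg i = p).biUnion fun i => (α ⟨i, 1⟩).support)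
    (fun l hl => by
      obtain ⟨i, hi, hl⟩ := Finset.mem_biUnion.1 hl
      have hi' : deg i = p := (Finset.mem_filter.1 hi).2
      exact ((hα ⟨i, 1⟩ (hi' ▸ hp)).2 l hl).2)
    (FiniteIndexNormalSubgroup.ofSubgroup w.ker) hδ
  have hw : ∀ a ∈ H.toSubgroup, w a = 1 := fun a ha => hH ha
  have feq : ∀ a ∈ H.toSubgroup, ∀ x, (α (a • x)).mapDomain (List.map τ) =
      ((α x).mapDomain (List.map τ)).mapDomain (a • ·) := fun a ha x => by
    rw [αeq, hw a ha, Units.val_one, one_smul, ← Finsupp.mapDomain_comp, ← Finsupp.mapDomain_comp]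
    congr 1
    funext l
    simp only [Function.comp, smul_list, List.map_map]
    congr 1
    funext b
    exact hτ a ha b
  have hlen : ∀ x : Cell I G, deg x.i < r → ∀ l ∈ ((α x).mapDomain (List.map τ)).support,
      (l.length : ℤ) = deg x.i + 1 := fun x hx l hl => by
    obtain ⟨l0, hl0, rfl⟩ := lcheap_mem_map hl
    rw [List.length_map]
    exact ((hα x hx).2 l0 hl0).1
  obtain ⟨g, s, geq, seq, hid⟩ := exists_homotopy hc r H.toSubgroup hw
    (fun x => (α x).mapDomain (List.map τ)) feq fun x hx => ⟨by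
      rw [lc_bd_map, (hα x hx).1, Finsupp.mapDomain_add, lcheap_lc_map, Finsupp.mapDomain_single,
        List.map_nil], hlen x hx⟩
  have hx1 : ∀ x : Cell I G, α x = (w x.g : ℤ) • (α ⟨x.i, 1⟩).mapDomain (x.g • ·) := fun x => by
    rw [← αeq, smul_cell, mul_one]
  obtain ⟨M, hM⟩ := cheapT_of_univ H (fun i => deg i = p) hc.d_smul
    (fun x => if deg x.i = p then (α x).mapDomain (List.map τ) else 0) g s
    (fun a ha x => by
      have hi : (a • x).i = x.i := rfl
      rw [hi]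
      split_ifs
      · exact feq a ha x
      · exact Finsupp.mapDomain_zero.symm) geq seq
    (fun x hx => by rw [if_pos hx]; exact hid x (hx ▸ hp))
    (fun x hx => by
      split_ifs at hx with h1
      · have h2 := hlen x (h1 ▸ hp) _ hx
        have h3 := hc.nonneg x.i
        simp only [List.length_nil, Nat.cast_zero] at h2
        omega
      · simp at hx)
    (C := ∑ i, l1 (α ⟨i, 1⟩))
    (fun x => by
      have h0 : l1 (α ⟨x.i, 1⟩) ≤ ∑ i, l1 (α ⟨i, 1⟩) :=
        Finset.single_le_sum (f := fun i => l1 (α ⟨i, 1⟩)) (fun _ _ => l1_nonneg _)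
          (Finset.mem_univ _)
      split_ifs
      · refine (l1_mapDomain _ _).trans ?_
        rw [hx1, l1_unit_smul]
        exact (l1_mapDomain _ _).trans h0
      · refine le_trans ?_ ((l1_nonneg _).trans h0)
        simp [l1]) R hR
    (fun x l hl => by
      split_ifs at hl with h1
      · obtain ⟨l0, hl0, rfl⟩ := lcheap_mem_map hl
        rw [hx1] at hl0
        obtain ⟨l2, hl2, rfl⟩ := lcheap_mem_map (Finsupp.support_smul hl0)
        exact hΛ l2 (Finset.mem_biUnion.2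
          ⟨x.i, Finset.mem_filter.2 ⟨Finset.mem_univ _, h1⟩, hl2⟩) x.g
      · simp at hl)
  exact ⟨M, (eventually_le_atBot H).mono hM⟩

end Pool.Agent.Lib.MP_fd3021_gt

/-! The full simplex on the cosets of an amenable subgroup. -/

namespace Pool.Agent.Lib.MP_fd3021_gt

theorem Folner.of_equiv {Γ Γ' : Type} [Group Γ] [Group Γ'] (e : Γ ≃* Γ') (h : Folner Γ) :
    Folner Γ' := by
  classical
  intro A ε hε
  obtain ⟨F, hF, h⟩ := h (A.image e.symm) ε hε
  refine ⟨F.image e, hF.image _, fun a ha => ?_⟩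
  have h1 := h (e.symm a) (Finset.mem_image_of_mem _ ha)
  have hm : ∀ y, y ∈ F.image e ↔ e.symm y ∈ F := fun y => by
    constructor
    · intro hy
      obtain ⟨x, hx, rfl⟩ := Finset.mem_image.1 hy
      simpa using hx
    · intro hy
      exact Finset.mem_image.2 ⟨_, hy, by simp⟩
  have e1 : {x | x ∈ F.image e ∧ a * x ∉ F.image e} =
      e '' {x | x ∈ F ∧ e.symm a * x ∉ F} := by
    ext y
    simp only [Set.mem_ofPred_eq, hm, map_mul]
    constructor
    · intro hy
      exact ⟨e.symm y, hy, by simp⟩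
    · rintro ⟨x, hx, rfl⟩
      simpa using hx
  rw [e1, Set.ncard_image_of_injective _ e.injective,
    Finset.card_image_of_injective _ e.injective]
  exact h1

theorem thin_of_subgroup {G : Type} [Group G] (A : Subgroup G) (hA : Folner A) (r : ℕ)
    (hinf : ∀ s : Finset G, s.card ≤ r → {a : G | ∀ g ∈ s, g⁻¹ * a * g ∈ A}.Infinite) :
    Thin G r := by
  classical
  have hst : ∀ (a g : G), a • (g : G ⧸ A) = g ↔ g⁻¹ * a * g ∈ A := fun a g => by
    rw [MulAction.Quotient.smul_mk, eq_comm, QuotientGroup.eq, smul_eq_mul, mul_assoc]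
  refine ⟨G ⧸ A, inferInstance, inferInstance,
    ⟨⟨{s | s.Nonempty}, fun {_} hs => ⟨hs, fun _ _ ht => ht⟩⟩, fun v => Finset.singleton_nonempty v⟩,
    fun g σ hσ => Finset.Nonempty.image hσ _, fun v => ?_, fun σ _ hσ => ?_, fun p _ z hz h0 => ?_⟩
  · obtain ⟨g, rfl⟩ := QuotientGroup.mk_surjective v
    refine Folner.of_equiv ?_ hA
    exact
      { toFun := fun a => ⟨g * a * g⁻¹, (hst _ g).2 (by simp [mul_assoc])⟩
        invFun := fun a => ⟨g⁻¹ * a * g, (hst _ g).1 a.2⟩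
        left_inv := fun a => by ext; simp [mul_assoc]
        right_inv := fun a => by ext; simp [mul_assoc]
        map_mul' := fun a b => by ext; simp [mul_assoc] }
  · refine (hinf (σ.image Quotient.out) (Finset.card_image_le.trans hσ)).mono fun a ha v hv => ?_
    have := (hst a v.out).2 (ha _ (Finset.mem_image_of_mem _ hv))
    rwa [QuotientGroup.out_eq'] at this
  · refine ⟨z.mapDomain (((1 : G) : G ⧸ A) :: ·), fun l hl => ?_, ?_⟩
    · obtain ⟨l', hl', rfl⟩ := Finset.mem_image.1 (Finsupp.mapDomain_support hl)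
      exact ⟨by simp [(hz hl').1], Or.inr ⟨((1 : G) : G ⧸ A), by simp⟩⟩
    · have := lc_bd_cons ((1 : G) : G ⧸ A) z
      rwa [show lc bd z = 0 from h0, Finsupp.mapDomain_zero, sub_zero] at this

end Pool.Agent.Lib.MP_fd3021_gt

/-! Assembly. -/

namespace Pool.Agent.Lib.MP_fd3021_gt

open Matrix Filter MeasureTheory Topology

variable {G I : Type} [Group G] [Group.ResiduallyFinite G] [Fintype I] [DecidableEq I]
  {deg : I → ℤ} {c : Matrix I I (MonoidAlgebra ℤ G)}

theorem Good.isSpec {J : Type} [Fintype J] [DecidableEq J] {A : Matrix J J (MonoidAlgebra ℤ G)}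
    {K : ℝ} (hA : Good A K) : IsSpec A (spec A) :=
  Classical.epsilon_spec (spec_exists hA)

theorem detAcyclic_of (hg : ∀ i j, c i j ≠ 0 → deg i = deg j + 1)
    (hb : ∀ p, spec (lap deg c p) {0} = 0) : DetAcyclic deg c := by
  intro p
  obtain ⟨K, hK⟩ := good_lap hg p
  obtain ⟨K', hK'⟩ := good_dd hg p
  exact ⟨⟨_, hK.isSpec, fun _ h => spec_unique hK h hK.isSpec⟩,
    ⟨_, hK'.isSpec, fun _ h => spec_unique hK' h hK'.isSpec⟩, hb p,
    log_integrable hK hK.isSpec, log_integrable hK' hK'.isSpec⟩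

omit [Group.ResiduallyFinite G] in
theorem main_delta {n0 n1 n2 : Type} [Fintype n0] [Fintype n1] [Fintype n2]
    {Dm : Matrix n0 n1 ℤ} {D : Matrix n1 n2 ℤ} {C δ δ' M d : ℝ} (h : Data Dm D C δ M d)
    (hd : 0 ≤ d) (hδ : δ ≤ δ') : Data Dm D C δ' M d := by
  obtain ⟨k1, k2, i1, i2, f, g, s, D', f', g', h1, h2, h3, h4, h5, h6, h7⟩ := h
  exact ⟨k1, k2, i1, i2, f, g, s, D', f', g', h1, h2, h3, h4, h5,
    h6.trans (mul_le_mul_of_nonneg_right hδ hd), h7⟩

omit [Group.ResiduallyFinite G] [DecidableEq I] in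
theorem main_card (deg : I → ℤ) (N : FiniteIndexNormalSubgroup G) (p : ℤ) :
    (Fintype.card ({i // deg i = p} × QQ N) : ℝ) ≤ Fintype.card I * dg N := by
  rw [Fintype.card_prod, Nat.cast_mul]
  exact mul_le_mul_of_nonneg_right (Nat.cast_le.2 (Fintype.card_subtype_le _)) (dg_pos N).le

/-- the data of (II) at the cycles of degree `p + 1` in all deep finite covers -/
def EvData (deg : I → ℤ) (c : Matrix I I (MonoidAlgebra ℤ G)) (p : ℤ) : Prop :=
  ∃ C : ℝ, ∀ δ > 0, δ ≤ 1 → ∃ M : ℝ, ∀ᶠ N : FiniteIndexNormalSubgroup G in atBot,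
    Data (DQ deg c N p) (DQ deg c N (p + 1)) C δ M (dg N)

theorem core (n : ℕ) (h0 : ∀ i, 0 ≤ deg i) (hn : ∀ i, deg i ≤ n)
    (hg : ∀ i j, c i j ≠ 0 → deg i = deg j + 1) (hc : c * c = 0)
    (hb : ∀ p, spec (lap deg c p) {0} = 0) (q : ℤ)
    (hdata : ∀ p : ℤ, 0 ≤ p + 1 → p + 1 < n → p + 1 ≠ q → EvData deg c p) :
    0 ≤ (-1 : ℝ) ^ q * rho deg c := by
  classical
  -- uniform constants
  set s : Finset ℤ := (Finset.Icc (-1 : ℤ) n).filter fun p => 0 ≤ p + 1 ∧ p + 1 < n ∧ p + 1 ≠ q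
    with hs
  have hs' : ∀ p : ℤ, p ∈ s ↔ 0 ≤ p + 1 ∧ p + 1 < n ∧ p + 1 ≠ q := fun p => by
    simp only [hs, Finset.mem_filter, Finset.mem_Icc]
    omega
  have hd' : ∀ p ∈ s, EvData deg c p := fun p hp =>
    hdata p ((hs' p).1 hp).1 ((hs' p).1 hp).2.1 ((hs' p).1 hp).2.2
  choose! Cp hCp using hd'
  obtain ⟨C₀, hC₀, hRC⟩ := rep_RC c
  set C : ℝ := C₀ + Fintype.card I + ∑ p ∈ s, |Cp p| with hC
  have hsum : 0 ≤ ∑ p ∈ s, |Cp p| := Finset.sum_nonneg fun _ _ => abs_nonneg _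
  have hI : (0 : ℝ) ≤ Fintype.card I := Nat.cast_nonneg _
  have hC1 : 1 ≤ C := by linarith
  have hCp' : ∀ p ∈ s, Cp p ≤ C := fun p hp => by
    have := Finset.single_le_sum (f := fun p => |Cp p|) (fun _ _ => abs_nonneg _) hp
    linarith [le_abs_self (Cp p)]
  set ld : ℤ → ℝ := fun p => ∫ x in Set.Ioi 0, Real.log x ∂(spec (lap deg c p)) with hld
  have hrho : rho deg c = -(1 / 2) * ∑ p ∈ Finset.Icc (0 : ℤ) n, (-1 : ℝ) ^ p * p * ld p := by
    unfold rho
    congr 1
    refine Finset.sum_subset (fun p hp => ?_) fun p _ hp => ?_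
    · obtain ⟨i, -, rfl⟩ := Finset.mem_image.1 hp
      exact Finset.mem_Icc.2 ⟨h0 i, hn i⟩
    · obtain ⟨K, hK⟩ := good_lap hg p
      obtain ⟨hfin, -, hm⟩ := hK.isSpec
      have hE : IsEmpty {i // deg i = p} :=
        ⟨fun i => hp (Finset.mem_image.2 ⟨i.1, Finset.mem_univ _, i.2⟩)⟩
      have h1 := hm 0
      simp only [pow_zero, integral_const, smul_eq_mul, mul_one, Finset.univ_eq_empty,
        Finset.sum_empty] at h1
      have h2 : spec (lap deg c p) = 0 := by
        rwa [measureReal_eq_zero_iff, Measure.measure_univ_eq_zero] at h1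
      simp [h2]
  refine le_of_forall_pos_le_add fun ε hε => ?_
  obtain ⟨δ, hδ, hfin⟩ := finMain n hC1 (half_pos hε)
  have hM' : ∀ p ∈ s, ∃ M : ℝ, ∀ᶠ N : FiniteIndexNormalSubgroup G in atBot,
      Data (DQ deg c N p) (DQ deg c N (p + 1)) (Cp p) (min δ 1) M (dg N) := fun p hp =>
    hCp p hp _ (lt_min hδ one_pos) (min_le_right _ _)
  choose! Mp hMp using hM'
  set M : ℝ := 1 + ∑ p ∈ s, |Mp p| with hM
  have hsum' : 0 ≤ ∑ p ∈ s, |Mp p| := Finset.sum_nonneg fun _ _ => abs_nonneg _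
  have hMp' : ∀ p ∈ s, Mp p ≤ M := fun p hp => by
    have := Finset.single_le_sum (f := fun p => |Mp p|) (fun _ _ => abs_nonneg _) hp
    linarith [le_abs_self (Mp p)]
  obtain ⟨ζ, hζ, hfin⟩ := hfin M (by linarith)
  have hn1 : (0 : ℝ) < (n + 1) * (n + 1) := by positivity
  set ζ' := min ζ (ε / ((n + 1) * (n + 1))) with hζ'
  have hζ0 : 0 < ζ' := lt_min hζ (by positivity)
  have hη : ∀ᶠ η : ℝ in 𝓝[>] 0, ∀ p ∈ Finset.Icc (0 : ℤ) n,
      ∀ᶠ N : FiniteIndexNormalSubgroup G in atBot,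
      (cnt (cm (rep N (lap deg c p))) η : ℝ) * (1 - Real.log η) ≤ ζ' * dg N ∧
      |trf (cm (rep N (lap deg c p))) (psi η) - dg N * ld p| ≤ ζ' * dg N := by
    rw [eventually_all_finset]
    intro p _
    obtain ⟨K, hK⟩ := good_lap hg p
    exact eta_main hK hK.isSpec (hb p) hζ0
  have hη' : ∀ᶠ η : ℝ in 𝓝[>] 0, η ∈ Set.Ioc (0 : ℝ) 1 := Ioc_mem_nhdsGT zero_lt_one
  obtain ⟨η, ⟨hη0, hη1⟩, hη⟩ := (hη'.and hη).exists
  rw [← eventually_all_finset] at hη
  have hMp2 : ∀ᶠ N : FiniteIndexNormalSubgroup G in atBot, ∀ p ∈ s,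
      Data (DQ deg c N p) (DQ deg c N (p + 1)) (Cp p) (min δ 1) (Mp p) (dg N) :=
    (eventually_all_finset s).2 hMp
  obtain ⟨N, hN1, hN2⟩ := (hη.and hMp2).exists
  have hd := dg_pos N
  have hE : ∀ p : ℤ, p < 0 ∨ (n : ℤ) < p → IsEmpty ({i // deg i = p} × QQ N) := fun p hp =>
    ⟨fun x => by have := h0 x.1.1; have := hn x.1.1; have := x.1.2; omega⟩
  have key := hfin η hη0 hη1 (dg N) hd (fun p => {i // deg i = p} × QQ N) (DQ deg c N) q
    (DQ_mul hg hc N) hE
    (fun p => (main_card deg N p).trans (mul_le_mul_of_nonneg_right (by linarith) hd.le))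
    (fun p => (DQ_RC (hRC N) p).mono (by linarith))
    (fun p => by
      by_cases hp : p + 1 ∈ Finset.Icc (0 : ℤ) n
      · rw [← rep_lap hg]
        exact (hN1 _ hp).1.trans (mul_le_mul_of_nonneg_right (min_le_left _ _) hd.le)
      · have := hE (p + 1) (by rw [Finset.mem_Icc] at hp; omega)
        have e : cnt (lapR (cm (DQ deg c N p)) (cm (DQ deg c N (p + 1)))) η = 0 := by
          simp [cnt]
        rw [e, Nat.cast_zero, zero_mul]
        positivity)
    (fun p a b e => main_delta ((hN2 p ((hs' p).2 ⟨a, b, e⟩)).mono hd.le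
      (hCp' p ((hs' p).2 ⟨a, b, e⟩)) (hMp' p ((hs' p).2 ⟨a, b, e⟩))) hd.le (min_le_left _ _))
  set T : ℤ → ℝ := fun p => trf (cm (rep N (lap deg c p))) (psi η) with hT
  have hlt : ∀ p, ltr (DQ deg c N) η (p - 1) = T p := fun p => by
    have e : ∀ p, ltr (DQ deg c N) η p = T (p + 1) := fun p => by
      simp only [hT]
      rw [rep_lap hg]
      rfl
    rw [e, sub_add_cancel]
  simp only [hlt] at key
  have hdiff : |∑ p ∈ Finset.Icc (0 : ℤ) n, (-1 : ℝ) ^ p * p * T p -
      dg N * ∑ p ∈ Finset.Icc (0 : ℤ) n, (-1 : ℝ) ^ p * p * ld p| ≤ ε * dg N := by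
    rw [Finset.mul_sum, ← Finset.sum_sub_distrib]
    refine (Finset.abs_sum_le_sum_abs _ _).trans ?_
    have hb : ∀ p ∈ Finset.Icc (0 : ℤ) n,
        |(-1 : ℝ) ^ p * p * T p - dg N * ((-1 : ℝ) ^ p * p * ld p)| ≤
          (n + 1) * (ε / ((n + 1) * (n + 1)) * dg N) := fun p hp => by
      have e : (-1 : ℝ) ^ p * p * T p - dg N * ((-1 : ℝ) ^ p * p * ld p) =
          (-1 : ℝ) ^ p * p * (T p - dg N * ld p) := by ring
      obtain ⟨a, b⟩ := Finset.mem_Icc.1 hp
      have a' : (0 : ℝ) ≤ p := by exact_mod_cast a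
      have b' : (p : ℝ) ≤ n := by exact_mod_cast b
      rw [e, abs_mul, abs_mul, abs_neg_one_zpow, one_mul, abs_of_nonneg a']
      exact mul_le_mul (by linarith) ((hN1 p hp).2.trans
        (mul_le_mul_of_nonneg_right (min_le_right _ _) hd.le)) (abs_nonneg _) (by positivity)
    refine (Finset.sum_le_sum hb).trans (le_of_eq ?_)
    rw [Finset.sum_const, Int.card_Icc, nsmul_eq_mul]
    have : ((n : ℤ) + 1 - 0).toNat = n + 1 := by omega
    rw [this]
    push_cast
    field_simp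
  obtain ⟨d1, d2⟩ := abs_le.1 hdiff
  rw [hrho]
  have hq : (-1 : ℝ) ^ q = 1 ∨ (-1 : ℝ) ^ q = -1 := by
    rcases Int.even_or_odd q with h | h
    · exact Or.inl h.neg_one_zpow
    · exact Or.inr h.neg_one_zpow
  refine le_of_mul_le_mul_left ?_ hd
  rcases hq with hq | hq <;> rw [hq] at key ⊢ <;> nlinarith

/-- cheap factorisation in degree `p + 1` -/
def EvCheap (deg : I → ℤ) (c : Matrix I I (MonoidAlgebra ℤ G)) (p : ℤ) : Prop :=
  ∃ C : ℝ, ∀ δ > 0, ∃ M : ℝ, ∀ᶠ N : FiniteIndexNormalSubgroup G in atBot,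
    Cheap (DQ deg c N p) (DQ deg c N (p + 1)) C δ M (dg N)

/-- cheap factorisation of the dual complex in degree `p + 1` -/
def EvDual (deg : I → ℤ) (c : Matrix I I (MonoidAlgebra ℤ G)) (p : ℤ) : Prop :=
  ∃ C : ℝ, ∀ δ > 0, ∃ M : ℝ, ∀ᶠ N : FiniteIndexNormalSubgroup G in atBot,
    Cheap (DQ deg c N (p + 1))ᵀ (DQ deg c N p)ᵀ C δ M (dg N)

omit [Group.ResiduallyFinite G] [Fintype I] [DecidableEq I] in
theorem main_inj (deg : I → ℤ) (N : FiniteIndexNormalSubgroup G) (p : ℤ) :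
    Function.Injective fun x : {i // deg i = p} × QQ N => (x.1.1, x.2) := fun x y h => by
  simp only [Prod.mk.injEq] at h
  exact Prod.ext (Subtype.ext h.1) h.2

theorem evCheap (h : IsRes deg c) {r : ℕ} (hT : Thin G r) (p : ℤ) (hp : p + 1 < r) :
    EvCheap deg c p := by
  obtain ⟨C, hC⟩ := cheapT_main h hT (p + 1) hp
  refine ⟨C, fun δ hδ => ?_⟩
  obtain ⟨M, hM⟩ := hC δ hδ
  refine ⟨M, hM.mono fun N hN => ?_⟩
  refine cheap_block (rep N c)ᵀ _ _ _ (main_inj deg N p) (main_inj deg N (p + 1))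
    (main_inj deg N (p + 1 + 1)) _ (fun a => a.1.2) (fun a y hy => ?_) (fun a y hy => ?_) hN
  · have h1 : deg y.1 = deg a.1.1 + 1 :=
      h.2.1 _ _ (rep_ne_zero N c (x := y) (y := (a.1.1, a.2)) hy)
    exact ⟨(⟨y.1, by have := a.1.2; omega⟩, y.2), rfl⟩
  · have h1 : deg a.1.1 = deg y.1 + 1 :=
      h.2.1 _ _ (rep_ne_zero N c (x := (a.1.1, a.2)) (y := y) hy)
    exact ⟨(⟨y.1, by have := a.1.2; omega⟩, y.2), rfl⟩

theorem evDual (hg : ∀ i j, c i j ≠ 0 → deg i = deg j + 1) {n : ℤ}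
    (h : IsRes (fun i => n - deg i) (adj c)) {r : ℕ} (hT : Thin G r) (p : ℤ)
    (hp : n - (p + 1) < r) : EvDual deg c p := by
  obtain ⟨C, hC⟩ := cheapT_main h hT (n - (p + 1)) hp
  refine ⟨C, fun δ hδ => ?_⟩
  obtain ⟨M, hM⟩ := hC δ hδ
  refine ⟨M, hM.mono fun N hN => ?_⟩
  rw [rep_adj, transpose_transpose] at hN
  refine cheap_block _ _ _ _ (main_inj deg N (p + 1 + 1)) (main_inj deg N (p + 1))
    (main_inj deg N p) _ (fun a => by have := a.1.2; simp only at *; omega) (fun a y hy => ?_)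
    (fun a y hy => ?_) hN
  · have := hg _ _ (rep_ne_zero N c hy)
    exact ⟨(⟨y.1, by have := a.1.2; simp only at *; omega⟩, y.2), rfl⟩
  · have := hg _ _ (rep_ne_zero N c hy)
    exact ⟨(⟨y.1, by have := a.1.2; simp only at *; omega⟩, y.2), rfl⟩

theorem EvCheap.atom (hg : ∀ i j, c i j ≠ 0 → deg i = deg j + 1) {p : ℤ} (h : EvCheap deg c p) :
    spec (lap deg c (p + 1)) {0} = 0 := by
  obtain ⟨K, hK⟩ := good_lap hg (p + 1)
  obtain ⟨C, hC⟩ := h
  refine atom_zero hK hK.isSpec fun δ hδ => ?_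
  obtain ⟨M, hM⟩ := hC δ hδ
  refine hM.mono fun N hN => ?_
  rw [rep_lap hg]
  exact hN.ker_le

theorem EvDual.atom (hg : ∀ i j, c i j ≠ 0 → deg i = deg j + 1) {p : ℤ} (h : EvDual deg c p) :
    spec (lap deg c (p + 1)) {0} = 0 := by
  obtain ⟨K, hK⟩ := good_lap hg (p + 1)
  obtain ⟨C, hC⟩ := h
  refine atom_zero hK hK.isSpec fun δ hδ => ?_
  obtain ⟨M, hM⟩ := hC δ hδ
  refine hM.mono fun N hN => ?_
  rw [rep_lap hg]
  exact hN.ker_le_dual

omit [Group.ResiduallyFinite G] in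
theorem EvCheap.data (hg : ∀ i j, c i j ≠ 0 → deg i = deg j + 1) (hc : c * c = 0) {p : ℤ}
    (h : EvCheap deg c p) : EvData deg c p := by
  obtain ⟨C, hC⟩ := h
  obtain ⟨C₀, hC₀, hRC⟩ := rep_RC c
  have hI : (0 : ℝ) ≤ Fintype.card I := Nat.cast_nonneg _
  have h1 := abs_nonneg C
  have h2 := le_abs_self C
  refine ⟨(C₀ + Fintype.card I + |C|) ^ 5, fun δ hδ hδ1 => ?_⟩
  obtain ⟨M, hM⟩ := hC δ hδ
  refine ⟨2 * max M 1 * (C₀ + Fintype.card I + |C|), hM.mono fun N hN => ?_⟩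
  have hd := (dg_pos N).le
  exact data_of_cheap (by linarith) hδ1 (le_max_right _ _) hd (DQ_mul hg hc N p)
    ((DQ_RC (hRC N) _).mono (by linarith))
    ((main_card deg N _).trans (mul_le_mul_of_nonneg_right (by linarith) hd))
    (hN.mono (by linarith) (le_max_left _ _))

omit [Group.ResiduallyFinite G] in
theorem EvDual.data (hg : ∀ i j, c i j ≠ 0 → deg i = deg j + 1) (hc : c * c = 0) {p : ℤ}
    (h : EvDual deg c (p + 1)) : EvData deg c p := by
  obtain ⟨C, hC⟩ := h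
  obtain ⟨C₀, hC₀, hRC⟩ := rep_RC c
  have hI : (0 : ℝ) ≤ Fintype.card I := Nat.cast_nonneg _
  have h1 := abs_nonneg C
  have h2 := le_abs_self C
  refine ⟨(C₀ + Fintype.card I + |C|) ^ 5, fun δ hδ hδ1 => ?_⟩
  obtain ⟨M, hM⟩ := hC δ hδ
  refine ⟨2 * max M 1 * (C₀ + Fintype.card I + |C|), hM.mono fun N hN => ?_⟩
  have hd := (dg_pos N).le
  exact data_of_dual _ (by linarith) hδ1 (le_max_right _ _) hd (DQ_mul hg hc N _)
    ((DQ_RC (hRC N) _).mono (by linarith))
    ((main_card deg N _).trans (mul_le_mul_of_nonneg_right (by linarith) hd))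
    (hN.mono (by linarith) (le_max_left _ _))

theorem rho_zero (n : ℕ) (h : IsRes deg c) (hn : ∀ i, deg i ≤ n)
    (hb : ∀ p, spec (lap deg c p) {0} = 0)
    (hdata : ∀ p : ℤ, 0 ≤ p + 1 → p + 1 < n → EvData deg c p) :
    DetAcyclic deg c ∧ rho deg c = 0 := by
  refine ⟨detAcyclic_of h.2.1 hb, ?_⟩
  have a := core n h.1 hn h.2.1 h.sq_zero hb 0 fun p a b _ => hdata p a b
  have b := core n h.1 hn h.2.1 h.sq_zero hb 1 fun p a b _ => hdata p a b
  simp only [zpow_zero, one_mul, zpow_one] at a b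
  linarith

theorem middle_sign (m : ℕ) (h : IsRes deg c)
    (h' : IsRes (fun i => 2 * m + 1 - deg i) (adj c)) (hT : Thin G m)
    (b0 : spec (lap deg c m) {0} = 0) (b1 : spec (lap deg c (m + 1)) {0} = 0) :
    DetAcyclic deg c ∧ 0 ≤ (-1 : ℝ) ^ m * rho deg c := by
  have hg := h.2.1
  have hb : ∀ p, spec (lap deg c p) {0} = 0 := fun p => by
    obtain ⟨p, rfl⟩ : ∃ p', p = p' + 1 := ⟨p - 1, by ring⟩
    by_cases h1 : p + 1 < m
    · exact (evCheap h hT p h1).atom hg
    by_cases h2 : p + 1 = m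
    · rwa [h2]
    by_cases h3 : p + 1 = m + 1
    · rwa [h3]
    exact (evDual hg h' hT p (by omega)).atom hg
  refine ⟨detAcyclic_of hg hb, ?_⟩
  have := core (2 * m + 1) h.1 (fun i => by have := h'.1 i; simp only at this; push_cast; omega) hg h.sq_zero hb m
    fun p _ _ e => by
      by_cases h1 : p + 1 < m
      · exact (evCheap h hT p h1).data hg h.sq_zero
      · exact (evDual hg h' hT (p + 1) (by omega)).data hg h.sq_zero
  rwa [zpow_natCast] at this

theorem vanishing (m : ℕ) (h : IsRes deg c)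
    (h' : IsRes (fun i => 2 * m + 1 - deg i) (adj c)) (hT : Thin G (m + 1)) :
    DetAcyclic deg c ∧ rho deg c = 0 := by
  have hg := h.2.1
  refine rho_zero (2 * m + 1) h (fun i => by have := h'.1 i; simp only at this; push_cast; omega) (fun p => ?_)
    fun p _ _ => ?_
  · obtain ⟨p, rfl⟩ : ∃ p', p = p' + 1 := ⟨p - 1, by ring⟩
    by_cases h1 : p + 1 ≤ m
    · exact (evCheap h hT p (by push_cast; omega)).atom hg
    · exact (evDual hg h' hT p (by push_cast; omega)).atom hg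
  · by_cases h1 : p + 1 ≤ m
    · exact (evCheap h hT p (by push_cast; omega)).data hg h.sq_zero
    · exact (evDual hg h' hT (p + 1) (by push_cast; omega)).data hg h.sq_zero

theorem vanishing_all (n : ℕ) (h : IsRes deg c) (hn : ∀ i, deg i ≤ n) (hT : Thin G (n + 1)) :
    DetAcyclic deg c ∧ rho deg c = 0 := by
  have hg := h.2.1
  refine rho_zero n h hn (fun p => ?_) fun p _ _ =>
    (evCheap h hT p (by push_cast; omega)).data hg h.sq_zero
  obtain ⟨p, rfl⟩ : ∃ p', p = p' + 1 := ⟨p - 1, by ring⟩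
  by_cases h1 : p + 1 ≤ n
  · exact (evCheap h hT p (by push_cast; omega)).atom hg
  · obtain ⟨K, hK⟩ := good_lap hg (p + 1)
    refine atom_zero hK hK.isSpec fun δ hδ => Eventually.of_forall fun N => ?_
    have : IsEmpty ({i // deg i = p + 1} × QQ N) :=
      ⟨fun x => by have := hn x.1.1; have := x.1.2; omega⟩
    have e : trf (cm (rep N (lap deg c (p + 1)))) ind0 = 0 := by simp [trf]
    rw [e]
    exact (mul_pos hδ (dg_pos N)).le

end Pool.Agent.Lib.MP_fd3021_gt
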