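import Pool.Agent.Lib.MP_fd3021_gt.VDefs
import Pool.Agent.Lib.MP_fd3021_gt.LC

/-! Graded chain maps between a resolution and the bar resolution. -/

namespace Pool.Agent.Lib.MP_fd3021_gt

variable {G I : Type} [Group G] [Fintype I] {deg : I → ℤ} {c : Matrix I I (MonoidAlgebra ℤ G)}
  {e : Cell I G → ℤ} {w : G →* ℤˣ}

/-- `g` is an `H`-equivariant graded chain map from the bar resolution, up to length `r` -/
structure IsBack (deg : I → ℤ) (c : Matrix I I (MonoidAlgebra ℤ G)) (e : Cell I G → ℤ)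
    (H : Subgroup G) (r : ℕ) (g : List G → Cell I G →₀ ℤ) : Prop where
  equiv : ∀ a ∈ H, ∀ l, g (a • l) = (g l).mapDomain (a • ·)
  nil : g [] = 0
  aug : ∀ a : G, lc e (g [a]) = 1
  chain : ∀ l, l.length ≤ r → lc (dC c) (g l) = lc g (bd l)
  grade : ∀ l, l.length ≤ r → ∀ x ∈ (g l).support, deg x.i + 1 = l.length

/-- `f` is an `H`-equivariant graded chain map to the bar resolution -/
structure IsForth (deg : I → ℤ) (c : Matrix I I (MonoidAlgebra ℤ G)) (e : Cell I G → ℤ)
    (H : Subgroup G) (f : Cell I G → List G →₀ ℤ) : Prop where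
  equiv : ∀ a ∈ H, ∀ x, f (a • x) = (f x).mapDomain (a • ·)
  chain : ∀ x, lc bd (f x) = lc f (dC c x) + Finsupp.single [] (e x)
  grade : ∀ x, ∀ l ∈ (f x).support, (l.length : ℤ) = deg x.i + 1

theorem dC_adj (x y : Cell I G) : dC (adj c) y x = dC c x y := by
  rw [cell_dC_apply, cell_dC_apply]
  have := Finsupp.mapDomain_apply (inv_injective (G := G)) (c x.i y.i).coeff (x.g⁻¹ * y.g)
  rw [mul_inv_rev, inv_inv] at this
  exact this

omit [Fintype I] in
theorem adj_adj (c : Matrix I I (MonoidAlgebra ℤ G)) : adj (adj c) = c := by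
  ext i j g
  have h1 := Finsupp.mapDomain_apply (inv_injective (G := G)) (adj c j i).coeff g⁻¹
  have h2 := Finsupp.mapDomain_apply (inv_injective (G := G)) (c i j).coeff g
  rw [inv_inv] at h1
  exact h1.trans h2

theorem isQuot_co (H : Subgroup G) :
    IsQuot H (Quot.mk fun l l' : List G => ∃ h ∈ H, l' = l.map (h * ·)) Quot.out := by
  have hE : Equivalence fun l l' : List G => ∃ h ∈ H, l' = l.map (h * ·) := by
    refine ⟨fun l => ⟨1, H.one_mem, by simp⟩, ?_, ?_⟩
    · rintro l l' ⟨h, hh, rfl⟩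
      exact ⟨h⁻¹, H.inv_mem hh, by simp [Function.comp_def]⟩
    · rintro l l' l'' ⟨h, hh, rfl⟩ ⟨h', hh', rfl⟩
      exact ⟨h' * h, H.mul_mem hh' hh, by simp [Function.comp_def, mul_assoc]⟩
  refine ⟨Quot.out_eq, fun l l' => ?_⟩
  rw [Quot.eq, hE.eqvGen_iff]
  exact exists_congr fun h => and_congr_right fun _ => eq_comm

theorem vback_filter (h : ResC deg c e w) (k : ℤ) (y : Cell I G →₀ ℤ) :
    lc (dC c) (y.filter fun x => deg x.i = k + 1) =
      (lc (dC c) y).filter fun x => deg x.i = k := by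
  induction y using Finsupp.induction_linear with
  | zero => rw [Finsupp.filter_zero, map_zero, Finsupp.filter_zero]
  | add a b ha hb => rw [Finsupp.filter_add, map_add, map_add, Finsupp.filter_add, ha, hb]
  | single x n =>
    rw [list_lc_single, Finsupp.filter_smul]
    by_cases hx : deg x.i = k + 1
    · rw [Finsupp.filter_single_of_pos (fun x : Cell I G => deg x.i = k + 1) hx, list_lc_single]
      congr 1
      refine ((Finsupp.filter_eq_self_iff _ _).2 fun z hz => ?_).symm
      have := h.deg_d x z (Finsupp.mem_support_iff.2 hz)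
      omega
    · rw [Finsupp.filter_single_of_neg (fun x : Cell I G => deg x.i = k + 1) hx, map_zero,
        (Finsupp.filter_eq_zero_iff _ _).2 fun z hz => ?_, smul_zero]
      by_contra h0
      have := h.deg_d x z (Finsupp.mem_support_iff.2 h0)
      omega

theorem vback_e_zero (h : ResC deg c e w) (y : Cell I G →₀ ℤ)
    (hy : ∀ x ∈ y.support, deg x.i ≠ 0) : lc e y = 0 := by
  rw [univ_lc_congr (ψ := fun _ => 0) fun x hx => h.e_deg x (hy x hx), univ_lc_zero]

omit [Fintype I] in
theorem vback_md {T : ℤ → Prop} (a : G) {ξ : Cell I G →₀ ℤ}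
    (hξ : ξ ∈ Finsupp.supported ℤ ℤ {x : Cell I G | T (deg x.i)}) :
    ξ.mapDomain (a • ·) ∈ Finsupp.supported ℤ ℤ {x : Cell I G | T (deg x.i)} :=
  list_md_mem _ hξ fun _ hx => hx

theorem ResC.exact_deg (h : ResC deg c e w) (k : ℤ) (ξ : Cell I G →₀ ℤ)
    (hk : ∀ x ∈ ξ.support, deg x.i = k) (h1 : lc (dC c) ξ = 0) (h2 : lc e ξ = 0) :
    ∃ y : Cell I G →₀ ℤ, (∀ x ∈ y.support, deg x.i = k + 1) ∧ lc (dC c) y = ξ := by
  obtain ⟨y, hy⟩ := h.exact ξ h1 h2
  refine ⟨y.filter fun x => deg x.i = k + 1, fun x hx => ?_, ?_⟩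
  · rw [Finsupp.support_filter] at hx
    exact (Finset.mem_filter.1 hx).2
  · rw [vback_filter h, hy]
    exact (Finsupp.filter_eq_self_iff _ _).2 fun z hz => hk z (Finsupp.mem_support_iff.2 hz)

theorem ResC.pt_deg (h : ResC deg c e w) :
    ∃ ξ : Cell I G →₀ ℤ, (∀ x ∈ ξ.support, deg x.i = 0) ∧ lc (dC c) ξ = 0 ∧ lc e ξ = 1 := by
  obtain ⟨ξ, h1, h2⟩ := h.pt
  refine ⟨ξ.filter fun x => deg x.i = -1 + 1, fun x hx => ?_, ?_, ?_⟩
  · rw [Finsupp.support_filter] at hx
    exact (Finset.mem_filter.1 hx).2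
  · rw [vback_filter h, h1, Finsupp.filter_zero]
  · rw [← Finsupp.filter_add_filter_not ξ fun x => deg x.i = -1 + 1, map_add,
      vback_e_zero h (ξ.filter fun x => ¬deg x.i = -1 + 1), add_zero] at h2
    · exact h2
    · intro x hx
      rw [Finsupp.support_filter] at hx
      exact (Finset.mem_filter.1 hx).2

theorem exists_back (h : ResC deg c e w) (H : Subgroup G) (hH : ∀ g ∈ H, w g = 1) (r : ℕ)
    (hr : 1 ≤ r) : ∃ g, IsBack deg c e H r g := by
  obtain ⟨g0, g1, g2, g3⟩ := compare (X := List G) H (univAug G (Cell I G)) List.length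
    (fun a l => by rw [smul_list, List.length_map])
    (fun a _ l hl e => by
      obtain ⟨b, l, rfl⟩ := List.exists_cons_of_ne_nil (List.length_eq_zero_iff.not.1 hl)
      rw [smul_list, List.map_cons, List.cons.injEq] at e
      simpa using e.1)
    bd bd_length bd_bd (fun a _ l => bd_map (fun b : G => a • b) l) (univD c e)
    (fun a ha => univD_eq h (hH a ha))
    (fun k => (Finsupp.supported ℤ ℤ {x : Cell I G | deg x.i + 1 = k}).prod
      (if k = 0 then ⊤ else ⊥))
    (fun a _ k b hb => ⟨vback_md (T := fun j => j + 1 = k) a hb.1, hb.2⟩) r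
    (fun k _ b hb hb0 => by
      have hb1 : ∀ x ∈ b.1.support, deg x.i + 1 = k := (Finsupp.mem_supported _ _).1 hb.1
      rcases k with _ | k
      · obtain ⟨ξ, h1, h2, h3⟩ := h.pt_deg
        have hz : b.1 = 0 := by
          ext x
          by_contra hx
          have h4 := hb1 x (Finsupp.mem_support_iff.2 hx)
          have h5 := h.nonneg x.i
          omega
        refine ⟨(b.2 • ξ, 0), ⟨Submodule.smul_mem _ _ ((Finsupp.mem_supported _ _).2
          fun x hx => ?_), zero_mem _⟩, ?_⟩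
        · have := h1 x hx
          change deg x.i + 1 = _
          omega
        · rw [univD_apply]
          refine Prod.ext ?_ ?_
          · simp only [map_smul, h2, smul_zero, hz]
          · simp only [map_smul, h3, smul_eq_mul, mul_one]
      · obtain ⟨y, h1, h2⟩ := h.exact_deg k b.1 (fun x hx => by have := hb1 x hx; omega)
          (congrArg Prod.fst hb0) (congrArg Prod.snd hb0)
        have hz : b.2 = 0 := by simpa using hb.2
        refine ⟨(y, 0), ⟨(Finsupp.mem_supported _ _).2 fun x hx => ?_, zero_mem _⟩, ?_⟩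
        · have := h1 x hx
          change deg x.i + 1 = _
          omega
        · rw [univD_apply]
          refine Prod.ext h2 ?_
          rw [hz]
          exact vback_e_zero h y fun x hx => by have := h1 x hx; omega)
    1 (fun _ => 0) (fun _ _ _ => (map_zero _).symm)
    (fun _ _ _ _ => zero_mem _) (fun x _ => by rw [map_zero, univ_lc_zero, smul_zero, add_zero])
    (fun _ => (0, 1)) (fun a _ _ => by rw [univAug_apply, Finsupp.mapDomain_zero])
    (fun _ _ => ⟨⟨zero_mem _, by simp⟩, by rw [univD_apply, map_zero, map_zero]; rfl⟩)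
  have g4 : ∀ l, l.length ≤ r → univD c e (g0 l) = lc g0 (bd l) := fun l hl => by
    rw [(g3 l hl).2, one_smul, add_zero]
  refine ⟨fun l => (g0 l).1, fun a ha l => congrArg Prod.fst (g1 a ha l),
    congrArg Prod.fst (g2 [] rfl), fun a => ?_, fun l hl => ?_,
    fun l hl => (Finsupp.mem_supported _ _).1 (g3 l hl).1.1⟩
  · have := congrArg Prod.snd (g4 [a] hr)
    rw [bd_cons, bd_nil, Finsupp.mapDomain_zero, sub_zero, list_lc_single, one_smul,
      g2 [] rfl] at this
    exact this
  · rw [univ_lc_fst, ← g4 l hl]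
    rfl

theorem exists_forth (h : ResC deg c e w) (H : Subgroup G) (hH : ∀ g ∈ H, w g = 1) (n : ℕ)
    (hn : ∀ i, deg i ≤ n) : ∃ f, IsForth deg c e H f := by
  obtain ⟨f, f1, -, f3⟩ := compare (X := Cell I G) (B := List G →₀ ℤ) H (univPerm G _)
    (fun x => (deg x.i).toNat + 1) (fun _ _ => rfl) (fun g _ x _ e => univ_free g x e)
    (dC c) (univ_len h) h.d_d (fun g _ x => h.d_smul g x) (lc bd)
    (fun a _ b => lc_bd_map (fun b : G => a • b) b) (lists G)
    (fun a _ k b hb => list_md_mem _ hb fun l hl => by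
      change (a • l).length = k
      rw [smul_list, List.length_map]
      exact hl) (n + 1)
    (fun k _ z hz h0 => ⟨z.mapDomain (1 :: ·), list_md_mem _ hz fun l hl => by
      change (1 :: l).length = k + 1
      rw [List.length_cons, hl], by rw [lc_bd_cons, h0, Finsupp.mapDomain_zero, sub_zero]⟩)
    1 (fun x => Finsupp.single [] (e x))
    (fun a ha x => by
      rw [univPerm_apply, Finsupp.mapDomain_single, h.e_smul, hH a ha, Units.val_one, one_mul]
      rfl)
    (fun x k hk _ => by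
      rcases eq_or_ne (deg x.i) 0 with h0 | h0
      · refine Finsupp.single_mem_supported _ _ ?_
        change ([] : List G).length = k
        rw [List.length_nil]
        omega
      · rw [h.e_deg x h0, Finsupp.single_zero]
        exact zero_mem _)
    (fun x _ => by
      have := univ_lc_map (Finsupp.lsingle ([] : List G) : ℤ →ₗ[ℤ] _) e (dC c x)
      rw [h.e_d, map_zero] at this
      rw [Finsupp.linearCombination_single, bd_nil, smul_zero, zero_add, one_smul]
      exact this.symm)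
    (fun _ => 0) (fun _ _ _ => (map_zero _).symm) (fun x hx => absurd hx (Nat.succ_ne_zero _))
  have hx : ∀ x : Cell I G, (deg x.i).toNat + 1 ≤ n + 1 := fun x => by
    have := hn x.i
    omega
  refine ⟨f, f1, fun x => by rw [(f3 x (hx x)).2, one_smul], fun x l hl => ?_⟩
  have h1 : l.length = (deg x.i).toNat + 1 := (Finsupp.mem_supported _ _).1 (f3 x (hx x)).1 hl
  have h2 := h.nonneg x.i
  omega

/-- the augmentation is preserved by the composite of the two chain maps -/
theorem vback_aug (h : ResC deg c e w) {H : Subgroup G} {r : ℕ} {g : List G → Cell I G →₀ ℤ}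
    (hg : IsBack deg c e H r g) {f : Cell I G → List G →₀ ℤ} (hf : IsForth deg c e H f)
    (x : Cell I G) (hx : deg x.i + 1 ≤ r) : lc e (lc g (f x)) = e x := by
  have h1 : lc e (lc g (f x)) = lc bd (f x) [] := by
    have h2 := univ_lc_map (Finsupp.lapply ([] : List G) : _ →ₗ[ℤ] ℤ) bd (f x)
    rw [Finsupp.lapply_apply] at h2
    rw [h2, univ_lc_map]
    refine univ_lc_congr fun l hl => ?_
    have h3 := hf.grade x l hl
    rw [Finsupp.lapply_apply]
    by_cases h4 : l.length = 1
    · obtain ⟨a, rfl⟩ := List.length_eq_one_iff.1 h4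
      rw [hg.aug, bd_cons, bd_nil, Finsupp.mapDomain_zero, sub_zero, Finsupp.single_eq_same]
    · rw [vback_e_zero h _ fun y hy => by have := hg.grade l (by omega) y hy; omega]
      by_contra h5
      exact h4 (bd_length l [] (Finsupp.mem_support_iff.2 (Ne.symm h5))).symm
  have h2 := univ_lc_map (Finsupp.lapply ([] : List G) : _ →ₗ[ℤ] ℤ) f (dC c x)
  rw [Finsupp.lapply_apply, univ_lc_congr (ψ := fun _ => (0 : ℤ)), univ_lc_zero] at h2
  · rw [h1, hf.chain, Finsupp.add_apply, h2, zero_add, Finsupp.single_eq_same]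
  · intro y _
    rw [Finsupp.lapply_apply]
    by_contra h5
    have h6 := hf.grade y [] (Finsupp.mem_support_iff.2 h5)
    have h7 := h.nonneg y.i
    rw [List.length_nil] at h6
    omega

theorem exists_htpy (h : ResC deg c e w) (H : Subgroup G) (hH : ∀ g ∈ H, w g = 1) (n : ℕ)
    (hn : ∀ i, deg i ≤ n) {r : ℕ} (hr : n + 1 ≤ r) {g : List G → Cell I G →₀ ℤ}
    (hg : IsBack deg c e H r g) {f : Cell I G → List G →₀ ℤ} (hf : IsForth deg c e H f) :
    ∃ s : Cell I G → Cell I G →₀ ℤ, (∀ a ∈ H, ∀ x, s (a • x) = (s x).mapDomain (a • ·)) ∧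
      (∀ x, ∀ y ∈ (s x).support, deg y.i = deg x.i + 1) ∧
      ∀ x, lc g (f x) + lc (dC c) (s x) + lc s (dC c x) = Finsupp.single x 1 := by
  have hx : ∀ x : Cell I G, (deg x.i).toNat + 1 ≤ n + 1 := fun x => by
    have := hn x.i
    omega
  have hlen : ∀ x : Cell I G, ∀ l ∈ (f x).support, l.length ≤ r := fun x l hl => by
    have h1 := hf.grade x l hl
    have h2 := hn x.i
    omega
  obtain ⟨s, s1, -, s3⟩ := compare (X := Cell I G) (B := Cell I G →₀ ℤ) H (univPerm G _)
    (fun x => (deg x.i).toNat + 1) (fun _ _ => rfl) (fun g _ x _ e => univ_free g x e)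
    (dC c) (univ_len h) h.d_d (fun g _ x => h.d_smul g x) (lc (dC c))
    (fun a _ b => lc_equiv a (univPerm G _ a) _ (h.d_smul a) b)
    (fun k => Finsupp.supported ℤ ℤ {x : Cell I G | deg x.i = k} ⊓ LinearMap.ker (lc e))
    (fun a ha k b hb => ⟨vback_md (T := fun j => j = k) a hb.1,
      (congrArg Prod.snd (univD_eq h (hH a ha) (b, 0))).trans hb.2⟩) (n + 1)
    (fun k _ b hb hb0 => by
      obtain ⟨y, h1, h2⟩ := h.exact_deg k b ((Finsupp.mem_supported _ _).1 hb.1) hb0 hb.2
      refine ⟨y, ⟨(Finsupp.mem_supported _ _).2 fun x hx => ?_,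
        vback_e_zero h y fun x hx => by have := h1 x hx; omega⟩, h2⟩
      have := h1 x hx
      change deg x.i = _
      omega)
    (-1) (fun x => Finsupp.single x 1 - lc g (f x))
    (fun a ha x => by
      rw [map_sub, hf.equiv a ha, lc_equiv a (univPerm G _ a) g (hg.equiv a ha),
        univPerm_apply a (Finsupp.single x 1), Finsupp.mapDomain_single])
    (fun x k hk _ => by
      have h0 := h.nonneg x.i
      have h1 := hn x.i
      refine ⟨Submodule.sub_mem _ (Finsupp.single_mem_supported _ _ ?_)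
        (list_lc_mem g _ (Finsupp.mem_supported_support ℤ (f x)) fun l hl =>
          (Finsupp.mem_supported _ _).2 fun y hy => ?_), ?_⟩
      · change deg x.i = _
        omega
      · have h2 := hg.grade l (hlen x l hl) y hy
        have h3 := hf.grade x l hl
        change deg y.i = _
        omega
      · change lc e _ = 0
        rw [map_sub, vback_aug h hg hf x (by omega), list_lc_single, one_smul, sub_self])
    (fun x _ => by
      have e1 : lc (dC c) (lc g (f x)) = lc g (lc bd (f x)) := by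
        rw [univ_lc_map, univ_lc_map]
        exact univ_lc_congr fun l hl => hg.chain l (hlen x l hl)
      rw [map_sub, e1, hf.chain, map_add, univ_lc_sub, ← univ_lc_map, univ_lc_single,
        list_lc_single, list_lc_single, hg.nil, one_smul]
      simp)
    (fun _ => 0) (fun _ _ _ => (map_zero _).symm) (fun x hx => absurd hx (Nat.succ_ne_zero _))
  refine ⟨s, s1, fun x y hy => ?_, fun x => ?_⟩
  · have h1 : deg y.i = ((deg x.i).toNat + 1 : ℕ) :=
      (Finsupp.mem_supported _ _).1 (s3 x (hx x)).1.1 hy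
    have h2 := h.nonneg x.i
    omega
  · rw [(s3 x (hx x)).2]
    abel

end Pool.Agent.Lib.MP_fd3021_gt

/-! The cap product on lists. -/

namespace Pool.Agent.Lib.MP_fd3021_gt

variable {E : Type}

/-- cap product of a list with a cochain of degree `p` -/
noncomputable def cap (p : ℕ) (φ : List E → ℤ) (l : List E) : List E →₀ ℤ :=
  Finsupp.single (l.drop p) (φ (l.take (p + 1)))

theorem vcap_md {X Y B : Type} [AddCommGroup B] (F : Y → B) (f : X → Y) (ξ : X →₀ ℤ) :
    lc F (ξ.mapDomain f) = lc (fun x => F (f x)) ξ :=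
  Finsupp.linearCombination_mapDomain ℤ f ξ

theorem vcap_succ (p : ℕ) (φ : List E → ℤ) (a : E) (l : List E) :
    cap (p + 1) φ (a :: l) = cap p (fun x => φ (a :: x)) l := rfl

theorem vcap_zero (φ : List E → ℤ) (a : E) (ξ : List E →₀ ℤ) :
    lc (fun x => cap 0 φ (a :: x)) ξ = φ [a] • ξ.mapDomain (a :: ·) := by
  induction ξ using Finsupp.induction_linear with
  | zero => simp
  | add x y hx hy => rw [Finsupp.mapDomain_add, map_add, hx, hy, smul_add]
  | single l c =>
    rw [list_lc_single, Finsupp.mapDomain_single, cap]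
    simp [mul_comm]

theorem vcap_l1_sum {X κ : Type} (s : Finset κ) (f : κ → X) (c : κ → ℤ) :
    l1 (∑ k ∈ s, Finsupp.single (f k) (c k)) ≤ ∑ k ∈ s, |(c k : ℝ)| := by
  classical
  unfold l1
  calc ∑ x ∈ (∑ k ∈ s, Finsupp.single (f k) (c k)).support,
        |(((∑ k ∈ s, Finsupp.single (f k) (c k)) x : ℤ) : ℝ)|
      ≤ ∑ x ∈ (∑ k ∈ s, Finsupp.single (f k) (c k)).support,
          ∑ k ∈ s, if f k = x then |(c k : ℝ)| else 0 := by
        refine Finset.sum_le_sum fun x _ => ?_
        rw [Finsupp.finsetSum_apply, Int.cast_sum]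
        refine (Finset.abs_sum_le_sum_abs _ _).trans (Finset.sum_le_sum fun k _ => ?_)
        rw [Finsupp.single_apply]
        split_ifs <;> simp
    _ ≤ _ := by
        rw [Finset.sum_comm]
        refine Finset.sum_le_sum fun k _ => ?_
        rw [Finset.sum_ite_eq]
        split_ifs
        · exact le_rfl
        · exact abs_nonneg _

theorem bd_cap (p : ℕ) (φ : List E → ℤ) (l : List E) (hl : p + 1 < l.length) :
    lc bd (cap p φ l) =
      (-1 : ℤ) ^ p • (lc (cap p φ) (bd l) - cap (p + 1) (fun l' => lc φ (bd l')) l) := by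
  induction p generalizing φ l with
  | zero =>
    match l, hl with
    | a :: b :: m, _ =>
      have e1 : cap 0 φ (a :: b :: m) = Finsupp.single (a :: b :: m) (φ [a]) := rfl
      have e2 : cap 0 φ (b :: m) = Finsupp.single (b :: m) (φ [b]) := rfl
      have e3 : cap (0 + 1) (fun l' => lc φ (bd l')) (a :: b :: m) =
          Finsupp.single (b :: m) (lc φ (bd [a, b])) := rfl
      have e4 : lc φ (bd [a, b]) = φ [b] - φ [a] := by
        rw [bd_cons, bd_cons, bd_nil, Finsupp.mapDomain_zero, sub_zero, Finsupp.mapDomain_single,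
          map_sub, list_lc_single, list_lc_single, one_smul, one_smul]
      rw [e1, e3, e4, list_lc_single, pow_zero, one_smul, bd_cons a, map_sub, list_lc_single,
        one_smul, e2, vcap_md, vcap_zero, smul_sub, Finsupp.smul_single_one, Finsupp.single_sub]
      abel
  | succ p ih =>
    match l, hl with
    | a :: m, hl =>
      have hm : p + 1 < m.length := by simpa using hl
      have e1 : cap (p + 1) (fun x => lc φ (bd (a :: x))) m =
          cap (p + 1) φ m - cap (p + 1) (fun x => lc (fun y => φ (a :: y)) (bd x)) m := by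
        unfold cap
        beta_reduce
        rw [← Finsupp.single_sub, bd_cons, map_sub, list_lc_single, one_smul, vcap_md]
      rw [vcap_succ, ih _ _ hm, vcap_succ, e1, bd_cons, map_sub, list_lc_single, one_smul, vcap_md,
        pow_succ, mul_neg_one, neg_smul, ← smul_neg]
      congr 1
      simp only [vcap_succ]
      abel

theorem l1_bd (l : List E) : l1 (bd l) ≤ l.length := by
  refine (vcap_l1_sum _ _ _).trans ?_
  simp

theorem bd_sublist (l : List E) : ∀ l' ∈ (bd l).support, l'.Sublist l := by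
  classical
  intro l' h
  obtain ⟨k, -, h'⟩ := Finset.mem_biUnion.1 (Finsupp.support_finsetSum h)
  obtain rfl := Finset.mem_singleton.1 (Finsupp.support_single_subset h')
  exact List.eraseIdx_sublist l k

/-- the nonempty sublists of finitely many lists -/
theorem exists_faces (S : Finset (List E)) (n : ℕ) (hS : ∀ l ∈ S, l.length = n) :
    ∃ R : Finset (List E), R.card ≤ 2 ^ n * S.card ∧ (∀ r ∈ R, r ≠ [] ∧ r.length ≤ n) ∧
      (∀ r ∈ R, ∀ l ∈ (bd r).support, l = [] ∨ l ∈ R) ∧
      ∀ l ∈ S, ∀ p, l.drop p ≠ [] → l.drop p ∈ R := by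
  classical
  have hmem : ∀ r, r ∈ (S.biUnion fun l => l.sublists.toFinset).filter (· ≠ []) ↔
      (∃ l ∈ S, r.Sublist l) ∧ r ≠ [] := by
    intro r
    simp only [Finset.mem_filter, Finset.mem_biUnion, List.mem_toFinset, List.mem_sublists]
  refine ⟨(S.biUnion fun l => l.sublists.toFinset).filter (· ≠ []), ?_, ?_, ?_, ?_⟩
  · refine (Finset.card_filter_le _ _).trans ?_
    rw [mul_comm]
    refine Finset.card_biUnion_le_card_mul _ _ _ fun l hl => ?_
    refine (List.toFinset_card_le _).trans ?_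
    rw [List.length_sublists, hS l hl]
  · intro r hr
    obtain ⟨⟨l, hl, h⟩, h0⟩ := (hmem r).1 hr
    exact ⟨h0, (hS l hl) ▸ h.length_le⟩
  · intro r hr l hl
    obtain ⟨⟨l', hl', h⟩, -⟩ := (hmem r).1 hr
    by_cases h0 : l = []
    · exact Or.inl h0
    · exact Or.inr ((hmem l).2 ⟨⟨l', hl', (bd_sublist r l hl).trans h⟩, h0⟩)
  · intro l hl p h0
    exact (hmem _).2 ⟨⟨l, hl, List.drop_sublist p l⟩, h0⟩

end Pool.Agent.Lib.MP_fd3021_gt

/-! Cap product with an invariant locally finite cycle. -/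

namespace Pool.Agent.Lib.MP_fd3021_gt

variable {G I : Type} [Group G] [Fintype I] {deg deg' : I → ℤ}
  {c c' : Matrix I I (MonoidAlgebra ℤ G)} {e' : Cell I G → ℤ}

theorem vav_fin {κ B B' : Type} [AddCommGroup B] [AddCommGroup B'] {f : κ → B} {g : κ → B'}
    (hf : Function.HasFiniteSupport f) (h : ∀ k, f k = 0 → g k = 0) :
    Function.HasFiniteSupport g :=
  Set.Finite.subset hf fun k hk h0 => hk (h k h0)

theorem vav_lc_finsum {κ X B : Type} [AddCommGroup B] (f : κ → X → B)
    (hf : ∀ x, Function.HasFiniteSupport fun k => f k x) (ξ : X →₀ ℤ) :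
    (Function.HasFiniteSupport fun k => lc (f k) ξ) ∧
      ∑ᶠ k, lc (f k) ξ = lc (fun x => ∑ᶠ k, f k x) ξ := by
  induction ξ using Finsupp.induction_linear with
  | zero => exact ⟨by simp [Function.HasFiniteSupport], by simp⟩
  | add a b ha hb =>
    simp only [map_add]
    exact ⟨ha.1.add hb.1, by rw [finsum_add_distrib ha.1 hb.1, ha.2, hb.2]⟩
  | single x k =>
    simp only [list_lc_single]
    exact ⟨vav_fin (hf x) fun j hj => by rw [hj, smul_zero], (smul_finsum' k (hf x)).symm⟩

theorem vav_swap {X Z B : Type} [AddCommGroup B] (f : X → Z → B) (ξ : X →₀ ℤ) (η : Z →₀ ℤ) :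
    lc (fun x => lc (f x) η) ξ = lc (fun y => lc (fun x => f x y) ξ) η := by
  simp only [Finsupp.linearCombination_apply, Finsupp.sum, Finset.smul_sum]
  rw [Finset.sum_comm]
  exact Finset.sum_congr rfl fun y _ => Finset.sum_congr rfl fun x _ => smul_comm _ _ _

theorem vav_smul {X B : Type} [AddCommGroup B] (k : ℤ) (f : X → B) (ξ : X →₀ ℤ) :
    lc (fun x => k • f x) ξ = k • lc f ξ := by
  simp only [Finsupp.linearCombination_apply, Finsupp.sum, Finset.smul_sum]
  exact Finset.sum_congr rfl fun x _ => smul_comm _ _ _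

theorem vav_apply {X Z : Type} (f : X → Z →₀ ℤ) (ξ : X →₀ ℤ) (y : Z) :
    lc f ξ y = lc (fun x => f x y) ξ :=
  univ_lc_map (Finsupp.lapply y) f ξ

theorem vav_md {X Z : Type} (f : X → Z) (ξ : X →₀ ℤ) (y : Z) :
    ξ.mapDomain f y = lc (fun x => (Finsupp.single (f x) (1 : ℤ)) y) ξ := by
  rw [← vav_apply]
  congr 1
  induction ξ using Finsupp.induction_linear with
  | zero => simp
  | add a b ha hb => rw [Finsupp.mapDomain_add, map_add, ha, hb]
  | single x k => rw [Finsupp.mapDomain_single, list_lc_single, Finsupp.smul_single_one]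

theorem vav_pair {X : Type} (ξ η : X →₀ ℤ) : lc (fun x => η x) ξ = lc (fun x => ξ x) η := by
  have h := vav_swap (fun x y : X => (Finsupp.single x (1 : ℤ)) y) ξ η
  have h1 : ∀ (ζ : X →₀ ℤ) (y : X), lc (fun x => (Finsupp.single x (1 : ℤ)) y) ζ = ζ y := by
    intro ζ y
    rw [← vav_apply, univ_lc_single]
  have h2 : ∀ (ζ : X →₀ ℤ) (x : X), lc (fun y => (Finsupp.single x (1 : ℤ)) y) ζ = ζ x := by
    intro ζ x
    rw [← h1 ζ x]
    classical
    exact univ_lc_congr fun y _ => by simp only [Finsupp.single_apply, eq_comm]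
  simpa only [h1, h2] using h

omit [Fintype I] in
theorem vav_fin_single (H : Subgroup G) (x y : Cell I G) :
    Function.HasFiniteSupport fun h : H => (Finsupp.single ((h : G) • y) (1 : ℤ)) x := by
  classical
  refine Set.Subsingleton.finite fun a ha b hb => ?_
  have h1 : ∀ a : H, (Finsupp.single ((a : G) • y) (1 : ℤ)) x ≠ 0 → (a : G) • y = x := by
    intro a ha
    by_contra hc
    exact ha (by rw [Finsupp.single_apply, if_neg hc])
  have h2 : (a : G) * y.g = (b : G) * y.g := congrArg Cell.g ((h1 a ha).trans (h1 b hb).symm)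
  exact Subtype.ext (mul_right_cancel h2)

omit [Fintype I] in
theorem vav_sum_md {H : Subgroup G} {Y : Type} {pr : Cell I G → Y} {sec : Y → Cell I G}
    (q : IsQuot H pr sec) (ξ : Cell I G →₀ ℤ) (x : Cell I G) :
    ∑ᶠ h : H, ξ.mapDomain ((h : G) • ·) x = ξ.mapDomain pr (pr x) := by
  classical
  simp only [vav_md]
  rw [(vav_lc_finsum (fun (h : H) y => (Finsupp.single ((h : G) • y) (1 : ℤ)) x)
    (fun y => vav_fin_single H x y) ξ).2]
  refine univ_lc_congr fun y _ => ?_
  by_cases hy : pr y = pr x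
  · obtain ⟨a, ha, hax⟩ := (q.2 y x).1 hy
    rw [finsum_eq_single _ (⟨a, ha⟩ : H), hy, Finsupp.single_eq_same]
    · simp [hax]
    · intro b hb
      rw [Finsupp.single_apply, if_neg]
      intro hbx
      have h2 : (b : G) * y.g = a * y.g := congrArg Cell.g (hbx.trans hax.symm)
      exact hb (Subtype.ext (mul_right_cancel h2))
  · rw [Finsupp.single_apply, if_neg hy]
    refine finsum_eq_zero_of_forall_eq_zero fun b => ?_
    rw [Finsupp.single_apply, if_neg]
    exact fun hbx => hy ((q.2 y x).2 ⟨b, b.2, hbx⟩)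

/-- the average over `H` of the cap products -/
noncomputable def vavA (H : Subgroup G) (γ : List G → Cell I G →₀ ℤ) (p : ℕ) (x : Cell I G)
    (l : List G) : List G →₀ ℤ :=
  ∑ᶠ h : H, cap p (fun t => γ t x) ((h : G) • l)

/-- the signs -/
def vavS (n : ℕ) : ℕ → ℤ
  | 0 => 1
  | j + 1 => vavS n j * (-1) ^ (n - j)

theorem vav_take (h : G) (l : List G) (k : ℕ) : (h • l).take k = h • l.take k := by
  rw [smul_list, smul_list, List.map_take]

theorem vav_drop (h : G) (l : List G) (k : ℕ) : (h • l).drop k = h • l.drop k := by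
  rw [smul_list, smul_list, List.map_drop]

theorem vav_len (h : G) (l : List G) : (h • l).length = l.length := by
  rw [smul_list, List.length_map]

section

variable {H : Subgroup G} {r : ℕ} {γ : List G → Cell I G →₀ ℤ}

theorem vav_fin_g (hγ : IsBack deg' c' e' H r γ) (x : Cell I G) (l : List G) :
    Function.HasFiniteSupport fun h : H => γ ((h : G) • l) x := by
  have h1 := (vav_lc_finsum (fun (h : H) y => (Finsupp.single ((h : G) • y) (1 : ℤ)) x)
    (fun y => vav_fin_single H x y) (γ l)).1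
  refine vav_fin h1 fun h h0 => ?_
  rw [hγ.equiv h h.2, vav_md, h0]

theorem vav_fin_cap (hγ : IsBack deg' c' e' H r γ) (p : ℕ) (x : Cell I G) (l : List G) :
    Function.HasFiniteSupport fun h : H => cap p (fun t => γ t x) ((h : G) • l) := by
  refine vav_fin (vav_fin_g hγ x (l.take (p + 1))) fun h h0 => ?_
  rw [cap, vav_take, h0, Finsupp.single_zero]

omit [Fintype I] in
theorem vav_inv (p : ℕ) (x : Cell I G) (l : List G) {k : G} (hk : k ∈ H) :
    vavA H γ p x (k • l) = vavA H γ p x l := by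
  unfold vavA
  rw [← finsum_comp_equiv (Equiv.mulRight (⟨k, hk⟩ : H))
    (f := fun h : H => cap p (fun t => γ t x) ((h : G) • l))]
  refine finsum_congr fun h => ?_
  rw [← mul_smul]
  rfl

omit [Fintype I] in
theorem vav_co (p : ℕ) (x : Cell I G) {ξ : List G →₀ ℤ} (hξ : co H ξ = 0) :
    lc (vavA H γ p x) ξ = 0 := by
  have h1 : lc (vavA H γ p x) ξ = lc (fun y => vavA H γ p x (Quot.out y)) (co H ξ) := by
    rw [co, Finsupp.linearCombination_mapDomain]
    refine univ_lc_congr fun l _ => ?_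
    obtain ⟨k, hk, hl⟩ := ((isQuot_co H).2 l _).1 ((isQuot_co H).1 _).symm
    rw [Function.comp_apply, ← hl, vav_inv p x l hk]
  rw [h1, hξ, map_zero]

theorem vav_eqv (hγ : IsBack deg' c' e' H r γ) (p : ℕ) (x : Cell I G) (l : List G) {a : G}
    (ha : a ∈ H) : vavA H γ p (a • x) l = (vavA H γ p x l).mapDomain (a • ·) := by
  unfold vavA
  rw [← univPerm_apply, map_finsum _ (vav_fin_cap hγ p x l),
    ← finsum_comp_equiv (Equiv.mulLeft (⟨a, ha⟩ : H))]
  refine finsum_congr fun h => ?_
  have h1 : ((Equiv.mulLeft (⟨a, ha⟩ : H) h : H) : G) • l = a • (h : G) • l := by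
    rw [← mul_smul]
    rfl
  rw [h1, univPerm_apply, cap, cap, Finsupp.mapDomain_single, vav_drop a, vav_take a,
    hγ.equiv a ha, Finsupp.mapDomain_apply (MulAction.injective a)]

theorem vav_bd (htr : ∀ x y, dC c' y x = dC c x y) (hγ : IsBack deg' c' e' H r γ) (p : ℕ)
    (x : Cell I G) (l : List G) (hl : p + 1 < l.length) (hr : l.length ≤ r) :
    lc bd (vavA H γ p x l) = (-1 : ℤ) ^ p •
      (lc (vavA H γ p x) (bd l) - lc (fun y => vavA H γ (p + 1) y l) (dC c x)) := by
  have h1 := vav_lc_finsum (fun (h : H) l' => cap p (fun t => γ t x) ((h : G) • l'))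
    (fun l' => vav_fin_cap hγ p x l') (bd l)
  have h2 := vav_lc_finsum (fun (h : H) y => cap (p + 1) (fun t => γ t y) ((h : G) • l))
    (fun y => vav_fin_cap hγ (p + 1) y l) (dC c x)
  unfold vavA
  rw [← h1.2, ← h2.2, ← finsum_sub_distrib h1.1 h2.1, smul_finsum' _ (h1.1.fun_sub h2.1),
    map_finsum _ (vav_fin_cap hγ p x l)]
  refine finsum_congr fun h => ?_
  rw [bd_cap _ _ _ (by rwa [vav_len])]
  congr 2
  · rw [smul_list, bd_map, Finsupp.linearCombination_mapDomain]
    rfl
  · have h3 : (((h : G) • l).take (p + 1 + 1)).length ≤ r := by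
      rw [List.length_take, vav_len]
      omega
    unfold cap
    beta_reduce
    rw [← vav_apply, ← hγ.chain _ h3, vav_apply]
    simp only [htr]
    rw [vav_pair]
    exact univ_lc_map (Finsupp.lsingle _) _ _

theorem vav_top (hγ : IsBack deg' c' e' H r γ) {Y : Type} {pr : Cell I G → Y}
    {sec : Y → Cell I G} (q : IsQuot H pr sec) (n : ℕ) (x : Cell I G) (l : List G)
    (hl : l.length = n + 1) :
    lc bd (vavA H γ n x l) = Finsupp.single [] ((γ l).mapDomain pr (pr x)) := by
  unfold vavA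
  rw [map_finsum _ (vav_fin_cap hγ n x l), ← vav_sum_md q, ← Finsupp.lsingle_apply (R := ℤ)]
  have h0 := vav_fin_g hγ x l
  have h1 : ∀ h : H, (γ l).mapDomain ((h : G) • ·) x = γ ((h : G) • l) x := fun h => by
    rw [hγ.equiv h h.2]
  simp only [h1]
  rw [map_finsum _ h0]
  refine finsum_congr fun h => ?_
  have h2 : (((h : G) • l).drop n).length = 1 := by
    rw [List.length_drop, vav_len]
    omega
  obtain ⟨a, ha⟩ := List.length_eq_one_iff.1 h2
  rw [cap, ha, List.take_of_length_le (by rw [vav_len]; omega), list_lc_single, bd_cons, bd_nil,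
    Finsupp.mapDomain_zero, sub_zero, Finsupp.smul_single_one, Finsupp.lsingle_apply]

end

theorem exists_cap (H : Subgroup G) (n : ℕ) (hdeg : ∀ i, deg i + deg' i = n)
    (h0 : ∀ i, 0 ≤ deg i) (h0' : ∀ i, 0 ≤ deg' i) (htr : ∀ x y, dC c' y x = dC c x y)
    (hd : ∀ x, ∀ y ∈ (dC c x).support, deg y.i + 1 = deg x.i) {r : ℕ} (hr : n + 1 ≤ r)
    {γ : List G → Cell I G →₀ ℤ} (hγ : IsBack deg' c' e' H r γ) (z : List G →₀ ℤ)
    (hz : z ∈ lists G (n + 1)) (hzc : co H (lc bd z) = 0) {Y : Type} {pr : Cell I G → Y}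
    {sec : Y → Cell I G} (q : IsQuot H pr sec) :
    ∃ F : Cell I G → List G →₀ ℤ,
      IsForth deg c (fun x => ((lc γ z).mapDomain pr) (pr x)) H F ∧
      ∀ x, ∀ l ∈ (F x).support, ∃ h ∈ H, ∃ t ∈ z.support, ∃ p : ℕ, l = h • t.drop p := by
  classical
  have hlen : ∀ l ∈ z.support, l.length = n + 1 := fun l hl => (Finsupp.mem_supported ℤ z).1 hz hl
  set F : Cell I G → List G →₀ ℤ := fun x =>
    vavS n (deg x.i).toNat • lc (vavA H γ (deg' x.i).toNat x) z with hF
  have hsupp : ∀ x, ∀ l ∈ (F x).support,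
      ∃ h ∈ H, ∃ t ∈ z.support, l = h • t.drop (deg' x.i).toNat := by
    intro x
    have h1 : F x ∈ Finsupp.supported ℤ ℤ
        {l | ∃ h ∈ H, ∃ t ∈ z.support, l = h • t.drop (deg' x.i).toNat} := by
      refine Submodule.smul_mem _ _ (list_lc_mem _ _ (S := z.support)
        ((Finsupp.mem_supported ℤ z).2 subset_rfl) fun t ht => ?_)
      refine finsum_induction (· ∈ Finsupp.supported ℤ ℤ _) (Submodule.zero_mem _)
        (fun a b ha hb => Submodule.add_mem _ ha hb) fun h => ?_
      exact Finsupp.single_mem_supported ℤ _ ⟨h, h.2, t, ht, vav_drop _ _ _⟩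
    exact fun l hl => (Finsupp.mem_supported ℤ _).1 h1 hl
  have haug : ∀ x, ((lc γ z).mapDomain pr) (pr x) =
      lc (fun l => ((γ l).mapDomain pr) (pr x)) z := fun x =>
    univ_lc_map ((Finsupp.lapply (pr x)).comp (Finsupp.lmapDomain ℤ ℤ pr)) γ z
  refine ⟨F, ⟨fun a ha x => ?_, fun x => ?_, fun x l hl => ?_⟩, fun x l hl => ?_⟩
  · rw [hF]
    simp only
    rw [list_md_smul, ← univPerm_apply, univ_lc_map]
    exact congrArg _ (univ_lc_congr fun l _ => vav_eqv hγ _ x l ha)
  · have h1 := hdeg x.i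
    have h2 := h0 x.i
    have h3 := h0' x.i
    rw [hF]
    simp only
    rw [map_smul, univ_lc_map]
    rcases hj : (deg x.i).toNat with _ | j
    · have h4 : dC c x = 0 := by
        rw [← Finsupp.support_eq_empty, Finset.eq_empty_iff_forall_notMem]
        intro y hy
        have h5 := hd x y hy
        have h6 := h0 y.i
        omega
      rw [h4, map_zero, zero_add, vavS, one_smul, show (deg' x.i).toNat = n by omega, haug,
        univ_lc_congr fun l hl => vav_top hγ q n x l (hlen l hl)]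
      exact (univ_lc_map (Finsupp.lsingle _) _ _).symm
    · have h4 : ((lc γ z).mapDomain pr) (pr x) = 0 := by
        rw [haug, ← univ_lc_zero z]
        refine univ_lc_congr fun l hl => ?_
        rw [vav_md, ← univ_lc_zero (γ l)]
        refine univ_lc_congr fun y hy => ?_
        rw [Finsupp.single_apply, if_neg]
        intro hyx
        obtain ⟨a, -, hax⟩ := (q.2 y x).1 hyx
        have h5 := hγ.grade l (by rw [hlen l hl]; exact hr) y hy
        have h6 : y.i = x.i := by rw [← hax]; rfl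
        rw [h6, hlen l hl] at h5
        omega
      obtain ⟨p, hp⟩ : ∃ p, (deg' x.i).toNat = p := ⟨_, rfl⟩
      rw [h4, Finsupp.single_zero, add_zero, hp, univ_lc_congr fun l hl => vav_bd htr hγ p x l
        (by rw [hlen l hl]; omega) (by rw [hlen l hl]; exact hr), vav_smul, univ_lc_sub,
        ← univ_lc_map, vav_co p x hzc, zero_sub,
        vav_swap (fun l y => vavA H γ (p + 1) y l), smul_smul, smul_neg, ← neg_smul, ← vav_smul]
      refine univ_lc_congr fun y hy => ?_
      have h5 := hd x y hy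
      have h6 := hdeg y.i
      rw [show (deg y.i).toNat = j by omega, show (deg' y.i).toNat = p + 1 by omega, vavS,
        show n - j = p + 1 by omega]
      congr 1
      rw [mul_assoc, ← pow_add, show p + 1 + p = 2 * p + 1 by ring, pow_succ, pow_mul]
      simp
  · obtain ⟨h, -, t, ht, rfl⟩ := hsupp x l hl
    have h1 := hdeg x.i
    have h2 := h0 x.i
    have h3 := h0' x.i
    rw [vav_len, List.length_drop, hlen t ht]
    omega
  · obtain ⟨h, hh, t, ht, e⟩ := hsupp x l hl
    exact ⟨h, hh, t, ht, _, e⟩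

end Pool.Agent.Lib.MP_fd3021_gt

/-! A generating cycle induces the augmentation of the dual complex up to sign. -/

namespace Pool.Agent.Lib.MP_fd3021_gt

variable {G I : Type} [Group G] [Fintype I] {deg : I → ℤ}
  {c : Matrix I I (MonoidAlgebra ℤ G)} {e e' : Cell I G → ℤ} {w w' : G →* ℤˣ}

theorem vunit_lc_add {X B : Type} [AddCommGroup B] (φ ψ : X → B) (ξ : X →₀ ℤ) :
    lc (fun x => φ x + ψ x) ξ = lc φ ξ + lc ψ ξ := by
  simp only [Finsupp.linearCombination_apply, Finsupp.sum, smul_add, Finset.sum_add_distrib]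

theorem vunit_lc_smul {X : Type} (a : ℤ) (φ : X → ℤ) (ξ : X →₀ ℤ) :
    lc (fun x => a • φ x) ξ = a • lc φ ξ := by
  simp only [Finsupp.linearCombination_apply, Finsupp.sum, Finset.smul_sum, smul_comm a]

theorem vunit_lc_zero {X B : Type} [AddCommGroup B] {φ : X → B} {ξ : X →₀ ℤ}
    (h : ∀ x ∈ ξ.support, φ x = 0) : lc φ ξ = 0 :=
  (univ_lc_congr h).trans (univ_lc_zero ξ)

theorem vunit_lc_coeff {X Y : Type} {φ : X → Y →₀ ℤ} {ξ : X →₀ ℤ} {y : Y}
    (h : ∀ x ∈ ξ.support, φ x y = 0) : lc φ ξ y = 0 :=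
  (univ_lc_map (Finsupp.lapply y) φ ξ).trans (vunit_lc_zero h)

theorem vunit_lc_nil {X Ω : Type} (u : X → ℤ) (ξ : X →₀ ℤ) :
    lc (fun x => Finsupp.single ([] : List Ω) (u x)) ξ = Finsupp.single [] (lc u ξ) :=
  (univ_lc_map (Finsupp.lsingle ([] : List Ω)) u ξ).symm

theorem vunit_bd_bd {Ω : Type} (ξ : List Ω →₀ ℤ) : lc bd (lc bd ξ) = 0 := by
  rw [univ_lc_map]
  exact vunit_lc_zero fun l _ => bd_bd l

theorem vunit_chain {H : Subgroup G} {u : Cell I G → ℤ} {F : Cell I G → List G →₀ ℤ}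
    (hF : IsForth deg c u H F) (ξ : Cell I G →₀ ℤ) :
    lc bd (lc F ξ) = lc F (lc (dC c) ξ) + Finsupp.single [] (lc u ξ) := by
  rw [univ_lc_map, univ_lc_map (lc F), ← vunit_lc_nil, ← vunit_lc_add]
  exact univ_lc_congr fun x _ => hF.chain x

/-- the augmentation attached to a chain map to the bar resolution is a multiple of `e` -/
theorem IsForth.multiple (h : ResC deg c e w) {H : Subgroup G} {u : Cell I G → ℤ}
    {F : Cell I G → List G →₀ ℤ} (hF : IsForth deg c u H F) : ∃ k : ℤ, ∀ x, u x = k * e x := by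
  have h1 : ∀ x, deg x.i ≠ 0 → u x = 0 := by
    intro x hx
    have h2 := DFunLike.congr_fun (hF.chain x) []
    rw [Finsupp.add_apply, Finsupp.single_eq_same, vunit_lc_coeff, vunit_lc_coeff, zero_add] at h2
    · exact h2.symm
    · intro y _
      by_contra hc
      have h3 := hF.grade y [] (Finsupp.mem_support_iff.2 hc)
      have h4 := h.nonneg y.i
      simp only [List.length_nil, Nat.cast_zero] at h3
      omega
    · intro l hl
      by_contra hc
      have h3 := hF.grade x l hl
      have h4 := bd_length l [] (Finsupp.mem_support_iff.2 hc)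
      simp only [List.length_nil] at h4
      omega
  have h2 : ∀ x, lc u (dC c x) = 0 := by
    intro x
    have h3 := congrArg (lc bd) (hF.chain x)
    rw [vunit_bd_bd, map_add, vunit_chain hF, h.d_d, map_zero, list_lc_single, bd_nil, smul_zero,
      zero_add, add_zero] at h3
    exact Finsupp.single_eq_zero.1 h3.symm
  obtain ⟨ξ, hξ1, hξ2⟩ := h.pt
  refine ⟨lc u ξ, fun x => ?_⟩
  by_cases hx : deg x.i = 0
  · have h3 : dC c x = 0 := by
      ext y
      by_contra hc
      have h4 := h.deg_d x y (Finsupp.mem_support_iff.2 hc)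
      have h5 := h.nonneg y.i
      omega
    obtain ⟨y, hy⟩ := h.exact (Finsupp.single x 1 - e x • ξ)
      (by rw [map_sub, map_smul, hξ1, list_lc_single, h3, smul_zero, smul_zero, sub_self])
      (by rw [map_sub, map_smul, hξ2, list_lc_single, one_smul, smul_eq_mul, mul_one, sub_self])
    have h4 := congrArg (lc u) hy
    rw [univ_lc_map, vunit_lc_zero fun x _ => h2 x, map_sub, map_smul, list_lc_single, one_smul,
      smul_eq_mul, eq_comm, sub_eq_zero] at h4
    rw [h4, mul_comm]
  · rw [h1 x hx, h.e_deg x hx, mul_zero]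

/-- the augmentation is a cycle of the dual complex of the finite cover -/
theorem vunit_cycle {n : ℕ} (h : ResC deg c e w) (h' : ResC (fun i => n - deg i) (adj c) e' w')
    (H : FiniteIndexNormalSubgroup G) (hH : ∀ g ∈ H.toSubgroup, w g = 1) :
    ∃ E : Cell I G →₀ ℤ, (∀ x ∈ E.support, deg x.i = 0) ∧
      (∀ x : Cell I G, (E.mapDomain fun x : Cell I G => (x.i, mkQ H x.g)) (x.i, mkQ H x.g) = e x) ∧
      ((lc (dC (adj c)) E).mapDomain fun x : Cell I G => (x.i, mkQ H x.g)) = 0 := by
  classical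
  choose sec hs using mkQ_surj H
  have q := isQuot_cell (I := I) H sec hs
  have he : ∀ x : Cell I G, e ⟨x.i, sec (mkQ H x.g)⟩ = e x := by
    intro x
    obtain ⟨a, ha, hx⟩ := (q.2 x ⟨x.i, sec (mkQ H x.g)⟩).1 (q.1 (x.i, mkQ H x.g)).symm
    rw [← hx, h.e_smul, hH a ha, Units.val_one, one_mul]
  have hE : ((∑ y : I × QQ H, Finsupp.single (⟨y.1, sec y.2⟩ : Cell I G)
      (e ⟨y.1, sec y.2⟩)).mapDomain fun x : Cell I G => (x.i, mkQ H x.g)) =
      ∑ y : I × QQ H, Finsupp.single y (e ⟨y.1, sec y.2⟩) := by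
    rw [list_md_sum]
    refine Finset.sum_congr rfl fun y _ => ?_
    rw [Finsupp.mapDomain_single, hs]
  refine ⟨∑ y : I × QQ H, Finsupp.single (⟨y.1, sec y.2⟩ : Cell I G) (e ⟨y.1, sec y.2⟩),
    fun x hx => ?_, fun x => ?_, ?_⟩
  · by_contra hc
    refine Finsupp.mem_support_iff.1 hx ?_
    rw [Finsupp.finsetSum_apply]
    refine Finset.sum_eq_zero fun y _ => ?_
    rw [Finsupp.single_apply]
    split_ifs with h1
    · rw [h1, h.e_deg x hc]
    · rfl
  · rw [hE, Finsupp.finsetSum_apply, Finset.sum_eq_single (x.i, mkQ H x.g)]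
    · rw [Finsupp.single_eq_same]
      exact he x
    · intro y _ hy
      exact Finsupp.single_eq_of_ne hy.symm
    · simp
  · rw [desc_lc q q _ fun a _ x => h'.d_smul a x, hE]
    ext y'
    have h1 := h.e_d ⟨y'.1, sec y'.2⟩
    rw [← univ_lc_congr (φ := fun x : Cell I G => e ⟨x.i, sec (mkQ H x.g)⟩) fun x _ => he x] at h1
    have h2 : lc (fun y : I × QQ H => e ⟨y.1, sec y.2⟩) (desc
        (fun x : Cell I G => (x.i, mkQ H x.g))
        (fun y : I × QQ H => (⟨y.1, sec y.2⟩ : Cell I G)) (dC c) y') = 0 := by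
      rw [desc, Finsupp.linearCombination_mapDomain]
      exact h1
    rw [Finsupp.linearCombination_apply, Finsupp.sum_fintype _ _ (by simp)] at h2
    rw [map_sum, Finsupp.finsetSum_apply, Finsupp.zero_apply, ← h2]
    refine Finset.sum_congr rfl fun y _ => ?_
    rw [list_lc_single, Finsupp.smul_apply, desc_dC H sec hs, desc_dC H sec hs, rep_adj,
      Matrix.transpose_apply, smul_eq_mul, smul_eq_mul, mul_comm]

theorem fund_unit (n : ℕ) (hn : 1 ≤ n) (h : ResC deg c e w)
    (h' : ResC (fun i => n - deg i) (adj c) e' w') (H : FiniteIndexNormalSubgroup G)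
    (hH : ∀ g ∈ H.toSubgroup, w g = 1) (hH' : ∀ g ∈ H.toSubgroup, w' g = 1)
    {γ : List G → Cell I G →₀ ℤ}
    (hγ : IsBack (fun i => n - deg i) (adj c) e' H.toSubgroup (n + 2) γ) (z : List G →₀ ℤ)
    (hz : Generates H.toSubgroup n z) (k : ℤ)
    (hk : ∀ x : Cell I G, ((lc γ z).mapDomain fun x : Cell I G => (x.i, mkQ H x.g))
      (x.i, mkQ H x.g) = k * e x) : k * k = 1 := by
  have hle : ∀ i, (fun i => (n : ℤ) - deg i) i ≤ n := fun i => sub_le_self _ (h.nonneg i)
  obtain ⟨α, hα⟩ := exists_forth h' H.toSubgroup hH' n hle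
  obtain ⟨s, hs1, hs2, hs3⟩ := exists_htpy h' H.toSubgroup hH' n hle (Nat.le_succ _) hγ hα
  obtain ⟨E, hE1, hE2, hE3⟩ := vunit_cycle h h' H hH
  choose sec hs using mkQ_surj H
  have q := isQuot_cell (I := I) H sec hs
  have q' := isQuot_co (G := G) H.toSubgroup
  have h1 : lc α E ∈ lists G (n + 1) := by
    have h0 : E ∈ Finsupp.supported ℤ ℤ {x : Cell I G | deg x.i = 0} :=
      (Finsupp.mem_supported ℤ E).2 fun x hx => hE1 x hx
    refine list_lc_mem α (lists G (n + 1)) h0 fun x hx => ?_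
    refine (Finsupp.mem_supported ℤ (α x)).2 fun l hl => ?_
    have h2 := hα.grade x l hl
    have h3 : deg x.i = 0 := hx
    change l.length = n + 1
    omega
  have h2 : co H.toSubgroup (lc bd (lc α E)) = 0 := by
    have h3 : lc e' E = 0 := vunit_lc_zero fun x hx => h'.e_deg x (by
      have := hE1 x hx
      omega)
    rw [vunit_chain hα, h3, Finsupp.single_zero, add_zero, co, desc_lc q q' α hα.equiv, hE3,
      map_zero]
  obtain ⟨k', y, hy, hy'⟩ := hz.2.2 _ h1 h2
  have h3 : lc γ (lc bd y) = 0 := by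
    rw [univ_lc_map]
    refine vunit_lc_zero fun l hl => ?_
    have h4 : l.length = n + 2 := (Finsupp.mem_supported ℤ y).1 hy hl
    have h5 : γ l = 0 := by
      ext x
      by_contra hc
      have h6 := hγ.grade l h4.le x (Finsupp.mem_support_iff.2 hc)
      have h7 := h.nonneg x.i
      omega
    rw [← hγ.chain l h4.le, h5, map_zero]
  have h4 : lc γ (lc α E) = E - lc s (lc (dC (adj c)) E) := by
    rw [univ_lc_map, univ_lc_map (lc s)]
    conv_rhs => rw [← univ_lc_single E]
    rw [univ_lc_map (lc _) _ E]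
    simp only [list_lc_single, one_smul]
    rw [← univ_lc_sub]
    refine univ_lc_congr fun x hx => ?_
    have h5 : s x = 0 := by
      ext x'
      by_contra hc
      have h6 := hs2 x x' (Finsupp.mem_support_iff.2 hc)
      have h7 := h.nonneg x'.i
      have h8 := hE1 x hx
      omega
    rw [← hs3 x, h5, map_zero, add_zero, add_sub_cancel_right]
  have h5 := desc_lc q' q γ hγ.equiv (lc α E)
  have h6 := desc_lc q' q γ hγ.equiv (k' • z + lc bd y)
  have h7 := h5.trans ((congrArg _ hy').trans h6.symm)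
  rw [h4, list_md_sub, desc_lc q q s hs1, hE3, map_zero, sub_zero, map_add, h3, add_zero, map_smul,
    list_md_smul] at h7
  have h8 : ∀ x, e x = (k' * k) • e x := by
    intro x
    have h9 := DFunLike.congr_fun h7 (x.i, mkQ H x.g)
    rw [hE2, Finsupp.smul_apply, hk, smul_eq_mul] at h9
    rw [smul_eq_mul, mul_assoc]
    exact h9
  obtain ⟨ξ, -, hξ⟩ := h.pt
  have h9 : lc e ξ = (k' * k) • lc e ξ := by
    rw [← vunit_lc_smul]
    exact univ_lc_congr fun x _ => h8 x
  rw [hξ, smul_eq_mul, mul_one, mul_comm] at h9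
  rcases Int.eq_one_or_neg_one_of_mul_eq_one h9.symm with rfl | rfl <;> rfl

end Pool.Agent.Lib.MP_fd3021_gt

/-! Descent of a factorisation through a small complex. -/

namespace Pool.Agent.Lib.MP_fd3021_gt

open Matrix

/-- the complex `R` is a homotopy retract of a complex `D'` of small rank -/
def SmallT {Y : Type} [Fintype Y] [DecidableEq Y] (R : Matrix Y Y ℤ) (C δ M d : ℝ) : Prop :=
  ∃ (κ : Type) (_ : Fintype κ) (f : Matrix κ Y ℤ) (g : Matrix Y κ ℤ) (s : Matrix Y Y ℤ)
    (D' : Matrix κ κ ℤ), g * f + R * s + s * R = 1 ∧ f * R = D' * f ∧ g * D' = R * g ∧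
    (Fintype.card κ : ℝ) ≤ δ * d ∧ (∀ j, ∑ i, |(D' i j : ℝ)| ≤ C) ∧ RC f M ∧ RC g M ∧ RC s M

theorem SmallT.cheapT {Y : Type} [Fintype Y] [DecidableEq Y] {R : Matrix Y Y ℤ} {C δ M d : ℝ}
    (h : SmallT R C δ M d) (P : Y → Prop) : CheapT R P M δ M d := by
  obtain ⟨κ, i, f, g, s, D', h1, -, -, h4, -, h6, h7, h8⟩ := h
  exact ⟨κ, i, f, g, s, fun y y' _ => by rw [h1], h4, h6.2, h6, h7, h8⟩

theorem SmallT.data {Y n0 n1 n2 : Type} [Fintype Y] [DecidableEq Y] [Fintype n0] [Fintype n1]
    [Fintype n2] {R : Matrix Y Y ℤ} (e0 : n0 → Y) (e1 : n1 → Y) (e2 : n2 → Y)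
    (i0 : Function.Injective e0) (i1 : Function.Injective e1) (i2 : Function.Injective e2)
    (h2 : ∀ a y, R (e1 a) y ≠ 0 → y ∈ Set.range e2)
    (h0 : ∀ a y, R y (e1 a) ≠ 0 → y ∈ Set.range e0)
    (h1 : ∀ b y, R y (e2 b) ≠ 0 → y ∈ Set.range e1) {C δ M d : ℝ} (hC : 1 ≤ C) (hδ : δ ≤ 1)
    (hd : 0 ≤ d) (h : SmallT R C δ M d) :
    Data (R.submatrix e0 e1) (R.submatrix e1 e2) (C ^ 2) δ M d := by
  classical
  obtain ⟨κ, ik, f, g, s, D', hid, hfR, hgD, hκ, hcol, hf, hg, hs⟩ := h
  have z2 : ∀ a y, y ∉ Set.range e2 → R (e1 a) y = 0 := fun a y hy => by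
    by_contra hne
    exact hy (h2 a y hne)
  have z0 : ∀ a y, y ∉ Set.range e0 → R y (e1 a) = 0 := fun a y hy => by
    by_contra hne
    exact hy (h0 a y hne)
  have z1 : ∀ b y, y ∉ Set.range e1 → R y (e2 b) = 0 := fun b y hy => by
    by_contra hne
    exact hy (h1 b y hne)
  have hblock : g.submatrix e1 id * f.submatrix id e1 + R.submatrix e1 e2 * s.submatrix e2 e1 +
      s.submatrix e1 e0 * R.submatrix e0 e1 = 1 := by
    ext a b
    have hab := congrFun (congrFun hid (e1 a)) (e1 b)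
    have e1' : (1 : Matrix Y Y ℤ) (e1 a) (e1 b) = (1 : Matrix n1 n1 ℤ) a b := by
      simp only [Matrix.one_apply, i1.eq_iff]
    rw [← e1', ← hab]
    simp only [Matrix.add_apply, Matrix.mul_apply, Matrix.submatrix_apply, id]
    congr 1
    · congr 1
      exact Fintype.sum_of_injective e2 i2 _ _ (fun y hy => by rw [z2 a y hy, zero_mul])
        fun _ => rfl
    · exact Fintype.sum_of_injective e0 i0 _ _ (fun y hy => by rw [z0 b y hy, mul_zero])
        fun _ => rfl
  have hκ1 : (Fintype.card κ : ℝ) ≤ d := hκ.trans (by nlinarith)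
  have hC2 : 1 ≤ C ^ 2 := one_le_pow₀ hC
  have hκ2 : (Fintype.card κ : ℝ) ≤ C ^ 2 * d := hκ1.trans (by nlinarith)
  refine ⟨κ, κ, ik, ik, f.submatrix id e1, g.submatrix e1 id, s.submatrix e2 e1, D',
    f.submatrix id e2, g.submatrix e2 id, ?_, ?_, ?_, hκ2, hκ2, ?_, ?_,
    hf.submatrix Function.injective_id i1, hf.submatrix Function.injective_id i2,
    hg.submatrix i2 Function.injective_id, hs.submatrix i2 i1⟩
  · intro x hx
    have := congrArg (fun A => A *ᵥ x) hblock
    simp only [Matrix.add_mulVec, Matrix.one_mulVec, ← Matrix.mulVec_mulVec, hx,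
      Matrix.mulVec_zero, add_zero] at this
    exact this
  · ext k b
    have hkb := congrFun (congrFun hfR k) (e2 b)
    simp only [Matrix.mul_apply, Matrix.submatrix_apply, id] at hkb ⊢
    rw [← hkb]
    exact Fintype.sum_of_injective e1 i1 _ _ (fun y hy => by rw [z1 b y hy, mul_zero])
      fun _ => rfl
  · ext a k
    have hak := congrFun (congrFun hgD (e1 a)) k
    simp only [Matrix.mul_apply, Matrix.submatrix_apply, id] at hak ⊢
    rw [hak]
    exact (Fintype.sum_of_injective e2 i2 _ _ (fun y hy => by rw [z2 a y hy, zero_mul])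
      fun _ => rfl).symm
  · refine le_trans ?_ hκ
    exact_mod_cast Matrix.rank_le_card_height (cm D')
  · exact (frob_le_of_col hcol).trans (mul_le_mul_of_nonneg_left hκ1 (sq_nonneg _))

variable {G I : Type} [Group G] [Fintype I] [DecidableEq I] {deg : I → ℤ}
  {c : Matrix I I (MonoidAlgebra ℤ G)} {e : Cell I G → ℤ}

theorem smallT_of_univ (H : FiniteIndexNormalSubgroup G) (h0 : ∀ i, 0 ≤ deg i)
    (deq : ∀ (g : G) x, dC c (g • x) = (dC c x).mapDomain (g • ·)) {r : ℕ}
    {f : Cell I G → List G →₀ ℤ} {g : List G → Cell I G →₀ ℤ} {s : Cell I G → Cell I G →₀ ℤ}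
    (hf : IsForth deg c e H.toSubgroup f) (hg : IsBack deg c e H.toSubgroup r g)
    (seq : ∀ a ∈ H.toSubgroup, ∀ x, s (a • x) = (s x).mapDomain (a • ·))
    (hid : ∀ x, lc g (f x) + lc (dC c) (s x) + lc s (dC c x) = Finsupp.single x 1)
    {δ : ℝ} (R : Finset (List G)) (hR : (R.card : ℝ) ≤ δ * dg H)
    (hR1 : ∀ t ∈ R, t ≠ [] ∧ t.length ≤ r) (hR2 : ∀ t ∈ R, ∀ l ∈ (bd t).support, l = [] ∨ l ∈ R)
    (fR : ∀ x, ∀ l ∈ (f x).support, ∃ h ∈ H.toSubgroup, ∃ t ∈ R, l = h • t) :
    ∃ M : ℝ, ∀ N ≤ H, SmallT (rep N c)ᵀ r δ M (dg N) := by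
  classical
  have fne : ∀ x, [] ∉ (f x).support := fun x hx => by
    have h1 := hf.grade x [] hx
    have h2 := h0 x.i
    simp only [List.length_nil, Nat.cast_zero] at h1
    omega
  have beq : ∀ (a : G) (l : List G), bd (a • l) = (bd l).mapDomain (a • ·) := fun a l =>
    bd_map _ l
  obtain ⟨R1, hR1'⟩ := lcheap_cells (I := I) H
  have nf : 0 ≤ ∑ r ∈ R1, l1 (f r) := Finset.sum_nonneg fun _ _ => l1_nonneg _
  have ng : 0 ≤ ∑ r ∈ R, l1 (g r) := Finset.sum_nonneg fun _ _ => l1_nonneg _
  have ns : 0 ≤ ∑ r ∈ R1, l1 (s r) := Finset.sum_nonneg fun _ _ => l1_nonneg _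
  refine ⟨∑ r ∈ R1, l1 (f r) + ∑ r ∈ R, l1 (g r) + ∑ r ∈ R1, l1 (s r), fun N hN => ?_⟩
  have hN' : N.toSubgroup ≤ H.toSubgroup := fun _ h => hN h
  choose sec hs using mkQ_surj N
  have qC := isQuot_cell (I := I) N sec hs
  set prC := fun x : Cell I G => (x.i, mkQ N x.g) with hprC
  set secC := fun y : I × QQ N => (⟨y.1, sec y.2⟩ : Cell I G) with hsecC
  obtain ⟨Y, pr, secL, qL⟩ := exists_isQuot (X := List G) N.toSubgroup
  obtain ⟨κ, hκ, hκ1, hκ2⟩ := count_orbits hN qL R
  obtain ⟨bf1, bf2⟩ := desc_bound hN' qC qL f hf.equiv R1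
    (fun r _ x hx h _ e => lcheap_free_list (fun h0 => fne r (h0 ▸ hx)) e) Finset.univ
    fun y _ => hR1' _
  obtain ⟨bg1, bg2⟩ := desc_bound hN' qL qC g hg.equiv R
    (fun _ _ _ _ _ _ e => lcheap_free_cell e) κ hκ2
  obtain ⟨bs1, bs2⟩ := desc_bound hN' qC qC s seq R1
    (fun _ _ _ _ _ _ e => lcheap_free_cell e) Finset.univ fun y _ => hR1' _
  have cf : ∀ ξ : Y →₀ ℤ, ∑ k : κ, |((ξ k : ℤ) : ℝ)| ≤ l1 ξ := fun ξ => by
    rw [Finset.sum_coe_sort κ fun k => |((ξ k : ℤ) : ℝ)|]
    exact sum_le_l1 _ _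
  have dg' := desc_lc qL qC g fun h hh => hg.equiv h (hN' hh)
  have df' := desc_lc qC qL f fun h hh => hf.equiv h (hN' hh)
  have dd' := desc_lc qC qC (dC c) fun h _ => deq h
  have ds' := desc_lc qC qC s fun h hh => seq h (hN' hh)
  have db' := desc_lc qL qL bd fun h _ => beq h
  have hsupp : ∀ x, ((f x).mapDomain pr).support ⊆ κ := fun x k hk => by
    obtain ⟨l, hl, rfl⟩ := lcheap_mem_map hk
    obtain ⟨h, hh, r, hr, rfl⟩ := fR _ l hl
    exact hκ1 h hh r hr
  have hnil : secL (pr []) = [] := by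
    obtain ⟨h, -, hh⟩ := (qL.2 [] (secL (pr []))).1 (qL.1 _).symm
    exact hh.symm
  have hnot : pr [] ∉ κ := fun hk => by
    obtain ⟨h, -, t, ht, e⟩ := hκ2 _ hk
    rw [hnil, smul_list, List.map_eq_nil_iff] at e
    exact (hR1 t ht).1 e
  have hlen : ∀ k ∈ κ, (secL k).length ≤ r := fun k hk => by
    obtain ⟨h, -, t, ht, e⟩ := hκ2 _ hk
    rw [← e, smul_list, List.length_map]
    exact (hR1 t ht).2
  have hbs : ∀ k ∈ κ, ((bd (secL k)).mapDomain pr).support ⊆ insert (pr []) κ :=
    fun k hk k' hk' => by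
      obtain ⟨h, hh, t, ht, e⟩ := hκ2 _ hk
      obtain ⟨l, hl, rfl⟩ := lcheap_mem_map hk'
      rw [← e, beq] at hl
      obtain ⟨l', hl', rfl⟩ := lcheap_mem_map hl
      rcases hR2 t ht l' hl' with rfl | hl''
      · exact Finset.mem_insert_self _ _
      · exact Finset.mem_insert_of_mem (hκ1 h hh l' hl'')
  refine ⟨κ, inferInstance, fun k y => desc pr secC f y k, fun y k => desc prC secL g k y,
    fun y y' => desc prC secC s y' y, fun k k' => desc pr secL bd k' k, ?_, ?_, ?_, ?_,
    fun k => ?_, ⟨fun k => ?_, fun j => ?_⟩, ⟨fun y => ?_, fun k => ?_⟩, ⟨fun y => ?_, fun y => ?_⟩⟩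
  · ext y y'
    have h0 := congrArg (fun ξ => Finsupp.mapDomain prC ξ y) (hid (secC y'))
    simp only [Finsupp.mapDomain_add, Finsupp.add_apply, Finsupp.mapDomain_single] at h0
    rw [dg', dd', ds', qC.1 y', lcheap_lc_apply _ _ κ (hsupp _),
      lcheap_lc_apply _ _ Finset.univ (Finset.subset_univ _),
      lcheap_lc_apply _ _ Finset.univ (Finset.subset_univ _)] at h0
    have e1 : ∑ k : κ, desc prC secL g k y * desc pr secC f y' k =
        ∑ x ∈ κ, Finsupp.mapDomain pr (f (secC y')) x * desc prC secL g x y := by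
      rw [Finset.sum_coe_sort κ fun k => desc prC secL g k y * desc pr secC f y' k]
      exact Finset.sum_congr rfl fun _ _ => mul_comm _ _
    have e2 : ∑ z, rep N c z y * desc prC secC s y' z =
        ∑ x, Finsupp.mapDomain prC (s (secC y')) x * desc prC secC (dC c) x y :=
      Finset.sum_congr rfl fun z _ => by rw [desc_dC N sec hs, mul_comm]; rfl
    have e3 : ∑ z, desc prC secC s z y * rep N c y' z =
        ∑ x, Finsupp.mapDomain prC (dC c (secC y')) x * desc prC secC s x y :=
      Finset.sum_congr rfl fun z _ => by rw [← desc_dC N sec hs, mul_comm]; rfl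
    simp only [Matrix.add_apply, Matrix.mul_apply, Matrix.transpose_apply]
    rw [e1, e2, e3, h0, Finsupp.single_apply, Matrix.one_apply]
    simp only [eq_comm]
  · ext k y'
    have h0 := congrArg (fun ξ => Finsupp.mapDomain pr ξ k) (hf.chain (secC y'))
    have hk : pr [] ≠ k := fun h => hnot (h ▸ k.2)
    simp only [Finsupp.mapDomain_add, Finsupp.add_apply, Finsupp.mapDomain_single] at h0
    rw [db', df', Finsupp.single_eq_of_ne hk.symm, add_zero, lcheap_lc_apply _ _ κ (hsupp _),
      lcheap_lc_apply _ _ Finset.univ (Finset.subset_univ _)] at h0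
    have e1 : ∑ k' : κ, desc pr secL bd k' k * desc pr secC f y' k' =
        ∑ x ∈ κ, Finsupp.mapDomain pr (f (secC y')) x * desc pr secL bd x k := by
      rw [Finset.sum_coe_sort κ fun k' => desc pr secL bd k' k * desc pr secC f y' k']
      exact Finset.sum_congr rfl fun _ _ => mul_comm _ _
    have e3 : ∑ z, desc pr secC f z k * rep N c y' z =
        ∑ x, Finsupp.mapDomain prC (dC c (secC y')) x * desc pr secC f x k :=
      Finset.sum_congr rfl fun z _ => by rw [← desc_dC N sec hs, mul_comm]; rfl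
    simp only [Matrix.mul_apply, Matrix.transpose_apply]
    rw [e1, e3, h0]
  · ext y k'
    have h0 := congrArg (fun ξ => Finsupp.mapDomain prC ξ y) (hg.chain (secL k') (hlen _ k'.2))
    have hz : desc prC secL g (pr []) = 0 := by
      rw [desc, hnil, hg.nil, Finsupp.mapDomain_zero]
    rw [dd', dg', lcheap_lc_apply _ _ Finset.univ (Finset.subset_univ _),
      lcheap_lc_apply _ _ _ (hbs _ k'.2), Finset.sum_insert hnot, hz, Finsupp.zero_apply,
      mul_zero, zero_add] at h0
    have e1 : ∑ k : κ, desc prC secL g k y * desc pr secL bd k' k =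
        ∑ x ∈ κ, Finsupp.mapDomain pr (bd (secL k')) x * desc prC secL g x y := by
      rw [Finset.sum_coe_sort κ fun k => desc prC secL g k y * desc pr secL bd k' k]
      exact Finset.sum_congr rfl fun _ _ => mul_comm _ _
    have e2 : ∑ z, rep N c z y * desc prC secL g k' z =
        ∑ x, Finsupp.mapDomain prC (g (secL k')) x * desc prC secC (dC c) x y :=
      Finset.sum_congr rfl fun z _ => by rw [desc_dC N sec hs, mul_comm]; rfl
    exact e1.trans (h0.symm.trans e2.symm)
  · rw [Fintype.card_coe]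
    have h1 := dg_pos H
    have h2 := dg_pos N
    have h3 : (κ.card : ℝ) * dg H ≤ δ * dg N * dg H := by nlinarith
    exact le_of_mul_le_mul_right h3 h1
  · refine (cf _).trans ((l1_mapDomain _ _).trans ((l1_bd _).trans ?_))
    exact_mod_cast hlen _ k.2
  · have := bf1 k
    linarith
  · have := (cf _).trans (bf2 j (Finset.mem_univ _))
    linarith
  · have := bg1 y
    rw [← Finset.sum_coe_sort κ fun k => |((desc prC secL g k y : ℤ) : ℝ)|] at this
    linarith
  · have := (sum_le_l1 _ Finset.univ).trans (bg2 k k.2)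
    linarith
  · have := bs1 y
    linarith
  · have := (sum_le_l1 _ Finset.univ).trans (bs2 y (Finset.mem_univ _))
    linarith

end Pool.Agent.Lib.MP_fd3021_gt

/-! Small fundamental cycles: assembly. -/

namespace Pool.Agent.Lib.MP_fd3021_gt

open Matrix Filter MeasureTheory

variable {G I : Type} [Group G] [Fintype I] [DecidableEq I]
  {deg : I → ℤ} {c : Matrix I I (MonoidAlgebra ℤ G)}

omit [DecidableEq I] in
theorem IsForth.smul {u e : Cell I G → ℤ} {H : Subgroup G} {F : Cell I G → List G →₀ ℤ}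
    (hF : IsForth deg c u H F) (k : ℤ) (hk : ∀ x, k * u x = e x) :
    IsForth deg c e H fun x => k • F x where
  equiv a ha x := by rw [hF.equiv a ha, Finsupp.mapDomain_smul]
  chain x := by
    have e1 : lc (fun x => k • F x) (dC c x) = k • lc F (dC c x) := by
      simp only [Finsupp.linearCombination_apply, Finsupp.sum, Finset.smul_sum]
      exact Finset.sum_congr rfl fun y _ => smul_comm _ _ _
    rw [map_smul, hF.chain, e1, smul_add, Finsupp.smul_single, smul_eq_mul, hk]
  grade x l hl := hF.grade x l (Finsupp.support_smul hl)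

theorem small_main (n : ℕ) (hn : 1 ≤ n) (h : IsRes deg c)
    (h' : IsRes (fun i => n - deg i) (adj c)) (hS : SmallCycles G n) {δ : ℝ} (hδ : 0 < δ) :
    ∃ M : ℝ, ∀ᶠ N : FiniteIndexNormalSubgroup G in atBot,
      SmallT (rep N c)ᵀ (n + 1 : ℕ) δ M (dg N) := by
  classical
  obtain ⟨e, w, hr⟩ := h.resC
  obtain ⟨e', w', hr'⟩ := h'.resC
  have hd : ∀ i, deg i ≤ n := fun i => by have := h'.1 i; simp only at this; omega
  obtain ⟨H₀, hle, hN, hI, z, hz, hcard⟩ :=
    hS (δ / 2 ^ (n + 1)) (by positivity) (w.ker ⊓ w'.ker) inferInstance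
  let H : FiniteIndexNormalSubgroup G := ⟨H₀, hN, hI⟩
  have hH : ∀ g ∈ H.toSubgroup, w g = 1 := fun g hg => (hle hg).1
  have hH' : ∀ g ∈ H.toSubgroup, w' g = 1 := fun g hg => (hle hg).2
  obtain ⟨γ, hγ⟩ := exists_back hr' H.toSubgroup hH' (n + 2) (by omega)
  choose sec hsec using mkQ_surj H
  obtain ⟨F, hF, hFs⟩ := exists_cap (c := c) H.toSubgroup n (deg := deg) (fun i => by ring)
    h.1 h'.1 dC_adj hr.deg_d (by omega) hγ z hz.1 hz.2.1 (isQuot_cell H sec hsec)
  obtain ⟨k, hk⟩ := hF.multiple hr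
  have hkk : k * k = 1 := fund_unit n hn hr hr' H hH hH' hγ z hz k hk
  have hf : IsForth deg c e H.toSubgroup fun x => k • F x :=
    hF.smul k fun x => by rw [hk, ← mul_assoc, hkk, one_mul]
  obtain ⟨g, hg⟩ := exists_back hr H.toSubgroup hH (n + 1) (by omega)
  obtain ⟨s, hs1, -, hs2⟩ := exists_htpy hr H.toSubgroup hH n hd le_rfl hg hf
  obtain ⟨R, hR0, hR1, hR2, hR3⟩ := exists_faces z.support (n + 1) fun l hl => hz.1 hl
  have hR : (R.card : ℝ) ≤ δ * dg H := by
    have h1 : (R.card : ℝ) ≤ 2 ^ (n + 1) * z.support.card := by exact_mod_cast hR0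
    have h2 : (2 : ℝ) ^ (n + 1) * (δ / 2 ^ (n + 1) * H₀.index) = δ * H₀.index := by field_simp
    rw [dg_eq]
    exact h1.trans ((mul_le_mul_of_nonneg_left hcard (by positivity)).trans h2.le)
  obtain ⟨M, hM⟩ := smallT_of_univ H h.1 hr.d_smul hf hg hs1 hs2 R hR hR1 hR2 fun x l hl => by
    have hl' := Finsupp.support_smul hl
    obtain ⟨a, ha, t, ht, p, rfl⟩ := hFs x l hl'
    refine ⟨a, ha, _, hR3 t ht p fun h0 => ?_, rfl⟩
    have h1 := hF.grade x _ hl'
    have h2 := h.1 x.i
    rw [h0, smul_list] at h1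
    simp only [List.map_nil, List.length_nil, Nat.cast_zero] at h1
    omega
  exact ⟨M, (eventually_le_atBot H).mono hM⟩

theorem small_vanishing [Group.ResiduallyFinite G] (n : ℕ) (hn : 1 ≤ n) (h : IsRes deg c)
    (h' : IsRes (fun i => n - deg i) (adj c)) (hS : SmallCycles G n) :
    DetAcyclic deg c ∧ rho deg c = 0 := by
  have hg := h.2.1
  have b2 : ∀ (N : FiniteIndexNormalSubgroup G) (p : ℤ) (a : {i // deg i = p} × QQ N) y,
      (rep N c)ᵀ (a.1.1, a.2) y ≠ 0 →
      y ∈ Set.range fun x : {i // deg i = p + 1} × QQ N => (x.1.1, x.2) := fun N p a y hy => by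
    have h1 : deg y.1 = deg a.1.1 + 1 :=
      hg _ _ (rep_ne_zero N c (x := y) (y := (a.1.1, a.2)) hy)
    exact ⟨(⟨y.1, by have := a.1.2; omega⟩, y.2), rfl⟩
  have b0 : ∀ (N : FiniteIndexNormalSubgroup G) (p : ℤ) (a : {i // deg i = p + 1} × QQ N) y,
      (rep N c)ᵀ y (a.1.1, a.2) ≠ 0 →
      y ∈ Set.range fun x : {i // deg i = p} × QQ N => (x.1.1, x.2) := fun N p a y hy => by
    have h1 : deg a.1.1 = deg y.1 + 1 :=
      hg _ _ (rep_ne_zero N c (x := (a.1.1, a.2)) (y := y) hy)
    exact ⟨(⟨y.1, by have := a.1.2; omega⟩, y.2), rfl⟩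
  refine rho_zero n h (fun i => by have := h'.1 i; simp only at this; omega) (fun p => ?_)
    fun p _ _ => ⟨((n + 1 : ℕ) : ℝ) ^ 2, fun δ hδ hδ1 => ?_⟩
  · obtain ⟨p, rfl⟩ : ∃ p', p = p' + 1 := ⟨p - 1, by ring⟩
    obtain ⟨K, hK⟩ := good_lap hg (p + 1)
    refine atom_zero hK hK.isSpec fun δ hδ => ?_
    obtain ⟨M, hM⟩ := small_main n hn h h' hS hδ
    refine hM.mono fun N hN => ?_
    rw [rep_lap hg]
    exact Cheap.ker_le (cheap_block (rep N c)ᵀ _ _ _ (main_inj deg N p) (main_inj deg N (p + 1))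
      (main_inj deg N (p + 1 + 1)) (fun _ => True) (fun _ => trivial) (b2 N _) (b0 N _)
      (hN.cheapT _))
  · obtain ⟨M, hM⟩ := small_main n hn h h' hS hδ
    refine ⟨M, hM.mono fun N hN => ?_⟩
    exact SmallT.data _ _ _ (main_inj deg N p) (main_inj deg N (p + 1))
      (main_inj deg N (p + 1 + 1)) (b2 N _) (b0 N _) (b0 N _)
      (by push_cast; linarith [Nat.cast_nonneg (α := ℝ) n]) hδ1 (dg_pos N).le hN

end Pool.Agent.Lib.MP_fd3021_gt
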