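import Pool.Agent.Lib.MP_fd3021_gt.ADefs
import Pool.Agent.Lib.MP_fd3021_gt.VA

/-! A natural chain map on lists that kills degenerate lists. -/

namespace Pool.Agent.Lib.MP_fd3021_gt

variable {E E' : Type}

/-- the normalisation operator with fuel -/
noncomputable def nPF : ℕ → List E → List E →₀ ℤ
  | 0, l => Finsupp.single l 1
  | _ + 1, [] => Finsupp.single [] 1
  | k + 1, a :: t => (lc (nPF k) (bd (a :: t))).mapDomain (a :: ·)

/-- the normalisation operator -/
noncomputable def nP (l : List E) : List E →₀ ℤ := nPF l.length l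

theorem nP_nil : nP ([] : List E) = Finsupp.single [] 1 := rfl

theorem nP_cons (a : E) (t : List E) :
    nP (a :: t) = (lc nP (bd (a :: t))).mapDomain (a :: ·) := by
  have h : lc (nPF t.length) (bd (a :: t)) = lc nP (bd (a :: t)) :=
    univ_lc_congr fun s hs => by
      have h1 := bd_length _ s hs
      rw [List.length_cons] at h1
      rw [nP, show s.length = t.length by omega]
  rw [← h]
  rfl

theorem nP_one (a : E) : nP [a] = Finsupp.single [a] 1 := by
  rw [nP_cons, bd_cons, bd_nil, Finsupp.mapDomain_zero, sub_zero, list_lc_single, one_smul, nP_nil,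
    Finsupp.mapDomain_single]

theorem nP_ind {p : List E → Prop} (h0 : p [])
    (h1 : ∀ a t, (∀ s ∈ (bd (a :: t)).support, p s) → p (a :: t)) (l : List E) : p l := by
  suffices h : ∀ k, ∀ l : List E, l.length = k → p l from h _ l rfl
  intro k
  induction k with
  | zero =>
    intro l hl
    rw [List.length_eq_zero_iff.1 hl]
    exact h0
  | succ k ih =>
    intro l hl
    match l, hl with
    | a :: t, hl =>
      refine h1 a t fun s hs => ih s ?_
      have := bd_length _ s hs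
      omega

theorem nP_bd (l : List E) : lc bd (nP l) = lc nP (bd l) := by
  induction l using nP_ind with
  | h0 => rw [nP_nil, list_lc_single, bd_nil, smul_zero, map_zero]
  | h1 a t ih =>
    rw [nP_cons, lc_bd_cons, univ_lc_map (lc bd) nP, univ_lc_congr ih, ← univ_lc_map, bd_bd,
      map_zero, Finsupp.mapDomain_zero, sub_zero]

theorem nP_map (f : E → E') (l : List E) : nP (l.map f) = (nP l).mapDomain (List.map f) := by
  induction l using nP_ind with
  | h0 => rw [List.map_nil, nP_nil, nP_nil, Finsupp.mapDomain_single, List.map_nil]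
  | h1 a t ih =>
    have h : bd (f a :: t.map f) = (bd (a :: t)).mapDomain (List.map f) := bd_map f (a :: t)
    rw [List.map_cons, nP_cons, nP_cons, h, vcap_md, univ_lc_congr ih, ← lcheap_lc_map,
      ← Finsupp.mapDomain_comp, ← Finsupp.mapDomain_comp]
    rfl

theorem nP_len (l : List E) : nP l ∈ lists E l.length := by
  induction l using nP_ind with
  | h0 => exact Finsupp.single_mem_supported ℤ _ rfl
  | h1 a t ih =>
    rw [nP_cons]
    refine list_md_mem (S := {s | s.length = t.length}) _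
      (list_lc_mem _ _ (Finsupp.mem_supported_support ℤ _) fun s hs => ?_) fun s hs => ?_
    · have h1 := bd_length _ s hs
      rw [List.length_cons] at h1
      rw [← show s.length = t.length by omega]
      exact ih s hs
    · change (a :: s).length = (a :: t).length
      rw [List.length_cons, List.length_cons, hs]

theorem bd_deg (l : List E) (hl : ¬ l.IsChain (· ≠ ·)) :
    bd l ∈ Finsupp.supported ℤ ℤ {s : List E | ¬ s.IsChain (· ≠ ·)} := by
  induction l with
  | nil => exact absurd List.isChain_nil hl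
  | cons a t ih =>
    by_cases ht : t.IsChain (· ≠ ·)
    · match t, ht, hl with
      | [], _, hl => exact absurd (List.isChain_singleton a) hl
      | b :: u, ht, hl =>
        have hab : a = b := by
          by_contra hc
          exact hl (List.isChain_cons_cons.2 ⟨hc, ht⟩)
        subst hab
        rw [bd_cons, bd_cons, list_md_sub, Finsupp.mapDomain_single, sub_sub_cancel,
          ← Finsupp.mapDomain_comp]
        exact list_md_mem _ (Finsupp.mem_supported_support ℤ _) fun s _ h =>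
          (List.isChain_cons_cons.1 h).1 rfl
    · rw [bd_cons]
      exact Submodule.sub_mem _ (Finsupp.single_mem_supported ℤ _ ht)
        (list_md_mem _ (ih ht) fun s hs h => hs h.tail)

theorem nP_deg (l : List E) : ¬ l.IsChain (· ≠ ·) → nP l = 0 := by
  induction l using nP_ind with
  | h0 => exact fun h => absurd List.isChain_nil h
  | h1 a t ih =>
    intro hl
    rw [nP_cons, vunit_lc_zero fun s hs => ih s hs ((Finsupp.mem_supported ℤ _).1 (bd_deg _ hl) hs),
      Finsupp.mapDomain_zero]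

theorem nP_card (m : ℕ) : ∃ C : ℕ, ∀ (E : Type) (l : List E), l.length = m →
    (nP l).support.card ≤ C := by
  classical
  refine ⟨(nP (List.finRange m)).support.card, fun E l hl => ?_⟩
  subst hl
  conv_lhs => rw [← List.map_get_finRange l, nP_map]
  exact (Finset.card_le_card Finsupp.mapDomain_support).trans Finset.card_image_le

variable {G I : Type} [Group G] [Fintype I] {deg : I → ℤ} {c : Matrix I I (MonoidAlgebra ℤ G)}
  {e : Cell I G → ℤ}

theorem IsBack.nP {H : Subgroup G} {r : ℕ} {γ : List G → Cell I G →₀ ℤ}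
    (h : IsBack deg c e H r γ) : IsBack deg c e H r fun l => lc γ (nP l) where
  equiv a ha l := by
    rw [smul_list, nP_map]
    exact lc_equiv a (univPerm G _ a) γ (h.equiv a ha) _
  nil := by rw [nP_nil, list_lc_single, h.nil, smul_zero]
  aug a := by rw [nP_one, list_lc_single, one_smul, h.aug]
  chain l hl := by
    rw [univ_lc_map, univ_lc_congr fun s hs => h.chain s (by
      rw [(Finsupp.mem_supported ℤ _).1 (nP_len l) hs]
      exact hl), ← univ_lc_map, nP_bd, univ_lc_map]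
  grade l hl x hx := by
    have h1 : lc γ (Pool.Agent.Lib.MP_fd3021_gt.nP l) ∈
        Finsupp.supported ℤ ℤ {x : Cell I G | deg x.i + 1 = l.length} :=
      list_lc_mem _ _ (nP_len l) fun s hs => (Finsupp.mem_supported ℤ _).2 fun y hy => by
        have h2 : s.length = l.length := hs
        have h3 := h.grade s (by omega) y hy
        rw [h2] at h3
        exact h3
    exact (Finsupp.mem_supported ℤ _).1 h1 hx

theorem IsBack.mono {H H' : Subgroup G} (hH : H' ≤ H) {r : ℕ} {γ : List G → Cell I G →₀ ℤ}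
    (h : IsBack deg c e H r γ) : IsBack deg c e H' r γ :=
  ⟨fun a ha => h.equiv a (hH ha), h.nil, h.aug, h.chain, h.grade⟩

end Pool.Agent.Lib.MP_fd3021_gt

/-! The collapsing map for finitely many points of `Ω × G`. -/

namespace Pool.Agent.Lib.MP_fd3021_gt

open Finset

theorem exists_base (G Ω : Type) [Group G] [MulAction G Ω] :
    ∃ (β : Ω → Ω) (u : Ω → G), (∀ (g : G) ω, β (g • ω) = β ω) ∧ ∀ ω, u ω • β ω = ω := by
  obtain ⟨Y, pr, sec, q⟩ := exists_isQuot (G := G) (X := Ω) ⊤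
  have h : ∀ ω, ∃ u : G, u • sec (pr ω) = ω := fun ω => by
    obtain ⟨u, -, hu⟩ := (q.2 (sec (pr ω)) ω).1 (q.1 _)
    exact ⟨u, hu⟩
  choose u hu using h
  refine ⟨fun ω => sec (pr ω), u, fun g ω => ?_, hu⟩
  exact congrArg sec ((q.2 ω (g • ω)).2 ⟨g, trivial, rfl⟩).symm

theorem exists_tau2 {G Ω : Type} [Group G] [Group.ResiduallyFinite G] [MulAction G Ω]
    (hF : ∀ v : Ω, Folner (MulAction.stabilizer G v)) (V : Finset (Ω × G)) (A₀ : Finset G)
    (N₀ : FiniteIndexNormalSubgroup G) {δ : ℝ} (hδ : 0 < δ) :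
    ∃ (H : FiniteIndexNormalSubgroup G) (τ : Ω × G → G) (bad : Finset (QQ H)), H ≤ N₀ ∧
      Set.InjOn (mkQ H) A₀ ∧ (∀ h ∈ H.toSubgroup, ∀ a, τ (h • a) = h * τ a) ∧
      (bad.card : ℝ) ≤ δ * dg H ∧
      ∀ g, mkQ H g ∉ bad → ∀ a ∈ V, ∀ b ∈ V, a.1 = b.1 → τ (g • a) = τ (g • b) := by
  classical
  obtain ⟨β, u, hβ, hu⟩ := exists_base G Ω
  let ν : Ω × G → G := fun a => a.2 * u (a.2⁻¹ • a.1)
  have hν : ∀ (g : G) a, ν (g • a) = g * ν a := by
    intro g a
    simp only [ν, Prod.smul_fst, Prod.smul_snd, smul_eq_mul, mul_inv_rev, mul_smul, inv_smul_smul,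
      mul_assoc]
  have hνβ : ∀ a, ν a • β a.1 = a.1 := by
    intro a
    rw [← hβ a.2⁻¹ a.1, mul_smul, hu, smul_inv_smul]
  have hV : (0 : ℝ) ≤ V.card := Nat.cast_nonneg _
  have hε : 0 < δ / (V.card + 1) := div_pos hδ (by linarith)
  let A : Ω → Finset G := fun ω =>
    ((V ×ˢ V).image fun p => (ν p.1)⁻¹ * ν p.2).filter (· ∈ MulAction.stabilizer G ω)
  choose F U B hFn hBU hBc hFU hAU hB using fun ω =>
    folner_union (MulAction.stabilizer G ω) (hF ω) (A ω) (fun a ha => (mem_filter.1 ha).2) hε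
  obtain ⟨H, hH, hHN⟩ := ((eventually_inj (A₀ ∪ V.biUnion fun a => U (β a.1))).and
      (Filter.eventually_le_atBot N₀)).exists
  have hiU : ∀ a ∈ V, Set.InjOn (mkQ H) (U (β a.1)) := fun a ha =>
    hH.mono (coe_subset.2 fun x hx => mem_union_right _ (mem_biUnion.2 ⟨a, ha, hx⟩))
  let s : Finset ((Ω × G) × QQ H) := V ×ˢ univ
  let im : (Ω → Finset G) → (Ω × G) × QQ H → Finset (QQ H) := fun W i =>
    (W (β i.1.1)).image fun x => i.2 * mkQ H (ν i.1) * mkQ H x
  obtain ⟨o, ho, hoc⟩ := exists_order s (im U) (im B)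
    (fun i _ => image_subset_image (hBU _)) hε.le (by
      intro i hi
      have hinj : Set.InjOn (fun x => i.2 * mkQ H (ν i.1) * mkQ H x) (U (β i.1.1)) :=
        fun x hx y hy e => hiU _ (mem_product.1 hi).1 hx hy (mul_left_cancel e)
      simp only [im]
      rw [card_image_of_injOn hinj, card_image_of_injOn (hinj.mono (coe_subset.2 (hBU _)))]
      exact hBc _)
  choose t htF ht using fun (ω : Ω) (q : QQ H) =>
    exists_min_image (F ω) (fun x => o (q * mkQ H x)) (hFn ω)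
  let τ : Ω × G → G := fun a => ν a * t (β a.1) (mkQ H (ν a))
  have hτg : ∀ (g : G) (a : Ω × G), τ (g • a) = g * ν a * t (β a.1) (mkQ H (g * ν a)) := by
    intro g a
    simp only [τ, hν, Prod.smul_fst, hβ]
  set bt := s.filter fun i => ∃ x ∈ im B i, ∀ y ∈ im U i, o x ≤ o y with hbt
  refine ⟨H, τ, bt.image Prod.snd, hHN, hH.mono (coe_subset.2 subset_union_left), ?_, ?_, ?_⟩
  · intro h hh a
    rw [hτg, ← (mkQ_eq_iff H (ν a) (h * ν a)).2 ⟨h, hh, rfl⟩, mul_assoc]
  · have h1 : ((bt.image Prod.snd).card : ℝ) ≤ bt.card := by exact_mod_cast card_image_le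
    have h3 : (s.card : ℝ) = V.card * dg H := by
      simp only [s, card_product, card_univ, dg]
      push_cast
      rfl
    have h4 : (bt.card : ℝ) ≤ δ / (V.card + 1) * (V.card * dg H) := by
      rw [← h3]
      convert hoc
    have h5 : δ / (V.card + 1) * V.card ≤ δ := by
      rw [div_mul_eq_mul_div, div_le_iff₀ (by linarith)]
      nlinarith
    have h6 := mul_le_mul_of_nonneg_right h5 (dg_pos H).le
    rw [mul_assoc] at h6
    linarith
  · intro g hg a ha
    obtain ⟨x, hx, hmin⟩ := exists_min_image (U (β a.1))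
      (fun x => o (mkQ H g * mkQ H (ν a) * mkQ H x)) ((hFn _).mono (hFU _))
    have hxB : x ∉ B (β a.1) := by
      intro hxB
      refine hg (mem_image.2 ⟨(a, mkQ H g), mem_filter.2 ⟨mem_product.2 ⟨ha, mem_univ _⟩, _,
        mem_image.2 ⟨x, hxB, rfl⟩, ?_⟩, rfl⟩)
      intro y hy
      obtain ⟨y, hy', rfl⟩ := mem_image.1 hy
      exact hmin y hy'
    have key : ∀ b ∈ V, a.1 = b.1 → τ (g • b) = g * ν a * x := by
      intro b hb hab
      have hκ : (ν a)⁻¹ * ν b ∈ A (β a.1) := by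
        refine mem_filter.2 ⟨mem_image.2 ⟨(a, b), mem_product.2 ⟨ha, hb⟩, rfl⟩, ?_⟩
        rw [MulAction.mem_stabilizer_iff, mul_smul, inv_smul_eq_iff, hνβ, hab, hνβ]
      have e : mkQ H (g * ν b) = mkQ H g * mkQ H (ν a) * mkQ H ((ν a)⁻¹ * ν b) := by
        simp [mul_assoc]
      have h1 := ltau_min (mkQ H) ho (hiU a ha) hx hmin ((hB _ x hx hxB).2 _ hκ)
        (hAU _ _ hκ _ (htF _ (mkQ H (g * ν b)))) (by
          intro y hy
          have := ht (β a.1) (mkQ H (g * ν b)) y hy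
          rwa [← e])
      rw [hτg, ← h1, ← hab]
      simp [mul_assoc]
    intro b hb hab
    rw [key a ha rfl, key b hb hab]

end Pool.Agent.Lib.MP_fd3021_gt

/-! Invariant functions, the transfer, the prism operator. -/

namespace Pool.Agent.Lib.MP_fd3021_gt

open Finset

variable {G X B : Type} [Group G] [MulAction G X] [AddCommGroup B]

theorem isQuot_cov (H : Subgroup G) :
    IsQuot H (Quot.mk fun l l' : List X => ∃ h ∈ H, l' = l.map (h • ·)) Quot.out := by
  have hE : Equivalence fun l l' : List X => ∃ h ∈ H, l' = l.map (h • ·) := by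
    refine ⟨fun l => ⟨1, H.one_mem, by simp⟩, ?_, ?_⟩
    · rintro l l' ⟨h, hh, rfl⟩
      exact ⟨h⁻¹, H.inv_mem hh, by simp [Function.comp_def]⟩
    · rintro l l' l'' ⟨h, hh, rfl⟩ ⟨h', hh', rfl⟩
      exact ⟨h' * h, H.mul_mem hh' hh, by simp [Function.comp_def, mul_smul]⟩
  refine ⟨Quot.out_eq, fun l l' => ?_⟩
  rw [Quot.eq, hE.eqvGen_iff]
  exact exists_congr fun h => and_congr_right fun _ => eq_comm

theorem lc_cov {H : Subgroup G} (Φ : List X → B) (hΦ : ∀ h ∈ H, ∀ l, Φ (h • l) = Φ l)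
    {ξ : List X →₀ ℤ} (hξ : cov H ξ = 0) : lc Φ ξ = 0 := by
  have h1 : lc Φ ξ = lc (fun y => Φ (Quot.out y)) (cov H ξ) := by
    rw [cov, vcap_md]
    refine univ_lc_congr fun l _ => ?_
    obtain ⟨k, hk, hl⟩ := ((isQuot_cov H).2 l _).1 ((isQuot_cov H).1 _).symm
    rw [← hl, hΦ k hk]
  rw [h1, hξ, map_zero]

theorem md_eq_lc {Y Z : Type} (f : Y → Z) (ξ : Y →₀ ℤ) :
    ξ.mapDomain f = lc (fun x => Finsupp.single (f x) (1 : ℤ)) ξ := by
  induction ξ using Finsupp.induction_linear with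
  | zero => simp
  | add a b ha hb => rw [Finsupp.mapDomain_add, map_add, ha, hb]
  | single x k => rw [Finsupp.mapDomain_single, list_lc_single, Finsupp.smul_single_one]

/-- an invariant function composed with an equivariant operator is invariant -/
theorem inv_comp {Y : Type} [MulAction G Y] {h : G} (Φ : Y → B) (hΦ : ∀ y, Φ (h • y) = Φ y)
    (ξ : Y →₀ ℤ) : lc Φ (ξ.mapDomain (h • ·)) = lc Φ ξ := by
  rw [vcap_md]
  exact univ_lc_congr fun y _ => hΦ y

theorem bd_smul (a : G) (l : List X) : bd (a • l) = (bd l).mapDomain (a • ·) :=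
  bd_map _ l

theorem lc_sum {Y κ : Type} (s : Finset κ) (Φ : κ → Y → B) (ξ : Y →₀ ℤ) :
    lc (fun y => ∑ k ∈ s, Φ k y) ξ = ∑ k ∈ s, lc (Φ k) ξ := by
  simp only [Finsupp.linearCombination_apply, Finsupp.sum, Finset.smul_sum]
  exact Finset.sum_comm

theorem exists_transfer {H H0 : FiniteIndexNormalSubgroup G} (hle : H ≤ H0) :
    ∃ (Q : Finset (QQ H)) (sec : QQ H → G), (∀ q, mkQ H (sec q) = q) ∧
      (Q.card : ℝ) * dg H0 = dg H ∧ ∀ g, mkQ H g ∈ Q ↔ g ∈ H0.toSubgroup := by
  classical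
  choose sec hs using mkQ_surj H
  refine ⟨univ.filter fun a => a ∈ H0.toSubgroup.map (mkQ H), sec, hs, ?_, fun g => ?_⟩
  · rw [← desc_card_mul hle, Nat.card_eq_fintype_card, Fintype.card_subtype]
  · rw [mem_filter, Subgroup.mem_map]
    refine ⟨?_, fun hg => ⟨mem_univ _, g, hg, rfl⟩⟩
    rintro ⟨-, h, hh, e⟩
    obtain ⟨k, hk, rfl⟩ := (mkQ_eq_iff H h g).1 e
    exact H0.toSubgroup.mul_mem (hle hk) hh

theorem transfer_inv {H H0 : FiniteIndexNormalSubgroup G} {Q : Finset (QQ H)} {sec : QQ H → G}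
    (hs : ∀ q, mkQ H (sec q) = q) (hQ : ∀ g, mkQ H g ∈ Q ↔ g ∈ H0.toSubgroup) (Φ : X → B)
    (hΦ : ∀ h ∈ H.toSubgroup, ∀ x, Φ (h • x) = Φ x) {h : G} (hh : h ∈ H0.toSubgroup) (x : X) :
    ∑ q ∈ Q, Φ (sec q • h • x) = ∑ q ∈ Q, Φ (sec q • x) := by
  refine Finset.sum_equiv (Equiv.mulRight (mkQ H h)) (fun q => ?_) fun q _ => ?_
  · obtain ⟨g, rfl⟩ := mkQ_surj H q
    change _ ↔ mkQ H g * mkQ H h ∈ Q
    rw [← map_mul, hQ, hQ]
    exact (H0.toSubgroup.mul_mem_cancel_right hh).symm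
  · obtain ⟨k, hk, e⟩ := (mkQ_eq_iff H (sec q * h) (sec (q * mkQ H h))).1
      (by rw [map_mul, hs, hs])
    change _ = Φ (sec (q * mkQ H h) • x)
    rw [← e, mul_smul, hΦ k hk, mul_smul]

theorem transfer_cell {I : Type} {H H0 : FiniteIndexNormalSubgroup G} {Q : Finset (QQ H)}
    {sec : QQ H → G} (hs : ∀ q, mkQ H (sec q) = q) (hQ : ∀ g, mkQ H g ∈ Q ↔ g ∈ H0.toSubgroup)
    (ξ : Cell I G →₀ ℤ) (x : Cell I G) :
    ∑ q ∈ Q, ((ξ.mapDomain (sec q • ·)).mapDomain fun x : Cell I G => (x.i, mkQ H x.g))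
      (x.i, mkQ H x.g) = (ξ.mapDomain fun x : Cell I G => (x.i, mkQ H0 x.g)) (x.i, mkQ H0 x.g) := by
  classical
  simp only [← Finsupp.mapDomain_comp, vav_md]
  rw [← lc_sum]
  refine univ_lc_congr fun y _ => ?_
  simp only [Function.comp_apply, smul_cell, Finsupp.single_apply, Prod.mk.injEq, map_mul, hs]
  by_cases hi : y.i = x.i
  · simp only [hi, true_and]
    have e1 : ∀ q : QQ H, q * mkQ H y.g = mkQ H x.g ↔ q = mkQ H (x.g * y.g⁻¹) := fun q => by
      rw [map_mul, map_inv, eq_mul_inv_iff_mul_eq]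
    simp only [e1, Finset.sum_ite_eq', hQ]
    refine if_congr ?_ rfl rfl
    rw [mkQ_eq_iff]
    constructor
    · intro h
      exact ⟨_, h, by simp⟩
    · rintro ⟨k, hk, e⟩
      rw [← e]
      simpa using hk
  · simp [hi]

theorem list_prism_smul (h : G) (φ : X → X) (hφ : ∀ a, φ (h • a) = h • φ a) (l : List X) :
    list_prism φ (h • l) = (list_prism φ l).mapDomain (h • ·) := by
  induction l with
  | nil => rw [smul_list, List.map_nil, list_prism, Finsupp.mapDomain_zero]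
  | cons a l ih =>
    have e1 : h • (a :: l) = (h • a) :: (h • l) := rfl
    have e2 : (h • l).map φ = h • l.map φ := by
      rw [smul_list, smul_list, List.map_map, List.map_map]
      exact List.map_congr_left fun b _ => hφ b
    rw [e1, list_prism, list_prism, list_md_sub, Finsupp.mapDomain_single, ih, hφ, e2,
      ← Finsupp.mapDomain_comp, ← Finsupp.mapDomain_comp]
    rfl

omit [Group G] [MulAction G X] in
theorem list_prism_len (φ : X → X) (l : List X) : list_prism φ l ∈ lists X (l.length + 1) :=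
  Finsupp.supported_mono (fun _ h => h.1) (list_prism_mem (fun _ => ()) φ (fun _ => rfl) l)

/-- representatives with a normalised `Ω`-part -/
theorem exists_normal {Ω : Type} [MulAction G Ω] (H : Subgroup G) {p : ℕ}
    (z : List (Ω × G) →₀ ℤ) (hz : z ∈ lists (Ω × G) p) :
    ∃ z1 ∈ lists (Ω × G) p, (∀ (B : Type) [AddCommGroup B] (Φ : List (Ω × G) → B),
      (∀ h ∈ H, ∀ l, Φ (h • l) = Φ l) → lc Φ z1 = lc Φ z) ∧
      z1.mapDomain (List.map Prod.fst) =
        (cov H (z.mapDomain (List.map Prod.fst))).mapDomain Quot.out := by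
  have h1 := fun l : List (Ω × G) =>
    ((isQuot_cov H).2 (l.map Prod.fst) _).1 ((isQuot_cov H).1 _).symm
  choose k hk hkl using h1
  refine ⟨z.mapDomain fun l => k l • l, list_md_mem _ hz fun l hl => ?_, fun B _ Φ hΦ => ?_, ?_⟩
  · change (k l • l).length = p
    rw [smul_list, List.length_map]
    exact hl
  · rw [vcap_md]
    exact univ_lc_congr fun l _ => hΦ _ (hk l) l
  · rw [cov, ← Finsupp.mapDomain_comp, ← Finsupp.mapDomain_comp, ← Finsupp.mapDomain_comp]
    refine Finsupp.mapDomain_congr fun l _ => ?_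
    simp only [Function.comp_apply]
    rw [← hkl l, smul_list, smul_list, List.map_map, List.map_map]
    rfl

end Pool.Agent.Lib.MP_fd3021_gt

/-! The collapsed transfer of a relative cycle. -/

namespace Pool.Agent.Lib.MP_fd3021_gt

open Finset

variable {G Ω : Type} [Group G] [MulAction G Ω]

theorem tau_map {H : Subgroup G} {τ : Ω × G → G} (hτ : ∀ h ∈ H, ∀ a, τ (h • a) = h * τ a)
    {h : G} (hh : h ∈ H) (l : List (Ω × G)) : (h • l).map τ = h • l.map τ := by
  rw [smul_list, smul_list, List.map_map, List.map_map]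
  exact List.map_congr_left fun a _ => hτ h hh a

/-- homological properties of the collapsed transfer -/
theorem am_homology {H H0 : FiniteIndexNormalSubgroup G} {Q : Finset (QQ H)} {sec : QQ H → G}
    (hs : ∀ q, mkQ H (sec q) = q) (hQ : ∀ g, mkQ H g ∈ Q ↔ g ∈ H0.toSubgroup) {n : ℕ}
    {z z1 : List (Ω × G) →₀ ℤ} (hz1 : z1 ∈ lists (Ω × G) (n + 1))
    (hc : cov H0.toSubgroup (lc bd z) = 0)
    (hinv : ∀ (B : Type) [AddCommGroup B] (Φ : List (Ω × G) → B),
      (∀ h ∈ H0.toSubgroup, ∀ l, Φ (h • l) = Φ l) → lc Φ z1 = lc Φ z)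
    {τ : Ω × G → G} (hτ : ∀ h ∈ H.toSubgroup, ∀ a, τ (h • a) = h * τ a)
    (B : Type) [AddCommGroup B] (Γ : List G → B) (hΓ : ∀ h ∈ H.toSubgroup, ∀ l, Γ (h • l) = Γ l) :
    lc Γ (lc bd (∑ q ∈ Q, z1.mapDomain fun l => (sec q • l).map τ)) = 0 ∧
      ((∀ l, l.length = n + 2 → lc Γ (bd l) = 0) →
        lc Γ (∑ q ∈ Q, z1.mapDomain fun l => (sec q • l).map τ) =
          ∑ q ∈ Q, lc (fun l => Γ (sec q • l)) (z.mapDomain (List.map Prod.snd))) := by
  obtain ⟨ζ, hζ⟩ : ∃ ζ, ζ = ∑ q ∈ Q, z1.mapDomain (sec q • ·) := ⟨_, rfl⟩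
  have e0 : (∑ q ∈ Q, z1.mapDomain fun l => (sec q • l).map τ) = ζ.mapDomain (List.map τ) := by
    rw [hζ, list_md_sum]
    exact Finset.sum_congr rfl fun q _ => by rw [← Finsupp.mapDomain_comp]; rfl
  have h1 : ∀ Φ : List (Ω × G) → B, (∀ h ∈ H.toSubgroup, ∀ l, Φ (h • l) = Φ l) →
      lc Φ ζ = lc (fun l => ∑ q ∈ Q, Φ (sec q • l)) z := by
    intro Φ hΦ
    rw [← hinv B _ fun h hh l => transfer_inv hs hQ Φ hΦ hh l, hζ, map_sum, lc_sum]
    exact Finset.sum_congr rfl fun q _ => vcap_md _ _ _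
  have h2 : ∀ Φ : List (Ω × G) → B, (∀ h ∈ H.toSubgroup, ∀ l, Φ (h • l) = Φ l) →
      lc Φ (lc bd ζ) = 0 := by
    intro Φ hΦ
    rw [univ_lc_map, h1 _ fun h hh l => by rw [bd_smul, inv_comp Φ (hΦ h hh)],
      ← lc_cov (fun l => ∑ q ∈ Q, Φ (sec q • l)) (fun h hh l => transfer_inv hs hQ Φ hΦ hh l) hc,
      univ_lc_map]
    refine univ_lc_congr fun l _ => ?_
    rw [lc_sum]
    exact Finset.sum_congr rfl fun q _ => by rw [bd_smul, vcap_md]
  have hlen : ζ ∈ lists (Ω × G) (n + 1) := by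
    rw [hζ]
    refine Submodule.sum_mem _ fun q _ => list_md_mem _ hz1 fun l hl => ?_
    change (sec q • l).length = n + 1
    rw [smul_list, List.length_map]
    exact hl
  rw [e0]
  refine ⟨?_, fun hb => ?_⟩
  · rw [lc_bd_map, vcap_md]
    exact h2 _ fun h hh l => by rw [tau_map hτ hh, hΓ h hh]
  · have hsnd : ∀ (g : G) (l : List (Ω × G)), (g • l).map Prod.snd = g • l.map Prod.snd := by
      intro g l
      rw [smul_list, smul_list, List.map_map, List.map_map]
      rfl
    have hΓ2 : ∀ h ∈ H.toSubgroup, ∀ l : List (Ω × G),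
        Γ ((h • l).map Prod.snd) = Γ (l.map Prod.snd) := fun h hh l => by rw [hsnd, hΓ h hh]
    have k := congrArg (lc fun l : List (Ω × G) => Γ (l.map Prod.snd))
      (list_prism_lc (fun a : Ω × G => (a.1, τ a)) ζ)
    have k1 : lc (fun l : List (Ω × G) => Γ (l.map Prod.snd))
        (lc bd (lc (list_prism fun a : Ω × G => (a.1, τ a)) ζ)) = 0 := by
      have h3 : lc (list_prism fun a : Ω × G => (a.1, τ a)) ζ ∈ lists (Ω × G) (n + 2) :=
        list_lc_mem _ _ hlen fun l hl => by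
          have h4 := list_prism_len (fun a : Ω × G => (a.1, τ a)) l
          rwa [show l.length = n + 1 from hl] at h4
      rw [univ_lc_map]
      refine vunit_lc_zero fun l hl => ?_
      rw [← vcap_md Γ, ← bd_map]
      exact hb _ (by rw [List.length_map]; exact (Finsupp.mem_supported ℤ _).1 h3 hl)
    have k2 : lc (fun l : List (Ω × G) => Γ (l.map Prod.snd))
        (lc (list_prism fun a : Ω × G => (a.1, τ a)) (lc bd ζ)) = 0 := by
      rw [univ_lc_map]
      refine h2 _ fun h hh l => ?_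
      rw [list_prism_smul h (fun a : Ω × G => (a.1, τ a)) fun a => Prod.ext rfl (hτ h hh a),
        inv_comp _ (hΓ2 h hh)]
    rw [map_add, k1, k2, add_zero, map_sub, eq_comm, sub_eq_zero, h1 _ hΓ2, vcap_md, lc_sum] at k
    rw [vcap_md]
    refine Eq.trans (univ_lc_congr fun l _ => ?_) (k.trans (Finset.sum_congr rfl fun q _ => ?_))
    · rw [List.map_map]
      rfl
    · rw [vcap_md]
      exact univ_lc_congr fun l _ => by rw [hsnd]

theorem am_cycle [Group.ResiduallyFinite G]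
    (hF : ∀ v : Ω, Folner (MulAction.stabilizer G v)) (H0 : FiniteIndexNormalSubgroup G) (n : ℕ)
    (z : List (Ω × G) →₀ ℤ) (hz : z ∈ lists (Ω × G) (n + 1))
    (hc : cov H0.toSubgroup (lc bd z) = 0) {ε δ : ℝ} (hδ : 0 < δ)
    (hε : ({s | s ∈ (cov H0.toSubgroup (z.mapDomain (List.map Prod.fst))).support ∧
      s.out.IsChain (· ≠ ·) ∧ {g : G | ∀ v ∈ s.out, g • v = v}.Finite}.ncard : ℝ) ≤ ε * dg H0) :
    ∃ (H : FiniteIndexNormalSubgroup G) (Q : Finset (QQ H)) (sec : QQ H → G) (ξ : List G →₀ ℤ)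
      (W : Finset (List G)), H ≤ H0 ∧ (∀ q, mkQ H (sec q) = q) ∧
      (∀ g, mkQ H g ∈ Q ↔ g ∈ H0.toSubgroup) ∧ ξ ∈ lists G (n + 1) ∧
      (∀ (B : Type) [AddCommGroup B] (Γ : List G → B),
        (∀ h ∈ H.toSubgroup, ∀ l, Γ (h • l) = Γ l) → lc Γ (lc bd ξ) = 0 ∧
        ((∀ l, l.length = n + 2 → lc Γ (bd l) = 0) → lc Γ ξ =
          ∑ q ∈ Q, lc (fun l => Γ (sec q • l)) (z.mapDomain (List.map Prod.snd)))) ∧
      (W.card : ℝ) ≤ (ε + δ) * dg H ∧
      ∀ t ∈ ξ.support, t.IsChain (· ≠ ·) → ∃ h ∈ H.toSubgroup, ∃ r ∈ W, t = h • r := by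
  classical
  obtain ⟨z1, hz1, hinv, hy⟩ := exists_normal H0.toSubgroup z hz
  set y := cov H0.toSubgroup (z.mapDomain (List.map Prod.fst)) with hydef
  set Λ := z1.support with hΛ
  obtain ⟨k0, hk0⟩ := exists_nat_gt (2 * (Λ.card : ℝ) / δ)
  have hk0' : (0 : ℝ) < k0 := lt_of_le_of_lt (by positivity) hk0
  have hKe : ∀ l : List (Ω × G), ∃ K : Finset G, (∀ k ∈ K, ∀ a ∈ l, k • a.1 = a.1) ∧
      ({g : G | ∀ v ∈ l.map Prod.fst, g • v = v}.Infinite → K.card = k0) := by
    intro l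
    by_cases hl : {g : G | ∀ v ∈ l.map Prod.fst, g • v = v}.Infinite
    · obtain ⟨K, h1, h2⟩ := hl.exists_subset_card_eq k0
      exact ⟨K, fun k hk a ha => h1 hk _ (List.mem_map_of_mem ha), fun _ => h2⟩
    · exact ⟨∅, fun k hk => absurd hk (notMem_empty k), fun h => absurd h hl⟩
  choose K hK hKc using hKe
  let V : Finset (Ω × G) :=
    Λ.biUnion fun l => l.toFinset ∪ (K l ×ˢ l.toFinset).image fun p => p.1 • p.2
  have hV1 : ∀ l ∈ Λ, ∀ a ∈ l, a ∈ V := fun l hl a ha =>
    mem_biUnion.2 ⟨l, hl, mem_union_left _ (List.mem_toFinset.2 ha)⟩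
  have hV2 : ∀ l ∈ Λ, ∀ a ∈ l, ∀ k ∈ K l, k • a ∈ V := fun l hl a ha k hk =>
    mem_biUnion.2 ⟨l, hl, mem_union_right _
      (mem_image.2 ⟨(k, a), mem_product.2 ⟨hk, List.mem_toFinset.2 ha⟩, rfl⟩)⟩
  have hδ' : 0 < δ / (2 * (2 * (Λ.card : ℝ) + 1)) := by positivity
  obtain ⟨H, τ, bad, hle, hiK, hτ, hbad, hgood⟩ := exists_tau2 hF V (Λ.biUnion K) H0 hδ'
  obtain ⟨Q, sec, hs, hQc, hQ⟩ := exists_transfer hle
  have hR : ∀ l, ∃ R : Finset (List G), (R.card : ℝ) ≤ dg H / k0 + bad.card ∧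
      (l ∈ Λ → {g : G | ∀ v ∈ l.map Prod.fst, g • v = v}.Infinite →
        ∀ g : G, ∃ h ∈ H.toSubgroup, ∃ r ∈ R, (g • l).map τ = h • r) := by
    intro l
    by_cases hl : l ∈ Λ ∧ {g : G | ∀ v ∈ l.map Prod.fst, g • v = v}.Infinite
    swap
    · refine ⟨∅, ?_, fun h1 h2 => absurd ⟨h1, h2⟩ hl⟩
      have := dg_pos H
      rw [card_empty, Nat.cast_zero]
      positivity
    have hne : (K l).Nonempty := card_pos.1 (by rw [hKc l hl.2]; exact_mod_cast hk0')
    have := ltau_reps H τ hτ l (K l) hne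
      (hiK.mono (coe_subset.2 (subset_biUnion_of_mem K hl.1))) bad (by
      intro g hg k hk k' hk'
      rw [smul_list, smul_list, List.map_map, List.map_map]
      refine List.map_congr_left fun a ha => ?_
      simp only [Function.comp_apply, mul_smul]
      exact hgood g hg _ (hV2 l hl.1 a ha k hk) _ (hV2 l hl.1 a ha k' hk')
        ((hK l k hk a ha).trans (hK l k' hk' a ha).symm))
    rw [hKc l hl.2] at this
    exact this.imp fun R hR => ⟨hR.1, fun _ _ => hR.2⟩
  choose R hRc hRr using hR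
  have hL : ∀ s, ∃ l : List (Ω × G), s ∈ y.support → l ∈ Λ ∧ l.map Prod.fst = s.out := by
    intro s
    by_cases hs' : s ∈ y.support
    · have h1 : s.out ∈ (z1.mapDomain (List.map Prod.fst)).support := by
        rw [hy, Finsupp.mem_support_iff, Finsupp.mapDomain_apply
          (Function.LeftInverse.injective Quot.out_eq)]
        exact Finsupp.mem_support_iff.1 hs'
      obtain ⟨l, hl, e⟩ := lcheap_mem_map h1
      exact ⟨l, fun _ => ⟨hl, e⟩⟩
    · exact ⟨[], fun h => absurd h hs'⟩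
  choose L hL using hL
  let S := y.support.filter fun s =>
    s.out.IsChain (· ≠ ·) ∧ {g : G | ∀ v ∈ s.out, g • v = v}.Finite
  have hS : (S.card : ℝ) ≤ ε * dg H0 := by
    rw [← Set.ncard_coe_finset]
    convert hε using 3
    ext s
    simp only [S, coe_filter, Set.mem_ofPred_eq]
  refine ⟨H, Q, sec, ∑ q ∈ Q, z1.mapDomain fun l => (sec q • l).map τ,
    (Q ×ˢ S).image (fun p => (sec p.1 • L p.2).map τ) ∪
      ((bad ×ˢ Λ).image (fun p => (sec p.1 • p.2).map τ) ∪ Λ.biUnion R), hle, hs, hQ,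
    Submodule.sum_mem _ fun q _ => list_md_mem _ hz1 fun l hl => ?_,
    fun B _ Γ hΓ => am_homology hs hQ hz1 hc hinv hτ B Γ hΓ, ?_, fun t ht hch => ?_⟩
  · change ((sec q • l).map τ).length = n + 1
    rw [smul_list, List.length_map, List.length_map]
    exact hl
  · have c1 : (((Q ×ˢ S).image fun p => (sec p.1 • L p.2).map τ).card : ℝ) ≤ ε * dg H := by
      have h1 : (((Q ×ˢ S).image fun p => (sec p.1 • L p.2).map τ).card : ℝ) ≤
          Q.card * S.card := by
        exact_mod_cast card_image_le.trans (card_product Q S).le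
      refine h1.trans ((mul_le_mul_of_nonneg_left hS (Nat.cast_nonneg _)).trans (le_of_eq ?_))
      rw [← hQc]
      ring
    have c2 : (((bad ×ˢ Λ).image fun p => (sec p.1 • p.2).map τ).card : ℝ) ≤
        bad.card * Λ.card := by
      exact_mod_cast card_image_le.trans (card_product bad Λ).le
    have c3 : ((Λ.biUnion R).card : ℝ) ≤ Λ.card * (dg H / k0 + bad.card) := by
      have h1 : ((Λ.biUnion R).card : ℝ) ≤ ∑ l ∈ Λ, ((R l).card : ℝ) := by
        exact_mod_cast card_biUnion_le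
      refine h1.trans ((sum_le_sum fun l _ => hRc l).trans (le_of_eq ?_))
      rw [sum_const, nsmul_eq_mul]
    have c4 : (((bad ×ˢ Λ).image (fun p => (sec p.1 • p.2).map τ) ∪ Λ.biUnion R).card : ℝ) ≤
        δ * dg H := by
      have h1 : (((bad ×ˢ Λ).image (fun p => (sec p.1 • p.2).map τ) ∪ Λ.biUnion R).card : ℝ) ≤
          ((bad ×ˢ Λ).image fun p => (sec p.1 • p.2).map τ).card + (Λ.biUnion R).card := by
        exact_mod_cast card_union_le _ _
      refine ltau_arith (b := 2 * Λ.card * bad.card) (S := 2 * Λ.card) hδ hk0' hk0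
        (by positivity) (dg_pos H) (by nlinarith) ?_
      refine (mul_le_mul_of_nonneg_left hbad (by positivity)).trans (le_of_eq ?_)
      ring
    have c5 := (Nat.cast_le (α := ℝ)).2 (card_union_le
      ((Q ×ˢ S).image fun p => (sec p.1 • L p.2).map τ)
      ((bad ×ˢ Λ).image (fun p => (sec p.1 • p.2).map τ) ∪ Λ.biUnion R))
    push_cast at c5
    linarith
  · obtain ⟨q, hq, ht'⟩ := mem_biUnion.1 (Finsupp.support_finsetSum ht)
    by_cases hb : q ∈ bad
    · obtain ⟨l, hl, e⟩ := lcheap_mem_map ht'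
      exact ⟨1, one_mem _, t, mem_union_right _ (mem_union_left _
        (mem_image.2 ⟨(q, l), mem_product.2 ⟨hb, hl⟩, e⟩)), (one_smul _ _).symm⟩
    let θ : Ω → G := fun v => if h : ∃ a ∈ V, a.1 = v then τ (sec q • h.choose) else 1
    have hθ : ∀ a ∈ V, θ a.1 = τ (sec q • a) := by
      intro a ha
      have h1 : ∃ b ∈ V, b.1 = a.1 := ⟨a, ha, rfl⟩
      simp only [θ, dif_pos h1]
      exact hgood _ (by rwa [hs]) _ h1.choose_spec.1 _ ha h1.choose_spec.2
    have hθl : ∀ l ∈ Λ, (sec q • l).map τ = (l.map Prod.fst).map θ := by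
      intro l hl
      rw [smul_list, List.map_map, List.map_map]
      exact List.map_congr_left fun a ha => (hθ a (hV1 l hl a ha)).symm
    have e1 : (z1.mapDomain fun l => (sec q • l).map τ) =
        (y.mapDomain Quot.out).mapDomain (List.map θ) := by
      rw [← hy, ← Finsupp.mapDomain_comp]
      exact Finsupp.mapDomain_congr hθl
    rw [e1, ← Finsupp.mapDomain_comp] at ht'
    obtain ⟨s, hs', e⟩ := lcheap_mem_map ht'
    obtain ⟨hl1, hl2⟩ := hL s hs'
    have e2 : (sec q • L s).map τ = t := by rw [hθl _ hl1, hl2]; exact e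
    by_cases hfin : {g : G | ∀ v ∈ s.out, g • v = v}.Finite
    · have hch' : s.out.IsChain (· ≠ ·) := by
        rw [← e, Function.comp_apply, List.isChain_map] at hch
        exact hch.imp fun _ _ h1 h2 => h1 (congrArg θ h2)
      exact ⟨1, one_mem _, t, mem_union_left _ (mem_image.2 ⟨(q, s), mem_product.2
        ⟨hq, mem_filter.2 ⟨hs', hch', hfin⟩⟩, e2⟩), (one_smul _ _).symm⟩
    · obtain ⟨h, hh, r, hr, e3⟩ := hRr _ hl1 (by rw [hl2]; exact hfin) (sec q)
      exact ⟨h, hh, r, mem_union_right _ (mem_union_right _ (mem_biUnion.2 ⟨_, hl1, hr⟩)),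
        e2.symm.trans e3⟩

end Pool.Agent.Lib.MP_fd3021_gt

/-! Relative small cycles: assembly. -/

namespace Pool.Agent.Lib.MP_fd3021_gt

open Matrix Filter MeasureTheory

variable {G I : Type} [Group G] [Fintype I] [DecidableEq I]
  {deg : I → ℤ} {c : Matrix I I (MonoidAlgebra ℤ G)}

theorem am_main [Group.ResiduallyFinite G] (n : ℕ) (hn : 1 ≤ n) (h : IsRes deg c)
    (h' : IsRes (fun i => n - deg i) (adj c)) (hS : AmSmall G n) {δ : ℝ} (hδ : 0 < δ) :
    ∃ M : ℝ, ∀ᶠ N : FiniteIndexNormalSubgroup G in atBot,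
      SmallT (rep N c)ᵀ (n + 1 : ℕ) δ M (dg N) := by
  classical
  obtain ⟨e, w, hr⟩ := h.resC
  obtain ⟨e', w', hr'⟩ := h'.resC
  have hd : ∀ i, deg i ≤ n := fun i => by have := h'.1 i; simp only at this; omega
  obtain ⟨C, hC⟩ := nP_card (n + 1)
  obtain ⟨Ω, _, hF, hS⟩ := hS
  have hε : 0 < δ / (2 ^ (n + 1) * (C + 1) * 2) := by positivity
  obtain ⟨H₀, hle, hN, hI, z, hz, hzc, hzg, hcard⟩ := hS _ hε (w.ker ⊓ w'.ker) inferInstance
  let H0 : FiniteIndexNormalSubgroup G := ⟨H₀, hN, hI⟩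
  have hH0 : ∀ g ∈ H0.toSubgroup, w g = 1 := fun g hg => (hle hg).1
  have hH0' : ∀ g ∈ H0.toSubgroup, w' g = 1 := fun g hg => (hle hg).2
  obtain ⟨γ, hγ⟩ := exists_back hr' H0.toSubgroup hH0' (n + 2) (by omega)
  choose sec0 hsec0 using mkQ_surj H0
  obtain ⟨F0, hF0, -⟩ := exists_cap (c := c) H0.toSubgroup n (deg := deg) (fun i => by ring)
    h.1 h'.1 dC_adj hr.deg_d (by omega) hγ.nP _ hzg.1 hzg.2.1 (isQuot_cell H0 sec0 hsec0)
  obtain ⟨k, hk⟩ := hF0.multiple hr
  have hkk : k * k = 1 := fund_unit n hn hr hr' H0 hH0 hH0' hγ.nP _ hzg k hk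
  obtain ⟨H, Q, sec, ξ, W0, hHle, hs, hQ, hξ, hΓ, hW0, hWs⟩ :=
    am_cycle hF H0 n z hz hzc hε (by rw [dg_eq]; exact hcard)
  have hle' : H.toSubgroup ≤ H0.toSubgroup := fun _ hg => hHle hg
  have hH : ∀ g ∈ H.toSubgroup, w g = 1 := fun g hg => hH0 g (hle' hg)
  have hnP : ∀ (a : G) (l : List G), nP (a • l) = (nP l).mapDomain (a • ·) := fun a l =>
    nP_map _ l
  have hz' : lc nP ξ ∈ lists G (n + 1) := list_lc_mem _ _ hξ fun l hl => by
    have h1 := nP_len l
    rwa [show l.length = n + 1 from hl] at h1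
  have hz'c : co H.toSubgroup (lc bd (lc nP ξ)) = 0 := by
    have h1 : lc bd (lc nP ξ) = lc nP (lc bd ξ) := by
      rw [univ_lc_map, univ_lc_map (lc nP)]
      exact univ_lc_congr fun l _ => nP_bd l
    rw [h1, co, lcheap_lc_map]
    refine (hΓ _ _ fun a ha l => ?_).1
    rw [hnP, ← Finsupp.mapDomain_comp]
    exact Finsupp.mapDomain_congr fun t _ => ((isQuot_co H.toSubgroup).2 _ _).2 ⟨a⁻¹,
      H.toSubgroup.inv_mem ha, inv_smul_smul a t⟩
  have hu : ∀ x : Cell I G, ((lc γ (lc nP ξ)).mapDomain fun x : Cell I G => (x.i, mkQ H x.g))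
      (x.i, mkQ H x.g) = k * e x := by
    intro x
    have h1 := (hΓ _ (fun l => (lc γ (nP l)).mapDomain fun x : Cell I G => (x.i, mkQ H x.g))
      fun a ha l => by
        rw [hγ.nP.equiv a (hle' ha), ← Finsupp.mapDomain_comp]
        exact Finsupp.mapDomain_congr fun t _ => ((isQuot_cell H sec hs).2 _ _).2 ⟨a⁻¹,
          H.toSubgroup.inv_mem ha, inv_smul_smul a t⟩).2 fun l hl => by
        have h5 : lc γ (nP l) = 0 := by
          ext x
          by_contra hc
          have h6 := hγ.nP.grade l hl.le x (Finsupp.mem_support_iff.2 hc)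
          have h7 := h.1 x.i
          omega
        rw [← lcheap_lc_map, ← hγ.nP.chain l hl.le, h5, map_zero, Finsupp.mapDomain_zero]
    rw [univ_lc_map, lcheap_lc_map, h1, ← hk x, ← transfer_cell hs hQ, Finsupp.finsetSum_apply]
    refine Finset.sum_congr rfl fun q hq => ?_
    have hq' : sec q ∈ H0.toSubgroup := (hQ _).1 (by rwa [hs])
    rw [lcheap_lc_map, lcheap_lc_map]
    exact DFunLike.congr_fun (univ_lc_congr fun l _ => by rw [hγ.nP.equiv _ hq']) _
  obtain ⟨F, hF, hFs⟩ := exists_cap (c := c) H.toSubgroup n (deg := deg) (fun i => by ring)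
    h.1 h'.1 dC_adj hr.deg_d (by omega) (hγ.mono hle') _ hz' hz'c (isQuot_cell H sec hs)
  have hf : IsForth deg c e H.toSubgroup fun x => k • F x :=
    hF.smul k fun x => by rw [hu, ← mul_assoc, hkk, one_mul]
  obtain ⟨g, hg⟩ := exists_back hr H.toSubgroup hH (n + 1) (by omega)
  obtain ⟨s, hs1, -, hs2⟩ := exists_htpy hr H.toSubgroup hH n hd le_rfl hg hf
  let W := (W0.filter fun r => r.length = n + 1).biUnion fun r => (nP r).support
  have hW : ∀ t ∈ (lc nP ξ).support, ∃ a ∈ H.toSubgroup, ∃ r ∈ W, t = a • r := by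
    have h1 : lc nP ξ ∈ Finsupp.supported ℤ ℤ {t | ∃ a ∈ H.toSubgroup, ∃ r ∈ W, t = a • r} := by
      refine list_lc_mem _ _ (Finsupp.mem_supported_support ℤ ξ) fun l hl => ?_
      by_cases hch : l.IsChain (· ≠ ·)
      · obtain ⟨a, ha, r, hr, rfl⟩ := hWs l hl hch
        have h2 : (a • r).length = n + 1 := (Finsupp.mem_supported ℤ ξ).1 hξ hl
        rw [vav_len] at h2
        rw [hnP]
        exact list_md_mem _ (Finsupp.mem_supported_support ℤ _) fun t ht =>
          ⟨a, ha, t, Finset.mem_biUnion.2 ⟨r, Finset.mem_filter.2 ⟨hr, h2⟩, ht⟩, rfl⟩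
      · rw [nP_deg l hch]
        exact Submodule.zero_mem _
    exact fun t ht => (Finsupp.mem_supported ℤ _).1 h1 ht
  obtain ⟨R, hR0, hR1, hR2, hR3⟩ := exists_faces W (n + 1) fun l hl => by
    obtain ⟨r, hr, hl'⟩ := Finset.mem_biUnion.1 hl
    rw [← (Finset.mem_filter.1 hr).2]
    exact (Finsupp.mem_supported ℤ _).1 (nP_len r) hl'
  have hR : (R.card : ℝ) ≤ δ * dg H := by
    have h1 : (R.card : ℝ) ≤ 2 ^ (n + 1) * W.card := by exact_mod_cast hR0
    have h2 : W.card ≤ W0.card * (C + 1) :=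
      (Finset.card_biUnion_le_card_mul _ _ _ fun r hr =>
        (hC G r (Finset.mem_filter.1 hr).2).trans (Nat.le_succ C)).trans
        (Nat.mul_le_mul_right _ (Finset.card_filter_le _ _))
    have h3 : (W.card : ℝ) ≤ W0.card * (C + 1) := by exact_mod_cast h2
    refine h1.trans ((mul_le_mul_of_nonneg_left (h3.trans
      (mul_le_mul_of_nonneg_right hW0 (by positivity))) (by positivity)).trans (le_of_eq ?_))
    field_simp
    ring
  obtain ⟨M, hM⟩ := smallT_of_univ H h.1 hr.d_smul hf hg hs1 hs2 R hR hR1 hR2 fun x l hl => by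
    have hl' := Finsupp.support_smul hl
    obtain ⟨a, ha, t, ht, p, rfl⟩ := hFs x l hl'
    obtain ⟨b, hb, r, hr, rfl⟩ := hW t ht
    refine ⟨a * b, H.toSubgroup.mul_mem ha hb, _, hR3 r hr p fun h0 => ?_,
      by rw [vav_drop, mul_smul]⟩
    have h1 := hF.grade x _ hl'
    have h2 := h.1 x.i
    rw [vav_drop, h0, smul_list, smul_list] at h1
    simp only [List.map_nil, List.length_nil, Nat.cast_zero] at h1
    omega
  exact ⟨M, (eventually_le_atBot H).mono hM⟩

theorem am_vanishing [Group.ResiduallyFinite G] (n : ℕ) (hn : 1 ≤ n) (h : IsRes deg c)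
    (h' : IsRes (fun i => n - deg i) (adj c)) (hS : AmSmall G n) :
    DetAcyclic deg c ∧ rho deg c = 0 := by
  have hg := h.2.1
  have b2 : ∀ (N : FiniteIndexNormalSubgroup G) (p : ℤ) (a : {i // deg i = p} × QQ N) y,
      (rep N c)ᵀ (a.1.1, a.2) y ≠ 0 →
      y ∈ Set.range fun x : {i // deg i = p + 1} × QQ N => (x.1.1, x.2) := fun N p a y hy => by
    have h1 : deg y.1 = deg a.1.1 + 1 :=
      hg _ _ (rep_ne_zero N c (x := y) (y := (a.1.1, a.2)) hy)
    exact ⟨(⟨y.1, by have := a.1.2; omega⟩, y.2), rfl⟩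
  have b0 : ∀ (N : FiniteIndexNormalSubgroup G) (p : ℤ) (a : {i // deg i = p + 1} × QQ N) y,
      (rep N c)ᵀ y (a.1.1, a.2) ≠ 0 →
      y ∈ Set.range fun x : {i // deg i = p} × QQ N => (x.1.1, x.2) := fun N p a y hy => by
    have h1 : deg a.1.1 = deg y.1 + 1 :=
      hg _ _ (rep_ne_zero N c (x := (a.1.1, a.2)) (y := y) hy)
    exact ⟨(⟨y.1, by have := a.1.2; omega⟩, y.2), rfl⟩
  refine rho_zero n h (fun i => by have := h'.1 i; simp only at this; omega) (fun p => ?_)
    fun p _ _ => ⟨((n + 1 : ℕ) : ℝ) ^ 2, fun δ hδ hδ1 => ?_⟩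
  · obtain ⟨p, rfl⟩ : ∃ p', p = p' + 1 := ⟨p - 1, by ring⟩
    obtain ⟨K, hK⟩ := good_lap hg (p + 1)
    refine atom_zero hK hK.isSpec fun δ hδ => ?_
    obtain ⟨M, hM⟩ := am_main n hn h h' hS hδ
    refine hM.mono fun N hN => ?_
    rw [rep_lap hg]
    exact Cheap.ker_le (cheap_block (rep N c)ᵀ _ _ _ (main_inj deg N p) (main_inj deg N (p + 1))
      (main_inj deg N (p + 1 + 1)) (fun _ => True) (fun _ => trivial) (b2 N _) (b0 N _)
      (hN.cheapT _))
  · obtain ⟨M, hM⟩ := am_main n hn h h' hS hδ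
    refine ⟨M, hM.mono fun N hN => ?_⟩
    exact SmallT.data _ _ _ (main_inj deg N p) (main_inj deg N (p + 1))
      (main_inj deg N (p + 1 + 1)) (b2 N _) (b0 N _) (b0 N _)
      (by push_cast; linarith [Nat.cast_nonneg (α := ℝ) n]) hδ1 (dg_pos N).le hN

/-- small cycles are small relative to the `G`-set `G` -/
theorem SmallCycles.amSmall {G : Type} [Group G] {n : ℕ} (hS : SmallCycles G n) :
    AmSmall G n := by
  classical
  refine ⟨G, inferInstance, fun v A ε hε => ⟨{1}, Finset.singleton_nonempty _, fun a _ => ?_⟩,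
    fun ε hε N hN => ?_⟩
  · have h1 : a = 1 := Subtype.ext (mul_eq_right.1 (MulAction.mem_stabilizer_iff.1 a.2))
    have h2 : {x | x ∈ ({1} : Finset (MulAction.stabilizer G v)) ∧
        a * x ∉ ({1} : Finset (MulAction.stabilizer G v))} = ∅ := by
      ext x
      simp [h1]
    rw [h2, Set.ncard_empty, Nat.cast_zero]
    positivity
  obtain ⟨H, hle, h1, h2, z, hz, hc⟩ := hS ε hε N hN
  have e1 : ∀ f : G × G → G, (∀ g, f (g, g) = g) →
      (z.mapDomain (List.map fun g => (g, g))).mapDomain (List.map f) = z := fun f hf => by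
    rw [← Finsupp.mapDomain_comp, ← Finsupp.mapDomain_id (v := z), ← Finsupp.mapDomain_comp]
    refine Finsupp.mapDomain_congr fun l _ => ?_
    simp [Function.comp_def, hf]
  refine ⟨H, hle, h1, h2, z.mapDomain (List.map fun g => (g, g)),
    list_md_mem _ hz.1 fun l hl => by simpa using hl, ?_, by rw [e1 _ fun _ => rfl]; exact hz, ?_⟩
  · rw [lc_bd_map, cov, ← Finsupp.mapDomain_comp, md_eq_lc]
    refine lc_cov _ (fun a ha l => ?_) hz.2.1
    congr 1
    refine ((isQuot_cov H).2 _ _).2 ⟨a⁻¹, H.inv_mem ha, ?_⟩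
    simp [smul_list, Function.comp_def]
  · rw [e1 _ fun _ => rfl]
    refine le_trans ?_ hc
    have h3 : (cov H z).support.card ≤ z.support.card :=
      (Finset.card_le_card Finsupp.mapDomain_support).trans Finset.card_image_le
    refine Nat.cast_le.2 (le_trans ?_ h3)
    rw [← Set.ncard_coe_finset]
    exact Set.ncard_le_ncard (fun s hs => hs.1) (Finset.finite_toSet _)

end Pool.Agent.Lib.MP_fd3021_gt
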