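import Pool.Agent.Lib.MP_fd3021_gt.VDefs

/-! Fundamental cycles that are small relative to a `G`-set with amenable stabilisers. -/

namespace Pool.Agent.Lib.MP_fd3021_gt

variable {G X : Type}

/-- The image of a chain on lists over a `G`-set `X` in the coinvariants for the diagonal action
of `H`. -/
noncomputable def cov [Group G] [MulAction G X] (H : Subgroup G) (z : List X →₀ ℤ) :
    Quot (fun l l' : List X => ∃ h ∈ H, l' = l.map (h • ·)) →₀ ℤ :=
  z.mapDomain (Quot.mk _)

/-- There is a `G`-set `Ω` with amenable point stabilisers such that arbitrarily deep normal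
subgroups `H` of finite index have an `n`-cycle modulo `H` on lists over `Ω × G` whose `G`-part
generates `H_n (H; ℤ)` and whose `Ω`-part has, modulo `H`, at most `ε [G : H]` simplices with no
two equal neighbouring vertices and finite stabiliser. -/
def AmSmall (G : Type) [Group G] (n : ℕ) : Prop :=
  ∃ (Ω : Type) (_ : MulAction G Ω), (∀ v : Ω, Folner (MulAction.stabilizer G v)) ∧
    ∀ ε : ℝ, 0 < ε → ∀ N : Subgroup G, N.FiniteIndex → ∃ H ≤ N, H.Normal ∧ H.FiniteIndex ∧
      ∃ z ∈ lists (Ω × G) (n + 1), cov H (Finsupp.linearCombination ℤ bd z) = 0 ∧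
        Generates H n (z.mapDomain (List.map Prod.snd)) ∧
        ({s | s ∈ (cov H (z.mapDomain (List.map Prod.fst))).support ∧ s.out.IsChain (· ≠ ·) ∧
          {g : G | ∀ v ∈ s.out, g • v = v}.Finite}.ncard : ℝ) ≤ ε * H.index

end Pool.Agent.Lib.MP_fd3021_gt
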