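import Pool.Agent.Lib.MP_fd3021_gt.LDefs

/-! Internal definitions. -/

namespace Pool.Agent.Lib.MP_fd3021_gt

open Matrix

section Real

variable {m n k : Type}

/-- squared norm -/
def nsq [Fintype n] (v : n → ℝ) : ℝ := v ⬝ᵥ v

/-- quadratic form of a matrix -/
def qf [Fintype n] (Q : Matrix n n ℝ) (v : n → ℝ) : ℝ := v ⬝ᵥ Q *ᵥ v

/-- integer vector as a real vector -/
def cv (x : n → ℤ) : n → ℝ := fun i => (x i : ℝ)

/-- integer matrix as a real matrix -/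
def cm (A : Matrix m n ℤ) : Matrix m n ℝ := fun i j => (A i j : ℝ)

/-- all row sums and all column sums of absolute values are at most `M` -/
def RC [Fintype m] [Fintype n] (A : Matrix m n ℤ) (M : ℝ) : Prop :=
  (∀ i, ∑ j, |(A i j : ℝ)| ≤ M) ∧ ∀ j, ∑ i, |(A i j : ℝ)| ≤ M

/-- squared Frobenius norm -/
def frob [Fintype m] [Fintype n] (A : Matrix m n ℝ) : ℝ := ∑ i, ∑ j, A i j ^ 2

open Classical in
/-- eigenvalues of a symmetric matrix -/
noncomputable def ev [Fintype n] [DecidableEq n] (A : Matrix n n ℝ) : n → ℝ :=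
  if h : A.IsHermitian then h.eigenvalues else 0

open Classical in
/-- orthogonal matrix of eigenvectors (columns) -/
noncomputable def eU [Fintype n] [DecidableEq n] (A : Matrix n n ℝ) : Matrix n n ℝ :=
  if h : A.IsHermitian then (h.eigenvectorUnitary : Matrix n n ℝ) else 1

/-- functional calculus -/
noncomputable def fc [Fintype n] [DecidableEq n] (A : Matrix n n ℝ) (g : ℝ → ℝ) : Matrix n n ℝ :=
  eU A * diagonal (fun i => g (ev A i)) * (eU A)ᵀ

/-- trace of `g (A)` -/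
noncomputable def trf [Fintype n] [DecidableEq n] (A : Matrix n n ℝ) (g : ℝ → ℝ) : ℝ :=
  ∑ i, g (ev A i)

/-- number of eigenvalues `≤ η ^ 2` -/
noncomputable def cnt [Fintype n] [DecidableEq n] (A : Matrix n n ℝ) (η : ℝ) : ℕ :=
  (Finset.univ.filter fun i => ev A i ≤ η ^ 2).card

/-- truncated logarithm -/
noncomputable def psi (η x : ℝ) : ℝ := if η ^ 2 < x then Real.log x else 0

/-- indicator function of `0` -/
noncomputable def ind0 (x : ℝ) : ℝ := if x = 0 then 1 else 0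

/-- Laplacian at the middle of `k → n → m` -/
def lapR [Fintype m] [Fintype k] (D : Matrix m n ℝ) (Dp : Matrix n k ℝ) : Matrix n n ℝ :=
  Dᵀ * D + Dp * Dpᵀ

/-- truncated log-determinant of `Dᵀ D` -/
noncomputable def ell [Fintype m] [Fintype n] [DecidableEq n] (D : Matrix m n ℝ) (η : ℝ) : ℝ :=
  trf (Dᵀ * D) (psi η)

/-- spectral projection of `Dᵀ D` for the eigenvalues `> η ^ 2` -/
noncomputable def Pb [Fintype m] [Fintype n] [DecidableEq n] (D : Matrix m n ℝ) (η : ℝ) :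
    Matrix n n ℝ :=
  fc (Dᵀ * D) fun x => if η ^ 2 < x then 1 else 0

/-- inverse of `Dᵀ D` on the eigenvalues `> η ^ 2` -/
noncomputable def Gm [Fintype m] [Fintype n] [DecidableEq n] (D : Matrix m n ℝ) (η : ℝ) :
    Matrix n n ℝ :=
  fc (Dᵀ * D) fun x => if η ^ 2 < x then x⁻¹ else 0

/-- `Dᵀ D` with the eigenvalues `≤ η ^ 2` replaced by one -/
noncomputable def Wm [Fintype m] [Fintype n] [DecidableEq n] (D : Matrix m n ℝ) (η : ℝ) :
    Matrix n n ℝ :=
  fc (Dᵀ * D) fun x => if η ^ 2 < x then x else 1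

/-- supremum of the shifted Gaussian sums over the integral kernel of `D` -/
noncomputable def SS [Fintype n] (a : ℝ) (D : Matrix m n ℤ) : ℝ :=
  sSup {t | ∃ (F : Finset (n → ℤ)) (v : n → ℝ), (∀ z ∈ F, D *ᵥ z = 0) ∧
    t = ∑ z ∈ F, Real.exp (-(a * nsq (cv z + v)))}

end Real

section Data

variable {n0 n1 n2 : Type} [Fintype n0] [Fintype n1] [Fintype n2]

/-- the cycles of `Dm` are, up to boundaries, seen in a complex whose differential has small rank -/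
def Data (Dm : Matrix n0 n1 ℤ) (D : Matrix n1 n2 ℤ) (C δ M d : ℝ) : Prop :=
  ∃ (k1 k2 : Type) (_ : Fintype k1) (_ : Fintype k2) (f : Matrix k1 n1 ℤ) (g : Matrix n1 k1 ℤ)
    (s : Matrix n2 n1 ℤ) (D' : Matrix k1 k2 ℤ) (f' : Matrix k2 n2 ℤ) (g' : Matrix n2 k2 ℤ),
    (∀ x : n1 → ℤ, Dm *ᵥ x = 0 → g *ᵥ (f *ᵥ x) + D *ᵥ (s *ᵥ x) = x) ∧
    f * D = D' * f' ∧ g * D' = D * g' ∧
    (Fintype.card k1 : ℝ) ≤ C * d ∧ (Fintype.card k2 : ℝ) ≤ C * d ∧
    ((cm D').rank : ℝ) ≤ δ * d ∧ frob (cm D') ≤ C * d ∧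
    RC f M ∧ RC f' M ∧ RC g' M ∧ RC s M

/-- the identity in the middle degree factors up to homotopy through a lattice of small rank -/
def Cheap [DecidableEq n1] (Dm : Matrix n0 n1 ℤ) (D : Matrix n1 n2 ℤ) (C δ M d : ℝ) : Prop :=
  ∃ (κ : Type) (_ : Fintype κ) (f : Matrix κ n1 ℤ) (g : Matrix n1 κ ℤ) (s : Matrix n2 n1 ℤ)
    (sm : Matrix n1 n0 ℤ), g * f + D * s + sm * Dm = 1 ∧ (Fintype.card κ : ℝ) ≤ δ * d ∧
    (∀ j, ∑ i, |(f i j : ℝ)| ≤ C) ∧ RC f M ∧ RC g M ∧ RC s M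

/-- the same for a total differential `R`, on the columns satisfying `P` -/
def CheapT [DecidableEq n1] (R : Matrix n1 n1 ℤ) (P : n1 → Prop) (C δ M d : ℝ) : Prop :=
  ∃ (κ : Type) (_ : Fintype κ) (f : Matrix κ n1 ℤ) (g : Matrix n1 κ ℤ) (s : Matrix n1 n1 ℤ),
    (∀ y y', P y' → (g * f + R * s + s * R) y y' = (1 : Matrix n1 n1 ℤ) y y') ∧
    (Fintype.card κ : ℝ) ≤ δ * d ∧
    (∀ j, ∑ i, |(f i j : ℝ)| ≤ C) ∧ RC f M ∧ RC g M ∧ RC s M

end Data

/-- truncated log-determinant of the Laplacian in degree `p + 1` of the complex `D` -/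
noncomputable def ltr {J : ℤ → Type} [∀ p, Fintype (J p)] [∀ p, DecidableEq (J p)]
    (D : ∀ p, Matrix (J p) (J (p + 1)) ℤ) (η : ℝ) (p : ℤ) : ℝ :=
  trf (lapR (cm (D p)) (cm (D (p + 1)))) (psi η)

section Grp

variable {G I J : Type} [Group G]

/-- finite quotient -/
def QQ (N : FiniteIndexNormalSubgroup G) : Type := G ⧸ N.toSubgroup

instance instGroupQQ (N : FiniteIndexNormalSubgroup G) : Group (QQ N) :=
  inferInstanceAs (Group (G ⧸ N.toSubgroup))

noncomputable instance instFintypeQQ (N : FiniteIndexNormalSubgroup G) : Fintype (QQ N) :=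
  @Fintype.ofFinite _ (inferInstanceAs (Finite (G ⧸ N.toSubgroup)))

noncomputable instance instDecEqQQ (N : FiniteIndexNormalSubgroup G) : DecidableEq (QQ N) :=
  Classical.decEq _

instance instNonemptyFin : Nonempty (FiniteIndexNormalSubgroup G) :=
  ⟨FiniteIndexNormalSubgroup.ofSubgroup ⊤⟩

/-- the quotient map -/
def mkQ (N : FiniteIndexNormalSubgroup G) : G →* QQ N := QuotientGroup.mk' N.toSubgroup

/-- the degree of the cover as a real number -/
noncomputable def dg (N : FiniteIndexNormalSubgroup G) : ℝ := Fintype.card (QQ N)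

/-- the integer matrix of right multiplication by `A` on the finite quotient -/
noncomputable def rep (N : FiniteIndexNormalSubgroup G) (A : Matrix I J (MonoidAlgebra ℤ G)) :
    Matrix (I × QQ N) (J × QQ N) ℤ :=
  fun x y => ((A x.1 y.1).mapDomain (mkQ N)).coeff (x.2⁻¹ * y.2)

/-- all finite images are symmetric with spectrum in `[0, K]` -/
def Good [Fintype I] (A : Matrix I I (MonoidAlgebra ℤ G)) (K : ℝ) : Prop :=
  ∀ N : FiniteIndexNormalSubgroup G, (rep N A)ᵀ = rep N A ∧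
    ∀ y, 0 ≤ qf (cm (rep N A)) y ∧ qf (cm (rep N A)) y ≤ K * nsq y

/-- the differential of the finite cover from degree `p + 1` to degree `p`, acting on columns -/
noncomputable def DQ (deg : I → ℤ) (c : Matrix I I (MonoidAlgebra ℤ G))
    (N : FiniteIndexNormalSubgroup G) (p : ℤ) :
    Matrix ({i // deg i = p} × QQ N) ({i // deg i = p + 1} × QQ N) ℤ :=
  fun x y => rep N c (y.1.1, y.2) (x.1.1, x.2)

/-- cells of the universal cover -/
@[ext] structure Cell (I G : Type) where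
  /-- the orbit -/
  i : I
  /-- the group element -/
  g : G

instance instCellAct : MulAction G (Cell I G) where
  smul h x := ⟨x.i, h * x.g⟩
  one_smul x := by
    change (⟨x.i, 1 * x.g⟩ : Cell I G) = x
    rw [one_mul]
  mul_smul a b x := by
    change (⟨x.i, a * b * x.g⟩ : Cell I G) = ⟨x.i, a * (b * x.g)⟩
    rw [mul_assoc]

theorem smul_cell (h : G) (x : Cell I G) : h • x = ⟨x.i, h * x.g⟩ := rfl

instance instListAct {E : Type} [MulAction G E] : MulAction G (List E) where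
  smul h l := l.map (h • ·)
  one_smul l := by
    change l.map ((1 : G) • ·) = l
    simp
  mul_smul a b l := by
    change l.map ((a * b) • ·) = (l.map (b • ·)).map (a • ·)
    simp [mul_smul]

theorem smul_list {E : Type} [MulAction G E] (h : G) (l : List E) : h • l = l.map (h • ·) := rfl

/-- linear extension -/
noncomputable abbrev lc {X B : Type} [AddCommGroup B] (φ : X → B) : (X →₀ ℤ) →ₗ[ℤ] B :=
  Finsupp.linearCombination ℤ φ

/-- the sum of the absolute values of the coefficients -/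
noncomputable def l1 {X : Type} (ξ : X →₀ ℤ) : ℝ := ∑ x ∈ ξ.support, |(ξ x : ℝ)|

/-- boundary of a cell -/
noncomputable def dC [Fintype I] (c : Matrix I I (MonoidAlgebra ℤ G)) (x : Cell I G) :
    Cell I G →₀ ℤ :=
  ∑ j, (c x.i j).coeff.mapDomain fun h => (⟨j, x.g * h⟩ : Cell I G)

/-- the resolution property on cells; `e` is the augmentation and `w` the orientation character -/
structure ResC [Fintype I] (deg : I → ℤ) (c : Matrix I I (MonoidAlgebra ℤ G))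
    (e : Cell I G → ℤ) (w : G →* ℤˣ) : Prop where
  nonneg : ∀ i, 0 ≤ deg i
  deg_d : ∀ x, ∀ y ∈ (dC c x).support, deg y.i + 1 = deg x.i
  d_smul : ∀ (g : G) x, dC c (g • x) = (dC c x).mapDomain (g • ·)
  e_smul : ∀ (g : G) x, e (g • x) = w g * e x
  e_deg : ∀ x, deg x.i ≠ 0 → e x = 0
  e_d : ∀ x, lc e (dC c x) = 0
  d_d : ∀ x, lc (dC c) (dC c x) = 0
  pt : ∃ ξ, lc (dC c) ξ = 0 ∧ lc e ξ = 1
  exact : ∀ ξ, lc (dC c) ξ = 0 → lc e ξ = 0 → ∃ y, lc (dC c) y = ξ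

/-- `pr` is the quotient map of `X` by `N`, with section `sec` -/
def IsQuot {X Y : Type} [MulAction G X] (N : Subgroup G) (pr : X → Y) (sec : Y → X) : Prop :=
  (∀ y, pr (sec y) = y) ∧ ∀ x x', pr x = pr x' ↔ ∃ h ∈ N, h • x = x'

/-- the map induced on quotients -/
noncomputable def desc {X1 X2 Y1 Y2 : Type} (pr : X2 → Y2) (sec : Y1 → X1) (φ : X1 → X2 →₀ ℤ)
    (y : Y1) : Y2 →₀ ℤ :=
  (φ (sec y)).mapDomain pr

end Grp

end Pool.Agent.Lib.MP_fd3021_gt

/-! Functional calculus of real symmetric matrices. -/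

namespace Pool.Agent.Lib.MP_fd3021_gt

open Matrix

variable {m n : Type} [Fintype m] [Fintype n] [DecidableEq m] [DecidableEq n]

theorem eU_mul_T (A : Matrix n n ℝ) : eU A * (eU A)ᵀ = 1 := by
  unfold eU
  split_ifs with h
  · have h1 := Matrix.mem_unitaryGroup_iff.1 h.eigenvectorUnitary.2
    rwa [star_eq_conjTranspose, conjTranspose_eq_transpose_of_trivial] at h1
  · simp

theorem T_mul_eU (A : Matrix n n ℝ) : (eU A)ᵀ * eU A = 1 := by
  unfold eU
  split_ifs with h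
  · have h1 := Matrix.mem_unitaryGroup_iff'.1 h.eigenvectorUnitary.2
    rwa [star_eq_conjTranspose, conjTranspose_eq_transpose_of_trivial] at h1
  · simp

theorem fc_id {A : Matrix n n ℝ} (h : Aᵀ = A) : fc A (fun x => x) = A := by
  have hH : A.IsHermitian := by
    unfold Matrix.IsHermitian
    rw [conjTranspose_eq_transpose_of_trivial, h]
  have h1 := hH.spectral_theorem
  rw [Unitary.conjStarAlgAut_apply, star_eq_conjTranspose,
    conjTranspose_eq_transpose_of_trivial] at h1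
  unfold fc eU ev
  rw [dif_pos hH, dif_pos hH]
  exact h1.symm

theorem fc_mul (A : Matrix n n ℝ) (g h : ℝ → ℝ) :
    fc A g * fc A h = fc A (fun x => g x * h x) := by
  unfold fc
  calc eU A * diagonal (fun i => g (ev A i)) * (eU A)ᵀ *
        (eU A * diagonal (fun i => h (ev A i)) * (eU A)ᵀ)
      = eU A * (diagonal (fun i => g (ev A i)) * ((eU A)ᵀ * eU A) *
          diagonal (fun i => h (ev A i))) * (eU A)ᵀ := by
        simp only [Matrix.mul_assoc]
    _ = _ := by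
        rw [T_mul_eU, Matrix.mul_one, diagonal_mul_diagonal]

theorem fc_add (A : Matrix n n ℝ) (g h : ℝ → ℝ) :
    fc A g + fc A h = fc A (fun x => g x + h x) := by
  unfold fc
  rw [← Matrix.add_mul, ← Matrix.mul_add, diagonal_add]

theorem fc_sub (A : Matrix n n ℝ) (g h : ℝ → ℝ) :
    fc A g - fc A h = fc A (fun x => g x - h x) := by
  unfold fc
  rw [← Matrix.sub_mul, ← Matrix.mul_sub, diagonal_sub]

theorem fc_one (A : Matrix n n ℝ) : fc A (fun _ => 1) = 1 := by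
  unfold fc
  rw [diagonal_one, Matrix.mul_one, eU_mul_T]

theorem fc_transpose (A : Matrix n n ℝ) (g : ℝ → ℝ) : (fc A g)ᵀ = fc A g := by
  unfold fc
  rw [transpose_mul, transpose_mul, transpose_transpose, diagonal_transpose, Matrix.mul_assoc]

theorem fc_congr (A : Matrix n n ℝ) {g h : ℝ → ℝ} (e : ∀ i, g (ev A i) = h (ev A i)) :
    fc A g = fc A h := by
  unfold fc
  have : (fun i => g (ev A i)) = fun i => h (ev A i) := funext e
  rw [this]

theorem nsq_eq (v : n → ℝ) : nsq v = ∑ i, v i ^ 2 := by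
  unfold nsq dotProduct
  exact Finset.sum_congr rfl fun i _ => (sq (v i)).symm

theorem nsq_nonneg (v : n → ℝ) : 0 ≤ nsq v := by
  rw [nsq_eq]
  exact Finset.sum_nonneg fun i _ => sq_nonneg _

theorem nsq_mulVec (D : Matrix m n ℝ) (y : n → ℝ) : nsq (D *ᵥ y) = qf (Dᵀ * D) y := by
  unfold nsq qf
  rw [← mulVec_mulVec, dotProduct_mulVec y, vecMul_transpose]

theorem nsq_eU (A : Matrix n n ℝ) (t : n → ℝ) : nsq (eU A *ᵥ t) = nsq t := by
  rw [nsq_mulVec, T_mul_eU]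
  unfold qf nsq
  rw [one_mulVec]

theorem nsq_eUT (A : Matrix n n ℝ) (y : n → ℝ) : nsq ((eU A)ᵀ *ᵥ y) = nsq y := by
  rw [nsq_mulVec, transpose_transpose, eU_mul_T]
  unfold qf nsq
  rw [one_mulVec]

theorem qf_fc (A : Matrix n n ℝ) (g : ℝ → ℝ) (y : n → ℝ) :
    qf (fc A g) y = ∑ i, g (ev A i) * ((eU A)ᵀ *ᵥ y) i ^ 2 := by
  unfold qf fc
  rw [← mulVec_mulVec, ← mulVec_mulVec, dotProduct_mulVec y, ← mulVec_transpose]
  unfold dotProduct
  refine Finset.sum_congr rfl fun i _ => ?_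
  rw [mulVec_diagonal]
  ring

theorem qf_fc_le (A : Matrix n n ℝ) {g h : ℝ → ℝ} (e : ∀ i, g (ev A i) ≤ h (ev A i))
    (y : n → ℝ) : qf (fc A g) y ≤ qf (fc A h) y := by
  rw [qf_fc, qf_fc]
  exact Finset.sum_le_sum fun i _ => mul_le_mul_of_nonneg_right (e i) (sq_nonneg _)

theorem trace_fc (A : Matrix n n ℝ) (g : ℝ → ℝ) : (fc A g).trace = trf A g := by
  unfold fc trf
  rw [trace_mul_cycle, T_mul_eU, Matrix.one_mul, trace_diagonal]

theorem lfc_pow {A : Matrix n n ℝ} (h : Aᵀ = A) (k : ℕ) :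
    fc A (fun x => x ^ k) = A ^ k := by
  induction k with
  | zero =>
    simp only [pow_zero]
    exact fc_one A
  | succ k ih =>
    have h1 := fc_mul A (fun x => x ^ k) (fun x => x)
    rw [ih, fc_id h] at h1
    simp only [pow_succ]
    exact h1.symm

theorem trf_pow {A : Matrix n n ℝ} (h : Aᵀ = A) (k : ℕ) :
    trf A (fun x => x ^ k) = (A ^ k).trace := by
  rw [← trace_fc, lfc_pow h]

theorem lfc_right (B : Matrix n n ℝ) (g : ℝ → ℝ) :
    fc B g * eU B = eU B * diagonal (fun i => g (ev B i)) := by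
  unfold fc
  rw [Matrix.mul_assoc, T_mul_eU, Matrix.mul_one]

theorem lfc_left (B : Matrix n n ℝ) (g : ℝ → ℝ) :
    (eU B)ᵀ * fc B g = diagonal (fun i => g (ev B i)) * (eU B)ᵀ := by
  unfold fc
  rw [← Matrix.mul_assoc, ← Matrix.mul_assoc, T_mul_eU, Matrix.one_mul]

theorem intertwine {B : Matrix n n ℝ} {B' : Matrix m m ℝ} {X : Matrix m n ℝ} (hB : Bᵀ = B)
    (hB' : B'ᵀ = B') (h : X * B = B' * X) (g : ℝ → ℝ) : X * fc B g = fc B' g * X := by
  have key : ∀ f : ℝ → ℝ, (X * fc B f = fc B' f * X) ↔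
      ((eU B')ᵀ * X * eU B) * diagonal (fun i => f (ev B i)) =
        diagonal (fun i => f (ev B' i)) * ((eU B')ᵀ * X * eU B) := by
    intro f
    have e1 : ((eU B')ᵀ * X * eU B) * diagonal (fun i => f (ev B i)) =
        (eU B')ᵀ * (X * fc B f) * eU B := by
      rw [Matrix.mul_assoc ((eU B')ᵀ * X), ← lfc_right]
      simp only [Matrix.mul_assoc]
    have e2 : diagonal (fun i => f (ev B' i)) * ((eU B')ᵀ * X * eU B) =
        (eU B')ᵀ * (fc B' f * X) * eU B := by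
      rw [← Matrix.mul_assoc ((eU B')ᵀ), lfc_left]
      simp only [Matrix.mul_assoc]
    rw [e1, e2]
    constructor
    · intro hh
      rw [hh]
    · intro hh
      have e3 : ∀ Z : Matrix m n ℝ, eU B' * ((eU B')ᵀ * Z * eU B) * (eU B)ᵀ = Z := by
        intro Z
        calc eU B' * ((eU B')ᵀ * Z * eU B) * (eU B)ᵀ
            = (eU B' * (eU B')ᵀ) * Z * (eU B * (eU B)ᵀ) := by simp only [Matrix.mul_assoc]
          _ = Z := by rw [eU_mul_T, eU_mul_T, Matrix.one_mul, Matrix.mul_one]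
      rw [← e3 (X * fc B f), hh, e3]
  have h0 := (key fun x => x).1 (by rw [fc_id hB, fc_id hB']; exact h)
  refine (key g).2 ?_
  ext k j
  have h1 := congrFun (congrFun h0 k) j
  rw [mul_diagonal, diagonal_mul] at h1 ⊢
  by_cases hy : ((eU B')ᵀ * X * eU B) k j = 0
  · rw [hy, zero_mul, mul_zero]
  · have h2 : ev B j = ev B' k := by
      rw [mul_comm (ev B' k)] at h1
      exact mul_left_cancel₀ hy h1
    rw [h2, mul_comm]

theorem lfc_qf_single {A : Matrix n n ℝ} (h : Aᵀ = A) (i : n) :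
    qf A (eU A *ᵥ Pi.single i 1) = ev A i := by
  have h1 := qf_fc A (fun x => x) (eU A *ᵥ Pi.single i 1)
  rw [fc_id h, mulVec_mulVec, T_mul_eU, one_mulVec] at h1
  rw [h1, Finset.sum_eq_single i]
  · simp
  · intro j _ hj
    simp [hj]
  · intro hi
    exact absurd (Finset.mem_univ i) hi

theorem lfc_nsq_single (A : Matrix n n ℝ) (i : n) :
    nsq (eU A *ᵥ Pi.single i 1) = 1 := by
  rw [nsq_eU]
  unfold nsq
  simp

theorem ev_nonneg {A : Matrix n n ℝ} (h : Aᵀ = A) (h0 : ∀ y, 0 ≤ qf A y) (i : n) :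
    0 ≤ ev A i := by
  rw [← lfc_qf_single h i]
  exact h0 _

theorem ev_le {A : Matrix n n ℝ} (h : Aᵀ = A) {K : ℝ} (hK : ∀ y, qf A y ≤ K * nsq y) (i : n) :
    ev A i ≤ K := by
  have h1 := hK (eU A *ᵥ Pi.single i 1)
  rwa [lfc_qf_single h i, lfc_nsq_single, mul_one] at h1

theorem cnt_eq (A : Matrix n n ℝ) (η : ℝ) :
    (cnt A η : ℝ) = trf A fun x => if x ≤ η ^ 2 then 1 else 0 := by
  unfold cnt trf
  rw [Finset.card_filter]
  push_cast
  rfl

end Pool.Agent.Lib.MP_fd3021_gt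

/-! Norm bounds for integer matrices, rounding, orthonormal parametrisation of a range. -/

namespace Pool.Agent.Lib.MP_fd3021_gt

open Matrix

variable {m n k : Type} [Fintype m] [Fintype n] [Fintype k]

theorem LNorm_nsq (v : n → ℝ) : nsq v = ∑ i, v i ^ 2 := by
  simp [nsq, dotProduct, sq]

theorem LNorm_sum_inj {n' : Type} [Fintype n'] (g : n → ℝ) (hg : ∀ j, 0 ≤ g j) {e : n' → n}
    (he : Function.Injective e) : ∑ j, g (e j) ≤ ∑ j, g j := by
  classical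
  rw [← Finset.sum_image (s := Finset.univ) (g := e) (f := g) fun x _ y _ h => he h]
  exact Finset.sum_le_sum_of_subset_of_nonneg (Finset.subset_univ _) fun j _ _ => hg j

omit [Fintype k] in
theorem LNorm_col_mul {A : Matrix m n ℤ} {B : Matrix n k ℤ} {C C' : ℝ} (hC : 0 ≤ C)
    (hA : ∀ j, ∑ i, |(A i j : ℝ)| ≤ C) (hB : ∀ j, ∑ i, |(B i j : ℝ)| ≤ C') (j : k) :
    ∑ i, |((A * B) i j : ℝ)| ≤ C * C' := by
  calc ∑ i, |((A * B) i j : ℝ)| ≤ ∑ i, ∑ l, |(A i l : ℝ)| * |(B l j : ℝ)| := by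
        refine Finset.sum_le_sum fun i _ => ?_
        rw [mul_apply]
        push_cast
        refine (Finset.abs_sum_le_sum_abs _ _).trans (le_of_eq ?_)
        simp only [abs_mul]
    _ = ∑ l, (∑ i, |(A i l : ℝ)|) * |(B l j : ℝ)| := by
        rw [Finset.sum_comm]
        simp only [Finset.sum_mul]
    _ ≤ ∑ l, C * |(B l j : ℝ)| :=
        Finset.sum_le_sum fun l _ => mul_le_mul_of_nonneg_right (hA l) (abs_nonneg _)
    _ ≤ C * C' := by
        rw [← Finset.mul_sum]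
        exact mul_le_mul_of_nonneg_left (hB j) hC

omit [Fintype n] in
theorem LNorm_round (c : n → m → ℝ) (r : n → ℝ) (s : Finset n) :
    ∃ w : n → ℤ, (∀ j, |r j - w j| ≤ 1) ∧
      nsq (∑ j ∈ s, (r j - w j) • c j) ≤ ∑ j ∈ s, nsq (c j) := by
  classical
  induction s using Finset.induction_on with
  | empty =>
    refine ⟨fun j => ⌊r j⌋, fun j => ?_, by simp [nsq]⟩
    rw [abs_le]
    constructor <;> linarith [Int.floor_le (r j), Int.lt_floor_add_one (r j)]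
  | insert a s ha ih =>
    obtain ⟨w, h1, h2⟩ := ih
    obtain ⟨P, hP⟩ : ∃ P, P = ∑ j ∈ s, (r j - w j) • c j := ⟨_, rfl⟩
    rw [← hP] at h2
    have h3 := Int.floor_le (r a)
    have h4 := Int.lt_floor_add_one (r a)
    obtain ⟨z, hz1, hz2⟩ : ∃ z : ℤ, |r a - z| ≤ 1 ∧ (r a - z) * (c a ⬝ᵥ P) ≤ 0 := by
      rcases le_total 0 (c a ⬝ᵥ P) with h | h
      · refine ⟨⌊r a⌋ + 1, ?_, ?_⟩
        · rw [abs_le]
          push_cast
          constructor <;> linarith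
        · push_cast
          exact mul_nonpos_of_nonpos_of_nonneg (by linarith) h
      · refine ⟨⌊r a⌋, ?_, mul_nonpos_of_nonneg_of_nonpos (by linarith) h⟩
        rw [abs_le]
        constructor <;> linarith
    refine ⟨Function.update w a z, fun j => ?_, ?_⟩
    · rcases eq_or_ne j a with rfl | hj
      · rwa [Function.update_self]
      · rw [Function.update_of_ne hj]
        exact h1 j
    · have e : ∑ j ∈ s, (r j - (Function.update w a z j : ℤ)) • c j = P := by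
        rw [hP]
        refine Finset.sum_congr rfl fun j hj => ?_
        rw [Function.update_of_ne (by rintro rfl; exact ha hj)]
      rw [Finset.sum_insert ha, Finset.sum_insert ha, Function.update_self, e]
      have e2 : nsq ((r a - z) • c a + P) =
          (r a - z) ^ 2 * nsq (c a) + 2 * ((r a - z) * (c a ⬝ᵥ P)) + nsq P := by
        simp only [nsq, add_dotProduct, dotProduct_add, smul_dotProduct, dotProduct_smul,
          smul_eq_mul, dotProduct_comm P (c a)]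
        ring
      have h5 : 0 ≤ nsq (c a) := by
        rw [LNorm_nsq]
        positivity
      have h6 : (r a - z) ^ 2 ≤ 1 := (sq_le_one_iff_abs_le_one _).2 hz1
      have h7 := mul_le_mul_of_nonneg_right h6 h5
      linarith

theorem cm_mul (A : Matrix m n ℤ) (B : Matrix n k ℤ) : cm (A * B) = cm A * cm B := by
  ext i j
  simp [cm, mul_apply]

omit [Fintype m] [Fintype n] in
theorem cm_transpose (A : Matrix m n ℤ) : cm Aᵀ = (cm A)ᵀ := rfl

omit [Fintype m] [Fintype n] in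
theorem cm_add (A B : Matrix m n ℤ) : cm (A + B) = cm A + cm B := by
  ext i j
  simp [cm]

omit [Fintype m] [Fintype n] in
theorem cm_zero : cm (0 : Matrix m n ℤ) = 0 := by
  ext i j
  simp [cm]

omit [Fintype n] in
theorem cm_one [DecidableEq n] : cm (1 : Matrix n n ℤ) = 1 := by
  ext i j
  by_cases h : i = j <;> simp [cm, one_apply, h]

omit [Fintype m] in
theorem cv_mulVec (A : Matrix m n ℤ) (x : n → ℤ) : cv (A *ᵥ x) = cm A *ᵥ cv x := by
  ext i
  simp [cm, cv, mulVec, dotProduct]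

omit [Fintype n] in
theorem cv_add (x y : n → ℤ) : cv (x + y) = cv x + cv y := by
  ext i
  simp [cv]

omit [Fintype n] in
theorem cv_sub (x y : n → ℤ) : cv (x - y) = cv x - cv y := by
  ext i
  simp [cv]

omit [Fintype n] in
theorem cv_zero : cv (0 : n → ℤ) = 0 := by
  ext i
  simp [cv]

/-- weighted triangle inequality -/
theorem nsq_add_le (x y : n → ℝ) {κ : ℝ} (hκ : 0 < κ) :
    nsq (x + y) ≤ (1 + κ) * nsq x + (1 + κ⁻¹) * nsq y := by
  rw [LNorm_nsq, LNorm_nsq, LNorm_nsq, Finset.mul_sum, Finset.mul_sum, ← Finset.sum_add_distrib]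
  refine Finset.sum_le_sum fun i _ => ?_
  have h1 : 0 ≤ κ⁻¹ * (κ * x i - y i) ^ 2 := by positivity
  have h2 : κ⁻¹ * (κ * x i - y i) ^ 2 = κ * x i ^ 2 - 2 * x i * y i + κ⁻¹ * y i ^ 2 := by
    field_simp
    ring
  rw [Pi.add_apply]
  nlinarith

theorem nsq_sub_le (x y : n → ℝ) : nsq (x - y) ≤ 2 * nsq x + 2 * nsq y := by
  rw [LNorm_nsq, LNorm_nsq, LNorm_nsq, Finset.mul_sum, Finset.mul_sum, ← Finset.sum_add_distrib]
  refine Finset.sum_le_sum fun i _ => ?_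
  rw [Pi.sub_apply]
  nlinarith [sq_nonneg (x i + y i)]

/-- Schur test -/
theorem RC.nsq_le {A : Matrix m n ℤ} {M : ℝ} (h : RC A M) (v : n → ℝ) :
    nsq (cm A *ᵥ v) ≤ M ^ 2 * nsq v := by
  rw [LNorm_nsq, LNorm_nsq]
  rcases isEmpty_or_nonempty m with hm | ⟨⟨i0⟩⟩
  · rw [Finset.univ_eq_empty, Finset.sum_empty]
    positivity
  have hM : 0 ≤ M := le_trans (Finset.sum_nonneg fun j _ => abs_nonneg _) (h.1 i0)
  have h1 : ∀ i, (cm A *ᵥ v) i ^ 2 ≤ M * ∑ j, |(A i j : ℝ)| * v j ^ 2 := fun i => by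
    have := Finset.sum_sq_le_sum_mul_sum_of_sq_le_mul Finset.univ
      (r := fun j => (A i j : ℝ) * v j) (f := fun j => |(A i j : ℝ)|)
      (g := fun j => |(A i j : ℝ)| * v j ^ 2) (fun j _ => abs_nonneg _)
      (fun j _ => by positivity)
      (fun j _ => by rw [← mul_assoc, abs_mul_abs_self, mul_pow, sq])
    exact this.trans (mul_le_mul_of_nonneg_right (h.1 i)
      (Finset.sum_nonneg fun j _ => by positivity))
  calc ∑ i, (cm A *ᵥ v) i ^ 2 ≤ ∑ i, M * ∑ j, |(A i j : ℝ)| * v j ^ 2 :=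
        Finset.sum_le_sum fun i _ => h1 i
    _ = M * ∑ j, (∑ i, |(A i j : ℝ)|) * v j ^ 2 := by
        rw [← Finset.mul_sum, Finset.sum_comm]
        simp only [Finset.sum_mul]
    _ ≤ M * ∑ j, M * v j ^ 2 :=
        mul_le_mul_of_nonneg_left (Finset.sum_le_sum fun j _ =>
          mul_le_mul_of_nonneg_right (h.2 j) (sq_nonneg _)) hM
    _ = M ^ 2 * ∑ j, v j ^ 2 := by
        rw [← Finset.mul_sum]
        ring

theorem RC.transpose {A : Matrix m n ℤ} {M : ℝ} (h : RC A M) : RC Aᵀ M := ⟨h.2, h.1⟩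

theorem RC.mono {A : Matrix m n ℤ} {M M' : ℝ} (h : RC A M) (hM : M ≤ M') : RC A M' :=
  ⟨fun i => (h.1 i).trans hM, fun j => (h.2 j).trans hM⟩

theorem RC.mul {A : Matrix m n ℤ} {B : Matrix n k ℤ} {M M' : ℝ} (hA : RC A M) (hB : RC B M')
    (hM : 0 ≤ M) (hM' : 0 ≤ M') : RC (A * B) (M * M') := by
  refine ⟨fun i => ?_, fun j => LNorm_col_mul hM hA.2 hB.2 j⟩
  have := LNorm_col_mul (A := Bᵀ) (B := Aᵀ) hM' hB.1 hA.1 i
  rw [← transpose_mul, mul_comm] at this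
  exact this

theorem RC.add {A B : Matrix m n ℤ} {M M' : ℝ} (hA : RC A M) (hB : RC B M') :
    RC (A + B) (M + M') := by
  refine ⟨fun i => ?_, fun j => ?_⟩
  · refine le_trans (Finset.sum_le_sum fun j _ => ?_)
      ((Finset.sum_add_distrib).le.trans (add_le_add (hA.1 i) (hB.1 i)))
    rw [Matrix.add_apply, Int.cast_add]
    exact abs_add_le _ _
  · refine le_trans (Finset.sum_le_sum fun i _ => ?_)
      ((Finset.sum_add_distrib).le.trans (add_le_add (hA.2 j) (hB.2 j)))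
    rw [Matrix.add_apply, Int.cast_add]
    exact abs_add_le _ _

theorem RC.sub {A B : Matrix m n ℤ} {M M' : ℝ} (hA : RC A M) (hB : RC B M') :
    RC (A - B) (M + M') := by
  refine ⟨fun i => ?_, fun j => ?_⟩
  · refine le_trans (Finset.sum_le_sum fun j _ => ?_)
      ((Finset.sum_add_distrib).le.trans (add_le_add (hA.1 i) (hB.1 i)))
    rw [Matrix.sub_apply, Int.cast_sub]
    exact abs_sub _ _
  · refine le_trans (Finset.sum_le_sum fun i _ => ?_)
      ((Finset.sum_add_distrib).le.trans (add_le_add (hA.2 j) (hB.2 j)))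
    rw [Matrix.sub_apply, Int.cast_sub]
    exact abs_sub _ _

theorem RC.one [DecidableEq n] : RC (1 : Matrix n n ℤ) 1 := by
  refine ⟨fun i => ?_, fun j => ?_⟩
  · rw [Finset.sum_eq_single i (fun j _ hj => by simp [one_apply, hj.symm]) (by simp)]
    simp
  · rw [Finset.sum_eq_single j (fun i _ hi => by simp [one_apply, hi]) (by simp)]
    simp

theorem RC.zero {M : ℝ} (hM : 0 ≤ M) : RC (0 : Matrix m n ℤ) M := by
  refine ⟨fun i => ?_, fun j => ?_⟩ <;> simpa using hM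

theorem RC.submatrix {m' n' : Type} [Fintype m'] [Fintype n'] {A : Matrix m n ℤ} {M : ℝ}
    (h : RC A M) {e : m' → m} {e' : n' → n} (he : Function.Injective e)
    (he' : Function.Injective e') : RC (A.submatrix e e') M := by
  refine ⟨fun i => le_trans ?_ (h.1 (e i)), fun j => le_trans ?_ (h.2 (e' j))⟩
  · exact LNorm_sum_inj (fun j => |(A (e i) j : ℝ)|) (fun _ => abs_nonneg _) he'
  · exact LNorm_sum_inj (fun i => |(A i (e' j) : ℝ)|) (fun _ => abs_nonneg _) he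

theorem frob_nonneg (A : Matrix m n ℝ) : 0 ≤ frob A := by
  unfold frob
  positivity

theorem frob_transpose (A : Matrix m n ℝ) : frob Aᵀ = frob A := by
  unfold frob
  exact Finset.sum_comm

theorem frob_le_of_col {A : Matrix m n ℤ} {C : ℝ} (h : ∀ j, ∑ i, |(A i j : ℝ)| ≤ C) :
    frob (cm A) ≤ C ^ 2 * Fintype.card n := by
  unfold frob
  rw [Finset.sum_comm]
  have h1 : ∀ j, ∑ i, cm A i j ^ 2 ≤ C ^ 2 := fun j => by
    have h2 := Finset.sum_sq_le_sq_sum_of_nonneg (s := Finset.univ)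
      (f := fun i => |(A i j : ℝ)|) (fun i _ => abs_nonneg _)
    simp only [sq_abs] at h2
    exact h2.trans (pow_le_pow_left₀ (Finset.sum_nonneg fun i _ => abs_nonneg _) (h j) 2)
  refine (Finset.sum_le_sum fun j _ => h1 j).trans ?_
  rw [Finset.sum_const, Finset.card_univ, nsmul_eq_mul, mul_comm]

theorem col_mul {A : Matrix m n ℤ} {B : Matrix n k ℤ} {C C' : ℝ} (hC : 0 ≤ C)
    (hA : ∀ j, ∑ i, |(A i j : ℝ)| ≤ C) (hB : ∀ j, ∑ i, |(B i j : ℝ)| ≤ C') (j : k) :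
    ∑ i, |((A * B) i j : ℝ)| ≤ C * C' := by
  exact LNorm_col_mul hC hA hB j

/-- greedy rounding -/
theorem round_vec (A : Matrix m n ℝ) (r : n → ℝ) :
    ∃ w : n → ℤ, nsq (A *ᵥ (r - cv w)) ≤ frob A ∧ nsq (r - cv w) ≤ Fintype.card n := by
  obtain ⟨w, h1, h2⟩ := LNorm_round (fun j i => A i j) r Finset.univ
  refine ⟨w, ?_, ?_⟩
  · have e1 : A *ᵥ (r - cv w) = ∑ j, (r j - w j) • fun i => A i j := by
      ext i
      simp [mulVec, dotProduct, cv, mul_comm]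
    have e2 : frob A = ∑ j, nsq fun i => A i j := by
      simp only [LNorm_nsq, frob]
      exact Finset.sum_comm
    rw [e1, e2]
    exact h2
  · rw [LNorm_nsq]
    have h3 : ∀ j, (r - cv w) j ^ 2 ≤ 1 := fun j => (sq_le_one_iff_abs_le_one _).2 (h1 j)
    refine (Finset.sum_le_sum fun j _ => h3 j).trans ?_
    simp

/-- orthonormal parametrisation of the range -/
theorem range_onb (A : Matrix m n ℝ) : ∃ T : Matrix m (Fin A.rank) ℝ,
    (∀ t, nsq (T *ᵥ t) ≤ nsq t) ∧ ∀ ω, ∃ t, T *ᵥ t = A *ᵥ ω ∧ nsq t ≤ nsq (A *ᵥ ω) := by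
  classical
  let f : EuclideanSpace ℝ n →ₗ[ℝ] EuclideanSpace ℝ m := toLpLin 2 2 A
  have hr : Module.finrank ℝ (LinearMap.range f) = A.rank :=
    (rank_eq_finrank_range_toLin A (PiLp.basisFun 2 ℝ m) (PiLp.basisFun 2 ℝ n)).symm
  let b : OrthonormalBasis (Fin A.rank) ℝ (LinearMap.range f) :=
    (stdOrthonormalBasis ℝ (LinearMap.range f)).reindex (finCongr hr)
  let T : Matrix m (Fin A.rank) ℝ := fun i j => (b j : EuclideanSpace ℝ m) i
  have hT : ∀ t : EuclideanSpace ℝ (Fin A.rank),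
      T *ᵥ t.ofLp = ((b.repr.symm t : LinearMap.range f) : EuclideanSpace ℝ m).ofLp := fun t => by
    ext i
    rw [← b.sum_repr_symm]
    simp [T, mulVec, dotProduct, mul_comm]
  have hn : ∀ t : EuclideanSpace ℝ (Fin A.rank), nsq (T *ᵥ t.ofLp) = nsq t.ofLp := fun t => by
    rw [hT, LNorm_nsq, LNorm_nsq, ← EuclideanSpace.real_norm_sq_eq,
      ← EuclideanSpace.real_norm_sq_eq, ← Submodule.coe_norm, LinearIsometryEquiv.norm_map]
  refine ⟨T, fun t => (hn (WithLp.toLp 2 t)).le, fun ω => ?_⟩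
  let y : LinearMap.range f := ⟨f (WithLp.toLp 2 ω), LinearMap.mem_range_self _ _⟩
  have hy : T *ᵥ (b.repr y).ofLp = A *ᵥ ω := by
    rw [hT, LinearIsometryEquiv.symm_apply_apply]
    rfl
  exact ⟨(b.repr y).ofLp, hy, by rw [← hy, hn]⟩

end Pool.Agent.Lib.MP_fd3021_gt

/-! Traces of functions of Laplacians, kernels, integrality of determinants. -/

namespace Pool.Agent.Lib.MP_fd3021_gt

open Matrix

variable {m n k : Type} [Fintype m] [Fintype n] [Fintype k]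
  [DecidableEq m] [DecidableEq n] [DecidableEq k]

omit [DecidableEq m] [DecidableEq n] [DecidableEq k] [Fintype n] in
theorem lapR_symm (D : Matrix m n ℝ) (Dp : Matrix n k ℝ) : (lapR D Dp)ᵀ = lapR D Dp := by
  simp only [lapR, transpose_add, transpose_mul, transpose_transpose]

omit [DecidableEq k] in
theorem qf_lapR (D : Matrix m n ℝ) (Dp : Matrix n k ℝ) (y : n → ℝ) :
    qf (lapR D Dp) y = nsq (D *ᵥ y) + nsq (Dpᵀ *ᵥ y) := by
  classical
  rw [nsq_mulVec, nsq_mulVec, transpose_transpose]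
  simp only [qf, lapR, add_mulVec, dotProduct_add]

theorem ltr_mul_fc {A : Matrix n n ℝ} (h : Aᵀ = A) (ψ : ℝ → ℝ) (h0 : ψ 0 = 0) :
    (A * fc A fun x => ψ x / x).trace = trf A ψ := by
  have e : A * (fc A fun x => ψ x / x) = fc A ψ := by
    have := fc_mul A (fun x => x) fun x => ψ x / x
    rw [fc_id h] at this
    rw [this]
    refine fc_congr A fun i => ?_
    by_cases hx : ev A i = 0
    · rw [hx, h0, zero_mul]
    · exact mul_div_cancel₀ _ hx
  rw [e, trace_fc]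

/-- the trace of `Xᵀ X φ (B)` if `X` intertwines `B` with `X Xᵀ` -/
theorem ltr_inter {B : Matrix n n ℝ} {X : Matrix m n ℝ} (hB : Bᵀ = B)
    (h : X * B = X * Xᵀ * X) (ψ : ℝ → ℝ) (h0 : ψ 0 = 0) :
    (Xᵀ * X * fc B fun x => ψ x / x).trace = trf (X * Xᵀ) ψ := by
  have hs : (X * Xᵀ)ᵀ = X * Xᵀ := by rw [transpose_mul, transpose_transpose]
  rw [Matrix.mul_assoc, intertwine hB hs h, ← Matrix.mul_assoc, trace_mul_comm,
    ← Matrix.mul_assoc, ltr_mul_fc hs ψ h0]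

theorem trf_lap (D : Matrix m n ℝ) (Dp : Matrix n k ℝ) (h : D * Dp = 0) (ψ : ℝ → ℝ)
    (h0 : ψ 0 = 0) : trf (lapR D Dp) ψ = trf (Dᵀ * D) ψ + trf (Dpᵀ * Dp) ψ := by
  have hL := lapR_symm D Dp
  have hT : (Dᵀ * D)ᵀ = Dᵀ * D := by rw [transpose_mul, transpose_transpose]
  have h' : Dpᵀ * Dᵀ = 0 := by rw [← transpose_mul, h, transpose_zero]
  have e1 : D * lapR D Dp = D * Dᵀ * D := by
    rw [lapR, Matrix.mul_add, ← Matrix.mul_assoc, ← Matrix.mul_assoc, h, Matrix.zero_mul,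
      add_zero]
  have e2 : Dpᵀ * lapR D Dp = Dpᵀ * Dpᵀᵀ * Dpᵀ := by
    rw [lapR, Matrix.mul_add, ← Matrix.mul_assoc, ← Matrix.mul_assoc, h', Matrix.zero_mul,
      zero_add, transpose_transpose]
  have t1 := ltr_inter hL e1 ψ h0
  have t2 := ltr_inter hL e2 ψ h0
  have t3 := ltr_inter hT (Matrix.mul_assoc D Dᵀ D).symm ψ h0
  rw [ltr_mul_fc hT ψ h0] at t3
  rw [transpose_transpose] at t2
  rw [← ltr_mul_fc hL ψ h0, t3, ← t1, ← t2, ← trace_add, ← Matrix.add_mul]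
  rfl

theorem ltr_mul_eU {A : Matrix n n ℝ} (h : Aᵀ = A) : A * eU A = eU A * diagonal (ev A) := by
  have e : eU A * diagonal (ev A) * (eU A)ᵀ = A := fc_id h
  calc A * eU A = eU A * diagonal (ev A) * (eU A)ᵀ * eU A := by rw [e]
    _ = eU A * diagonal (ev A) := by rw [Matrix.mul_assoc, T_mul_eU, Matrix.mul_one]

theorem Cheap.ker_le {Dm : Matrix m n ℤ} {D : Matrix n k ℤ} {C δ M d : ℝ}
    (h : Cheap Dm D C δ M d) : trf (lapR (cm Dm) (cm D)) ind0 ≤ δ * d := by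
  obtain ⟨κ, _, f, g, s, sm, hid, hc, -⟩ := h
  set Λ := lapR (cm Dm) (cm D) with hΛ
  have hs : Λᵀ = Λ := lapR_symm _ _
  let U : Matrix n {j // ev Λ j = 0} ℝ := fun i j => eU Λ i j
  have hU : Uᵀ * U = 1 := by
    ext a b
    have := congrFun (congrFun (T_mul_eU Λ) a) b
    simp only [mul_apply, transpose_apply, one_apply, Subtype.ext_iff] at this ⊢
    exact this
  have hcol : ∀ j : {j // ev Λ j = 0}, cm Dm *ᵥ (fun i => eU Λ i j) = 0 ∧
      (cm D)ᵀ *ᵥ (fun i => eU Λ i j) = 0 := by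
    intro j
    have h1 : Λ *ᵥ (fun i => eU Λ i j) = 0 := by
      funext i
      have := congrFun (congrFun (ltr_mul_eU hs) i) j
      rw [mul_diagonal, j.2, mul_zero] at this
      exact this
    have h2 := qf_lapR (cm Dm) (cm D) fun i => eU Λ i j
    rw [qf, ← hΛ, h1, dotProduct_zero] at h2
    have h3 := nsq_nonneg (cm Dm *ᵥ fun i => eU Λ i j)
    have h4 := nsq_nonneg ((cm D)ᵀ *ᵥ fun i => eU Λ i j)
    exact ⟨dotProduct_self_eq_zero.1 (show nsq _ = 0 by linarith),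
      dotProduct_self_eq_zero.1 (show nsq _ = 0 by linarith)⟩
  have h1 : cm Dm * U = 0 := by
    ext a j
    exact congrFun (hcol j).1 a
  have h2 : Uᵀ * cm D = 0 := by
    have h2' : (cm D)ᵀ * U = 0 := by
      ext a j
      exact congrFun (hcol j).2 a
    have := congrArg transpose h2'
    rwa [transpose_mul, transpose_transpose, transpose_zero] at this
  have h3 : cm g * cm f + cm D * cm s + cm sm * cm Dm = 1 := by
    rw [← cm_mul, ← cm_mul, ← cm_mul, ← cm_add, ← cm_add, hid, cm_one]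
  have h4 : Uᵀ * cm g * (cm f * U) = 1 := by
    have : Uᵀ * ((cm g * cm f + cm D * cm s + cm sm * cm Dm) * U) = 1 := by
      rw [h3, Matrix.one_mul, hU]
    rw [Matrix.add_mul, Matrix.add_mul, Matrix.mul_add, Matrix.mul_add, Matrix.mul_assoc (cm sm),
      h1, Matrix.mul_zero, Matrix.mul_zero, add_zero, Matrix.mul_assoc (cm D),
      ← Matrix.mul_assoc Uᵀ (cm D), h2, Matrix.zero_mul, add_zero] at this
    rw [← this]
    simp only [Matrix.mul_assoc]
  have h5 : Fintype.card {j // ev Λ j = 0} ≤ Fintype.card κ := by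
    have := rank_mul_le_right (Uᵀ * cm g) (cm f * U)
    rw [h4, rank_one] at this
    exact this.trans (rank_le_card_height _)
  have h6 : trf Λ ind0 = Fintype.card {j // ev Λ j = 0} := by
    simp only [trf, ind0, Finset.sum_boole, Fintype.card_subtype]
  rw [h6]
  exact (Nat.cast_le.2 h5).trans hc

theorem Cheap.ker_le_dual {Dm : Matrix m n ℤ} {D : Matrix n k ℤ} {C δ M d : ℝ}
    (h : Cheap Dᵀ Dmᵀ C δ M d) : trf (lapR (cm Dm) (cm D)) ind0 ≤ δ * d := by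
  have e : lapR (cm Dm) (cm D) = lapR (cm Dᵀ) (cm Dmᵀ) := by
    rw [cm_transpose, cm_transpose, lapR, lapR, transpose_transpose, transpose_transpose, add_comm]
  rw [e]
  exact h.ker_le

/-- the product of the nonzero eigenvalues of an integer symmetric matrix is a nonzero integer -/
theorem trf_log_nonneg (A : Matrix n n ℤ) (h : Aᵀ = A) : 0 ≤ trf (cm A) Real.log := by
  have hH : (cm A).IsHermitian := by
    rw [IsHermitian, conjTranspose_eq_transpose_of_trivial, ← cm_transpose, h]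
  have hev : ev (cm A) = hH.eigenvalues := dif_pos hH
  have h1 : (cm A).charpoly = ∏ i, (Polynomial.X - Polynomial.C (ev (cm A) i)) := by
    rw [hev]
    exact hH.charpoly_eq
  have h2 : (cm A).charpoly = A.charpoly.map (Int.castRingHom ℝ) :=
    charpoly_map A (Int.castRingHom ℝ)
  set S := Finset.univ.filter fun i => ev (cm A) i = 0 with hS
  set S' := Finset.univ.filter fun i => ¬ev (cm A) i = 0 with hS'
  have h3 : ∏ i ∈ S, (Polynomial.X - Polynomial.C (ev (cm A) i)) = Polynomial.X ^ S.card := by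
    rw [← Finset.prod_const]
    refine Finset.prod_congr rfl fun i hi => ?_
    rw [(Finset.mem_filter.1 hi).2, map_zero, sub_zero]
  rw [← Finset.prod_filter_mul_prod_filter_not Finset.univ fun i => ev (cm A) i = 0, ← hS, ← hS',
    h3, h2] at h1
  have h4 := congrArg (fun q => q.coeff (0 + S.card)) h1
  simp only [Polynomial.coeff_X_pow_mul, Polynomial.coeff_map, Polynomial.coeff_zero_eq_eval_zero,
    Polynomial.eval_prod, Polynomial.eval_sub, Polynomial.eval_X, Polynomial.eval_C, zero_sub,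
    eq_intCast] at h4
  have h5 : ∀ i ∈ S', -ev (cm A) i ≠ 0 := fun i hi => neg_ne_zero.2 (Finset.mem_filter.1 hi).2
  have h6 : trf (cm A) Real.log = Real.log (∏ i ∈ S', -ev (cm A) i) := by
    rw [Real.log_prod h5, trf, hS', Finset.sum_filter]
    refine Finset.sum_congr rfl fun i _ => ?_
    by_cases hx : ev (cm A) i = 0
    · rw [if_neg (not_not.2 hx), hx, Real.log_zero]
    · rw [if_pos hx, Real.log_neg_eq_log]
  rw [h6, ← h4]
  exact Real.log_intCast_nonneg _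

end Pool.Agent.Lib.MP_fd3021_gt

/-! Cheap shifts in a few directions. -/

namespace Pool.Agent.Lib.MP_fd3021_gt

open Matrix

open MeasureTheory in
theorem conv_gint {κ : Type} [Fintype κ] {w : κ → ℝ} (hw : ∀ j, 0 < w j) :
    Integrable fun t : κ → ℝ => Real.exp (-∑ j, w j * t j ^ 2) := by
  have h := Integrable.fintype_prod (μ := fun _ : κ => (volume : Measure ℝ))
    (f := fun j (s : ℝ) => Real.exp (-w j * s ^ 2)) fun j => integrable_exp_neg_mul_sq (hw j)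
  refine h.congr (Filter.Eventually.of_forall fun t => ?_)
  simp only [← Real.exp_sum, neg_mul, Finset.sum_neg_distrib]

open MeasureTheory in
theorem conv_gval {κ : Type} [Fintype κ] (w : κ → ℝ) :
    ∫ t : κ → ℝ, Real.exp (-∑ j, w j * t j ^ 2) = ∏ j, √(Real.pi / w j) := by
  have h := integral_fintype_prod_volume_eq_prod
    (f := fun j (s : ℝ) => Real.exp (-w j * s ^ 2))
  simp only [integral_gaussian] at h
  rw [← h]
  congr 1
  ext t
  simp only [← Real.exp_sum, neg_mul, Finset.sum_neg_distrib]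

theorem conv_exp (A B C : ℝ) (h : A + B ≤ 2 * C) :
    2 * Real.exp (-C) ≤ Real.exp (-A) + Real.exp (-B) := by
  have h1 : Real.exp (-C) ≤ Real.exp (-A / 2) * Real.exp (-B / 2) := by
    rw [← Real.exp_add]; exact Real.exp_le_exp.2 (by linarith)
  have h2 : Real.exp (-A) = Real.exp (-A / 2) ^ 2 := by rw [sq, ← Real.exp_add]; ring_nf
  have h3 : Real.exp (-B) = Real.exp (-B / 2) ^ 2 := by rw [sq, ← Real.exp_add]; ring_nf
  rw [h2, h3]
  nlinarith [sq_nonneg (Real.exp (-A / 2) - Real.exp (-B / 2))]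

open MeasureTheory in
theorem conv_one {κ : Type} [Fintype κ] {Φ : (κ → ℝ) → ℝ} {w : κ → ℝ} (hw : ∀ j, 0 < w j)
    (hi : Integrable fun t => Real.exp (-Φ t)) (t₀ : κ → ℝ)
    (hp : ∀ s, Φ (t₀ + s) + Φ (t₀ - s) ≤ 2 * Φ t₀ + 2 * ∑ j, w j * s j ^ 2) :
    Real.exp (-Φ t₀) * ∏ j, √(Real.pi / w j) ≤ ∫ t, Real.exp (-Φ t) := by
  have i1 := hi.comp_add_left t₀
  have i2 := hi.comp_sub_left t₀
  have e1 := integral_add_left_eq_self (μ := volume) (fun t => Real.exp (-Φ t)) t₀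
  have e2 := integral_sub_left_eq_self (fun t => Real.exp (-Φ t)) volume t₀
  have h : ∫ s : κ → ℝ, 2 * Real.exp (-Φ t₀) * Real.exp (-∑ j, w j * s j ^ 2) ≤
      ∫ s, Real.exp (-Φ (t₀ + s)) + Real.exp (-Φ (t₀ - s)) := by
    refine integral_mono ((conv_gint hw).const_mul _) (i1.add i2) fun s => ?_
    have := conv_exp _ _ (Φ t₀ + ∑ j, w j * s j ^ 2) ((hp s).trans_eq (mul_add _ _ _).symm)
    simpa only [mul_assoc, ← Real.exp_add, neg_add] using this
  rw [integral_const_mul, conv_gval, integral_add i1 i2, e1, e2] at h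
  linarith

theorem conv_qf {n : Type} [Fintype n] (Q : Matrix n n ℝ) (a b : n → ℝ) :
    qf Q (a - b) + qf Q (a + b) = 2 * qf Q a + 2 * qf Q b := by
  simp only [qf, mulVec_add, mulVec_sub, dotProduct_add, add_dotProduct, dotProduct_sub,
    sub_dotProduct]
  ring

theorem conv {X κ : Type} [Fintype κ] (F : Finset X) (q : X → (κ → ℝ) → ℝ) (L γ : κ → ℝ) (B : ℝ)
    (hL : ∀ j, 0 ≤ L j) (hγ : ∀ j, 0 < γ j) (hc : ∀ x, Continuous (q x))
    (h0 : ∀ x t, 0 ≤ q x t)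
    (hp : ∀ x t s, q x (t + s) + q x (t - s) ≤ 2 * q x t + 2 * ∑ j, L j * s j ^ 2)
    (hB : ∀ t, ∑ x ∈ F, Real.exp (-q x t) ≤ B) (t₀ : X → κ → ℝ) :
    ∑ x ∈ F, Real.exp (-(q x (t₀ x) + ∑ j, γ j * t₀ x j ^ 2)) ≤
      B * ∏ j, √((L j + γ j) / γ j) := by
  have hw : ∀ j, 0 < L j + γ j := fun j => add_pos_of_nonneg_of_pos (hL j) (hγ j)
  have hi : ∀ x, MeasureTheory.Integrable
      fun t : κ → ℝ => Real.exp (-(q x t + ∑ j, γ j * t j ^ 2)) := fun x => by
    have := hc x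
    refine (conv_gint hγ).mono' (Continuous.aestronglyMeasurable (by fun_prop))
      (Filter.Eventually.of_forall fun t => ?_)
    rw [Real.norm_of_nonneg (Real.exp_pos _).le]
    exact Real.exp_le_exp.2 (by linarith [h0 x t])
  have h1 : ∀ x, Real.exp (-(q x (t₀ x) + ∑ j, γ j * t₀ x j ^ 2)) *
      ∏ j, √(Real.pi / (L j + γ j)) ≤ ∫ t, Real.exp (-(q x t + ∑ j, γ j * t j ^ 2)) := fun x => by
    refine conv_one (Φ := fun t => q x t + ∑ j, γ j * t j ^ 2) hw (hi x) (t₀ x) fun s => ?_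
    have e : ∑ j, γ j * (t₀ x + s) j ^ 2 + ∑ j, γ j * (t₀ x - s) j ^ 2 +
        2 * ∑ j, L j * s j ^ 2 =
        2 * ∑ j, γ j * t₀ x j ^ 2 + 2 * ∑ j, (L j + γ j) * s j ^ 2 := by
      simp only [Finset.mul_sum, ← Finset.sum_add_distrib, Pi.add_apply, Pi.sub_apply]
      exact Finset.sum_congr rfl fun j _ => by ring
    linarith [hp x (t₀ x) s]
  have h2 : ∑ x ∈ F, ∫ t, Real.exp (-(q x t + ∑ j, γ j * t j ^ 2)) ≤
      B * ∏ j, √(Real.pi / γ j) := by
    rw [← MeasureTheory.integral_finsetSum _ fun x _ => hi x, ← conv_gval,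
      ← MeasureTheory.integral_const_mul]
    refine MeasureTheory.integral_mono (MeasureTheory.integrable_finsetSum _ fun x _ => hi x)
      ((conv_gint hγ).const_mul _) fun t => ?_
    simp only [neg_add, Real.exp_add, ← Finset.sum_mul]
    exact mul_le_mul_of_nonneg_right (hB t) (Real.exp_pos _).le
  have hP : 0 < ∏ j, √(Real.pi / (L j + γ j)) :=
    Finset.prod_pos fun j _ => Real.sqrt_pos.2 (div_pos Real.pi_pos (hw j))
  refine le_of_mul_le_mul_right ?_ hP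
  have e : (∏ j, √((L j + γ j) / γ j)) * ∏ j, √(Real.pi / (L j + γ j)) =
      ∏ j, √(Real.pi / γ j) := by
    rw [← Finset.prod_mul_distrib]
    refine Finset.prod_congr rfl fun j _ => ?_
    rw [← Real.sqrt_mul (div_pos (hw j) (hγ j)).le]
    congr 1
    field_simp [(hw j).ne', (hγ j).ne']
  rw [mul_assoc, e, Finset.sum_mul]
  exact (Finset.sum_le_sum fun x _ => h1 x).trans h2

theorem conv_quad {X n κ : Type} [Fintype n] [Fintype κ] (F : Finset X) (Q : Matrix n n ℝ)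
    (T : Matrix n κ ℝ) (y : X → n → ℝ) (r : X → ℝ) (L γ B : ℝ) (hL : 0 ≤ L) (hγ : 0 < γ)
    (hQ : ∀ v, 0 ≤ qf Q v) (hr : ∀ x, 0 ≤ r x) (hT : ∀ t, qf Q (T *ᵥ t) ≤ L * nsq t)
    (hB : ∀ v, ∑ x ∈ F, Real.exp (-(qf Q (y x + v) + r x)) ≤ B) (t₀ : X → κ → ℝ) (v : n → ℝ) :
    ∑ x ∈ F, Real.exp (-(qf Q (y x - T *ᵥ t₀ x + v) + (r x + γ * nsq (t₀ x)))) ≤
      B * √((L + γ) / γ) ^ Fintype.card κ := by
  have hn : ∀ t : κ → ℝ, ∀ c : ℝ, ∑ j, c * t j ^ 2 = c * nsq t := fun t c => by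
    simp only [nsq, dotProduct, Finset.mul_sum, sq]
  have h := conv F (fun x t => qf Q (y x - T *ᵥ t + v) + r x) (fun _ => L) (fun _ => γ) B
    (fun _ => hL) (fun _ => hγ) (fun x => by unfold qf; fun_prop)
    (fun x t => add_nonneg (hQ _) (hr x)) (fun x t s => ?_) (fun t => ?_) t₀
  · simp only [hn, Finset.prod_const, Finset.card_univ, add_assoc] at h
    exact h
  · have e1 : y x - T *ᵥ (t + s) + v = (y x - T *ᵥ t + v) - T *ᵥ s := by rw [mulVec_add]; abel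
    have e2 : y x - T *ᵥ (t - s) + v = (y x - T *ᵥ t + v) + T *ᵥ s := by rw [mulVec_sub]; abel
    rw [e1, e2, hn]
    linarith [conv_qf Q (y x - T *ᵥ t + v) (T *ᵥ s), hT s]
  · have e : ∀ x, y x - T *ᵥ t + v = y x + (v - T *ᵥ t) := fun x => by abel
    simp only [e]
    exact hB _

end Pool.Agent.Lib.MP_fd3021_gt

/-! Gaussian sums over the standard lattice. -/

namespace Pool.Agent.Lib.MP_fd3021_gt

open MeasureTheory in
theorem ltheta_cell {β : ℝ} (hβ : 0 < β) {a u : ℝ} (h : ∀ s ∈ Set.Ioc a (a + 1), s ^ 2 ≤ u ^ 2) :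
    Real.exp (-(β * u ^ 2)) ≤ ∫ s in Set.Ioc a (a + 1), Real.exp (-β * s ^ 2) := by
  have e : ∫ _ in Set.Ioc a (a + 1), Real.exp (-(β * u ^ 2)) = Real.exp (-(β * u ^ 2)) := by simp
  rw [← e]
  refine setIntegral_mono_on (integrableOn_const (by simp))
    (integrable_exp_neg_mul_sq hβ).integrableOn measurableSet_Ioc fun s hs => ?_
  have := mul_le_mul_of_nonneg_left (h s hs) hβ.le
  exact Real.exp_le_exp.2 (by linarith)

open MeasureTheory in
theorem theta_one {β : ℝ} (hβ : 0 < β) (F : Finset ℤ) (t : ℝ) :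
    ∑ k ∈ F, Real.exp (-(β * ((k : ℝ) + t) ^ 2)) ≤ 1 + √(Real.pi / β) := by
  obtain ⟨k0, h0⟩ : ∃ k0 : ℤ, |-t - k0| ≤ 1 / 2 := ⟨_, abs_sub_round (-t)⟩
  obtain ⟨h1, h2⟩ := abs_le.1 h0
  obtain ⟨j, hj⟩ : ∃ j : ℤ → ℤ, ∀ k, j k = if k0 < k then k - 1 else k := ⟨_, fun _ => rfl⟩
  have a1 : ∀ k ∈ F.erase k0, Real.exp (-(β * ((k : ℝ) + t) ^ 2)) ≤
      ∫ s in Set.Ioc ((j k : ℝ) + t) (j k + t + 1), Real.exp (-β * s ^ 2) := by
    intro k hk
    refine ltheta_cell hβ fun s ⟨s1, s2⟩ => ?_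
    rw [hj] at s1 s2
    split_ifs at s1 s2 with h
    · have : (k0 : ℝ) + 1 ≤ k := by exact_mod_cast h
      push_cast at s1 s2
      exact sq_le_sq' (by linarith) (by linarith)
    · have : (k : ℝ) + 1 ≤ k0 := by
        have := Finset.ne_of_mem_erase hk
        exact_mod_cast (show k + 1 ≤ k0 by omega)
      rw [← neg_sq ((k : ℝ) + t)]
      exact sq_le_sq' (by linarith) (by linarith)
  have a2 : ∑ k ∈ F.erase k0, ∫ s in Set.Ioc ((j k : ℝ) + t) (j k + t + 1),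
      Real.exp (-β * s ^ 2) ≤ √(Real.pi / β) := by
    rw [← integral_biUnion_finset _ (fun _ _ => measurableSet_Ioc) ?_
      fun _ _ => (integrable_exp_neg_mul_sq hβ).integrableOn, ← integral_gaussian]
    · exact setIntegral_le_integral (integrable_exp_neg_mul_sq hβ)
        (Filter.Eventually.of_forall fun _ => (Real.exp_pos _).le)
    · intro k hk l hl kl
      have b1 := Finset.ne_of_mem_erase hk
      have b2 := Finset.ne_of_mem_erase hl
      have b3 : j k + 1 ≤ j l ∨ j l + 1 ≤ j k := by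
        rw [hj, hj]; split_ifs <;> omega
      refine Set.disjoint_left.2 fun s ⟨s1, s2⟩ ⟨s3, s4⟩ => ?_
      rcases b3 with b | b
      · have : (j k : ℝ) + 1 ≤ j l := by exact_mod_cast b
        linarith
      · have : (j l : ℝ) + 1 ≤ j k := by exact_mod_cast b
        linarith
  have a3 := (Finset.sum_le_sum a1).trans a2
  have a4 : Real.exp (-(β * ((k0 : ℝ) + t) ^ 2)) ≤ 1 :=
    Real.exp_le_one_iff.2 (neg_nonpos.2 (by positivity))
  have a5 := Finset.sum_le_sum_of_subset_of_nonneg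
    (f := fun k : ℤ => Real.exp (-(β * ((k : ℝ) + t) ^ 2))) (Finset.subset_insert_iff.2
      (subset_refl (F.erase k0))) fun _ _ _ => (Real.exp_pos _).le
  rw [Finset.sum_insert (Finset.notMem_erase k0 F)] at a5
  linarith

theorem theta {n : Type} [Fintype n] {β : ℝ} (hβ : 0 < β) (F : Finset (n → ℤ)) (v : n → ℝ) :
    ∑ y ∈ F, Real.exp (-(β * nsq (cv y + v))) ≤ (1 + √(Real.pi / β)) ^ Fintype.card n := by
  classical
  have e : ∀ y : n → ℤ, Real.exp (-(β * nsq (cv y + v))) =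
      ∏ i, Real.exp (-(β * ((y i : ℝ) + v i) ^ 2)) := by
    intro y
    rw [← Real.exp_sum, nsq, dotProduct, Finset.mul_sum, ← Finset.sum_neg_distrib]
    simp only [Pi.add_apply, cv, sq]
  simp only [e]
  refine (Finset.sum_le_sum_of_subset_of_nonneg (t := Fintype.piFinset fun i => F.image (· i))
    (fun y hy => Fintype.mem_piFinset.2 fun i => Finset.mem_image_of_mem _ hy)
    fun _ _ _ => Finset.prod_nonneg fun _ _ => (Real.exp_pos _).le).trans ?_
  rw [← Finset.prod_univ_sum (fun i => F.image (· i))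
    fun i (k : ℤ) => Real.exp (-(β * ((k : ℝ) + v i) ^ 2)), ← Finset.card_univ,
    ← Finset.prod_const]
  exact Finset.prod_le_prod (fun _ _ => Finset.sum_nonneg fun _ _ => (Real.exp_pos _).le)
    fun i _ => theta_one hβ _ _

end Pool.Agent.Lib.MP_fd3021_gt

/-! Lower bound: some shifted lattice sum is at least the integral. -/

namespace Pool.Agent.Lib.MP_fd3021_gt

open Matrix MeasureTheory

/-- an integrable function whose shifted lattice sums are at most `B` has integral at most `B` -/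
theorem glo_integral_le {n : Type} [Fintype n] (h : (n → ℝ) → ℝ) (hh : Integrable h) (B : ℝ)
    (hB : ∀ (F : Finset (n → ℤ)) (v : n → ℝ), ∑ y ∈ F, h (cv y + v) ≤ B) : ∫ x, h x ≤ B := by
  let Q : (n → ℤ) → Set (n → ℝ) := fun y =>
    Set.pi Set.univ fun i => Set.Ico (y i : ℝ) ((y i : ℝ) + 1)
  let Q₀ : Set (n → ℝ) := Set.pi Set.univ fun _ => Set.Ico (0 : ℝ) 1
  have hm : ∀ y, MeasurableSet (Q y) := fun y =>
    MeasurableSet.univ_pi fun _ => measurableSet_Ico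
  have hm₀ : MeasurableSet Q₀ := MeasurableSet.univ_pi fun _ => measurableSet_Ico
  have hfl : ∀ y x, x ∈ Q y ↔ y = fun i => ⌊x i⌋ := by
    intro y x
    simp only [Q, Set.mem_pi, Set.mem_univ, true_imp_iff, Set.mem_Ico, funext_iff]
    exact forall_congr' fun i => by rw [eq_comm, Int.floor_eq_iff]
  have hd : Pairwise (Function.onFun Disjoint Q) := fun y y' hne =>
    Set.disjoint_left.2 fun x hx hx' => hne (((hfl y x).1 hx).trans ((hfl y' x).1 hx').symm)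
  have hU : ⋃ y, Q y = Set.univ :=
    Set.eq_univ_of_forall fun x => Set.mem_iUnion.2 ⟨_, (hfl _ x).2 rfl⟩
  have hs := hasSum_integral_iUnion hm hd (hh.integrableOn (s := ⋃ y, Q y))
  rw [hU, Measure.restrict_univ] at hs
  have hv : volume Q₀ = 1 := by
    simp only [Q₀, Real.volume_pi_Ico, sub_zero, ENNReal.ofReal_one, Finset.prod_const_one]
  have htr : ∀ y, ∫ x in Q y, h x = ∫ v in Q₀, h (cv y + v) := by
    intro y
    rw [← integral_indicator (hm y), ← integral_indicator hm₀,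
      ← integral_add_left_eq_self _ (cv y)]
    refine integral_congr_ae (Filter.Eventually.of_forall fun v => ?_)
    have e : cv y + v ∈ Q y ↔ v ∈ Q₀ := by
      simp only [Q, Q₀, Set.mem_pi, Set.mem_univ, true_imp_iff, Set.mem_Ico, Pi.add_apply, cv,
        le_add_iff_nonneg_right, add_lt_add_iff_left]
    by_cases hv : v ∈ Q₀
    · simp only [Set.indicator_of_mem hv, Set.indicator_of_mem (e.2 hv)]
    · simp only [Set.indicator_of_notMem hv, Set.indicator_of_notMem (mt e.1 hv)]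
  refine hasSum_le_of_sum_le hs fun F => ?_
  have hi : ∀ y ∈ F, Integrable (fun v => h (cv y + v)) (volume.restrict Q₀) := fun y _ =>
    (hh.comp_add_left (cv y)).integrableOn
  have : IsFiniteMeasure (volume.restrict Q₀) :=
    ⟨by rw [Measure.restrict_apply_univ, hv]; exact ENNReal.one_lt_top⟩
  calc ∑ y ∈ F, ∫ x in Q y, h x = ∫ v in Q₀, ∑ y ∈ F, h (cv y + v) := by
        rw [integral_finsetSum _ hi]
        exact Finset.sum_congr rfl fun y _ => htr y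
    _ ≤ ∫ _v in Q₀, B := integral_mono (integrable_finsetSum _ hi) (integrable_const B) (hB F)
    _ = B := by
        rw [setIntegral_const, Measure.real, hv, ENNReal.toReal_one, one_smul]

theorem gauss_lower {n : Type} [Fintype n] [DecidableEq n] (U : Matrix n n ℝ)
    (hU : U * Uᵀ = 1) (w : n → ℝ) (hw : ∀ i, 0 < w i) (B : ℝ)
    (hB : ∀ (F : Finset (n → ℤ)) (v : n → ℝ),
      ∑ y ∈ F, Real.exp (-∑ i, w i * (Uᵀ *ᵥ (cv y + v)) i ^ 2) ≤ B) :
    ∏ i, √(Real.pi / w i) ≤ B := by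
  let g : (n → ℝ) → ℝ := fun t => ∏ i, Real.exp (-w i * t i ^ 2)
  have hg : Integrable g :=
    Integrable.fintype_prod (f := fun i s => Real.exp (-w i * s ^ 2))
      fun i => integrable_exp_neg_mul_sq (hw i)
  have hgi : ∫ t, g t = ∏ i, √(Real.pi / w i) := by
    rw [integral_fintype_prod_volume_eq_prod (fun i s => Real.exp (-w i * s ^ 2))]
    exact Finset.prod_congr rfl fun i _ => integral_gaussian (w i)
  have hdet : |det Uᵀ| = 1 := by
    have h1 := congrArg det hU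
    rw [det_mul, det_one, ← det_transpose U] at h1
    exact abs_eq_abs.2 (mul_self_eq_one_iff.1 h1) |>.trans abs_one
  have hne : det Uᵀ ≠ 0 := fun h => by simp [h] at hdet
  have hmeas : Measurable (toLin' Uᵀ) := (LinearMap.continuous_on_pi _).measurable
  have hmp : MeasurePreserving (toLin' Uᵀ) (volume : Measure (n → ℝ)) volume := by
    refine ⟨hmeas, ?_⟩
    rw [Real.map_matrix_volume_pi_eq_smul_volume_pi hne, abs_inv, hdet, inv_one,
      ENNReal.ofReal_one, one_smul]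
  have hint : ∫ x, g (toLin' Uᵀ x) = ∫ t, g t := by
    rw [← integral_map hmeas.aemeasurable (by rw [hmp.map_eq]; exact hg.aestronglyMeasurable),
      hmp.map_eq]
  rw [← hgi, ← hint]
  refine glo_integral_le _ (hmp.integrable_comp_of_integrable hg) B fun F v => ?_
  refine le_trans (le_of_eq (Finset.sum_congr rfl fun y _ => ?_)) (hB F v)
  simp only [g, Function.comp_apply, toLin'_apply, ← Real.exp_sum, neg_mul, Finset.sum_neg_distrib]

end Pool.Agent.Lib.MP_fd3021_gt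

/-! Splitting off the small eigenvalues. -/

namespace Pool.Agent.Lib.MP_fd3021_gt

open Matrix

variable {m n k : Type} [Fintype m] [Fintype n] [Fintype k]
  [DecidableEq m] [DecidableEq n] [DecidableEq k]

omit [DecidableEq m] [DecidableEq n] [Fintype n] in
theorem dec_symm (D : Matrix m n ℝ) : (Dᵀ * D)ᵀ = Dᵀ * D := by
  rw [transpose_mul, transpose_transpose]

theorem dec_fc_mul {A : Matrix n n ℝ} (h : Aᵀ = A) (g : ℝ → ℝ) :
    fc A g * A = fc A (fun x => g x * x) := by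
  have e := fc_mul A g (fun x => x)
  rwa [fc_id h] at e

theorem dec_mul_fc {A : Matrix n n ℝ} (h : Aᵀ = A) (g : ℝ → ℝ) :
    A * fc A g = fc A (fun x => x * g x) := by
  have e := fc_mul A (fun x => x) g
  rwa [fc_id h] at e

omit [DecidableEq m] [DecidableEq n] in
theorem dec_qf_mul (A : Matrix m m ℝ) (F : Matrix m n ℝ) (y : n → ℝ) :
    qf A (F *ᵥ y) = qf (Fᵀ * A * F) y := by
  rw [qf, qf, ← mulVec_mulVec, ← mulVec_mulVec, dotProduct_mulVec y, vecMul_transpose]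

omit [DecidableEq n] in
theorem dec_qf_add (A B : Matrix n n ℝ) (y : n → ℝ) : qf (A + B) y = qf A y + qf B y := by
  rw [qf, qf, qf, add_mulVec, dotProduct_add]

theorem dec_qf_const (A : Matrix n n ℝ) (c : ℝ) (y : n → ℝ) :
    qf (fc A fun _ => c) y = c * nsq y := by
  rw [qf_fc, ← Finset.mul_sum, ← nsq_eq, nsq_eUT]

theorem dec_qf_fc {A : Matrix n n ℝ} (h : Aᵀ = A) (g : ℝ → ℝ) (y : n → ℝ) :
    qf A (fc A g *ᵥ y) = qf (fc A fun x => g x * x * g x) y := by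
  rw [dec_qf_mul, fc_transpose, dec_fc_mul h, fc_mul]

theorem dec_nsq_fc (A : Matrix n n ℝ) (g : ℝ → ℝ) (y : n → ℝ) :
    nsq (fc A g *ᵥ y) = qf (fc A fun x => g x * g x) y := by
  rw [nsq_mulVec, fc_transpose, fc_mul]

theorem dec_sub_fc (A : Matrix n n ℝ) (g : ℝ → ℝ) (y : n → ℝ) :
    y - fc A g *ᵥ y = fc A (fun x => 1 - g x) *ᵥ y := by
  rw [← fc_sub A (fun _ => 1) g, fc_one, sub_mulVec, one_mulVec]

theorem dec_ne {η x : ℝ} (h : η ^ 2 < x) : x ≠ 0 := ((sq_nonneg η).trans_lt h).ne'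

omit [DecidableEq m] in
theorem Pb_eq (D : Matrix m n ℝ) (η : ℝ) : Pb D η = Gm D η * Dᵀ * D := by
  rw [Matrix.mul_assoc, Gm, dec_fc_mul (dec_symm D), Pb]
  refine fc_congr _ fun i => ?_
  split_ifs with h
  · rw [inv_mul_cancel₀ (dec_ne h)]
  · rw [zero_mul]

omit [DecidableEq m] in
theorem Pb_Pb (D : Matrix m n ℝ) (η : ℝ) : Pb D η * Pb D η = Pb D η := by
  rw [Pb, fc_mul]
  refine fc_congr _ fun i => ?_
  split_ifs <;> simp

omit [DecidableEq m] in
theorem Pb_Gm (D : Matrix m n ℝ) (η : ℝ) : Pb D η * Gm D η = Gm D η := by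
  rw [Pb, Gm, fc_mul]
  refine fc_congr _ fun i => ?_
  split_ifs <;> simp

theorem nsq_DGm (D : Matrix m n ℝ) (η : ℝ) (ξ : m → ℝ) :
    nsq (D *ᵥ (Gm D η *ᵥ (Dᵀ *ᵥ ξ))) ≤ nsq ξ := by
  have h1 : nsq (D *ᵥ (Gm D η *ᵥ (Dᵀ *ᵥ ξ))) = ξ ⬝ᵥ (D *ᵥ (Gm D η *ᵥ (Dᵀ *ᵥ ξ))) := by
    rw [nsq_mulVec, dotProduct_mulVec ξ, ← mulVec_transpose, Gm, dec_qf_fc (dec_symm D), qf]
    congr 2
    refine fc_congr _ fun i => ?_
    split_ifs with h
    · rw [inv_mul_cancel₀ (dec_ne h), one_mul]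
    · rw [mul_zero]
  generalize D *ᵥ (Gm D η *ᵥ (Dᵀ *ᵥ ξ)) = z at h1 ⊢
  have h2 := nsq_nonneg (ξ - z)
  rw [nsq, sub_dotProduct, dotProduct_sub, dotProduct_sub, dotProduct_comm z ξ] at h2
  rw [nsq] at h1
  rw [nsq, nsq]
  linarith

omit [DecidableEq m] in
theorem nsq_sub_Pb (D : Matrix m n ℝ) (η : ℝ) (y : n → ℝ) : nsq (y - Pb D η *ᵥ y) ≤ nsq y := by
  rw [Pb, dec_sub_fc, dec_nsq_fc, ← one_mul (nsq y), ← dec_qf_const (Dᵀ * D)]
  refine qf_fc_le _ (fun i => ?_) y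
  split_ifs <;> simp

theorem qf_Wm (D : Matrix m n ℝ) (η : ℝ) (y : n → ℝ) :
    qf (Wm D η) y = nsq (D *ᵥ (Pb D η *ᵥ y)) + nsq (y - Pb D η *ᵥ y) := by
  rw [Pb, dec_sub_fc, dec_nsq_fc, nsq_mulVec, dec_qf_fc (dec_symm D), ← dec_qf_add, fc_add, Wm]
  congr 1
  refine fc_congr _ fun i => ?_
  split_ifs <;> simp

theorem qf_Wm_le (D : Matrix m n ℝ) (η : ℝ) {K : ℝ} (hK : 1 ≤ K)
    (hD : ∀ y, nsq (D *ᵥ y) ≤ K * nsq y) (y : n → ℝ) : qf (Wm D η) y ≤ K * nsq y := by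
  rw [Wm, ← dec_qf_const (Dᵀ * D)]
  refine qf_fc_le _ (fun i => ?_) y
  split_ifs
  · exact ev_le (dec_symm D) (fun y => by rw [← nsq_mulVec]; exact hD y) i
  · exact hK

/-- `P` is the orthogonal projection to the kernel -/
theorem qf_Wm_ge (D : Matrix m n ℝ) {η : ℝ} (h0 : 0 < η) (h1 : η ≤ 1) : ∃ P : Matrix n n ℝ,
    (∀ z, D *ᵥ z = 0 → P *ᵥ z = z) ∧ ∀ y, nsq (D *ᵥ y) + nsq (P *ᵥ y) ≤ qf (Wm D η) y := by
  refine ⟨fc (Dᵀ * D) ind0, fun z hz => ?_, fun y => ?_⟩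
  · have e : fc (Dᵀ * D) (fun x => 1 - ind0 x) = fc (Dᵀ * D) (fun x => x⁻¹) * (Dᵀ * D) := by
      rw [dec_fc_mul (dec_symm D)]
      refine fc_congr _ fun i => ?_
      unfold ind0
      split_ifs with h
      · rw [h, mul_zero, sub_self]
      · rw [inv_mul_cancel₀ h, sub_zero]
    have e2 := dec_sub_fc (Dᵀ * D) ind0 z
    rw [e, ← mulVec_mulVec, ← mulVec_mulVec, hz, mulVec_zero, mulVec_zero, sub_eq_zero] at e2
    exact e2.symm
  · have e : qf (Dᵀ * D) y = qf (fc (Dᵀ * D) fun x => x) y := by rw [fc_id (dec_symm D)]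
    rw [nsq_mulVec, dec_nsq_fc, e, ← dec_qf_add, fc_add, Wm]
    refine qf_fc_le _ (fun i => ?_) y
    have h2 : η ^ 2 ≤ 1 := pow_le_one₀ h0.le h1
    unfold ind0
    split_ifs with a b b
    · exact absurd a (dec_ne b)
    · rw [a]; norm_num
    · simp
    · rw [mul_zero, add_zero]; exact (not_lt.1 b).trans h2

omit [DecidableEq m] in
theorem prod_weights (D : Matrix m n ℝ) {η a : ℝ} (ha : 0 < a) :
    ∏ i, √(Real.pi / (a * if η ^ 2 < ev (Dᵀ * D) i then ev (Dᵀ * D) i else 1)) =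
      √(Real.pi / a) ^ Fintype.card n * Real.exp (-(ell D η / 2)) := by
  have e : ∀ x : ℝ, √(Real.pi / (a * if η ^ 2 < x then x else 1)) =
      √(Real.pi / a) * Real.exp (-(psi η x / 2)) := fun x => by
    unfold psi
    split_ifs with h
    · have hx : 0 < x := (sq_nonneg η).trans_lt h
      rw [← div_div, Real.sqrt_div' _ hx.le, Real.exp_neg, Real.exp_half, Real.exp_log hx,
        div_eq_mul_inv]
    · simp
  simp only [e]
  rw [Finset.prod_mul_distrib, Finset.prod_const, Finset.card_univ, ← Real.exp_sum, ell, trf,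
    Finset.sum_div, Finset.sum_neg_distrib]

theorem decomp (D : Matrix m n ℝ) (Dp : Matrix n k ℝ) (h : D * Dp = 0) {η : ℝ} (h0 : 0 < η) :
    ∃ T : Matrix n (Fin (cnt (lapR D Dp) η)) ℝ, (∀ t, nsq (T *ᵥ t) ≤ nsq t) ∧
      ∀ y, ∃ t r, nsq t ≤ nsq y ∧ η ^ 2 * nsq r ≤ nsq y ∧
        y = T *ᵥ t + Pb D η *ᵥ y + Dp *ᵥ r := by
  have hL := lapR_symm D Dp
  set L := lapR D Dp with hLd
  let s : Finset n := Finset.univ.filter fun i => ev L i ≤ η ^ 2
  let e : Fin (cnt L η) → n := fun j => (s.equivFin.symm j : n)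
  have he : Function.Injective e := Subtype.val_injective.comp s.equivFin.symm.injective
  have hr : ∀ i, (∃ j, e j = i) ↔ ev L i ≤ η ^ 2 := fun i =>
    ⟨fun ⟨j, hj⟩ => hj ▸ (Finset.mem_filter.1 (s.equivFin.symm j).2).2, fun hi =>
      ⟨s.equivFin ⟨i, Finset.mem_filter.2 ⟨Finset.mem_univ _, hi⟩⟩, by simp [e]⟩⟩
  let E : Matrix n (Fin (cnt L η)) ℝ := (1 : Matrix n n ℝ).submatrix id e
  have E1 : Eᵀ * E = 1 := by
    ext j j'
    simp [E, mul_apply, one_apply, he.eq_iff, eq_comm]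
  have E2 : E * Eᵀ = diagonal fun i => if ev L i ≤ η ^ 2 then 1 else 0 := by
    ext i i'
    simp only [E, mul_apply, submatrix_apply, transpose_apply, id, one_apply, diagonal_apply]
    by_cases hi : ev L i ≤ η ^ 2
    · obtain ⟨j, rfl⟩ := (hr i).2 hi
      rw [Finset.sum_eq_single j (fun j' _ hj => by rw [if_neg (he.ne hj.symm), zero_mul])
        (fun hj => absurd (Finset.mem_univ _) hj)]
      simp [hi, eq_comm]
    · rw [if_neg hi, ite_self]
      exact Finset.sum_eq_zero fun j _ => by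
        rw [if_neg fun hj => hi ((hr i).1 ⟨j, hj.symm⟩), zero_mul]
  have T1 : (eU L * E)ᵀ * (eU L * E) = 1 := by
    rw [transpose_mul, Matrix.mul_assoc, ← Matrix.mul_assoc (eU L)ᵀ, T_mul_eU, Matrix.one_mul, E1]
  have T2 : (eU L * E) * (eU L * E)ᵀ = fc L fun x => if x ≤ η ^ 2 then 1 else 0 := by
    rw [transpose_mul, Matrix.mul_assoc, ← Matrix.mul_assoc E, E2, fc, Matrix.mul_assoc]
  set g : ℝ → ℝ := fun x => if η ^ 2 < x then x⁻¹ else 0 with hg
  have G1 : Dᵀ * D * fc L g = Pb D η := by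
    rw [intertwine hL (dec_symm D) _ g, Pb_eq, Matrix.mul_assoc]
    · rfl
    · rw [hLd, lapR, Matrix.mul_add, Matrix.mul_assoc Dᵀ D (Dp * Dpᵀ), ← Matrix.mul_assoc D Dp, h,
        Matrix.zero_mul, Matrix.mul_zero, add_zero]
  have G2 : (fc L fun x => if x ≤ η ^ 2 then 1 else 0) + L * fc L g = 1 := by
    rw [dec_mul_fc hL, fc_add, ← fc_one L]
    refine fc_congr _ fun i => ?_
    simp only [hg]
    split_ifs with a b b
    · exact absurd b (not_lt.2 a)
    · simp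
    · rw [mul_inv_cancel₀ (dec_ne b), zero_add]
    · exact absurd (not_lt.1 b) a
  refine ⟨eU L * E, fun t => ?_, fun y => ⟨(eU L * E)ᵀ *ᵥ y, Dpᵀ *ᵥ (fc L g *ᵥ y), ?_, ?_, ?_⟩⟩
  · rw [nsq_mulVec, T1, qf, one_mulVec, nsq]
  · rw [nsq_mulVec, transpose_transpose, T2, ← one_mul (nsq y), ← dec_qf_const L]
    refine qf_fc_le _ (fun i => ?_) y
    split_ifs <;> simp
  · have h2 : 0 < η ^ 2 := pow_pos h0 2
    have a1 := qf_lapR D Dp (fc L g *ᵥ y)
    have a2 := nsq_nonneg (D *ᵥ (fc L g *ᵥ y))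
    have a3 : qf L (fc L g *ᵥ y) ≤ (η ^ 2)⁻¹ * nsq y := by
      rw [dec_qf_fc hL, ← dec_qf_const L]
      refine qf_fc_le _ (fun i => ?_) y
      simp only [hg]
      split_ifs with b
      · rw [inv_mul_cancel₀ (dec_ne b), one_mul]
        exact inv_anti₀ h2 b.le
      · rw [mul_zero]; exact (inv_pos.2 h2).le
    rw [← le_inv_mul_iff₀ h2]
    rw [← hLd] at a1
    linarith
  · have a1 : L * fc L g = Pb D η + Dp * (Dpᵀ * fc L g) := by
      rw [← G1, ← Matrix.mul_assoc Dp, ← Matrix.add_mul]; rfl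
    rw [mulVec_mulVec, mulVec_mulVec, mulVec_mulVec, T2, ← add_mulVec, ← add_mulVec, add_assoc,
      Matrix.mul_assoc, ← a1, G2, one_mulVec]

end Pool.Agent.Lib.MP_fd3021_gt

/-! Upper bounds for Gaussian lattice sums. -/

namespace Pool.Agent.Lib.MP_fd3021_gt

open Matrix

theorem gup_nsq_orth {n : Type} [Fintype n] [DecidableEq n] {U : Matrix n n ℝ}
    (hU : U * Uᵀ = 1) (a t : n → ℝ) :
    nsq (a - U *ᵥ t) = ∑ i, ((Uᵀ *ᵥ a) i - t i) ^ 2 := by
  have h1 : Uᵀ * U = 1 := mul_eq_one_comm.1 hU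
  have h2 : nsq (Uᵀ *ᵥ (a - U *ᵥ t)) = nsq (a - U *ᵥ t) := by
    rw [nsq_mulVec, transpose_transpose, hU, qf, one_mulVec, nsq]
  rw [← h2, mulVec_sub, mulVec_mulVec, h1, one_mulVec, nsq_eq]
  rfl

theorem gup_qf_smul {n : Type} [Fintype n] (a : ℝ) (Q : Matrix n n ℝ) (y : n → ℝ) :
    qf (a • Q) y = a * qf Q y := by
  rw [qf, qf, smul_mulVec, dotProduct_smul, smul_eq_mul]

theorem gup_qf_one {n : Type} [Fintype n] [DecidableEq n] (a : ℝ) (y : n → ℝ) :
    qf (a • (1 : Matrix n n ℝ)) y = a * nsq y := by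
  rw [gup_qf_smul, qf, one_mulVec, nsq]

theorem gup_sqrt {β w : ℝ} (h0 : 0 < β) (hw : 0 < w) :
    (1 + √(Real.pi / β)) * √(β / w) = (1 + √(β / Real.pi)) * √(Real.pi / w) := by
  have hp := Real.pi_pos
  rw [add_mul, add_mul, one_mul, one_mul, ← Real.sqrt_mul (by positivity),
    ← Real.sqrt_mul (by positivity), add_comm]
  congr 2 <;> field_simp

theorem gauss_upper {n : Type} [Fintype n] [DecidableEq n] (U : Matrix n n ℝ)
    (hU : U * Uᵀ = 1) (w : n → ℝ) {β : ℝ} (hw : ∀ i, 0 < w i) (hβ : ∀ i, w i < β) (h0 : 0 < β)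
    (F : Finset (n → ℤ)) (v : n → ℝ) :
    ∑ y ∈ F, Real.exp (-∑ i, w i * (Uᵀ *ᵥ (cv y + v)) i ^ 2) ≤
      (1 + √(β / Real.pi)) ^ Fintype.card n * ∏ i, √(Real.pi / w i) := by
  have hs : ∀ i, 0 < β - w i := fun i => sub_pos.2 (hβ i)
  have key := conv F (fun y t => ∑ i, β * ((Uᵀ *ᵥ (cv y + v)) i - t i) ^ 2) (fun _ => β)
    (fun i => β * w i / (β - w i)) ((1 + √(Real.pi / β)) ^ Fintype.card n) (fun _ => h0.le)
    (fun i => div_pos (mul_pos h0 (hw i)) (hs i)) (fun y => by fun_prop)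
    (fun y t => Finset.sum_nonneg fun i _ => by positivity)
    (fun y t s => by
      rw [Finset.mul_sum, Finset.mul_sum, ← Finset.sum_add_distrib, ← Finset.sum_add_distrib]
      refine le_of_eq (Finset.sum_congr rfl fun i _ => ?_)
      simp only [Pi.add_apply, Pi.sub_apply]
      ring)
    (fun t => by
      refine le_trans (le_of_eq (Finset.sum_congr rfl fun y _ => ?_)) (theta h0 F (v - U *ᵥ t))
      rw [← add_sub_assoc, gup_nsq_orth hU, Finset.mul_sum])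
    (fun y i => (β - w i) / β * (Uᵀ *ᵥ (cv y + v)) i)
  refine le_trans (le_of_eq (Finset.sum_congr rfl fun y _ => ?_)) (key.trans (le_of_eq ?_))
  · rw [← Finset.sum_add_distrib]
    congr 2
    refine Finset.sum_congr rfl fun i _ => ?_
    have := hs i
    beta_reduce
    field_simp
    ring
  · rw [← Finset.card_univ, ← Finset.prod_const, ← Finset.prod_const, ← Finset.prod_mul_distrib,
      ← Finset.prod_mul_distrib]
    refine Finset.prod_congr rfl fun i _ => ?_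
    rw [← gup_sqrt h0 (hw i)]
    congr 2
    have := hs i
    have := hw i
    field_simp
    ring

theorem label_sum {k κ1 κ2 : Type} [Fintype k] [Fintype κ1] [Fintype κ2] (E : Finset (k → ℤ))
    (T1 : Matrix k κ1 ℝ) (T2 : Matrix k κ2 ℝ) {β γ1 γ2 M : ℝ} (hβ : 0 < β) (h1 : 0 < γ1)
    (h2 : 0 < γ2) (hT1 : ∀ t, nsq (T1 *ᵥ t) ≤ nsq t) (hT2 : ∀ t, nsq (T2 *ᵥ t) ≤ M ^ 2 * nsq t)
    (t1 : (k → ℤ) → κ1 → ℝ) (t2 : (k → ℤ) → κ2 → ℝ)
    (he : ∀ e ∈ E, cv e = T1 *ᵥ t1 e + T2 *ᵥ t2 e) :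
    ∑ e ∈ E, Real.exp (-(γ1 * nsq (t1 e) + γ2 * nsq (t2 e))) ≤
      (1 + √(Real.pi / β)) ^ Fintype.card k * √((β + γ1) / γ1) ^ Fintype.card κ1 *
        √((β * M ^ 2 + γ2) / γ2) ^ Fintype.card κ2 := by
  classical
  have hQ : ∀ v : k → ℝ, 0 ≤ qf (β • (1 : Matrix k k ℝ)) v := fun v => by
    rw [gup_qf_one]
    exact mul_nonneg hβ.le (nsq_nonneg v)
  have s1 := conv_quad E (β • (1 : Matrix k k ℝ)) T1 cv (fun _ => 0) β γ1
    ((1 + √(Real.pi / β)) ^ Fintype.card k) hβ.le h1 hQ (fun _ => le_rfl)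
    (fun t => by
      rw [gup_qf_one]
      exact mul_le_mul_of_nonneg_left (hT1 t) hβ.le)
    (fun v => by
      simp only [gup_qf_one, add_zero]
      exact theta hβ E v) t1
  have s2 := conv_quad E (β • (1 : Matrix k k ℝ)) T2 (fun e => cv e - T1 *ᵥ t1 e)
    (fun e => 0 + γ1 * nsq (t1 e)) (β * M ^ 2) γ2 _ (by positivity) h2 hQ
    (fun e => by
      rw [zero_add]
      exact mul_nonneg h1.le (nsq_nonneg _))
    (fun t => by
      rw [gup_qf_one, mul_assoc]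
      exact mul_le_mul_of_nonneg_left (hT2 t) hβ.le) s1 t2 0
  refine le_trans (le_of_eq (Finset.sum_congr rfl fun e h => ?_)) s2
  have h0 : cv e - T1 *ᵥ t1 e - T2 *ᵥ t2 e + 0 = 0 := by
    rw [he e h]
    abel
  rw [h0, qf, zero_dotProduct, zero_add, zero_add]

theorem main_sum {m n κ : Type} [Fintype m] [Fintype n] [Fintype κ] [DecidableEq m]
    [DecidableEq n] (D : Matrix m n ℝ) (T : Matrix n κ ℝ) {η a γ K : ℝ} (ha : 0 < a)
    (hγ : 0 < γ) (hK : 1 ≤ K) (hD : ∀ y, nsq (D *ᵥ y) ≤ K * nsq y)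
    (hT : ∀ t, nsq (T *ᵥ t) ≤ nsq t) (F : Finset (n → ℤ)) (v : n → ℝ)
    (t : (n → ℤ) → κ → ℝ) :
    ∑ y ∈ F, Real.exp (-(a * qf (Wm D η) (cv y - T *ᵥ t y + v) + γ * nsq (t y))) ≤
      √(Real.pi / a) ^ Fintype.card n * Real.exp (-(ell D η / 2)) *
        (1 + √(2 * a * K / Real.pi)) ^ Fintype.card n * √((a * K + γ) / γ) ^ Fintype.card κ := by
  have hs : (Dᵀ * D)ᵀ = Dᵀ * D := by rw [transpose_mul, transpose_transpose]
  have hw0 : ∀ i, 0 < (if η ^ 2 < ev (Dᵀ * D) i then ev (Dᵀ * D) i else 1) := fun i => by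
    split_ifs with h
    · exact lt_of_le_of_lt (sq_nonneg η) h
    · exact one_pos
  have hw1 : ∀ i, (if η ^ 2 < ev (Dᵀ * D) i then ev (Dᵀ * D) i else 1) ≤ K := fun i => by
    split_ifs with h
    · exact ev_le hs (fun y => by rw [← nsq_mulVec]; exact hD y) i
    · exact hK
  have hq : ∀ y, qf (a • Wm D η) y = ∑ i,
      (a * if η ^ 2 < ev (Dᵀ * D) i then ev (Dᵀ * D) i else 1) *
        ((eU (Dᵀ * D))ᵀ *ᵥ y) i ^ 2 := fun y => by
    rw [gup_qf_smul, Wm, qf_fc, Finset.mul_sum]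
    exact Finset.sum_congr rfl fun i _ => (mul_assoc _ _ _).symm
  have hK0 : 0 < K := lt_of_lt_of_le one_pos hK
  have s1 := conv_quad F (a • Wm D η) T cv (fun _ => 0) (a * K) γ _ (by positivity) hγ
    (fun y => by
      rw [hq]
      exact Finset.sum_nonneg fun i _ => mul_nonneg (mul_pos ha (hw0 i)).le (sq_nonneg _))
    (fun _ => le_rfl)
    (fun y => by
      rw [gup_qf_smul, mul_assoc]
      exact mul_le_mul_of_nonneg_left ((qf_Wm_le D η hK hD _).trans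
        (mul_le_mul_of_nonneg_left (hT y) hK0.le)) ha.le)
    (fun u => by
      simp only [hq, add_zero]
      exact gauss_upper (eU (Dᵀ * D)) (eU_mul_T _) _ (β := 2 * a * K)
        (fun i => mul_pos ha (hw0 i))
        (fun i => by nlinarith [mul_le_mul_of_nonneg_left (hw1 i) ha.le, mul_pos ha hK0])
        (by positivity) F u) t v
  rw [prod_weights D ha] at s1
  simp only [gup_qf_smul, zero_add] at s1
  refine s1.trans (le_of_eq ?_)
  ring

end Pool.Agent.Lib.MP_fd3021_gt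

/-! The sums `SS` and the inequality (I). -/

namespace Pool.Agent.Lib.MP_fd3021_gt

open Matrix

variable {n0 n1 n2 : Type} [Fintype n0] [Fintype n1] [Fintype n2]

omit [Fintype n0] in
theorem le_SS {a : ℝ} (ha : 0 < a) (D : Matrix n0 n1 ℤ) (F : Finset (n1 → ℤ)) (v : n1 → ℝ)
    (hF : ∀ z ∈ F, D *ᵥ z = 0) : ∑ z ∈ F, Real.exp (-(a * nsq (cv z + v))) ≤ SS a D := by
  refine le_csSup ⟨(1 + √(Real.pi / a)) ^ Fintype.card n1, ?_⟩ ⟨F, v, hF, rfl⟩
  rintro _ ⟨F, v, -, rfl⟩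
  exact theta ha F v

omit [Fintype n0] in
theorem low_SS_le {a B : ℝ} (D : Matrix n0 n1 ℤ)
    (h : ∀ (F : Finset (n1 → ℤ)) (v : n1 → ℝ), (∀ z ∈ F, D *ᵥ z = 0) →
      ∑ z ∈ F, Real.exp (-(a * nsq (cv z + v))) ≤ B) : SS a D ≤ B := by
  refine csSup_le ⟨_, ∅, 0, by simp, rfl⟩ ?_
  rintro _ ⟨F, v, hF, rfl⟩
  exact h F v hF

omit [Fintype n0] in
theorem one_le_SS {a : ℝ} (ha : 0 < a) (D : Matrix n0 n1 ℤ) : 1 ≤ SS a D := by
  have := le_SS ha D {0} 0 (by simp)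
  simpa [cv_zero, nsq] using this

omit [Fintype n0] in
theorem SS_empty [IsEmpty n1] {a : ℝ} (ha : 0 < a) (D : Matrix n0 n1 ℤ) : SS a D = 1 := by
  refine le_antisymm (low_SS_le D fun F v _ => ?_) (one_le_SS ha D)
  simpa using theta ha F v

omit [Fintype n0] in
theorem SS_mul_le {a B : ℝ} (ha : 0 < a) (Dm : Matrix n0 n1 ℤ) (D : Matrix n1 n2 ℤ)
    (h : ∀ (F' : Finset (n1 → ℤ)) (u : n1 → ℝ) (F : Finset (n2 → ℤ)) (v : n2 → ℝ),
      (∀ x ∈ F', Dm *ᵥ x = 0) → (∀ z ∈ F, D *ᵥ z = 0) →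
      (∑ x ∈ F', Real.exp (-(a * nsq (cv x + u)))) *
        (∑ z ∈ F, Real.exp (-(a * nsq (cv z + v)))) ≤ B) : SS a Dm * SS a D ≤ B := by
  have hp : 0 < SS a D := one_pos.trans_le (one_le_SS ha D)
  rw [← le_div_iff₀ hp]
  refine low_SS_le Dm fun F' u hF' => ?_
  rw [le_div_iff₀ hp]
  rcases (Finset.sum_nonneg fun x (_ : x ∈ F') =>
    (Real.exp_pos (-(a * nsq (cv x + u)))).le).eq_or_lt with h0 | h0
  · rw [← h0, zero_mul]
    simpa using h ∅ u ∅ 0 (by simp) (by simp)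
  · rw [← le_div_iff₀' h0]
    refine low_SS_le D fun F v hF => ?_
    rw [le_div_iff₀' h0]
    exact h F' u F v hF' hF

omit [Fintype n0] in
/-- recentring: it suffices to treat shifts `u` with `|x| ≤ 2 |x + u|` on `F'` -/
theorem SS_mul_le' {a B : ℝ} (ha : 0 < a) (hB : 0 ≤ B) (Dm : Matrix n0 n1 ℤ) (D : Matrix n1 n2 ℤ)
    (h : ∀ (F' : Finset (n1 → ℤ)) (u : n1 → ℝ) (F : Finset (n2 → ℤ)) (v : n2 → ℝ),
      (∀ x ∈ F', Dm *ᵥ x = 0) → (∀ z ∈ F, D *ᵥ z = 0) →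
      (∀ x ∈ F', nsq (cv x) ≤ 4 * nsq (cv x + u)) →
      (∑ x ∈ F', Real.exp (-(a * nsq (cv x + u)))) *
        (∑ z ∈ F, Real.exp (-(a * nsq (cv z + v)))) ≤ B) : SS a Dm * SS a D ≤ B := by
  classical
  refine SS_mul_le ha Dm D fun F' u F v hF' hF => ?_
  rcases F'.eq_empty_or_nonempty with rfl | hne
  · simpa using hB
  obtain ⟨x₀, hx₀, hmin⟩ := F'.exists_min_image (fun x => nsq (cv x + u)) hne
  have e : ∀ x : n1 → ℤ, cv (x - x₀) + (u + cv x₀) = cv x + u := fun x => by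
    rw [cv_sub]; abel
  have := h (F'.image (· - x₀)) (u + cv x₀) F v (fun x hx => by
      obtain ⟨y, hy, rfl⟩ := Finset.mem_image.1 hx
      rw [mulVec_sub, hF' y hy, hF' x₀ hx₀, sub_zero]) hF (fun x hx => by
      obtain ⟨y, hy, rfl⟩ := Finset.mem_image.1 hx
      have h1 := nsq_sub_le (cv y + u) (cv x₀ + u)
      have h2 := hmin y hy
      rw [e, cv_sub, show cv y - cv x₀ = cv y + u - (cv x₀ + u) by abel]
      linarith)
  rw [Finset.sum_image fun x _ y _ h => sub_left_injective h] at this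
  simpa only [e] using this

omit [Fintype n0] in
/-- inequality (I) -/
theorem lower [DecidableEq n1] [DecidableEq n2] {a η : ℝ} (ha : 0 < a) (h0 : 0 < η) (h1 : η ≤ 1)
    (Dm : Matrix n0 n1 ℤ) (D : Matrix n1 n2 ℤ) (h : Dm * D = 0) :
    (Fintype.card n2 : ℝ) / 2 * Real.log (Real.pi / a) - ell (cm D) η / 2 ≤
      Real.log (SS a Dm) + Real.log (SS a D) := by
  have p1 : 0 < SS a Dm := one_pos.trans_le (one_le_SS ha Dm)
  have p2 : 0 < SS a D := one_pos.trans_le (one_le_SS ha D)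
  obtain ⟨P, hP, hW⟩ := qf_Wm_ge (cm D) h0 h1
  have key := gauss_lower (eU ((cm D)ᵀ * cm D)) (eU_mul_T _)
    (fun i => a * if η ^ 2 < ev ((cm D)ᵀ * cm D) i then ev ((cm D)ᵀ * cm D) i else 1)
    (fun i => by
      split_ifs with hi
      · exact mul_pos ha ((sq_nonneg η).trans_lt hi)
      · simpa using ha) (SS a Dm * SS a D) fun F v => by
    have e1 : ∀ y : n2 → ℤ, ∑ i, (a * if η ^ 2 < ev ((cm D)ᵀ * cm D) i then ev ((cm D)ᵀ * cm D) i
        else 1) * ((eU ((cm D)ᵀ * cm D))ᵀ *ᵥ (cv y + v)) i ^ 2 =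
        a * qf (Wm (cm D) η) (cv y + v) := fun y => by
      rw [Wm, qf_fc, Finset.mul_sum]
      exact Finset.sum_congr rfl fun i _ => mul_assoc _ _ _
    simp only [e1]
    rw [← Finset.sum_fiberwise_of_maps_to (g := fun y => D *ᵥ y) (t := F.image fun y => D *ᵥ y)
      fun y hy => Finset.mem_image_of_mem _ hy]
    refine le_trans (Finset.sum_le_sum (g := fun x =>
      Real.exp (-(a * nsq (cv x + cm D *ᵥ v))) * SS a D) fun x hx => ?_) ?_
    · obtain ⟨y₀, -, rfl⟩ := Finset.mem_image.1 hx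
      have h2 := le_SS ha D ((F.filter fun y => D *ᵥ y = D *ᵥ y₀).image (· - y₀))
        (P *ᵥ (cv y₀ + v)) fun z hz => by
          obtain ⟨y, hy, rfl⟩ := Finset.mem_image.1 hz
          rw [mulVec_sub, (Finset.mem_filter.1 hy).2, sub_self]
      rw [Finset.sum_image fun x _ y _ h => sub_left_injective h] at h2
      refine le_trans ?_ (mul_le_mul_of_nonneg_left h2 (Real.exp_pos _).le)
      rw [Finset.mul_sum]
      refine Finset.sum_le_sum fun y hy => ?_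
      have hy' := (Finset.mem_filter.1 hy).2
      have e2 : P *ᵥ (cv y + v) = cv (y - y₀) + P *ᵥ (cv y₀ + v) := by
        rw [← hP (cv (y - y₀)) (by rw [← cv_mulVec, mulVec_sub, hy', sub_self, cv_zero]),
          ← mulVec_add, cv_sub]
        congr 1
        abel
      have e3 : cm D *ᵥ (cv y + v) = cv (D *ᵥ y₀) + cm D *ᵥ v := by
        rw [mulVec_add, ← cv_mulVec, hy']
      have h3 := hW (cv y + v)
      rw [e2, e3] at h3
      rw [← Real.exp_add, Real.exp_le_exp]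
      nlinarith
    · rw [← Finset.sum_mul]
      refine mul_le_mul_of_nonneg_right (le_SS ha Dm _ _ fun x hx => ?_) p2.le
      obtain ⟨y, -, rfl⟩ := Finset.mem_image.1 hx
      rw [mulVec_mulVec, h, zero_mulVec]
  rw [prod_weights (cm D) ha] at key
  have hpa : 0 < Real.pi / a := div_pos Real.pi_pos ha
  have := Real.log_le_log (by positivity) key
  rw [Real.log_mul p1.ne' p2.ne', Real.log_mul (by positivity) (Real.exp_pos _).ne',
    Real.log_exp, Real.log_pow, Real.log_sqrt hpa.le] at this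
  linarith

end Pool.Agent.Lib.MP_fd3021_gt

/-! Construction of labels and integral fillings. -/

namespace Pool.Agent.Lib.MP_fd3021_gt

open Matrix

variable {n0 n1 n2 n3 k1 k2 κ1 κ2 κ3 : Type} [Fintype n0] [Fintype n1] [Fintype n2] [Fintype n3]
  [Fintype k1] [Fintype k2] [Fintype κ1] [Fintype κ2] [Fintype κ3]
  [DecidableEq n0] [DecidableEq n1] [DecidableEq n2]

theorem cons_Pb {m n : Type} [Fintype m] [Fintype n] [DecidableEq n] (D : Matrix m n ℝ) (η : ℝ)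
    {v : n → ℝ} (h : D *ᵥ v = 0) : Pb D η *ᵥ v = 0 := by
  rw [Pb_eq, ← mulVec_mulVec, h, mulVec_zero]

theorem cons_add {n : Type} [Fintype n] (x y : n → ℝ) : nsq (x + y) ≤ 2 * nsq x + 2 * nsq y := by
  have := nsq_add_le x y one_pos
  rw [inv_one] at this
  linarith

theorem cons_rho {A B : Type} (F : Finset A) (e : A → B) (φ : A → ℝ) (a0 : A) :
    ∃ ρ : B → A, ∀ x ∈ F, ρ (e x) ∈ F ∧ e (ρ (e x)) = e x ∧ φ (ρ (e x)) ≤ φ x := by
  classical
  have key : ∀ b : B, ∃ a : A, ∀ x ∈ F, e x = b → a ∈ F ∧ e a = b ∧ φ a ≤ φ x := by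
    intro b
    by_cases h : (F.filter fun x => e x = b).Nonempty
    · obtain ⟨a, ha, hmin⟩ := Finset.exists_min_image _ φ h
      rw [Finset.mem_filter] at ha
      exact ⟨a, fun x hx hb => ⟨ha.1, ha.2, hmin x (Finset.mem_filter.2 ⟨hx, hb⟩)⟩⟩
    · exact ⟨a0, fun x hx hb => absurd ⟨x, Finset.mem_filter.2 ⟨hx, hb⟩⟩ h⟩
  choose ρ hρ using key
  exact ⟨ρ, fun x hx => hρ (e x) x hx rfl⟩

theorem construct (Dm : Matrix n0 n1 ℤ) (D : Matrix n1 n2 ℤ) (Dp : Matrix n2 n3 ℤ)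
    (f : Matrix k1 n1 ℤ) (g : Matrix n1 k1 ℤ) (s : Matrix n2 n1 ℤ) (D' : Matrix k1 k2 ℤ)
    (f' : Matrix k2 n2 ℤ) (g' : Matrix n2 k2 ℤ) {M η : ℝ} (hM : 1 ≤ M) (h0 : 0 < η) (h1 : η ≤ 1)
    (hDD : D * Dp = 0)
    (hx : ∀ x : n1 → ℤ, Dm *ᵥ x = 0 → g *ᵥ (f *ᵥ x) + D *ᵥ (s *ᵥ x) = x)
    (hf : f * D = D' * f') (hg : g * D' = D * g') (bf' : RC f' M) (bg' : RC g' M) (bs : RC s M)
    (T1 : Matrix k1 κ1 ℝ)
    (hT1 : ∀ ω, ∃ t, T1 *ᵥ t = cm D' *ᵥ ω ∧ nsq t ≤ nsq (cm D' *ᵥ ω))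
    (T2 : Matrix n1 κ2 ℝ)
    (hT2 : ∀ x, ∃ t r, nsq t ≤ nsq x ∧ η ^ 2 * nsq r ≤ nsq x ∧
      x = T2 *ᵥ t + Pb (cm Dm) η *ᵥ x + cm D *ᵥ r)
    (T3 : Matrix n2 κ3 ℝ)
    (hT3 : ∀ y, ∃ t r, nsq t ≤ nsq y ∧ η ^ 2 * nsq r ≤ nsq y ∧
      y = T3 *ᵥ t + Pb (cm D) η *ᵥ y + cm Dp *ᵥ r)
    (F : Finset (n1 → ℤ)) (hF : ∀ x ∈ F, Dm *ᵥ x = 0) :
    ∃ (e : (n1 → ℤ) → k1 → ℤ) (ρ : (k1 → ℤ) → n1 → ℤ) (y : (n1 → ℤ) → n2 → ℤ)
      (t1 : (k1 → ℤ) → κ1 → ℝ) (t2 : (k1 → ℤ) → κ2 → ℝ) (t3 : (n1 → ℤ) → κ3 → ℝ)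
      (b : (n1 → ℤ) → n2 → ℝ), ∀ x ∈ F,
      cv (e x) = T1 *ᵥ t1 (e x) + (cm f * T2) *ᵥ t2 (e x) ∧
      nsq (t1 (e x)) ≤ frob (cm D') ∧ nsq (t2 (e x)) ≤ nsq (cv x) ∧
      D *ᵥ y x = x - ρ (e x) ∧
      cv (y x) = T3 *ᵥ t3 x + Pb (cm D) η *ᵥ cv (y x) + b x ∧ cm D *ᵥ b x = 0 ∧
      nsq (b x) ≤ frob (cm Dp) ∧
      nsq (t3 x) ≤ 32 * M ^ 4 / η ^ 2 * nsq (cv x) + 16 * M ^ 2 * Fintype.card k2 := by
  choose t r ht hr hdec using fun x : n1 → ℤ => hT2 (cv x)
  choose w hw1 hw2 using fun x : n1 → ℤ => round_vec (cm D') (cm f' *ᵥ r x)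
  choose τ hτ1 hτ2 using fun x : n1 → ℤ => hT1 (cm f' *ᵥ r x - cv (w x))
  obtain ⟨e, he⟩ : ∃ e : (n1 → ℤ) → k1 → ℤ, ∀ x, e x = f *ᵥ x - D' *ᵥ w x := ⟨_, fun _ => rfl⟩
  obtain ⟨ρ, hρ⟩ := cons_rho F e (fun x => nsq (cv x)) 0
  obtain ⟨y0, hy0⟩ : ∃ y0 : (n1 → ℤ) → n2 → ℤ,
      ∀ x, y0 x = g' *ᵥ (w x - w (ρ (e x))) + s *ᵥ (x - ρ (e x)) := ⟨_, fun _ => rfl⟩
  choose t3 r3 ht3 _ hdec3 using fun x : n1 → ℤ => hT3 (cv (y0 x))
  choose r0 hr0 _ using fun x : n1 → ℤ => round_vec (cm Dp) (r3 x)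
  have hcDD : cm D * cm Dp = 0 := by rw [← cm_mul, hDD, cm_zero]
  have hcf : cm f * cm D = cm D' * cm f' := by rw [← cm_mul, ← cm_mul, hf]
  have hη2 : 0 < η ^ 2 := pow_pos h0 2
  have hM2 : 0 ≤ M ^ 2 := sq_nonneg M
  have hE : ∀ x ∈ F, cv (e x) = T1 *ᵥ τ x + (cm f * T2) *ᵥ t x := by
    intro x hxF
    have h2 : Pb (cm Dm) η *ᵥ cv x = 0 :=
      cons_Pb _ _ (by rw [← cv_mulVec, hF x hxF, cv_zero])
    have h3 := hdec x
    rw [h2, add_zero] at h3
    have h4 : cm f *ᵥ cv x = (cm f * T2) *ᵥ t x + cm D' *ᵥ (cm f' *ᵥ r x) := by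
      rw [mulVec_mulVec, ← hcf, ← mulVec_mulVec, ← mulVec_mulVec, ← mulVec_add, ← h3]
    rw [he, cv_sub, cv_mulVec, cv_mulVec, hτ1, mulVec_sub, h4]
    abel
  have hW : ∀ x (X : ℝ), nsq (cv x) ≤ X →
      nsq (cv (w x)) ≤ 2 * (M ^ 2 * (X / η ^ 2)) + 2 * Fintype.card k2 := by
    intro x X hX
    have h2 : cv (w x) = cm f' *ᵥ r x - (cm f' *ᵥ r x - cv (w x)) := by abel
    have h3 := nsq_sub_le (cm f' *ᵥ r x) (cm f' *ᵥ r x - cv (w x))
    rw [← h2] at h3
    have h4 : nsq (r x) ≤ X / η ^ 2 := by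
      rw [le_div_iff₀ hη2, mul_comm]
      exact (hr x).trans hX
    have h5 := (bf'.nsq_le (r x)).trans (mul_le_mul_of_nonneg_left h4 hM2)
    have h6 := hw2 x
    linarith
  refine ⟨e, ρ, fun x => y0 x - Dp *ᵥ r0 x, fun b => τ (ρ b), fun b => t (ρ b), t3,
    fun x => cm Dp *ᵥ (r3 x - cv (r0 x)), fun x hxF => ?_⟩
  obtain ⟨h2, h3, h4⟩ := hρ x hxF
  refine ⟨?_, (hτ2 _).trans (hw1 _), (ht _).trans h4, ?_, ?_, ?_, hr0 x, ?_⟩
  · have := hE _ h2
    rw [h3] at this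
    exact this
  · have h5 : D' *ᵥ (w x - w (ρ (e x))) = f *ᵥ (x - ρ (e x)) := by
      have h6 := (he (ρ (e x))).symm.trans h3
      have h7 := he x
      rw [mulVec_sub, mulVec_sub]
      linear_combination h6 + h7
    have h6 : D *ᵥ y0 x = x - ρ (e x) := by
      rw [hy0, mulVec_add, mulVec_mulVec, ← hg, ← mulVec_mulVec, h5]
      exact hx _ (by rw [mulVec_sub, hF x hxF, hF _ h2, sub_zero])
    change D *ᵥ (y0 x - Dp *ᵥ r0 x) = _
    rw [mulVec_sub, h6, mulVec_mulVec, hDD, zero_mulVec, sub_zero]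
  · have h5 : Pb (cm D) η *ᵥ (cm Dp *ᵥ cv (r0 x)) = 0 :=
      cons_Pb _ _ (by rw [mulVec_mulVec, hcDD, zero_mulVec])
    change cv (y0 x - Dp *ᵥ r0 x) = T3 *ᵥ t3 x + Pb (cm D) η *ᵥ cv (y0 x - Dp *ᵥ r0 x) +
      cm Dp *ᵥ (r3 x - cv (r0 x))
    rw [cv_sub, cv_mulVec, mulVec_sub, mulVec_sub, h5, sub_zero]
    linear_combination hdec3 x
  · change cm D *ᵥ (cm Dp *ᵥ (r3 x - cv (r0 x))) = 0
    rw [mulVec_mulVec, hcDD, zero_mulVec]
  · have hX : 0 ≤ nsq (cv x) := nsq_nonneg _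
    have a1 := hW x _ le_rfl
    have a2 := hW _ _ h4
    have a3 := nsq_sub_le (cv (w x)) (cv (w (ρ (e x))))
    have a4 := nsq_sub_le (cv x) (cv (ρ (e x)))
    have a5 := bg'.nsq_le (cv (w x) - cv (w (ρ (e x))))
    have a6 := bs.nsq_le (cv x - cv (ρ (e x)))
    have a7 := cons_add (cm g' *ᵥ (cv (w x) - cv (w (ρ (e x))))) (cm s *ᵥ (cv x - cv (ρ (e x))))
    have a8 : cv (y0 x) =
        cm g' *ᵥ (cv (w x) - cv (w (ρ (e x)))) + cm s *ᵥ (cv x - cv (ρ (e x))) := by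
      rw [hy0, cv_add, cv_mulVec, cv_mulVec, cv_sub, cv_sub]
    rw [← a8] at a7
    have a9 := ht3 x
    have b1 : nsq (cv (w x) - cv (w (ρ (e x)))) ≤
        8 * (M ^ 2 * (nsq (cv x) / η ^ 2)) + 8 * Fintype.card k2 := by linarith
    have b2 : nsq (cv x - cv (ρ (e x))) ≤ 4 * nsq (cv x) := by linarith
    have b3 := mul_le_mul_of_nonneg_left b1 hM2
    have b4 := mul_le_mul_of_nonneg_left b2 hM2
    have b5 : nsq (cv x) ≤ nsq (cv x) / η ^ 2 :=
      le_div_self hX hη2 (pow_le_one₀ h0.le h1)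
    have b6 : nsq (cv x) / η ^ 2 ≤ M ^ 2 * (nsq (cv x) / η ^ 2) :=
      le_mul_of_one_le_left (hX.trans b5) (one_le_pow₀ hM)
    have b7 := mul_le_mul_of_nonneg_left (b5.trans b6) hM2
    have b8 : 0 ≤ M ^ 2 * nsq (cv x) := mul_nonneg hM2 hX
    have b9 : 32 * M ^ 4 / η ^ 2 * nsq (cv x) = 32 * (M ^ 2 * (M ^ 2 * (nsq (cv x) / η ^ 2))) := by
      ring
    rw [b9]
    linarith

end Pool.Agent.Lib.MP_fd3021_gt

/-! The inequality (II) with explicit constants. -/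

namespace Pool.Agent.Lib.MP_fd3021_gt

open Matrix

variable {n0 n1 n2 n3 k1 k2 : Type} [Fintype n0] [Fintype n1] [Fintype n2] [Fintype n3]
  [Fintype k1] [Fintype k2] [DecidableEq n0] [DecidableEq n1] [DecidableEq n2] [DecidableEq n3]

/-- the pointwise inequality behind (II) -/
theorem point_le (D : Matrix n1 n2 ℝ) {η κ : ℝ} (hκ : 0 < κ) (y z v b τ : n2 → ℝ)
    (x ρ u : n1 → ℝ) (hy : D *ᵥ y = x - ρ) (hz : D *ᵥ z = 0) (hb : D *ᵥ b = 0)
    (hd : y = τ + Pb D η *ᵥ y + b) :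
    qf (Wm D η) (y + z - τ + (Gm D η *ᵥ (Dᵀ *ᵥ (ρ + u)) + (v - Pb D η *ᵥ v))) ≤
      nsq (x + u) + (1 + κ) * nsq (z + v) + (1 + κ⁻¹) * nsq b := by
  have hP : ∀ w, Pb D η *ᵥ w = Gm D η *ᵥ (Dᵀ *ᵥ (D *ᵥ w)) := fun w => by
    rw [Pb_eq, mulVec_mulVec, mulVec_mulVec]
  have hPz : Pb D η *ᵥ z = 0 := by rw [hP, hz, mulVec_zero, mulVec_zero]
  have hPb : Pb D η *ᵥ b = 0 := by rw [hP, hb, mulVec_zero, mulVec_zero]
  have hPy : Pb D η *ᵥ y + Gm D η *ᵥ (Dᵀ *ᵥ (ρ + u)) = Gm D η *ᵥ (Dᵀ *ᵥ (x + u)) := by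
    rw [hP, hy, ← mulVec_add, ← mulVec_add]
    congr 2
    abel
  set A := Gm D η *ᵥ (Dᵀ *ᵥ (x + u)) with hA
  set c := (z + v) - Pb D η *ᵥ (z + v) with hc
  have hτ : y - τ = Pb D η *ᵥ y + b := by
    rw [sub_eq_iff_eq_add]
    exact hd.trans (by abel)
  have hW : y + z - τ + (Gm D η *ᵥ (Dᵀ *ᵥ (ρ + u)) + (v - Pb D η *ᵥ v)) = A + (c + b) := by
    rw [← hPy, hc, mulVec_add (Pb D η), hPz, show y + z - τ = (y - τ) + z by abel, hτ]
    abel
  have hPA : Pb D η *ᵥ A = A := by rw [hA, mulVec_mulVec, Pb_Gm]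
  have hPc : Pb D η *ᵥ c = 0 := by rw [hc, mulVec_sub, mulVec_mulVec, Pb_Pb, sub_self]
  have hPW : Pb D η *ᵥ (A + (c + b)) = A := by
    rw [mulVec_add, mulVec_add, hPA, hPc, hPb, add_zero, add_zero]
  rw [hW, qf_Wm, hPW, add_sub_cancel_left]
  have h1 := nsq_DGm D η (x + u)
  have h2 := nsq_add_le c b hκ
  have h3 := mul_le_mul_of_nonneg_left (nsq_sub_Pb D η (z + v)) (show 0 ≤ 1 + κ by linarith)
  linarith

/-- the inner sum over the pairs with a fixed label -/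
theorem up_inner (D : Matrix n1 n2 ℤ) {κ3 : Type} [Fintype κ3] (T3 : Matrix n2 κ3 ℝ)
    {η a γ K : ℝ} (ha : 0 < a) (hγ : 0 < γ) (hK : 1 ≤ K)
    (hD : ∀ y, nsq (cm D *ᵥ y) ≤ K * nsq y) (hT : ∀ t, nsq (T3 *ᵥ t) ≤ nsq t)
    (S : Finset ((n1 → ℤ) × (n2 → ℤ))) (y : (n1 → ℤ) → n2 → ℤ) (r : n1 → ℤ)
    (t3 : (n1 → ℤ) → κ3 → ℝ) (w : n2 → ℝ)
    (hS : ∀ q ∈ S, D *ᵥ y q.1 = q.1 - r ∧ D *ᵥ q.2 = 0) :
    ∑ q ∈ S, Real.exp (-(a * qf (Wm (cm D) η) (cv (y q.1 + q.2) - T3 *ᵥ t3 q.1 + w) +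
        γ * nsq (t3 q.1))) ≤
      √(Real.pi / a) ^ Fintype.card n2 * Real.exp (-(ell (cm D) η / 2)) *
        (1 + √(2 * a * K / Real.pi)) ^ Fintype.card n2 *
        √((a * K + γ) / γ) ^ Fintype.card κ3 := by
  classical
  have hx : ∀ q ∈ S, D *ᵥ (y q.1 + q.2) + r = q.1 := fun q hq => by
    rw [mulVec_add, (hS q hq).1, (hS q hq).2, add_zero, sub_add_cancel]
  have hinj : Set.InjOn (fun q : (n1 → ℤ) × (n2 → ℤ) => y q.1 + q.2) S := by
    intro q hq q' hq' h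
    have h' : y q.1 + q.2 = y q'.1 + q'.2 := h
    have h1 : q.1 = q'.1 := by rw [← hx q hq, ← hx q' hq', h']
    rw [h1] at h'
    exact Prod.ext h1 (add_left_cancel h')
  refine le_trans (le_of_eq ?_) (main_sum (cm D) T3 (η := η) ha hγ hK hD hT
    (S.image fun q => y q.1 + q.2) w fun Y => t3 (D *ᵥ Y + r))
  rw [Finset.sum_image hinj]
  refine Finset.sum_congr rfl fun q hq => ?_
  rw [hx q hq]

theorem upper_explicit (Dm : Matrix n0 n1 ℤ) (D : Matrix n1 n2 ℤ) (Dp : Matrix n2 n3 ℤ)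
    (f : Matrix k1 n1 ℤ) (g : Matrix n1 k1 ℤ) (s : Matrix n2 n1 ℤ) (D' : Matrix k1 k2 ℤ)
    (f' : Matrix k2 n2 ℤ) (g' : Matrix n2 k2 ℤ) {M η a κ β γ1 γ2 γ3 K : ℝ} (hM : 1 ≤ M)
    (h0 : 0 < η) (h1 : η ≤ 1) (ha : 0 < a) (hκ : 0 < κ) (hβ : 0 < β) (hγ1 : 0 < γ1)
    (hγ2 : 0 < γ2) (hγ3 : 0 < γ3) (hK : 1 ≤ K)
    (hpay : a / (1 + κ) + 4 * γ2 + 128 * M ^ 4 / η ^ 2 * γ3 ≤ a)
    (hmD : Dm * D = 0) (hDD : D * Dp = 0) (hD : ∀ y, nsq (cm D *ᵥ y) ≤ K * nsq y)
    (hx : ∀ x : n1 → ℤ, Dm *ᵥ x = 0 → g *ᵥ (f *ᵥ x) + D *ᵥ (s *ᵥ x) = x)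
    (hf : f * D = D' * f') (hg : g * D' = D * g')
    (bf : RC f M) (bf' : RC f' M) (bg' : RC g' M) (bs : RC s M) :
    SS a Dm * SS a D ≤
      Real.exp (a / κ * frob (cm Dp) + γ1 * frob (cm D') + 16 * M ^ 2 * γ3 * Fintype.card k2) *
      ((1 + √(Real.pi / β)) ^ Fintype.card k1 * √((β + γ1) / γ1) ^ (cm D').rank *
        √((β * M ^ 2 + γ2) / γ2) ^ cnt (lapR (cm Dm) (cm D)) η) *
      (√(Real.pi / (a / (1 + κ))) ^ Fintype.card n2 * Real.exp (-(ell (cm D) η / 2)) *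
        (1 + √(2 * (a / (1 + κ)) * K / Real.pi)) ^ Fintype.card n2 *
        √((a / (1 + κ) * K + γ3) / γ3) ^ cnt (lapR (cm D) (cm Dp)) η) := by
  classical
  have hκ1 : 0 < 1 + κ := by linarith
  have ha1 : 0 < a / (1 + κ) := div_pos ha hκ1
  obtain ⟨T1, hT1, hT1'⟩ := range_onb (cm D')
  obtain ⟨T2, hT2, hT2'⟩ := decomp (cm Dm) (cm D) (by rw [← cm_mul, hmD, cm_zero]) h0
  obtain ⟨T3, hT3, hT3'⟩ := decomp (cm D) (cm Dp) (by rw [← cm_mul, hDD, cm_zero]) h0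
  refine SS_mul_le' ha (by positivity) Dm D fun F' u F v hF' hF h4 => ?_
  obtain ⟨e, ρ, y, t1, t2, t3, b, hc⟩ := construct Dm D Dp f g s D' f' g' hM h0 h1 hDD hx hf hg
    bf' bg' bs T1 hT1' T2 hT2' T3 hT3' F' hF'
  set err := a / κ * frob (cm Dp) + γ1 * frob (cm D') + 16 * M ^ 2 * γ3 * Fintype.card k2
    with herr
  set C3 := √(Real.pi / (a / (1 + κ))) ^ Fintype.card n2 * Real.exp (-(ell (cm D) η / 2)) *
        (1 + √(2 * (a / (1 + κ)) * K / Real.pi)) ^ Fintype.card n2 *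
        √((a / (1 + κ) * K + γ3) / γ3) ^ cnt (lapR (cm D) (cm Dp)) η with hC3
  have hC30 : 0 ≤ C3 := by rw [hC3]; positivity
  let sh : (k1 → ℤ) → n2 → ℝ := fun ε =>
    Gm (cm D) η *ᵥ ((cm D)ᵀ *ᵥ (cv (ρ ε) + u)) + (v - Pb (cm D) η *ᵥ v)
  let L : (k1 → ℤ) → ℝ := fun ε => Real.exp (-(γ1 * nsq (t1 ε) + γ2 * nsq (t2 ε)))
  let I : (k1 → ℤ) → (n1 → ℤ) × (n2 → ℤ) → ℝ := fun ε q =>
    Real.exp (-(a / (1 + κ) * qf (Wm (cm D) η) (cv (y q.1 + q.2) - T3 *ᵥ t3 q.1 + sh ε) +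
      γ3 * nsq (t3 q.1)))
  have hpt : ∀ q ∈ F' ×ˢ F, Real.exp (-(a * nsq (cv q.1 + u))) *
      Real.exp (-(a * nsq (cv q.2 + v))) ≤ Real.exp err * (L (e q.1) * I (e q.1) q) := by
    intro q hq
    obtain ⟨hx', hz⟩ := Finset.mem_product.1 hq
    obtain ⟨-, c2, c3, c4, c5, c6, c7, c8⟩ := hc q.1 hx'
    have hp := point_le (cm D) (η := η) hκ (cv (y q.1)) (cv q.2) v (b q.1) (T3 *ᵥ t3 q.1)
      (cv q.1) (cv (ρ (e q.1))) u (by rw [← cv_mulVec, c4, cv_sub])
      (by rw [← cv_mulVec, hF _ hz, cv_zero]) c6 c5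
    rw [← cv_add] at hp
    simp only [L, I, ← Real.exp_add]
    refine Real.exp_le_exp.2 ?_
    set X := nsq (cv q.1 + u)
    set Z := nsq (cv q.2 + v)
    set Q := qf (Wm (cm D) η) (cv (y q.1 + q.2) - T3 *ᵥ t3 q.1 + sh (e q.1))
    have hX : 0 ≤ X := nsq_nonneg _
    have hx4 : nsq (cv q.1) ≤ 4 * X := h4 _ hx'
    have e1 : a / (1 + κ) * Q ≤ a / (1 + κ) * X + a * Z + a / κ * nsq (b q.1) := by
      refine (mul_le_mul_of_nonneg_left hp ha1.le).trans (le_of_eq ?_)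
      field_simp
      ring
    have e2 : a / κ * nsq (b q.1) ≤ a / κ * frob (cm Dp) :=
      mul_le_mul_of_nonneg_left c7 (div_pos ha hκ).le
    have e3 : γ1 * nsq (t1 (e q.1)) ≤ γ1 * frob (cm D') := mul_le_mul_of_nonneg_left c2 hγ1.le
    have e4 : γ2 * nsq (t2 (e q.1)) ≤ γ2 * (4 * X) :=
      mul_le_mul_of_nonneg_left (c3.trans hx4) hγ2.le
    have e5 : γ3 * nsq (t3 q.1) ≤
        γ3 * (32 * M ^ 4 / η ^ 2 * (4 * X) + 16 * M ^ 2 * Fintype.card k2) := by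
      refine mul_le_mul_of_nonneg_left (c8.trans ?_) hγ3.le
      have := mul_le_mul_of_nonneg_left hx4 (show 0 ≤ 32 * M ^ 4 / η ^ 2 by positivity)
      linarith
    have e6 := mul_le_mul_of_nonneg_right hpay hX
    have e7 : γ3 * (32 * M ^ 4 / η ^ 2 * (4 * X) + 16 * M ^ 2 * Fintype.card k2) =
        128 * M ^ 4 / η ^ 2 * γ3 * X + 16 * M ^ 2 * γ3 * Fintype.card k2 := by ring
    rw [add_mul, add_mul] at e6
    rw [herr]
    linarith
  have hlab := label_sum (F'.image e) T1 (cm f * T2) (M := M) hβ hγ1 hγ2 hT1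
    (fun t => by
      rw [← mulVec_mulVec]
      exact (bf.nsq_le _).trans (mul_le_mul_of_nonneg_left (hT2 t) (sq_nonneg M)))
    t1 t2 (fun ε hε => by
      obtain ⟨x, hx', rfl⟩ := Finset.mem_image.1 hε
      exact (hc x hx').1)
  rw [Fintype.card_fin, Fintype.card_fin] at hlab
  have hmaps : ∀ q ∈ F' ×ˢ F, e q.1 ∈ F'.image e := fun q hq =>
    Finset.mem_image_of_mem e (Finset.mem_product.1 hq).1
  rw [Finset.sum_mul_sum, ← Finset.sum_product']
  refine (Finset.sum_le_sum hpt).trans ?_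
  rw [← Finset.mul_sum, mul_assoc (Real.exp err)]
  refine mul_le_mul_of_nonneg_left ?_ (Real.exp_pos _).le
  rw [← Finset.sum_fiberwise_of_maps_to hmaps]
  refine le_trans ?_ (mul_le_mul_of_nonneg_right hlab hC30)
  rw [Finset.sum_mul]
  refine Finset.sum_le_sum fun ε _ => ?_
  have hin := up_inner D T3 (η := η) ha1 hγ3 hK hD hT3 ((F' ×ˢ F).filter fun q => e q.1 = ε) y
    (ρ ε) t3 (sh ε) (fun q hq => by
      obtain ⟨hq1, hq2⟩ := Finset.mem_filter.1 hq
      obtain ⟨hx', hz⟩ := Finset.mem_product.1 hq1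
      exact ⟨hq2 ▸ (hc q.1 hx').2.2.2.1, hF _ hz⟩)
  rw [Fintype.card_fin] at hin
  refine le_trans (le_of_eq ?_) (mul_le_mul_of_nonneg_left hin (Real.exp_pos _).le)
  rw [Finset.mul_sum]
  refine Finset.sum_congr rfl fun q hq => ?_
  rw [(Finset.mem_filter.1 hq).2]

end Pool.Agent.Lib.MP_fd3021_gt

/-! The inequality (II): choice of the constants. -/

namespace Pool.Agent.Lib.MP_fd3021_gt

open Matrix

theorem const_log {x y A B p q r t u w : ℝ} {k1 k2 k3 k4 k5 : ℕ} (hx : 1 ≤ x) (hy : 1 ≤ y)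
    (hp : 0 < p) (hq : 0 < q) (hr : 0 < r) (ht : 0 < t) (hu : 0 < u) (hw : 0 < w)
    (h : x * y ≤ Real.exp A * (p ^ k1 * √q ^ k2 * √r ^ k3) *
      (√t ^ k4 * Real.exp B * u ^ k4 * √w ^ k5)) :
    Real.log x + Real.log y ≤ A + (k1 * Real.log p + k2 * (Real.log q / 2) +
      k3 * (Real.log r / 2)) +
      (k4 * (Real.log t / 2) + B + k4 * Real.log u + k5 * (Real.log w / 2)) := by
  have hx0 : 0 < x := by linarith
  have hy0 : 0 < y := by linarith
  have hq' := Real.sqrt_pos.2 hq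
  have hr' := Real.sqrt_pos.2 hr
  have ht' := Real.sqrt_pos.2 ht
  have hw' := Real.sqrt_pos.2 hw
  have h2 := Real.log_le_log (mul_pos hx0 hy0) h
  rw [Real.log_mul hx0.ne' hy0.ne', Real.log_mul (by positivity) (by positivity),
    Real.log_mul (by positivity) (by positivity), Real.log_mul (by positivity) (by positivity),
    Real.log_mul (by positivity) (by positivity), Real.log_mul (by positivity) (by positivity),
    Real.log_mul (by positivity) (by positivity), Real.log_mul (by positivity) (by positivity)]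
    at h2
  simp only [Real.log_exp, Real.log_pow, Real.log_sqrt hq.le, Real.log_sqrt hr.le,
    Real.log_sqrt ht.le, Real.log_sqrt hw.le] at h2
  exact h2

theorem const_log_one_add {x : ℝ} (hx : 0 ≤ x) : Real.log (1 + x) ≤ x := by
  have := Real.log_le_sub_one_of_pos (show 0 < 1 + x by linarith)
  linarith

theorem const_pay {e M η : ℝ} (he : 0 < e) (he1 : e ≤ 1) (hM : 1 ≤ M) (h0 : 0 < η) :
    e ^ 2 / (1 + e) + 4 * (e * e ^ 2 / 16) +
      128 * M ^ 4 / η ^ 2 * (e * e ^ 2 * η ^ 2 / (512 * M ^ 4)) ≤ e ^ 2 := by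
  have hM0 : 0 < M := by linarith
  have e1 : 128 * M ^ 4 / η ^ 2 * (e * e ^ 2 * η ^ 2 / (512 * M ^ 4)) = e * e ^ 2 / 4 := by
    field_simp
    ring
  have e2 : e ^ 2 / (1 + e) ≤ e ^ 2 - e * e ^ 2 / 2 := by
    rw [div_le_iff₀ (by linarith)]
    have : 0 ≤ e ^ 3 * (1 - e) := mul_nonneg (by positivity) (by linarith)
    nlinarith
  rw [e1]
  linarith

theorem const_c3 {e M η K : ℝ} (he : 0 < e) (hM : 1 ≤ M) (h0 : 0 < η) (h1 : η ≤ 1)
    (hK : 1 ≤ K) :
    Real.log ((e ^ 2 / (1 + e) * K + e * e ^ 2 * η ^ 2 / (512 * M ^ 4)) /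
      (e * e ^ 2 * η ^ 2 / (512 * M ^ 4))) ≤
      (Real.log (1 + 512 * K * M ^ 4 / e) + 2) * (1 - Real.log η) := by
  have hM0 : 0 < M := by linarith
  have hK0 : 0 < K := by linarith
  have hl : Real.log η ≤ 0 := Real.log_nonpos h0.le h1
  have hc : 0 ≤ Real.log (1 + 512 * K * M ^ 4 / e) :=
    Real.log_nonneg (le_add_of_nonneg_right (by positivity))
  have h2 : (e ^ 2 / (1 + e) * K + e * e ^ 2 * η ^ 2 / (512 * M ^ 4)) /
      (e * e ^ 2 * η ^ 2 / (512 * M ^ 4)) ≤ (1 + 512 * K * M ^ 4 / e) / η ^ 2 := by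
    have e1 : e ^ 2 / (1 + e) ≤ e ^ 2 := div_le_self (by positivity) (by linarith)
    have e2 : η ^ 2 ≤ 1 := pow_le_one₀ h0.le h1
    have e3 : (1 + 512 * K * M ^ 4 / e) / η ^ 2 * (e * e ^ 2 * η ^ 2 / (512 * M ^ 4)) =
        e ^ 2 * K + e * e ^ 2 * 1 / (512 * M ^ 4) := by
      field_simp
      ring
    rw [div_le_iff₀ (by positivity), e3]
    gcongr
  refine (Real.log_le_log (by positivity) h2).trans ?_
  rw [Real.log_div (by positivity) (by positivity), Real.log_pow]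
  have := mul_nonneg hc (neg_nonneg.2 hl)
  push_cast
  nlinarith

theorem upper {C ε : ℝ} (hC : 1 ≤ C) (hε : 0 < ε) : ∃ a > 0, ∃ δ > 0, ∀ M : ℝ, 1 ≤ M → ∃ ζ > 0,
    ∀ η : ℝ, 0 < η → η ≤ 1 → ∀ d : ℝ, 0 < d →
    ∀ (n0 n1 n2 n3 : Type) [Fintype n0] [Fintype n1] [Fintype n2] [Fintype n3]
      [DecidableEq n0] [DecidableEq n1] [DecidableEq n2] [DecidableEq n3]
      (Dm : Matrix n0 n1 ℤ) (D : Matrix n1 n2 ℤ) (Dp : Matrix n2 n3 ℤ),
      Dm * D = 0 → D * Dp = 0 → RC D C → RC Dp C →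
      (Fintype.card n2 : ℝ) ≤ C * d → (Fintype.card n3 : ℝ) ≤ C * d →
      (cnt (lapR (cm Dm) (cm D)) η : ℝ) * (1 - Real.log η) ≤ ζ * d →
      (cnt (lapR (cm D) (cm Dp)) η : ℝ) * (1 - Real.log η) ≤ ζ * d →
      Data Dm D C δ M d →
      Real.log (SS a Dm) + Real.log (SS a D) ≤
        (Fintype.card n2 : ℝ) / 2 * Real.log (Real.pi / a) - ell (cm D) η / 2 + ε * d := by
  have hC0 : 0 < C := by linarith
  have hpi := Real.pi_pos
  obtain ⟨e, he, he1, heε⟩ : ∃ e : ℝ, 0 < e ∧ e ≤ 1 ∧ 16 * C ^ 3 * e ≤ ε :=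
    ⟨min 1 (ε / (16 * C ^ 3)), lt_min one_pos (by positivity), min_le_left _ _, by
      rw [mul_comm, ← le_div_iff₀ (by positivity)]
      exact min_le_right _ _⟩
  obtain ⟨c1, hc1⟩ : ∃ c, c = Real.log ((Real.pi / e ^ 2 + e) / e) := ⟨_, rfl⟩
  have hc10 : 0 ≤ c1 := hc1 ▸ Real.log_nonneg
    ((one_le_div he).2 (le_add_of_nonneg_left (by positivity)))
  refine ⟨e ^ 2, by positivity, e / (1 + c1), by positivity, fun M hM => ?_⟩
  have hM0 : 0 < M := by linarith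
  obtain ⟨c2, hc2⟩ : ∃ c, c = Real.log ((Real.pi / e ^ 2 * M ^ 2 + e * e ^ 2 / 16) /
    (e * e ^ 2 / 16)) := ⟨_, rfl⟩
  have hc20 : 0 ≤ c2 := hc2 ▸ Real.log_nonneg
    ((one_le_div (by positivity)).2 (le_add_of_nonneg_left (by positivity)))
  obtain ⟨c3, hc3⟩ : ∃ c, c = Real.log (1 + 512 * C ^ 2 * M ^ 4 / e) := ⟨_, rfl⟩
  have hc30 : 0 ≤ c3 := hc3 ▸ Real.log_nonneg (le_add_of_nonneg_right (by positivity))
  refine ⟨e / (c2 + c3 + 2), by positivity, ?_⟩
  intro η h0 h1 d hd n0 n1 n2 n3 _ _ _ _ _ _ _ _ Dm D Dp hmD hDD bD bDp hn2 hn3 hA hB hdata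
  obtain ⟨k1, k2, _, _, f, g, s, D', f', g', hx, hf, hg, hk1, hk2, hrk, hfr, bf, bf', bg', bs⟩ :=
    hdata
  have hK : 1 ≤ C ^ 2 := one_le_pow₀ hC
  have main := upper_explicit Dm D Dp f g s D' f' g' (a := e ^ 2) (κ := e) (β := Real.pi / e ^ 2)
    (γ1 := e) (γ2 := e * e ^ 2 / 16) (γ3 := e * e ^ 2 * η ^ 2 / (512 * M ^ 4)) (K := C ^ 2) hM h0
    h1 (by positivity) he (by positivity) he (by positivity) (by positivity) hK
    (const_pay he he1 hM h0) hmD hDD bD.nsq_le hx hf hg bf bf' bg' bs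
  have hlog := const_log (one_le_SS (by positivity) Dm) (one_le_SS (by positivity) D)
    (by positivity) (by positivity) (by positivity) (by positivity) (by positivity)
    (by positivity) main
  clear main
  rw [← hc1, ← hc2] at hlog
  have hl : Real.log η ≤ 0 := Real.log_nonpos h0.le h1
  obtain ⟨X, hX⟩ : ∃ X, X = C ^ 3 * e * d := ⟨_, rfl⟩
  have hX0 : 0 < X := by rw [hX]; positivity
  have hed : 0 < e * d := by positivity
  have x0 : e * d ≤ X := by
    rw [hX, mul_assoc]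
    exact le_mul_of_one_le_left hed.le (one_le_pow₀ hC)
  have x1 : C * d * e ≤ X := by
    rw [hX, show C ^ 3 * e * d = C ^ 2 * (C * d * e) by ring]
    exact le_mul_of_one_le_left (by positivity) hK
  have x2 : C * d * (e * C) ≤ X := by
    rw [hX, show C ^ 3 * e * d = C * (C * d * (e * C)) by ring]
    exact le_mul_of_one_le_left (by positivity) hC
  have t1 : e ^ 2 / e * frob (cm Dp) ≤ X := by
    have := frob_le_of_col bDp.2
    calc e ^ 2 / e * frob (cm Dp) = e * frob (cm Dp) := by field_simp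
      _ ≤ e * (C ^ 2 * (C * d)) := by
        gcongr
        exact this.trans (by gcongr)
      _ = X := by rw [hX]; ring
  have t2 : e * frob (cm D') ≤ X := by
    refine le_trans ?_ x1
    rw [mul_comm]
    gcongr
  have t3 : 16 * M ^ 2 * (e * e ^ 2 * η ^ 2 / (512 * M ^ 4)) * (Fintype.card k2 : ℝ) ≤ X := by
    refine le_trans ?_ x1
    rw [mul_comm]
    gcongr
    have e1 : 16 * M ^ 2 * (e * e ^ 2 * η ^ 2 / (512 * M ^ 4)) =
        e * (e ^ 2 * η ^ 2 / (32 * M ^ 2)) := by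
      field_simp
      ring
    rw [e1]
    refine mul_le_of_le_one_right he.le ((div_le_one (by positivity)).2 ?_)
    have e2 : e ^ 2 * η ^ 2 ≤ 1 :=
      mul_le_one₀ (pow_le_one₀ he.le he1) (by positivity) (pow_le_one₀ h0.le h1)
    have e3 : 1 ≤ M ^ 2 := one_le_pow₀ hM
    linarith
  have t4 : (Fintype.card k1 : ℝ) * Real.log (1 + √(Real.pi / (Real.pi / e ^ 2))) ≤ X := by
    refine le_trans ?_ x1
    have e1 : √(Real.pi / (Real.pi / e ^ 2)) = e := by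
      rw [show Real.pi / (Real.pi / e ^ 2) = e ^ 2 by field_simp, Real.sqrt_sq he.le]
    rw [e1]
    exact mul_le_mul hk1 (const_log_one_add he.le) (Real.log_nonneg (by linarith))
      (by positivity)
  have t5 : ((cm D').rank : ℝ) * (c1 / 2) ≤ X := by
    refine le_trans ?_ x0
    calc ((cm D').rank : ℝ) * (c1 / 2) ≤ e / (1 + c1) * d * (1 + c1) :=
          mul_le_mul hrk (by linarith) (by positivity) (by positivity)
      _ = e * d := by field_simp
  have t6 : (cnt (lapR (cm Dm) (cm D)) η : ℝ) * (c2 / 2) ≤ X := by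
    refine le_trans ?_ x0
    calc (cnt (lapR (cm Dm) (cm D)) η : ℝ) * (c2 / 2)
        ≤ (cnt (lapR (cm Dm) (cm D)) η : ℝ) * (1 - Real.log η) * (c2 + c3 + 2) :=
          mul_le_mul (le_mul_of_one_le_right (by positivity) (by linarith)) (by linarith)
            (by positivity) (mul_nonneg (by positivity) (by linarith))
      _ ≤ e / (c2 + c3 + 2) * d * (c2 + c3 + 2) := by gcongr
      _ = e * d := by field_simp
  have t7 : (Fintype.card n2 : ℝ) * (Real.log (Real.pi / (e ^ 2 / (1 + e))) / 2) ≤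
      (Fintype.card n2 : ℝ) / 2 * Real.log (Real.pi / e ^ 2) + X := by
    have e1 : Real.log (Real.pi / (e ^ 2 / (1 + e))) =
        Real.log (Real.pi / e ^ 2) + Real.log (1 + e) := by
      rw [← Real.log_mul (by positivity) (by positivity)]
      congr 1
      field_simp
    have e2 : (Fintype.card n2 : ℝ) * Real.log (1 + e) ≤ C * d * e :=
      mul_le_mul hn2 (const_log_one_add he.le) (Real.log_nonneg (by linarith)) (by positivity)
    rw [e1]
    linarith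
  have t8 : (Fintype.card n2 : ℝ) *
      Real.log (1 + √(2 * (e ^ 2 / (1 + e)) * C ^ 2 / Real.pi)) ≤ X := by
    refine le_trans ?_ x2
    refine mul_le_mul hn2 ((const_log_one_add (Real.sqrt_nonneg _)).trans ?_)
      (Real.log_nonneg (le_add_of_nonneg_right (Real.sqrt_nonneg _))) (by positivity)
    rw [Real.sqrt_le_left (by positivity), div_le_iff₀ hpi]
    have e1 : e ^ 2 / (1 + e) ≤ e ^ 2 := div_le_self (by positivity) (by linarith)
    calc 2 * (e ^ 2 / (1 + e)) * C ^ 2 ≤ Real.pi * e ^ 2 * C ^ 2 := by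
          gcongr
          exact Real.two_le_pi
      _ = (e * C) ^ 2 * Real.pi := by ring
  have t9 : (cnt (lapR (cm D) (cm Dp)) η : ℝ) *
      (Real.log ((e ^ 2 / (1 + e) * C ^ 2 + e * e ^ 2 * η ^ 2 / (512 * M ^ 4)) /
        (e * e ^ 2 * η ^ 2 / (512 * M ^ 4))) / 2) ≤ X := by
    refine le_trans ?_ x0
    have e1 := const_c3 he hM h0 h1 hK
    rw [← hc3] at e1
    have e2 : 0 ≤ (c3 + 2) * (1 - Real.log η) := mul_nonneg (by linarith) (by linarith)
    have e3 : 0 ≤ c2 * (1 - Real.log η) := mul_nonneg hc20 (by linarith)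
    calc _ ≤ (cnt (lapR (cm D) (cm Dp)) η : ℝ) * ((1 - Real.log η) * (c2 + c3 + 2)) :=
          mul_le_mul_of_nonneg_left (by linarith) (by positivity)
      _ ≤ e / (c2 + c3 + 2) * d * (c2 + c3 + 2) := by
          rw [← mul_assoc]
          gcongr
      _ = e * d := by field_simp
  have tX : 16 * X ≤ ε * d := by
    rw [hX, show 16 * (C ^ 3 * e * d) = 16 * C ^ 3 * e * d by ring]
    gcongr
  linarith

end Pool.Agent.Lib.MP_fd3021_gt

/-! From cheap factorisations to the data of (II). -/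

namespace Pool.Agent.Lib.MP_fd3021_gt

open Matrix

variable {n0 n1 n2 n3 : Type} [Fintype n0] [Fintype n1] [Fintype n2] [Fintype n3]

theorem ldata_consts {C δ M d : ℝ} (hC : 1 ≤ C) (hδ : δ ≤ 1) (hM : 1 ≤ M) (hd : 0 ≤ d) :
    δ * d ≤ C ^ 5 * d ∧ C * d ≤ C ^ 5 * d ∧ M ≤ 2 * M * C ∧ 1 ≤ 2 * M * C ∧
      1 + M * C ≤ 2 * M * C := by
  have h5 : C ≤ C ^ 5 := by
    calc C = C ^ 1 := (pow_one C).symm
      _ ≤ C ^ 5 := pow_le_pow_right₀ hC (by norm_num)
  have hMC : M ≤ M * C := le_mul_of_one_le_right (zero_le_one.trans hM) hC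
  refine ⟨mul_le_mul_of_nonneg_right (hδ.trans (hC.trans h5)) hd,
    mul_le_mul_of_nonneg_right h5 hd, ?_, ?_, ?_⟩ <;> linarith

theorem Data.mono {Dm : Matrix n0 n1 ℤ} {D : Matrix n1 n2 ℤ} {C C' δ M M' d : ℝ}
    (h : Data Dm D C δ M d) (hd : 0 ≤ d) (hC : C ≤ C') (hM : M ≤ M') : Data Dm D C' δ M' d := by
  obtain ⟨k1, k2, i1, i2, f, g, s, D', f', g', h1, h2, h3, h4, h5, h6, h7, h8, h9, h10, h11⟩ := h
  have hCd : C * d ≤ C' * d := mul_le_mul_of_nonneg_right hC hd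
  exact ⟨k1, k2, i1, i2, f, g, s, D', f', g', h1, h2, h3, h4.trans hCd, h5.trans hCd, h6,
    h7.trans hCd, h8.mono hM, h9.mono hM, h10.mono hM, h11.mono hM⟩

theorem Cheap.mono [DecidableEq n1] {Dm : Matrix n0 n1 ℤ} {D : Matrix n1 n2 ℤ}
    {C C' δ M M' d : ℝ} (h : Cheap Dm D C δ M d) (hC : C ≤ C') (hM : M ≤ M') :
    Cheap Dm D C' δ M' d := by
  obtain ⟨κ, i1, f, g, s, sm, h1, h2, h3, h4, h5, h6⟩ := h
  exact ⟨κ, i1, f, g, s, sm, h1, h2, fun j => (h3 j).trans hC, h4.mono hM, h5.mono hM,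
    h6.mono hM⟩

theorem data_of_zero (Dm : Matrix n0 n1 ℤ) (D : Matrix n1 n2 ℤ) (hD : D = 0) {C δ d : ℝ}
    (hδ : 0 ≤ δ) (hd : 0 ≤ d) (h1 : (Fintype.card n1 : ℝ) ≤ C * d) : Data Dm D C δ 1 d := by
  classical
  subst hD
  have hCd : (0 : ℝ) ≤ C * d := le_trans (Nat.cast_nonneg _) h1
  refine ⟨n1, Fin 0, inferInstance, inferInstance, 1, 1, 0, 0, 0, 0, ?_, ?_, ?_, h1, ?_, ?_, ?_,
    RC.one, RC.zero zero_le_one, RC.zero zero_le_one, RC.zero zero_le_one⟩
  · intro x _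
    simp
  · simp
  · simp
  · simpa using hCd
  · rw [cm_zero, Matrix.rank_zero]
    simpa using mul_nonneg hδ hd
  · rw [cm_zero]
    simpa [frob] using hCd

theorem data_of_cheap [DecidableEq n1] {Dm : Matrix n0 n1 ℤ} {D : Matrix n1 n2 ℤ} {C δ M d : ℝ}
    (hC : 1 ≤ C) (hδ : δ ≤ 1) (hM : 1 ≤ M) (hd : 0 ≤ d) (hDD : Dm * D = 0) (hD : RC D C)
    (h2 : (Fintype.card n2 : ℝ) ≤ C * d) (h : Cheap Dm D C δ M d) :
    Data Dm D (C ^ 5) δ (2 * M * C) d := by
  classical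
  obtain ⟨κ, i1, f, g, s, sm, h1, hκ, hcol, hf, hg, hs⟩ := h
  have hC0 : (0 : ℝ) ≤ C := zero_le_one.trans hC
  have hM0 : (0 : ℝ) ≤ M := zero_le_one.trans hM
  obtain ⟨a1, a2, a3, a4, a5⟩ := ldata_consts hC hδ hM hd
  refine ⟨κ, n2, i1, inferInstance, f, g, s, f * D, 1, 1 - s * D, ?_, ?_, ?_, hκ.trans a1,
    h2.trans a2, ?_, ?_, hf.mono a3, RC.one.mono a4, ?_, hs.mono a3⟩
  · intro x hx
    have := congrArg (fun A => A *ᵥ x) h1
    simp only [Matrix.add_mulVec, Matrix.one_mulVec, ← Matrix.mulVec_mulVec, hx,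
      Matrix.mulVec_zero, add_zero] at this
    exact this
  · rw [Matrix.mul_one]
  · have e : g * f = 1 - D * s - sm * Dm := by
      rw [← h1]
      abel
    rw [← Matrix.mul_assoc, e, Matrix.sub_mul, Matrix.sub_mul, Matrix.mul_assoc sm, hDD,
      Matrix.mul_zero, sub_zero, Matrix.mul_sub, Matrix.one_mul, Matrix.mul_one, Matrix.mul_assoc]
  · refine le_trans ?_ hκ
    exact_mod_cast Matrix.rank_le_card_height (cm (f * D))
  · refine (frob_le_of_col (col_mul hC0 hcol hD.2)).trans ?_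
    calc (C * C) ^ 2 * (Fintype.card n2 : ℝ) ≤ (C * C) ^ 2 * (C * d) :=
          mul_le_mul_of_nonneg_left h2 (sq_nonneg _)
      _ = C ^ 5 * d := by ring
  · exact (RC.one.sub (hs.mul hD hM0 hC0)).mono a5

theorem data_of_dual [DecidableEq n2] (Dm : Matrix n0 n1 ℤ) {D : Matrix n1 n2 ℤ}
    {Dp : Matrix n2 n3 ℤ} {C δ M d : ℝ} (hC : 1 ≤ C) (hδ : δ ≤ 1) (hM : 1 ≤ M) (hd : 0 ≤ d)
    (hDD : D * Dp = 0) (hD : RC D C) (h1 : (Fintype.card n1 : ℝ) ≤ C * d)
    (h : Cheap Dpᵀ Dᵀ C δ M d) : Data Dm D (C ^ 5) δ (2 * M * C) d := by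
  classical
  obtain ⟨κ, i1, f, g, s, sm, hid, hκ, hcol, hf, hg, hs⟩ := h
  have hC0 : (0 : ℝ) ≤ C := zero_le_one.trans hC
  have hM0 : (0 : ℝ) ≤ M := zero_le_one.trans hM
  obtain ⟨a1, a2, a3, a4, a5⟩ := ldata_consts hC hδ hM hd
  have ht : fᵀ * gᵀ + sᵀ * D + Dp * smᵀ = 1 := by
    have := congrArg Matrix.transpose hid
    simpa only [Matrix.transpose_add, Matrix.transpose_mul, Matrix.transpose_transpose,
      Matrix.transpose_one] using this
  refine ⟨n1, κ, inferInstance, i1, 1 - D * sᵀ, 1, sᵀ, D * fᵀ, gᵀ, fᵀ, ?_, ?_, ?_, h1.trans a2,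
    hκ.trans a1, ?_, ?_, ?_, hg.transpose.mono a3, hf.transpose.mono a3, hs.transpose.mono a3⟩
  · intro x _
    rw [Matrix.one_mulVec, Matrix.sub_mulVec, Matrix.one_mulVec, Matrix.mulVec_mulVec,
      sub_add_cancel]
  · have e : fᵀ * gᵀ = 1 - sᵀ * D - Dp * smᵀ := by
      rw [← ht]
      abel
    rw [Matrix.mul_assoc D, e, Matrix.mul_sub, Matrix.mul_sub, ← Matrix.mul_assoc D Dp, hDD,
      Matrix.zero_mul, sub_zero, Matrix.sub_mul, Matrix.one_mul, Matrix.mul_one, Matrix.mul_assoc]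
  · rw [Matrix.one_mul]
  · refine le_trans ?_ hκ
    exact_mod_cast Matrix.rank_le_card_width (cm (D * fᵀ))
  · have e : D * fᵀ = (f * Dᵀ)ᵀ := by
      rw [Matrix.transpose_mul, Matrix.transpose_transpose]
    rw [e, cm_transpose, frob_transpose]
    refine (frob_le_of_col (col_mul hC0 hcol hD.transpose.2)).trans ?_
    calc (C * C) ^ 2 * (Fintype.card n1 : ℝ) ≤ (C * C) ^ 2 * (C * d) :=
          mul_le_mul_of_nonneg_left h1 (sq_nonneg _)
      _ = C ^ 5 * d := by ring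
  · refine (RC.one.sub (hD.mul hs.transpose hC0 hM0)).mono ?_
    rw [mul_comm C M]
    exact a5

theorem cheap_block {Y : Type} [Fintype Y] [DecidableEq Y] [DecidableEq n1] (R : Matrix Y Y ℤ)
    (e0 : n0 → Y) (e1 : n1 → Y) (e2 : n2 → Y) (i0 : Function.Injective e0)
    (i1 : Function.Injective e1) (i2 : Function.Injective e2) (P : Y → Prop)
    (hP : ∀ a, P (e1 a)) (h2 : ∀ a y, R (e1 a) y ≠ 0 → y ∈ Set.range e2)
    (h0 : ∀ a y, R y (e1 a) ≠ 0 → y ∈ Set.range e0) {C δ M d : ℝ} (h : CheapT R P C δ M d) :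
    Cheap (R.submatrix e0 e1) (R.submatrix e1 e2) C δ M d := by
  obtain ⟨κ, ik, f, g, s, hid, hκ, hcol, hf, hg, hs⟩ := h
  refine ⟨κ, ik, f.submatrix id e1, g.submatrix e1 id, s.submatrix e2 e1, s.submatrix e1 e0, ?_,
    hκ, fun j => hcol (e1 j), hf.submatrix Function.injective_id i1,
    hg.submatrix i1 Function.injective_id, hs.submatrix i2 i1⟩
  ext a b
  have hab := hid (e1 a) (e1 b) (hP b)
  have e1' : (1 : Matrix Y Y ℤ) (e1 a) (e1 b) = (1 : Matrix n1 n1 ℤ) a b := by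
    simp only [Matrix.one_apply, i1.eq_iff]
  rw [← e1', ← hab]
  simp only [Matrix.add_apply, Matrix.mul_apply, Matrix.submatrix_apply, id]
  congr 1
  · congr 1
    refine Fintype.sum_of_injective e2 i2 _ _ (fun y hy => ?_) (fun c => rfl)
    have : R (e1 a) y = 0 := by
      by_contra hne
      exact hy (h2 a y hne)
    rw [this, zero_mul]
  · refine Fintype.sum_of_injective e0 i0 _ _ (fun y hy => ?_) (fun c => rfl)
    have : R y (e1 b) = 0 := by
      by_contra hne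
      exact hy (h0 b y hne)
    rw [this, mul_zero]

end Pool.Agent.Lib.MP_fd3021_gt

/-! The finite level theorem. -/

namespace Pool.Agent.Lib.MP_fd3021_gt

open Matrix

theorem fin_trf_zero {m n : Type} [Fintype m] [Fintype n] [DecidableEq n] (D : Matrix m n ℤ)
    (hD : D = 0) (ψ : ℝ → ℝ) (h0 : ψ 0 = 0) : trf ((cm D)ᵀ * cm D) ψ = 0 := by
  have e : (cm D)ᵀ * cm D = 0 := by rw [hD, cm_zero, Matrix.mul_zero]
  rw [e]
  refine Finset.sum_eq_zero fun i _ => ?_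
  have h1 : 0 ≤ ev (0 : Matrix n n ℝ) i := ev_nonneg (by simp) (fun y => by simp [qf]) i
  have h2 : ev (0 : Matrix n n ℝ) i ≤ 0 := ev_le (by simp) (fun y => by simp [qf]) i
  rw [le_antisymm h2 h1, h0]

theorem fin_tele (a : ℕ → ℝ) (n : ℕ) :
    ∑ k ∈ Finset.range n, (-1 : ℝ) ^ k * (a k + a (k + 1)) = a 0 - (-1) ^ n * a n := by
  induction n with
  | zero => simp
  | succ n ih => rw [Finset.sum_range_succ, ih]; ring

theorem fin_tele2 (a : ℕ → ℝ) (n : ℕ) :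
    ∑ k ∈ Finset.range (n + 1), (-1 : ℝ) ^ k * k * (a k + a (k + 1)) =
      ∑ k ∈ Finset.range (n + 2), (-1 : ℝ) ^ k * a k - a 0 +
        (-1) ^ n * (n + 1) * a (n + 1) := by
  induction n with
  | zero => simp [Finset.sum_range_succ]
  | succ n ih =>
    rw [Finset.sum_range_succ, ih, Finset.sum_range_succ _ (n + 2)]
    push_cast
    ring

theorem fin_Icc (n : ℕ) (f : ℤ → ℝ) :
    ∑ p ∈ Finset.Icc (0 : ℤ) n, f p = ∑ k ∈ Finset.range (n + 1), f k := by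
  symm
  refine Finset.sum_bij (fun k _ => (k : ℤ)) ?_ ?_ ?_ ?_
  · intro k hk
    simp only [Finset.mem_range] at hk
    simp only [Finset.mem_Icc]
    omega
  · intro a _ b _ h
    exact_mod_cast h
  · intro p hp
    simp only [Finset.mem_Icc] at hp
    exact ⟨p.toNat, by simp only [Finset.mem_range]; omega, by omega⟩
  · intro k _
    rfl

theorem fin_card {m n k : Type} [Fintype m] [Fintype n] [Fintype k] [DecidableEq m]
    [DecidableEq n] [DecidableEq k] (D : Matrix m n ℝ) (Dp : Matrix n k ℝ) (h : D * Dp = 0)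
    (η : ℝ) : (Fintype.card n : ℝ) = cnt (lapR D Dp) η +
      (trf (Dᵀ * D) (fun x => if η ^ 2 < x then 1 else 0) +
        trf (Dpᵀ * Dp) (fun x => if η ^ 2 < x then 1 else 0)) := by
  rw [← trf_lap D Dp h _ (by simp [sq_nonneg]), cnt_eq]
  unfold trf
  rw [← Finset.sum_add_distrib, ← Finset.card_univ, Finset.card_eq_sum_ones]
  push_cast
  refine Finset.sum_congr rfl fun i _ => ?_
  by_cases hx : ev (lapR D Dp) i ≤ η ^ 2
  · simp [hx, not_lt.2 hx]
  · simp [hx, not_le.1 hx]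

theorem finMain (n : ℕ) {C ε : ℝ} (hC : 1 ≤ C) (hε : 0 < ε) : ∃ δ > 0, ∀ M : ℝ, 1 ≤ M →
    ∃ ζ > 0, ∀ η : ℝ, 0 < η → η ≤ 1 → ∀ d : ℝ, 0 < d →
    ∀ (J : ℤ → Type) [∀ p, Fintype (J p)] [∀ p, DecidableEq (J p)]
      (D : ∀ p, Matrix (J p) (J (p + 1)) ℤ) (q : ℤ),
      (∀ p, D p * D (p + 1) = 0) → (∀ p, p < 0 ∨ (n : ℤ) < p → IsEmpty (J p)) →
      (∀ p, (Fintype.card (J p) : ℝ) ≤ C * d) → (∀ p, RC (D p) C) →
      (∀ p, (cnt (lapR (cm (D p)) (cm (D (p + 1)))) η : ℝ) * (1 - Real.log η) ≤ ζ * d) →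
      (∀ p : ℤ, 0 ≤ p + 1 → p + 1 < n → p + 1 ≠ q → Data (D p) (D (p + 1)) C δ M d) →
      -(ε * d) ≤ (-1 : ℝ) ^ q *
        (-(1 / 2) * ∑ p ∈ Finset.Icc (0 : ℤ) n, (-1 : ℝ) ^ p * p * ltr D η (p - 1)) := by
  have hn : (0 : ℝ) < n + 2 := by positivity
  set ε' := ε / (2 * (n + 2)) with hε'
  have hε0 : 0 < ε' := by positivity
  obtain ⟨a, ha, δ, hδ, hup⟩ := upper hC hε0
  refine ⟨δ, hδ, fun M hM => ?_⟩
  obtain ⟨ζ₀, hζ₀, hup⟩ := hup M hM
  set L := Real.log (Real.pi / a) with hL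
  have hL1 : 0 < |L| + 1 := by positivity
  refine ⟨min ζ₀ (ε' / (|L| + 1)), lt_min hζ₀ (by positivity), ?_⟩
  intro η h0 h1 d hd J _ _ D q hDD hE hcard hRC hcnt hdata
  have hlog : 1 ≤ 1 - Real.log η := by linarith [Real.log_nonpos h0.le h1]
  have hz : ∀ p, p < 0 ∨ (n : ℤ) < p + 1 → D p = 0 := by
    intro p hp
    rcases hp with hp | hp
    · have := hE p (Or.inl hp)
      ext i
      exact isEmptyElim i
    · have := hE (p + 1) (Or.inr hp)
      ext i j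
      exact isEmptyElim j
  have hDR : ∀ p, cm (D p) * cm (D (p + 1)) = 0 := fun p => by rw [← cm_mul, hDD, cm_zero]
  -- the real valued functions
  set S : ℤ → ℝ := fun p => Real.log (SS a (D p)) with hS
  set l : ℤ → ℝ := fun p => ell (cm (D p)) η with hl
  set N : ℤ → ℝ := fun p => (Fintype.card (J p) : ℝ) with hN
  set r : ℤ → ℝ := fun p =>
    trf ((cm (D p))ᵀ * cm (D p)) (fun x => if η ^ 2 < x then 1 else 0) with hr
  set k : ℤ → ℝ := fun p => (cnt (lapR (cm (D p)) (cm (D (p + 1)))) η : ℝ) with hk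
  set E : ℤ → ℝ := fun p => S p + S (p + 1) - N (p + 1 + 1) / 2 * L + l (p + 1) / 2 with hEd
  have hE0 : ∀ p, 0 ≤ E p := fun p => by
    have := lower ha h0 h1 (D p) (D (p + 1)) (hDD p)
    simp only [hEd, hS, hN, hl]
    linarith
  have hE1 : ∀ p, p + 1 ≠ q → E p ≤ ε' * d := fun p hp => by
    have hdat : Data (D p) (D (p + 1)) C δ M d := by
      by_cases hc : 0 ≤ p + 1 ∧ p + 1 < n
      · exact hdata p hc.1 hc.2 hp
      · exact (data_of_zero (D p) (D (p + 1)) (hz _ (by omega)) hδ.le hd.le (hcard _)).mono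
          hd.le le_rfl hM
    have hm : min ζ₀ (ε' / (|L| + 1)) * d ≤ ζ₀ * d :=
      mul_le_mul_of_nonneg_right (min_le_left _ _) hd.le
    have := hup η h0 h1 d hd _ _ _ _ (D p) (D (p + 1)) (D (p + 1 + 1)) (hDD p) (hDD _) (hRC _)
      (hRC _) (hcard _) (hcard _) ((hcnt p).trans hm) ((hcnt _).trans hm) hdat
    simp only [hEd, hS, hN, hl]
    linarith
  have hk0 : ∀ p, 0 ≤ k p := fun p => Nat.cast_nonneg _
  have hk1 : ∀ p, k p * |L| ≤ ε' * d := fun p => by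
    have h2 : k p ≤ ε' / (|L| + 1) * d :=
      (le_mul_of_one_le_right (hk0 p) hlog).trans ((hcnt p).trans
        (mul_le_mul_of_nonneg_right (min_le_right _ _) hd.le))
    have h3 : ε' / (|L| + 1) * d * (|L| + 1) = ε' * d := by field_simp
    nlinarith [abs_nonneg L, hk0 p]
  have hNk : ∀ p, N (p + 1) = k p + (r p + r (p + 1)) := fun p => fin_card _ _ (hDR p) η
  have hlt : ∀ p, ltr D η p = l p + l (p + 1) := fun p =>
    trf_lap _ _ (hDR p) _ (by simp [psi])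
  have hl0 : ∀ p, p < 0 ∨ (n : ℤ) < p + 1 → l p = 0 := fun p hp =>
    fin_trf_zero _ (hz p hp) _ (by simp [psi])
  have hr0 : ∀ p, p < 0 ∨ (n : ℤ) < p + 1 → r p = 0 := fun p hp =>
    fin_trf_zero _ (hz p hp) _ (by simp [sq_nonneg])
  have hS0 : ∀ p, p + 1 < 0 ∨ (n : ℤ) < p + 1 → S p = 0 := fun p hp => by
    have := hE (p + 1) hp
    simp only [hS]
    rw [SS_empty ha, Real.log_one]
  -- telescoping
  have t1 : ∑ p ∈ Finset.Icc (0 : ℤ) n, (-1 : ℝ) ^ p * p * ltr D η (p - 1) =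
      ∑ j ∈ Finset.range (n + 2), (-1 : ℝ) ^ j * l (j - 1) := by
    have := fin_tele2 (fun j => l (j - 1)) n
    rw [fin_Icc]
    simp only [Nat.cast_zero, Nat.cast_add, Nat.cast_one] at this
    rw [hl0 (0 - 1) (by omega), hl0 ((n : ℤ) + 1 - 1) (by omega)] at this
    simp only [sub_zero, mul_zero, add_zero] at this
    rw [← this]
    refine Finset.sum_congr rfl fun j _ => ?_
    rw [hlt, zpow_natCast, show (j : ℤ) - 1 + 1 = j + 1 - 1 by ring]
    simp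
  have t2 : ∑ j ∈ Finset.range (n + 2), (-1 : ℝ) ^ j * (S (j - 2) + S (j - 2 + 1)) = 0 := by
    have := fin_tele (fun j => S (j - 2)) (n + 2)
    simp only [Nat.cast_zero, Nat.cast_add, Nat.cast_one, Nat.cast_ofNat] at this
    rw [hS0 (0 - 2) (by omega), hS0 ((n : ℤ) + 2 - 2) (by omega)] at this
    simp only [mul_zero, sub_zero] at this
    rw [← this]
    refine Finset.sum_congr rfl fun j _ => ?_
    rw [show (j : ℤ) - 2 + 1 = j + 1 - 2 by ring]
  have t3 : ∑ j ∈ Finset.range (n + 2), (-1 : ℝ) ^ j * (r (j - 1) + r (j - 1 + 1)) = 0 := by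
    have := fin_tele (fun j => r (j - 1)) (n + 2)
    simp only [Nat.cast_zero, Nat.cast_add, Nat.cast_one, Nat.cast_ofNat] at this
    rw [hr0 (0 - 1) (by omega), hr0 ((n : ℤ) + 2 - 1) (by omega)] at this
    simp only [mul_zero, sub_zero] at this
    rw [← this]
    refine Finset.sum_congr rfl fun j _ => ?_
    rw [show (j : ℤ) - 1 + 1 = j + 1 - 1 by ring]
  have t4 : -(1 / 2) * ∑ j ∈ Finset.range (n + 2), (-1 : ℝ) ^ j * l (j - 1) =
      ∑ j ∈ Finset.range (n + 2), -((-1 : ℝ) ^ j * (E (j - 2) + k (j - 1) / 2 * L)) := by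
    have e1 : ∀ j : ℕ, -((-1 : ℝ) ^ j * (E (j - 2) + k (j - 1) / 2 * L)) =
        -(1 / 2) * ((-1 : ℝ) ^ j * l (j - 1)) - (-1 : ℝ) ^ j * (S (j - 2) + S (j - 2 + 1)) +
          L / 2 * ((-1 : ℝ) ^ j * (r (j - 1) + r (j - 1 + 1))) := fun j => by
      have e2 : (j : ℤ) - 2 + 1 = j - 1 := by ring
      have e3 : E (j - 2) = S (j - 2) + S (j - 2 + 1) - N (j - 1 + 1) / 2 * L + l (j - 1) / 2 := by
        simp only [hEd]
        rw [e2]
      rw [e3, hNk]
      ring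
    simp only [e1, Finset.sum_add_distrib, Finset.sum_sub_distrib, ← Finset.mul_sum, t2, t3]
    ring
  rw [t1, t4, Finset.mul_sum]
  have hb : ∀ j ∈ Finset.range (n + 2), -(2 * (ε' * d)) ≤
      (-1 : ℝ) ^ q * -((-1 : ℝ) ^ j * (E (j - 2) + k (j - 1) / 2 * L)) := by
    intro j _
    have a1 := hk1 (j - 1)
    have a2 := hk0 (j - 1)
    have a3 := hE0 (j - 2)
    have a4 : 0 ≤ ε' * d := by positivity
    have a5 : |k (j - 1) * L| ≤ ε' * d := by rwa [abs_mul, abs_of_nonneg a2]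
    obtain ⟨a6, a7⟩ := abs_le.1 a5
    by_cases hj : (j : ℤ) - 2 + 1 = q
    · have e : (-1 : ℝ) ^ q * (-1 : ℝ) ^ j = -1 := by
        rw [← zpow_natCast, ← zpow_add₀ (by norm_num), ← hj,
          show (j : ℤ) - 2 + 1 + j = 2 * (j - 1) + 1 by ring]
        exact Odd.neg_one_zpow ⟨_, rfl⟩
      have : (-1 : ℝ) ^ q * -((-1 : ℝ) ^ j * (E (j - 2) + k (j - 1) / 2 * L)) =
          E (j - 2) + k (j - 1) * L / 2 := by
        linear_combination (-(E (j - 2) + k (j - 1) / 2 * L)) * e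
      rw [this]
      linarith
    · have a8 := hE1 _ hj
      have e : (-1 : ℝ) ^ q * (-1 : ℝ) ^ j = 1 ∨ (-1 : ℝ) ^ q * (-1 : ℝ) ^ j = -1 := by
        rw [← zpow_natCast, ← zpow_add₀ (by norm_num)]
        rcases Int.even_or_odd (q + j) with h | h
        · exact Or.inl h.neg_one_zpow
        · exact Or.inr h.neg_one_zpow
      rcases e with e | e
      · have : (-1 : ℝ) ^ q * -((-1 : ℝ) ^ j * (E (j - 2) + k (j - 1) / 2 * L)) =
            -(E (j - 2) + k (j - 1) * L / 2) := by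
          linear_combination (-(E (j - 2) + k (j - 1) / 2 * L)) * e
        rw [this]
        linarith
      · have : (-1 : ℝ) ^ q * -((-1 : ℝ) ^ j * (E (j - 2) + k (j - 1) / 2 * L)) =
            E (j - 2) + k (j - 1) * L / 2 := by
          linear_combination (-(E (j - 2) + k (j - 1) / 2 * L)) * e
        rw [this]
        linarith
  refine le_trans ?_ (Finset.sum_le_sum hb)
  rw [Finset.sum_const, Finset.card_range, nsmul_eq_mul, hε']
  push_cast
  apply le_of_eq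
  field_simp

end Pool.Agent.Lib.MP_fd3021_gt
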