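import Pool.Agent.Lib.MP_fd3021_gt.LA

/-! Matrices over the group ring acting on finite quotients. -/

namespace Pool.Agent.Lib.MP_fd3021_gt

open Matrix Filter

variable {G I J K : Type} [Group G]

theorem dg_pos (N : FiniteIndexNormalSubgroup G) : 0 < dg N := by
  have : Nonempty (QQ N) := ⟨1⟩
  exact Nat.cast_pos.2 Fintype.card_pos

theorem dg_eq (N : FiniteIndexNormalSubgroup G) : dg N = N.toSubgroup.index := by
  unfold dg
  rw [← Nat.card_eq_fintype_card]
  rfl

theorem mkQ_eq_iff (N : FiniteIndexNormalSubgroup G) (g h : G) :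
    mkQ N g = mkQ N h ↔ ∃ k ∈ N.toSubgroup, k * g = h := by
  refine (QuotientGroup.eq (s := N.toSubgroup)).trans ?_
  rw [N.isNormal'.mem_comm_iff]
  constructor
  · intro hk
    exact ⟨_, hk, by simp⟩
  · rintro ⟨k, hk, rfl⟩
    simpa using hk

theorem mkQ_surj (N : FiniteIndexNormalSubgroup G) : Function.Surjective (mkQ N) := by
  exact QuotientGroup.mk'_surjective N.toSubgroup

theorem eventually_inj [Group.ResiduallyFinite G] (A : Finset G) :
    ∀ᶠ N : FiniteIndexNormalSubgroup G in atBot, Set.InjOn (mkQ N) A := by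
  have key : ∀ a ∈ A, ∀ b ∈ A, ∀ᶠ N : FiniteIndexNormalSubgroup G in atBot,
      mkQ N a = mkQ N b → a = b := by
    intro a _ b _
    by_cases hab : a = b
    · exact Eventually.of_forall fun _ _ => hab
    · obtain ⟨H, hH⟩ := Group.exists_finiteIndexNormalSubgroup_notMem (b * a⁻¹)
        (fun h => hab (mul_inv_eq_one.1 h).symm)
      filter_upwards [eventually_le_atBot H] with N hN h
      obtain ⟨k, hk, rfl⟩ := (mkQ_eq_iff N a b).1 h
      exact absurd (by simpa using (hN hk : k ∈ H)) hH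
  have := (eventually_all_finset A).2 fun a ha => (eventually_all_finset A).2 (key a ha)
  filter_upwards [this] with N hN a ha b hb hab
  exact hN a ha b hb hab

theorem lrep_apply (N : FiniteIndexNormalSubgroup G) (A : Matrix I J (MonoidAlgebra ℤ G))
    (x : I × QQ N) (y : J × QQ N) : rep N A x y =
      (MonoidAlgebra.mapDomainRingHom ℤ (mkQ N) (A x.1 y.1)).coeff (x.2⁻¹ * y.2) := rfl

theorem rep_mul [Fintype J] (N : FiniteIndexNormalSubgroup G) (A : Matrix I J (MonoidAlgebra ℤ G))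
    (B : Matrix J K (MonoidAlgebra ℤ G)) : rep N (A * B) = rep N A * rep N B := by
  ext ⟨i, q⟩ ⟨k, r⟩
  simp only [lrep_apply, Matrix.mul_apply, map_sum, MonoidAlgebra.coeff_sum,
    Finsupp.finsetSum_apply, Fintype.sum_prod_type, map_mul]
  refine Finset.sum_congr rfl fun j _ => ?_
  rw [MonoidAlgebra.coeff_mul_apply_left, Finsupp.sum_fintype _ _ (by simp)]
  refine Fintype.sum_equiv (Equiv.mulLeft q) _ _ fun s => ?_
  simp [mul_assoc]

theorem rep_add (N : FiniteIndexNormalSubgroup G) (A B : Matrix I J (MonoidAlgebra ℤ G)) :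
    rep N (A + B) = rep N A + rep N B := by
  ext x y
  simp only [lrep_apply, Matrix.add_apply, map_add, MonoidAlgebra.coeff_add, Finsupp.add_apply]

theorem rep_zero (N : FiniteIndexNormalSubgroup G) :
    rep N (0 : Matrix I J (MonoidAlgebra ℤ G)) = 0 := by
  ext x y
  simp [lrep_apply]

theorem rep_one [DecidableEq I] (N : FiniteIndexNormalSubgroup G) :
    rep N (1 : Matrix I I (MonoidAlgebra ℤ G)) = 1 := by
  ext ⟨i, q⟩ ⟨j, r⟩
  rw [lrep_apply]
  by_cases hij : i = j
  · subst hij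
    rw [Matrix.one_apply_eq, map_one, MonoidAlgebra.one_def, MonoidAlgebra.coeff_single,
      Finsupp.single_apply, Matrix.one_apply]
    simp [eq_inv_mul_iff_mul_eq]
  · rw [Matrix.one_apply_ne hij, Matrix.one_apply_ne (by simp [hij])]
    simp

theorem rep_pow [Fintype I] [DecidableEq I] (N : FiniteIndexNormalSubgroup G)
    (A : Matrix I I (MonoidAlgebra ℤ G)) (k : ℕ) : rep N (A ^ k) = rep N A ^ k := by
  induction k with
  | zero => rw [pow_zero, pow_zero, rep_one]
  | succ k ih => rw [pow_succ, pow_succ, rep_mul, ih]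

theorem rep_adj (N : FiniteIndexNormalSubgroup G) (A : Matrix I J (MonoidAlgebra ℤ G)) :
    rep N (adj A) = (rep N A)ᵀ := by
  ext ⟨j, q⟩ ⟨i, r⟩
  change Finsupp.mapDomain (mkQ N) (Finsupp.mapDomain (·⁻¹) (A i j).coeff) (q⁻¹ * r) =
    Finsupp.mapDomain (mkQ N) (A i j).coeff (r⁻¹ * q)
  have e : (mkQ N : G → QQ N) ∘ (·⁻¹) = (·⁻¹) ∘ mkQ N := funext fun g => map_inv (mkQ N) g
  rw [← Finsupp.mapDomain_comp, e, Finsupp.mapDomain_comp,
    ← Finsupp.mapDomain_apply inv_injective _ (r⁻¹ * q)]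
  simp

theorem rep_ne_zero (N : FiniteIndexNormalSubgroup G) (A : Matrix I J (MonoidAlgebra ℤ G))
    {x y} (h : rep N A x y ≠ 0) : A x.1 y.1 ≠ 0 := by
  intro h0
  apply h
  rw [lrep_apply, h0]
  simp

theorem lrep_l1 {X Y : Type} [Fintype Y] (f : X → Y) (a : X →₀ ℤ) :
    ∑ y, |((a.mapDomain f y : ℤ) : ℝ)| ≤ l1 a := by
  classical
  have h : ∀ y, |((a.mapDomain f y : ℤ) : ℝ)| ≤
      ∑ x ∈ a.support, if f x = y then |(a x : ℝ)| else 0 := by
    intro y
    rw [Finsupp.mapDomain, Finsupp.sum, Finsupp.finsetSum_apply, Int.cast_sum]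
    refine (Finset.abs_sum_le_sum_abs _ _).trans (Finset.sum_le_sum fun x _ => ?_)
    rw [Finsupp.single_apply]
    split_ifs <;> simp
  refine (Finset.sum_le_sum fun y _ => h y).trans ?_
  rw [Finset.sum_comm]
  simp [l1]

theorem lrep_l1_nonneg {X : Type} (a : X →₀ ℤ) : 0 ≤ l1 a :=
  Finset.sum_nonneg fun _ _ => abs_nonneg _

theorem rep_RC [Fintype I] [Fintype J] (A : Matrix I J (MonoidAlgebra ℤ G)) :
    ∃ C : ℝ, 1 ≤ C ∧ ∀ N, RC (rep N A) C := by
  have h0 : 0 ≤ ∑ i, ∑ j, l1 (A i j).coeff :=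
    Finset.sum_nonneg fun _ _ => Finset.sum_nonneg fun _ _ => lrep_l1_nonneg _
  refine ⟨1 + ∑ i, ∑ j, l1 (A i j).coeff, by linarith, fun N => ⟨?_, ?_⟩⟩
  · rintro ⟨i, q⟩
    have h1 : ∑ y, |(rep N A (i, q) y : ℝ)| ≤ ∑ j, l1 (A i j).coeff := by
      rw [Fintype.sum_prod_type]
      refine Finset.sum_le_sum fun j _ => le_trans (le_of_eq ?_) (lrep_l1 (mkQ N) (A i j).coeff)
      exact Fintype.sum_equiv (Equiv.mulLeft q⁻¹) _ _ fun s => rfl
    have h2 : ∑ j, l1 (A i j).coeff ≤ ∑ i, ∑ j, l1 (A i j).coeff :=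
      Finset.single_le_sum (f := fun i => ∑ j, l1 (A i j).coeff)
        (fun _ _ => Finset.sum_nonneg fun _ _ => lrep_l1_nonneg _) (Finset.mem_univ i)
    linarith
  · rintro ⟨j, r⟩
    have h1 : ∑ x, |(rep N A x (j, r) : ℝ)| ≤ ∑ i, l1 (A i j).coeff := by
      rw [Fintype.sum_prod_type]
      refine Finset.sum_le_sum fun i _ => le_trans (le_of_eq ?_) (lrep_l1 (mkQ N) (A i j).coeff)
      exact Fintype.sum_equiv ((Equiv.inv _).trans (Equiv.mulRight r)) _ _ fun s => rfl
    have h2 : ∑ i, l1 (A i j).coeff ≤ ∑ i, ∑ j, l1 (A i j).coeff :=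
      Finset.sum_le_sum fun i _ => Finset.single_le_sum (f := fun j => l1 (A i j).coeff)
        (fun _ _ => lrep_l1_nonneg _) (Finset.mem_univ j)
    linarith

theorem trace_rep [Group.ResiduallyFinite G] [Fintype I] (A : Matrix I I (MonoidAlgebra ℤ G)) :
    ∀ᶠ N : FiniteIndexNormalSubgroup G in atBot,
      (cm (rep N A)).trace = dg N * ∑ i, (((A i i).coeff 1 : ℤ) : ℝ) := by
  classical
  filter_upwards [eventually_inj (insert 1 (Finset.univ.biUnion fun i => (A i i).coeff.support))]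
    with N hN
  have h : ∀ (i : I) (q : QQ N), rep N A (i, q) (i, q) = (A i i).coeff 1 := by
    intro i q
    change Finsupp.mapDomain (mkQ N) (A i i).coeff (q⁻¹ * q) = _
    rw [inv_mul_cancel, ← map_one (mkQ N)]
    refine Finsupp.mapDomain_apply' _ _ (fun g hg => ?_) hN (by simp)
    exact Finset.mem_coe.2 (Finset.mem_insert_of_mem
      (Finset.mem_biUnion.2 ⟨i, Finset.mem_univ _, hg⟩))
  simp only [Matrix.trace, Matrix.diag, cm, Fintype.sum_prod_type, h, Finset.sum_const,
    Finset.card_univ, nsmul_eq_mul, dg, Finset.mul_sum]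

variable [Fintype I] {deg : I → ℤ} {c : Matrix I I (MonoidAlgebra ℤ G)}

theorem IsRes.sq_zero [DecidableEq I] (h : IsRes deg c) : c * c = 0 := by
  obtain ⟨-, -, e, -, -, he⟩ := h
  ext1 i j
  have h1 := ((he _).2 ⟨Pi.single i 1, rfl⟩).1
  rw [Matrix.vecMul_vecMul, Matrix.single_one_vecMul] at h1
  exact congrFun h1 j

theorem lrep_block {Q : Type} [Fintype Q] (p : ℤ) (F : I × Q → ℤ)
    (h : ∀ y, F y ≠ 0 → deg y.1 = p) :
    ∑ y : {i // deg i = p} × Q, F (y.1.1, y.2) = ∑ y, F y := by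
  refine Fintype.sum_of_injective (fun y : {i // deg i = p} × Q => (y.1.1, y.2)) ?_ _ _ ?_
    fun _ => rfl
  · exact Subtype.val_injective.prodMap Function.injective_id
  · intro y hy
    by_contra h0
    exact hy ⟨(⟨y.1, h y h0⟩, y.2), rfl⟩

theorem DQ_mul (hg : ∀ i j, c i j ≠ 0 → deg i = deg j + 1) (hc : c * c = 0)
    (N : FiniteIndexNormalSubgroup G) (p : ℤ) : DQ deg c N p * DQ deg c N (p + 1) = 0 := by
  ext x z
  have h := congrFun (congrFun (rep_mul N c c) (z.1.1, z.2)) (x.1.1, x.2)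
  rw [hc, rep_zero, Matrix.mul_apply, ← lrep_block (deg := deg) (p + 1)] at h
  · rw [Matrix.mul_apply, Matrix.zero_apply]
    exact (Finset.sum_congr rfl fun y _ => mul_comm _ _).trans h.symm
  · intro y hy
    have := hg _ _ (rep_ne_zero N c (right_ne_zero_of_mul hy))
    rw [this, x.1.2]

theorem DQ_RC {C : ℝ} {N : FiniteIndexNormalSubgroup G} (h : RC (rep N c) C) (p : ℤ) :
    RC (DQ deg c N p) C := by
  exact h.transpose.submatrix
    (e := fun y : {i // deg i = p} × QQ N => (y.1.1, y.2))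
    (e' := fun y : {i // deg i = p + 1} × QQ N => (y.1.1, y.2))
    (Subtype.val_injective.prodMap Function.injective_id)
    (Subtype.val_injective.prodMap Function.injective_id)

theorem rep_dd (hg : ∀ i j, c i j ≠ 0 → deg i = deg j + 1) (N : FiniteIndexNormalSubgroup G)
    (p : ℤ) : rep N (dd deg c (p + 1)) = (DQ deg c N p)ᵀ * DQ deg c N p := by
  ext x z
  change rep N (c * adj c) (x.1.1, x.2) (z.1.1, z.2) = _
  rw [rep_mul, rep_adj, Matrix.mul_apply, Matrix.mul_apply, ← lrep_block (deg := deg) p]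
  · rfl
  · intro y hy
    have h1 := hg _ _ (rep_ne_zero N c (left_ne_zero_of_mul hy))
    have h2 := x.1.2
    dsimp only at h1
    omega

theorem lrep_lap (hg : ∀ i j, c i j ≠ 0 → deg i = deg j + 1) (N : FiniteIndexNormalSubgroup G)
    (p : ℤ) : rep N (lap deg c (p + 1)) =
      (DQ deg c N p)ᵀ * DQ deg c N p + DQ deg c N (p + 1) * (DQ deg c N (p + 1))ᵀ := by
  rw [← rep_dd hg]
  ext x z
  change rep N (adj c * c + c * adj c) (x.1.1, x.2) (z.1.1, z.2) =
    rep N (c * adj c) (x.1.1, x.2) (z.1.1, z.2) + _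
  rw [rep_add, Matrix.add_apply, add_comm]
  congr 1
  rw [rep_mul, rep_adj, Matrix.mul_apply, Matrix.mul_apply, ← lrep_block (deg := deg) (p + 1 + 1)]
  · rfl
  · intro y hy
    have h1 := hg _ _ (rep_ne_zero N c (right_ne_zero_of_mul hy))
    rw [h1, z.1.2]

theorem rep_lap (hg : ∀ i j, c i j ≠ 0 → deg i = deg j + 1) (N : FiniteIndexNormalSubgroup G)
    (p : ℤ) : cm (rep N (lap deg c (p + 1))) =
      lapR (cm (DQ deg c N p)) (cm (DQ deg c N (p + 1))) := by
  rw [lrep_lap hg, cm_add, cm_mul, cm_mul, cm_transpose, cm_transpose, lapR]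

theorem good_dd (hg : ∀ i j, c i j ≠ 0 → deg i = deg j + 1) (p : ℤ) :
    ∃ K, Good (dd deg c p) K := by
  classical
  obtain ⟨p, rfl⟩ : ∃ q, p = q + 1 := ⟨p - 1, by ring⟩
  obtain ⟨C, -, hC⟩ := rep_RC c
  refine ⟨C ^ 2, fun N => ?_⟩
  rw [rep_dd hg]
  refine ⟨by rw [Matrix.transpose_mul, Matrix.transpose_transpose], fun y => ?_⟩
  rw [cm_mul, cm_transpose, ← nsq_mulVec]
  exact ⟨nsq_nonneg _, (DQ_RC (hC N) p).nsq_le y⟩

theorem good_lap (hg : ∀ i j, c i j ≠ 0 → deg i = deg j + 1) (p : ℤ) :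
    ∃ K, Good (lap deg c p) K := by
  classical
  obtain ⟨p, rfl⟩ : ∃ q, p = q + 1 := ⟨p - 1, by ring⟩
  obtain ⟨C, -, hC⟩ := rep_RC c
  refine ⟨C ^ 2 + C ^ 2, fun N => ⟨?_, fun y => ?_⟩⟩
  · rw [lrep_lap hg]
    simp only [Matrix.transpose_add, Matrix.transpose_mul, Matrix.transpose_transpose]
  · rw [rep_lap hg, qf_lapR, add_mul]
    exact ⟨add_nonneg (nsq_nonneg _) (nsq_nonneg _),
      add_le_add ((DQ_RC (hC N) p).nsq_le y) ((DQ_RC (hC N) (p + 1)).transpose.nsq_le y)⟩

end Pool.Agent.Lib.MP_fd3021_gt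

/-! Spectral measures: approximation by finite quotients, uniqueness. -/

namespace Pool.Agent.Lib.MP_fd3021_gt

open Matrix Filter MeasureTheory Topology

variable {G I : Type} [Group G] [Group.ResiduallyFinite G] [Fintype I] [DecidableEq I]
  {A : Matrix I I (MonoidAlgebra ℤ G)} {K : ℝ} {μ : Measure ℝ}

theorem lspec_cm_symm {n : Type} {M : Matrix n n ℤ} (h : Mᵀ = M) : (cm M)ᵀ = cm M := by
  ext i j
  have := congrFun (congrFun h i) j
  simp only [transpose_apply] at this
  simp only [transpose_apply, cm, this]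

theorem lspec_cm_pow {n : Type} [Fintype n] [DecidableEq n] (M : Matrix n n ℤ) (k : ℕ) :
    cm (M ^ k) = cm M ^ k :=
  map_pow (Int.castRingHom ℝ).mapMatrix M k

theorem lspec_integrable {μ : Measure ℝ} [IsFiniteMeasure μ] {B : ℝ}
    (hB : μ (Set.Icc 0 B)ᶜ = 0) {ψ : ℝ → ℝ} (hψ : Continuous ψ) : Integrable ψ μ := by
  have h : μ.restrict (Set.Icc 0 B) = μ := Measure.restrict_eq_self_of_ae_mem hB
  rw [← h]
  exact hψ.continuousOn.integrableOn_compact isCompact_Icc

omit [Group.ResiduallyFinite G] in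
theorem Good.ev_mem (hA : Good A K) (N : FiniteIndexNormalSubgroup G) (i) :
    ev (cm (rep N A)) i ∈ Set.Icc 0 K := by
  have hs := lspec_cm_symm (hA N).1
  exact ⟨ev_nonneg hs (fun y => ((hA N).2 y).1) i, ev_le hs (fun y => ((hA N).2 y).2) i⟩

theorem trf_pow_rep (hA : Good A K) (k : ℕ) : ∀ᶠ N : FiniteIndexNormalSubgroup G in atBot,
    trf (cm (rep N A)) (fun x => x ^ k) / dg N = ∑ i, ((((A ^ k) i i).coeff 1 : ℤ) : ℝ) := by
  filter_upwards [trace_rep (A ^ k)] with N hN
  rw [trf_pow (lspec_cm_symm (hA N).1), ← lspec_cm_pow, ← rep_pow, hN,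
    mul_div_cancel_left₀ _ (dg_pos N).ne']

theorem lspec_poly (hA : Good A K) (hμ : IsSpec A μ) (p : Polynomial ℝ) :
    ∀ᶠ N : FiniteIndexNormalSubgroup G in atBot,
      trf (cm (rep N A)) (fun x => p.eval x) / dg N = ∫ x, p.eval x ∂μ := by
  obtain ⟨hf, ⟨B, hB⟩, hm⟩ := hμ
  induction p using Polynomial.induction_on' with
  | add p q hp hq =>
    filter_upwards [hp, hq] with N h1 h2
    simp only [Polynomial.eval_add]
    rw [integral_add (lspec_integrable hB p.continuous) (lspec_integrable hB q.continuous),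
      ← h1, ← h2, ← add_div]
    simp only [trf, Finset.sum_add_distrib]
  | monomial k a =>
    filter_upwards [trf_pow_rep hA k] with N h1
    simp only [Polynomial.eval_monomial]
    rw [integral_const_mul, hm k, ← h1, ← mul_div_assoc]
    simp only [trf, Finset.mul_sum]

theorem trf_tendsto (hA : Good A K) (hμ : IsSpec A μ) {ψ : ℝ → ℝ} (hψ : Continuous ψ) :
    Tendsto (fun N : FiniteIndexNormalSubgroup G => trf (cm (rep N A)) ψ / dg N) atBot
      (𝓝 (∫ x, ψ x ∂μ)) := by
  have hpoly := lspec_poly hA hμ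
  obtain ⟨hf, ⟨B, hB⟩, -⟩ := hμ
  rw [Metric.tendsto_nhds]
  intro ε hε
  obtain ⟨c, hc⟩ : ∃ c : ℝ, c = Fintype.card I + μ.real Set.univ + 1 := ⟨_, rfl⟩
  have hc0 : 0 < c := by rw [hc]; positivity
  obtain ⟨p, hp⟩ := exists_polynomial_near_of_continuousOn 0 (max B K) ψ hψ.continuousOn
    (ε / c) (div_pos hε hc0)
  filter_upwards [hpoly p] with N hN
  have hd := dg_pos N
  have h1 : |trf (cm (rep N A)) ψ / dg N - trf (cm (rep N A)) (fun x => p.eval x) / dg N| ≤
      ε / c * Fintype.card I := by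
    rw [← sub_div, abs_div, abs_of_pos hd, div_le_iff₀ hd, trf, trf, ← Finset.sum_sub_distrib]
    refine (Finset.abs_sum_le_sum_abs _ _).trans ?_
    refine (Finset.sum_le_card_nsmul _ _ (ε / c) fun i _ => ?_).trans (le_of_eq ?_)
    · rw [abs_sub_comm]
      have h := hA.ev_mem N i
      exact (hp _ ⟨h.1, h.2.trans (le_max_right _ _)⟩).le
    · simp only [Finset.card_univ, Fintype.card_prod, nsmul_eq_mul, dg]
      push_cast
      ring
  have h2 : |∫ x, p.eval x ∂μ - ∫ x, ψ x ∂μ| ≤ ε / c * μ.real Set.univ := by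
    rw [← integral_sub (lspec_integrable hB p.continuous) (lspec_integrable hB hψ),
      ← Real.norm_eq_abs]
    refine norm_integral_le_of_norm_le_const ?_
    have hB' : ∀ᵐ x ∂μ, x ∈ Set.Icc 0 B := hB
    filter_upwards [hB'] with x hx
    exact (hp x ⟨hx.1, hx.2.trans (le_max_left _ _)⟩).le
  rw [Real.dist_eq]
  have h3 : ε / c * Fintype.card I + ε / c * μ.real Set.univ < ε := by
    have h4 : ε / c * c = ε := div_mul_cancel₀ _ hc0.ne'
    have h5 : 0 < ε / c := div_pos hε hc0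
    have h6 : ε / c * (Fintype.card I + μ.real Set.univ + 1) = ε := by rw [← hc]; exact h4
    linarith
  rw [hN] at h1
  exact ((abs_sub_le _ _ _).trans (add_le_add h1 h2)).trans_lt h3

theorem spec_unique (hA : Good A K) {ν : Measure ℝ} (hμ : IsSpec A μ) (hν : IsSpec A ν) :
    μ = ν := by
  have h1 := hμ.1
  have h2 := hν.1
  refine ext_of_forall_integral_eq_of_IsFiniteMeasure fun f => ?_
  exact tendsto_nhds_unique (trf_tendsto hA hμ f.continuous) (trf_tendsto hA hν f.continuous)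

end Pool.Agent.Lib.MP_fd3021_gt

/-! Spectral measures: existence. -/

namespace Pool.Agent.Lib.MP_fd3021_gt

open Matrix Filter MeasureTheory Topology

theorem lexist_avg {ι E : Type} [Fintype ι] [Nonempty ι] [MeasurableSpace E]
    [MeasurableSingletonClass E] (lam : ι → E) : ∃ ν : ProbabilityMeasure E, ∀ g : E → ℝ,
      ∫ x, g x ∂(ν : Measure E) = (∑ i, g (lam i)) / Fintype.card ι := by
  have hc : (Fintype.card ι : ENNReal) ≠ 0 := by simp
  refine ⟨⟨(Fintype.card ι : ENNReal)⁻¹ • ∑ i, Measure.dirac (lam i), ⟨?_⟩⟩, fun g => ?_⟩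
  · rw [Measure.smul_apply, Measure.finsetSum_apply]
    simp only [measure_univ, Finset.sum_const, Finset.card_univ, nsmul_eq_mul, mul_one, smul_eq_mul]
    exact ENNReal.inv_mul_cancel hc (by simp)
  · change ∫ x, g x ∂((Fintype.card ι : ENNReal)⁻¹ • ∑ i, Measure.dirac (lam i)) = _
    rw [integral_smul_measure, integral_finsetSum_measure fun i _ => integrable_dirac (by simp)]
    simp only [integral_dirac, ENNReal.toReal_inv, ENNReal.toReal_natCast, smul_eq_mul]
    rw [div_eq_inv_mul]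

variable {G I : Type} [Group G] [Group.ResiduallyFinite G] [Fintype I] [DecidableEq I]
  {A : Matrix I I (MonoidAlgebra ℤ G)} {K : ℝ}

theorem spec_exists (hA : Good A K) : ∃ μ, IsSpec A μ := by
  rcases isEmpty_or_nonempty I with hI | hI
  · exact ⟨0, inferInstance, ⟨0, by simp⟩, fun k => by simp⟩
  have hc : (0 : ℝ) < Fintype.card I := by exact_mod_cast Fintype.card_pos
  choose μ hμ using fun N : FiniteIndexNormalSubgroup G =>
    lexist_avg (E := Set.Icc (0 : ℝ) K) fun i => ⟨ev (cm (rep N A)) i, hA.ev_mem N i⟩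
  obtain ⟨μ0, -, hμ0⟩ := isCompact_univ.ultrafilter_le_nhds
    ((Ultrafilter.of (atBot : Filter (FiniteIndexNormalSubgroup G))).map μ) (by simp)
  have ht : Tendsto μ (Ultrafilter.of (atBot : Filter (FiniteIndexNormalSubgroup G)))
    (𝓝 μ0) := hμ0
  rw [ProbabilityMeasure.tendsto_iff_forall_integral_tendsto] at ht
  refine ⟨(Fintype.card I : NNReal) • (μ0 : Measure (Set.Icc (0 : ℝ) K)).map Subtype.val,
    inferInstance, ⟨K, ?_⟩, fun k => ?_⟩
  · rw [Measure.smul_apply, Measure.map_apply measurable_subtype_coe measurableSet_Icc.compl]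
    have : (Subtype.val : Set.Icc (0 : ℝ) K → ℝ) ⁻¹' (Set.Icc 0 K)ᶜ = ∅ := by
      ext x; simp
    rw [this]; simp
  · rw [integral_smul_nnreal_measure, integral_map measurable_subtype_coe.aemeasurable (by fun_prop)]
    have h3 := ht (BoundedContinuousFunction.mkOfCompact
      ⟨fun x : Set.Icc (0 : ℝ) K => (x : ℝ) ^ k, by fun_prop⟩)
    simp only [BoundedContinuousFunction.mkOfCompact_apply, ContinuousMap.coe_mk] at h3
    have h4 : ∫ x : Set.Icc (0 : ℝ) K, (x : ℝ) ^ k ∂(μ0 : Measure (Set.Icc (0 : ℝ) K)) =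
        (∑ i, ((((A ^ k) i i).coeff 1 : ℤ) : ℝ)) / Fintype.card I := by
      refine tendsto_nhds_unique h3 (tendsto_const_nhds.congr' ?_)
      filter_upwards [Ultrafilter.of_le _ (trf_pow_rep hA k)] with N hN
      rw [hμ, ← hN, trf, Fintype.card_prod, dg, div_div]
      push_cast
      rw [mul_comm]
    rw [h4, NNReal.smul_def, smul_eq_mul, NNReal.coe_natCast]
    field_simp

end Pool.Agent.Lib.MP_fd3021_gt

/-! Determinant class and vanishing of the atom at zero. -/

namespace Pool.Agent.Lib.MP_fd3021_gt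

open Matrix Filter MeasureTheory Topology

variable {G I : Type} [Group G] [Group.ResiduallyFinite G] [Fintype I] [DecidableEq I]
  {A : Matrix I I (MonoidAlgebra ℤ G)} {K : ℝ} {μ : Measure ℝ}

omit [Group.ResiduallyFinite G] in
/-- uniform bound for the small eigenvalues -/
theorem trf_neg_log_le (hA : Good A K) : ∃ L : ℝ, 0 ≤ L ∧ ∀ N : FiniteIndexNormalSubgroup G,
    trf (cm (rep N A)) (fun x => max 0 (-Real.log x)) ≤ L * dg N := by
  have h0 : 0 ≤ Real.log (max K 1) := Real.log_nonneg (le_max_right _ _)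
  refine ⟨Fintype.card I * Real.log (max K 1), by positivity, fun N => ?_⟩
  have h1 := trf_log_nonneg (rep N A) (hA N).1
  have h2 : trf (cm (rep N A)) (fun x => max 0 (-Real.log x)) ≤
      ∑ i, (Real.log (max K 1) - Real.log (ev (cm (rep N A)) i)) := by
    refine Finset.sum_le_sum fun i _ => ?_
    obtain ⟨a, b⟩ := hA.ev_mem N i
    have c : Real.log (ev (cm (rep N A)) i) ≤ Real.log (max K 1) := by
      rcases a.eq_or_lt with e | e
      · rw [← e, Real.log_zero]; exact h0
      · exact Real.log_le_log e (b.trans (le_max_left _ _))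
    exact max_le (by linarith) (by linarith)
  rw [Finset.sum_sub_distrib, Finset.sum_const, Finset.card_univ, Fintype.card_prod,
    nsmul_eq_mul, Nat.cast_mul] at h2
  unfold trf at h1
  unfold dg
  linarith

theorem ldet_int_le (hA : Good A K) (hμ : IsSpec A μ) {ψ : ℝ → ℝ} (hψ : Continuous ψ) {c : ℝ}
    (h : ∀ᶠ N : FiniteIndexNormalSubgroup G in atBot, trf (cm (rep N A)) ψ ≤ c * dg N) :
    ∫ x, ψ x ∂μ ≤ c :=
  le_of_tendsto (trf_tendsto hA hμ hψ) (h.mono fun N hN => (div_le_iff₀ (dg_pos N)).2 hN)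

/-- continuous approximations of the negative part of the logarithm -/
noncomputable def ldetH (n : ℕ) (x : ℝ) : ℝ :=
  max 0 (min ((n + 1 : ℝ) * x) (-Real.log (max x (1 / (n + 1 : ℝ)))))

theorem ldetH_cont (n : ℕ) : Continuous (ldetH n) := by
  have h : Continuous fun x : ℝ => Real.log (max x (1 / (n + 1 : ℝ))) :=
    Continuous.log (by fun_prop) fun x => (lt_max_of_lt_right Nat.one_div_pos_of_nat).ne'
  exact continuous_const.max ((by fun_prop : Continuous fun x : ℝ => (n + 1 : ℝ) * x).min h.neg)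

theorem ldetH_le (n : ℕ) {x : ℝ} (hx : 0 ≤ x) : ldetH n x ≤ max 0 (-Real.log x) := by
  rcases hx.eq_or_lt with rfl | e
  · exact max_le (le_max_left _ _) ((min_le_left _ _).trans (by simp))
  · exact max_le_max le_rfl ((min_le_right _ _).trans
      (neg_le_neg (Real.log_le_log e (le_max_left _ _))))

theorem ldetH_bd (n : ℕ) (x : ℝ) : ‖ldetH n x‖ ≤ max 0 (-Real.log (1 / (n + 1 : ℝ))) := by
  rw [ldetH, Real.norm_of_nonneg (le_max_left _ _)]
  exact max_le_max le_rfl ((min_le_right _ _).trans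
    (neg_le_neg (Real.log_le_log Nat.one_div_pos_of_nat (le_max_right _ _))))

theorem ldetH_lim {x : ℝ} (hx : 0 < x) :
    Tendsto (fun n => ldetH n x) atTop (𝓝 (max 0 (-Real.log x))) := by
  refine tendsto_const_nhds.congr' ?_
  have t : Tendsto (fun n : ℕ => (n : ℝ)) atTop atTop := tendsto_natCast_atTop_atTop
  filter_upwards [t.eventually_ge_atTop (1 / x), t.eventually_ge_atTop (-Real.log x / x)]
    with n h1 h2
  rw [div_le_iff₀ hx] at h1 h2
  have h3 : 1 / (n + 1 : ℝ) ≤ x := by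
    rw [div_le_iff₀ (by positivity)]
    linarith
  rw [ldetH, max_eq_left h3, min_eq_right (by linarith)]

theorem log_integrable (hA : Good A K) (hμ : IsSpec A μ) :
    IntegrableOn Real.log (Set.Ioi 0) μ := by
  obtain ⟨L, -, hL⟩ := trf_neg_log_le hA
  have := hμ.1
  obtain ⟨B, hB⟩ := hμ.2.1
  have h1 : ∀ n, ∫⁻ x in Set.Ioi 0, ‖ldetH n x‖ₑ ∂μ ≤ ENNReal.ofReal L := by
    intro n
    have hi : Integrable (ldetH n) μ := Integrable.of_bound (ldetH_cont n).aestronglyMeasurable _
      (Eventually.of_forall (ldetH_bd n))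
    refine (lintegral_mono' Measure.restrict_le_self le_rfl).trans ?_
    rw [← ofReal_integral_norm_eq_lintegral_enorm hi]
    refine ENNReal.ofReal_le_ofReal (ldet_int_le hA hμ (ldetH_cont n).norm
      (Eventually.of_forall fun N => le_trans (Finset.sum_le_sum fun i _ => ?_) (hL N)))
    exact (Real.norm_of_nonneg (le_max_left _ _)).le.trans (ldetH_le n (hA.ev_mem N i).1)
  have h2 : Integrable (fun x => max 0 (-Real.log x)) (μ.restrict (Set.Ioi 0)) :=
    integrable_of_tendsto ((ae_restrict_mem measurableSet_Ioi).mono fun x hx => ldetH_lim hx)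
      (fun n => (ldetH_cont n).aestronglyMeasurable) (ne_top_of_le_ne_top ENNReal.ofReal_ne_top
        (liminf_le_of_frequently_le' (Frequently.of_forall h1)))
  refine (h2.add (integrable_const (Real.log (max B 1)))).mono'
    Real.measurable_log.aestronglyMeasurable ?_
  have h3 : ∀ᵐ x ∂μ, x ∈ Set.Icc 0 B := hB
  filter_upwards [ae_restrict_mem measurableSet_Ioi, ae_restrict_of_ae h3] with x hx hx'
  have a : 0 ≤ Real.log (max B 1) := Real.log_nonneg (le_max_right _ _)
  have b : Real.log x ≤ Real.log (max B 1) := Real.log_le_log hx (hx'.2.trans (le_max_left _ _))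
  have c := le_max_left 0 (-Real.log x)
  have d := le_max_right 0 (-Real.log x)
  rw [Real.norm_eq_abs, Pi.add_apply]
  exact abs_le.2 ⟨by linarith, by linarith⟩

theorem ldet_bump {T x : ℝ} (hT : 0 < T) (hx : 0 ≤ x) :
    max 0 (1 - |x| / Real.exp (-T)) ≤ ind0 x + max 0 (-Real.log x) / T := by
  have a : 0 ≤ max 0 (-Real.log x) / T := div_nonneg (le_max_left _ _) hT.le
  have b : 0 ≤ |x| / Real.exp (-T) := by positivity
  unfold ind0
  split_ifs with h
  · exact max_le (by linarith) (by linarith)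
  · rw [zero_add]
    refine max_le a ?_
    rcases le_total x (Real.exp (-T)) with c | c
    · have d := Real.log_le_log (lt_of_le_of_ne hx (Ne.symm h)) c
      rw [Real.log_exp] at d
      have e : 1 ≤ max 0 (-Real.log x) / T :=
        (one_le_div hT).2 (le_max_of_le_right (by linarith))
      linarith
    · have e : 1 ≤ |x| / Real.exp (-T) :=
        (one_le_div (Real.exp_pos _)).2 (c.trans (le_abs_self x))
      linarith

theorem atom_zero (hA : Good A K) (hμ : IsSpec A μ)
    (h : ∀ δ > 0, ∀ᶠ N : FiniteIndexNormalSubgroup G in atBot,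
      trf (cm (rep N A)) ind0 ≤ δ * dg N) : μ {0} = 0 := by
  obtain ⟨L, L0, hL⟩ := trf_neg_log_le hA
  have := hμ.1
  rw [← measureReal_eq_zero_iff]
  refine le_antisymm (le_of_forall_pos_le_add fun ε hε => ?_) measureReal_nonneg
  obtain ⟨T, hT⟩ : ∃ T, T = 2 * (L + 1) / ε := ⟨_, rfl⟩
  have T0 : 0 < T := by rw [hT]; positivity
  have T1 : L / T ≤ ε / 2 := by
    rw [div_le_iff₀ T0, hT]
    field_simp
    linarith
  have hc : Continuous fun x : ℝ => max 0 (1 - |x| / Real.exp (-T)) := by fun_prop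
  have h1 : ∫ x, max 0 (1 - |x| / Real.exp (-T)) ∂μ ≤ ε / 2 + L / T := by
    refine ldet_int_le hA hμ hc ((h (ε / 2) (by positivity)).mono fun N hN => ?_)
    refine (Finset.sum_le_sum fun i _ => ldet_bump T0 (hA.ev_mem N i).1).trans ?_
    rw [Finset.sum_add_distrib, ← Finset.sum_div, add_mul, div_mul_eq_mul_div L]
    exact add_le_add hN (div_le_div_of_nonneg_right (hL N) T0.le)
  have h2 : μ.real {0} ≤ ∫ x, max 0 (1 - |x| / Real.exp (-T)) ∂μ := by
    rw [← integral_indicator_one (measurableSet_singleton 0)]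
    refine integral_mono ((integrable_const 1).indicator (measurableSet_singleton 0))
      (Integrable.of_bound hc.aestronglyMeasurable 1 (Eventually.of_forall fun x => ?_))
      fun x => ?_
    · rw [Real.norm_of_nonneg (le_max_left _ _)]
      exact max_le zero_le_one (sub_le_self _ (by positivity))
    · by_cases hx : x = 0
      · simp [hx]
      · simp [hx]
  linarith

end Pool.Agent.Lib.MP_fd3021_gt

/-! Approximation of the log-determinant by truncated log-determinants of finite quotients. -/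

namespace Pool.Agent.Lib.MP_fd3021_gt

open Matrix Filter MeasureTheory Topology

variable {G I : Type} [Group G] [Group.ResiduallyFinite G] [Fintype I] [DecidableEq I]
  {A : Matrix I I (MonoidAlgebra ℤ G)} {K : ℝ} {μ : Measure ℝ}

/-- continuous majorant for the small eigenvalues -/
noncomputable def etaPhi (η x : ℝ) : ℝ := (1 - Real.log η) * max 0 (min 1 (2 - x / η ^ 2))

theorem eta_log_neg {η : ℝ} (h0 : 0 < η) (h1 : η ≤ 1 / 2) : Real.log η ≤ 0 :=
  Real.log_nonpos h0.le (by linarith)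

theorem eta_phi_nonneg {η : ℝ} (h0 : 0 < η) (h1 : η ≤ 1 / 2) (x : ℝ) : 0 ≤ etaPhi η x :=
  mul_nonneg (by linarith [eta_log_neg h0 h1]) (le_max_left _ _)

theorem eta_phi_small {η x : ℝ} (h0 : 0 < η) (hx : x ≤ η ^ 2) : etaPhi η x = 1 - Real.log η := by
  have h : x / η ^ 2 ≤ 1 := (div_le_one (by positivity)).2 hx
  rw [etaPhi, min_eq_left (by linarith), max_eq_right zero_le_one, mul_one]

theorem eta_phi_big {η x : ℝ} (h0 : 0 < η) (hx : 2 * η ^ 2 ≤ x) : etaPhi η x = 0 := by
  have h : 2 ≤ x / η ^ 2 := (le_div_iff₀ (by positivity)).2 hx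
  rw [etaPhi, max_eq_left ((min_le_right _ _).trans (by linarith)), mul_zero]

theorem eta_phi_le {η x : ℝ} (h0 : 0 < η) (h1 : η ≤ 1 / 2) (hx : 0 < x) :
    etaPhi η x ≤ 1 + |Real.log x| := by
  rcases le_or_gt (2 * η ^ 2) x with h | h
  · rw [eta_phi_big h0 h]; positivity
  · have h2 : Real.log x ≤ Real.log η := Real.log_le_log hx (by nlinarith)
    have h3 := eta_log_neg h0 h1
    have h4 : max 0 (min 1 (2 - x / η ^ 2)) ≤ 1 := max_le zero_le_one (min_le_left _ _)
    have h5 : etaPhi η x ≤ 1 - Real.log η := mul_le_of_le_one_right (by linarith) h4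
    linarith [neg_abs_le (Real.log x)]

theorem eta_phi_cont (η : ℝ) : Continuous (etaPhi η) := by
  unfold etaPhi
  fun_prop

theorem eta_F_cont {η : ℝ} (h0 : 0 < η) : Continuous fun x : ℝ => Real.log (max x (η ^ 2)) :=
  Continuous.log (by fun_prop) fun x =>
    (lt_of_lt_of_le (by positivity) (le_max_right x (η ^ 2))).ne'

theorem eta_F_le {η x : ℝ} (h0 : 0 < η) (h1 : η ≤ 1 / 2) (hx : 0 < x) :
    |Real.log (max x (η ^ 2))| ≤ |Real.log x| := by
  rcases le_total (η ^ 2) x with h | h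
  · rw [max_eq_left h]
  · rw [max_eq_right h]
    have h2 : Real.log x ≤ Real.log (η ^ 2) := Real.log_le_log hx h
    have h3 : Real.log (η ^ 2) ≤ 0 := Real.log_nonpos (by positivity) (by nlinarith)
    rw [abs_of_nonpos h3, abs_of_nonpos (h2.trans h3)]
    linarith

theorem eta_psi {η : ℝ} (h0 : 0 < η) (h1 : η ≤ 1 / 2) (x : ℝ) :
    |psi η x - Real.log (max x (η ^ 2))| ≤ 2 * etaPhi η x := by
  have h2 := eta_phi_nonneg h0 h1 x
  unfold psi
  split_ifs with h
  · rw [max_eq_left h.le, sub_self, abs_zero]; positivity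
  · rw [not_lt] at h
    have h3 := eta_log_neg h0 h1
    rw [max_eq_right h, eta_phi_small h0 h, Real.log_pow, zero_sub, abs_neg,
      abs_of_nonpos (by push_cast; linarith)]
    push_cast
    linarith

theorem eta_ev {x : ℝ} (hx : 0 < x) : ∀ᶠ η : ℝ in 𝓝[>] 0, 2 * η ^ 2 ≤ x := by
  have h : ContinuousAt (fun η : ℝ => 2 * η ^ 2) 0 := by fun_prop
  have h1 : (fun η : ℝ => 2 * η ^ 2) 0 < x := by simpa using hx
  exact nhdsWithin_le_nhds ((h.eventually (gt_mem_nhds h1)).mono fun _ h => h.le)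

theorem eta_main (hA : Good A K) (hμ : IsSpec A μ) (h0 : μ {0} = 0) {ζ : ℝ} (hζ : 0 < ζ) :
    ∀ᶠ η : ℝ in 𝓝[>] 0, ∀ᶠ N : FiniteIndexNormalSubgroup G in atBot,
      (cnt (cm (rep N A)) η : ℝ) * (1 - Real.log η) ≤ ζ * dg N ∧
      |trf (cm (rep N A)) (psi η) - dg N * ∫ x in Set.Ioi 0, Real.log x ∂μ| ≤ ζ * dg N := by
  have hlog := log_integrable hA hμ
  obtain ⟨hfin, ⟨B, hB⟩, -⟩ := id hμ
  have hae : ∀ᵐ x ∂μ, x ∈ Set.Ioi (0 : ℝ) := by
    have h1 : ∀ᵐ x ∂μ, x ∈ Set.Icc 0 B := hB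
    have h2 : ∀ᵐ x ∂μ, x ∉ ({0} : Set ℝ) := measure_eq_zero_iff_ae_notMem.1 h0
    filter_upwards [h1, h2] with x a b using lt_of_le_of_ne a.1 fun c => b c.symm
  have hres : μ.restrict (Set.Ioi 0) = μ := Measure.restrict_eq_self_of_ae_mem hae
  rw [IntegrableOn, hres] at hlog
  rw [hres]
  have hη : ∀ᶠ η : ℝ in 𝓝[>] 0, 0 < η ∧ η ≤ 1 / 2 :=
    Ioc_mem_nhdsGT (by norm_num : (0 : ℝ) < 1 / 2)
  have t1 : Tendsto (fun η : ℝ => ∫ x, etaPhi η x ∂μ) (𝓝[>] 0) (𝓝 (∫ _x, (0 : ℝ) ∂μ)) := by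
    refine tendsto_integral_filter_of_dominated_convergence (fun x => 1 + |Real.log x|)
      (Eventually.of_forall fun η => (eta_phi_cont η).aestronglyMeasurable) ?_
      ((integrable_const 1).add hlog.abs) ?_
    · filter_upwards [hη] with η h
      filter_upwards [hae] with x hx
      rw [Real.norm_eq_abs, abs_of_nonneg (eta_phi_nonneg h.1 h.2 x)]
      exact eta_phi_le h.1 h.2 hx
    · filter_upwards [hae] with x hx
      refine tendsto_const_nhds.congr' ?_
      filter_upwards [hη, eta_ev hx] with η a b using (eta_phi_big a.1 b).symm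
  have t2 : Tendsto (fun η : ℝ => ∫ x, Real.log (max x (η ^ 2)) ∂μ) (𝓝[>] 0)
      (𝓝 (∫ x, Real.log x ∂μ)) := by
    refine tendsto_integral_filter_of_dominated_convergence (fun x => |Real.log x|) ?_ ?_
      hlog.abs ?_
    · filter_upwards [hη] with η h using (eta_F_cont h.1).aestronglyMeasurable
    · filter_upwards [hη] with η h
      filter_upwards [hae] with x hx using eta_F_le h.1 h.2 hx
    · filter_upwards [hae] with x hx
      refine tendsto_const_nhds.congr' ?_
      filter_upwards [eta_ev hx] with η b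
      rw [max_eq_left (by nlinarith [sq_nonneg η])]
  rw [integral_zero] at t1
  have z4 : 0 < ζ / 4 := by positivity
  filter_upwards [hη, t1.eventually (gt_mem_nhds z4), t2.eventually (Metric.ball_mem_nhds _ z4)]
    with η h a b
  filter_upwards [(trf_tendsto hA hμ (eta_phi_cont η)).eventually (gt_mem_nhds a),
    (trf_tendsto hA hμ (eta_F_cont h.1)).eventually (Metric.isOpen_ball.mem_nhds b)] with N c d
  have hd := dg_pos N
  rw [div_lt_iff₀ hd] at c
  have d' : |trf (cm (rep N A)) (fun x => Real.log (max x (η ^ 2))) - dg N * ∫ x, Real.log x ∂μ| <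
      ζ / 4 * dg N := by
    rw [Real.dist_eq, div_sub' hd.ne', abs_div, abs_of_pos hd,
      div_lt_iff₀ hd] at d
    exact d
  have e1 : (cnt (cm (rep N A)) η : ℝ) * (1 - Real.log η) ≤ trf (cm (rep N A)) (etaPhi η) := by
    rw [cnt, trf, ← nsmul_eq_mul, ← Finset.sum_const]
    refine le_trans (Finset.sum_le_sum fun i hi => ?_)
      (Finset.sum_le_sum_of_subset_of_nonneg (Finset.filter_subset _ _)
        fun i _ _ => eta_phi_nonneg h.1 h.2 _)
    exact (eta_phi_small h.1 (Finset.mem_filter.1 hi).2).ge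
  have e2 : |trf (cm (rep N A)) (psi η) -
      trf (cm (rep N A)) (fun x => Real.log (max x (η ^ 2)))| ≤
      2 * trf (cm (rep N A)) (etaPhi η) := by
    rw [trf, trf, trf, ← Finset.sum_sub_distrib, Finset.mul_sum]
    exact (Finset.abs_sum_le_sum_abs _ _).trans (Finset.sum_le_sum fun i _ => eta_psi h.1 h.2 _)
  have e3 : 0 < ζ * dg N := by positivity
  refine ⟨by linarith, ?_⟩
  have e4 := abs_sub_le (trf (cm (rep N A)) (psi η))
    (trf (cm (rep N A)) (fun x => Real.log (max x (η ^ 2)))) (dg N * ∫ x, Real.log x ∂μ)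
  linarith

end Pool.Agent.Lib.MP_fd3021_gt
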