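import Mathlib

/-! Definitions used in the statements on the L2-torsion of Poincare duality complexes. -/

namespace Pool.Agent.Lib.MP_fd3021_gt

open MeasureTheory Matrix

variable {G I J Ω : Type}

/-- Conjugate transpose over the group ring, for the involution `g ↦ g⁻¹`. -/
noncomputable def adj [Group G] (A : Matrix I J (MonoidAlgebra ℤ G)) :
    Matrix J I (MonoidAlgebra ℤ G) :=
  fun j i => (A i j).mapDomain (·⁻¹)

/-- `μ` is a spectral measure of `A` for the von Neumann trace: a finite measure on a bounded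
interval `[0, B]` whose `k`-th moment is the trace of `A ^ k`. -/
def IsSpec [Group G] [Fintype I] [DecidableEq I] (A : Matrix I I (MonoidAlgebra ℤ G))
    (μ : Measure ℝ) : Prop :=
  IsFiniteMeasure μ ∧ (∃ B : ℝ, μ (Set.Icc 0 B)ᶜ = 0) ∧
    ∀ k : ℕ, ∫ x, x ^ k ∂μ = ∑ i, ((((A ^ k) i i).coeff 1 : ℤ) : ℝ)

/-- The spectral measure of `A` (the theorems assert that it exists and is unique). -/
noncomputable def spec [Group G] [Fintype I] [DecidableEq I]
    (A : Matrix I I (MonoidAlgebra ℤ G)) : Measure ℝ :=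
  Classical.epsilon (IsSpec A)

/-- The finite free complex with basis `I`, degrees `deg` and differential `x ↦ x c` is
concentrated in degrees `≥ 0`, has `H_0 ≅ ℤ` as an abelian group and no other homology. -/
def IsRes [Group G] [Fintype I] (deg : I → ℤ) (c : Matrix I I (MonoidAlgebra ℤ G)) : Prop :=
  (∀ i, 0 ≤ deg i) ∧ (∀ i j, c i j ≠ 0 → deg i = deg j + 1) ∧
    ∃ e : (I → MonoidAlgebra ℤ G) →+ ℤ, Function.Surjective e ∧
      (∀ x, (∀ i, deg i = 0 → x i = 0) → e x = 0) ∧
      ∀ x, (x ᵥ* c = 0 ∧ e x = 0) ↔ ∃ y, y ᵥ* c = x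

/-- The matrix of `c_p^* c_p`. -/
noncomputable def dd [Group G] [Fintype I] (deg : I → ℤ) (c : Matrix I I (MonoidAlgebra ℤ G))
    (p : ℤ) : Matrix {i // deg i = p} {i // deg i = p} (MonoidAlgebra ℤ G) :=
  (c * adj c).submatrix (↑) (↑)

/-- The matrix of the Laplacian `Δ_p = c_{p+1} c_{p+1}^* + c_p^* c_p`. -/
noncomputable def lap [Group G] [Fintype I] (deg : I → ℤ) (c : Matrix I I (MonoidAlgebra ℤ G))
    (p : ℤ) : Matrix {i // deg i = p} {i // deg i = p} (MonoidAlgebra ℤ G) :=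
  (adj c * c + c * adj c).submatrix (↑) (↑)

/-- det-L2-acyclicity: the spectral measures exist and are unique, all L2-Betti numbers vanish
and all Fuglede-Kadison determinants are positive. -/
def DetAcyclic [Group G] [Fintype I] [DecidableEq I] (deg : I → ℤ)
    (c : Matrix I I (MonoidAlgebra ℤ G)) : Prop :=
  ∀ p : ℤ, (∃! μ, IsSpec (lap deg c p) μ) ∧ (∃! μ, IsSpec (dd deg c p) μ) ∧
    spec (lap deg c p) {0} = 0 ∧
    IntegrableOn Real.log (Set.Ioi 0) (spec (lap deg c p)) ∧
    IntegrableOn Real.log (Set.Ioi 0) (spec (dd deg c p))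

/-- The L2-torsion. -/
noncomputable def rho [Group G] [Fintype I] [DecidableEq I] (deg : I → ℤ)
    (c : Matrix I I (MonoidAlgebra ℤ G)) : ℝ :=
  -(1 / 2) * ∑ p ∈ Finset.univ.image deg,
    (-1 : ℝ) ^ p * p * ∫ x in Set.Ioi 0, Real.log x ∂(spec (lap deg c p))

/-- Amenability, by the Folner condition. -/
def Folner (Γ : Type) [Group Γ] : Prop :=
  ∀ (A : Finset Γ) (ε : ℝ), 0 < ε → ∃ F : Finset Γ, F.Nonempty ∧
    ∀ a ∈ A, ({x | x ∈ F ∧ a * x ∉ F}.ncard : ℝ) ≤ ε * F.card

/-- Boundary of an ordered simplex; the empty list is the augmentation. -/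
noncomputable def bd (l : List Ω) : List Ω →₀ ℤ :=
  ∑ k ∈ Finset.range l.length, Finsupp.single (l.eraseIdx k) ((-1) ^ k)

/-- Augmented ordered chains of `Y` on lists of `p` vertices (degree `p - 1`). -/
def chains [DecidableEq Ω] (Y : AbstractSimplicialComplex Ω) (p : ℕ) :
    Submodule ℤ (List Ω →₀ ℤ) :=
  Finsupp.supported ℤ ℤ {l | l.length = p ∧ (l = [] ∨ l.toFinset ∈ Y.faces)}

/-- `G` acts on a simplicial complex `Y` with amenable vertex stabilisers, every simplex with at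
most `r` vertices has infinite pointwise stabiliser, and the reduced homology of `Y` vanishes in
degrees `-1, ..., r - 2`. -/
def Thin (G : Type) [Group G] (r : ℕ) : Prop :=
  ∃ (Ω : Type) (_ : DecidableEq Ω) (_ : MulAction G Ω) (Y : AbstractSimplicialComplex Ω),
    (∀ g : G, ∀ σ ∈ Y.faces, σ.image (g • ·) ∈ Y.faces) ∧
    (∀ v : Ω, Folner (MulAction.stabilizer G v)) ∧
    (∀ σ ∈ Y.faces, σ.card ≤ r → {g : G | ∀ v ∈ σ, g • v = v}.Infinite) ∧
    ∀ p < r, ∀ z ∈ chains Y p, Finsupp.linearCombination ℤ bd z = 0 →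
      ∃ y ∈ chains Y (p + 1), Finsupp.linearCombination ℤ bd y = z

end Pool.Agent.Lib.MP_fd3021_gt
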