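import Pool.Agent.Lib.MP_fd3021_gt.WA

namespace Pool.Agent.Lib.MP_fd3021_gt.OldFibred

open Pool.Agent.Lib.MP_fd3021_gt

/-- Let `G` be residually finite, `φ : G → ℤ` onto with kernel `K`, `B` a finite free complex over
`ℤ K` (the fibre) and `A` a chain self-map of `ℤ G ⊗ B` whose entries are supported where `φ = 1`
(the monodromy).  If the L2-Betti numbers of `B` vanish outside degree `m`, then the mapping cone
of `1 - A` (the cellular complex of the universal cover of the mapping torus) is det-L2-acyclic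
and `(-1) ^ m` times its L2-torsion is nonnegative. -/
theorem result (G : Type) [Group G] [Group.ResiduallyFinite G] (φ : G →* Multiplicative ℤ)
    (hφ : Function.Surjective φ) (J : Type) [Fintype J] [DecidableEq J] (deg : J → ℤ)
    (b : Matrix J J (MonoidAlgebra ℤ φ.ker)) (A : Matrix J J (MonoidAlgebra ℤ G)) (m : ℕ)
    (h0 : ∀ i, 0 ≤ deg i) (hb : ∀ i j, b i j ≠ 0 → deg i = deg j + 1) (hbb : b * b = 0)
    (hA : ∀ i j, A i j ≠ 0 → deg i = deg j) (hAb : A * ext b = ext b * A)
    (hA1 : ∀ i j, ∀ g ∈ (A i j).coeff.support, φ g = Multiplicative.ofAdd 1)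
    (hm : ∀ p : ℤ, p ≠ m → spec (lap deg b p) {0} = 0) :
    DetAcyclic (Sum.elim deg fun j => deg j + 1) (cone (ext b) A) ∧
      0 ≤ (-1 : ℝ) ^ m * rho (Sum.elim deg fun j => deg j + 1) (cone (ext b) A) := by
  have := fibred φ hφ b hA1 h0 hb hA hbb hAb m hm
  rwa [zpow_natCast] at this

end Pool.Agent.Lib.MP_fd3021_gt.OldFibred
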