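import Pool.Agent.Lib.MP_fd3021_gt.AA

namespace Pool.Agent.Lib.MP_fd3021_gt.OldStableVolume

open Pool.Agent.Lib.MP_fd3021_gt

/-- The former hand-in `StableVolume`, now the case `Ω = G` of `AmenableVolume`. -/
theorem result (G : Type) [Group G] [Group.ResiduallyFinite G] (I : Type) [Fintype I]
    [DecidableEq I] (deg : I → ℤ) (c : Matrix I I (MonoidAlgebra ℤ G)) (n : ℕ) (hn : 1 ≤ n)
    (h : IsRes deg c) (h' : IsRes (fun i => n - deg i) (adj c)) (hS : SmallCycles G n) :
    DetAcyclic deg c ∧ rho deg c = 0 :=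
  am_vanishing n hn h h' hS.amSmall

end Pool.Agent.Lib.MP_fd3021_gt.OldStableVolume
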