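import Pool.Agent.Lib.MP_fd3021_gt.LC

namespace Pool.Agent.Lib.MP_fd3021_gt.OldVanishing

open Pool.Agent.Lib.MP_fd3021_gt

/-- Let `G` be residually finite and `C` a finite free resolution over `ℤ G` of length `2 m + 1`
whose dual is again a resolution.  If `G` is `(m + 1)`-thin, then `C` is det-L2-acyclic with
vanishing L2-torsion. -/
theorem result (G : Type) [Group G] [Group.ResiduallyFinite G] (I : Type) [Fintype I]
    [DecidableEq I] (deg : I → ℤ) (c : Matrix I I (MonoidAlgebra ℤ G)) (m : ℕ)
    (h : IsRes deg c) (h' : IsRes (fun i => 2 * m + 1 - deg i) (adj c)) (hT : Thin G (m + 1)) :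
    DetAcyclic deg c ∧ rho deg c = 0 :=
  vanishing m h h' hT

end Pool.Agent.Lib.MP_fd3021_gt.OldVanishing
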