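import Pool.Agent.Lib.MP_fd3021_gt.XCore

/-! Labelled fillings below the middle degree from a truncated mapping cone. -/

namespace Pool.Agent.Lib.MP_fd3021_gt

open Matrix Filter MeasureTheory Topology

section Transfer

variable {n0 n1 n2 u0 u1 u2 : Type} [Fintype n0] [Fintype n1] [Fintype n2] [Fintype u0]
  [Fintype u1] [Fintype u2] [DecidableEq n1] {Dm : Matrix n0 n1 ℤ} {D : Matrix n1 n2 ℤ}
  {Ym : Matrix u0 u1 ℤ} {Y : Matrix u1 u2 ℤ} {f0 : Matrix u0 n0 ℤ} {f1 : Matrix u1 n1 ℤ}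
  {g1 : Matrix n1 u1 ℤ} {g2 : Matrix n2 u2 ℤ} {s : Matrix n2 n1 ℤ} {sm : Matrix n1 n0 ℤ}

omit [Fintype u0] in
theorem Lab.transfer {C δ Γ κ d M : ℝ} (h : Lab Ym Y C δ Γ κ d) (hf : Ym * f1 = f0 * Dm)
    (hg : D * g2 = g1 * Y) (hs : g1 * f1 + D * s + sm * Dm = 1) (r1 : RC f1 M) (r2 : RC g2 M)
    (r3 : RC s M) (hM : 1 ≤ M) (hΓ : 1 ≤ Γ) (hC : 0 ≤ C * d) :
    Lab Dm D C δ (2 * M ^ 2 * Γ) κ d := by
  classical
  obtain ⟨k, κ1, κ2, i1, i2, i3, T1, T2, a1, a2, a3, a4, a5, a6⟩ := h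
  have m1 : 1 ≤ M ^ 2 := one_le_pow₀ hM
  have m2 : 1 ≤ Γ ^ 2 := one_le_pow₀ hΓ
  have m3 : (2 * M ^ 2 * Γ) ^ 2 = 4 * (M ^ 2 * M ^ 2 * Γ ^ 2) := by ring
  have hM0 : 0 < M := by linarith
  refine ⟨k, κ1, κ2, i1, i2, i3, T1, M • T2, a1, a2, a3, a4, fun t => ?_, fun F hF => ?_⟩
  · rw [smul_mulVec, wcons_smul, m3]
    have := a5 t
    have := nsq_nonneg t
    have : 0 ≤ Γ ^ 2 * nsq t := by positivity
    nlinarith [mul_nonneg (sub_nonneg.2 m1) this]
  obtain ⟨e, ρ, y, t1, t2, h⟩ := a6 (F.image fun x => f1 *ᵥ x) fun z hz => by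
    obtain ⟨x, hx, rfl⟩ := Finset.mem_image.1 hz
    rw [mulVec_mulVec, hf, ← mulVec_mulVec, hF x hx, mulVec_zero]
  refine ⟨fun x => e (f1 *ᵥ x), fun ε => g1 *ᵥ ρ ε, fun x => g2 *ᵥ y (f1 *ᵥ x) + s *ᵥ x, t1,
    fun ε => M⁻¹ • t2 ε, fun x hx => ?_⟩
  obtain ⟨c1, c2, c3, c4, c5⟩ := h _ (Finset.mem_image_of_mem _ hx)
  have b1 : nsq (cv (f1 *ᵥ x)) ≤ M ^ 2 * nsq (cv x) := by
    rw [cv_mulVec]
    exact r1.nsq_le _
  have hX := nsq_nonneg (cv x)
  refine ⟨?_, c2, ?_, ?_, ?_⟩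
  · rw [smul_mulVec, mulVec_smul, smul_smul, mul_inv_cancel₀ hM0.ne', one_smul]
    exact c1
  · rw [wcons_smul, inv_pow, inv_mul_le_iff₀ (by positivity)]
    nlinarith [mul_nonneg (sub_nonneg.2 m1) hC]
  · have := congrArg (· *ᵥ x) hs
    simp only [add_mulVec, ← mulVec_mulVec, hF x hx, mulVec_zero, add_zero, one_mulVec] at this
    rw [mulVec_add, mulVec_mulVec, hg, ← mulVec_mulVec, c4, mulVec_sub]
    linear_combination this
  · have b2 := nsq_add_le (cm g2 *ᵥ cv (y (f1 *ᵥ x))) (cm s *ᵥ cv x) one_pos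
    have b3 := r2.nsq_le (cv (y (f1 *ᵥ x)))
    have b4 := r3.nsq_le (cv x)
    rw [cv_add, cv_mulVec, cv_mulVec, m3]
    have b5 : nsq (cv (y (f1 *ᵥ x))) ≤ Γ ^ 2 * (M ^ 2 * (nsq (cv x) + C * d)) :=
      c5.trans (mul_le_mul_of_nonneg_left (by nlinarith [mul_nonneg (sub_nonneg.2 m1) hC])
        (sq_nonneg _))
    have b6 := mul_le_mul_of_nonneg_left b5 (sq_nonneg M)
    have b7 : M ^ 2 * nsq (cv x) ≤ M ^ 2 * (Γ ^ 2 * (M ^ 2 * (nsq (cv x) + C * d))) := by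
      refine mul_le_mul_of_nonneg_left ?_ (sq_nonneg M)
      refine le_trans ?_ (le_mul_of_one_le_left (by positivity) m2)
      exact le_trans (by linarith) (le_mul_of_one_le_left (by positivity) m1)
    norm_num at b2
    nlinarith

theorem Cheap.transfer [DecidableEq u1] {C δ M d : ℝ} (h : Cheap Ym Y C δ M d)
    (hf : Ym * f1 = f0 * Dm) (hg : D * g2 = g1 * Y) (hs : g1 * f1 + D * s + sm * Dm = 1) :
    ∃ M', Cheap Dm D M' δ M' d := by
  obtain ⟨κ, _, f, g, s', sm', a1, a2, -⟩ := h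
  obtain ⟨M1, h1, r1⟩ := walg_RC_ex (f * f1)
  obtain ⟨M2, h2, r2⟩ := walg_RC_ex (g1 * g)
  obtain ⟨M3, h3, r3⟩ := walg_RC_ex (g2 * s' * f1 + s)
  refine ⟨M1 + M2 + M3, κ, inferInstance, _, _, _, g1 * sm' * f0 + sm, ?_, a2,
    (r1.mono (by linarith)).2, r1.mono (by linarith), r2.mono (by linarith),
    r3.mono (by linarith)⟩
  have e1 : g1 * f1 = g1 * (g * f + Y * s' + sm' * Ym) * f1 := by rw [a1, Matrix.mul_one]
  rw [← hs, e1]
  simp only [Matrix.mul_add, Matrix.add_mul, Matrix.mul_assoc, hf]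
  rw [← Matrix.mul_assoc D, hg, Matrix.mul_assoc]
  abel

end Transfer

section Block

variable {G I J K : Type} [Group G]

/-- a block of the matrix of `F` in a finite cover, acting on columns -/
noncomputable def BQ (d1 : I → ℤ) (d2 : J → ℤ) (F : Matrix I J (MonoidAlgebra ℤ G))
    (N : FiniteIndexNormalSubgroup G) (p q : ℤ) :
    Matrix ({j // d2 j = q} × QQ N) ({i // d1 i = p} × QQ N) ℤ :=
  fun x y => rep N F (y.1.1, y.2) (x.1.1, x.2)

variable {d1 : I → ℤ} {d2 : J → ℤ} {d3 : K → ℤ}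

theorem BQ_mul [Fintype J] (F : Matrix I J (MonoidAlgebra ℤ G))
    (F' : Matrix J K (MonoidAlgebra ℤ G)) (N : FiniteIndexNormalSubgroup G) (p q r : ℤ)
    (h : ∀ i j, F i j ≠ 0 → d1 i = p → d2 j = q) :
    BQ d1 d3 (F * F') N p r = BQ d2 d3 F' N q r * BQ d1 d2 F N p q := by
  ext x z
  have h1 := congrFun (congrFun (rep_mul N F F') (z.1.1, z.2)) (x.1.1, x.2)
  rw [Matrix.mul_apply, ← lrep_block (deg := d2) q] at h1
  · rw [Matrix.mul_apply]
    exact h1.trans (Finset.sum_congr rfl fun y _ => mul_comm _ _)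
  · intro y hy
    exact h _ _ (rep_ne_zero N F (left_ne_zero_of_mul hy)) z.1.2

theorem BQ_congr {F F' : Matrix I J (MonoidAlgebra ℤ G)} (N : FiniteIndexNormalSubgroup G)
    (p q : ℤ) (h : ∀ i j, d1 i = p → F i j = F' i j) :
    BQ d1 d2 F N p q = BQ d1 d2 F' N p q := by
  ext x y
  simp only [BQ, rep]
  rw [h _ _ y.1.2]

theorem BQ_add (F F' : Matrix I J (MonoidAlgebra ℤ G)) (N : FiniteIndexNormalSubgroup G)
    (p q : ℤ) : BQ d1 d2 (F + F') N p q = BQ d1 d2 F N p q + BQ d1 d2 F' N p q := by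
  ext x y
  simp only [BQ, rep_add, Matrix.add_apply]

theorem BQ_one [DecidableEq I] (N : FiniteIndexNormalSubgroup G) (p : ℤ) :
    BQ d1 d1 (1 : Matrix I I (MonoidAlgebra ℤ G)) N p p = 1 := by
  ext x y
  simp only [BQ, rep_one, one_apply, Prod.ext_iff, Subtype.ext_iff, eq_comm]

theorem BQ_RC [Fintype I] [Fintype J] {F : Matrix I J (MonoidAlgebra ℤ G)} {C : ℝ}
    {N : FiniteIndexNormalSubgroup G} (h : RC (rep N F) C) (p q : ℤ) :
    RC (BQ d1 d2 F N p q) C :=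
  h.transpose.submatrix (e := fun y : {j // d2 j = q} × QQ N => (y.1.1, y.2))
    (e' := fun y : {i // d1 i = p} × QQ N => (y.1.1, y.2))
    (Subtype.val_injective.prodMap Function.injective_id)
    (Subtype.val_injective.prodMap Function.injective_id)

variable [Fintype I] [Fintype J] [DecidableEq I] {m : ℤ} {c s : Matrix I I (MonoidAlgebra ℤ G)}
  {y : Matrix J J (MonoidAlgebra ℤ G)} {f : Matrix I J (MonoidAlgebra ℤ G)}
  {g : Matrix J I (MonoidAlgebra ℤ G)}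

/-- comparison maps below degree `m` -/
structure Comp (m : ℤ) (d1 : I → ℤ) (d2 : J → ℤ) (c s : Matrix I I (MonoidAlgebra ℤ G))
    (y : Matrix J J (MonoidAlgebra ℤ G)) (f : Matrix I J (MonoidAlgebra ℤ G))
    (g : Matrix J I (MonoidAlgebra ℤ G)) : Prop where
  hc : ∀ i j, c i j ≠ 0 → d1 i = d1 j + 1
  hy : ∀ i j, y i j ≠ 0 → d2 i = d2 j + 1
  hf : ∀ i j, f i j ≠ 0 → d1 i = d2 j
  hg : ∀ i j, g i j ≠ 0 → d2 i = d1 j
  hs : ∀ i j, s i j ≠ 0 → d1 i + 1 = d1 j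
  cf : ∀ i j, d1 i < m → (c * f) i j = (f * y) i j
  cg : ∀ i j, d2 i ≤ m → (y * g) i j = (g * c) i j
  cs : ∀ i j, d1 i < m → (f * g + s * c + c * s) i j = (1 : Matrix I I _) i j

theorem Comp.block (h : Comp m d1 d2 c s y f g) (N : FiniteIndexNormalSubgroup G) {p : ℤ}
    (hp : p + 1 < m) :
    DQ d2 y N p * BQ d1 d2 f N (p + 1) (p + 1) = BQ d1 d2 f N p p * DQ d1 c N p ∧
    DQ d1 c N (p + 1) * BQ d2 d1 g N (p + 1 + 1) (p + 1 + 1) =
      BQ d2 d1 g N (p + 1) (p + 1) * DQ d2 y N (p + 1) ∧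
    BQ d2 d1 g N (p + 1) (p + 1) * BQ d1 d2 f N (p + 1) (p + 1) +
      DQ d1 c N (p + 1) * BQ d1 d1 s N (p + 1) (p + 1 + 1) +
      BQ d1 d1 s N p (p + 1) * DQ d1 c N p = 1 := by
  refine ⟨?_, ?_, ?_⟩
  · refine (BQ_mul f y N (p + 1) (p + 1) p fun i j a b => by have := h.hf i j a; omega).symm.trans
      ((BQ_congr N _ _ fun i j a => (h.cf i j (by omega)).symm).trans
        (BQ_mul c f N (p + 1) p p fun i j a b => by have := h.hc i j a; omega))
  · refine (BQ_mul g c N (p + 1 + 1) (p + 1 + 1) (p + 1) fun i j a b => by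
      have := h.hg i j a; omega).symm.trans
      ((BQ_congr N _ _ fun i j a => (h.cg i j (by omega)).symm).trans
        (BQ_mul y g N (p + 1 + 1) (p + 1) (p + 1) fun i j a b => by have := h.hy i j a; omega))
  · rw [← BQ_one (d1 := d1) N (p + 1), ← BQ_congr N _ _ fun i j a => h.cs i j (by omega), BQ_add,
      BQ_add, BQ_mul (d2 := d2) f g N (p + 1) (p + 1) (p + 1) fun i j a b => by
        have := h.hf i j a; omega,
      BQ_mul (d2 := d1) s c N (p + 1) (p + 1 + 1) (p + 1) fun i j a b => by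
        have := h.hs i j a; omega,
      BQ_mul (d2 := d1) c s N (p + 1) p (p + 1) fun i j a b => by have := h.hc i j a; omega]
    rfl

theorem Comp.evLab (h : Comp m d1 d2 c s y f g) (hy : EvLab d2 y m) : EvLab d1 c m := by
  obtain ⟨C, hC, hy⟩ := hy
  obtain ⟨C₁, h₁, r₁⟩ := rep_RC f
  obtain ⟨C₂, h₂, r₂⟩ := rep_RC g
  obtain ⟨C₃, h₃, r₃⟩ := rep_RC s
  have hM0 : 1 ≤ C₁ + C₂ + C₃ := by linarith
  refine ⟨C, hC, fun δ hδ hδ1 => ?_⟩
  obtain ⟨M, hM, hy⟩ := hy δ hδ hδ1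
  refine ⟨2 * (C₁ + C₂ + C₃) ^ 2 * M, by nlinarith [one_le_pow₀ (n := 2) hM0], fun ζ hζ => ?_⟩
  filter_upwards [hy ζ hζ, Ioc_mem_nhdsGT (zero_lt_one' ℝ)] with η hη hη1
  refine hη.mono fun N hN p a b e => ?_
  obtain ⟨κ, k1, k2⟩ := hN p a b e
  obtain ⟨b1, b2, b3⟩ := h.block N b
  refine ⟨κ, k1, ?_⟩
  rw [mul_div_assoc]
  exact k2.transfer b1 b2 b3 ((BQ_RC (r₁ N) _ _).mono (by linarith))
    ((BQ_RC (r₂ N) _ _).mono (by linarith)) ((BQ_RC (r₃ N) _ _).mono (by linarith)) hM0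
    ((one_le_div (pow_pos hη1.1 2)).2 ((pow_le_one₀ hη1.1.le hη1.2).trans hM))
    (mul_nonneg hC (dg_pos N).le)

end Block

variable {G J : Type} [Group G] [Fintype J] [DecidableEq J] {deg : J → ℤ}
  {b A : Matrix J J (MonoidAlgebra ℤ G)}

theorem exists_push' (φ : G →* Multiplicative ℤ) (hφ : Function.Surjective φ)
    (hb0 : ∀ i j, ∀ g ∈ (b i j).coeff.support, φ g = 1)
    (hA1 : ∀ i j, ∀ g ∈ (A i j).coeff.support, φ g = Multiplicative.ofAdd 1)
    {δ : ℝ} (hδ : 0 < δ) :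
    ∃ M : ℝ, 1 ≤ M ∧ ∀ᶠ N : FiniteIndexNormalSubgroup G in atBot,
      ∃ (L : QQ N → Prop) (_ : DecidablePred L)
        (s : ∀ p : ℤ, Matrix ({i // deg i = p} × QQ N) ({i // deg i = p} × QQ N) ℤ), ∀ p,
        Push (PhiQ deg A N p) (s p) (fun x => L x.2) ∧ RC (s p) M ∧
        (DQ deg b N p * PhiQ deg A N (p + 1) = PhiQ deg A N p * DQ deg b N p →
          DQ deg b N p * s (p + 1) = s p * DQ deg b N p) ∧
        (∀ x y, DQ deg b N p x y ≠ 0 → (L x.2 ↔ L y.2)) ∧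
        (Fintype.card {x : {i // deg i = p} × QQ N // L x.2} : ℝ) ≤ δ * dg N := by
  classical
  obtain ⟨C, hC, hRC⟩ := PhiQ_RC deg A
  obtain ⟨k0, hk0⟩ := exists_nat_ge ((Fintype.card J : ℝ) / δ)
  set k := k0 + 1 with hk
  have : NeZero k := ⟨by omega⟩
  have hkJ : (Fintype.card J : ℝ) ≤ δ * k := by
    rw [div_le_iff₀ hδ] at hk0
    have : (k0 : ℝ) ≤ k := by rw [hk]; push_cast; linarith
    nlinarith
  let ψ : G →* Multiplicative (ZMod k) :=
    (AddMonoidHom.toMultiplicative (Int.castAddHom (ZMod k))).comp φ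
  have hψ : ∀ g, ψ g = Multiplicative.ofAdd (((φ g).toAdd : ℤ) : ZMod k) := fun g => rfl
  have hψs : Function.Surjective ψ := by
    intro t
    obtain ⟨z, hz⟩ := ZMod.intCast_surjective t.toAdd
    obtain ⟨g, hg⟩ := hφ (Multiplicative.ofAdd z)
    refine ⟨g, ?_⟩
    rw [hψ, hg, toAdd_ofAdd, hz, ofAdd_toAdd]
  have hS : 0 ≤ ∑ i ∈ Finset.range k, (1 + C) ^ i :=
    Finset.sum_nonneg fun i _ => pow_nonneg (by linarith) _
  refine ⟨1 + ∑ i ∈ Finset.range k, (1 + C) ^ i, by linarith, ?_⟩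
  filter_upwards [eventually_le_atBot (FiniteIndexNormalSubgroup.ofSubgroup ψ.ker)] with N hN
  let lev : QQ N →* Multiplicative (ZMod k) :=
    QuotientGroup.lift N.toSubgroup ψ fun g hg => hN hg
  have hlev : ∀ g, lev (mkQ N g) = ψ g := fun g => rfl
  let R : ∀ p : ℤ, Matrix ({i // deg i = p} × QQ N) ({i // deg i = p} × QQ N) ℤ := fun p =>
    diagonal fun x => if (lev x.2).toAdd = 0 then (0 : ℤ) else 1
  let B : ∀ p : ℤ, Matrix ({i // deg i = p} × QQ N) ({i // deg i = p} × QQ N) ℤ := fun p =>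
    1 - PhiQ deg A N p
  have hD : ∀ p x y, DQ deg b N p x y ≠ 0 → lev x.2 = lev y.2 := by
    intro p x y h
    have := wlev_lev N lev b 1 (fun i j g hg => by rw [hlev, hψ, hb0 i j g hg]; simp)
      (x := (y.1.1, y.2)) (y := (x.1.1, x.2)) h
    simpa using this
  have hB : ∀ p x y, B p x y ≠ 0 → (lev x.2).toAdd = (lev y.2).toAdd + 1 := by
    intro p x y h
    have h' : rep N A (y.1.1, y.2) (x.1.1, x.2) ≠ 0 := by
      rw [← wlev_B deg A N p x y]
      exact h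
    have := wlev_lev N lev A (Multiplicative.ofAdd 1)
      (fun i j g hg => by rw [hlev, hψ, hA1 i j g hg]; simp) h'
    rw [this]
    rfl
  have hRR : ∀ p, R p * R p = R p := by
    intro p
    simp only [R]
    rw [diagonal_mul_diagonal]
    congr 1
    funext x
    split_ifs <;> simp
  refine ⟨fun q => (lev q).toAdd = 0, inferInstance,
    fun p => (∑ i ∈ Finset.range k, (R p * B p) ^ i) * R p, fun p => ⟨?_, ?_, ?_, ?_, ?_⟩⟩
  · have hnil := wlev_nil (fun x : {i // deg i = p} × QQ N => (lev x.2).toAdd) (B p) (hB p)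
    obtain ⟨h1, h2⟩ := push_ring (B p) (R p) k (hRR p) hnil
    have e : 1 - B p = PhiQ deg A N p := sub_sub_cancel _ _
    rw [e] at h1 h2
    constructor
    · intro a c ha
      have := congrFun (congrFun h1 a) c
      simp only [R] at this
      rw [diagonal_mul, if_neg ha, one_mul] at this
      exact this
    · intro a c ha
      have := congrFun (congrFun h2 a) c
      simp only [R] at this
      rw [mul_diagonal, if_neg ha, mul_one] at this
      exact this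
  · have hR1 : RC (R p) 1 := wlev_RC_diag _
    have hB1 : RC (B p) (1 + C) := RC.one.sub (hRC N p)
    have h1 : RC (R p * B p) (1 + C) := by
      simpa using hR1.mul hB1 zero_le_one (by linarith)
    have h2 := (wlev_RC_sum (by linarith) h1 k).mul hR1 hS zero_le_one
    exact h2.mono (by linarith)
  · intro hcm
    have c1 : DQ deg b N p * R (p + 1) = R p * DQ deg b N p := by
      ext x y
      simp only [R]
      rw [mul_diagonal, diagonal_mul, mul_comm]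
      by_cases h : DQ deg b N p x y = 0
      · rw [h, mul_zero, mul_zero]
      · rw [hD p x y h]
    have c2 : DQ deg b N p * B (p + 1) = B p * DQ deg b N p := by
      simp only [B]
      rw [Matrix.mul_sub, Matrix.sub_mul, Matrix.mul_one, Matrix.one_mul, hcm]
    have c3 : DQ deg b N p * (R (p + 1) * B (p + 1)) = (R p * B p) * DQ deg b N p := by
      rw [← Matrix.mul_assoc, c1, Matrix.mul_assoc, c2, Matrix.mul_assoc]
    have c4 : DQ deg b N p * (∑ i ∈ Finset.range k, (R (p + 1) * B (p + 1)) ^ i) =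
        (∑ i ∈ Finset.range k, (R p * B p) ^ i) * DQ deg b N p := by
      rw [Matrix.mul_sum, Matrix.sum_mul]
      exact Finset.sum_congr rfl fun i _ => wlev_comm _ _ _ c3 i
    rw [← Matrix.mul_assoc, c4, Matrix.mul_assoc, c1, Matrix.mul_assoc]
  · intro x y h
    beta_reduce
    rw [hD p x y h]
  · have hs : Function.Surjective lev := by
      intro t
      obtain ⟨g, hg⟩ := hψs t
      exact ⟨mkQ N g, hg⟩
    have h1 := Subgroup.card_mul_index lev.ker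
    rw [Subgroup.index_ker, MonoidHom.range_eq_top.2 hs, Subgroup.card_top] at h1
    have h2 : Nat.card (Multiplicative (ZMod k)) = k := by
      rw [Nat.card_congr Multiplicative.toAdd, Nat.card_zmod]
    rw [h2] at h1
    have h3 : Fintype.card {x : {i // deg i = p} × QQ N // (lev x.2).toAdd = 0} ≤
        Fintype.card J * Nat.card lev.ker := by
      rw [Nat.card_eq_fintype_card, ← Fintype.card_prod]
      refine Fintype.card_le_of_injective
        (fun x => (x.1.1.1, ⟨x.1.2, MonoidHom.mem_ker.2 (toAdd_eq_zero.1 x.2)⟩)) ?_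
      intro x y hxy
      rw [Prod.mk.injEq, Subtype.mk.injEq] at hxy
      exact Subtype.ext (Prod.ext (Subtype.ext hxy.1) hxy.2)
    have h4 : dg N = (Nat.card lev.ker : ℝ) * k := by
      unfold dg
      rw [← Nat.card_eq_fintype_card, ← h1]
      push_cast
      rfl
    have h5 : (0 : ℝ) ≤ Nat.card lev.ker := Nat.cast_nonneg _
    calc (Fintype.card {x : {i // deg i = p} × QQ N // (lev x.2).toAdd = 0} : ℝ)
        ≤ Fintype.card J * Nat.card lev.ker := by exact_mod_cast h3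
      _ ≤ δ * k * Nat.card lev.ker := mul_le_mul_of_nonneg_right hkJ h5
      _ = δ * dg N := by rw [h4]; ring

theorem DQ_PhiQ' {m : ℤ} (hb : ∀ i j, b i j ≠ 0 → deg i = deg j + 1)
    (hA : ∀ i j, A i j ≠ 0 → deg i = deg j) (hAb : ∀ i j, deg i < m → (A * b) i j = (b * A) i j)
    (N : FiniteIndexNormalSubgroup G) {p : ℤ} (hp : p + 1 < m) :
    DQ deg b N p * PhiQ deg A N (p + 1) = PhiQ deg A N p * DQ deg b N p := by
  refine (BQ_mul (1 - A) b N (p + 1) (p + 1) p fun i j a e => ?_).symm.trans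
    ((BQ_congr N _ _ fun i j a => ?_).trans
      (BQ_mul b (1 - A) N (p + 1) p p fun i j a e => by have := hb i j a; omega))
  · by_cases hij : i = j
    · rwa [← hij]
    · rw [← hA i j fun h => a (by simp [hij, h]), e]
  · rw [sub_mul, mul_sub, one_mul, mul_one, Matrix.sub_apply, Matrix.sub_apply,
      hAb i j (by omega)]

section Cone

variable (φ : G →* Multiplicative ℤ) (hφ : Function.Surjective φ)
  (hb0 : ∀ i j, ∀ g ∈ (b i j).coeff.support, φ g = 1)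
  (hA1 : ∀ i j, ∀ g ∈ (A i j).coeff.support, φ g = Multiplicative.ofAdd 1)
  (hb : ∀ i j, b i j ≠ 0 → deg i = deg j + 1) (hA : ∀ i j, A i j ≠ 0 → deg i = deg j) {m : ℤ}
  (hAb : ∀ i j, deg i < m → (A * b) i j = (b * A) i j)

include hφ hb0 hA1 hb hA hAb

theorem cone_cheap {δ : ℝ} (hδ : 0 < δ) : ∀ᶠ N : FiniteIndexNormalSubgroup G in atBot,
    ∀ p : ℤ, p + 1 < m → ∃ M, Cheap (DQ (degC deg) (cone b A) N p)
      (DQ (degC deg) (cone b A) N (p + 1)) M δ M (dg N) := by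
  obtain ⟨M, -, hM⟩ := exists_push' (deg := deg) φ hφ hb0 hA1 (half_pos hδ)
  refine hM.mono fun N hN p hp => ?_
  obtain ⟨p, rfl⟩ : ∃ p', p = p' + 1 := ⟨p - 1, by ring⟩
  obtain ⟨L, _, s, hs⟩ := hN
  obtain ⟨e, he⟩ := DQ_cone (deg := deg) (b := b) (A := A) N
  obtain ⟨M', h⟩ := cheap_cone (DQ deg b N p) (DQ deg b N (p + 1)) (DQ deg b N (p + 1 + 1))
    _ _ _ _ _ _ ((hs (p + 1)).2.2.1 (DQ_PhiQ' hb hA hAb N hp)) (hs (p + 1)).1 (hs (p + 1 + 1)).1
    (hs (p + 1)).2.2.2.2 (hs (p + 1 + 1)).2.2.2.2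
  have h' := h.reindex (e p) (e (p + 1)) (e (p + 1 + 1))
  rw [← he, ← he, show 2 * (δ / 2) = δ by ring] at h'
  exact ⟨M', h'⟩

theorem cone_evLab [Group.ResiduallyFinite G] (hbb : b * b = 0)
    (hm : ∀ p, p < m → Odd (m - p) → spec (lap deg b p) {0} = 0) :
    EvLab (degC deg) (cone b A) m := by
  have hg := cone_deg hb hA
  have hat : ∀ p, p < m → spec (lap (degC deg) (cone b A) p) {0} = 0 := fun p hp => by
    obtain ⟨p, rfl⟩ : ∃ p', p = p' + 1 := ⟨p - 1, by ring⟩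
    obtain ⟨K, hK⟩ := good_lap hg (p + 1)
    refine atom_zero hK hK.isSpec fun δ hδ => ?_
    refine (cone_cheap φ hφ hb0 hA1 hb hA hAb hδ).mono fun N hN => ?_
    obtain ⟨M, h⟩ := hN p hp
    rw [rep_lap hg]
    exact h.ker_le
  obtain ⟨C₁, hC₁, hR₁⟩ := rep_RC b
  obtain ⟨C₂, hC₂, hR₂⟩ := PhiQ_RC deg A
  obtain ⟨C, hC, a₁, a₂⟩ : ∃ C : ℝ, 1 ≤ C ∧ C₁ ≤ C ∧ C₂ ≤ C :=
    ⟨C₁ + C₂, by linarith, by linarith, by linarith⟩
  refine ⟨2 * C ^ 2, by positivity, fun δ hδ hδ1 => ?_⟩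
  obtain ⟨M, hM1, hM⟩ := exists_push' (deg := deg) φ hφ hb0 hA1 (half_pos hδ)
  have hM2 : 1 ≤ 2 * M * C ^ 2 := by nlinarith [one_le_pow₀ (n := 2) hC]
  refine ⟨25 * (2 * M * C ^ 2) ^ 4, by nlinarith [one_le_pow₀ (n := 4) hM2], fun ζ hζ => ?_⟩
  have e₁ : ∀ᶠ η : ℝ in 𝓝[>] 0, ∀ p ∈ Finset.Ico (0 : ℤ) m,
      ∀ᶠ N : FiniteIndexNormalSubgroup G in atBot,
      (cnt (cm (rep N (lap (degC deg) (cone b A) p))) η : ℝ) * (1 - Real.log η) ≤
        ζ / 2 * dg N ∧ (Odd (m - p) →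
      (cnt (cm (rep N (lap deg b p))) η : ℝ) * (1 - Real.log η) ≤ ζ / 2 * dg N) := by
    rw [eventually_all_finset]
    intro p hp'
    have hp' := (Finset.mem_Ico.1 hp').2
    obtain ⟨K, hK⟩ := good_lap hg p
    obtain ⟨K', hK'⟩ := good_lap hb p
    have t₁ := eta_main hK hK.isSpec (hat p hp') (half_pos hζ)
    by_cases hp : Odd (m - p)
    · exact (t₁.and (eta_main hK' hK'.isSpec (hm p hp' hp) (half_pos hζ))).mono fun η h =>
        (h.1.and h.2).mono fun N h => ⟨h.1.1, fun _ => h.2.1⟩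
    · exact t₁.mono fun η h => h.mono fun N h => ⟨h.1, fun c => absurd c hp⟩
  filter_upwards [e₁, Ioc_mem_nhdsGT (zero_lt_one' ℝ)] with η h₁ hη
  rw [← eventually_all_finset] at h₁
  filter_upwards [h₁, hM] with N k₁ hN p p0 pn pm
  obtain ⟨p, rfl⟩ : ∃ p', p = p' + 1 := ⟨p - 1, by ring⟩
  obtain ⟨L, _, s, hs⟩ := hN
  obtain ⟨e, he⟩ := DQ_cone (deg := deg) (b := b) (A := A) N
  have hd := (dg_pos N).le
  have hc := DQ_PhiQ' hb hA hAb N pn
  have h := data2_cone (DQ deg b N p) (DQ deg b N (p + 1)) (DQ deg b N (p + 1 + 1))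
    _ _ _ _ _ _ (fun x => L x.2) hc ((hs (p + 1)).2.2.1 hc) (hs (p + 1)).1
    (hs (p + 1 + 1)).1 (hs (p + 1)).2.2.2.1 (hs (p + 1 + 1)).2.2.2.1 hC hM1 (by linarith) hd
    (hs (p + 1)).2.2.2.2 (hs (p + 1 + 1)).2.2.2.2 (hs (p + 1 + 1 + 1)).2.2.2.2
    ((DQ_RC (hR₁ N) _).mono a₁) ((DQ_RC (hR₁ N) _).mono a₁) ((hR₂ N _).mono a₂)
    (hs (p + 1 + 1)).2.1
  have h' := h.reindex (e p) (e (p + 1)) (e (p + 1 + 1))
  rw [← he, ← he] at h'
  have h0 : DQ (degC deg) (cone b A) N (p + 1) * DQ (degC deg) (cone b A) N (p + 1 + 1) = 0 := by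
    rw [he, he, submatrix_mul_equiv, fromBlocks_multiply]
    simp [DQ_mul hb hbb N, hc]
  have h'' := h'.lab h0 (DQ_mul hb hbb N _) (one_le_pow₀ hC) (by linarith) hM2 hd hη.1 hη.2
  rw [show 2 * (δ / 2) = δ by ring, ← rep_lap hg, ← rep_lap hb] at h''
  obtain ⟨k₂, k₃⟩ := k₁ (p + 1 + 1) (Finset.mem_Ico.2 ⟨p0, pn⟩)
  exact ⟨_, by linarith [k₃ pm], h''⟩

end Cone

end Pool.Agent.Lib.MP_fd3021_gt
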