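import Pool.Agent.Lib.MP_fd3021_gt.XAlg
import Pool.Agent.Lib.MP_fd3021_gt.XLab

/-! The sign of the torsion for algebraic fibrations with a kernel of finite type below the
middle degree. -/

namespace Pool.Agent.Lib.MP_fd3021_gt

open Matrix Filter MeasureTheory Topology

variable {G I J : Type} [Group G] [Group.ResiduallyFinite G] [Fintype I] [DecidableEq I]
  [Fintype J] [DecidableEq J]

theorem half_data (φ : G →* Multiplicative ℤ) (hφ : Function.Surjective φ) {m : ℤ}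
    {deg : I → ℤ} {c : Matrix I I (MonoidAlgebra ℤ G)} {dj : J → ℤ}
    {b : Matrix J J (MonoidAlgebra ℤ φ.ker)} (hc : ResTo m deg c) (hb : ResTo (m - 1) dj b)
    (hm : ∀ p, p < m → Odd (m - p) → spec (lap dj b p) {0} = 0) :
    EvLab deg c m ∧ ∀ p, p < m → ∀ δ > 0, ∀ᶠ N : FiniteIndexNormalSubgroup G in atBot,
      trf (cm (rep N (lap deg c p))) ind0 ≤ δ * dg N := by
  obtain ⟨A, f, g, s, hA, hA1, hAb, h1, h2, h3, h4, h5, h6⟩ := exists_model φ hφ hc hb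
  have hb' : ∀ i j, ext b i j ≠ 0 → dj i = dj j + 1 := fun i j h => hb.2.1 i j (ext_ne_zero h)
  have hb0 : ∀ i j, ∀ g ∈ (ext b i j).coeff.support, φ g = 1 := fun i j g hg =>
    ext_support i j g hg
  have h : Comp m deg (degC dj) c s (cone (ext b) A) f g :=
    ⟨hc.2.1, cone_deg hb' hA, h1, h2, h3, h4, h5, h6⟩
  refine ⟨h.evLab (cone_evLab φ hφ hb0 hA1 hb' hA hAb (ext_sq hb.2.2.1) fun p hp hp' => ?_),
    fun p hp δ hδ => ?_⟩
  · obtain ⟨K, hK⟩ := good_lap hb' p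
    obtain ⟨K₀, hK₀⟩ := good_lap hb.2.1 p
    rw [spec_unique hK hK.isSpec (isSpec_ext hK₀.isSpec)]
    exact hm p hp hp'
  · obtain ⟨p, rfl⟩ : ∃ p', p = p' + 1 := ⟨p - 1, by ring⟩
    refine (cone_cheap φ hφ hb0 hA1 hb' hA hAb hδ).mono fun N hN => ?_
    obtain ⟨M, k⟩ := hN p hp
    obtain ⟨b1, b2, b3⟩ := h.block N hp
    obtain ⟨M', k'⟩ := k.transfer b1 b2 b3
    rw [rep_lap hc.2.1]
    exact k'.ker_le

theorem alg_fibred (φ : G →* Multiplicative ℤ) (hφ : Function.Surjective φ) (m : ℕ)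
    {deg : I → ℤ} {c : Matrix I I (MonoidAlgebra ℤ G)} {dj : J → ℤ}
    {b : Matrix J J (MonoidAlgebra ℤ φ.ker)} (hc : ResTo m deg c)
    (hc' : ResTo m (fun i => 2 * m + 1 - deg i) (adj c))
    (b0 : spec (lap deg c m) {0} = 0) (b1 : spec (lap deg c (m + 1)) {0} = 0)
    (hb : ResTo (m - 1) dj b) (hm : ∀ p : ℤ, p < m → Odd (m - p) → spec (lap dj b p) {0} = 0) :
    DetAcyclic deg c ∧ 0 ≤ (-1 : ℝ) ^ m * rho deg c := by
  have hg := hc.2.1
  obtain ⟨l1, k1⟩ := half_data φ hφ hc hb hm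
  obtain ⟨l2, k2⟩ := half_data φ hφ hc' hb hm
  have hat : ∀ p, spec (lap deg c p) {0} = 0 := fun p => by
    obtain ⟨K, hK⟩ := good_lap hg p
    by_cases h1 : p < m
    · exact atom_zero hK hK.isSpec (k1 p h1)
    by_cases h2 : p = m
    · rwa [h2]
    by_cases h3 : p = m + 1
    · rwa [h3]
    refine atom_zero hK hK.isSpec fun δ hδ => ?_
    refine (k2 (2 * m + 1 - p) (by omega) δ hδ).mono fun N hN => ?_
    rwa [trf_dual hg (p := p) (by ring)] at hN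
  exact ⟨detAcyclic_of hg hat, core3 m hc.1 hc'.1 hg hc.2.2.1 hc'.2.2.1 hat l1 l2⟩

end Pool.Agent.Lib.MP_fd3021_gt
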