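import Pool.Agent.Lib.MP_fd3021_gt.LDefs

/-! Small fundamental cycles in the homogeneous bar resolution. -/

namespace Pool.Agent.Lib.MP_fd3021_gt

variable {G : Type}

/-- Chains of the homogeneous bar resolution on tuples of length `p` (degree `p - 1`). -/
def lists (G : Type) (p : ℕ) : Submodule ℤ (List G →₀ ℤ) :=
  Finsupp.supported ℤ ℤ {l | l.length = p}

/-- The image of a chain in the coinvariants for the diagonal left action of `H`. -/
noncomputable def co [Group G] (H : Subgroup G) (z : List G →₀ ℤ) :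
    Quot (fun l l' : List G => ∃ h ∈ H, l' = l.map (h * ·)) →₀ ℤ :=
  z.mapDomain (Quot.mk _)

/-- The image of `z` in the `H`-coinvariants is an `n`-cycle whose class generates `H_n (H; ℤ)`. -/
def Generates [Group G] (H : Subgroup G) (n : ℕ) (z : List G →₀ ℤ) : Prop :=
  z ∈ lists G (n + 1) ∧ co H (Finsupp.linearCombination ℤ bd z) = 0 ∧
    ∀ z' ∈ lists G (n + 1), co H (Finsupp.linearCombination ℤ bd z') = 0 →
      ∃ k : ℤ, ∃ y ∈ lists G (n + 2), co H z' = co H (k • z + Finsupp.linearCombination ℤ bd y)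

/-- Arbitrarily deep normal subgroups `H` of finite index have a cycle generating `H_n (H; ℤ)`
supported on at most `ε [G : H]` simplices. -/
def SmallCycles (G : Type) [Group G] (n : ℕ) : Prop :=
  ∀ ε : ℝ, 0 < ε → ∀ N : Subgroup G, N.FiniteIndex → ∃ H ≤ N, H.Normal ∧ H.FiniteIndex ∧
    ∃ z, Generates H n z ∧ (z.support.card : ℝ) ≤ ε * H.index

end Pool.Agent.Lib.MP_fd3021_gt
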