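import Pool.Agent.Lib.MP_fd3021_gt.WDefs
import Pool.Agent.Lib.MP_fd3021_gt.LC

/-! Labelled fillings: a more flexible hypothesis for the inequality (II). -/

namespace Pool.Agent.Lib.MP_fd3021_gt

open Matrix

variable {n0 n1 n2 u0 u1 u2 : Type} [Fintype n0] [Fintype n1] [Fintype n2] [Fintype u0]
  [Fintype u1] [Fintype u2]

/-- cycles with the same label differ by a boundary of controlled size, and labels are few -/
def Lab (Dm : Matrix n0 n1 ℤ) (D : Matrix n1 n2 ℤ) (C δ Γ κ d : ℝ) : Prop :=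
  ∃ (k κ1 κ2 : Type) (_ : Fintype k) (_ : Fintype κ1) (_ : Fintype κ2) (T1 : Matrix k κ1 ℝ)
    (T2 : Matrix k κ2 ℝ), (Fintype.card k : ℝ) ≤ C * d ∧ (Fintype.card κ1 : ℝ) ≤ δ * d ∧
    (Fintype.card κ2 : ℝ) ≤ κ ∧ (∀ t, nsq (T1 *ᵥ t) ≤ nsq t) ∧
    (∀ t, nsq (T2 *ᵥ t) ≤ Γ ^ 2 * nsq t) ∧
    ∀ F : Finset (n1 → ℤ), (∀ x ∈ F, Dm *ᵥ x = 0) →
      ∃ (e : (n1 → ℤ) → k → ℤ) (ρ : (k → ℤ) → n1 → ℤ) (y : (n1 → ℤ) → n2 → ℤ)
        (t1 : (k → ℤ) → κ1 → ℝ) (t2 : (k → ℤ) → κ2 → ℝ), ∀ x ∈ F,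
        cv (e x) = T1 *ᵥ t1 (e x) + T2 *ᵥ t2 (e x) ∧ nsq (t1 (e x)) ≤ C * d ∧
        nsq (t2 (e x)) ≤ nsq (cv x) + C * d ∧ D *ᵥ y x = x - ρ (e x) ∧
        nsq (cv (y x)) ≤ Γ ^ 2 * (nsq (cv x) + C * d)

/-- two step data: after a first reduction the cycle becomes a cycle of the complex `Fm, Fd` -/
def Data2 (Dm : Matrix n0 n1 ℤ) (D : Matrix n1 n2 ℤ) (Fm : Matrix u0 u1 ℤ) (Fd : Matrix u1 u2 ℤ)
    (C δ M d : ℝ) : Prop :=
  ∃ (k1 k2 l1 l2 : Type) (_ : Fintype k1) (_ : Fintype k2) (_ : Fintype l1) (_ : Fintype l2)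
    (f : Matrix k1 n1 ℤ) (D' : Matrix k1 k2 ℤ) (f' : Matrix k2 n2 ℤ) (s : Matrix n2 n1 ℤ)
    (g' : Matrix n2 k2 ℤ) (h : Matrix u1 n1 ℤ) (h' : Matrix u1 k2 ℤ) (j : Matrix n1 l1 ℤ)
    (e : Matrix l1 u1 ℤ) (E' : Matrix l1 l2 ℤ) (e' : Matrix l2 u2 ℤ) (j' : Matrix n2 l2 ℤ),
    f * D = D' * f' ∧ e * Fd = E' * e' ∧ j * E' = D * j' ∧
    (∀ x w, Dm *ᵥ x = 0 → f *ᵥ x = D' *ᵥ w → Fm *ᵥ (h *ᵥ x + h' *ᵥ w) = 0 ∧
      x = D *ᵥ (s *ᵥ x + g' *ᵥ w) + j *ᵥ (e *ᵥ (h *ᵥ x + h' *ᵥ w))) ∧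
    (Fintype.card k1 : ℝ) ≤ δ * d ∧ (Fintype.card k2 : ℝ) ≤ δ * d ∧
    (Fintype.card l1 : ℝ) ≤ δ * d ∧ (Fintype.card l2 : ℝ) ≤ δ * d ∧
    frob (cm D') ≤ C * d ∧ frob (cm E') ≤ C * d ∧
    RC f M ∧ RC f' M ∧ RC s M ∧ RC g' M ∧ RC h M ∧ RC h' M ∧ RC e M ∧ RC e' M ∧ RC j' M

/-- `s` pushes chains along `φ = 1 - A` to the cells satisfying `L` -/
structure Push [DecidableEq u1] (φ s : Matrix u1 u1 ℤ) (L : u1 → Prop) : Prop where
  row : ∀ a b, ¬L a → (1 - φ * s : Matrix u1 u1 ℤ) a b = 0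
  col : ∀ a b, ¬L b → (1 - s * φ : Matrix u1 u1 ℤ) a b = 0

section Grp

variable {G J : Type} [Group G]

/-- degrees of the mapping cone -/
def degC (deg : J → ℤ) : J ⊕ J → ℤ := Sum.elim deg fun j => deg j + 1

/-- the matrix of `1 - A` in degree `p` of the finite cover, acting on columns -/
noncomputable def PhiQ [DecidableEq J] (deg : J → ℤ) (A : Matrix J J (MonoidAlgebra ℤ G))
    (N : FiniteIndexNormalSubgroup G) (p : ℤ) :
    Matrix ({i // deg i = p} × QQ N) ({i // deg i = p} × QQ N) ℤ :=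
  fun x y => rep N (1 - A) (y.1.1, y.2) (x.1.1, x.2)

end Grp

end Pool.Agent.Lib.MP_fd3021_gt

/-! The inequality (II) for labelled fillings, explicit constants. -/

namespace Pool.Agent.Lib.MP_fd3021_gt

open Matrix

variable {n0 n1 n2 n3 k κ1 κ2 : Type} [Fintype n0] [Fintype n1] [Fintype n2] [Fintype n3]
  [Fintype k] [Fintype κ1] [Fintype κ2] [DecidableEq n1] [DecidableEq n2] [DecidableEq n3]

theorem upper2_explicit (Dm : Matrix n0 n1 ℤ) (D : Matrix n1 n2 ℤ) (Dp : Matrix n2 n3 ℤ)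
    (T1 : Matrix k κ1 ℝ) (T2 : Matrix k κ2 ℝ) {Γ Z η a κ β γ1 γ2 γ3 K : ℝ}
    (h0 : 0 < η) (ha : 0 < a) (hκ : 0 < κ) (hβ : 0 < β) (hγ1 : 0 < γ1)
    (hγ2 : 0 < γ2) (hγ3 : 0 < γ3) (hK : 1 ≤ K)
    (hpay : a / (1 + κ) + 4 * γ2 + 4 * Γ ^ 2 * γ3 ≤ a)
    (hDD : D * Dp = 0) (hD : ∀ y, nsq (cm D *ᵥ y) ≤ K * nsq y)
    (hT1 : ∀ t, nsq (T1 *ᵥ t) ≤ nsq t) (hT2 : ∀ t, nsq (T2 *ᵥ t) ≤ Γ ^ 2 * nsq t)
    (hL : ∀ F : Finset (n1 → ℤ), (∀ x ∈ F, Dm *ᵥ x = 0) →
      ∃ (e : (n1 → ℤ) → k → ℤ) (ρ : (k → ℤ) → n1 → ℤ) (y : (n1 → ℤ) → n2 → ℤ)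
        (t1 : (k → ℤ) → κ1 → ℝ) (t2 : (k → ℤ) → κ2 → ℝ), ∀ x ∈ F,
        cv (e x) = T1 *ᵥ t1 (e x) + T2 *ᵥ t2 (e x) ∧ nsq (t1 (e x)) ≤ Z ∧
        nsq (t2 (e x)) ≤ nsq (cv x) + Z ∧ D *ᵥ y x = x - ρ (e x) ∧
        nsq (cv (y x)) ≤ Γ ^ 2 * (nsq (cv x) + Z)) :
    SS a Dm * SS a D ≤
      Real.exp (a / κ * frob (cm Dp) + (γ1 + γ2 + Γ ^ 2 * γ3) * Z) *
      ((1 + √(Real.pi / β)) ^ Fintype.card k * √((β + γ1) / γ1) ^ Fintype.card κ1 *
        √((β * Γ ^ 2 + γ2) / γ2) ^ Fintype.card κ2) *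
      (√(Real.pi / (a / (1 + κ))) ^ Fintype.card n2 * Real.exp (-(ell (cm D) η / 2)) *
        (1 + √(2 * (a / (1 + κ)) * K / Real.pi)) ^ Fintype.card n2 *
        √((a / (1 + κ) * K + γ3) / γ3) ^ cnt (lapR (cm D) (cm Dp)) η) := by
  classical
  have hκ1 : 0 < 1 + κ := by linarith
  have ha1 : 0 < a / (1 + κ) := div_pos ha hκ1
  have hcDD : cm D * cm Dp = 0 := by rw [← cm_mul, hDD, cm_zero]
  obtain ⟨T3, hT3, hT3'⟩ := decomp (cm D) (cm Dp) hcDD h0
  refine SS_mul_le' ha (by positivity) Dm D fun F' u F v hF' hF h4 => ?_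
  obtain ⟨e, ρ, y0, t1, t2, hc⟩ := hL F' hF'
  choose t3 r3 ht3 _ hdec3 using fun x : n1 → ℤ => hT3' (cv (y0 x))
  choose r0 hr0 _ using fun x : n1 → ℤ => round_vec (cm Dp) (r3 x)
  obtain ⟨y, hy⟩ : ∃ y : (n1 → ℤ) → n2 → ℤ, ∀ x, y x = y0 x - Dp *ᵥ r0 x := ⟨_, fun _ => rfl⟩
  obtain ⟨b, hb⟩ : ∃ b : (n1 → ℤ) → n2 → ℝ, ∀ x, b x = cm Dp *ᵥ (r3 x - cv (r0 x)) :=
    ⟨_, fun _ => rfl⟩
  have c4 : ∀ x ∈ F', D *ᵥ y x = x - ρ (e x) := fun x hx => by
    rw [hy, mulVec_sub, (hc x hx).2.2.2.1, mulVec_mulVec, hDD, zero_mulVec, sub_zero]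
  have c5 : ∀ x, cv (y x) = T3 *ᵥ t3 x + Pb (cm D) η *ᵥ cv (y x) + b x := fun x => by
    have h5 : Pb (cm D) η *ᵥ (cm Dp *ᵥ cv (r0 x)) = 0 :=
      cons_Pb _ _ (by rw [mulVec_mulVec, hcDD, zero_mulVec])
    rw [hy, hb, cv_sub, cv_mulVec, mulVec_sub, mulVec_sub, h5, sub_zero]
    linear_combination hdec3 x
  have c6 : ∀ x, cm D *ᵥ b x = 0 := fun x => by rw [hb, mulVec_mulVec, hcDD, zero_mulVec]
  have c7 : ∀ x, nsq (b x) ≤ frob (cm Dp) := fun x => by rw [hb]; exact hr0 x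
  set err := a / κ * frob (cm Dp) + (γ1 + γ2 + Γ ^ 2 * γ3) * Z with herr
  set C3 := √(Real.pi / (a / (1 + κ))) ^ Fintype.card n2 * Real.exp (-(ell (cm D) η / 2)) *
        (1 + √(2 * (a / (1 + κ)) * K / Real.pi)) ^ Fintype.card n2 *
        √((a / (1 + κ) * K + γ3) / γ3) ^ cnt (lapR (cm D) (cm Dp)) η with hC3
  have hC30 : 0 ≤ C3 := by rw [hC3]; positivity
  let sh : (k → ℤ) → n2 → ℝ := fun ε =>
    Gm (cm D) η *ᵥ ((cm D)ᵀ *ᵥ (cv (ρ ε) + u)) + (v - Pb (cm D) η *ᵥ v)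
  let L : (k → ℤ) → ℝ := fun ε => Real.exp (-(γ1 * nsq (t1 ε) + γ2 * nsq (t2 ε)))
  let I : (k → ℤ) → (n1 → ℤ) × (n2 → ℤ) → ℝ := fun ε q =>
    Real.exp (-(a / (1 + κ) * qf (Wm (cm D) η) (cv (y q.1 + q.2) - T3 *ᵥ t3 q.1 + sh ε) +
      γ3 * nsq (t3 q.1)))
  have hpt : ∀ q ∈ F' ×ˢ F, Real.exp (-(a * nsq (cv q.1 + u))) *
      Real.exp (-(a * nsq (cv q.2 + v))) ≤ Real.exp err * (L (e q.1) * I (e q.1) q) := by
    intro q hq
    obtain ⟨hx', hz⟩ := Finset.mem_product.1 hq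
    obtain ⟨-, c2, c3, -, c8⟩ := hc q.1 hx'
    have hp := point_le (cm D) (η := η) hκ (cv (y q.1)) (cv q.2) v (b q.1) (T3 *ᵥ t3 q.1)
      (cv q.1) (cv (ρ (e q.1))) u (by rw [← cv_mulVec, c4 _ hx', cv_sub])
      (by rw [← cv_mulVec, hF _ hz, cv_zero]) (c6 _) (c5 _)
    rw [← cv_add] at hp
    simp only [L, I, ← Real.exp_add]
    refine Real.exp_le_exp.2 ?_
    set X := nsq (cv q.1 + u)
    set Z' := nsq (cv q.2 + v)
    set Q := qf (Wm (cm D) η) (cv (y q.1 + q.2) - T3 *ᵥ t3 q.1 + sh (e q.1))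
    have hX : 0 ≤ X := nsq_nonneg _
    have hx4 : nsq (cv q.1) ≤ 4 * X := h4 _ hx'
    have e1 : a / (1 + κ) * Q ≤ a / (1 + κ) * X + a * Z' + a / κ * nsq (b q.1) := by
      refine (mul_le_mul_of_nonneg_left hp ha1.le).trans (le_of_eq ?_)
      field_simp
      ring
    have e2 : a / κ * nsq (b q.1) ≤ a / κ * frob (cm Dp) :=
      mul_le_mul_of_nonneg_left (c7 _) (div_pos ha hκ).le
    have e3 : γ1 * nsq (t1 (e q.1)) ≤ γ1 * Z := mul_le_mul_of_nonneg_left c2 hγ1.le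
    have e4 : γ2 * nsq (t2 (e q.1)) ≤ γ2 * (4 * X + Z) :=
      mul_le_mul_of_nonneg_left (by linarith) hγ2.le
    have e5 : γ3 * nsq (t3 q.1) ≤ γ3 * (Γ ^ 2 * (4 * X + Z)) :=
      mul_le_mul_of_nonneg_left (((ht3 _).trans c8).trans
        (mul_le_mul_of_nonneg_left (by linarith) (sq_nonneg Γ))) hγ3.le
    have e6 := mul_le_mul_of_nonneg_right hpay hX
    rw [add_mul, add_mul] at e6
    rw [herr]
    linarith
  have hlab := label_sum (F'.image e) T1 T2 (M := Γ) hβ hγ1 hγ2 hT1 hT2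
    t1 t2 (fun ε hε => by
      obtain ⟨x, hx', rfl⟩ := Finset.mem_image.1 hε
      exact (hc x hx').1)
  have hmaps : ∀ q ∈ F' ×ˢ F, e q.1 ∈ F'.image e := fun q hq =>
    Finset.mem_image_of_mem e (Finset.mem_product.1 hq).1
  rw [Finset.sum_mul_sum, ← Finset.sum_product']
  refine (Finset.sum_le_sum hpt).trans ?_
  rw [← Finset.mul_sum, mul_assoc (Real.exp err)]
  refine mul_le_mul_of_nonneg_left ?_ (Real.exp_pos _).le
  rw [← Finset.sum_fiberwise_of_maps_to hmaps]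
  refine le_trans ?_ (mul_le_mul_of_nonneg_right hlab hC30)
  rw [Finset.sum_mul]
  refine Finset.sum_le_sum fun ε _ => ?_
  have hin := up_inner D T3 (η := η) ha1 hγ3 hK hD hT3 ((F' ×ˢ F).filter fun q => e q.1 = ε) y
    (ρ ε) t3 (sh ε) (fun q hq => by
      obtain ⟨hq1, hq2⟩ := Finset.mem_filter.1 hq
      obtain ⟨hx', hz⟩ := Finset.mem_product.1 hq1
      exact ⟨hq2 ▸ c4 q.1 hx', hF _ hz⟩)
  rw [Fintype.card_fin] at hin
  refine le_trans (le_of_eq ?_) (mul_le_mul_of_nonneg_left hin (Real.exp_pos _).le)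
  rw [Finset.mul_sum]
  refine Finset.sum_congr rfl fun q hq => ?_
  rw [(Finset.mem_filter.1 hq).2]

end Pool.Agent.Lib.MP_fd3021_gt

/-! The inequality (II) for labelled fillings: choice of the constants. -/

namespace Pool.Agent.Lib.MP_fd3021_gt

open Matrix

theorem wconst_log {B η y : ℝ} (hB : 0 ≤ B) (h0 : 0 < η) (h1 : η ≤ 1) (hy : 0 < y)
    (h : y ≤ B / η ^ 4 + 1) : Real.log y ≤ (Real.log (1 + B) + 4) * (1 - Real.log η) := by
  have hl : Real.log η ≤ 0 := Real.log_nonpos h0.le h1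
  have hc : 0 ≤ Real.log (1 + B) := Real.log_nonneg (by linarith)
  have h2 : y ≤ (1 + B) / η ^ 4 := by
    have e2 : η ^ 4 ≤ 1 := pow_le_one₀ h0.le h1
    have e3 : 1 ≤ 1 / η ^ 4 := (one_le_div (by positivity)).2 e2
    rw [add_div]
    linarith
  refine (Real.log_le_log hy h2).trans ?_
  rw [Real.log_div (by positivity) (by positivity), Real.log_pow]
  have := mul_nonneg hc (neg_nonneg.2 hl)
  push_cast
  nlinarith

theorem upper2 {C ε : ℝ} (hC : 1 ≤ C) (hε : 0 < ε) : ∃ a > 0, ∃ δ > 0, ∀ M : ℝ, 1 ≤ M → ∃ ζ > 0,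
    ∀ η : ℝ, 0 < η → η ≤ 1 → ∀ d : ℝ, 0 < d → ∀ κ : ℝ,
    ∀ (n0 n1 n2 n3 : Type) [Fintype n0] [Fintype n1] [Fintype n2] [Fintype n3]
      [DecidableEq n1] [DecidableEq n2] [DecidableEq n3]
      (Dm : Matrix n0 n1 ℤ) (D : Matrix n1 n2 ℤ) (Dp : Matrix n2 n3 ℤ),
      D * Dp = 0 → RC D C → RC Dp C →
      (Fintype.card n2 : ℝ) ≤ C * d → (Fintype.card n3 : ℝ) ≤ C * d →
      κ * (1 - Real.log η) ≤ ζ * d →
      (cnt (lapR (cm D) (cm Dp)) η : ℝ) * (1 - Real.log η) ≤ ζ * d →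
      Lab Dm D C δ (M / η ^ 2) κ d →
      Real.log (SS a Dm) + Real.log (SS a D) ≤
        (Fintype.card n2 : ℝ) / 2 * Real.log (Real.pi / a) - ell (cm D) η / 2 + ε * d := by
  have hC0 : 0 < C := by linarith
  have hpi := Real.pi_pos
  obtain ⟨e, he, he1, heε⟩ : ∃ e : ℝ, 0 < e ∧ e ≤ 1 ∧ 16 * C ^ 3 * e ≤ ε :=
    ⟨min 1 (ε / (16 * C ^ 3)), lt_min one_pos (by positivity), min_le_left _ _, by
      rw [mul_comm, ← le_div_iff₀ (by positivity)]
      exact min_le_right _ _⟩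
  obtain ⟨c1, hc1⟩ : ∃ c, c = Real.log ((Real.pi / e ^ 2 + e) / e) := ⟨_, rfl⟩
  have hc10 : 0 ≤ c1 := hc1 ▸ Real.log_nonneg
    ((one_le_div he).2 (le_add_of_nonneg_left (by positivity)))
  refine ⟨e ^ 2, by positivity, e / (1 + c1), by positivity, fun M hM => ?_⟩
  have hM0 : 0 < M := by linarith
  obtain ⟨c2, hc2⟩ : ∃ c, c = Real.log (1 + Real.pi / e ^ 2 * M ^ 2 / (e * e ^ 2 / 16)) :=
    ⟨_, rfl⟩
  have hc20 : 0 ≤ c2 := hc2 ▸ Real.log_nonneg (le_add_of_nonneg_right (by positivity))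
  obtain ⟨c3, hc3⟩ : ∃ c, c = Real.log (1 + 16 * C ^ 2 * M ^ 2 / e) := ⟨_, rfl⟩
  have hc30 : 0 ≤ c3 := hc3 ▸ Real.log_nonneg (le_add_of_nonneg_right (by positivity))
  refine ⟨e / (c2 + c3 + 4), by positivity, ?_⟩
  intro η h0 h1 d hd κ n0 n1 n2 n3 _ _ _ _ _ _ _ Dm D Dp hDD bD bDp hn2 hn3 hA hB hdata
  obtain ⟨k, κ1, κ2, _, _, _, T1, T2, hk1, hrk, hk2, hT1, hT2, hL⟩ := hdata
  have hK : 1 ≤ C ^ 2 := one_le_pow₀ hC
  have hΓ0 : 0 < M / η ^ 2 := by positivity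
  have u2 : Real.log ((Real.pi / e ^ 2 * (M / η ^ 2) ^ 2 + e * e ^ 2 / 16) / (e * e ^ 2 / 16)) ≤
      (c2 + 4) * (1 - Real.log η) := by
    rw [hc2]
    refine wconst_log (by positivity) h0 h1 (by positivity) (le_of_eq ?_)
    field_simp
  have u3 : Real.log ((e ^ 2 / (1 + e) * C ^ 2 + e * e ^ 2 / (16 * (M / η ^ 2) ^ 2)) /
      (e * e ^ 2 / (16 * (M / η ^ 2) ^ 2))) ≤ (c3 + 4) * (1 - Real.log η) := by
    rw [hc3]
    refine wconst_log (by positivity) h0 h1 (by positivity) ?_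
    have e1 : e ^ 2 / (1 + e) ≤ e ^ 2 := div_le_self (by positivity) (by linarith)
    have e3 : (16 * C ^ 2 * M ^ 2 / e / η ^ 4 + 1) * (e * e ^ 2 / (16 * (M / η ^ 2) ^ 2)) =
        e ^ 2 * C ^ 2 + e * e ^ 2 / (16 * (M / η ^ 2) ^ 2) := by
      field_simp
    rw [div_le_iff₀ (by positivity), e3]
    gcongr
  generalize M / η ^ 2 = Γ at hΓ0 u2 u3 hT2 hL
  have g3 : Γ ^ 2 * (e * e ^ 2 / (16 * Γ ^ 2)) = e * e ^ 2 / 16 := by field_simp
  have hpay : e ^ 2 / (1 + e) + 4 * (e * e ^ 2 / 16) +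
      4 * Γ ^ 2 * (e * e ^ 2 / (16 * Γ ^ 2)) ≤ e ^ 2 := by
    have e2 : e ^ 2 / (1 + e) ≤ e ^ 2 - e * e ^ 2 / 2 := by
      rw [div_le_iff₀ (by linarith)]
      have : 0 ≤ e ^ 3 * (1 - e) := mul_nonneg (by positivity) (by linarith)
      nlinarith
    rw [mul_assoc 4 (Γ ^ 2), g3]
    linarith
  have main := upper2_explicit Dm D Dp T1 T2 (Γ := Γ) (Z := C * d) (a := e ^ 2) (κ := e)
    (β := Real.pi / e ^ 2) (γ1 := e) (γ2 := e * e ^ 2 / 16) (γ3 := e * e ^ 2 / (16 * Γ ^ 2))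
    (K := C ^ 2) h0 (by positivity) he (by positivity) he (by positivity) (by positivity) hK
    hpay hDD bD.nsq_le hT1 hT2 hL
  have hlog := const_log (one_le_SS (by positivity) Dm) (one_le_SS (by positivity) D)
    (by positivity) (by positivity) (by positivity) (by positivity) (by positivity)
    (by positivity) main
  clear main
  rw [← hc1, g3] at hlog
  have hl : Real.log η ≤ 0 := Real.log_nonpos h0.le h1
  obtain ⟨X, hX⟩ : ∃ X, X = C ^ 3 * e * d := ⟨_, rfl⟩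
  have hX0 : 0 < X := by rw [hX]; positivity
  have hed : 0 < e * d := by positivity
  have x0 : e * d ≤ X := by
    rw [hX, mul_assoc]
    exact le_mul_of_one_le_left hed.le (one_le_pow₀ hC)
  have x1 : C * d * e ≤ X := by
    rw [hX, show C ^ 3 * e * d = C ^ 2 * (C * d * e) by ring]
    exact le_mul_of_one_le_left (by positivity) hK
  have x2 : C * d * (e * C) ≤ X := by
    rw [hX, show C ^ 3 * e * d = C * (C * d * (e * C)) by ring]
    exact le_mul_of_one_le_left (by positivity) hC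
  have t1 : e ^ 2 / e * frob (cm Dp) ≤ X := by
    have := frob_le_of_col bDp.2
    calc e ^ 2 / e * frob (cm Dp) = e * frob (cm Dp) := by field_simp
      _ ≤ e * (C ^ 2 * (C * d)) := by
        gcongr
        exact this.trans (by gcongr)
      _ = X := by rw [hX]; ring
  have t2 : (e + e * e ^ 2 / 16 + e * e ^ 2 / 16) * (C * d) ≤ 2 * X := by
    have e1 : e * e ^ 2 ≤ e := mul_le_of_le_one_right he.le (pow_le_one₀ he.le he1)
    calc _ ≤ (2 * e) * (C * d) := mul_le_mul_of_nonneg_right (by linarith) (by positivity)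
      _ ≤ _ := by linarith
  have t4 : (Fintype.card k : ℝ) * Real.log (1 + √(Real.pi / (Real.pi / e ^ 2))) ≤ X := by
    refine le_trans ?_ x1
    have e1 : √(Real.pi / (Real.pi / e ^ 2)) = e := by
      rw [show Real.pi / (Real.pi / e ^ 2) = e ^ 2 by field_simp, Real.sqrt_sq he.le]
    rw [e1]
    exact mul_le_mul hk1 (const_log_one_add he.le) (Real.log_nonneg (by linarith))
      (by positivity)
  have t5 : (Fintype.card κ1 : ℝ) * (c1 / 2) ≤ X := by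
    refine le_trans ?_ x0
    calc (Fintype.card κ1 : ℝ) * (c1 / 2) ≤ e / (1 + c1) * d * (1 + c1) :=
          mul_le_mul hrk (by linarith) (by positivity) (by positivity)
      _ = e * d := by field_simp
  have key : ∀ N y : ℝ, 0 ≤ N → N * (1 - Real.log η) ≤ e / (c2 + c3 + 4) * d →
      y ≤ (1 - Real.log η) * (c2 + c3 + 4) → N * y ≤ X := fun N y hN h2 h3 => by
    refine le_trans ?_ x0
    calc _ ≤ N * ((1 - Real.log η) * (c2 + c3 + 4)) := mul_le_mul_of_nonneg_left h3 hN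
      _ ≤ e / (c2 + c3 + 4) * d * (c2 + c3 + 4) := by
          rw [← mul_assoc]
          gcongr
      _ = e * d := by field_simp
  have p2 : 0 ≤ c2 * (1 - Real.log η) := mul_nonneg hc20 (by linarith)
  have p3 : 0 ≤ c3 * (1 - Real.log η) := mul_nonneg hc30 (by linarith)
  have t6 : (Fintype.card κ2 : ℝ) *
      (Real.log ((Real.pi / e ^ 2 * Γ ^ 2 + e * e ^ 2 / 16) / (e * e ^ 2 / 16)) / 2) ≤ X :=
    key _ _ (by positivity)
      ((mul_le_mul_of_nonneg_right hk2 (by linarith)).trans hA) (by linarith)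
  have t7 : (Fintype.card n2 : ℝ) * (Real.log (Real.pi / (e ^ 2 / (1 + e))) / 2) ≤
      (Fintype.card n2 : ℝ) / 2 * Real.log (Real.pi / e ^ 2) + X := by
    have e1 : Real.log (Real.pi / (e ^ 2 / (1 + e))) =
        Real.log (Real.pi / e ^ 2) + Real.log (1 + e) := by
      rw [← Real.log_mul (by positivity) (by positivity)]
      congr 1
      field_simp
    have e2 : (Fintype.card n2 : ℝ) * Real.log (1 + e) ≤ C * d * e :=
      mul_le_mul hn2 (const_log_one_add he.le) (Real.log_nonneg (by linarith)) (by positivity)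
    rw [e1]
    linarith
  have t8 : (Fintype.card n2 : ℝ) *
      Real.log (1 + √(2 * (e ^ 2 / (1 + e)) * C ^ 2 / Real.pi)) ≤ X := by
    refine le_trans ?_ x2
    refine mul_le_mul hn2 ((const_log_one_add (Real.sqrt_nonneg _)).trans ?_)
      (Real.log_nonneg (le_add_of_nonneg_right (Real.sqrt_nonneg _))) (by positivity)
    rw [Real.sqrt_le_left (by positivity), div_le_iff₀ hpi]
    have e1 : e ^ 2 / (1 + e) ≤ e ^ 2 := div_le_self (by positivity) (by linarith)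
    calc 2 * (e ^ 2 / (1 + e)) * C ^ 2 ≤ Real.pi * e ^ 2 * C ^ 2 := by
          gcongr
          exact Real.two_le_pi
      _ = (e * C) ^ 2 * Real.pi := by ring
  have t9 : (cnt (lapR (cm D) (cm Dp)) η : ℝ) *
      (Real.log ((e ^ 2 / (1 + e) * C ^ 2 + e * e ^ 2 / (16 * Γ ^ 2)) /
        (e * e ^ 2 / (16 * Γ ^ 2))) / 2) ≤ X :=
    key _ _ (by positivity) hB (by linarith)
  have tX : 16 * X ≤ ε * d := by
    rw [hX, show 16 * (C ^ 3 * e * d) = 16 * C ^ 3 * e * d by ring]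
    gcongr
  linarith

end Pool.Agent.Lib.MP_fd3021_gt

/-! Labels in two steps. -/

namespace Pool.Agent.Lib.MP_fd3021_gt

open Matrix

variable {n0 n1 n2 u0 u1 u2 : Type} [Fintype n0] [Fintype n1] [Fintype n2] [Fintype u0]
  [Fintype u1] [Fintype u2]

omit [Fintype n0] in
theorem Lab.mono {Dm : Matrix n0 n1 ℤ} {D : Matrix n1 n2 ℤ} {C C' δ δ' Γ Γ' κ d : ℝ}
    (h : Lab Dm D C δ Γ κ d) (hd : 0 ≤ d) (h0 : 0 ≤ C) (hC : C ≤ C') (hδ : δ ≤ δ') (hΓ0 : 0 ≤ Γ)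
    (hΓ : Γ ≤ Γ') : Lab Dm D C' δ' Γ' κ d := by
  classical
  obtain ⟨k, κ1, κ2, i1, i2, i3, T1, T2, a1, a2, a3, a4, a5, a6⟩ := h
  have b1 : C * d ≤ C' * d := mul_le_mul_of_nonneg_right hC hd
  have b2 : Γ ^ 2 ≤ Γ' ^ 2 := pow_le_pow_left₀ hΓ0 hΓ 2
  refine ⟨k, κ1, κ2, i1, i2, i3, T1, T2, a1.trans b1,
    a2.trans (mul_le_mul_of_nonneg_right hδ hd), a3, a4,
    fun t => (a5 t).trans (mul_le_mul_of_nonneg_right b2 (nsq_nonneg t)), fun F hF => ?_⟩
  obtain ⟨e, ρ, y, t1, t2, h⟩ := a6 F hF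
  refine ⟨e, ρ, y, t1, t2, fun x hx => ?_⟩
  obtain ⟨c1, c2, c3, c4, c5⟩ := h x hx
  refine ⟨c1, c2.trans b1, by linarith, c4, c5.trans ?_⟩
  exact mul_le_mul b2 (by linarith) (add_nonneg (nsq_nonneg _) (mul_nonneg h0 hd)) (sq_nonneg _)

theorem lab_of_zero [DecidableEq n0] [DecidableEq n1] [DecidableEq n2] (Dm : Matrix n0 n1 ℤ)
    (D : Matrix n1 n2 ℤ) (hD : D = 0) {C δ Γ d η : ℝ} (h0 : 0 < η) (hδ : 0 ≤ δ) (hd : 0 ≤ d)
    (hΓ : 1 ≤ Γ) (h1 : (Fintype.card n1 : ℝ) ≤ C * d) :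
    Lab Dm D C δ Γ (cnt (lapR (cm Dm) (cm D)) η) d := by
  subst hD
  obtain ⟨T, hT, hT'⟩ := decomp (cm Dm) (cm (0 : Matrix n1 n2 ℤ))
    (by rw [cm_zero, Matrix.mul_zero]) h0
  choose t r ht _ hdec using fun x : n1 → ℤ => hT' (cv x)
  have hCd : 0 ≤ C * d := (Nat.cast_nonneg _).trans h1
  have hz : ∀ {a : Type} [Fintype a], nsq (0 : a → ℝ) = 0 := fun {a} _ => by simp [nsq]
  refine ⟨n1, Empty, Fin _, inferInstance, inferInstance, inferInstance, 0, T, h1,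
    by simpa using mul_nonneg hδ hd, by simp, fun t => by rw [zero_mulVec, hz]; exact nsq_nonneg t,
    fun t => (hT t).trans (le_mul_of_one_le_left (nsq_nonneg t) (one_le_pow₀ hΓ)), fun F hF =>
    ⟨id, id, fun _ => 0, fun _ => 0, t, fun x hx => ⟨?_, by rw [hz]; exact hCd,
      (ht x).trans (le_add_of_nonneg_right hCd), by simp, ?_⟩⟩⟩
  · have h2 : Pb (cm Dm) η *ᵥ cv x = 0 :=
      cons_Pb _ _ (by rw [← cv_mulVec, hF x hx, cv_zero])
    have h3 := hdec x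
    have h4 : cm (0 : Matrix n1 n2 ℤ) *ᵥ r x = 0 := by rw [cm_zero, zero_mulVec]
    rw [h2, add_zero, h4, add_zero] at h3
    rw [zero_mulVec, zero_add]
    exact h3
  · rw [cv_zero, hz]
    exact mul_nonneg (sq_nonneg _) (add_nonneg (nsq_nonneg _) hCd)

theorem wcons_elim {a b : Type} [Fintype a] [Fintype b] (v : a → ℝ) (w : b → ℝ) :
    nsq (Sum.elim v w) = nsq v + nsq w := sumElim_dotProduct_sumElim _ _ _ _

theorem wcons_smul {a : Type} [Fintype a] (c : ℝ) (v : a → ℝ) : nsq (c • v) = c ^ 2 * nsq v := by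
  unfold nsq
  rw [smul_dotProduct, dotProduct_smul, smul_eq_mul, smul_eq_mul]
  ring

theorem wcons_step [DecidableEq n0] [DecidableEq n1] [DecidableEq n2] {k1 k2 : Type} [Fintype k1]
    [Fintype k2] {Dm : Matrix n0 n1 ℤ} {D : Matrix n1 n2 ℤ} (hD : Dm * D = 0)
    {f : Matrix k1 n1 ℤ} {D' : Matrix k1 k2 ℤ} {f' : Matrix k2 n2 ℤ} (hf : f * D = D' * f')
    {M η d : ℝ} (bf : RC f M) (bf' : RC f' M) (h0 : 0 < η) (hk : (Fintype.card k2 : ℝ) ≤ d) :
    ∃ (T : Matrix k1 (Fin (cnt (lapR (cm Dm) (cm D)) η)) ℝ)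
      (t : (n1 → ℤ) → Fin (cnt (lapR (cm Dm) (cm D)) η) → ℝ) (w : (n1 → ℤ) → k2 → ℤ)
      (b : (n1 → ℤ) → k1 → ℝ), (∀ t, nsq (T *ᵥ t) ≤ M ^ 2 * nsq t) ∧ ∀ x,
      nsq (t x) ≤ nsq (cv x) ∧ nsq (b x) ≤ frob (cm D') ∧
      (Dm *ᵥ x = 0 → cv (f *ᵥ x - D' *ᵥ w x) = b x + T *ᵥ t x) ∧
      nsq (cv (w x)) ≤ 2 * (M ^ 2 * (η ^ 2)⁻¹ * nsq (cv x)) + 2 * d := by
  obtain ⟨T, hT, hT'⟩ := decomp (cm Dm) (cm D) (by rw [← cm_mul, hD, cm_zero]) h0
  choose t r ht hr hdec using fun x : n1 → ℤ => hT' (cv x)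
  choose w hw1 hw2 using fun x : n1 → ℤ => round_vec (cm D') (cm f' *ᵥ r x)
  have hcf : cm f * cm D = cm D' * cm f' := by rw [← cm_mul, ← cm_mul, hf]
  have hη2 : 0 < η ^ 2 := pow_pos h0 2
  refine ⟨cm f * T, t, w, fun x => cm D' *ᵥ (cm f' *ᵥ r x - cv (w x)), fun t => ?_,
    fun x => ⟨ht x, hw1 x, fun hx => ?_, ?_⟩⟩
  · rw [← mulVec_mulVec]
    exact (bf.nsq_le _).trans (mul_le_mul_of_nonneg_left (hT t) (sq_nonneg M))
  · have h2 : Pb (cm Dm) η *ᵥ cv x = 0 := cons_Pb _ _ (by rw [← cv_mulVec, hx, cv_zero])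
    have h3 := hdec x
    rw [h2, add_zero] at h3
    have h4 : cm f *ᵥ cv x = (cm f * T) *ᵥ t x + cm D' *ᵥ (cm f' *ᵥ r x) := by
      rw [mulVec_mulVec, ← hcf, ← mulVec_mulVec, ← mulVec_mulVec, ← mulVec_add, ← h3]
    beta_reduce
    rw [cv_sub, cv_mulVec, cv_mulVec, mulVec_sub, h4]
    abel
  · have h2 : cv (w x) = cm f' *ᵥ r x - (cm f' *ᵥ r x - cv (w x)) := by abel
    have h3 := nsq_sub_le (cm f' *ᵥ r x) (cm f' *ᵥ r x - cv (w x))
    rw [← h2] at h3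
    have h4 : nsq (r x) ≤ (η ^ 2)⁻¹ * nsq (cv x) := by
      rw [le_inv_mul_iff₀ hη2]
      exact hr x
    have h5 := (bf'.nsq_le (r x)).trans (mul_le_mul_of_nonneg_left h4 (sq_nonneg M))
    have h6 := hw2 x
    rw [← mul_assoc] at h5
    linarith

theorem wcons_two {a b c : Type} [Fintype a] [Fintype b] [Fintype c] {A : Matrix a b ℤ}
    {B : Matrix a c ℤ} {M : ℝ} (hA : RC A M) (hB : RC B M) (x x' : b → ℤ) (w w' : c → ℤ)
    {X W : ℝ} (h1 : nsq (cv x) ≤ X) (h2 : nsq (cv x') ≤ X) (h3 : nsq (cv w) ≤ W)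
    (h4 : nsq (cv w') ≤ W) :
    nsq (cv (A *ᵥ (x - x') + B *ᵥ (w - w'))) ≤ 8 * (M ^ 2 * X) + 8 * (M ^ 2 * W) := by
  rw [cv_add, cv_mulVec, cv_mulVec, cv_sub, cv_sub]
  have a1 := nsq_sub_le (cv x) (cv x')
  have a2 := nsq_sub_le (cv w) (cv w')
  have a3 := (hA.nsq_le _).trans (mul_le_mul_of_nonneg_left
    (show nsq (cv x - cv x') ≤ 4 * X by linarith) (sq_nonneg M))
  have a4 := (hB.nsq_le _).trans (mul_le_mul_of_nonneg_left
    (show nsq (cv w - cv w') ≤ 4 * W by linarith) (sq_nonneg M))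
  have a5 := cons_add (cm A *ᵥ (cv x - cv x')) (cm B *ᵥ (cv w - cv w'))
  linarith

theorem Data2.lab [DecidableEq n0] [DecidableEq n1] [DecidableEq n2] [DecidableEq u0]
    [DecidableEq u1] [DecidableEq u2] {Dm : Matrix n0 n1 ℤ} {D : Matrix n1 n2 ℤ}
    {Fm : Matrix u0 u1 ℤ} {Fd : Matrix u1 u2 ℤ} {C δ M d η : ℝ} (h : Data2 Dm D Fm Fd C δ M d)
    (hD : Dm * D = 0) (hF : Fm * Fd = 0) (hC : 1 ≤ C) (hδ : δ ≤ 1) (hM : 1 ≤ M) (hd : 0 ≤ d)
    (h0 : 0 < η) (h1 : η ≤ 1) :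
    Lab Dm D (2 * C) (2 * δ) (25 * M ^ 4 / η ^ 2)
      (cnt (lapR (cm Dm) (cm D)) η + cnt (lapR (cm Fm) (cm Fd)) η) d := by
  classical
  obtain ⟨k1, k2, l1, l2, i1, i2, i3, i4, f, D', f', s, g', h, h', j, e, E', e', j', q1, q2, q3,
    q4, c1, c2, c3, c4, c5, c6, bf, bf', bs, bg', bh, bh', be, be', bj'⟩ := h
  have hδd : δ * d ≤ d := mul_le_of_le_one_left hd hδ
  have hCd : d ≤ C * d := le_mul_of_one_le_left hd hC
  obtain ⟨T, t, w, b, hT, hs⟩ := wcons_step hD q1 bf bf' h0 (c2.trans hδd)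
  obtain ⟨T4, t4, w4, b4, hT4, hs4⟩ := wcons_step hF q2 be be' h0 (c4.trans hδd)
  obtain ⟨u, hu⟩ : ∃ u, u = (η ^ 2)⁻¹ := ⟨_, rfl⟩
  obtain ⟨m, hm⟩ : ∃ m, m = M ^ 2 := ⟨_, rfl⟩
  have hu1 : 1 ≤ u := hu ▸ (one_le_inv₀ (pow_pos h0 2)).2 (pow_le_one₀ h0.le h1)
  have hm1 : 1 ≤ m := hm ▸ one_le_pow₀ hM
  have hmu : 1 ≤ m * u := one_le_mul_of_one_le_of_one_le hm1 hu1
  have hmmu : 1 ≤ m * (m * u) := one_le_mul_of_one_le_of_one_le hm1 hmu
  have hΓ : (25 * M ^ 4 / η ^ 2) ^ 2 = 625 * (m * (m * u) * (m * (m * u))) := by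
    rw [hu, hm]; ring
  have hc0 : 5 * M ^ 2 / η ≠ 0 := by positivity
  have hc : (5 * M ^ 2 / η) ^ 2 = 25 * (m * (m * u)) := by rw [hu, hm]; ring
  rw [← hu, ← hm] at hs hs4
  rw [← hm] at hT hT4
  refine ⟨k1 ⊕ l1, k1 ⊕ l1, Fin _ ⊕ Fin _, inferInstance, inferInstance, inferInstance, 1,
    (5 * M ^ 2 / η) • fromBlocks T 0 0 T4, ?_, ?_, ?_, fun t => by rw [one_mulVec], fun t => ?_,
    fun F hF => ?_⟩
  · rw [Fintype.card_sum, Nat.cast_add]
    linarith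
  · rw [Fintype.card_sum, Nat.cast_add]
    linarith
  · rw [Fintype.card_sum, Fintype.card_fin, Fintype.card_fin, Nat.cast_add]
  · rw [smul_mulVec, wcons_smul, fromBlocks_mulVec, wcons_elim, zero_mulVec, zero_mulVec,
      add_zero, zero_add, hc, hΓ]
    have a1 := hT (t ∘ Sum.inl)
    have a2 := hT4 (t ∘ Sum.inr)
    have a3 := wcons_elim (t ∘ Sum.inl) (t ∘ Sum.inr)
    rw [Sum.elim_comp_inl_inr] at a3
    have a4 : m * nsq t ≤ 25 * (m * (m * u)) * nsq t :=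
      mul_le_mul_of_nonneg_right (by nlinarith) (nsq_nonneg t)
    calc _ ≤ 25 * (m * (m * u)) * (25 * (m * (m * u)) * nsq t) :=
          mul_le_mul_of_nonneg_left (by rw [a3] at a4 ⊢; linarith) (by positivity)
      _ = _ := by ring
  obtain ⟨e1, he1⟩ : ∃ e1 : (n1 → ℤ) → k1 → ℤ, ∀ x, e1 x = f *ᵥ x - D' *ᵥ w x :=
    ⟨_, fun _ => rfl⟩
  obtain ⟨ρ1, hρ1⟩ := cons_rho F e1 (fun x => nsq (cv x)) 0
  obtain ⟨z, hz⟩ : ∃ z : (n1 → ℤ) → u1 → ℤ,
      ∀ x, z x = h *ᵥ (x - ρ1 (e1 x)) + h' *ᵥ (w x - w (ρ1 (e1 x))) := ⟨_, fun _ => rfl⟩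
  obtain ⟨y1, hy1⟩ : ∃ y1 : (n1 → ℤ) → n2 → ℤ,
      ∀ x, y1 x = s *ᵥ (x - ρ1 (e1 x)) + g' *ᵥ (w x - w (ρ1 (e1 x))) := ⟨_, fun _ => rfl⟩
  obtain ⟨lab, hlab⟩ : ∃ lab : (n1 → ℤ) → k1 ⊕ l1 → ℤ,
      ∀ x, lab x = Sum.elim (e1 x) (e *ᵥ z x - E' *ᵥ w4 (z x)) := ⟨_, fun _ => rfl⟩
  obtain ⟨ρ2, hρ2⟩ := cons_rho F lab (fun x => nsq (cv x)) 0
  have hA : ∀ x ∈ F, Fm *ᵥ z x = 0 ∧ x - ρ1 (e1 x) = D *ᵥ y1 x + j *ᵥ (e *ᵥ z x) := by
    intro x hx
    obtain ⟨a1, a2, _⟩ := hρ1 x hx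
    rw [hz, hy1]
    refine q4 _ _ (by rw [mulVec_sub, hF x hx, hF _ a1, sub_zero]) ?_
    have a4 := (he1 (ρ1 (e1 x))).symm.trans a2
    have a5 := he1 x
    rw [mulVec_sub, mulVec_sub]
    linear_combination -a4 - a5
  have hB : ∀ x ∈ F, ∀ X, nsq (cv x) ≤ X →
      nsq (cv (z x)) ≤ 24 * (m * (m * u) * (X + d)) ∧
      nsq (cv (y1 x)) ≤ 24 * (m * (m * u) * (X + d)) ∧
      nsq (cv (w4 (z x))) ≤ 50 * (m * u * (m * (m * u) * (X + d))) := by
    intro x hx X hX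
    have hX0 : 0 ≤ X := (nsq_nonneg _).trans hX
    obtain ⟨_, _, a3⟩ := hρ1 x hx
    have a4 : ∀ x', nsq (cv x') ≤ X → nsq (cv (w x')) ≤ 2 * (m * u * X) + 2 * d := fun x' hx' => by
      have := mul_le_mul_of_nonneg_left hx' (zero_le_one.trans hmu)
      linarith [(hs x').2.2.2]
    have a5 : 8 * (m * X) + 8 * (m * (2 * (m * u * X) + 2 * d)) ≤
        24 * (m * (m * u) * (X + d)) := by
      have b1 : m * X ≤ m * X * (m * u) := le_mul_of_one_le_right (by positivity) hmu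
      have b2 : m * d ≤ m * d * (m * u) := le_mul_of_one_le_right (by positivity) hmu
      have b3 : 0 ≤ m * d := by positivity
      linarith
    have a6 := wcons_two bh bh' x _ _ _ hX (a3.trans hX) (a4 x hX) (a4 _ (a3.trans hX))
    have a7 := wcons_two bs bg' x _ _ _ hX (a3.trans hX) (a4 x hX) (a4 _ (a3.trans hX))
    rw [← hz, ← hm] at a6
    rw [← hy1, ← hm] at a7
    refine ⟨a6.trans a5, a7.trans a5, ?_⟩
    have a8 := mul_le_mul_of_nonneg_left (a6.trans a5) (zero_le_one.trans hmu)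
    have a9 : X + d ≤ m * u * (m * (m * u)) * (X + d) :=
      le_mul_of_one_le_left (by positivity) (one_le_mul_of_one_le_of_one_le hmu hmmu)
    linarith [(hs4 (z x)).2.2.2]
  refine ⟨lab, ρ2, fun x => y1 x - y1 (ρ2 (lab x)) + j' *ᵥ (w4 (z x) - w4 (z (ρ2 (lab x)))),
    fun ε => Sum.elim (b (ρ2 ε)) (b4 (z (ρ2 ε))),
    fun ε => (5 * M ^ 2 / η)⁻¹ • Sum.elim (t (ρ2 ε)) (t4 (z (ρ2 ε))), fun x hx => ?_⟩
  obtain ⟨a1, a2, a3⟩ := hρ2 x hx
  obtain ⟨x2, hx2⟩ : ∃ x2, x2 = ρ2 (lab x) := ⟨_, rfl⟩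
  simp only [← hx2] at a1 a2 a3 ⊢
  have hX0 := nsq_nonneg (cv x)
  obtain ⟨b1, b2, b3⟩ := hB x hx _ le_rfl
  obtain ⟨b4', b5, b6⟩ := hB x2 a1 _ a3
  refine ⟨?_, ?_, ?_, ?_, ?_⟩
  · rw [one_mulVec, smul_mulVec, mulVec_smul, smul_smul, mul_inv_cancel₀ hc0, one_smul,
      fromBlocks_mulVec, zero_mulVec, zero_mulVec, add_zero, zero_add, Sum.elim_comp_inl,
      Sum.elim_comp_inr, ← a2, hlab, he1]
    have a4 := (hs x2).2.2.1 (hF x2 a1)
    have a5 := (hs4 (z x2)).2.2.1 (hA x2 a1).1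
    funext i
    rcases i with i | i
    · exact congrFun a4 i
    · exact congrFun a5 i
  · rw [wcons_elim]
    linarith [(hs x2).2.1, (hs4 (z x2)).2.1]
  · rw [wcons_smul, wcons_elim, inv_pow, hc, inv_mul_le_iff₀ (by positivity)]
    have a4 : nsq (cv x) + d ≤ m * (m * u) * (nsq (cv x) + d) :=
      le_mul_of_one_le_left (by positivity) hmmu
    have a5 : m * (m * u) * (nsq (cv x) + d) ≤ m * (m * u) * (nsq (cv x) + 2 * C * d) :=
      mul_le_mul_of_nonneg_left (by linarith) (by positivity)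
    linarith [(hs x2).1, (hs4 (z x2)).1]
  · rw [hlab, hlab] at a2
    have a4 : e1 x2 = e1 x := congrArg (· ∘ Sum.inl) a2
    have a5 : e *ᵥ z x2 - E' *ᵥ w4 (z x2) = e *ᵥ z x - E' *ᵥ w4 (z x) :=
      congrArg (· ∘ Sum.inr) a2
    have a6 := (hA x hx).2
    have a7 := (hA x2 a1).2
    rw [a4] at a7
    have a8 := congrArg (j *ᵥ ·) a5
    simp only [mulVec_sub] at a8
    rw [mulVec_add, mulVec_mulVec, ← q3, ← mulVec_mulVec, mulVec_sub, mulVec_sub, mulVec_sub]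
    linear_combination a7 - a6 + a8
  · rw [cv_add, cv_sub, cv_mulVec, cv_sub, hΓ]
    have a4 := nsq_sub_le (cv (y1 x)) (cv (y1 x2))
    have a5 := nsq_sub_le (cv (w4 (z x))) (cv (w4 (z x2)))
    have a6 := (bj'.nsq_le _).trans (mul_le_mul_of_nonneg_left
      (show nsq (cv (w4 (z x)) - cv (w4 (z x2))) ≤
        200 * (m * u * (m * (m * u) * (nsq (cv x) + d))) by linarith) (sq_nonneg M))
    have a7 := cons_add (cv (y1 x) - cv (y1 x2)) (cm j' *ᵥ (cv (w4 (z x)) - cv (w4 (z x2))))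
    rw [← hm] at a6
    have a8 : m * (m * u) * (nsq (cv x) + d) ≤ m * (m * u) * (m * (m * u) * (nsq (cv x) + d)) :=
      le_mul_of_one_le_left (by positivity) hmmu
    have a9 : m * (m * u) * (m * (m * u)) * (nsq (cv x) + d) ≤
        m * (m * u) * (m * (m * u)) * (nsq (cv x) + 2 * C * d) :=
      mul_le_mul_of_nonneg_left (by linarith) (by positivity)
    have a10 : 0 ≤ m * (m * u) * (m * (m * u)) * (nsq (cv x) + d) := by positivity
    linarith

end Pool.Agent.Lib.MP_fd3021_gt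

/-! The mapping cone at a finite level: matrix algebra. -/

namespace Pool.Agent.Lib.MP_fd3021_gt

open Matrix

section Aux

variable {m n k l : Type} [Fintype m] [Fintype n] [Fintype k] [Fintype l]

/-- inclusion of the coordinates satisfying `L` -/
def walgI [DecidableEq n] (L : n → Prop) : Matrix n {a // L a} ℤ :=
  (1 : Matrix n n ℤ).submatrix id Subtype.val

theorem walg_II [DecidableEq n] (L : n → Prop) [DecidablePred L] :
    walgI L * (walgI L)ᵀ = diagonal fun a => if L a then 1 else 0 := by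
  ext a b
  simp only [walgI, mul_apply, transpose_apply, submatrix_apply, id, one_apply, diagonal_apply]
  by_cases h : L a
  · rw [Finset.sum_eq_single ⟨a, h⟩]
    · by_cases e : a = b
      · simp [e.symm, h]
      · simp [e, Ne.symm e]
    · intro c _ hc
      rw [if_neg fun e : a = c.1 => hc (Subtype.ext e.symm), zero_mul]
    · simp
  · rw [Finset.sum_eq_zero fun c _ => by
      rw [if_neg fun e : a = c.1 => h (e ▸ c.2), zero_mul]]
    simp [h]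

omit [Fintype m] in
theorem walg_row [DecidableEq n] (L : n → Prop) [DecidablePred L] {B : Matrix n m ℤ}
    (h : ∀ a b, ¬L a → B a b = 0) : walgI L * ((walgI L)ᵀ * B) = B := by
  rw [← Matrix.mul_assoc, walg_II]
  ext a b
  rw [diagonal_mul]
  by_cases e : L a
  · simp [e]
  · simp [e, h a b e]

omit [Fintype m] in
theorem walg_col [DecidableEq n] (L : n → Prop) [DecidablePred L] {B : Matrix m n ℤ}
    (h : ∀ a b, ¬L b → B a b = 0) : B * walgI L * (walgI L)ᵀ = B := by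
  rw [Matrix.mul_assoc, walg_II]
  ext a b
  rw [mul_diagonal]
  by_cases e : L b
  · simp [e]
  · simp [e, h a b e]

theorem walg_RC_I [DecidableEq n] (L : n → Prop) [DecidablePred L] : RC (walgI L) 1 :=
  RC.one.submatrix Function.injective_id Subtype.val_injective

theorem walg_RC_neg {A : Matrix m n ℤ} {M : ℝ} (h : RC A M) : RC (-A) M := by
  simpa [RC] using h

theorem walg_RC_blocks {A : Matrix m n ℤ} {B : Matrix m l ℤ} {C : Matrix k n ℤ}
    {D : Matrix k l ℤ} {a b c d M : ℝ} (hA : RC A a) (hB : RC B b) (hC : RC C c) (hD : RC D d)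
    (h1 : a + b ≤ M) (h2 : c + d ≤ M) (h3 : a + c ≤ M) (h4 : b + d ≤ M) :
    RC (fromBlocks A B C D) M := by
  refine ⟨fun i => ?_, fun j => ?_⟩
  · rcases i with i | i <;> rw [Fintype.sum_sum_type]
    · exact (add_le_add (hA.1 i) (hB.1 i)).trans h1
    · exact (add_le_add (hC.1 i) (hD.1 i)).trans h2
  · rcases j with j | j <;> rw [Fintype.sum_sum_type]
    · exact (add_le_add (hA.2 j) (hC.2 j)).trans h3
    · exact (add_le_add (hB.2 j) (hD.2 j)).trans h4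

theorem walg_RC_cols {A : Matrix m n ℤ} {M : ℝ} (hA : RC A M) (hM : 0 ≤ M) :
    RC (fromCols A (0 : Matrix m l ℤ)) M ∧ RC (fromCols (0 : Matrix m l ℤ) A) M := by
  refine ⟨⟨fun i => ?_, fun j => ?_⟩, fun i => ?_, fun j => ?_⟩
  · simpa [Fintype.sum_sum_type] using hA.1 i
  · rcases j with j | j
    · exact hA.2 j
    · simpa using hM
  · simpa [Fintype.sum_sum_type] using hA.1 i
  · rcases j with j | j
    · simpa using hM
    · exact hA.2 j

theorem walg_RC_rows {A : Matrix m n ℤ} {M : ℝ} (hA : RC A M) (hM : 0 ≤ M) :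
    RC (fromRows A (0 : Matrix l n ℤ)) M ∧ RC (fromRows (0 : Matrix l n ℤ) A) M := by
  have := walg_RC_cols (l := l) hA.transpose hM
  exact ⟨by simpa [transpose_fromCols] using this.1.transpose,
    by simpa [transpose_fromCols] using this.2.transpose⟩

theorem walg_RC_ex (A : Matrix m n ℤ) : ∃ M : ℝ, 0 ≤ M ∧ RC A M := by
  refine ⟨∑ i, ∑ j, |(A i j : ℝ)|, by positivity, fun i => ?_, fun j => ?_⟩
  · exact Finset.single_le_sum (f := fun i => ∑ j, |(A i j : ℝ)|) (fun _ _ => by positivity)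
      (Finset.mem_univ i)
  · exact Finset.sum_le_sum fun i _ => Finset.single_le_sum (f := fun j => |(A i j : ℝ)|)
      (fun _ _ => abs_nonneg _) (Finset.mem_univ j)

end Aux

variable {um u0 u1 u2 : Type} [Fintype um] [Fintype u0] [Fintype u1] [Fintype u2]
  [DecidableEq u0] [DecidableEq u1] [DecidableEq u2]

omit [Fintype um] [Fintype u2] [DecidableEq u2] in
theorem walg_lev (F : Matrix u0 u1 ℤ) (L0 : u0 → Prop) (L1 : u1 → Prop) [DecidablePred L0]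
    [DecidablePred L1] (l : ∀ a b, F a b ≠ 0 → (L0 a ↔ L1 b)) :
    (walgI L0)ᵀ * F * walgI L1 * (walgI L1)ᵀ = (walgI L0)ᵀ * F ∧
      walgI L0 * ((walgI L0)ᵀ * F * walgI L1) = F * walgI L1 := by
  constructor
  · refine walg_col L1 fun a b hb => ?_
    have : ((walgI L0)ᵀ * F) a b = F a.1 b := by
      simp [walgI, mul_apply, one_apply]
    rw [this]
    by_contra h
    exact hb ((l _ _ h).1 a.2)
  · rw [Matrix.mul_assoc]
    refine walg_row L0 fun a b ha => ?_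
    have : (F * walgI L1) a b = F a b.1 := by
      simp [walgI, mul_apply, one_apply]
    rw [this]
    by_contra h
    exact ha ((l _ _ h).2 b.2)

theorem data2_cone (Fm : Matrix um u0 ℤ) (F0 : Matrix u0 u1 ℤ) (F1 : Matrix u1 u2 ℤ)
    (φ0 s0 : Matrix u0 u0 ℤ) (φ1 s1 : Matrix u1 u1 ℤ) (L0 : u0 → Prop) (L1 : u1 → Prop)
    (L2 : u2 → Prop) [DecidablePred L0] [DecidablePred L1] [DecidablePred L2]
    (hφ : F0 * φ1 = φ0 * F0) (hs : F0 * s1 = s0 * F0) (p0 : Push φ0 s0 L0) (p1 : Push φ1 s1 L1)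
    (l0 : ∀ a b, F0 a b ≠ 0 → (L0 a ↔ L1 b)) (l1 : ∀ a b, F1 a b ≠ 0 → (L1 a ↔ L2 b))
    {C δ M d : ℝ} (hC : 1 ≤ C) (hM : 1 ≤ M) (hδ : δ ≤ 1) (hd : 0 ≤ d)
    (c0 : (Fintype.card {a // L0 a} : ℝ) ≤ δ * d) (c1 : (Fintype.card {a // L1 a} : ℝ) ≤ δ * d)
    (c2 : (Fintype.card {a // L2 a} : ℝ) ≤ δ * d) (b0 : RC F0 C) (b1 : RC F1 C) (bφ : RC φ1 C)
    (bs : RC s1 M) :
    Data2 (fromBlocks F0 φ0 0 (-Fm)) (fromBlocks F1 φ1 0 (-F0)) F0 F1 (C ^ 2) δ
      (2 * M * C ^ 2) d := by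
  obtain ⟨a0, a0'⟩ := walg_lev F0 L0 L1 l0
  obtain ⟨a1, a1'⟩ := walg_lev F1 L1 L2 l1
  have hU0 := walg_col L0 p0.col
  have hV1 := walg_row L1 p1.row
  have r0 := walg_RC_I L0
  have r1 := walg_RC_I L1
  have r2 := walg_RC_I L2
  have hC0 : 0 ≤ C := by linarith
  have hM0 : 0 ≤ M := by linarith
  have hC2 : C ≤ C ^ 2 := by nlinarith
  have m1 : 1 ≤ M * C := by nlinarith
  have m2 : M * C ≤ M * C ^ 2 := by gcongr
  have m3 : M ≤ M * C := by nlinarith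
  have m4 : C ≤ M * C := by nlinarith
  have hδd : δ * d ≤ d := by nlinarith
  have rU : RC ((1 - s1 * φ1) * walgI L1) ((1 + M * C) * 1) :=
    (RC.one.sub (bs.mul bφ hM0 hC0)).mul r1 (by positivity) zero_le_one
  have fr : ∀ {p q : Type} [Fintype p] [Fintype q] (X : Matrix p q ℤ), RC X C →
      (Fintype.card q : ℝ) ≤ δ * d → frob (cm X) ≤ C ^ 2 * d := fun X hX hq =>
    (frob_le_of_col hX.2).trans (by gcongr; exact hq.trans hδd)
  refine ⟨{a // L0 a}, {a // L1 a}, {a // L1 a}, {a // L2 a}, inferInstance, inferInstance,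
    inferInstance, inferInstance, fromCols 0 (walgI L0)ᵀ, -((walgI L0)ᵀ * F0 * walgI L1),
    fromCols 0 (walgI L1)ᵀ, fromBlocks 0 0 s1 0, fromRows 0 ((1 - s1 * φ1) * walgI L1),
    fromCols (1 - φ1 * s1) 0, -(φ1 * ((1 - s1 * φ1) * walgI L1)), fromRows (walgI L1) 0,
    (walgI L1)ᵀ, (walgI L1)ᵀ * F1 * walgI L2, (walgI L2)ᵀ, fromRows (walgI L2) 0,
    ?_, a1.symm, ?_, fun x w hx hw => ?_, c0, c1, c1, c2, ?_, ?_,
    (walg_RC_cols r0.transpose zero_le_one).2.mono (by linarith),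
    (walg_RC_cols r1.transpose zero_le_one).2.mono (by linarith),
    walg_RC_blocks (RC.zero le_rfl) (RC.zero le_rfl) bs (RC.zero le_rfl) (by linarith)
      (by linarith) (by linarith) (by linarith),
    (walg_RC_rows rU (by positivity)).2.mono (by linarith),
    (walg_RC_cols (RC.one.sub (bφ.mul bs hC0 hM0)) (by positivity)).1.mono (by linarith),
    (walg_RC_neg (bφ.mul rU hC0 (by positivity))).mono (by nlinarith),
    r1.transpose.mono (by linarith), r2.transpose.mono (by linarith),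
    (walg_RC_rows r2 zero_le_one).1.mono (by linarith)⟩
  · rw [fromCols_mul_fromBlocks, mul_fromCols]
    simp [a0]
  · rw [fromRows_mul, fromBlocks_mul_fromRows, a1']
    simp
  · have e0 : F0 *ᵥ (x ∘ Sum.inl) + φ0 *ᵥ (x ∘ Sum.inr) = 0 := by
      rw [fromBlocks_mulVec] at hx
      ext i
      exact congrFun hx (Sum.inl i)
    have e1 : (walgI L0)ᵀ *ᵥ (x ∘ Sum.inr) = -(((walgI L0)ᵀ * F0 * walgI L1) *ᵥ w) := by
      rw [fromCols_mulVec, zero_mulVec, zero_add, neg_mulVec] at hw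
      exact hw
    set x1 := x ∘ Sum.inl with hx1
    set x0 := x ∘ Sum.inr with hx0
    set y := s1 *ᵥ x1 + ((1 - s1 * φ1) * walgI L1) *ᵥ w with hy
    have e2 : (1 - s0 * φ0) *ᵥ x0 = -(F0 *ᵥ (((1 - s1 * φ1) * walgI L1) *ᵥ w)) := by
      have e3 : F0 * ((1 - s1 * φ1) * walgI L1) = (1 - s0 * φ0) * (F0 * walgI L1) := by
        rw [← Matrix.mul_assoc, ← Matrix.mul_assoc]
        congr 1
        rw [Matrix.mul_sub, Matrix.sub_mul, ← Matrix.mul_assoc, hs, Matrix.mul_assoc s0, hφ,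
          Matrix.mul_one, Matrix.one_mul, Matrix.mul_assoc s0]
      rw [mulVec_mulVec, e3, ← a0', ← hU0, ← mulVec_mulVec, e1, mulVec_neg, mulVec_mulVec, hU0,
        Matrix.mul_assoc]
    have e4 : F0 *ᵥ y = -x0 := by
      have e5 : F0 *ᵥ x1 = -(φ0 *ᵥ x0) := eq_neg_of_add_eq_zero_left e0
      rw [hy, mulVec_add, mulVec_mulVec x1, hs, ← mulVec_mulVec, e5, ← neg_neg (F0 *ᵥ (_ *ᵥ w)),
        ← e2, sub_mulVec, one_mulVec, ← mulVec_mulVec, mulVec_neg]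
      abel
    have ez : fromCols (1 - φ1 * s1) 0 *ᵥ x + -(φ1 * ((1 - s1 * φ1) * walgI L1)) *ᵥ w =
        x1 - φ1 *ᵥ y := by
      rw [fromCols_mulVec, zero_mulVec, add_zero, neg_mulVec, sub_mulVec, one_mulVec, hy,
        mulVec_add, mulVec_mulVec, mulVec_mulVec]
      abel
    have ez' : walgI L1 *ᵥ ((walgI L1)ᵀ *ᵥ (x1 - φ1 *ᵥ y)) = x1 - φ1 *ᵥ y := by
      have e6 : x1 - φ1 *ᵥ y = (1 - φ1 * s1) *ᵥ (x1 - (φ1 * walgI L1) *ᵥ w) := by
        have e7 : φ1 * ((1 - s1 * φ1) * walgI L1) = (1 - φ1 * s1) * (φ1 * walgI L1) := by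
          rw [← Matrix.mul_assoc, ← Matrix.mul_assoc]
          congr 1
          noncomm_ring
        rw [hy, mulVec_add, mulVec_mulVec w, e7, mulVec_sub, mulVec_mulVec w, sub_mulVec,
          one_mulVec, mulVec_mulVec]
        abel
      rw [e6, mulVec_mulVec, mulVec_mulVec, Matrix.mul_assoc, hV1]
    rw [ez]
    refine ⟨by rw [mulVec_sub, mulVec_mulVec, hφ, ← mulVec_mulVec, e4, mulVec_neg,
      sub_neg_eq_add, e0], ?_⟩
    have ey : fromBlocks 0 0 s1 0 *ᵥ x + fromRows 0 ((1 - s1 * φ1) * walgI L1) *ᵥ w =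
        Sum.elim (0 : u2 → ℤ) y := by
      rw [fromBlocks_mulVec, fromRows_mulVec]
      ext i
      rcases i with i | i <;> simp [hy, hx1]
    rw [ey, fromBlocks_mulVec, fromRows_mulVec, ez']
    ext i
    rcases i with i | i
    · simp [hx1]
    · simp [neg_mulVec, e4, hx0]
  · exact fr _ (walg_RC_neg (by
      simpa using (r0.transpose.mul b0 zero_le_one hC0).mul r1 (by positivity) zero_le_one)) c1
  · exact fr _ (by
      simpa using (r1.transpose.mul b1 zero_le_one hC0).mul r2 (by positivity) zero_le_one) c2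

omit [DecidableEq u2] in
theorem cheap_cone (Fm : Matrix um u0 ℤ) (F0 : Matrix u0 u1 ℤ) (F1 : Matrix u1 u2 ℤ)
    (φ0 s0 : Matrix u0 u0 ℤ) (φ1 s1 : Matrix u1 u1 ℤ) (L0 : u0 → Prop) (L1 : u1 → Prop)
    [DecidablePred L0] [DecidablePred L1]
    (hs : F0 * s1 = s0 * F0) (p0 : Push φ0 s0 L0) (p1 : Push φ1 s1 L1) {δ d : ℝ}
    (c0 : (Fintype.card {a // L0 a} : ℝ) ≤ δ * d) (c1 : (Fintype.card {a // L1 a} : ℝ) ≤ δ * d) :
    ∃ M, Cheap (fromBlocks F0 φ0 0 (-Fm)) (fromBlocks F1 φ1 0 (-F0)) M (2 * δ) M d := by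
  have hU0 := walg_col L0 p0.col
  have hV1 := walg_row L1 p1.row
  obtain ⟨M1, h1, r1⟩ := walg_RC_ex
    (fromBlocks ((walgI L1)ᵀ * (1 - φ1 * s1)) 0 0 (walgI L0)ᵀ)
  obtain ⟨M2, h2, r2⟩ := walg_RC_ex (fromBlocks (walgI L1) 0 0 ((1 - s0 * φ0) * walgI L0))
  obtain ⟨M3, h3, r3⟩ := walg_RC_ex (fromBlocks (0 : Matrix u2 u1 ℤ) (0 : Matrix u2 u0 ℤ) s1 0)
  refine ⟨M1 + M2 + M3, _, inferInstance, _, _, _, fromBlocks 0 0 s0 0, ?_, ?_,
    (r1.mono (by linarith)).2, r1.mono (by linarith), r2.mono (by linarith),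
    r3.mono (by linarith)⟩
  · simp only [fromBlocks_multiply, fromBlocks_add, hU0, hV1, Matrix.mul_zero, Matrix.zero_mul,
      add_zero, zero_add, Matrix.neg_mul, hs]
    rw [← fromBlocks_one]
    simp
  · rw [Fintype.card_sum, Nat.cast_add]
    linarith

section Reindex

variable {n0 n1 n2 m0 m1 m2 : Type} [Fintype n0] [Fintype n1] [Fintype n2] [Fintype m0]
  [Fintype m1] [Fintype m2]

omit [DecidableEq u0] [DecidableEq u1] [DecidableEq u2] in
theorem Data2.reindex {Dm : Matrix n0 n1 ℤ} {D : Matrix n1 n2 ℤ} {Fm : Matrix u0 u1 ℤ}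
    {Fd : Matrix u1 u2 ℤ} {C δ M d : ℝ} (h : Data2 Dm D Fm Fd C δ M d) (e0 : m0 ≃ n0)
    (e1 : m1 ≃ n1) (e2 : m2 ≃ n2) :
    Data2 (Dm.submatrix e0 e1) (D.submatrix e1 e2) Fm Fd C δ M d := by
  obtain ⟨k1, k2, l1, l2, i1, i2, i3, i4, f, D', f', s, g', h, h', j, e, E', e', j', a1, a2, a3,
    a4, c1, c2, c3, c4, f1, f2, r1, r2, r3, r4, r5, r6, r7, r8, r9⟩ := h
  have id1 : ∀ {α : Type}, Function.Injective (id : α → α) := fun {_} => Function.injective_id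
  refine ⟨k1, k2, l1, l2, i1, i2, i3, i4, f.submatrix id e1, D', f'.submatrix id e2,
    s.submatrix e2 e1, g'.submatrix e2 id, h.submatrix id e1, h', j.submatrix e1 id, e, E', e',
    j'.submatrix e2 id, ?_, a2, ?_, fun x w hx hw => ?_, c1, c2, c3, c4, f1, f2,
    r1.submatrix id1 e1.injective, r2.submatrix id1 e2.injective,
    r3.submatrix e2.injective e1.injective, r4.submatrix e2.injective id1,
    r5.submatrix id1 e1.injective, r6, r7, r8, r9.submatrix e2.injective id1⟩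
  · rw [submatrix_mul_equiv, a1]
    rfl
  · rw [submatrix_mul_equiv, ← a3]
    rfl
  · rw [submatrix_mulVec_equiv] at hx hw
    obtain ⟨b1, b2⟩ := a4 (x ∘ e1.symm) w (by
      ext i
      simpa using congrFun hx (e0.symm i)) hw
    rw [submatrix_mulVec_equiv h]
    refine ⟨b1, ?_⟩
    have b3 : (s.submatrix e2 e1 *ᵥ x + g'.submatrix e2 id *ᵥ w) ∘ e2.symm =
        s *ᵥ (x ∘ e1.symm) + g' *ᵥ w := by
      rw [submatrix_mulVec_equiv]
      ext i
      simp [mulVec]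
    rw [submatrix_mulVec_equiv D, b3]
    ext i
    have := congrFun b2 (e1 i)
    rw [Function.comp_apply, e1.symm_apply_apply] at this
    exact this

theorem Cheap.reindex [DecidableEq n1] [DecidableEq m1] {Dm : Matrix n0 n1 ℤ}
    {D : Matrix n1 n2 ℤ} {C δ M d : ℝ} (h : Cheap Dm D C δ M d) (e0 : m0 ≃ n0) (e1 : m1 ≃ n1)
    (e2 : m2 ≃ n2) : Cheap (Dm.submatrix e0 e1) (D.submatrix e1 e2) C δ M d := by
  obtain ⟨κ, i, f, g, s, sm, a, c, r0, r1, r2, r3⟩ := h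
  refine ⟨κ, i, f.submatrix id e1, g.submatrix e1 id, s.submatrix e2 e1, sm.submatrix e1 e0, ?_,
    c, fun j => r0 (e1 j), r1.submatrix Function.injective_id e1.injective,
    r2.submatrix e1.injective Function.injective_id, r3.submatrix e2.injective e1.injective⟩
  rw [submatrix_mul_equiv, submatrix_mul_equiv, ← submatrix_one_equiv e1, ← a]
  rfl

end Reindex

end Pool.Agent.Lib.MP_fd3021_gt

/-! Pushing chains of a finite cover of a mapping torus to one fibre. -/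

namespace Pool.Agent.Lib.MP_fd3021_gt

open Matrix Filter

/-- the geometric series that pushes along `A` until the idempotent `1 - R` is met -/
theorem push_ring {S : Type} [Ring S] (A R : S) (k : ℕ) (hR : R * R = R)
    (hk : (R * A) ^ k * R = 0) :
    R * (1 - (1 - A) * ((∑ i ∈ Finset.range k, (R * A) ^ i) * R)) = 0 ∧
      (1 - ((∑ i ∈ Finset.range k, (R * A) ^ i) * R) * (1 - A)) * R = 0 := by
  set T := R * A with hT
  set P := ∑ i ∈ Finset.range k, T ^ i with hP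
  have h1 : R * (P * R) = P * R := by
    rw [hP, Finset.sum_mul, Finset.mul_sum]
    refine Finset.sum_congr rfl fun i _ => ?_
    rcases i with _ | i
    · rw [pow_zero, one_mul, hR]
    · rw [pow_succ', hT, ← mul_assoc, ← mul_assoc, ← mul_assoc, hR]
  have h2 : (1 - T) * P = 1 - T ^ k := mul_neg_geom_sum T k
  have h3 : P * (1 - T) = 1 - T ^ k := geom_sum_mul_neg T k
  constructor
  · calc R * (1 - (1 - A) * (P * R)) = R - R * (P * R) + T * (P * R) := by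
          rw [hT]; noncomm_ring
      _ = R - (1 - T) * P * R := by rw [h1]; noncomm_ring
      _ = T ^ k * R := by rw [h2]; noncomm_ring
      _ = 0 := hk
  · calc (1 - P * R * (1 - A)) * R = R - P * (R * R) + P * T * R := by
          rw [hT]; noncomm_ring
      _ = R - P * (1 - T) * R := by rw [hR]; noncomm_ring
      _ = T ^ k * R := by rw [h3]; noncomm_ring
      _ = 0 := hk

theorem wlev_nil {n : Type} [Fintype n] [DecidableEq n] {k : ℕ} [NeZero k] (lev : n → ZMod k)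
    (B : Matrix n n ℤ) (hB : ∀ x y, B x y ≠ 0 → lev x = lev y + 1) :
    (diagonal (fun x => if lev x = 0 then (0 : ℤ) else 1) * B) ^ k *
      diagonal (fun x => if lev x = 0 then (0 : ℤ) else 1) = 0 := by
  set R : Matrix n n ℤ := diagonal (fun x => if lev x = 0 then (0 : ℤ) else 1) with hR
  have key : ∀ i : ℕ, ∀ x y, ((R * B) ^ i * R) x y ≠ 0 →
      lev x = lev y + i ∧ ∀ j ≤ i, lev y + (j : ℕ) ≠ 0 := by
    intro i
    induction i with
    | zero =>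
      intro x y h
      rw [pow_zero, one_mul, hR] at h
      have hxy : x = y := by
        by_contra hne
        exact h (diagonal_apply_ne _ hne)
      subst hxy
      rw [diagonal_apply_eq] at h
      refine ⟨by simp, fun j hj => ?_⟩
      obtain rfl : j = 0 := by omega
      intro h0
      apply h
      rw [if_pos (by simpa using h0)]
    | succ i ih =>
      intro x y h
      rw [pow_succ', mul_assoc, Matrix.mul_apply] at h
      obtain ⟨z, _, hz⟩ := Finset.exists_ne_zero_of_sum_ne_zero h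
      have z1 := left_ne_zero_of_mul hz
      obtain ⟨z2, z3⟩ := ih z y (right_ne_zero_of_mul hz)
      rw [hR, diagonal_mul] at z1
      have z4 := hB _ _ (right_ne_zero_of_mul z1)
      have z5 : lev x ≠ 0 := fun h0 => left_ne_zero_of_mul z1 (if_pos h0)
      have z6 : lev x = lev y + ((i + 1 : ℕ) : ZMod k) := by
        rw [z4, z2]
        push_cast
        ring
      refine ⟨z6, fun j hj => ?_⟩
      rcases Nat.lt_or_ge i j with h' | h'
      · obtain rfl : j = i + 1 := by omega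
        rw [← z6]
        exact z5
      · exact z3 j h'
  ext x y
  by_contra h
  refine (key k x y h).2 (-lev y).val (ZMod.val_lt _).le ?_
  rw [ZMod.natCast_zmod_val, add_neg_cancel]

theorem wlev_comm {n m : Type} [Fintype n] [DecidableEq n] [Fintype m] [DecidableEq m]
    (D : Matrix n m ℤ) (T1 : Matrix n n ℤ) (T2 : Matrix m m ℤ) (h : D * T2 = T1 * D) (i : ℕ) :
    D * T2 ^ i = T1 ^ i * D := by
  induction i with
  | zero => simp
  | succ i ih => rw [pow_succ, pow_succ, ← Matrix.mul_assoc, ih, Matrix.mul_assoc, h,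
      Matrix.mul_assoc]

theorem wlev_RC_pow {n : Type} [Fintype n] [DecidableEq n] {T : Matrix n n ℤ} {C : ℝ}
    (hC : 0 ≤ C) (h : RC T C) (i : ℕ) : RC (T ^ i) (C ^ i) := by
  induction i with
  | zero => simpa using RC.one
  | succ i ih =>
    rw [pow_succ, pow_succ]
    exact ih.mul h (pow_nonneg hC _) hC

theorem wlev_RC_sum {n : Type} [Fintype n] [DecidableEq n] {T : Matrix n n ℤ} {C : ℝ}
    (hC : 0 ≤ C) (h : RC T C) (k : ℕ) :
    RC (∑ i ∈ Finset.range k, T ^ i) (∑ i ∈ Finset.range k, C ^ i) := by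
  induction k with
  | zero => simpa using RC.zero le_rfl
  | succ k ih =>
    rw [Finset.sum_range_succ, Finset.sum_range_succ]
    exact ih.add (wlev_RC_pow hC h k)

theorem wlev_RC_diag {n : Type} [Fintype n] [DecidableEq n] (L : n → Prop) [DecidablePred L] :
    RC (diagonal (fun x => if L x then (0 : ℤ) else 1)) 1 := by
  refine ⟨fun i => ?_, fun j => ?_⟩
  · rw [Finset.sum_eq_single i (fun j _ hj => by simp [diagonal_apply_ne _ hj.symm]) (by simp)]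
    by_cases h : L i <;> simp [h]
  · rw [Finset.sum_eq_single j (fun i _ hi => by simp [diagonal_apply_ne _ hi]) (by simp)]
    by_cases h : L j <;> simp [h]

theorem wlev_lev {G I J H : Type} [Group G] [Group H] (N : FiniteIndexNormalSubgroup G)
    (lev : QQ N →* H) (A : Matrix I J (MonoidAlgebra ℤ G)) (c : H)
    (hA : ∀ i j, ∀ g ∈ (A i j).coeff.support, lev (mkQ N g) = c) {x y}
    (h : rep N A x y ≠ 0) : lev y.2 = lev x.2 * c := by
  classical
  have h1 : x.2⁻¹ * y.2 ∈ (Finsupp.mapDomain (mkQ N) (A x.1 y.1).coeff).support :=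
    Finsupp.mem_support_iff.2 h
  obtain ⟨g, hg, hg'⟩ := Finset.mem_image.1 (Finsupp.mapDomain_support h1)
  have h2 := hA _ _ g hg
  rw [hg', map_mul, map_inv] at h2
  rw [← h2, mul_inv_cancel_left]

variable {G J : Type} [Group G] [Fintype J] [DecidableEq J] {deg : J → ℤ}
  {b A : Matrix J J (MonoidAlgebra ℤ G)}

theorem PhiQ_RC (deg : J → ℤ) (A : Matrix J J (MonoidAlgebra ℤ G)) :
    ∃ C : ℝ, 1 ≤ C ∧ ∀ N p, RC (PhiQ deg A N p) C := by
  obtain ⟨C, hC, h⟩ := rep_RC (1 - A)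
  refine ⟨C, hC, fun N p => ?_⟩
  exact (h N).transpose.submatrix
    (e := fun y : {i // deg i = p} × QQ N => (y.1.1, y.2))
    (e' := fun y : {i // deg i = p} × QQ N => (y.1.1, y.2))
    (Subtype.val_injective.prodMap Function.injective_id)
    (Subtype.val_injective.prodMap Function.injective_id)

theorem DQ_PhiQ (hb : ∀ i j, b i j ≠ 0 → deg i = deg j + 1)
    (hA : ∀ i j, A i j ≠ 0 → deg i = deg j) (hAb : A * b = b * A)
    (N : FiniteIndexNormalSubgroup G) (p : ℤ) :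
    DQ deg b N p * PhiQ deg A N (p + 1) = PhiQ deg A N p * DQ deg b N p := by
  have hc : (1 - A) * b = b * (1 - A) := by rw [sub_mul, mul_sub, one_mul, mul_one, hAb]
  ext x z
  have h1 := congrFun (congrFun (rep_mul N (1 - A) b) (z.1.1, z.2)) (x.1.1, x.2)
  have h2 := congrFun (congrFun (rep_mul N b (1 - A)) (z.1.1, z.2)) (x.1.1, x.2)
  rw [Matrix.mul_apply, ← lrep_block (deg := deg) (p + 1)] at h1
  · rw [Matrix.mul_apply, ← lrep_block (deg := deg) p] at h2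
    · rw [Matrix.mul_apply, Matrix.mul_apply]
      refine ((Finset.sum_congr rfl fun y _ => mul_comm _ _).trans h1.symm).trans ?_
      rw [hc, h2]
      exact Finset.sum_congr rfl fun y _ => mul_comm _ _
    · intro y hy
      have h3 := hb _ _ (rep_ne_zero N b (left_ne_zero_of_mul hy))
      have h4 := z.1.2
      dsimp only at h3
      omega
  · intro y hy
    have := hb _ _ (rep_ne_zero N b (right_ne_zero_of_mul hy))
    rw [this, x.1.2]

theorem wlev_B (deg : J → ℤ) (A : Matrix J J (MonoidAlgebra ℤ G))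
    (N : FiniteIndexNormalSubgroup G) (p : ℤ) (x y : {i // deg i = p} × QQ N) :
    (1 - PhiQ deg A N p : Matrix _ _ ℤ) x y = rep N A (y.1.1, y.2) (x.1.1, x.2) := by
  have h : rep N (1 - A) + rep N A = 1 := by rw [← rep_add, sub_add_cancel, rep_one]
  have h1 := congrFun (congrFun h (y.1.1, y.2)) (x.1.1, x.2)
  rw [Matrix.add_apply] at h1
  rw [Matrix.sub_apply, sub_eq_iff_eq_add, add_comm]
  refine Eq.trans ?_ h1.symm
  rw [Matrix.one_apply, Matrix.one_apply]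
  refine if_congr ⟨fun h => by rw [h], fun h => ?_⟩ rfl rfl
  rw [Prod.mk.injEq] at h
  exact Prod.ext (Subtype.ext h.1.symm) h.2.symm

theorem exists_push (φ : G →* Multiplicative ℤ) (hφ : Function.Surjective φ)
    (hb0 : ∀ i j, ∀ g ∈ (b i j).coeff.support, φ g = 1)
    (hA1 : ∀ i j, ∀ g ∈ (A i j).coeff.support, φ g = Multiplicative.ofAdd 1)
    (hb : ∀ i j, b i j ≠ 0 → deg i = deg j + 1)
    (hA : ∀ i j, A i j ≠ 0 → deg i = deg j) (hAb : A * b = b * A) {δ : ℝ} (hδ : 0 < δ) :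
    ∃ M : ℝ, 1 ≤ M ∧ ∀ᶠ N : FiniteIndexNormalSubgroup G in atBot,
      ∃ (L : QQ N → Prop) (_ : DecidablePred L)
        (s : ∀ p : ℤ, Matrix ({i // deg i = p} × QQ N) ({i // deg i = p} × QQ N) ℤ), ∀ p,
        Push (PhiQ deg A N p) (s p) (fun x => L x.2) ∧ RC (s p) M ∧
        DQ deg b N p * s (p + 1) = s p * DQ deg b N p ∧
        (∀ x y, DQ deg b N p x y ≠ 0 → (L x.2 ↔ L y.2)) ∧
        (Fintype.card {x : {i // deg i = p} × QQ N // L x.2} : ℝ) ≤ δ * dg N := by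
  classical
  obtain ⟨C, hC, hRC⟩ := PhiQ_RC deg A
  obtain ⟨k0, hk0⟩ := exists_nat_ge ((Fintype.card J : ℝ) / δ)
  set k := k0 + 1 with hk
  have : NeZero k := ⟨by omega⟩
  have hkJ : (Fintype.card J : ℝ) ≤ δ * k := by
    rw [div_le_iff₀ hδ] at hk0
    have : (k0 : ℝ) ≤ k := by rw [hk]; push_cast; linarith
    nlinarith
  let ψ : G →* Multiplicative (ZMod k) :=
    (AddMonoidHom.toMultiplicative (Int.castAddHom (ZMod k))).comp φ
  have hψ : ∀ g, ψ g = Multiplicative.ofAdd (((φ g).toAdd : ℤ) : ZMod k) := fun g => rfl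
  have hψs : Function.Surjective ψ := by
    intro t
    obtain ⟨z, hz⟩ := ZMod.intCast_surjective t.toAdd
    obtain ⟨g, hg⟩ := hφ (Multiplicative.ofAdd z)
    refine ⟨g, ?_⟩
    rw [hψ, hg, toAdd_ofAdd, hz, ofAdd_toAdd]
  have hS : 0 ≤ ∑ i ∈ Finset.range k, (1 + C) ^ i :=
    Finset.sum_nonneg fun i _ => pow_nonneg (by linarith) _
  refine ⟨1 + ∑ i ∈ Finset.range k, (1 + C) ^ i, by linarith, ?_⟩
  filter_upwards [eventually_le_atBot (FiniteIndexNormalSubgroup.ofSubgroup ψ.ker)] with N hN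
  let lev : QQ N →* Multiplicative (ZMod k) :=
    QuotientGroup.lift N.toSubgroup ψ fun g hg => hN hg
  have hlev : ∀ g, lev (mkQ N g) = ψ g := fun g => rfl
  let R : ∀ p : ℤ, Matrix ({i // deg i = p} × QQ N) ({i // deg i = p} × QQ N) ℤ := fun p =>
    diagonal fun x => if (lev x.2).toAdd = 0 then (0 : ℤ) else 1
  let B : ∀ p : ℤ, Matrix ({i // deg i = p} × QQ N) ({i // deg i = p} × QQ N) ℤ := fun p =>
    1 - PhiQ deg A N p
  have hD : ∀ p x y, DQ deg b N p x y ≠ 0 → lev x.2 = lev y.2 := by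
    intro p x y h
    have := wlev_lev N lev b 1 (fun i j g hg => by rw [hlev, hψ, hb0 i j g hg]; simp)
      (x := (y.1.1, y.2)) (y := (x.1.1, x.2)) h
    simpa using this
  have hB : ∀ p x y, B p x y ≠ 0 → (lev x.2).toAdd = (lev y.2).toAdd + 1 := by
    intro p x y h
    have h' : rep N A (y.1.1, y.2) (x.1.1, x.2) ≠ 0 := by
      rw [← wlev_B deg A N p x y]
      exact h
    have := wlev_lev N lev A (Multiplicative.ofAdd 1)
      (fun i j g hg => by rw [hlev, hψ, hA1 i j g hg]; simp) h'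
    rw [this]
    rfl
  have hRR : ∀ p, R p * R p = R p := by
    intro p
    simp only [R]
    rw [diagonal_mul_diagonal]
    congr 1
    funext x
    split_ifs <;> simp
  refine ⟨fun q => (lev q).toAdd = 0, inferInstance,
    fun p => (∑ i ∈ Finset.range k, (R p * B p) ^ i) * R p, fun p => ⟨?_, ?_, ?_, ?_, ?_⟩⟩
  · have hnil := wlev_nil (fun x : {i // deg i = p} × QQ N => (lev x.2).toAdd) (B p) (hB p)
    obtain ⟨h1, h2⟩ := push_ring (B p) (R p) k (hRR p) hnil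
    have e : 1 - B p = PhiQ deg A N p := sub_sub_cancel _ _
    rw [e] at h1 h2
    constructor
    · intro a c ha
      have := congrFun (congrFun h1 a) c
      simp only [R] at this
      rw [diagonal_mul, if_neg ha, one_mul] at this
      exact this
    · intro a c ha
      have := congrFun (congrFun h2 a) c
      simp only [R] at this
      rw [mul_diagonal, if_neg ha, mul_one] at this
      exact this
  · have hR1 : RC (R p) 1 := wlev_RC_diag _
    have hB1 : RC (B p) (1 + C) := RC.one.sub (hRC N p)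
    have h1 : RC (R p * B p) (1 + C) := by
      simpa using hR1.mul hB1 zero_le_one (by linarith)
    have h2 := (wlev_RC_sum (by linarith) h1 k).mul hR1 hS zero_le_one
    exact h2.mono (by linarith)
  · have c1 : DQ deg b N p * R (p + 1) = R p * DQ deg b N p := by
      ext x y
      simp only [R]
      rw [mul_diagonal, diagonal_mul, mul_comm]
      by_cases h : DQ deg b N p x y = 0
      · rw [h, mul_zero, mul_zero]
      · rw [hD p x y h]
    have c2 : DQ deg b N p * B (p + 1) = B p * DQ deg b N p := by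
      simp only [B]
      rw [Matrix.mul_sub, Matrix.sub_mul, Matrix.mul_one, Matrix.one_mul, DQ_PhiQ hb hA hAb]
    have c3 : DQ deg b N p * (R (p + 1) * B (p + 1)) = (R p * B p) * DQ deg b N p := by
      rw [← Matrix.mul_assoc, c1, Matrix.mul_assoc, c2, Matrix.mul_assoc]
    have c4 : DQ deg b N p * (∑ i ∈ Finset.range k, (R (p + 1) * B (p + 1)) ^ i) =
        (∑ i ∈ Finset.range k, (R p * B p) ^ i) * DQ deg b N p := by
      rw [Matrix.mul_sum, Matrix.sum_mul]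
      exact Finset.sum_congr rfl fun i _ => wlev_comm _ _ _ c3 i
    rw [← Matrix.mul_assoc, c4, Matrix.mul_assoc, c1, Matrix.mul_assoc]
  · intro x y h
    beta_reduce
    rw [hD p x y h]
  · have hs : Function.Surjective lev := by
      intro t
      obtain ⟨g, hg⟩ := hψs t
      exact ⟨mkQ N g, hg⟩
    have h1 := Subgroup.card_mul_index lev.ker
    rw [Subgroup.index_ker, MonoidHom.range_eq_top.2 hs, Subgroup.card_top] at h1
    have h2 : Nat.card (Multiplicative (ZMod k)) = k := by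
      rw [Nat.card_congr Multiplicative.toAdd, Nat.card_zmod]
    rw [h2] at h1
    have h3 : Fintype.card {x : {i // deg i = p} × QQ N // (lev x.2).toAdd = 0} ≤
        Fintype.card J * Nat.card lev.ker := by
      rw [Nat.card_eq_fintype_card, ← Fintype.card_prod]
      refine Fintype.card_le_of_injective
        (fun x => (x.1.1.1, ⟨x.1.2, MonoidHom.mem_ker.2 (toAdd_eq_zero.1 x.2)⟩)) ?_
      intro x y hxy
      rw [Prod.mk.injEq, Subtype.mk.injEq] at hxy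
      exact Subtype.ext (Prod.ext (Subtype.ext hxy.1) hxy.2)
    have h4 : dg N = (Nat.card lev.ker : ℝ) * k := by
      unfold dg
      rw [← Nat.card_eq_fintype_card, ← h1]
      push_cast
      rfl
    have h5 : (0 : ℝ) ≤ Nat.card lev.ker := Nat.cast_nonneg _
    calc (Fintype.card {x : {i // deg i = p} × QQ N // (lev x.2).toAdd = 0} : ℝ)
        ≤ Fintype.card J * Nat.card lev.ker := by exact_mod_cast h3
      _ ≤ δ * k * Nat.card lev.ker := mul_le_mul_of_nonneg_right hkJ h5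
      _ = δ * dg N := by rw [h4]; ring

end Pool.Agent.Lib.MP_fd3021_gt

/-! The mapping cone over the group ring; induction from a subgroup. -/

namespace Pool.Agent.Lib.MP_fd3021_gt

open Matrix MeasureTheory

variable {G J : Type} [Group G] [Fintype J] [DecidableEq J] {deg : J → ℤ}
  {b A : Matrix J J (MonoidAlgebra ℤ G)}

omit [Fintype J] in
theorem cone_deg (hb : ∀ i j, b i j ≠ 0 → deg i = deg j + 1)
    (hA : ∀ i j, A i j ≠ 0 → deg i = deg j) :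
    ∀ i j, cone b A i j ≠ 0 → degC deg i = degC deg j + 1 := by
  rintro (i | i) (j | j) h
  · exact hb i j h
  · exact absurd rfl h
  · change deg i + 1 = deg j + 1
    by_cases hij : i = j
    · rw [hij]
    · refine congrArg (· + 1) (hA i j fun h0 => h ?_)
      change (1 - A) i j = 0
      rw [Matrix.sub_apply, Matrix.one_apply_ne hij, h0, sub_zero]
  · change deg i + 1 = deg j + 1 + 1
    refine congrArg (· + 1) (hb i j fun h0 => h ?_)
    change (-b) i j = 0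
    rw [Matrix.neg_apply, h0, neg_zero]

theorem cone_sq (hbb : b * b = 0) (hAb : A * b = b * A) : cone b A * cone b A = 0 := by
  unfold cone
  rw [fromBlocks_multiply, ← fromBlocks_zero]
  congr 1
  · simp [hbb]
  · simp
  · rw [Matrix.sub_mul, Matrix.neg_mul, Matrix.mul_sub, Matrix.one_mul, Matrix.mul_one, hAb,
      add_neg_cancel]
  · simp [hbb]

/-- splitting the cells of the cone -/
def wcone_equiv (deg : J → ℤ) (Q : Type) (p : ℤ) : ({i // degC deg i = p + 1} × Q) ≃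
    ({i // deg i = p + 1} × Q) ⊕ ({i // deg i = p} × Q) where
  toFun x := match x with
    | (⟨Sum.inl i, h⟩, q) => Sum.inl (⟨i, h⟩, q)
    | (⟨Sum.inr i, h⟩, q) => Sum.inr (⟨i, add_right_cancel h⟩, q)
  invFun x := match x with
    | Sum.inl (i, q) => (⟨Sum.inl i.1, i.2⟩, q)
    | Sum.inr (i, q) => (⟨Sum.inr i.1, congrArg (· + 1) i.2⟩, q)
  left_inv := by
    rintro ⟨⟨i | i, h⟩, q⟩ <;> rfl
  right_inv := by
    rintro (⟨i, q⟩ | ⟨i, q⟩) <;> rfl

omit [Fintype J] in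
theorem DQ_cone (N : FiniteIndexNormalSubgroup G) :
    ∃ e : ∀ p : ℤ, ({i // degC deg i = p + 1} × QQ N) ≃
      ({i // deg i = p + 1} × QQ N) ⊕ ({i // deg i = p} × QQ N), ∀ p,
      DQ (degC deg) (cone b A) N (p + 1) =
        (fromBlocks (DQ deg b N (p + 1)) (PhiQ deg A N (p + 1)) 0 (-DQ deg b N p)).submatrix
          (e p) (e (p + 1)) := by
  refine ⟨wcone_equiv deg (QQ N), fun p => ?_⟩
  ext ⟨⟨i | i, hi⟩, q⟩ ⟨⟨j | j, hj⟩, r⟩
  · rfl
  · rfl
  · change (MonoidAlgebra.mapDomainRingHom ℤ (mkQ N) 0).coeff (r⁻¹ * q) = 0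
    simp
  · change (MonoidAlgebra.mapDomainRingHom ℤ (mkQ N) (-b j i)).coeff (r⁻¹ * q) =
      -(MonoidAlgebra.mapDomainRingHom ℤ (mkQ N) (b j i)).coeff (r⁻¹ * q)
    rw [map_neg, MonoidAlgebra.coeff_neg, Finsupp.neg_apply]

variable {H : Subgroup G} {b₀ : Matrix J J (MonoidAlgebra ℤ H)}

omit [Fintype J] [DecidableEq J] in
theorem wcone_ext_eq {I : Type} (c : Matrix I I (MonoidAlgebra ℤ H)) :
    ext c = c.map (MonoidAlgebra.mapDomainRingHom ℤ H.subtype) := rfl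

omit [Fintype J] [DecidableEq J] in
theorem wcone_adj_ext : adj (ext b₀) = ext (adj b₀) := by
  funext j i
  apply MonoidAlgebra.ext
  change Finsupp.mapDomain (·⁻¹) (Finsupp.mapDomain H.subtype (b₀ i j).coeff) =
    Finsupp.mapDomain H.subtype (Finsupp.mapDomain (·⁻¹) (b₀ i j).coeff)
  rw [← Finsupp.mapDomain_comp, ← Finsupp.mapDomain_comp]
  rfl

omit [DecidableEq J] in
theorem wcone_lap_ext (p : ℤ) : lap deg (ext b₀) p = ext (lap deg b₀ p) := by
  unfold lap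
  rw [wcone_adj_ext]
  simp only [wcone_ext_eq]
  rw [← Matrix.map_mul, ← Matrix.map_mul, ← Matrix.map_add _ (map_add _)]
  rfl

theorem wcone_coeff_one (a : MonoidAlgebra ℤ H) :
    (MonoidAlgebra.mapDomainRingHom ℤ H.subtype a).coeff 1 = a.coeff 1 :=
  Finsupp.mapDomain_apply (f := H.subtype) Subtype.val_injective a.coeff 1

omit [Fintype J] [DecidableEq J] in
theorem ext_ne_zero {i j : J} (h : ext b₀ i j ≠ 0) : b₀ i j ≠ 0 := by
  intro h0
  apply h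
  change MonoidAlgebra.mapDomainRingHom ℤ H.subtype (b₀ i j) = 0
  rw [h0, map_zero]

omit [Fintype J] [DecidableEq J] in
theorem ext_support (i j : J) : ∀ g ∈ (ext b₀ i j).coeff.support, g ∈ H := by
  classical
  intro g hg
  obtain ⟨x, -, rfl⟩ := Finset.mem_image.1
    (Finsupp.mapDomain_support (f := H.subtype) (s := (b₀ i j).coeff) hg)
  exact x.2

omit [DecidableEq J] in
theorem ext_sq (h : b₀ * b₀ = 0) : ext b₀ * ext b₀ = 0 := by
  rw [wcone_ext_eq, ← Matrix.map_mul, h, Matrix.map_zero _ (map_zero _)]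

theorem isSpec_ext {p : ℤ} {μ : Measure ℝ} (h : IsSpec (lap deg b₀ p) μ) :
    IsSpec (lap deg (ext b₀) p) μ := by
  refine ⟨h.1, h.2.1, fun k => ?_⟩
  rw [h.2.2 k, wcone_lap_ext, wcone_ext_eq, ← Matrix.map_pow]
  refine Finset.sum_congr rfl fun i _ => ?_
  rw [Matrix.map_apply, wcone_coeff_one]

end Pool.Agent.Lib.MP_fd3021_gt

/-! The finite level theorem for labelled fillings. -/

namespace Pool.Agent.Lib.MP_fd3021_gt

open Matrix

theorem finMain2 (n : ℕ) {C ε : ℝ} (hC : 1 ≤ C) (hε : 0 < ε) : ∃ δ > 0, ∀ M : ℝ, 1 ≤ M →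
    ∃ ζ > 0, ∀ η : ℝ, 0 < η → η ≤ 1 → ∀ d : ℝ, 0 < d →
    ∀ (J : ℤ → Type) [∀ p, Fintype (J p)] [∀ p, DecidableEq (J p)]
      (D : ∀ p, Matrix (J p) (J (p + 1)) ℤ) (q : ℤ),
      (∀ p, D p * D (p + 1) = 0) → (∀ p, p < 0 ∨ (n : ℤ) < p → IsEmpty (J p)) →
      (∀ p, (Fintype.card (J p) : ℝ) ≤ C * d) → (∀ p, RC (D p) C) →
      (∀ p, (cnt (lapR (cm (D p)) (cm (D (p + 1)))) η : ℝ) * (1 - Real.log η) ≤ ζ * d) →
      (∀ p : ℤ, 0 ≤ p + 1 → p + 1 < n → p + 1 ≠ q → ∃ κ : ℝ, κ * (1 - Real.log η) ≤ ζ * d ∧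
        Lab (D p) (D (p + 1)) C δ (M / η ^ 2) κ d) →
      -(ε * d) ≤ (-1 : ℝ) ^ q *
        (-(1 / 2) * ∑ p ∈ Finset.Icc (0 : ℤ) n, (-1 : ℝ) ^ p * p * ltr D η (p - 1)) := by
  have hn : (0 : ℝ) < n + 2 := by positivity
  set ε' := ε / (2 * (n + 2)) with hε'
  have hε0 : 0 < ε' := by positivity
  obtain ⟨a, ha, δ, hδ, hup⟩ := upper2 hC hε0
  refine ⟨δ, hδ, fun M hM => ?_⟩
  obtain ⟨ζ₀, hζ₀, hup⟩ := hup M hM
  set L := Real.log (Real.pi / a) with hL
  have hL1 : 0 < |L| + 1 := by positivity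
  refine ⟨min ζ₀ (ε' / (|L| + 1)), lt_min hζ₀ (by positivity), ?_⟩
  intro η h0 h1 d hd J _ _ D q hDD hE hcard hRC hcnt hdata
  have hlog : 1 ≤ 1 - Real.log η := by linarith [Real.log_nonpos h0.le h1]
  have hz : ∀ p, p < 0 ∨ (n : ℤ) < p + 1 → D p = 0 := by
    intro p hp
    rcases hp with hp | hp
    · have := hE p (Or.inl hp)
      ext i
      exact isEmptyElim i
    · have := hE (p + 1) (Or.inr hp)
      ext i j
      exact isEmptyElim j
  have hDR : ∀ p, cm (D p) * cm (D (p + 1)) = 0 := fun p => by rw [← cm_mul, hDD, cm_zero]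
  -- the real valued functions
  set S : ℤ → ℝ := fun p => Real.log (SS a (D p)) with hS
  set l : ℤ → ℝ := fun p => ell (cm (D p)) η with hl
  set N : ℤ → ℝ := fun p => (Fintype.card (J p) : ℝ) with hN
  set r : ℤ → ℝ := fun p =>
    trf ((cm (D p))ᵀ * cm (D p)) (fun x => if η ^ 2 < x then 1 else 0) with hr
  set k : ℤ → ℝ := fun p => (cnt (lapR (cm (D p)) (cm (D (p + 1)))) η : ℝ) with hk
  set E : ℤ → ℝ := fun p => S p + S (p + 1) - N (p + 1 + 1) / 2 * L + l (p + 1) / 2 with hEd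
  have hE0 : ∀ p, 0 ≤ E p := fun p => by
    have := lower ha h0 h1 (D p) (D (p + 1)) (hDD p)
    simp only [hEd, hS, hN, hl]
    linarith
  have hE1 : ∀ p, p + 1 ≠ q → E p ≤ ε' * d := fun p hp => by
    have hm : min ζ₀ (ε' / (|L| + 1)) * d ≤ ζ₀ * d :=
      mul_le_mul_of_nonneg_right (min_le_left _ _) hd.le
    obtain ⟨κ, hκ, hdat⟩ : ∃ κ : ℝ, κ * (1 - Real.log η) ≤ min ζ₀ (ε' / (|L| + 1)) * d ∧
        Lab (D p) (D (p + 1)) C δ (M / η ^ 2) κ d := by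
      by_cases hc : 0 ≤ p + 1 ∧ p + 1 < n
      · exact hdata p hc.1 hc.2 hp
      · refine ⟨_, hcnt p, lab_of_zero (D p) (D (p + 1)) (hz _ (by omega)) h0 hδ.le hd.le ?_
          (hcard _)⟩
        exact (one_le_div (by positivity)).2 ((pow_le_one₀ h0.le h1).trans hM)
    have := hup η h0 h1 d hd κ _ _ _ _ (D p) (D (p + 1)) (D (p + 1 + 1)) (hDD _) (hRC _)
      (hRC _) (hcard _) (hcard _) (hκ.trans hm) ((hcnt _).trans hm) hdat
    simp only [hEd, hS, hN, hl]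
    linarith
  have hk0 : ∀ p, 0 ≤ k p := fun p => Nat.cast_nonneg _
  have hk1 : ∀ p, k p * |L| ≤ ε' * d := fun p => by
    have h2 : k p ≤ ε' / (|L| + 1) * d :=
      (le_mul_of_one_le_right (hk0 p) hlog).trans ((hcnt p).trans
        (mul_le_mul_of_nonneg_right (min_le_right _ _) hd.le))
    have h3 : ε' / (|L| + 1) * d * (|L| + 1) = ε' * d := by field_simp
    nlinarith [abs_nonneg L, hk0 p]
  have hNk : ∀ p, N (p + 1) = k p + (r p + r (p + 1)) := fun p => fin_card _ _ (hDR p) η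
  have hlt : ∀ p, ltr D η p = l p + l (p + 1) := fun p =>
    trf_lap _ _ (hDR p) _ (by simp [psi])
  have hl0 : ∀ p, p < 0 ∨ (n : ℤ) < p + 1 → l p = 0 := fun p hp =>
    fin_trf_zero _ (hz p hp) _ (by simp [psi])
  have hr0 : ∀ p, p < 0 ∨ (n : ℤ) < p + 1 → r p = 0 := fun p hp =>
    fin_trf_zero _ (hz p hp) _ (by simp [sq_nonneg])
  have hS0 : ∀ p, p + 1 < 0 ∨ (n : ℤ) < p + 1 → S p = 0 := fun p hp => by
    have := hE (p + 1) hp
    simp only [hS]
    rw [SS_empty ha, Real.log_one]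
  -- telescoping
  have t1 : ∑ p ∈ Finset.Icc (0 : ℤ) n, (-1 : ℝ) ^ p * p * ltr D η (p - 1) =
      ∑ j ∈ Finset.range (n + 2), (-1 : ℝ) ^ j * l (j - 1) := by
    have := fin_tele2 (fun j => l (j - 1)) n
    rw [fin_Icc]
    simp only [Nat.cast_zero, Nat.cast_add, Nat.cast_one] at this
    rw [hl0 (0 - 1) (by omega), hl0 ((n : ℤ) + 1 - 1) (by omega)] at this
    simp only [sub_zero, mul_zero, add_zero] at this
    rw [← this]
    refine Finset.sum_congr rfl fun j _ => ?_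
    rw [hlt, zpow_natCast, show (j : ℤ) - 1 + 1 = j + 1 - 1 by ring]
    simp
  have t2 : ∑ j ∈ Finset.range (n + 2), (-1 : ℝ) ^ j * (S (j - 2) + S (j - 2 + 1)) = 0 := by
    have := fin_tele (fun j => S (j - 2)) (n + 2)
    simp only [Nat.cast_zero, Nat.cast_add, Nat.cast_one, Nat.cast_ofNat] at this
    rw [hS0 (0 - 2) (by omega), hS0 ((n : ℤ) + 2 - 2) (by omega)] at this
    simp only [mul_zero, sub_zero] at this
    rw [← this]
    refine Finset.sum_congr rfl fun j _ => ?_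
    rw [show (j : ℤ) - 2 + 1 = j + 1 - 2 by ring]
  have t3 : ∑ j ∈ Finset.range (n + 2), (-1 : ℝ) ^ j * (r (j - 1) + r (j - 1 + 1)) = 0 := by
    have := fin_tele (fun j => r (j - 1)) (n + 2)
    simp only [Nat.cast_zero, Nat.cast_add, Nat.cast_one, Nat.cast_ofNat] at this
    rw [hr0 (0 - 1) (by omega), hr0 ((n : ℤ) + 2 - 1) (by omega)] at this
    simp only [mul_zero, sub_zero] at this
    rw [← this]
    refine Finset.sum_congr rfl fun j _ => ?_
    rw [show (j : ℤ) - 1 + 1 = j + 1 - 1 by ring]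
  have t4 : -(1 / 2) * ∑ j ∈ Finset.range (n + 2), (-1 : ℝ) ^ j * l (j - 1) =
      ∑ j ∈ Finset.range (n + 2), -((-1 : ℝ) ^ j * (E (j - 2) + k (j - 1) / 2 * L)) := by
    have e1 : ∀ j : ℕ, -((-1 : ℝ) ^ j * (E (j - 2) + k (j - 1) / 2 * L)) =
        -(1 / 2) * ((-1 : ℝ) ^ j * l (j - 1)) - (-1 : ℝ) ^ j * (S (j - 2) + S (j - 2 + 1)) +
          L / 2 * ((-1 : ℝ) ^ j * (r (j - 1) + r (j - 1 + 1))) := fun j => by
      have e2 : (j : ℤ) - 2 + 1 = j - 1 := by ring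
      have e3 : E (j - 2) = S (j - 2) + S (j - 2 + 1) - N (j - 1 + 1) / 2 * L + l (j - 1) / 2 := by
        simp only [hEd]
        rw [e2]
      rw [e3, hNk]
      ring
    simp only [e1, Finset.sum_add_distrib, Finset.sum_sub_distrib, ← Finset.mul_sum, t2, t3]
    ring
  rw [t1, t4, Finset.mul_sum]
  have hb : ∀ j ∈ Finset.range (n + 2), -(2 * (ε' * d)) ≤
      (-1 : ℝ) ^ q * -((-1 : ℝ) ^ j * (E (j - 2) + k (j - 1) / 2 * L)) := by
    intro j _
    have a1 := hk1 (j - 1)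
    have a2 := hk0 (j - 1)
    have a3 := hE0 (j - 2)
    have a4 : 0 ≤ ε' * d := by positivity
    have a5 : |k (j - 1) * L| ≤ ε' * d := by rwa [abs_mul, abs_of_nonneg a2]
    obtain ⟨a6, a7⟩ := abs_le.1 a5
    by_cases hj : (j : ℤ) - 2 + 1 = q
    · have e : (-1 : ℝ) ^ q * (-1 : ℝ) ^ j = -1 := by
        rw [← zpow_natCast, ← zpow_add₀ (by norm_num), ← hj,
          show (j : ℤ) - 2 + 1 + j = 2 * (j - 1) + 1 by ring]
        exact Odd.neg_one_zpow ⟨_, rfl⟩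
      have : (-1 : ℝ) ^ q * -((-1 : ℝ) ^ j * (E (j - 2) + k (j - 1) / 2 * L)) =
          E (j - 2) + k (j - 1) * L / 2 := by
        linear_combination (-(E (j - 2) + k (j - 1) / 2 * L)) * e
      rw [this]
      linarith
    · have a8 := hE1 _ hj
      have e : (-1 : ℝ) ^ q * (-1 : ℝ) ^ j = 1 ∨ (-1 : ℝ) ^ q * (-1 : ℝ) ^ j = -1 := by
        rw [← zpow_natCast, ← zpow_add₀ (by norm_num)]
        rcases Int.even_or_odd (q + j) with h | h
        · exact Or.inl h.neg_one_zpow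
        · exact Or.inr h.neg_one_zpow
      rcases e with e | e
      · have : (-1 : ℝ) ^ q * -((-1 : ℝ) ^ j * (E (j - 2) + k (j - 1) / 2 * L)) =
            -(E (j - 2) + k (j - 1) * L / 2) := by
          linear_combination (-(E (j - 2) + k (j - 1) / 2 * L)) * e
        rw [this]
        linarith
      · have : (-1 : ℝ) ^ q * -((-1 : ℝ) ^ j * (E (j - 2) + k (j - 1) / 2 * L)) =
            E (j - 2) + k (j - 1) * L / 2 := by
          linear_combination (-(E (j - 2) + k (j - 1) / 2 * L)) * e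
        rw [this]
        linarith
  refine le_trans ?_ (Finset.sum_le_sum hb)
  rw [Finset.sum_const, Finset.card_range, nsmul_eq_mul, hε']
  push_cast
  apply le_of_eq
  field_simp

end Pool.Agent.Lib.MP_fd3021_gt

/-! Assembly for mapping tori. -/

namespace Pool.Agent.Lib.MP_fd3021_gt

open Matrix Filter MeasureTheory Topology

section Core

variable {G I : Type} [Group G] [Group.ResiduallyFinite G] [Fintype I] [DecidableEq I]
  {deg : I → ℤ} {c : Matrix I I (MonoidAlgebra ℤ G)}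

theorem core2 (n : ℕ) (h0 : ∀ i, 0 ≤ deg i) (hn : ∀ i, deg i ≤ n)
    (hg : ∀ i j, c i j ≠ 0 → deg i = deg j + 1) (hc : c * c = 0)
    (hb : ∀ p, spec (lap deg c p) {0} = 0) (q : ℤ)
    {C₁ : ℝ} (hC₁ : 0 ≤ C₁) (hdata : ∀ δ > 0, δ ≤ 1 → ∃ M : ℝ, 1 ≤ M ∧ ∀ ζ > 0,
      ∀ᶠ η : ℝ in 𝓝[>] 0, ∀ᶠ N : FiniteIndexNormalSubgroup G in atBot,
      ∀ p : ℤ, 0 ≤ p + 1 → p + 1 < n → p + 1 ≠ q → ∃ κ : ℝ, κ * (1 - Real.log η) ≤ ζ * dg N ∧
        Lab (DQ deg c N p) (DQ deg c N (p + 1)) C₁ δ (M / η ^ 2) κ (dg N)) :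
    0 ≤ (-1 : ℝ) ^ q * rho deg c := by
  classical
  obtain ⟨C₀, hC₀, hRC⟩ := rep_RC c
  set C : ℝ := C₀ + Fintype.card I + C₁ with hC
  have hI : (0 : ℝ) ≤ Fintype.card I := Nat.cast_nonneg _
  have hC1 : 1 ≤ C := by linarith
  set ld : ℤ → ℝ := fun p => ∫ x in Set.Ioi 0, Real.log x ∂(spec (lap deg c p)) with hld
  have hrho : rho deg c = -(1 / 2) * ∑ p ∈ Finset.Icc (0 : ℤ) n, (-1 : ℝ) ^ p * p * ld p := by
    unfold rho
    congr 1
    refine Finset.sum_subset (fun p hp => ?_) fun p _ hp => ?_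
    · obtain ⟨i, -, rfl⟩ := Finset.mem_image.1 hp
      exact Finset.mem_Icc.2 ⟨h0 i, hn i⟩
    · obtain ⟨K, hK⟩ := good_lap hg p
      obtain ⟨hfin, -, hm⟩ := hK.isSpec
      have hE : IsEmpty {i // deg i = p} :=
        ⟨fun i => hp (Finset.mem_image.2 ⟨i.1, Finset.mem_univ _, i.2⟩)⟩
      have h1 := hm 0
      simp only [pow_zero, integral_const, smul_eq_mul, mul_one, Finset.univ_eq_empty,
        Finset.sum_empty] at h1
      have h2 : spec (lap deg c p) = 0 := by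
        rwa [measureReal_eq_zero_iff, Measure.measure_univ_eq_zero] at h1
      simp [h2]
  refine le_of_forall_pos_le_add fun ε hε => ?_
  obtain ⟨δ, hδ, hfin⟩ := finMain2 n hC1 (half_pos hε)
  obtain ⟨M, hM, hdata⟩ := hdata _ (lt_min hδ one_pos) (min_le_right _ _)
  obtain ⟨ζ, hζ, hfin⟩ := hfin M hM
  have hn1 : (0 : ℝ) < (n + 1) * (n + 1) := by positivity
  set ζ' := min ζ (ε / ((n + 1) * (n + 1))) with hζ'
  have hζ0 : 0 < ζ' := lt_min hζ (by positivity)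
  have hη : ∀ᶠ η : ℝ in 𝓝[>] 0, ∀ p ∈ Finset.Icc (0 : ℤ) n,
      ∀ᶠ N : FiniteIndexNormalSubgroup G in atBot,
      (cnt (cm (rep N (lap deg c p))) η : ℝ) * (1 - Real.log η) ≤ ζ' * dg N ∧
      |trf (cm (rep N (lap deg c p))) (psi η) - dg N * ld p| ≤ ζ' * dg N := by
    rw [eventually_all_finset]
    intro p _
    obtain ⟨K, hK⟩ := good_lap hg p
    exact eta_main hK hK.isSpec (hb p) hζ0
  have hη' : ∀ᶠ η : ℝ in 𝓝[>] 0, η ∈ Set.Ioc (0 : ℝ) 1 := Ioc_mem_nhdsGT zero_lt_one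
  obtain ⟨η, ⟨hη0, hη1⟩, hη, hMp2⟩ := (hη'.and (hη.and (hdata ζ hζ))).exists
  rw [← eventually_all_finset] at hη
  obtain ⟨N, hN1, hN2⟩ := (hη.and hMp2).exists
  have hd := dg_pos N
  have hE : ∀ p : ℤ, p < 0 ∨ (n : ℤ) < p → IsEmpty ({i // deg i = p} × QQ N) := fun p hp =>
    ⟨fun x => by have := h0 x.1.1; have := hn x.1.1; have := x.1.2; omega⟩
  have key := hfin η hη0 hη1 (dg N) hd (fun p => {i // deg i = p} × QQ N) (DQ deg c N) q
    (DQ_mul hg hc N) hE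
    (fun p => (main_card deg N p).trans (mul_le_mul_of_nonneg_right (by linarith) hd.le))
    (fun p => (DQ_RC (hRC N) p).mono (by linarith))
    (fun p => by
      by_cases hp : p + 1 ∈ Finset.Icc (0 : ℤ) n
      · rw [← rep_lap hg]
        exact (hN1 _ hp).1.trans (mul_le_mul_of_nonneg_right (min_le_left _ _) hd.le)
      · have := hE (p + 1) (by rw [Finset.mem_Icc] at hp; omega)
        have e : cnt (lapR (cm (DQ deg c N p)) (cm (DQ deg c N (p + 1)))) η = 0 := by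
          simp [cnt]
        rw [e, Nat.cast_zero, zero_mul]
        positivity)
    (fun p a b e => by
      obtain ⟨κ, h1, h2⟩ := hN2 p a b e
      exact ⟨κ, h1, h2.mono hd.le hC₁ (by linarith) (min_le_left _ _) (by positivity) le_rfl⟩)
  set T : ℤ → ℝ := fun p => trf (cm (rep N (lap deg c p))) (psi η) with hT
  have hlt : ∀ p, ltr (DQ deg c N) η (p - 1) = T p := fun p => by
    have e : ∀ p, ltr (DQ deg c N) η p = T (p + 1) := fun p => by
      simp only [hT]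
      rw [rep_lap hg]
      rfl
    rw [e, sub_add_cancel]
  simp only [hlt] at key
  have hdiff : |∑ p ∈ Finset.Icc (0 : ℤ) n, (-1 : ℝ) ^ p * p * T p -
      dg N * ∑ p ∈ Finset.Icc (0 : ℤ) n, (-1 : ℝ) ^ p * p * ld p| ≤ ε * dg N := by
    rw [Finset.mul_sum, ← Finset.sum_sub_distrib]
    refine (Finset.abs_sum_le_sum_abs _ _).trans ?_
    have hb : ∀ p ∈ Finset.Icc (0 : ℤ) n,
        |(-1 : ℝ) ^ p * p * T p - dg N * ((-1 : ℝ) ^ p * p * ld p)| ≤
          (n + 1) * (ε / ((n + 1) * (n + 1)) * dg N) := fun p hp => by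
      have e : (-1 : ℝ) ^ p * p * T p - dg N * ((-1 : ℝ) ^ p * p * ld p) =
          (-1 : ℝ) ^ p * p * (T p - dg N * ld p) := by ring
      obtain ⟨a, b⟩ := Finset.mem_Icc.1 hp
      have a' : (0 : ℝ) ≤ p := by exact_mod_cast a
      have b' : (p : ℝ) ≤ n := by exact_mod_cast b
      rw [e, abs_mul, abs_mul, abs_neg_one_zpow, one_mul, abs_of_nonneg a']
      exact mul_le_mul (by linarith) ((hN1 p hp).2.trans
        (mul_le_mul_of_nonneg_right (min_le_right _ _) hd.le)) (abs_nonneg _) (by positivity)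
    refine (Finset.sum_le_sum hb).trans (le_of_eq ?_)
    rw [Finset.sum_const, Int.card_Icc, nsmul_eq_mul]
    have : ((n : ℤ) + 1 - 0).toNat = n + 1 := by omega
    rw [this]
    push_cast
    field_simp
  obtain ⟨d1, d2⟩ := abs_le.1 hdiff
  rw [hrho]
  have hq : (-1 : ℝ) ^ q = 1 ∨ (-1 : ℝ) ^ q = -1 := by
    rcases Int.even_or_odd q with h | h
    · exact Or.inl h.neg_one_zpow
    · exact Or.inr h.neg_one_zpow
  refine le_of_mul_le_mul_left ?_ hd
  rcases hq with hq | hq <;> rw [hq] at key ⊢ <;> nlinarith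

end Core

variable {G J : Type} [Group G] [Group.ResiduallyFinite G] [Fintype J] [DecidableEq J]
  {deg : J → ℤ} {b A : Matrix J J (MonoidAlgebra ℤ G)}

theorem cone_atom (φ : G →* Multiplicative ℤ) (hφ : Function.Surjective φ)
    (hb0 : ∀ i j, ∀ g ∈ (b i j).coeff.support, φ g = 1)
    (hA1 : ∀ i j, ∀ g ∈ (A i j).coeff.support, φ g = Multiplicative.ofAdd 1)
    (hb : ∀ i j, b i j ≠ 0 → deg i = deg j + 1)
    (hA : ∀ i j, A i j ≠ 0 → deg i = deg j) (hAb : A * b = b * A) (p : ℤ) :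
    spec (lap (degC deg) (cone b A) p) {0} = 0 := by
  obtain ⟨p, rfl⟩ : ∃ p', p = p' + 1 + 1 := ⟨p - 2, by ring⟩
  have hg := cone_deg hb hA
  obtain ⟨K, hK⟩ := good_lap hg (p + 1 + 1)
  refine atom_zero hK hK.isSpec fun δ hδ => ?_
  obtain ⟨M, -, hM⟩ := exists_push φ hφ hb0 hA1 hb hA hAb (half_pos hδ)
  refine hM.mono fun N hN => ?_
  obtain ⟨L, _, s, hs⟩ := hN
  obtain ⟨e, he⟩ := DQ_cone (deg := deg) (b := b) (A := A) N
  obtain ⟨M', h⟩ := cheap_cone (DQ deg b N p) (DQ deg b N (p + 1)) (DQ deg b N (p + 1 + 1))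
    _ _ _ _ _ _ (hs (p + 1)).2.2.1 (hs (p + 1)).1 (hs (p + 1 + 1)).1 (hs (p + 1)).2.2.2.2
    (hs (p + 1 + 1)).2.2.2.2
  have h' := h.reindex (e p) (e (p + 1)) (e (p + 1 + 1))
  rw [← he, ← he] at h'
  rw [rep_lap hg]
  exact h'.ker_le.trans (le_of_eq (by ring))

theorem cone_sign (φ : G →* Multiplicative ℤ) (hφ : Function.Surjective φ)
    (hb0 : ∀ i j, ∀ g ∈ (b i j).coeff.support, φ g = 1)
    (hA1 : ∀ i j, ∀ g ∈ (A i j).coeff.support, φ g = Multiplicative.ofAdd 1)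
    (h0 : ∀ i, 0 ≤ deg i) (hb : ∀ i j, b i j ≠ 0 → deg i = deg j + 1)
    (hA : ∀ i j, A i j ≠ 0 → deg i = deg j) (hbb : b * b = 0) (hAb : A * b = b * A) (m : ℤ)
    (hm : ∀ p, p ≠ m → spec (lap deg b p) {0} = 0) :
    DetAcyclic (degC deg) (cone b A) ∧ 0 ≤ (-1 : ℝ) ^ m * rho (degC deg) (cone b A) := by
  have hg := cone_deg hb hA
  have hat := cone_atom φ hφ hb0 hA1 hb hA hAb
  refine ⟨detAcyclic_of hg hat, ?_⟩
  obtain ⟨n, hn⟩ : ∃ n : ℕ, ∀ i, degC deg i ≤ n :=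
    ⟨Finset.univ.sup fun i => (degC deg i).toNat, fun i => (Int.self_le_toNat _).trans
      (Int.ofNat_le.2 (Finset.le_sup (f := fun i => (degC deg i).toNat) (Finset.mem_univ i)))⟩
  obtain ⟨C₁, hC₁, hR₁⟩ := rep_RC b
  obtain ⟨C₂, hC₂, hR₂⟩ := PhiQ_RC deg A
  obtain ⟨C, hC, a₁, a₂⟩ : ∃ C : ℝ, 1 ≤ C ∧ C₁ ≤ C ∧ C₂ ≤ C :=
    ⟨C₁ + C₂, by linarith, by linarith, by linarith⟩
  refine core2 n (fun i => ?_) hn hg (cone_sq hbb hAb) hat m (C₁ := 2 * C ^ 2) (by positivity)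
    fun δ hδ hδ1 => ?_
  · rcases i with i | i
    · exact h0 i
    · exact (h0 i).trans (Int.le_add_one le_rfl)
  obtain ⟨M, hM1, hM⟩ := exists_push φ hφ hb0 hA1 hb hA hAb (half_pos hδ)
  have hM2 : 1 ≤ 2 * M * C ^ 2 := by nlinarith [one_le_pow₀ (n := 2) hC]
  refine ⟨25 * (2 * M * C ^ 2) ^ 4, by nlinarith [one_le_pow₀ (n := 4) hM2], fun ζ hζ => ?_⟩
  have e₁ : ∀ᶠ η : ℝ in 𝓝[>] 0, ∀ p ∈ Finset.Icc (0 : ℤ) n,
      ∀ᶠ N : FiniteIndexNormalSubgroup G in atBot,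
      (cnt (cm (rep N (lap (degC deg) (cone b A) p))) η : ℝ) * (1 - Real.log η) ≤
        ζ / 2 * dg N ∧ (p ≠ m →
      (cnt (cm (rep N (lap deg b p))) η : ℝ) * (1 - Real.log η) ≤ ζ / 2 * dg N) := by
    rw [eventually_all_finset]
    intro p _
    obtain ⟨K, hK⟩ := good_lap hg p
    obtain ⟨K', hK'⟩ := good_lap hb p
    have t₁ := eta_main hK hK.isSpec (hat p) (half_pos hζ)
    by_cases hp : p = m
    · exact t₁.mono fun η h => h.mono fun N h => ⟨h.1, fun c => absurd hp c⟩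
    · exact (t₁.and (eta_main hK' hK'.isSpec (hm p hp) (half_pos hζ))).mono fun η h =>
        (h.1.and h.2).mono fun N h => ⟨h.1.1, fun _ => h.2.1⟩
  filter_upwards [e₁, Ioc_mem_nhdsGT (zero_lt_one' ℝ)] with η h₁ hη
  rw [← eventually_all_finset] at h₁
  filter_upwards [h₁, hM] with N k₁ hN p p0 pn pm
  obtain ⟨p, rfl⟩ : ∃ p', p = p' + 1 := ⟨p - 1, by ring⟩
  obtain ⟨L, _, s, hs⟩ := hN
  obtain ⟨e, he⟩ := DQ_cone (deg := deg) (b := b) (A := A) N
  have hd := (dg_pos N).le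
  have h := data2_cone (DQ deg b N p) (DQ deg b N (p + 1)) (DQ deg b N (p + 1 + 1))
    _ _ _ _ _ _ (fun x => L x.2) (DQ_PhiQ hb hA hAb N (p + 1)) (hs (p + 1)).2.2.1 (hs (p + 1)).1
    (hs (p + 1 + 1)).1 (hs (p + 1)).2.2.2.1 (hs (p + 1 + 1)).2.2.2.1 hC hM1 (by linarith) hd
    (hs (p + 1)).2.2.2.2 (hs (p + 1 + 1)).2.2.2.2 (hs (p + 1 + 1 + 1)).2.2.2.2
    ((DQ_RC (hR₁ N) _).mono a₁) ((DQ_RC (hR₁ N) _).mono a₁) ((hR₂ N _).mono a₂)
    (hs (p + 1 + 1)).2.1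
  have h' := h.reindex (e p) (e (p + 1)) (e (p + 1 + 1))
  rw [← he, ← he] at h'
  have h'' := h'.lab (DQ_mul hg (cone_sq hbb hAb) N _) (DQ_mul hb hbb N _) (one_le_pow₀ hC)
    (by linarith) hM2 hd hη.1 hη.2
  rw [show 2 * (δ / 2) = δ by ring, ← rep_lap hg, ← rep_lap hb] at h''
  obtain ⟨k₂, k₃⟩ := k₁ (p + 1 + 1) (Finset.mem_Icc.2 ⟨p0, pn.le⟩)
  exact ⟨_, by linarith [k₃ pm], h''⟩

theorem fibred (φ : G →* Multiplicative ℤ) (hφ : Function.Surjective φ)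
    (b₀ : Matrix J J (MonoidAlgebra ℤ φ.ker))
    (hA1 : ∀ i j, ∀ g ∈ (A i j).coeff.support, φ g = Multiplicative.ofAdd 1)
    (h0 : ∀ i, 0 ≤ deg i) (hb : ∀ i j, b₀ i j ≠ 0 → deg i = deg j + 1)
    (hA : ∀ i j, A i j ≠ 0 → deg i = deg j) (hbb : b₀ * b₀ = 0)
    (hAb : A * ext b₀ = ext b₀ * A) (m : ℤ)
    (hm : ∀ p, p ≠ m → spec (lap deg b₀ p) {0} = 0) :
    DetAcyclic (degC deg) (cone (ext b₀) A) ∧
      0 ≤ (-1 : ℝ) ^ m * rho (degC deg) (cone (ext b₀) A) := by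
  have hb' : ∀ i j, ext b₀ i j ≠ 0 → deg i = deg j + 1 := fun i j h => hb i j (ext_ne_zero h)
  refine cone_sign φ hφ (fun i j g hg => ext_support i j g hg) hA1 h0 hb' hA (ext_sq hbb) hAb m
    fun p hp => ?_
  obtain ⟨K, hK⟩ := good_lap hb' p
  obtain ⟨K₀, hK₀⟩ := good_lap hb p
  rw [spec_unique hK hK.isSpec (isSpec_ext hK₀.isSpec)]
  exact hm p hp

end Pool.Agent.Lib.MP_fd3021_gt
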