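import Pool.Agent.Lib.MP_fd3021_gt.LDefs

/-! The chain complex of a mapping torus. -/

namespace Pool.Agent.Lib.MP_fd3021_gt

variable {G J : Type}

/-- A matrix over the group ring of a subgroup, viewed over the group ring of `G`. -/
noncomputable def ext [Group G] {H : Subgroup G} (b : Matrix J J (MonoidAlgebra ℤ H)) :
    Matrix J J (MonoidAlgebra ℤ G) :=
  fun i j => (b i j).mapDomain (↑)

/-- The differential `(x, y) ↦ (x b + y (1 - A), - y b)` of the mapping cone of `1 - A`. -/
noncomputable def cone [Group G] [DecidableEq J] (b A : Matrix J J (MonoidAlgebra ℤ G)) :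
    Matrix (J ⊕ J) (J ⊕ J) (MonoidAlgebra ℤ G) :=
  Matrix.fromBlocks b 0 (1 - A) (-b)

end Pool.Agent.Lib.MP_fd3021_gt
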