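import Pool.Agent.Lib.MP_fd3021_gt.XDefs
import Pool.Agent.Lib.MP_fd3021_gt.WA

/-! Comparison of a resolution over `ℤ G` with the mapping cone built from the kernel. -/

namespace Pool.Agent.Lib.MP_fd3021_gt

open Matrix

section Lift

variable {R X Y : Type} [Ring R] [Fintype X]

/-- Building a matrix row by row, by induction on the degree. -/
theorem xalg_rows (dx : X → ℤ) (cx : Matrix X X R) (h0 : ∀ i, 0 ≤ dx i)
    (hx : ∀ i j, cx i j ≠ 0 → dx i = dx j + 1) (r : ℤ) (P : X → (Y → R) → (Y → R) → Prop)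
    (step : ∀ (F : Matrix X Y R) (i : X), dx i ≤ r →
      (∀ i', dx i' < dx i → P i' (F i') (cx i' ᵥ* F)) → ∃ y, P i y (cx i ᵥ* F)) :
    ∃ F : Matrix X Y R, (∀ i, dx i ≤ r → P i (F i) (cx i ᵥ* F)) ∧ ∀ i, r < dx i → F i = 0 := by
  classical
  have key : ∀ k : ℕ, ∃ F : Matrix X Y R,
      (∀ i, dx i < k → dx i ≤ r → P i (F i) (cx i ᵥ* F)) ∧ ∀ i, r < dx i → F i = 0 := by
    intro k
    induction k with
    | zero => exact ⟨0, fun i hi => absurd (h0 i) (by push_cast at hi; omega), fun _ _ => rfl⟩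
    | succ k ih =>
      obtain ⟨F, hF, hF0⟩ := ih
      have hs : ∀ i, dx i = k ∧ dx i ≤ r → ∃ y, P i y (cx i ᵥ* F) := fun i hi =>
        step F i hi.2 fun i' hi' => hF i' (by omega) (by omega)
      choose y hy using hs
      let F' : Matrix X Y R := fun i => if h : dx i = k ∧ dx i ≤ r then y i h else F i
      have hv : ∀ i, dx i ≤ k → cx i ᵥ* F' = cx i ᵥ* F := by
        intro i hi
        funext j
        simp only [vecMul, dotProduct]
        refine Finset.sum_congr rfl fun l _ => ?_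
        by_cases hl : cx i l = 0
        · rw [hl, zero_mul, zero_mul]
        · have := hx i l hl
          have h2 : ¬(dx l = k ∧ dx l ≤ r) := by omega
          simp only [F', dif_neg h2]
      refine ⟨F', fun i hi hir => ?_, fun i hi => ?_⟩
      · rw [hv i (by push_cast at hi; omega)]
        by_cases h : dx i = k ∧ dx i ≤ r
        · simp only [F', dif_pos h]; exact hy i h
        · simp only [F', dif_neg h]
          exact hF i (by push_cast at hi; omega) hir
      · have h2 : ¬(dx i = k ∧ dx i ≤ r) := by omega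
        simp only [F', dif_neg h2]; exact hF0 i hi
  obtain ⟨F, hF, hF0⟩ := key (r + 1).toNat
  exact ⟨F, fun i hi => hF i (by have := h0 i; omega) hi, hF0⟩

/-- The part of a vector in one degree. -/
theorem xalg_part (dx : X → ℤ) (cx : Matrix X X R) (hx : ∀ i j, cx i j ≠ 0 → dx i = dx j + 1)
    (k : ℤ) (y w : X → R) (hy : y ᵥ* cx = w) (hw : ∀ j, w j ≠ 0 → dx j + 1 = k) :
    (fun i => if dx i = k then y i else 0) ᵥ* cx = w := by
  funext j
  by_cases hj : dx j + 1 = k
  · rw [← hy]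
    simp only [vecMul, dotProduct]
    refine Finset.sum_congr rfl fun l _ => ?_
    by_cases hl : cx l j = 0
    · rw [hl, mul_zero, mul_zero]
    · rw [if_pos (by have := hx l j hl; omega)]
  · have : w j = 0 := by by_contra h; exact hj (hw j h)
    rw [this]
    simp only [vecMul, dotProduct]
    refine Finset.sum_eq_zero fun l _ => ?_
    by_cases hl : cx l j = 0
    · rw [hl, mul_zero]
    · rw [if_neg (by have := hx l j hl; omega), zero_mul]

theorem xalg_congr (x : X → R) (M N : Matrix X Y R) (h : ∀ i, x i ≠ 0 → M i = N i) :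
    x ᵥ* M = x ᵥ* N := by
  funext j
  simp only [vecMul, dotProduct]
  refine Finset.sum_congr rfl fun l _ => ?_
  by_cases hl : x l = 0
  · rw [hl, zero_mul, zero_mul]
  · rw [h l hl]

theorem xalg_supp (x : X → R) (M : Matrix X Y R) {j : Y} (h : (x ᵥ* M) j ≠ 0) :
    ∃ i, x i ≠ 0 ∧ M i j ≠ 0 := by
  simp only [vecMul, dotProduct] at h
  obtain ⟨i, -, hi⟩ := Finset.exists_ne_zero_of_sum_ne_zero h
  exact ⟨i, left_ne_zero_of_mul hi, right_ne_zero_of_mul hi⟩

theorem xalg_row (M : Matrix Y X R) {Z : Type} (N : Matrix X Z R) (i : Y) :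
    (M * N) i = M i ᵥ* N := rfl

end Lift

section Aug

variable {G X Y : Type} [Group G] [Fintype X] [Fintype Y]

/-- The augmentation as a ring homomorphism. -/
noncomputable def augR (G : Type) [Group G] : MonoidAlgebra ℤ G →+* ℤ :=
  (MonoidAlgebra.lift ℤ ℤ G 1).toRingHom

theorem aug_eq (a : MonoidAlgebra ℤ G) : aug a = augR G a := by
  change _ = MonoidAlgebra.lift ℤ ℤ G 1 a
  rw [MonoidAlgebra.lift_apply]
  simp [aug]

theorem augR_single (g : G) (n : ℤ) : augR G (MonoidAlgebra.single g n) = n := by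
  change MonoidAlgebra.lift ℤ ℤ G 1 _ = n
  simp

/-- Evaluation of the augmentation of a complex. -/
noncomputable def Ev (ε : X → ℤ) (x : X → MonoidAlgebra ℤ G) : ℤ := ∑ i, augR G (x i) * ε i

theorem Ev_vecMul (ε : Y → ℤ) (x : X → MonoidAlgebra ℤ G) (F : Matrix X Y (MonoidAlgebra ℤ G)) :
    Ev ε (x ᵥ* F) = ∑ i, augR G (x i) * Ev ε (F i) := by
  simp only [Ev, vecMul, dotProduct, map_sum, map_mul, Finset.sum_mul, Finset.mul_sum, mul_assoc]
  exact Finset.sum_comm

theorem Ev_of_deg {d : X → ℤ} {ε : X → ℤ} (hε : ∀ i, d i ≠ 0 → ε i = 0)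
    {x : X → MonoidAlgebra ℤ G} (hx : ∀ i, x i ≠ 0 → d i ≠ 0) : Ev ε x = 0 := by
  refine Finset.sum_eq_zero fun i _ => ?_
  by_cases h : x i = 0
  · rw [h, map_zero, zero_mul]
  · rw [hε i (hx i h), mul_zero]

theorem Ev_add (ε : X → ℤ) (x y : X → MonoidAlgebra ℤ G) : Ev ε (x + y) = Ev ε x + Ev ε y := by
  simp only [Ev, Pi.add_apply, map_add, add_mul, Finset.sum_add_distrib]

theorem Ev_sub (ε : X → ℤ) (x y : X → MonoidAlgebra ℤ G) : Ev ε (x - y) = Ev ε x - Ev ε y := by
  simp only [Ev, Pi.sub_apply, map_sub, sub_mul, Finset.sum_sub_distrib]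

/-- Lifting the identity of the trivial module to a chain map, with entries in `L`. -/
theorem xalg_chain (L : AddSubgroup (MonoidAlgebra ℤ G)) (r : ℤ) {dx : X → ℤ}
    {cx : Matrix X X (MonoidAlgebra ℤ G)} {εx : X → ℤ} {dy : Y → ℤ}
    {cy : Matrix Y Y (MonoidAlgebra ℤ G)} {εy : Y → ℤ} (h0 : ∀ i, 0 ≤ dx i)
    (hx : ∀ i j, cx i j ≠ 0 → dx i = dx j + 1) (hxx : ∀ i, dx i ≤ r → cx i ᵥ* cx = 0)
    (hεx : ∀ i, dx i ≠ 0 → εx i = 0) (hεc : ∀ i, dx i ≤ r → Ev εx (cx i) = 0)
    (hL : ∀ i j, ∀ a ∈ L, cx i j * a ∈ L) (g0 : ∀ i, 0 ≤ dy i)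
    (hy : ∀ i j, cy i j ≠ 0 → dy i = dy j + 1) (hεy : ∀ i, dy i ≠ 0 → εy i = 0)
    (y0 : Y → MonoidAlgebra ℤ G) (hy0 : ∀ j, y0 j ∈ L) (hy1 : Ev εy y0 = 1)
    (hex : ∀ w : Y → MonoidAlgebra ℤ G, (∀ j, w j ∈ L) → (∀ j, r ≤ dy j → w j = 0) →
      w ᵥ* cy = 0 → Ev εy w = 0 → ∃ y, (∀ j, y j ∈ L) ∧ y ᵥ* cy = w) :
    ∃ F : Matrix X Y (MonoidAlgebra ℤ G), (∀ i j, F i j ≠ 0 → dx i = dy j) ∧ (∀ i j, F i j ∈ L) ∧
      ∀ i, dx i ≤ r → F i ᵥ* cy = cx i ᵥ* F ∧ Ev εy (F i) = εx i := by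
  obtain ⟨F, hF, hF0⟩ := xalg_rows dx cx h0 hx r
    (fun i (y w : Y → MonoidAlgebra ℤ G) => (∀ j, y j ≠ 0 → dx i = dy j) ∧ (∀ j, y j ∈ L) ∧
      y ᵥ* cy = w ∧ Ev εy y = εx i) (by
    intro F i hi ih
    by_cases hi0 : dx i = 0
    · have hc : cx i = 0 := by
        funext j; by_contra h; have := hx i j h; have := h0 j; omega
      refine ⟨fun j => if dy j = 0 then εx i • y0 j else 0, fun j hj => ?_, fun j => ?_, ?_, ?_⟩
      · by_contra h; exact hj (if_neg (by omega))
      · dsimp only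
        split_ifs
        · exact L.zsmul_mem (hy0 j) _
        · exact L.zero_mem
      · rw [hc, zero_vecMul]
        funext j
        by_contra h
        obtain ⟨l, h1, h2⟩ := xalg_supp _ _ h
        have := hy l j h2
        have := g0 j
        exact h1 (if_neg (by omega))
      · refine Eq.trans ?_ (show εx i * Ev εy y0 = εx i by rw [hy1, mul_one])
        rw [Ev, Ev, Finset.mul_sum]
        refine Finset.sum_congr rfl fun j _ => ?_
        split_ifs with h
        · rw [map_zsmul, smul_eq_mul, mul_assoc]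
        · rw [hεy j h, mul_zero, mul_zero, mul_zero]
    · have hw : ∀ j, (cx i ᵥ* F) j ≠ 0 → dy j + 1 = dx i := by
        intro j hj
        obtain ⟨l, h1, h2⟩ := xalg_supp _ _ hj
        have := hx i l h1
        have := (ih l (by omega)).1 j h2
        omega
      obtain ⟨y, hyL, hyc⟩ := hex (cx i ᵥ* F) (fun j => by
          simp only [vecMul, dotProduct]
          refine L.sum_mem fun l _ => ?_
          by_cases hl : cx i l = 0
          · rw [hl, zero_mul]; exact L.zero_mem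
          · exact hL i l _ ((ih l (by have := hx i l hl; omega)).2.1 j))
        (fun j hj => by by_contra h; have := hw j h; omega)
        (by
          rw [vecMul_vecMul, xalg_congr (cx i) (F * cy) (cx * F) fun l hl =>
            (ih l (by have := hx i l hl; omega)).2.2.1, ← vecMul_vecMul, hxx i hi, zero_vecMul])
        (by
          rw [Ev_vecMul, ← hεc i hi, Ev]
          refine Finset.sum_congr rfl fun l _ => ?_
          by_cases hl : cx i l = 0
          · rw [hl, map_zero, zero_mul, zero_mul]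
          · rw [(ih l (by have := hx i l hl; omega)).2.2.2])
      refine ⟨fun j => if dy j = dx i then y j else 0, fun j hj => ?_, fun j => ?_,
        xalg_part dy cy hy _ y _ hyc hw, ?_⟩
      · by_contra h; exact hj (if_neg fun h' => h h'.symm)
      · dsimp only
        split_ifs
        · exact hyL j
        · exact L.zero_mem
      · rw [hεx i hi0]
        refine Ev_of_deg hεy fun j hj h => hj (if_neg (by omega)))
  refine ⟨F, fun i j h => ?_, fun i j => ?_, fun i hi => (hF i hi).2.2⟩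
  · by_cases hi : dx i ≤ r
    · exact (hF i hi).1 j h
    · exact absurd (congrFun (hF0 i (by omega)) j) h
  · by_cases hi : dx i ≤ r
    · exact (hF i hi).2.1 j
    · rw [congrFun (hF0 i (by omega)) j]; exact L.zero_mem

/-- A chain map lifting the identity is homotopic to the identity. -/
theorem xalg_homotopy [DecidableEq X] (r : ℤ) {d : X → ℤ} {c : Matrix X X (MonoidAlgebra ℤ G)}
    {ε : X → ℤ} (h0 : ∀ i, 0 ≤ d i) (hx : ∀ i j, c i j ≠ 0 → d i = d j + 1) (hcc : c * c = 0)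
    (hε : ∀ i, d i ≠ 0 → ε i = 0)
    (hex : ∀ w : X → MonoidAlgebra ℤ G, (∀ j, r ≤ d j → w j = 0) → w ᵥ* c = 0 → Ev ε w = 0 →
      ∃ y, y ᵥ* c = w)
    (β : Matrix X X (MonoidAlgebra ℤ G)) (hβ : ∀ i j, β i j ≠ 0 → d i = d j)
    (hβc : ∀ i, d i < r → β i ᵥ* c = c i ᵥ* β) (hβε : ∀ i, d i < r → Ev ε (β i) = 0) :
    ∃ s : Matrix X X (MonoidAlgebra ℤ G), (∀ i j, s i j ≠ 0 → d i + 1 = d j) ∧
      ∀ i, d i < r → s i ᵥ* c + c i ᵥ* s = β i := by
  obtain ⟨s, hs, hs0⟩ := xalg_rows d c h0 hx (r - 1)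
    (fun i (y w : X → MonoidAlgebra ℤ G) => (∀ j, y j ≠ 0 → d i + 1 = d j) ∧
      y ᵥ* c + w = β i) (by
    intro F i hi ih
    have hw1 : ∀ j, (c i ᵥ* F) j ≠ 0 → d j = d i ∧ d i ≠ 0 := by
      intro j hj
      obtain ⟨l, h1, h2⟩ := xalg_supp _ _ hj
      have := hx i l h1
      have := (ih l (by omega)).1 j h2
      have := h0 l
      omega
    have hw : ∀ j, (β i - c i ᵥ* F) j ≠ 0 → d j + 1 = d i + 1 := by
      intro j hj
      by_cases h1 : β i j = 0
      · rw [Pi.sub_apply, h1, zero_sub, neg_ne_zero] at hj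
        rw [(hw1 j hj).1]
      · rw [hβ i j h1]
    obtain ⟨y, hyc⟩ := hex (β i - c i ᵥ* F)
      (fun j hj => by by_contra h; have := hw j h; omega)
      (by
        rw [sub_vecMul, hβc i (by omega), vecMul_vecMul,
          xalg_congr (c i) (F * c) (β - c * F) fun l hl =>
            eq_sub_of_add_eq (ih l (by have := hx i l hl; omega)).2,
          vecMul_sub, ← vecMul_vecMul, ← xalg_row c c, hcc, sub_sub_cancel]
        exact zero_vecMul F)
      (by
        rw [Ev_sub, hβε i (by omega), Ev_of_deg hε fun j hj => by have := hw1 j hj; omega,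
          sub_zero])
    refine ⟨fun j => if d j = d i + 1 then y j else 0, fun j hj => ?_, ?_⟩
    · by_contra h; exact hj (if_neg fun h' => h h'.symm)
    · rw [xalg_part d c hx _ y _ hyc hw, sub_add_cancel])
  refine ⟨s, fun i j h => ?_, fun i hi => (hs i (by omega)).2⟩
  by_cases hi : d i ≤ r - 1
  · exact (hs i hi).1 j h
  · exact absurd (congrFun (hs0 i (by omega)) j) h

end Aug

section Level

variable {G : Type} [Group G] (φ : G →* Multiplicative ℤ)

/-- The elements of the group ring supported in one level. -/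
def Lev (k : Multiplicative ℤ) : AddSubgroup (MonoidAlgebra ℤ G) where
  carrier := {a | ∀ g, φ g ≠ k → a.coeff g = 0}
  add_mem' := fun ha hb g hg => by
    rw [MonoidAlgebra.coeff_add, Finsupp.add_apply, ha g hg, hb g hg, add_zero]
  zero_mem' := fun _ _ => rfl
  neg_mem' := fun ha g hg => by rw [MonoidAlgebra.coeff_neg, Finsupp.neg_apply, ha g hg, neg_zero]

/-- Inclusion of the group ring of the kernel. -/
noncomputable abbrev inK : MonoidAlgebra ℤ φ.ker →+* MonoidAlgebra ℤ G :=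
  MonoidAlgebra.mapDomainRingHom ℤ φ.ker.subtype

/-- Projection to the group ring of the quotient. -/
noncomputable abbrev prZ : MonoidAlgebra ℤ G →+* MonoidAlgebra ℤ (Multiplicative ℤ) :=
  MonoidAlgebra.mapDomainRingHom ℤ φ

/-- The part of `a` in the coset `t K`, moved to `K`. -/
noncomputable def cosetPart (t : G) (a : MonoidAlgebra ℤ G) : MonoidAlgebra ℤ φ.ker :=
  ⟨a.coeff.comapDomain (fun x : φ.ker => t * x)
    fun _ _ _ _ h => Subtype.ext (mul_left_cancel h)⟩

variable {φ}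

theorem cosetPart_coeff (t : G) (a : MonoidAlgebra ℤ G) (x : φ.ker) :
    (cosetPart φ t a).coeff x = a.coeff (t * x) := rfl

theorem inK_single (x : φ.ker) (n : ℤ) :
    inK φ (MonoidAlgebra.single x n) = MonoidAlgebra.single (x : G) n :=
  MonoidAlgebra.mapDomain_single

theorem cosetPart_mul (t : G) (a : MonoidAlgebra ℤ G) (u : MonoidAlgebra ℤ φ.ker) :
    cosetPart φ t (a * inK φ u) = cosetPart φ t a * u := by
  ext x
  rw [cosetPart_coeff]
  induction u using MonoidAlgebra.induction_linear with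
  | zero => simp
  | add u v hu hv =>
    simp only [map_add, mul_add, MonoidAlgebra.coeff_add, Finsupp.add_apply, hu, hv]
  | single y n =>
    rw [inK_single, MonoidAlgebra.coeff_mul_single_apply, MonoidAlgebra.coeff_mul_single_apply,
      cosetPart_coeff, Subgroup.coe_mul, Subgroup.coe_inv, mul_assoc]

theorem cosetPart_sum {X : Type} (t : G) (s : Finset X) (a : X → MonoidAlgebra ℤ G) :
    cosetPart φ t (∑ i ∈ s, a i) = ∑ i ∈ s, cosetPart φ t (a i) := by
  ext x
  simp only [cosetPart_coeff, MonoidAlgebra.coeff_sum, Finsupp.finsetSum_apply]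

theorem cosetPart_back (t : G) (a : MonoidAlgebra ℤ G) (g : G) :
    (MonoidAlgebra.single t 1 * inK φ (cosetPart φ t a)).coeff g =
      if φ g = φ t then a.coeff g else 0 := by
  rw [MonoidAlgebra.coeff_single_mul_apply, one_mul]
  split_ifs with h
  · have hm : t⁻¹ * g ∈ φ.ker := by rw [MonoidHom.mem_ker, map_mul, map_inv, h, inv_mul_cancel]
    refine (Finsupp.mapDomain_apply (f := φ.ker.subtype) Subtype.val_injective _
      (⟨_, hm⟩ : φ.ker)).trans ?_
    rw [cosetPart_coeff, mul_inv_cancel_left]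
  · refine Finsupp.mapDomain_of_notMem_range (f := φ.ker.subtype) _ _ ?_
    rintro ⟨x, hx⟩
    have hm : t⁻¹ * g ∈ φ.ker := hx ▸ x.2
    rw [MonoidHom.mem_ker, map_mul, map_inv, inv_mul_eq_one] at hm
    exact h hm.symm

theorem augR_map {H : Type} [Group H] (ψ : H →* G) (u : MonoidAlgebra ℤ H) :
    augR G (MonoidAlgebra.mapDomainRingHom ℤ ψ u) = augR H u := by
  induction u using MonoidAlgebra.induction_linear with
  | zero => simp
  | add u v hu hv => simp only [map_add, hu, hv]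
  | single y n =>
    rw [show MonoidAlgebra.mapDomainRingHom ℤ ψ (MonoidAlgebra.single y n) =
      MonoidAlgebra.single (ψ y) n from MonoidAlgebra.mapDomain_single, augR_single, augR_single]

theorem prZ_single (g : G) (n : ℤ) :
    prZ φ (MonoidAlgebra.single g n) = MonoidAlgebra.single (φ g) n :=
  MonoidAlgebra.mapDomain_single

theorem prZ_inK (u : MonoidAlgebra ℤ φ.ker) :
    prZ φ (inK φ u) = MonoidAlgebra.single 1 (augR _ u) := by
  induction u using MonoidAlgebra.induction_linear with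
  | zero => simp
  | add u v hu hv => simp only [map_add, hu, hv, MonoidAlgebra.single_add]
  | single y n => rw [inK_single, prZ_single, augR_single, MonoidHom.mem_ker.1 y.2]

theorem lev_eq {t : G} {a : MonoidAlgebra ℤ G} (ha : a ∈ Lev φ (φ t)) :
    MonoidAlgebra.single t 1 * inK φ (cosetPart φ t a) = a := by
  ext g
  rw [cosetPart_back]
  split_ifs with h
  · rfl
  · exact (ha g h).symm

theorem lev_mem (t : G) (u : MonoidAlgebra ℤ φ.ker) :
    MonoidAlgebra.single t 1 * inK φ u ∈ Lev φ (φ t) := by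
  intro g hg
  have h1 : cosetPart φ t (MonoidAlgebra.single t 1) = 1 := by
    ext x
    rw [cosetPart_coeff, MonoidAlgebra.one_def, MonoidAlgebra.coeff_single,
      MonoidAlgebra.coeff_single]
    classical
    rw [Finsupp.single_apply, Finsupp.single_apply]
    refine if_congr ⟨fun h => Subtype.ext (mul_eq_left.1 h.symm).symm, fun h => ?_⟩ rfl rfl
    rw [← h, Subgroup.coe_one, mul_one]
  have h2 : u = cosetPart φ t (MonoidAlgebra.single t 1 * inK φ u) := by
    rw [cosetPart_mul, h1, one_mul]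
  rw [h2, cosetPart_back, if_neg hg]

theorem lev_single (t : G) : MonoidAlgebra.single t 1 ∈ Lev φ (φ t) := by
  have := lev_mem (φ := φ) t 1
  rwa [map_one, mul_one] at this

theorem lev_inK (u : MonoidAlgebra ℤ φ.ker) : inK φ u ∈ Lev φ (φ 1) := by
  have := lev_mem (φ := φ) 1 u
  rwa [← MonoidAlgebra.one_def, one_mul] at this

theorem lev_mul {k : Multiplicative ℤ} (u : MonoidAlgebra ℤ φ.ker) {a : MonoidAlgebra ℤ G}
    (ha : a ∈ Lev φ k) : inK φ u * a ∈ Lev φ k := by
  induction u using MonoidAlgebra.induction_linear with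
  | zero => rw [map_zero, zero_mul]; exact zero_mem _
  | add u v hu hv => rw [map_add, add_mul]; exact add_mem hu hv
  | single y n =>
    intro g hg
    rw [inK_single, MonoidAlgebra.coeff_single_mul_apply, ha _ ?_, mul_zero]
    rwa [map_mul, map_inv, MonoidHom.mem_ker.1 y.2, inv_one, one_mul]

theorem prZ_back (t : G) (u : MonoidAlgebra ℤ φ.ker) :
    prZ φ (MonoidAlgebra.single t 1 * inK φ u) = MonoidAlgebra.single (φ t) (augR _ u) := by
  rw [map_mul, prZ_single, prZ_inK, MonoidAlgebra.single_mul_single, mul_one, one_mul]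

theorem augR_back (t : G) (u : MonoidAlgebra ℤ φ.ker) :
    augR G (MonoidAlgebra.single t 1 * inK φ u) = augR _ u := by
  rw [map_mul, augR_single, one_mul, augR_map]

theorem prZ_lev {t : G} {a : MonoidAlgebra ℤ G} (ha : a ∈ Lev φ (φ t)) :
    prZ φ a = MonoidAlgebra.single (φ t) (augR G a) := by
  rw [← lev_eq ha, prZ_back, augR_back]

theorem level_sum {σ : Multiplicative ℤ → G} (hσ : ∀ k, φ (σ k) = k) (S : Finset (Multiplicative ℤ))
    {a : MonoidAlgebra ℤ G} (hS : ∀ g, a.coeff g ≠ 0 → φ g ∈ S) :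
    ∑ k ∈ S, MonoidAlgebra.single (σ k) 1 * inK φ (cosetPart φ (σ k) a) = a := by
  ext g
  simp only [MonoidAlgebra.coeff_sum, Finsupp.finsetSum_apply, cosetPart_back, hσ]
  rw [Finset.sum_ite_eq]
  split_ifs with h
  · rfl
  · by_contra h'; exact h (hS g fun h0 => h' h0.symm)

theorem prZ_coeff (hφ : Function.Surjective φ) (t : G) (a : MonoidAlgebra ℤ G) :
    (prZ φ a).coeff (φ t) = augR _ (cosetPart φ t a) := by
  classical
  choose σ hσ using hφ
  have hs : ∀ k, φ (Function.update σ (φ t) t k) = k := by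
    intro k
    by_cases h : k = φ t
    · rw [h, Function.update_self]
    · rw [Function.update_of_ne h, hσ]
  conv_lhs => rw [← level_sum hs (insert (φ t) (a.coeff.support.image φ)) (a := a) fun g hg =>
    Finset.mem_insert_of_mem (Finset.mem_image_of_mem _ (Finsupp.mem_support_iff.2 hg))]
  simp only [map_sum, prZ_back, hs, MonoidAlgebra.coeff_sum, Finsupp.finsetSum_apply,
    MonoidAlgebra.coeff_single, Finsupp.single_apply]
  rw [Finset.sum_ite_eq', if_pos (Finset.mem_insert_self _ _), Function.update_self]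

/-- The generator of the group ring of `ℤ`. -/
noncomputable abbrev TZ : MonoidAlgebra ℤ (Multiplicative ℤ) :=
  MonoidAlgebra.single (Multiplicative.ofAdd 1) 1

theorem one_sub_TZ : 1 - TZ ≠ 0 := by
  intro h
  have := congrArg (fun a : MonoidAlgebra ℤ (Multiplicative ℤ) => a.coeff 1) (sub_eq_zero.1 h)
  simp only [MonoidAlgebra.one_def, MonoidAlgebra.coeff_single, Finsupp.single_eq_same] at this
  rw [Finsupp.single_eq_of_ne (by decide)] at this
  exact one_ne_zero this

theorem TZ_dvd (q : MonoidAlgebra ℤ (Multiplicative ℤ)) :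
    1 - TZ ∣ q - MonoidAlgebra.single 1 (augR _ q) := by
  have key : ∀ k : ℤ, 1 - TZ ∣ MonoidAlgebra.single (Multiplicative.ofAdd k) (1 : ℤ) - 1 := by
    have hm : ∀ k : ℤ, MonoidAlgebra.single (Multiplicative.ofAdd (k + 1)) (1 : ℤ) =
        MonoidAlgebra.single (Multiplicative.ofAdd k) (1 : ℤ) * TZ := fun k => by
      rw [MonoidAlgebra.single_mul_single, ofAdd_add, mul_one]
    intro k
    induction k using Int.induction_on with
    | zero => rw [ofAdd_zero, ← MonoidAlgebra.one_def, sub_self]; exact dvd_zero _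
    | succ k ih =>
      obtain ⟨w, hw⟩ := ih
      exact ⟨w - MonoidAlgebra.single (Multiplicative.ofAdd (k : ℤ)) 1, by
        rw [hm]; linear_combination hw⟩
    | pred k ih =>
      obtain ⟨w, hw⟩ := ih
      have := hm (-k - 1)
      rw [sub_add_cancel] at this
      exact ⟨w + MonoidAlgebra.single (Multiplicative.ofAdd (-(k : ℤ) - 1)) 1, by
        linear_combination hw - this⟩
  induction q using MonoidAlgebra.induction_linear with
  | zero => simp
  | add u v hu hv =>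
    rw [map_add, MonoidAlgebra.single_add, add_sub_add_comm]; exact dvd_add hu hv
  | single y n =>
    have := (key y.toAdd).mul_left (MonoidAlgebra.single 1 n)
    rw [augR_single]
    rwa [mul_sub, ofAdd_toAdd, MonoidAlgebra.single_mul_single, one_mul, mul_one, mul_one] at this

theorem prZ_surj (hφ : Function.Surjective φ) (q : MonoidAlgebra ℤ (Multiplicative ℤ)) :
    ∃ p, prZ φ p = q := by
  induction q using MonoidAlgebra.induction_linear with
  | zero => exact ⟨0, map_zero _⟩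
  | add u v hu hv =>
    obtain ⟨p, rfl⟩ := hu
    obtain ⟨p', rfl⟩ := hv
    exact ⟨p + p', map_add _ _ _⟩
  | single y n =>
    obtain ⟨g, rfl⟩ := hφ y
    exact ⟨_, prZ_single g n⟩

end Level

section Cone

variable {G J : Type} [Group G] [Fintype J] {φ : G →* Multiplicative ℤ} {dj : J → ℤ}
  {b : Matrix J J (MonoidAlgebra ℤ φ.ker)} {ε : J → ℤ} {r : ℤ}

theorem cosetPart_vecMul (t : G) (x : J → MonoidAlgebra ℤ G) :
    (fun i => cosetPart φ t (x i)) ᵥ* b = fun j => cosetPart φ t ((x ᵥ* ext b) j) := by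
  funext j
  simp only [vecMul, dotProduct, cosetPart_sum]
  exact Finset.sum_congr rfl fun i _ => (cosetPart_mul t (x i) (b i j)).symm

theorem back_vecMul (t : G) (y : J → MonoidAlgebra ℤ φ.ker) :
    (fun i => MonoidAlgebra.single t 1 * inK φ (y i)) ᵥ* ext b =
      fun j => MonoidAlgebra.single t 1 * inK φ ((y ᵥ* b) j) := by
  funext j
  simp only [vecMul, dotProduct, map_sum, map_mul, Finset.mul_sum, mul_assoc]
  rfl

theorem coset_fill (hex : ∀ x : J → MonoidAlgebra ℤ φ.ker, (∀ i, r ≤ dj i → x i = 0) →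
      x ᵥ* b = 0 → Ev ε x = 0 → ∃ y, y ᵥ* b = x) (t : G) (x : J → MonoidAlgebra ℤ G)
    (h1 : ∀ i, r ≤ dj i → x i = 0) (h2 : x ᵥ* ext b = 0)
    (h3 : Ev ε (fun i => cosetPart φ t (x i)) = 0) :
    ∃ y : J → MonoidAlgebra ℤ G, (∀ j, y j ∈ Lev φ (φ t)) ∧
      y ᵥ* ext b = fun j => MonoidAlgebra.single t 1 * inK φ (cosetPart φ t (x j)) := by
  have hz : cosetPart φ t 0 = 0 := by ext x; rfl
  obtain ⟨y, hy⟩ := hex (fun i => cosetPart φ t (x i)) (fun i hi => by rw [h1 i hi, hz])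
    (by rw [cosetPart_vecMul, h2]; funext j; exact hz) h3
  exact ⟨_, fun j => lev_mem t (y j), by rw [back_vecMul, hy]⟩

/-- The augmentation with values in the group ring of `ℤ`. -/
noncomputable def EZ (φ : G →* Multiplicative ℤ) (ε : J → ℤ) (x : J → MonoidAlgebra ℤ G) :
    MonoidAlgebra ℤ (Multiplicative ℤ) := ∑ i, ε i • prZ φ (x i)

theorem EZ_add (x y : J → MonoidAlgebra ℤ G) : EZ φ ε (x + y) = EZ φ ε x + EZ φ ε y := by
  simp only [EZ, Pi.add_apply, map_add, smul_add, Finset.sum_add_distrib]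

theorem EZ_sub (x y : J → MonoidAlgebra ℤ G) : EZ φ ε (x - y) = EZ φ ε x - EZ φ ε y := by
  simp only [EZ, Pi.sub_apply, map_sub, smul_sub, Finset.sum_sub_distrib]

theorem augR_EZ (x : J → MonoidAlgebra ℤ G) : augR _ (EZ φ ε x) = Ev ε x := by
  simp only [EZ, Ev, map_sum, map_zsmul, augR_map, smul_eq_mul, mul_comm]

theorem EZ_vecMul (x : J → MonoidAlgebra ℤ G) (F : Matrix J J (MonoidAlgebra ℤ G)) :
    EZ φ ε (x ᵥ* F) = ∑ i, prZ φ (x i) * EZ φ ε (F i) := by
  simp only [EZ, vecMul, dotProduct, map_sum, map_mul, Finset.smul_sum, Finset.mul_sum,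
    mul_smul_comm]
  exact Finset.sum_comm

theorem EZ_lev {t : G} {x : J → MonoidAlgebra ℤ G} (hx : ∀ i, x i ∈ Lev φ (φ t)) :
    EZ φ ε x = Ev ε x • MonoidAlgebra.single (φ t) 1 := by
  simp only [EZ, Ev, Finset.sum_smul]
  refine Finset.sum_congr rfl fun i _ => ?_
  rw [prZ_lev (hx i), MonoidAlgebra.smul_single, MonoidAlgebra.smul_single, smul_eq_mul,
    smul_eq_mul, mul_one, mul_comm]

theorem Ev_ext (i : J) : Ev ε (ext b i) = Ev ε (b i) :=
  Finset.sum_congr rfl fun j _ => congrArg (· * ε j) (augR_map φ.ker.subtype (b i j))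

theorem EZ_ext (hεb : ∀ i, Ev ε (b i) = 0) (x : J → MonoidAlgebra ℤ G) :
    EZ φ ε (x ᵥ* ext b) = 0 := by
  rw [EZ_vecMul]
  refine Finset.sum_eq_zero fun i _ => ?_
  rw [EZ_lev (t := 1) (x := ext b i) (fun j => lev_inK (b i j)), Ev_ext, hεb, zero_smul,
    mul_zero]

theorem ext_exact (hφ : Function.Surjective φ)
    (hex : ∀ x : J → MonoidAlgebra ℤ φ.ker, (∀ i, r ≤ dj i → x i = 0) →
      x ᵥ* b = 0 → Ev ε x = 0 → ∃ y, y ᵥ* b = x) (x : J → MonoidAlgebra ℤ G)
    (h1 : ∀ i, r ≤ dj i → x i = 0) (h2 : x ᵥ* ext b = 0) (h3 : EZ φ ε x = 0) :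
    ∃ y, y ᵥ* ext b = x := by
  classical
  have hf : ∀ t : G, Ev ε (fun i => cosetPart φ t (x i)) = 0 := by
    intro t
    have := congrArg (fun a : MonoidAlgebra ℤ (Multiplicative ℤ) => a.coeff (φ t)) h3
    simpa only [EZ, Ev, MonoidAlgebra.coeff_sum, Finsupp.finsetSum_apply, MonoidAlgebra.coeff_smul,
      Finsupp.smul_apply, prZ_coeff hφ, smul_eq_mul, mul_comm, MonoidAlgebra.coeff_zero,
      Finsupp.zero_apply] using this
  choose y _ hy using fun t => coset_fill hex t x h1 h2 (hf t)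
  choose σ hσ using hφ
  refine ⟨∑ k ∈ Finset.univ.biUnion fun i => (x i).coeff.support.image φ, y (σ k), ?_⟩
  rw [sum_vecMul]
  funext j
  simp only [hy, Finset.sum_apply]
  exact level_sum hσ _ fun g hg => Finset.mem_biUnion.2 ⟨j, Finset.mem_univ _,
    Finset.mem_image_of_mem _ (Finsupp.mem_support_iff.2 hg)⟩

variable [DecidableEq J] {A : Matrix J J (MonoidAlgebra ℤ G)}

theorem cone_vecMul (B : Matrix J J (MonoidAlgebra ℤ G)) (x y : J → MonoidAlgebra ℤ G) :
    Sum.elim x y ᵥ* cone B A = Sum.elim (x ᵥ* B + y ᵥ* (1 - A)) (-(y ᵥ* B)) := by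
  rw [cone, vecMul_fromBlocks]
  simp [vecMul_neg]

omit [DecidableEq J] in
theorem Ev_elim (x y : J → MonoidAlgebra ℤ G) : Ev (Sum.elim ε 0) (Sum.elim x y) = Ev ε x := by
  simp [Ev]

theorem cone_exact (hφ : Function.Surjective φ) (h0 : ∀ i, 0 ≤ dj i)
    (hb : ∀ i j, b i j ≠ 0 → dj i = dj j + 1) (hε : ∀ i, dj i ≠ 0 → ε i = 0)
    (x0 : J → ℤ) (hx0 : ∑ i, x0 i * ε i = 1) (hεb : ∀ i, Ev ε (b i) = 0)
    (hex : ∀ x : J → MonoidAlgebra ℤ φ.ker, (∀ i, r ≤ dj i → x i = 0) →
      x ᵥ* b = 0 → Ev ε x = 0 → ∃ y, y ᵥ* b = x) {t : G} (ht : φ t = Multiplicative.ofAdd 1)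
    (hA : ∀ i j, A i j ≠ 0 → dj i = dj j) (hL : ∀ i j, A i j ∈ Lev φ (φ t))
    (hAb : ∀ i, dj i ≤ r → A i ᵥ* ext b = ext b i ᵥ* A ∧ Ev ε (A i) = ε i)
    (w : J ⊕ J → MonoidAlgebra ℤ G) (h1 : ∀ j, r ≤ degC dj j → w j = 0)
    (h2 : w ᵥ* cone (ext b) A = 0) (h3 : Ev (Sum.elim ε 0) w = 0) :
    ∃ y, y ᵥ* cone (ext b) A = w := by
  obtain ⟨x1, x2, rfl⟩ : ∃ x1 x2, w = Sum.elim x1 x2 :=
    ⟨w ∘ Sum.inl, w ∘ Sum.inr, (Sum.elim_comp_inl_inr w).symm⟩
  have hb' : ∀ i j, ext b i j ≠ 0 → dj i = dj j + 1 := fun i j h => hb i j (ext_ne_zero h)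
  have s1 : ∀ j, r ≤ dj j → x1 j = 0 := fun j hj => h1 (Sum.inl j) hj
  have s2 : ∀ j, r ≤ dj j + 1 → x2 j = 0 := fun j hj => h1 (Sum.inr j) hj
  by_cases hr : r ≤ 0
  · refine ⟨0, ?_⟩
    rw [zero_vecMul]
    funext j
    refine (h1 j ?_).symm
    rcases j with j | j
    · exact hr.trans (h0 j)
    · exact hr.trans (by have := h0 j; change 0 ≤ dj j + 1; omega)
  rw [Ev_elim] at h3
  rw [cone_vecMul] at h2
  have c1 : x1 ᵥ* ext b + x2 ᵥ* (1 - A) = 0 := funext fun j => congrFun h2 (Sum.inl j)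
  have c2 : x2 ᵥ* ext b = 0 := neg_eq_zero.1 (funext fun j => congrFun h2 (Sum.inr j))
  -- behaviour of `1 - A` on vectors supported in degrees `≤ r`
  have eA : ∀ x : J → MonoidAlgebra ℤ G, (∀ i, x i ≠ 0 → dj i ≤ r) →
      EZ φ ε (x ᵥ* (1 - A)) = EZ φ ε x * (1 - TZ) := by
    intro x hx
    rw [vecMul_sub, vecMul_one, EZ_sub, EZ_vecMul, mul_sub, mul_one]
    congr 1
    rw [EZ, Finset.sum_mul]
    refine Finset.sum_congr rfl fun i _ => ?_
    by_cases h : x i = 0
    · rw [h, map_zero, zero_mul, smul_zero, zero_mul]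
    · rw [EZ_lev (hL i), (hAb i (hx i h)).2, ht, mul_smul_comm, smul_mul_assoc]
  have cA : ∀ x : J → MonoidAlgebra ℤ G, (∀ i, x i ≠ 0 → dj i ≤ r) →
      (x ᵥ* (1 - A)) ᵥ* ext b = (x ᵥ* ext b) ᵥ* (1 - A) := by
    intro x hx
    rw [vecMul_sub, vecMul_sub, vecMul_one, vecMul_one, sub_vecMul, vecMul_vecMul, vecMul_vecMul,
      xalg_congr x (A * ext b) (ext b * A) fun i hi => (hAb i (hx i hi)).1]
  have sA : ∀ x : J → MonoidAlgebra ℤ G, (∀ i, r ≤ dj i → x i = 0) →
      ∀ i, r ≤ dj i → (x ᵥ* (1 - A)) i = 0 := by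
    intro x hx i hi
    rw [vecMul_sub, vecMul_one, Pi.sub_apply, hx i hi, zero_sub, neg_eq_zero]
    by_contra h
    obtain ⟨l, h1, h2⟩ := xalg_supp _ _ h
    exact h1 (hx l (by rw [hA l i h2]; exact hi))
  have le : ∀ x : J → MonoidAlgebra ℤ G, (∀ i, r ≤ dj i → x i = 0) → ∀ i, x i ≠ 0 → dj i ≤ r :=
    fun x hx i hi => by by_contra h; exact hi (hx i (by omega))
  have s2' : ∀ j, r ≤ dj j → x2 j = 0 := fun j hj => s2 j (by omega)
  have e2 : EZ φ ε x2 = 0 := by
    have := congrArg (EZ φ ε) c1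
    rw [EZ_add, EZ_ext hεb, zero_add, eA x2 (le x2 s2')] at this
    exact (mul_eq_zero.1 (this.trans (by simp [EZ]))).resolve_right one_sub_TZ
  obtain ⟨y0', hy0'⟩ := ext_exact hφ hex x2 s2' c2 e2
  obtain ⟨y0, sy, hy0⟩ : ∃ y0 : J → MonoidAlgebra ℤ G, (∀ i, r ≤ dj i → y0 i = 0) ∧
      y0 ᵥ* ext b = x2 := by
    refine ⟨fun i => if dj i < r then y0' i else 0, fun i hi => if_neg (by omega), ?_⟩
    funext j
    by_cases hj : r ≤ dj j + 1
    · rw [s2 j hj]
      by_contra h
      obtain ⟨l, h1, h2⟩ := xalg_supp _ _ h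
      exact h1 (if_neg (by have := hb' l j h2; omega))
    · rw [← hy0']
      simp only [vecMul, dotProduct]
      refine Finset.sum_congr rfl fun l _ => ?_
      by_cases hl : ext b l j = 0
      · rw [hl, mul_zero, mul_zero]
      · rw [if_pos (by have := hb' l j hl; omega)]
  have hu : augR _ (EZ φ ε (x1 + y0 ᵥ* (1 - A))) = 0 := by
    rw [EZ_add, eA y0 (le y0 sy), map_add, augR_EZ, h3, map_mul, map_sub, map_one, augR_single,
      sub_self, mul_zero, add_zero]
  obtain ⟨q, hq⟩ := TZ_dvd (EZ φ ε (x1 + y0 ᵥ* (1 - A)))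
  rw [hu, MonoidAlgebra.single_zero, sub_zero] at hq
  obtain ⟨p, rfl⟩ := prZ_surj hφ q
  obtain ⟨z, sz, ez⟩ : ∃ z : J → MonoidAlgebra ℤ G, (∀ i, dj i ≠ 0 → z i = 0) ∧
      EZ φ ε z = prZ φ p := by
    refine ⟨fun i => if dj i = 0 then x0 i • p else 0, fun i hi => if_neg hi, ?_⟩
    rw [← one_smul ℤ (prZ φ p), ← hx0, Finset.sum_smul, EZ]
    refine Finset.sum_congr rfl fun i _ => ?_
    split_ifs with h
    · rw [map_zsmul, smul_smul, mul_comm]
    · rw [hε i h, zero_smul, mul_zero, zero_smul]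
  have sz' : ∀ i, r ≤ dj i → z i = 0 := fun i hi => sz i (by omega)
  have zb : z ᵥ* ext b = 0 := by
    funext j
    by_contra h
    obtain ⟨l, h1, h2⟩ := xalg_supp _ _ h
    exact h1 (sz l (by have := hb' l j h2; have := h0 j; omega))
  obtain ⟨y1, hy1⟩ := ext_exact hφ hex (x1 + y0 ᵥ* (1 - A) - z ᵥ* (1 - A))
    (fun i hi => by
      rw [Pi.sub_apply, Pi.add_apply, s1 i hi, sA y0 sy i hi, sA z sz' i hi, add_zero, sub_zero])
    (by
      rw [sub_vecMul, add_vecMul, cA y0 (le y0 sy), cA z (le z sz'), hy0, c1, zb, zero_vecMul,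
        sub_zero])
    (by rw [EZ_sub, hq, eA z (le z sz'), ez, mul_comm, sub_self])
  refine ⟨Sum.elim y1 (z - y0), ?_⟩
  rw [cone_vecMul, hy1, sub_vecMul, sub_vecMul, zb, hy0]
  congr 1
  · abel
  · rw [zero_sub, neg_neg]

end Cone

variable {G I J : Type} [Group G] [Fintype I] [DecidableEq I] [Fintype J] [DecidableEq J]

theorem exists_model (φ : G →* Multiplicative ℤ) (hφ : Function.Surjective φ) {m : ℤ}
    {deg : I → ℤ} {c : Matrix I I (MonoidAlgebra ℤ G)} {dj : J → ℤ}
    {b : Matrix J J (MonoidAlgebra ℤ φ.ker)} (hc : ResTo m deg c) (hb : ResTo (m - 1) dj b) :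
    ∃ (A : Matrix J J (MonoidAlgebra ℤ G)) (f : Matrix I (J ⊕ J) (MonoidAlgebra ℤ G))
      (g : Matrix (J ⊕ J) I (MonoidAlgebra ℤ G)) (s : Matrix I I (MonoidAlgebra ℤ G)),
      (∀ i j, A i j ≠ 0 → dj i = dj j) ∧
      (∀ i j, ∀ x ∈ (A i j).coeff.support, φ x = Multiplicative.ofAdd 1) ∧
      (∀ i j, dj i < m → (A * ext b) i j = (ext b * A) i j) ∧
      (∀ i j, f i j ≠ 0 → deg i = degC dj j) ∧ (∀ i j, g i j ≠ 0 → degC dj i = deg j) ∧
      (∀ i j, s i j ≠ 0 → deg i + 1 = deg j) ∧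
      (∀ i j, deg i < m → (c * f) i j = (f * cone (ext b) A) i j) ∧
      (∀ i j, degC dj i ≤ m → (cone (ext b) A * g) i j = (g * c) i j) ∧
      ∀ i j, deg i < m → (f * g + s * c + c * s) i j = (1 : Matrix I I _) i j := by
  obtain ⟨c0, c1, cc, εc, hεc, ⟨xc, hxc⟩, hcε, hcex⟩ := hc
  obtain ⟨b0, b1, bb, ε, hε, ⟨xb, hxb⟩, hbε, hbex⟩ := hb
  simp only [aug_eq] at hcε hcex hbε hbex
  obtain ⟨t, ht⟩ := hφ (Multiplicative.ofAdd 1)
  have b1' : ∀ i j, ext b i j ≠ 0 → dj i = dj j + 1 := fun i j h => b1 i j (ext_ne_zero h)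
  have hbε' : ∀ i, Ev ε (ext b i) = 0 := fun i => (Ev_ext i).trans (hbε i)
  obtain ⟨A, hA, hL, hAb⟩ := xalg_chain (Lev φ (φ t)) (m - 1) (εx := ε) (εy := ε) b0 b1'
    (fun i _ => congrFun (ext_sq bb) i) hε (fun i _ => hbε' i)
    (fun i j a ha => lev_mul (b i j) ha) b0 b1' hε (fun j => xb j • MonoidAlgebra.single t 1)
    (fun j => zsmul_mem (lev_single t) _)
    (by simp only [Ev, map_zsmul, augR_single, smul_eq_mul, mul_one, hxb])
    (fun w hw h1 h2 h3 => by
      obtain ⟨y, hy, hy'⟩ := coset_fill (ε := ε) hbex t w h1 h2 (by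
        rw [← h3]
        refine Finset.sum_congr rfl fun i _ => ?_
        rw [← augR_back t, lev_eq (hw i)])
      exact ⟨y, hy, hy'.trans (funext fun j => lev_eq (hw j))⟩)
  have y0 : ∀ i, 0 ≤ degC dj i := by
    rintro (i | i)
    · exact b0 i
    · have := b0 i; change 0 ≤ dj i + 1; omega
  have y1 := cone_deg b1' hA
  have hεy : ∀ i, degC dj i ≠ 0 → Sum.elim ε 0 i = (0 : ℤ) := by
    rintro (i | i) h
    · exact hε i h
    · rfl
  have rl : ∀ i, cone (ext b) A (Sum.inl i) = Sum.elim (ext b i) 0 := fun i => by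
    funext j; rcases j with j | j <;> rfl
  have rr : ∀ i, cone (ext b) A (Sum.inr i) = Sum.elim ((1 - A) i) (-ext b i) := fun i => by
    funext j; rcases j with j | j <;> rfl
  obtain ⟨f, hf, -, hfc⟩ := xalg_chain ⊤ (m - 1) (εx := εc) (εy := Sum.elim ε 0) c0 c1
    (fun i _ => congrFun cc i) hεc (fun i _ => hcε i) (fun _ _ _ _ => trivial) y0 y1 hεy
    (Sum.elim (fun j => xb j • 1) 0) (fun _ => trivial)
    (by rw [Ev_elim]; simp only [Ev, map_zsmul, map_one, smul_eq_mul, mul_one, hxb])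
    (fun w _ h1 h2 h3 => by
      obtain ⟨y, hy⟩ := cone_exact hφ b0 b1 hε xb hxb hbε hbex ht hA hL hAb w h1 h2 h3
      exact ⟨y, fun _ => trivial, hy⟩)
  obtain ⟨g, hg, -, hgc⟩ := xalg_chain ⊤ m (εx := Sum.elim ε 0) (εy := εc) y0 y1
    (by
      rintro (i | i) hi
      · rw [rl, cone_vecMul, zero_vecMul, zero_vecMul, ← xalg_row, ext_sq bb]
        funext j; rcases j with j | j <;> simp
      · have := (hAb i (by change dj i + 1 ≤ m at hi; omega)).1
        rw [rr, cone_vecMul, neg_vecMul, neg_vecMul, ← xalg_row (ext b) (ext b), ext_sq bb,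
          vecMul_sub, vecMul_one, ← this, ← xalg_row, ← xalg_row, Matrix.sub_mul, Matrix.one_mul]
        funext j; rcases j with j | j <;> simp)
    hεy
    (by
      rintro (i | i) hi
      · rw [rl, Ev_elim, hbε']
      · have := (hAb i (by change dj i + 1 ≤ m at hi; omega)).2
        rw [rr, Ev_elim, show (1 - A) i = (1 : Matrix J J _) i - A i from rfl, Ev_sub, this,
          sub_eq_zero]
        simp [Ev, Matrix.one_apply, apply_ite (augR G)])
    (fun _ _ _ _ => trivial) c0 c1 hεc (fun j => xc j • 1) (fun _ => trivial)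
    (by simp only [Ev, map_zsmul, map_one, smul_eq_mul, mul_one, hxc])
    (fun w _ h1 h2 h3 => by
      obtain ⟨y, hy⟩ := hcex w h1 h2 h3
      exact ⟨y, fun _ => trivial, hy⟩)
  obtain ⟨s, hs, hsc⟩ := xalg_homotopy m (ε := εc) c0 c1 cc hεc hcex (1 - f * g)
    (fun i j h => by
      by_cases hij : i = j
      · rw [hij]
      · rw [Matrix.sub_apply, Matrix.one_apply_ne hij, zero_sub, neg_ne_zero, xalg_row] at h
        obtain ⟨l, h1, h2⟩ := xalg_supp _ _ h
        rw [hf i l h1, hg l j h2])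
    (fun i hi => by
      have h1 : (f * g * c) i = (c * (f * g)) i := by
        rw [Matrix.mul_assoc, xalg_row f, xalg_row c,
          xalg_congr (f i) (g * c) (cone (ext b) A * g) fun l hl =>
          (hgc l (by have := hf i l hl; omega)).1, ← vecMul_vecMul, (hfc i (by omega)).1,
          vecMul_vecMul]
      rw [← xalg_row, ← xalg_row, Matrix.sub_mul, Matrix.mul_sub, Matrix.one_mul, Matrix.mul_one]
      funext j
      rw [Matrix.sub_apply, Matrix.sub_apply, h1])
    (fun i hi => by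
      change Ev εc ((1 : Matrix I I (MonoidAlgebra ℤ G)) i - f i ᵥ* g) = 0
      rw [Ev_sub, Ev_vecMul, sub_eq_zero]
      have h1 : Ev εc ((1 : Matrix I I (MonoidAlgebra ℤ G)) i) = εc i := by
        simp [Ev, Matrix.one_apply, apply_ite (augR G)]
      rw [h1, ← (hfc i (by omega)).2]
      refine Finset.sum_congr rfl fun l _ => ?_
      by_cases hl : f i l = 0
      · rw [hl, map_zero, zero_mul, zero_mul]
      · rw [(hgc l (by have := hf i l hl; omega)).2])
  refine ⟨A, f, g, s, hA, fun i j x hx => ?_, fun i j hi => congrFun (hAb i (by omega)).1 j, hf, hg,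
    hs, fun i j hi => (congrFun (hfc i (by omega)).1 j).symm,
    fun i j hi => (congrFun (hgc i hi).1 j).symm, fun i j hi => ?_⟩
  · by_contra h
    exact Finsupp.mem_support_iff.1 hx (hL i j x (by rwa [ht]))
  · have := congrFun (hsc i hi) j
    rw [Pi.add_apply, Matrix.sub_apply, ← xalg_row, ← xalg_row] at this
    rw [Matrix.add_apply, Matrix.add_apply, add_assoc, this, add_sub_cancel]

end Pool.Agent.Lib.MP_fd3021_gt
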