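import Pool.Agent.Lib.MP_fd3021_gt.XMain

/-! Kernels of finite type up to the middle degree: the middle Betti numbers vanish. -/

namespace Pool.Agent.Lib.MP_fd3021_gt

open Matrix Filter MeasureTheory Topology

variable {G I J : Type} [Group G] [Group.ResiduallyFinite G] [Fintype I] [DecidableEq I]
  [Fintype J] [DecidableEq J]

omit [Group.ResiduallyFinite G] [DecidableEq I] in
theorem ResTo.mono {r r' : ℤ} {deg : I → ℤ} {c : Matrix I I (MonoidAlgebra ℤ G)}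
    (h : ResTo r deg c) (hr : r' ≤ r) : ResTo r' deg c := by
  obtain ⟨h0, h1, h2, ε, h3, h4, h5, h6⟩ := h
  exact ⟨h0, h1, h2, ε, h3, h4, h5, fun x hx => h6 x fun i hi => hx i (hr.trans hi)⟩

omit [Group.ResiduallyFinite G] in
theorem half_cheap (φ : G →* Multiplicative ℤ) (hφ : Function.Surjective φ) {m : ℤ}
    {deg : I → ℤ} {c : Matrix I I (MonoidAlgebra ℤ G)} {dj : J → ℤ}
    {b : Matrix J J (MonoidAlgebra ℤ φ.ker)} (hc : ResTo m deg c) (hb : ResTo (m - 1) dj b) :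
    ∀ p, p < m → ∀ δ > 0, ∀ᶠ N : FiniteIndexNormalSubgroup G in atBot,
      trf (cm (rep N (lap deg c p))) ind0 ≤ δ * dg N := by
  obtain ⟨A, f, g, s, hA, hA1, hAb, h1, h2, h3, h4, h5, h6⟩ := exists_model φ hφ hc hb
  have hb' : ∀ i j, ext b i j ≠ 0 → dj i = dj j + 1 := fun i j h => hb.2.1 i j (ext_ne_zero h)
  have hb0 : ∀ i j, ∀ g ∈ (ext b i j).coeff.support, φ g = 1 := fun i j g hg =>
    ext_support i j g hg
  have h : Comp m deg (degC dj) c s (cone (ext b) A) f g :=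
    ⟨hc.2.1, cone_deg hb' hA, h1, h2, h3, h4, h5, h6⟩
  intro p hp δ hδ
  obtain ⟨p, rfl⟩ : ∃ p', p = p' + 1 := ⟨p - 1, by ring⟩
  refine (cone_cheap φ hφ hb0 hA1 hb' hA hAb hδ).mono fun N hN => ?_
  obtain ⟨M, k⟩ := hN p hp
  obtain ⟨b1, b2, b3⟩ := h.block N hp
  obtain ⟨M', k'⟩ := k.transfer b1 b2 b3
  rw [rep_lap hc.2.1]
  exact k'.ker_le

theorem alg_bundle (φ : G →* Multiplicative ℤ) (hφ : Function.Surjective φ) (m : ℕ)
    {deg : I → ℤ} {c : Matrix I I (MonoidAlgebra ℤ G)} {dj : J → ℤ}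
    {b : Matrix J J (MonoidAlgebra ℤ φ.ker)} (hc : ResTo (m + 1) deg c)
    (hc' : ResTo (m + 1) (fun i => 2 * m + 1 - deg i) (adj c))
    (hb : ResTo m dj b) (hm : ∀ p : ℤ, p < m → Odd (m - p) → spec (lap dj b p) {0} = 0) :
    DetAcyclic deg c ∧ 0 ≤ (-1 : ℝ) ^ m * rho deg c := by
  have hg := hc.2.1
  have hb' : ResTo ((m + 1 : ℤ) - 1) dj b := by simpa using hb
  refine alg_fibred φ hφ m (hc.mono (by omega)) (hc'.mono (by omega)) ?_ ?_
    (hb.mono (by omega)) hm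
  · obtain ⟨K, hK⟩ := good_lap hg m
    exact atom_zero hK hK.isSpec (half_cheap φ hφ hc hb' m (by omega))
  · obtain ⟨K, hK⟩ := good_lap hg (m + 1)
    refine atom_zero hK hK.isSpec fun δ hδ => ?_
    refine (half_cheap φ hφ hc' hb' m (by omega) δ hδ).mono fun N hN => ?_
    rwa [trf_dual hg (p := m + 1) (by ring)] at hN

end Pool.Agent.Lib.MP_fd3021_gt
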