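import Pool.Agent.Lib.MP_fd3021_gt.XFin

/-! The sign of the torsion from labelled fillings below the middle degree. -/

namespace Pool.Agent.Lib.MP_fd3021_gt

open Matrix Filter MeasureTheory Topology

variable {G I : Type} [Group G] [Fintype I] [DecidableEq I]
  {deg : I → ℤ} {c : Matrix I I (MonoidAlgebra ℤ G)}

/-- labelled fillings in the degrees below `m` of the parity of `m - 1` -/
def EvLab (deg : I → ℤ) (c : Matrix I I (MonoidAlgebra ℤ G)) (m : ℤ) : Prop :=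
  ∃ C₁ : ℝ, 0 ≤ C₁ ∧ ∀ δ > 0, δ ≤ 1 → ∃ M : ℝ, 1 ≤ M ∧ ∀ ζ > 0,
    ∀ᶠ η : ℝ in 𝓝[>] 0, ∀ᶠ N : FiniteIndexNormalSubgroup G in atBot,
    ∀ p : ℤ, 0 ≤ p + 1 → p + 1 < m → Odd (m - (p + 1)) → ∃ κ : ℝ,
      κ * (1 - Real.log η) ≤ ζ * dg N ∧
      Lab (DQ deg c N p) (DQ deg c N (p + 1)) C₁ δ (M / η ^ 2) κ (dg N)

omit [Fintype I] [DecidableEq I] in
theorem adj_deg (hg : ∀ i j, c i j ≠ 0 → deg i = deg j + 1) (n : ℤ) (i j : I)
    (h : adj c i j ≠ 0) : n - deg i = n - deg j + 1 := by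
  have : c j i ≠ 0 := fun e => h (by simp [adj, e])
  have := hg _ _ this
  omega

/-- the cells of complementary degree -/
def dualE (deg : I → ℤ) (Q : Type) {n p p' : ℤ} (h : p + p' = n) :
    {i // n - deg i = p'} × Q ≃ {i // deg i = p} × Q :=
  (Equiv.subtypeEquivRight fun i => by omega).prodCongr (Equiv.refl Q)

theorem trf_dual (hg : ∀ i j, c i j ≠ 0 → deg i = deg j + 1) {n p p' : ℤ} (h : p + p' = n)
    (N : FiniteIndexNormalSubgroup G) (g : ℝ → ℝ) :
    trf (cm (rep N (lap (fun i => n - deg i) (adj c) p'))) g =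
      trf (cm (rep N (lap deg c p))) g := by
  obtain ⟨K, hK⟩ := good_lap hg p
  rw [← trf_reindex (lspec_cm_symm (hK N).1) (dualE deg (QQ N) h)]
  congr 1
  ext x y
  have : rep N (adj (adj c) * adj c + adj c * adj (adj c)) = rep N (adj c * c + c * adj c) := by
    simp only [rep_add, rep_mul, rep_adj, transpose_transpose]
    exact add_comm _ _
  exact congrArg Int.cast (congrFun (congrFun this (x.1.1, x.2)) (y.1.1, y.2))

theorem core3 [Group.ResiduallyFinite G] (m : ℕ) (h0 : ∀ i, 0 ≤ deg i)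
    (hn : ∀ i, 0 ≤ 2 * m + 1 - deg i) (hg : ∀ i j, c i j ≠ 0 → deg i = deg j + 1)
    (hc : c * c = 0) (hc' : adj c * adj c = 0) (hb : ∀ p, spec (lap deg c p) {0} = 0)
    (h1 : EvLab deg c m) (h2 : EvLab (fun i => 2 * m + 1 - deg i) (adj c) m) :
    0 ≤ (-1 : ℝ) ^ m * rho deg c := by
  classical
  obtain ⟨C₁, hC₁, h1⟩ := h1
  obtain ⟨C₂, hC₂, h2⟩ := h2
  have hg' := adj_deg hg (2 * m + 1)
  obtain ⟨n, hnm⟩ : ∃ n : ℕ, n = 2 * m + 1 := ⟨_, rfl⟩
  obtain ⟨C₀, hC₀, hRC⟩ := rep_RC c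
  set C : ℝ := C₀ + Fintype.card I + C₁ + C₂ with hC
  have hI : (0 : ℝ) ≤ Fintype.card I := Nat.cast_nonneg _
  have hC1 : 1 ≤ C := by linarith
  set ld : ℤ → ℝ := fun p => ∫ x in Set.Ioi 0, Real.log x ∂(spec (lap deg c p)) with hld
  have hrho : rho deg c = -(1 / 2) * ∑ p ∈ Finset.Icc (0 : ℤ) n, (-1 : ℝ) ^ p * p * ld p := by
    unfold rho
    congr 1
    refine Finset.sum_subset (fun p hp => ?_) fun p _ hp => ?_
    · obtain ⟨i, -, rfl⟩ := Finset.mem_image.1 hp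
      exact Finset.mem_Icc.2 ⟨h0 i, by have := hn i; omega⟩
    · obtain ⟨K, hK⟩ := good_lap hg p
      obtain ⟨hfin, -, hm⟩ := hK.isSpec
      have hE : IsEmpty {i // deg i = p} :=
        ⟨fun i => hp (Finset.mem_image.2 ⟨i.1, Finset.mem_univ _, i.2⟩)⟩
      have h1 := hm 0
      simp only [pow_zero, integral_const, smul_eq_mul, mul_one, Finset.univ_eq_empty,
        Finset.sum_empty] at h1
      have h2 : spec (lap deg c p) = 0 := by
        rwa [measureReal_eq_zero_iff, Measure.measure_univ_eq_zero] at h1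
      simp [h2]
  refine le_of_forall_pos_le_add fun ε hε => ?_
  obtain ⟨δ, hδ, hfin⟩ := finMain3 m hC1 (half_pos hε)
  obtain ⟨M₁, hM₁, h1⟩ := h1 _ (lt_min hδ one_pos) (min_le_right _ _)
  obtain ⟨M₂, hM₂, h2⟩ := h2 _ (lt_min hδ one_pos) (min_le_right _ _)
  obtain ⟨ζ, hζ, hfin⟩ := hfin (M₁ + M₂) (by linarith)
  have hn1 : (0 : ℝ) < (n + 1) * (n + 1) := by positivity
  set ζ' := min ζ (ε / ((n + 1) * (n + 1))) with hζ'
  have hζ0 : 0 < ζ' := lt_min hζ (by positivity)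
  have hη : ∀ᶠ η : ℝ in 𝓝[>] 0, ∀ p ∈ Finset.Icc (0 : ℤ) n,
      ∀ᶠ N : FiniteIndexNormalSubgroup G in atBot,
      (cnt (cm (rep N (lap deg c p))) η : ℝ) * (1 - Real.log η) ≤ ζ' * dg N ∧
      |trf (cm (rep N (lap deg c p))) (psi η) - dg N * ld p| ≤ ζ' * dg N := by
    rw [eventually_all_finset]
    intro p _
    obtain ⟨K, hK⟩ := good_lap hg p
    exact eta_main hK hK.isSpec (hb p) hζ0
  have hη' : ∀ᶠ η : ℝ in 𝓝[>] 0, η ∈ Set.Ioc (0 : ℝ) 1 := Ioc_mem_nhdsGT zero_lt_one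
  obtain ⟨η, ⟨hη0, hη1⟩, hη, h1, h2⟩ := (hη'.and (hη.and ((h1 ζ hζ).and (h2 ζ hζ)))).exists
  rw [← eventually_all_finset] at hη
  obtain ⟨N, hN1, hN2, hN3⟩ := (hη.and (h1.and h2)).exists
  have hd := dg_pos N
  have hE : ∀ p : ℤ, p < 0 ∨ (n : ℤ) < p → IsEmpty ({i // deg i = p} × QQ N) := fun p hp =>
    ⟨fun x => by have := h0 x.1.1; have := hn x.1.1; have := x.1.2; omega⟩
  have hcnt : ∀ p, (cnt (cm (rep N (lap deg c p))) η : ℝ) * (1 - Real.log η) ≤ ζ * dg N := by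
    intro p
    by_cases hp : p ∈ Finset.Icc (0 : ℤ) n
    · exact (hN1 _ hp).1.trans (mul_le_mul_of_nonneg_right (min_le_left _ _) hd.le)
    · have := hE p (by rw [Finset.mem_Icc] at hp; omega)
      have e : cnt (cm (rep N (lap deg c p))) η = 0 := by simp [cnt]
      rw [e, Nat.cast_zero, zero_mul]
      positivity
  have hRC' : RC (rep N (adj c)) C₀ := by
    rw [rep_adj]
    exact (hRC N).transpose
  have key := hfin η hη0 hη1 (dg N) hd (fun p => {i // deg i = p} × QQ N)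
    (fun p => {i // 2 * m + 1 - deg i = p} × QQ N) (DQ deg c N)
    (DQ (fun i => 2 * m + 1 - deg i) (adj c) N)
    (fun p p' h => ⟨dualE deg (QQ N) (by omega), dualE deg (QQ N) (by omega), by
      ext x y
      exact congrFun (congrFun (rep_adj N c) (y.1.1, y.2)) (x.1.1, x.2)⟩)
    (DQ_mul hg hc N) (fun p hp => hE p (Or.inl hp))
    (fun p => (main_card deg N p).trans (mul_le_mul_of_nonneg_right (by linarith) hd.le))
    (fun p => (DQ_RC (hRC N) p).mono (by linarith))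
    (fun p => by
      rw [← rep_lap hg]
      exact hcnt _)
    (fun p a b e => by
      obtain ⟨κ, h1, h2⟩ := hN2 p a b e
      exact ⟨κ, h1, h2.mono hd.le hC₁ (by linarith) (min_le_left _ _) (by positivity)
        (by gcongr; linarith)⟩)
    (DQ_mul hg' hc' N)
    (fun p hp => ⟨fun x => by have := hn x.1.1; have := x.1.2; omega⟩)
    (fun p => (main_card _ N p).trans (mul_le_mul_of_nonneg_right (by linarith) hd.le))
    (fun p => (DQ_RC hRC' p).mono (by linarith))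
    (fun p => by
      rw [← rep_lap hg', cnt_eq, trf_dual hg (p := 2 * m - p) (by ring), ← cnt_eq]
      exact hcnt _)
    (fun p a b e => by
      obtain ⟨κ, h1, h2⟩ := hN3 p a b e
      exact ⟨κ, h1, h2.mono hd.le hC₂ (by linarith) (min_le_left _ _) (by positivity)
        (by gcongr; linarith)⟩)
  rw [← hnm] at key
  set T : ℤ → ℝ := fun p => trf (cm (rep N (lap deg c p))) (psi η) with hT
  have hlt : ∀ p, ltr (DQ deg c N) η (p - 1) = T p := fun p => by
    have e : ∀ p, ltr (DQ deg c N) η p = T (p + 1) := fun p => by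
      simp only [hT]
      rw [rep_lap hg]
      rfl
    rw [e, sub_add_cancel]
  simp only [hlt] at key
  have hdiff : |∑ p ∈ Finset.Icc (0 : ℤ) n, (-1 : ℝ) ^ p * p * T p -
      dg N * ∑ p ∈ Finset.Icc (0 : ℤ) n, (-1 : ℝ) ^ p * p * ld p| ≤ ε * dg N := by
    rw [Finset.mul_sum, ← Finset.sum_sub_distrib]
    refine (Finset.abs_sum_le_sum_abs _ _).trans ?_
    have hb : ∀ p ∈ Finset.Icc (0 : ℤ) n,
        |(-1 : ℝ) ^ p * p * T p - dg N * ((-1 : ℝ) ^ p * p * ld p)| ≤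
          (n + 1) * (ε / ((n + 1) * (n + 1)) * dg N) := fun p hp => by
      have e : (-1 : ℝ) ^ p * p * T p - dg N * ((-1 : ℝ) ^ p * p * ld p) =
          (-1 : ℝ) ^ p * p * (T p - dg N * ld p) := by ring
      obtain ⟨a, b⟩ := Finset.mem_Icc.1 hp
      have a' : (0 : ℝ) ≤ p := by exact_mod_cast a
      have b' : (p : ℝ) ≤ n := by exact_mod_cast b
      rw [e, abs_mul, abs_mul, abs_neg_one_zpow, one_mul, abs_of_nonneg a']
      exact mul_le_mul (by linarith) ((hN1 p hp).2.trans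
        (mul_le_mul_of_nonneg_right (min_le_right _ _) hd.le)) (abs_nonneg _) (by positivity)
    refine (Finset.sum_le_sum hb).trans (le_of_eq ?_)
    rw [Finset.sum_const, Int.card_Icc, nsmul_eq_mul]
    have : ((n : ℤ) + 1 - 0).toNat = n + 1 := by omega
    rw [this]
    push_cast
    field_simp
  obtain ⟨d1, d2⟩ := abs_le.1 hdiff
  rw [hrho]
  refine le_of_mul_le_mul_left ?_ hd
  rcases xfin_sign m with hq | hq <;> rw [hq] at key ⊢ <;> nlinarith

end Pool.Agent.Lib.MP_fd3021_gt
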