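import Pool.Agent.Lib.MP_fd3021_gt.LDefs

/-! Partial resolutions of the trivial module. -/

namespace Pool.Agent.Lib.MP_fd3021_gt

open Matrix

variable {G I : Type}

/-- The augmentation `ℤ G → ℤ`: the sum of the coefficients. -/
noncomputable def aug (a : MonoidAlgebra ℤ G) : ℤ := a.coeff.sum fun _ n => n

/-- The finite free complex with basis `I`, degrees `deg` and differential `x ↦ x c` lies in
degrees `≥ 0`, has an augmentation onto the trivial module `ℤ`, and the augmented complex is exact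
in all degrees `< r`. -/
def ResTo [Group G] [Fintype I] (r : ℤ) (deg : I → ℤ) (c : Matrix I I (MonoidAlgebra ℤ G)) :
    Prop :=
  (∀ i, 0 ≤ deg i) ∧ (∀ i j, c i j ≠ 0 → deg i = deg j + 1) ∧ c * c = 0 ∧
    ∃ ε : I → ℤ, (∀ i, deg i ≠ 0 → ε i = 0) ∧ (∃ x : I → ℤ, ∑ i, x i * ε i = 1) ∧
      (∀ i, ∑ j, aug (c i j) * ε j = 0) ∧
      ∀ x : I → MonoidAlgebra ℤ G, (∀ i, r ≤ deg i → x i = 0) → x ᵥ* c = 0 →
        ∑ i, aug (x i) * ε i = 0 → ∃ y, y ᵥ* c = x

end Pool.Agent.Lib.MP_fd3021_gt
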