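import Pool.Agent.Lib.MP_fd3021_gt.XLat

/-! Telescoping from below, for a complex and for its dual. -/

namespace Pool.Agent.Lib.MP_fd3021_gt

open Matrix

theorem xfin_rank {m n k : Type} [Fintype m] [Fintype n] [Fintype k] [DecidableEq m]
    [DecidableEq n] [DecidableEq k] (D : Matrix m n ℝ) (Dp : Matrix n k ℝ) (h : D * Dp = 0)
    (η : ℝ) : trf (Dpᵀ * Dp) (fun x => if η ^ 2 < x then 1 else 0) ≤ trf (Dpᵀ * Dp) ind1 ∧
      trf (Dpᵀ * Dp) ind1 ≤ trf (Dpᵀ * Dp) (fun x => if η ^ 2 < x then 1 else 0) +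
        cnt (lapR D Dp) η := by
  have h0 : ¬η ^ 2 < 0 := not_lt.2 (sq_nonneg η)
  constructor
  · refine Finset.sum_le_sum fun i _ => ?_
    by_cases e : ev (Dpᵀ * Dp) i = 0
    · simp [ind1, e, h0]
    · simp only [ind1, if_neg e]
      split_ifs <;> norm_num
  · have h1 := trf_lap D Dp h (fun x => ind1 x - if η ^ 2 < x then 1 else 0) (by simp [ind1, h0])
    have h2 : 0 ≤ trf (Dᵀ * D) (fun x => ind1 x - if η ^ 2 < x then 1 else 0) := by
      refine Finset.sum_nonneg fun i _ => ?_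
      by_cases e : ev (Dᵀ * D) i = 0
      · simp [ind1, e, h0]
      · simp only [ind1, if_neg e]
        split_ifs <;> norm_num
    have h3 : trf (lapR D Dp) (fun x => ind1 x - if η ^ 2 < x then 1 else 0) ≤
        cnt (lapR D Dp) η := by
      rw [cnt_eq]
      refine Finset.sum_le_sum fun i _ => ?_
      simp only [ind1]
      split_ifs with h1 h2 h3 h3 h2 h3 h3 <;> first | exact absurd (not_lt.1 h2) h3 | norm_num
    have h4 : trf (Dpᵀ * Dp) (fun x => ind1 x - if η ^ 2 < x then 1 else 0) =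
        trf (Dpᵀ * Dp) ind1 - trf (Dpᵀ * Dp) (fun x => if η ^ 2 < x then 1 else 0) :=
      Finset.sum_sub_distrib _ _
    linarith

theorem xfin_log {m n : Type} [Fintype m] [Fintype n] [DecidableEq m] [DecidableEq n]
    (D : Matrix m n ℝ) {η : ℝ} (h0 : 0 < η) (h1 : η ≤ 1) : trf (Dᵀ * D) Real.log ≤ ell D η := by
  refine Finset.sum_le_sum fun i _ => ?_
  simp only [psi]
  split_ifs with h
  · exact le_rfl
  · exact Real.log_nonpos (ev_nonneg (dec_symm D)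
      (fun y => by rw [← nsq_mulVec]; exact nsq_nonneg _) i)
      ((not_lt.1 h).trans (pow_le_one₀ h0.le h1))

theorem xfin_sign (j : ℕ) : (-1 : ℝ) ^ j = 1 ∨ (-1 : ℝ) ^ j = -1 := neg_one_pow_eq_or ℝ j

theorem finHalf (m : ℕ) {C ε : ℝ} (hC : 1 ≤ C) (hε : 0 < ε) : ∃ a > 0, ∃ δ > 0, ∀ M : ℝ, 1 ≤ M →
    ∃ ζ > 0, ∀ η : ℝ, 0 < η → η ≤ 1 → ∀ d : ℝ, 0 < d →
    ∀ (J : ℤ → Type) [∀ p, Fintype (J p)] [∀ p, DecidableEq (J p)]
      (D : ∀ p, Matrix (J p) (J (p + 1)) ℤ),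
      (∀ p, D p * D (p + 1) = 0) → (∀ p, p < 0 → IsEmpty (J p)) →
      (∀ p, (Fintype.card (J p) : ℝ) ≤ C * d) → (∀ p, RC (D p) C) →
      (∀ p, (cnt (lapR (cm (D p)) (cm (D (p + 1)))) η : ℝ) * (1 - Real.log η) ≤ ζ * d) →
      (∀ p : ℤ, 0 ≤ p + 1 → p + 1 < m → Odd (m - (p + 1)) → ∃ κ : ℝ,
        κ * (1 - Real.log η) ≤ ζ * d ∧ Lab (D p) (D (p + 1)) C δ (M / η ^ 2) κ d) →
      ∀ q : ℤ, q + 1 = m → Real.log (SS a (D q)) ≤
        trf ((cm (D (q + 1)))ᵀ * cm (D (q + 1))) ind1 / 2 * Real.log (Real.pi / a) -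
          (-1) ^ m * (∑ j ∈ Finset.range (m + 1), (-1 : ℝ) ^ j * ell (cm (D (j - 1))) η) / 2 +
          ε * d := by
  have hn : (0 : ℝ) < m + 2 := by positivity
  set ε' := ε / (2 * (m + 2)) with hε'
  have hε0 : 0 < ε' := by positivity
  obtain ⟨a, ha, δ, hδ, hup⟩ := upper2 hC hε0
  refine ⟨a, ha, δ, hδ, fun M hM => ?_⟩
  obtain ⟨ζ₀, hζ₀, hup⟩ := hup M hM
  set L := Real.log (Real.pi / a) with hL
  have hL1 : 0 < |L| + 1 := by positivity
  refine ⟨min ζ₀ (ε' / (|L| + 1)), lt_min hζ₀ (by positivity), ?_⟩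
  intro η h0 h1 d hd J _ _ D hDD hE hcard hRC hcnt hdata q hq
  have hlog : 1 ≤ 1 - Real.log η := by linarith [Real.log_nonpos h0.le h1]
  have hz : ∀ p, p < 0 → D p = 0 := by
    intro p hp
    have := hE p hp
    ext i
    exact isEmptyElim i
  have hDR : ∀ p, cm (D p) * cm (D (p + 1)) = 0 := fun p => by rw [← cm_mul, hDD, cm_zero]
  set S : ℤ → ℝ := fun p => Real.log (SS a (D p)) with hS
  set l : ℤ → ℝ := fun p => ell (cm (D p)) η with hl
  set N : ℤ → ℝ := fun p => (Fintype.card (J p) : ℝ) with hN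
  set r : ℤ → ℝ := fun p =>
    trf ((cm (D p))ᵀ * cm (D p)) (fun x => if η ^ 2 < x then 1 else 0) with hr
  set R : ℤ → ℝ := fun p => trf ((cm (D p))ᵀ * cm (D p)) ind1 with hR
  set k : ℤ → ℝ := fun p => (cnt (lapR (cm (D p)) (cm (D (p + 1)))) η : ℝ) with hk
  set E : ℤ → ℝ := fun p => S p + S (p + 1) - N (p + 1 + 1) / 2 * L + l (p + 1) / 2 with hEd
  have hE0 : ∀ p, 0 ≤ E p := fun p => by
    have := lower ha h0 h1 (D p) (D (p + 1)) (hDD p)
    simp only [hEd, hS, hN, hl]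
    linarith
  have hE1 : ∀ p : ℤ, p + 1 < m → Odd (m - (p + 1)) → E p ≤ ε' * d := fun p hp hp' => by
    have hm : min ζ₀ (ε' / (|L| + 1)) * d ≤ ζ₀ * d :=
      mul_le_mul_of_nonneg_right (min_le_left _ _) hd.le
    obtain ⟨κ, hκ, hdat⟩ : ∃ κ : ℝ, κ * (1 - Real.log η) ≤ min ζ₀ (ε' / (|L| + 1)) * d ∧
        Lab (D p) (D (p + 1)) C δ (M / η ^ 2) κ d := by
      by_cases hc : 0 ≤ p + 1
      · exact hdata p hc hp hp'
      · refine ⟨_, hcnt p, lab_of_zero (D p) (D (p + 1)) (hz _ (by omega)) h0 hδ.le hd.le ?_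
          (hcard _)⟩
        exact (one_le_div (by positivity)).2 ((pow_le_one₀ h0.le h1).trans hM)
    have := hup η h0 h1 d hd κ _ _ _ _ (D p) (D (p + 1)) (D (p + 1 + 1)) (hDD _) (hRC _)
      (hRC _) (hcard _) (hcard _) (hκ.trans hm) ((hcnt _).trans hm) hdat
    simp only [hEd, hS, hN, hl]
    linarith
  have hk0 : ∀ p, 0 ≤ k p := fun p => Nat.cast_nonneg _
  have hk1 : ∀ p, k p * |L| ≤ ε' * d := fun p => by
    have h2 : k p ≤ ε' / (|L| + 1) * d :=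
      (le_mul_of_one_le_right (hk0 p) hlog).trans ((hcnt p).trans
        (mul_le_mul_of_nonneg_right (min_le_right _ _) hd.le))
    have h3 : ε' / (|L| + 1) * d * (|L| + 1) = ε' * d := by field_simp
    nlinarith [abs_nonneg L, hk0 p]
  have hNk : ∀ p, N (p + 1) = k p + (r p + r (p + 1)) := fun p => fin_card _ _ (hDR p) η
  have hr0 : r (-1) = 0 := fin_trf_zero _ (hz _ (by omega)) _ (by simp [sq_nonneg])
  have hS0 : S (-2) = 0 := by
    have := hE (-2 + 1) (by omega)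
    simp only [hS]
    rw [SS_empty ha, Real.log_one]
  have t2 : ∑ j ∈ Finset.range (m + 1), (-1 : ℝ) ^ j * (S (j - 2) + S (j - 2 + 1)) =
      (-1) ^ m * S q := by
    have := fin_tele (fun j => S (j - 2)) (m + 1)
    simp only [Nat.cast_zero, Nat.cast_add, Nat.cast_one] at this
    rw [show (0 : ℤ) - 2 = -2 by ring, hS0, show (m : ℤ) + 1 - 2 = q by omega, pow_succ] at this
    refine Eq.trans (Finset.sum_congr rfl fun j _ => ?_) (this.trans (by ring))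
    rw [show (j : ℤ) - 2 + 1 = j + 1 - 2 by ring]
  have t3 : ∑ j ∈ Finset.range (m + 1), (-1 : ℝ) ^ j * (r (j - 1) + r (j - 1 + 1)) =
      (-1) ^ m * r (q + 1) := by
    have := fin_tele (fun j => r (j - 1)) (m + 1)
    simp only [Nat.cast_zero, Nat.cast_add, Nat.cast_one] at this
    rw [show (0 : ℤ) - 1 = -1 by ring, hr0, show (m : ℤ) + 1 - 1 = q + 1 by omega,
      pow_succ] at this
    refine Eq.trans (Finset.sum_congr rfl fun j _ => ?_) (this.trans (by ring))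
    rw [show (j : ℤ) - 1 + 1 = j + 1 - 1 by ring]
  have t4 : ∑ j ∈ Finset.range (m + 1), (-1 : ℝ) ^ j * (E (j - 2) + k (j - 1) / 2 * L) =
      (-1) ^ m * S q - L / 2 * ((-1) ^ m * r (q + 1)) +
        (∑ j ∈ Finset.range (m + 1), (-1 : ℝ) ^ j * l (j - 1)) / 2 := by
    have e1 : ∀ j : ℕ, (-1 : ℝ) ^ j * (E (j - 2) + k (j - 1) / 2 * L) =
        (-1 : ℝ) ^ j * (S (j - 2) + S (j - 2 + 1)) -
          L / 2 * ((-1 : ℝ) ^ j * (r (j - 1) + r (j - 1 + 1))) +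
          (1 / 2) * ((-1 : ℝ) ^ j * l (j - 1)) := fun j => by
      have e2 : (j : ℤ) - 2 + 1 = j - 1 := by ring
      have e3 : E (j - 2) = S (j - 2) + S (j - 2 + 1) - N (j - 1 + 1) / 2 * L + l (j - 1) / 2 := by
        simp only [hEd]
        rw [e2]
      rw [e3, hNk]
      ring
    simp only [e1, Finset.sum_add_distrib, Finset.sum_sub_distrib, ← Finset.mul_sum, t2, t3]
    ring
  have a4 : 0 ≤ ε' * d := by positivity
  have hb : ∀ j ∈ Finset.range (m + 1),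
      (-1 : ℝ) ^ m * ((-1 : ℝ) ^ j * (E (j - 2) + k (j - 1) / 2 * L)) ≤ 2 * (ε' * d) := by
    intro j hj
    have a5 : |k (j - 1) * L| ≤ ε' * d := by
      rw [abs_mul, abs_of_nonneg (hk0 _)]
      exact hk1 _
    obtain ⟨a6, a7⟩ := abs_le.1 a5
    have a3 := hE0 (j - 2)
    rw [← mul_assoc, ← pow_add]
    rcases Nat.even_or_odd (m + j) with h | h
    · have a8 := hE1 (j - 2) (by have := Finset.mem_range.1 hj; omega) (by
        obtain ⟨t, ht⟩ := h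
        exact ⟨t - j, by omega⟩)
      rw [h.neg_one_pow]
      linarith
    · rw [h.neg_one_pow]
      linarith
  have t5 := Finset.sum_le_sum hb
  rw [← Finset.mul_sum, t4, Finset.sum_const, Finset.card_range, nsmul_eq_mul] at t5
  obtain ⟨b1, b2⟩ := xfin_rank _ _ (hDR q) η
  have b3 : |(R (q + 1) - r (q + 1)) * L| ≤ ε' * d := by
    rw [abs_mul, abs_of_nonneg (sub_nonneg.2 b1)]
    exact (mul_le_mul_of_nonneg_right (by linarith) (abs_nonneg L)).trans (hk1 q)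
  have b4 := (abs_le.1 b3).1
  have b5 : ε * d = (m + 2) * (2 * (ε' * d)) := by rw [hε']; field_simp
  change S q ≤ R (q + 1) / 2 * L -
    (-1) ^ m * (∑ j ∈ Finset.range (m + 1), (-1 : ℝ) ^ j * l (j - 1)) / 2 + ε * d
  push_cast at t5
  rcases xfin_sign m with h | h <;> rw [h] at t5 ⊢ <;> nlinarith

theorem finMain3 (m : ℕ) {C ε : ℝ} (hC : 1 ≤ C) (hε : 0 < ε) : ∃ δ > 0, ∀ M : ℝ, 1 ≤ M →
    ∃ ζ > 0, ∀ η : ℝ, 0 < η → η ≤ 1 → ∀ d : ℝ, 0 < d →
    ∀ (J J' : ℤ → Type) [∀ p, Fintype (J p)] [∀ p, DecidableEq (J p)] [∀ p, Fintype (J' p)]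
      [∀ p, DecidableEq (J' p)] (D : ∀ p, Matrix (J p) (J (p + 1)) ℤ)
      (D' : ∀ p, Matrix (J' p) (J' (p + 1)) ℤ),
      (∀ p p' : ℤ, p + p' = 2 * m → ∃ (e : J' p' ≃ J (p + 1)) (e' : J' (p' + 1) ≃ J p),
        D' p' = (D p)ᵀ.submatrix e e') →
      (∀ p, D p * D (p + 1) = 0) → (∀ p, p < 0 → IsEmpty (J p)) →
      (∀ p, (Fintype.card (J p) : ℝ) ≤ C * d) → (∀ p, RC (D p) C) →
      (∀ p, (cnt (lapR (cm (D p)) (cm (D (p + 1)))) η : ℝ) * (1 - Real.log η) ≤ ζ * d) →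
      (∀ p : ℤ, 0 ≤ p + 1 → p + 1 < m → Odd (m - (p + 1)) → ∃ κ : ℝ,
        κ * (1 - Real.log η) ≤ ζ * d ∧ Lab (D p) (D (p + 1)) C δ (M / η ^ 2) κ d) →
      (∀ p, D' p * D' (p + 1) = 0) → (∀ p, p < 0 → IsEmpty (J' p)) →
      (∀ p, (Fintype.card (J' p) : ℝ) ≤ C * d) → (∀ p, RC (D' p) C) →
      (∀ p, (cnt (lapR (cm (D' p)) (cm (D' (p + 1)))) η : ℝ) * (1 - Real.log η) ≤ ζ * d) →
      (∀ p : ℤ, 0 ≤ p + 1 → p + 1 < m → Odd (m - (p + 1)) → ∃ κ : ℝ,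
        κ * (1 - Real.log η) ≤ ζ * d ∧ Lab (D' p) (D' (p + 1)) C δ (M / η ^ 2) κ d) →
      -(ε * d) ≤ (-1 : ℝ) ^ m * (-(1 / 2) *
        ∑ p ∈ Finset.Icc (0 : ℤ) (2 * m + 1 : ℕ), (-1 : ℝ) ^ p * p * ltr D η (p - 1)) := by
  obtain ⟨a, ha, δ, hδ, H⟩ := finHalf m hC (half_pos hε)
  refine ⟨δ, hδ, fun M hM => ?_⟩
  obtain ⟨ζ, hζ, H⟩ := H M hM
  refine ⟨ζ, hζ, ?_⟩
  intro η h0 h1 d hd J J' _ _ _ _ D D' he a1 a2 a3 a4 a5 a6 b1 b2 b3 b4 b5 b6
  obtain ⟨q, hq⟩ : ∃ q : ℤ, q + 1 = m := ⟨m - 1, by ring⟩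
  have k1 := H η h0 h1 d hd J D a1 a2 a3 a4 a5 a6 q hq
  have k2 := H η h0 h1 d hd J' D' b1 b2 b3 b4 b5 b6 q hq
  have htr : ∀ p p' : ℤ, p + p' = 2 * m → ∀ ψ : ℝ → ℝ, ψ 0 = 0 →
      trf ((cm (D' p'))ᵀ * cm (D' p')) ψ = trf ((cm (D p))ᵀ * cm (D p)) ψ := by
    intro p p' h ψ hψ
    obtain ⟨e, e', h⟩ := he p p' h
    have : (cm (D' p'))ᵀ * cm (D' p') = (cm (D p) * (cm (D p))ᵀ).submatrix e' e' := by
      rw [h, ← submatrix_mul_equiv (e₂ := e)]
      rfl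
    rw [this, trf_reindex (by rw [transpose_mul, transpose_transpose]), trf_swap _ _ hψ]
  obtain ⟨e, e', h⟩ := he (q + 1) (q + 1) (by omega)
  have k3 := lower_mid ha (D q) (D (q + 1)) (D' q) e (a1 q) (by
    have := b1 q
    rw [h] at this
    ext i j
    have := congrFun (congrFun this i) (e'.symm j)
    simpa [mul_apply] using this)
  rw [htr (q + 1) (q + 1) (by omega) _ (by simp [ind1])] at k2
  have k4 := xfin_log (cm (D (q + 1))) h0 h1
  set l : ℤ → ℝ := fun p => ell (cm (D p)) η with hl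
  have hl' : ∀ j : ℕ, ell (cm (D' (j - 1))) η = l (2 * m + 1 - j) := fun j =>
    htr _ _ (by ring) _ (by simp [psi])
  simp only [hl'] at k2
  have hDR : ∀ p, cm (D p) * cm (D (p + 1)) = 0 := fun p => by rw [← cm_mul, a1, cm_zero]
  have hlt : ∀ p, ltr D η p = l p + l (p + 1) := fun p =>
    trf_lap _ _ (hDR p) _ (by simp [psi])
  have l0 : l (0 - 1) = 0 := fin_trf_zero _ (by
    have := a2 (0 - 1) (by omega)
    ext i
    exact isEmptyElim i) _ (by simp [psi])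
  have l1 : l (2 * m + 1) = 0 := by
    have := hl' 0
    simp only [Nat.cast_zero, sub_zero] at this
    rw [← this]
    exact fin_trf_zero _ (by
      have := b2 (0 - 1) (by omega)
      ext i
      exact isEmptyElim i) _ (by simp [psi])
  have t1 : ∑ p ∈ Finset.Icc (0 : ℤ) (2 * m + 1 : ℕ), (-1 : ℝ) ^ p * p * ltr D η (p - 1) =
      ∑ j ∈ Finset.range (2 * m + 1 + 2), (-1 : ℝ) ^ j * l (j - 1) := by
    have := fin_tele2 (fun j => l (j - 1)) (2 * m + 1)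
    rw [fin_Icc]
    simp only [Nat.cast_zero, Nat.cast_add, Nat.cast_one, Nat.cast_mul, Nat.cast_ofNat] at this
    rw [l0, add_sub_cancel_right, l1] at this
    simp only [sub_zero, mul_zero, add_zero] at this
    rw [← this]
    refine Finset.sum_congr rfl fun j _ => ?_
    rw [hlt, zpow_natCast, show (j : ℤ) - 1 + 1 = j + 1 - 1 by ring]
    simp
  have t2 : ∑ j ∈ Finset.range (2 * m + 1 + 2), (-1 : ℝ) ^ j * l (j - 1) =
      ∑ j ∈ Finset.range (m + 1), (-1 : ℝ) ^ j * l (j - 1) - (-1) ^ m * l (q + 1) +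
        ∑ j ∈ Finset.range (m + 1), (-1 : ℝ) ^ j * l (2 * m + 1 - j) := by
    rw [show 2 * m + 1 + 2 = m + 1 + 1 + (m + 1) by ring, Finset.sum_range_add,
      Finset.sum_range_succ _ (m + 1), ← Finset.sum_range_reflect
        (fun j : ℕ => (-1 : ℝ) ^ j * l (2 * m + 1 - j)) (m + 1)]
    congr 1
    · push_cast
      rw [add_sub_cancel_right, hq, pow_succ]
      ring
    · refine Finset.sum_congr rfl fun j hj => ?_
      have hj' := Finset.mem_range.1 hj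
      obtain ⟨t, rfl⟩ : ∃ t, m = j + t := ⟨m - j, by omega⟩
      rw [show j + t + 1 - 1 - j = t by omega, show j + t + 1 + 1 + j = 2 * (j + 1) + t by ring,
        pow_add, pow_mul]
      push_cast
      rw [show 2 * ((j : ℤ) + 1) + t - 1 = 2 * (j + t) + 1 - t by ring]
      norm_num
  rw [t1, t2]
  change _ ≤ l (q + 1) at k4
  change _ ≤ _ - _ * (∑ j ∈ Finset.range (m + 1), (-1 : ℝ) ^ j * l (j - 1)) / 2 + _ at k1
  rcases xfin_sign m with h | h <;> rw [h] at k1 k2 ⊢ <;> linarith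

end Pool.Agent.Lib.MP_fd3021_gt
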