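import Pool.Agent.Lib.MP_fd3021_gt.WA

/-! The middle inequality: Gaussian sums over the cycles and over the cocycles. -/

namespace Pool.Agent.Lib.MP_fd3021_gt

open Matrix

variable {n0 n1 n2 n3 ι : Type} [Fintype n0] [Fintype n1] [Fintype n2] [Fintype n3] [Fintype ι]

/-- indicator function of the nonzero reals -/
noncomputable def ind1 (x : ℝ) : ℝ := if x = 0 then 0 else 1

theorem trf_swap [DecidableEq n1] [DecidableEq n2] (D : Matrix n1 n2 ℝ) (ψ : ℝ → ℝ)
    (h0 : ψ 0 = 0) : trf (D * Dᵀ) ψ = trf (Dᵀ * D) ψ := by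
  rw [← ltr_mul_fc (dec_symm D) ψ h0]
  exact (ltr_inter (dec_symm D) (Matrix.mul_assoc _ _ _).symm ψ h0).symm

theorem trf_reindex [DecidableEq n1] [DecidableEq n2] {A : Matrix n1 n1 ℝ} (h : Aᵀ = A)
    (e : n2 ≃ n1) (g : ℝ → ℝ) : trf (A.submatrix e e) g = trf A g := by
  have hX : (1 : Matrix n1 n1 ℝ).submatrix e id * A =
      A.submatrix e e * (1 : Matrix n1 n1 ℝ).submatrix e id := by
    have e1 : (1 : Matrix n1 n1 ℝ).submatrix e id * A = A.submatrix e id := by
      ext i j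
      simp [mul_apply, one_apply]
    rw [e1, submatrix_mul_equiv, Matrix.mul_one]
  have h' : (A.submatrix e e)ᵀ = A.submatrix e e := by rw [transpose_submatrix, h]
  have h1 := intertwine h h' hX g
  have h2 : (1 : Matrix n1 n1 ℝ).submatrix e id * (1 : Matrix n1 n1 ℝ).submatrix id e = 1 := by
    ext i j
    simp [mul_apply, one_apply]
  have h3 : (1 : Matrix n1 n1 ℝ).submatrix id e * (1 : Matrix n1 n1 ℝ).submatrix e id = 1 := by
    rw [submatrix_mul_equiv]
    simp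
  rw [← trace_fc, ← trace_fc, ← Matrix.mul_one (fc (A.submatrix e e) g), ← h2,
    ← Matrix.mul_assoc, ← h1, trace_mul_cycle, h3, Matrix.one_mul]

theorem xlat_det [DecidableEq ι] {A : Matrix ι ι ℝ} (h : Aᵀ = A) : A.det = ∏ i, ev A i := by
  conv_lhs => rw [← fc_id h]
  rw [fc, det_mul, det_mul, mul_comm, ← mul_assoc, ← det_mul, T_mul_eU, det_one, one_mul,
    det_diagonal]

theorem xlat_ne [DecidableEq ι] {A : Matrix ι ι ℝ} (h : Aᵀ = A) (hd : A.det ≠ 0) (i : ι) :
    ev A i ≠ 0 := by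
  rw [xlat_det h] at hd
  exact Finset.prod_ne_zero_iff.1 hd i (Finset.mem_univ i)

theorem xlat_log [DecidableEq ι] {A : Matrix ι ι ℝ} (h : Aᵀ = A) (hd : A.det ≠ 0) :
    trf A Real.log = Real.log A.det := by
  rw [xlat_det h, Real.log_prod fun i _ => xlat_ne h hd i, trf]

omit [Fintype n0] in
theorem xlat_one [DecidableEq ι] {a : ℝ} (ha : 0 < a) (Dm : Matrix n0 n1 ℤ) (P : Matrix n1 ι ℤ)
    (h : Dm * P = 0) (hd : ((cm P)ᵀ * cm P).det ≠ 0) :
    (Fintype.card ι : ℝ) / 2 * Real.log (Real.pi / a) - Real.log ((cm P)ᵀ * cm P).det / 2 ≤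
      Real.log (SS a Dm) := by
  classical
  have hs := dec_symm (cm P)
  have hpos : ∀ i, 0 < ev ((cm P)ᵀ * cm P) i := fun i =>
    lt_of_le_of_ne (ev_nonneg hs (fun y => by rw [← nsq_mulVec]; exact nsq_nonneg _) i)
      (xlat_ne hs hd i).symm
  have hinj : Function.Injective fun y : ι → ℤ => P *ᵥ y := fun y y' e => by
    have e1 : ((cm P)ᵀ * cm P) *ᵥ (cv y - cv y') = 0 := by
      have e' : P *ᵥ y = P *ᵥ y' := e
      rw [← mulVec_mulVec, mulVec_sub, ← cv_mulVec, ← cv_mulVec, e', sub_self, mulVec_zero]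
    have e2 := sub_eq_zero.1 (eq_zero_of_mulVec_eq_zero hd e1)
    funext i
    have := congrFun e2 i
    simpa [cv] using this
  have key := gauss_lower (eU ((cm P)ᵀ * cm P)) (eU_mul_T _)
    (fun i => a * ev ((cm P)ᵀ * cm P) i) (fun i => mul_pos ha (hpos i)) (SS a Dm) fun F v => by
    have e1 : ∀ y : ι → ℤ, ∑ i, (a * ev ((cm P)ᵀ * cm P) i) *
        ((eU ((cm P)ᵀ * cm P))ᵀ *ᵥ (cv y + v)) i ^ 2 =
        a * nsq (cv (P *ᵥ y) + cm P *ᵥ v) := fun y => by
      rw [cv_mulVec, ← mulVec_add, nsq_mulVec]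
      conv_rhs => rw [← fc_id hs]
      rw [qf_fc, Finset.mul_sum]
      exact Finset.sum_congr rfl fun i _ => mul_assoc _ _ _
    simp only [e1]
    have h2 := le_SS ha Dm (F.image fun y => P *ᵥ y) (cm P *ᵥ v) fun z hz => by
      obtain ⟨y, -, rfl⟩ := Finset.mem_image.1 hz
      rw [mulVec_mulVec, h, zero_mulVec]
    rwa [Finset.sum_image fun x _ y _ h => hinj h] at h2
  have hp : ∀ i, 0 < √(Real.pi / (a * ev ((cm P)ᵀ * cm P) i)) := fun i =>
    Real.sqrt_pos.2 (div_pos Real.pi_pos (mul_pos ha (hpos i)))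
  have := Real.log_le_log (Finset.prod_pos fun i _ => hp i) key
  refine le_trans (le_of_eq ?_) this
  rw [Real.log_prod fun i _ => (hp i).ne', ← xlat_log hs hd, trf, Finset.sum_div,
    ← Finset.card_univ, Finset.card_eq_sum_ones]
  push_cast
  rw [Finset.sum_div, Finset.sum_mul, ← Finset.sum_sub_distrib]
  refine Finset.sum_congr rfl fun i _ => ?_
  rw [Real.log_sqrt (div_pos Real.pi_pos (mul_pos ha (hpos i))).le, ← div_div,
    Real.log_div (div_pos Real.pi_pos ha).ne' (hpos i).ne']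
  ring

omit [Fintype n1] in
theorem xlat_fact [DecidableEq n2] (D : Matrix n1 n2 ℤ) [Finite n1] :
    ∃ (r : ℕ) (P : Matrix n1 (Fin r) ℤ) (X : Matrix (Fin r) n2 ℤ) (R : Matrix n2 (Fin r) ℤ),
      D = P * X ∧ X * R = 1 ∧ P = D * R ∧ ∀ y, P *ᵥ y = 0 → y = 0 := by
  obtain ⟨r, bs⟩ := Submodule.basisOfPid (Pi.basisFun ℤ n1) (LinearMap.range D.mulVecLin)
  choose R hR using fun k => (bs k).2
  have hP : ∀ y : Fin r → ℤ, (of fun i k => (bs k : n1 → ℤ) i) *ᵥ y =
      ((bs.equivFun.symm y : LinearMap.range D.mulVecLin) : n1 → ℤ) := fun y => by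
    funext i
    simp [mulVec, dotProduct, mul_comm]
  have hinj : ∀ y : Fin r → ℤ, (of fun i k => (bs k : n1 → ℤ) i) *ᵥ y = 0 → y = 0 :=
    fun y hy => by
    rw [hP] at hy
    exact bs.equivFun.symm.injective (by rw [map_zero]; exact Subtype.ext hy)
  have h1 : D = (of fun i k => (bs k : n1 → ℤ) i) * of fun k j =>
      bs.equivFun ⟨D *ᵥ Pi.single j 1, _, rfl⟩ k := by
    ext i j
    have := congrFun (hP (bs.equivFun ⟨D *ᵥ Pi.single j 1, _, rfl⟩)) i
    rw [LinearEquiv.symm_apply_apply] at this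
    simpa [mulVec, dotProduct, mul_apply, Pi.single_apply] using this.symm
  have h2 : (of fun i k => (bs k : n1 → ℤ) i) = D * of fun j k => R k j := by
    ext i k
    have := congrFun (hR k) i
    simpa [mulVec, dotProduct, mul_apply] using this.symm
  refine ⟨r, _, _, of fun j k => R k j, h1, ?_, h2, hinj⟩
  ext i k
  have := hinj (((of fun k j => bs.equivFun ⟨D *ᵥ Pi.single j 1, _, rfl⟩ k) *
    (of fun j k => R k j) - 1) *ᵥ Pi.single k 1) (by
      rw [mulVec_mulVec, Matrix.mul_sub, ← Matrix.mul_assoc, ← h1, ← h2, Matrix.mul_one,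
        sub_self, zero_mulVec])
  have := congrFun this i
  simpa [sub_eq_zero, one_apply] using this

omit [Fintype n0] [Fintype n3] in
theorem lower_mid [DecidableEq n1] [DecidableEq n2] {a : ℝ} (ha : 0 < a) (Dm : Matrix n0 n1 ℤ)
    (D : Matrix n1 n2 ℤ) {n2' : Type} [Fintype n2'] (E : Matrix n3 n2' ℤ) (e : n2' ≃ n2)
    (h1 : Dm * D = 0) (h2 : E * Dᵀ.submatrix e id = 0) :
    trf ((cm D)ᵀ * cm D) ind1 * Real.log (Real.pi / a) - trf ((cm D)ᵀ * cm D) Real.log / 2 ≤
      Real.log (SS a Dm) + Real.log (SS a E) := by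
  obtain ⟨r, P, X, R, hD, hR, hP, hinj⟩ := xlat_fact D
  have d1 : ((cm P)ᵀ * cm P).det ≠ 0 := fun h => by
    have h' : (Pᵀ * P).det = 0 := by
      have : ((Pᵀ * P).det : ℝ) = ((cm P)ᵀ * cm P).det := by
        rw [← cm_transpose, ← cm_mul]
        exact Int.cast_det _
      exact_mod_cast this.trans h
    obtain ⟨v, hv, h0⟩ := exists_mulVec_eq_zero_iff.2 h'
    refine hv (hinj v ?_)
    have : (P *ᵥ v) ⬝ᵥ (P *ᵥ v) = 0 := by
      rw [dotProduct_mulVec, vecMul_mulVec, ← mulVec_transpose, transpose_mul,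
        transpose_transpose, h0, zero_dotProduct]
    exact dotProduct_self_eq_zero.1 this
  have hXR : cm X * cm R = 1 := by rw [← cm_mul, hR, cm_one]
  have d2 : (cm X * (cm X)ᵀ).det ≠ 0 := fun h => by
    obtain ⟨v, hv, h0⟩ := exists_mulVec_eq_zero_iff.2 h
    have : ((cm X)ᵀ *ᵥ v) ⬝ᵥ ((cm X)ᵀ *ᵥ v) = 0 := by
      rw [dotProduct_mulVec, vecMul_mulVec, ← mulVec_transpose, transpose_mul,
        transpose_transpose, h0, zero_dotProduct]
    refine hv ?_
    rw [← one_mulVec v, ← transpose_one, ← hXR, transpose_mul, ← mulVec_mulVec,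
      dotProduct_self_eq_zero.1 this, mulVec_zero]
  have hs := dec_symm (cm P)
  set H := fc ((cm P)ᵀ * cm P) Real.sqrt with hH
  have hHH : H * H = (cm P)ᵀ * cm P := by
    rw [hH, fc_mul]
    conv_rhs => rw [← fc_id hs]
    exact fc_congr _ fun i => Real.mul_self_sqrt
      (ev_nonneg hs (fun y => by rw [← nsq_mulVec]; exact nsq_nonneg _) i)
  have hHT : Hᵀ = H := fc_transpose _ _
  have z1 : (H * cm X)ᵀ * (H * cm X) = (cm D)ᵀ * cm D := by
    rw [hD, cm_mul, transpose_mul, transpose_mul, hHT, Matrix.mul_assoc, Matrix.mul_assoc,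
      ← Matrix.mul_assoc H, hHH, Matrix.mul_assoc]
  have z2 : (H * cm X * (H * cm X)ᵀ).det = ((cm P)ᵀ * cm P).det * (cm X * (cm X)ᵀ).det := by
    rw [transpose_mul, hHT, ← hHH, Matrix.mul_assoc, ← Matrix.mul_assoc (cm X), det_mul,
      det_mul, det_mul]
    ring
  have z3 : (H * cm X * (H * cm X)ᵀ)ᵀ = H * cm X * (H * cm X)ᵀ := by
    rw [transpose_mul, transpose_transpose]
  have z4 := z2 ▸ mul_ne_zero d1 d2
  have e1 : ((cm (Xᵀ.submatrix e id))ᵀ * cm (Xᵀ.submatrix e id)) = cm X * (cm X)ᵀ := by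
    rw [← cm_transpose, ← cm_mul, ← cm_transpose, ← cm_mul, transpose_submatrix,
      transpose_transpose, submatrix_mul_equiv, submatrix_id_id]
  have k1 := xlat_one ha Dm P (by rw [hP, ← Matrix.mul_assoc, h1, Matrix.zero_mul]) d1
  have k2 := xlat_one ha E (Xᵀ.submatrix e id) (by
    ext i k
    have e2 : Dᵀ.submatrix e id = Xᵀ.submatrix e id * Pᵀ := by
      rw [hD, transpose_mul]
      ext i j
      simp [mul_apply]
    rw [e2, ← Matrix.mul_assoc] at h2
    have := hinj ((E * Xᵀ.submatrix e id) i) (by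
      funext j
      have := congrFun (congrFun h2 i) j
      simpa [mul_apply, mulVec, dotProduct, mul_comm] using this)
    exact congrFun this k) (e1 ▸ d2)
  rw [e1] at k2
  rw [← z1, ← trf_swap _ _ (by simp [ind1]), ← trf_swap _ _ Real.log_zero, xlat_log z3 z4, z2,
    Real.log_mul d1 d2]
  have : trf (H * cm X * (H * cm X)ᵀ) ind1 = Fintype.card (Fin r) := by
    simp [trf, ind1, xlat_ne z3 z4, -transpose_mul]
  rw [this]
  linarith

end Pool.Agent.Lib.MP_fd3021_gt
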